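import Pool.Agent.H10R2.PL.AsmA

namespace H10PL

open MeasureTheory ProbabilityTheory Matrix Set

variable {d : ℕ} {T0 : (Fin d → ℤ) → (Fin d → ℤ) → ℝ} {κ : (Fin d → ℤ) → ℝ} {ρ0 b : ℝ}

theorem ball_finite (x : Fin d → ℤ) (R : ℝ) : {y : Fin d → ℤ | ‖y - x‖ ≤ R}.Finite := by
  have : {y : Fin d → ℤ | ‖y - x‖ ≤ R} = Metric.closedBall x R := by
    ext y
    simp [dist_eq_norm]
  rw [this]
  exact (isCompact_closedBall x R).finite_of_discrete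

theorem asm_sg_sq (c : Bool) : sg c ^ 2 = 1 := by cases c <;> simp [sg]

theorem asm_abs_sg (c : Bool) : |sg c| = 1 := by cases c <;> simp [sg]

theorem b_nonneg (h : Adm T0 κ ρ0 b) : 0 ≤ b := by
  have := h.T0sum 0 ∅
  simpa using this

theorem Kf_sq_le (s : Sym2 (Fin d → ℤ) → Bool) (y w : Fin d → ℤ) :
    Kf T0 κ s y w ^ 2 ≤ 2 * T0 y w ^ 2 + 2 * κ (y - w) ^ 2 := by
  unfold Kf
  have h1 := asm_sg_sq (s s(y, w))
  have h2 : (sg (s s(y, w)) * κ (y - w)) ^ 2 = κ (y - w) ^ 2 := by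
    rw [mul_pow, h1, one_mul]
  nlinarith [sq_nonneg (T0 y w - sg (s s(y, w)) * κ (y - w))]

theorem T0_sq_sum (h : Adm T0 κ ρ0 b) (y : Fin d → ℤ) (F : Finset (Fin d → ℤ)) :
    ∑ w ∈ F, T0 y w ^ 2 ≤ b ^ 2 := by
  have h1 := h.T0sum y F
  have h2 : ∑ w ∈ F, T0 y w ^ 2 ≤ (∑ w ∈ F, |T0 y w|) ^ 2 := by
    have : ∑ w ∈ F, T0 y w ^ 2 = ∑ w ∈ F, |T0 y w| ^ 2 := by
      refine Finset.sum_congr rfl fun w _ => ?_
      rw [sq_abs]
    rw [this]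
    exact Finset.sum_sq_le_sq_sum_of_nonneg (fun w _ => abs_nonneg _)
  have h0 : 0 ≤ ∑ w ∈ F, |T0 y w| := Finset.sum_nonneg fun w _ => abs_nonneg _
  nlinarith

theorem κ_sq_sum (h : Adm T0 κ ρ0 b) (y : Fin d → ℤ) (F : Finset (Fin d → ℤ)) :
    ∑ w ∈ F, κ (y - w) ^ 2 ≤ ∑' z, κ z ^ 2 := by
  classical
  have hinj : Set.InjOn (fun w => y - w) (F : Set (Fin d → ℤ)) := by
    intro a _ c _ hac
    simpa using hac
  rw [← Finset.sum_image (f := fun z => κ z ^ 2) hinj]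
  exact h.κsq.sum_le_tsum _ (fun z _ => sq_nonneg _)

/-- row bound constant -/
noncomputable def aC (b : ℝ) (κ : (Fin d → ℤ) → ℝ) : ℝ := 2 * b ^ 2 + 2 * ∑' z, κ z ^ 2

theorem Am_row (h : Adm T0 κ ρ0 b) (ρ : ℝ) (Λ : Finset (Fin d → ℤ))
    (s : Sym2 (Fin d → ℤ) → Bool) (i : Λ) : ∑ j, (Am T0 κ ρ Λ s i j) ^ 2 ≤ aC b κ := by
  have h1 : ∀ j : Λ, (Am T0 κ ρ Λ s i j) ^ 2 ≤ 2 * T0 i j ^ 2 + 2 * κ (i - j) ^ 2 := by
    intro j
    unfold Am Kr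
    split_ifs
    · exact Kf_sq_le s _ _
    · have := sq_nonneg (T0 (i : Fin d → ℤ) j)
      have := sq_nonneg (κ ((i : Fin d → ℤ) - j))
      nlinarith
  calc ∑ j, (Am T0 κ ρ Λ s i j) ^ 2 ≤ ∑ j : Λ, (2 * T0 i j ^ 2 + 2 * κ (i - j) ^ 2) :=
        Finset.sum_le_sum fun j _ => h1 j
    _ = 2 * ∑ w ∈ Λ, T0 i w ^ 2 + 2 * ∑ w ∈ Λ, κ (i - w) ^ 2 := by
        rw [Finset.sum_add_distrib, ← Finset.mul_sum, ← Finset.mul_sum,
          Finset.sum_coe_sort Λ (fun w => T0 i w ^ 2), Finset.sum_coe_sort Λ (fun w => κ (i - w) ^ 2)]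
    _ ≤ aC b κ := by
        unfold aC
        have h2 := T0_sq_sum h i Λ
        have h3 := κ_sq_sum h i Λ
        linarith

theorem row_abs (h : Adm T0 κ ρ0 b) (ρ : ℝ) : ∃ T : ℝ, 0 ≤ T ∧
    ∀ (Λ : Finset (Fin d → ℤ)) (s : Sym2 (Fin d → ℤ) → Bool) (y : Fin d → ℤ),
      ∑ w ∈ Λ, |Kr T0 κ ρ s y w| ≤ T := by
  classical
  set Bf := (ball_finite (0 : Fin d → ℤ) ρ).toFinset with hBf
  refine ⟨b + ∑ z ∈ Bf, |κ z|, ?_, ?_⟩
  · have := b_nonneg h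
    have : 0 ≤ ∑ z ∈ Bf, |κ z| := Finset.sum_nonneg fun z _ => abs_nonneg _
    linarith
  · intro Λ s y
    have h1 : ∀ w, |Kr T0 κ ρ s y w| ≤ |T0 y w| + (if ‖y - w‖ ≤ ρ then |κ (y - w)| else 0) := by
      intro w
      unfold Kr Kf
      split_ifs with hc
      · refine le_trans (abs_add_le _ _) ?_
        rw [abs_mul, asm_abs_sg, one_mul]
      · simp
    calc ∑ w ∈ Λ, |Kr T0 κ ρ s y w|
        ≤ ∑ w ∈ Λ, (|T0 y w| + (if ‖y - w‖ ≤ ρ then |κ (y - w)| else 0)) :=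
          Finset.sum_le_sum fun w _ => h1 w
      _ = ∑ w ∈ Λ, |T0 y w| + ∑ w ∈ Λ, (if ‖y - w‖ ≤ ρ then |κ (y - w)| else 0) :=
          Finset.sum_add_distrib
      _ ≤ b + ∑ z ∈ Bf, |κ z| := by
          refine add_le_add (h.T0sum y Λ) ?_
          rw [← Finset.sum_filter]
          have hinj : Set.InjOn (fun w => y - w)
              ((Λ.filter fun w => ‖y - w‖ ≤ ρ : Finset _) : Set (Fin d → ℤ)) := by
            intro a _ c _ hac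
            simpa using hac
          rw [← Finset.sum_image (f := fun z => |κ z|) hinj]
          refine Finset.sum_le_sum_of_subset_of_nonneg ?_ (fun z _ _ => abs_nonneg _)
          intro z hz
          obtain ⟨w, hw, rfl⟩ := Finset.mem_image.1 hz
          have := (Finset.mem_filter.1 hw).2
          simp only [hBf, Set.Finite.mem_toFinset]
          show ‖y - w - 0‖ ≤ ρ
          simpa using this

theorem κ_bdd (h : Adm T0 κ ρ0 b) : ∃ k : ℝ, 0 < k ∧ ∀ y, |κ y| ≤ k := by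
  refine ⟨Real.sqrt (∑' z, κ z ^ 2) + 1, by positivity, fun y => ?_⟩
  have h1 : κ y ^ 2 ≤ ∑' z, κ z ^ 2 := h.κsq.le_tsum y (fun z _ => sq_nonneg _)
  have h2 : |κ y| ≤ Real.sqrt (∑' z, κ z ^ 2) := by
    rw [← Real.sqrt_sq_eq_abs]
    exact Real.sqrt_le_sqrt h1
  linarith

theorem tail_small (h : Adm T0 κ ρ0 b) {δ : ℝ} (hδ : 0 < δ) : ∃ ρ1 : ℝ, ∀ ρ, ρ1 ≤ ρ →
    (∑' y : Fin d → ℤ, if ρ < ‖y‖ then κ y ^ 2 else 0) ≤ δ := by
  classical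
  obtain ⟨F, hF⟩ := (summable_iff_vanishing_norm.1 h.κsq) δ hδ
  obtain ⟨ρ1, hρ1⟩ : ∃ ρ1 : ℝ, ∀ y ∈ F, ‖y‖ ≤ ρ1 := by
    refine ⟨∑ y ∈ F, ‖y‖, fun y hy => ?_⟩
    exact Finset.single_le_sum (f := fun y : Fin d → ℤ => ‖y‖) (fun z _ => norm_nonneg z) hy
  refine ⟨ρ1, fun ρ hρ => ?_⟩
  have hs : Summable fun y : Fin d → ℤ => if ρ < ‖y‖ then κ y ^ 2 else 0 := by
    refine Summable.of_nonneg_of_le (fun y => ?_) (fun y => ?_) h.κsq
    · split_ifs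
      · exact sq_nonneg _
      · exact le_rfl
    · split_ifs
      · exact le_rfl
      · exact sq_nonneg _
  refine hs.tsum_le_of_sum_le ?_
  intro G
  rw [← Finset.sum_filter]
  have hdis : Disjoint (G.filter fun y => ρ < ‖y‖) F := by
    rw [Finset.disjoint_left]
    intro y hy hyF
    have h1 := (Finset.mem_filter.1 hy).2
    have h2 := hρ1 y hyF
    linarith
  have := hF _ hdis
  exact (le_abs_self _).trans this.le

end H10PL
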