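import Pool.Agent.H10R2.PL.Defs2

/-! Task SHIFT: invariance of the law under lattice shifts. -/

namespace H10PL

open MeasureTheory ProbabilityTheory Matrix Set

section lattice

/-- reindexing of an infinite product by an injective map -/
theorem reindex_mp {ι κ' X : Type*} [MeasurableSpace X] (μ : Measure X) [IsProbabilityMeasure μ]
    (g : κ' → ι) (hg : Function.Injective g) :
    MeasurePreserving (fun (V : ι → X) (i : κ') => V (g i))
      (Measure.infinitePi (fun _ : ι => μ)) (Measure.infinitePi (fun _ : κ' => μ)) := by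
  classical
  have hm : Measurable (fun (V : ι → X) (i : κ') => V (g i)) :=
    measurable_pi_iff.mpr fun i => measurable_pi_apply (g i)
  refine ⟨hm, ?_⟩
  apply Measure.eq_infinitePi
  intro s t ht
  rw [Measure.map_apply hm (.pi s.countable_toSet fun _ _ ↦ ht _)]
  set t' : ι → Set X := fun j => if h : ∃ i, g i = j then t h.choose else univ with ht'
  have ht'g : ∀ i, t' (g i) = t i := by
    intro i
    have h : ∃ i', g i' = g i := ⟨i, rfl⟩
    rw [ht']
    simp only
    rw [dif_pos h]
    congr 1
    exact hg h.choose_spec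
  have ht'm : ∀ j, MeasurableSet (t' j) := by
    intro j
    rw [ht']
    simp only
    split_ifs with h
    · exact ht _
    · exact MeasurableSet.univ
  have hpre : (fun (V : ι → X) (i : κ') => V (g i)) ⁻¹' (Set.pi s t) =
      Set.pi ((s.image g : Finset ι) : Set ι) t' := by
    ext V
    simp only [mem_preimage, Set.mem_pi, Finset.mem_coe, Finset.mem_image]
    constructor
    · rintro h j ⟨i, hi, rfl⟩
      rw [ht'g]
      exact h i hi
    · intro h i hi
      have := h (g i) ⟨i, hi, rfl⟩
      rwa [ht'g] at this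
  rw [hpre, Measure.infinitePi_pi _ (fun i _ => ht'm i), Finset.prod_image (fun x _ y _ h => hg h)]
  exact Finset.prod_congr rfl fun i _ => by rw [ht'g]

variable {d : ℕ}

theorem shV_comp (a b : Fin d → ℤ) (V : (Fin d → ℤ) → ℝ) : shV a (shV b V) = shV (a + b) V := by
  funext y
  unfold shV
  rw [add_assoc]

theorem shV_zero (V : (Fin d → ℤ) → ℝ) : shV 0 V = V := by
  funext y
  unfold shV
  rw [add_zero]

theorem shS_comp (a b : Fin d → ℤ) (s : Sym2 (Fin d → ℤ) → Bool) :
    shS a (shS b s) = shS (a + b) s := by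
  funext e
  unfold shS
  rw [Sym2.map_map]
  congr 2
  funext y
  simp only [Function.comp_apply]
  rw [add_assoc]

theorem shS_zero (s : Sym2 (Fin d → ℤ) → Bool) : shS 0 s = s := by
  funext e
  unfold shS
  have : (fun y : Fin d → ℤ => y + 0) = id := by
    funext y
    rw [add_zero]
    rfl
  rw [this, Sym2.map_id]
  rfl

theorem shV_meas (a : Fin d → ℤ) : Measurable (shV a) :=
  measurable_pi_iff.mpr fun y => measurable_pi_apply (y + a)

theorem shS_meas (a : Fin d → ℤ) : Measurable (shS a) :=
  measurable_pi_iff.mpr fun e => measurable_pi_apply (e.map (fun y => y + a))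

/-- the shift as a measurable equivalence -/
def shE (a : Fin d → ℤ) : (((Fin d → ℤ) → ℝ) × (Sym2 (Fin d → ℤ) → Bool)) ≃ᵐ
    (((Fin d → ℤ) → ℝ) × (Sym2 (Fin d → ℤ) → Bool)) where
  toFun ω := (shV a ω.1, shS a ω.2)
  invFun ω := (shV (-a) ω.1, shS (-a) ω.2)
  left_inv := by
    rintro ⟨V, s⟩
    simp only [shV_comp, shS_comp, neg_add_cancel, shV_zero, shS_zero]
  right_inv := by
    rintro ⟨V, s⟩
    simp only [shV_comp, shS_comp, add_neg_cancel, shV_zero, shS_zero]
  measurable_toFun := ((shV_meas a).comp measurable_fst).prodMk ((shS_meas a).comp measurable_snd)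
  measurable_invFun :=
    ((shV_meas (-a)).comp measurable_fst).prodMk ((shS_meas (-a)).comp measurable_snd)

/-- the law is invariant under shifts, also for non-measurable sets -/
theorem shift_inv (μ : Measure ℝ) [IsProbabilityMeasure μ] (a : Fin d → ℤ)
    (U : Set (((Fin d → ℤ) → ℝ) × (Sym2 (Fin d → ℤ) → Bool))) :
    ((PVg d μ).prod (Ps d)) {ω | (shV a ω.1, shS a ω.2) ∈ U} = ((PVg d μ).prod (Ps d)) U := by
  have h1 : MeasurePreserving (shV a) (PVg d μ) (PVg d μ) :=
    reindex_mp μ (fun y : Fin d → ℤ => y + a) (add_left_injective a)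
  have h2 : MeasurePreserving (shS a) (Ps d) (Ps d) :=
    reindex_mp coin (fun e : Sym2 (Fin d → ℤ) => e.map (fun y => y + a))
      (Sym2.map.injective (add_left_injective a))
  have h3 : MeasurePreserving (shE a) ((PVg d μ).prod (Ps d)) ((PVg d μ).prod (Ps d)) :=
    h1.prod h2
  exact h3.measure_preimage_equiv U

theorem restrict_mpg (μ : Measure ℝ) [IsProbabilityMeasure μ] (Λ : Finset (Fin d → ℤ)) :
    MeasurePreserving (fun (V : (Fin d → ℤ) → ℝ) (y : Λ) => V y) (PVg d μ)
      (Measure.pi fun _ : Λ => μ) := by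
  refine ⟨by fun_prop, ?_⟩
  exact Measure.infinitePi_map_restrict (fun _ : (Fin d → ℤ) => μ) (I := Λ)

end lattice

end H10PL
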