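import Pool.Agent.H10R2.PL.Defs

/-! Task RES: resolvent of a real symmetric matrix. -/

set_option autoImplicit false
set_option linter.unusedSectionVars false

namespace H10PL

open MeasureTheory ProbabilityTheory Matrix Set

variable {ι : Type*} [Fintype ι] [DecidableEq ι]

theorem Mz_apply (A : Matrix ι ι ℝ) (V : ι → ℝ) (E η : ℝ) (i j : ι) :
    Mz A V E η i j = (A i j : ℂ) +
      (if i = j then (V i : ℂ) - ((E : ℂ) + (η : ℂ) * Complex.I) else 0) := by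
  unfold Mz
  simp only [Matrix.sub_apply, Matrix.map_apply, Matrix.add_apply, Matrix.diagonal_apply,
    Matrix.smul_apply, Matrix.one_apply, smul_eq_mul]
  by_cases h : i = j
  · simp [h]; ring
  · simp [h]

theorem Mz_mulVec (A : Matrix ι ι ℝ) (V : ι → ℝ) (E η : ℝ) (w : ι → ℂ) (i : ι) :
    (Mz A V E η *ᵥ w) i = (∑ j, (A i j : ℂ) * w j) +
      ((V i : ℂ) - ((E : ℂ) + (η : ℂ) * Complex.I)) * w i := by
  simp only [Matrix.mulVec, dotProduct, Mz_apply, add_mul, Finset.sum_add_distrib, ite_mul,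
    zero_mul, Finset.sum_ite_eq, Finset.mem_univ, if_true]

theorem res_real (A : Matrix ι ι ℝ) (hA : A.IsSymm) (w : ι → ℂ) :
    (∑ i, (starRingEnd ℂ) (w i) * ∑ j, (A i j : ℂ) * w j).im = 0 := by
  rw [← Complex.conj_eq_iff_im]
  simp only [map_sum, map_mul, Complex.conj_conj, Complex.conj_ofReal, Finset.mul_sum]
  rw [Finset.sum_comm]
  apply Finset.sum_congr rfl
  intro i _
  apply Finset.sum_congr rfl
  intro j _
  rw [hA.apply i j]
  ring

/-- the key identity -/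
theorem Mz_im (A : Matrix ι ι ℝ) (hA : A.IsSymm) (V : ι → ℝ) (E η : ℝ) (w : ι → ℂ) :
    (∑ i, (starRingEnd ℂ) (w i) * (Mz A V E η *ᵥ w) i).im = -η * ∑ i, ‖w i‖ ^ 2 := by
  have h1 : ∑ i, (starRingEnd ℂ) (w i) * (Mz A V E η *ᵥ w) i =
      (∑ i, (starRingEnd ℂ) (w i) * ∑ j, (A i j : ℂ) * w j) +
      ∑ i, ((V i : ℂ) - ((E : ℂ) + (η : ℂ) * Complex.I)) * ((‖w i‖ ^ 2 : ℝ) : ℂ) := by
    rw [← Finset.sum_add_distrib]
    apply Finset.sum_congr rfl
    intro i _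
    rw [Mz_mulVec, mul_add]
    congr 1
    have : ((‖w i‖ ^ 2 : ℝ) : ℂ) = w i * (starRingEnd ℂ) (w i) := by
      rw [Complex.mul_conj, Complex.normSq_eq_norm_sq]
    rw [this]
    ring
  rw [h1, Complex.add_im, res_real A hA, zero_add, Complex.im_sum, Finset.mul_sum]
  apply Finset.sum_congr rfl
  intro i _
  rw [Complex.im_mul_ofReal]
  simp

theorem Mz_isUnit (A : Matrix ι ι ℝ) (hA : A.IsSymm) (V : ι → ℝ) (E : ℝ) {η : ℝ} (hη : 0 < η) :
    IsUnit (Mz A V E η).det := by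
  rw [isUnit_iff_ne_zero]
  intro h
  obtain ⟨w, hw, hw0⟩ := Matrix.exists_mulVec_eq_zero_iff.2 h
  have h1 := Mz_im A hA V E η w
  rw [hw0] at h1
  simp only [Pi.zero_apply, mul_zero, Finset.sum_const_zero, Complex.zero_im] at h1
  have h2 : ∑ i, ‖w i‖ ^ 2 = 0 := by
    have : η * ∑ i, ‖w i‖ ^ 2 = 0 := by linarith
    rcases mul_eq_zero.1 this with h | h
    · exact absurd h hη.ne'
    · exact h
  apply hw
  funext i
  have h3 := (Finset.sum_eq_zero_iff_of_nonneg (fun i _ => by positivity)).1 h2 i (Finset.mem_univ _)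
  simpa using h3

theorem Gm_mul_Mz (A : Matrix ι ι ℝ) (hA : A.IsSymm) (V : ι → ℝ) (E : ℝ) {η : ℝ} (hη : 0 < η) :
    Gm A V E η * Mz A V E η = 1 :=
  Matrix.nonsing_inv_mul _ (Mz_isUnit A hA V E hη)

theorem Mz_mul_Gm (A : Matrix ι ι ℝ) (hA : A.IsSymm) (V : ι → ℝ) (E : ℝ) {η : ℝ} (hη : 0 < η) :
    Mz A V E η * Gm A V E η = 1 :=
  Matrix.mul_nonsing_inv _ (Mz_isUnit A hA V E hη)

theorem Gm_symm (A : Matrix ι ι ℝ) (hA : A.IsSymm) (V : ι → ℝ) (E η : ℝ) (i j : ι) :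
    Gm A V E η i j = Gm A V E η j i := by
  have h1 : (Mz A V E η)ᵀ = Mz A V E η := by
    ext i j
    rw [Matrix.transpose_apply, Mz_apply, Mz_apply, hA.apply i j]
    by_cases h : i = j
    · simp [h]
    · simp [h, Ne.symm h]
  have h2 : (Gm A V E η)ᵀ = Gm A V E η := by
    unfold Gm
    rw [Matrix.transpose_nonsing_inv, h1]
  have := congrFun (congrFun h2 i) j
  rw [Matrix.transpose_apply] at this
  exact this.symm

/-- the vector `w = G φ` -/
theorem Mz_mulVec_Gm (A : Matrix ι ι ℝ) (hA : A.IsSymm) (V : ι → ℝ) (E : ℝ) {η : ℝ} (hη : 0 < η)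
    (φ : ι → ℂ) : Mz A V E η *ᵥ (Gm A V E η *ᵥ φ) = φ := by
  rw [Matrix.mulVec_mulVec, Mz_mul_Gm A hA V E hη, Matrix.one_mulVec]

theorem im_Gm_vec (A : Matrix ι ι ℝ) (V : ι → ℝ) (E η : ℝ) (φ : ι → ℝ) (i : ι) :
    (∑ j, Gm A V E η i j * (φ j : ℂ)).im = ∑ j, Pm A V E η i j * φ j := by
  rw [Complex.im_sum]
  apply Finset.sum_congr rfl
  intro j _
  rw [Complex.im_mul_ofReal]
  rfl

theorem res_sum_quad (A : Matrix ι ι ℝ) (V : ι → ℝ) (E η : ℝ) (φ : ι → ℝ) :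
    ∑ i, ∑ j, φ i * Pm A V E η i j * φ j =
      ∑ i, φ i * (∑ j, Gm A V E η i j * (φ j : ℂ)).im := by
  apply Finset.sum_congr rfl
  intro i _
  rw [im_Gm_vec, Finset.mul_sum]
  apply Finset.sum_congr rfl
  intro j _
  ring

theorem Gm_quad' (A : Matrix ι ι ℝ) (hA : A.IsSymm) (V : ι → ℝ) (E : ℝ) {η : ℝ} (hη : 0 < η)
    (φ : ι → ℝ) :
    η * ∑ i, ‖∑ j, Gm A V E η i j * (φ j : ℂ)‖ ^ 2 =
      ∑ i, ∑ j, φ i * Pm A V E η i j * φ j := by
  have h1 := Mz_im A hA V E η (Gm A V E η *ᵥ (fun j => (φ j : ℂ)))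
  rw [Mz_mulVec_Gm A hA V E hη] at h1
  rw [Complex.im_sum] at h1
  rw [res_sum_quad]
  have h2 : ∀ i, (Gm A V E η *ᵥ (fun j => (φ j : ℂ))) i = ∑ j, Gm A V E η i j * (φ j : ℂ) := by
    intro i; rfl
  simp only [h2, Complex.im_mul_ofReal, Complex.conj_im] at h1
  have h3 : ∑ i, -(∑ j, Gm A V E η i j * (φ j : ℂ)).im * φ i =
      - ∑ i, φ i * (∑ j, Gm A V E η i j * (φ j : ℂ)).im := by
    rw [← Finset.sum_neg_distrib]
    apply Finset.sum_congr rfl
    intro i _; ring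
  rw [h3] at h1
  linarith

theorem Gm_quad (A : Matrix ι ι ℝ) (hA : A.IsSymm) (V : ι → ℝ) (E : ℝ) {η : ℝ} (hη : 0 < η)
    (φ : ι → ℝ) :
    ∑ i, ‖∑ j, Gm A V E η i j * (φ j : ℂ)‖ ^ 2 =
      (1 / η) * ∑ i, ∑ j, φ i * Pm A V E η i j * φ j := by
  rw [← Gm_quad' A hA V E hη φ]
  field_simp

theorem quad_single (P : Matrix ι ι ℝ) (x : ι) :
    ∑ i, ∑ j, (Pi.single x (1 : ℝ) : ι → ℝ) i * P i j * (Pi.single x (1 : ℝ) : ι → ℝ) j = P x x := by
  rw [Finset.sum_eq_single x]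
  · rw [Finset.sum_eq_single x]
    · simp
    · intro j _ hj
      rw [Pi.single_eq_of_ne hj, mul_zero]
    · intro h; exact absurd (Finset.mem_univ _) h
  · intro i _ hi
    apply Finset.sum_eq_zero
    intro j _
    rw [Pi.single_eq_of_ne hi, zero_mul, zero_mul]
  · intro h; exact absurd (Finset.mem_univ _) h

theorem Gm_vec_single (G : Matrix ι ι ℂ) (x i : ι) :
    ∑ j, G i j * (((Pi.single x (1 : ℝ) : ι → ℝ) j : ℝ) : ℂ) = G i x := by
  rw [Finset.sum_eq_single x]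
  · simp
  · intro j _ hj
    rw [Pi.single_eq_of_ne hj]; simp
  · intro h; exact absurd (Finset.mem_univ _) h

theorem ward (A : Matrix ι ι ℝ) (hA : A.IsSymm) (V : ι → ℝ) (E : ℝ) {η : ℝ} (hη : 0 < η)
    (x : ι) : ∑ i, ‖Gm A V E η i x‖ ^ 2 = Pm A V E η x x / η := by
  have h := Gm_quad A hA V E hη (Pi.single x (1 : ℝ))
  rw [quad_single] at h
  simp only [Gm_vec_single] at h
  rw [h]
  ring

theorem Pm_quad_nonneg (A : Matrix ι ι ℝ) (hA : A.IsSymm) (V : ι → ℝ) (E : ℝ) {η : ℝ}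
    (hη : 0 < η) (φ : ι → ℝ) : 0 ≤ ∑ i, ∑ j, φ i * Pm A V E η i j * φ j := by
  rw [← Gm_quad' A hA V E hη φ]
  exact mul_nonneg hη.le (Finset.sum_nonneg (fun i _ => by positivity))

theorem im_sq_le (z : ℂ) : z.im ^ 2 ≤ ‖z‖ ^ 2 := by
  rw [← Complex.normSq_eq_norm_sq, Complex.normSq_apply]
  nlinarith [sq_nonneg z.re]

theorem re_sq_le (z : ℂ) : z.re ^ 2 ≤ ‖z‖ ^ 2 := by
  rw [← Complex.normSq_eq_norm_sq, Complex.normSq_apply]
  nlinarith [sq_nonneg z.im]

theorem Pm_sq_quad (A : Matrix ι ι ℝ) (hA : A.IsSymm) (V : ι → ℝ) (E : ℝ) {η : ℝ} (hη : 0 < η)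
    (φ : ι → ℝ) :
    ∑ i, (∑ j, Pm A V E η i j * φ j) ^ 2 ≤
      (1 / η) * ∑ i, ∑ j, φ i * Pm A V E η i j * φ j := by
  rw [← Gm_quad A hA V E hη φ]
  apply Finset.sum_le_sum
  intro i _
  rw [← im_Gm_vec]
  exact im_sq_le _

theorem Pm_diag_pos (A : Matrix ι ι ℝ) (hA : A.IsSymm) (V : ι → ℝ) (E : ℝ) {η : ℝ} (hη : 0 < η)
    (x : ι) : 0 < Pm A V E η x x := by
  have h := ward A hA V E hη x
  have h2 : 0 < ∑ i, ‖Gm A V E η i x‖ ^ 2 := by
    by_contra hcon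
    have h0 : ∑ i, ‖Gm A V E η i x‖ ^ 2 = 0 :=
      le_antisymm (not_lt.1 hcon) (Finset.sum_nonneg (fun i _ => by positivity))
    have h1 := (Finset.sum_eq_zero_iff_of_nonneg (fun i _ => by positivity)).1 h0
    have h3 : ∀ i, Gm A V E η i x = 0 := by
      intro i
      simpa using h1 i (Finset.mem_univ _)
    have h4 := congrFun (congrFun (Mz_mul_Gm A hA V E hη) x) x
    rw [Matrix.mul_apply, Matrix.one_apply_eq] at h4
    simp only [h3, mul_zero, Finset.sum_const_zero] at h4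
    exact zero_ne_one h4
  rw [h] at h2
  exact (div_pos_iff_of_pos_right hη).1 h2

theorem norm_Gm_diag_le (A : Matrix ι ι ℝ) (hA : A.IsSymm) (V : ι → ℝ) (E : ℝ) {η : ℝ}
    (hη : 0 < η) (x : ι) : ‖Gm A V E η x x‖ ≤ 1 / η := by
  have h := ward A hA V E hη x
  have h1 : ‖Gm A V E η x x‖ ^ 2 ≤ ∑ i, ‖Gm A V E η i x‖ ^ 2 :=
    Finset.single_le_sum (f := fun i => ‖Gm A V E η i x‖ ^ 2) (fun i _ => by positivity)
      (Finset.mem_univ x)
  have h2 : Pm A V E η x x ≤ ‖Gm A V E η x x‖ := (le_abs_self _).trans (Complex.abs_im_le_norm _)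
  have h3 : 0 < ‖Gm A V E η x x‖ := lt_of_lt_of_le (Pm_diag_pos A hA V E hη x) h2
  rw [h] at h1
  have h4 : ‖Gm A V E η x x‖ ^ 2 ≤ ‖Gm A V E η x x‖ / η :=
    h1.trans (div_le_div_of_nonneg_right h2 hη.le)
  rw [le_div_iff₀ hη] at h4 ⊢
  nlinarith

theorem Pm_diag_le (A : Matrix ι ι ℝ) (hA : A.IsSymm) (V : ι → ℝ) (E : ℝ) {η : ℝ} (hη : 0 < η)
    (x : ι) : Pm A V E η x x ≤ 1 / η :=
  ((le_abs_self _).trans (Complex.abs_im_le_norm _)).trans (norm_Gm_diag_le A hA V E hη x)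

/-- for a real vector `φ`, `|φᵀ G φ| ≤ |φ|²/η` -/
theorem norm_quad_le (A : Matrix ι ι ℝ) (hA : A.IsSymm) (V : ι → ℝ) (E : ℝ) {η : ℝ}
    (hη : 0 < η) (φ : ι → ℝ) :
    ‖∑ i, ∑ j, (φ i : ℂ) * Gm A V E η i j * (φ j : ℂ)‖ ≤ (∑ i, φ i ^ 2) / η := by
  set w : ι → ℂ := fun i => ∑ j, Gm A V E η i j * (φ j : ℂ) with hw
  have e1 : ∑ i, ∑ j, (φ i : ℂ) * Gm A V E η i j * (φ j : ℂ) = ∑ i, (φ i : ℂ) * w i := by
    apply Finset.sum_congr rfl
    intro i _
    rw [hw, Finset.mul_sum]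
    apply Finset.sum_congr rfl
    intro j _; ring
  rw [e1]
  set N := ‖∑ i, (φ i : ℂ) * w i‖ with hN
  have hN0 : 0 ≤ N := norm_nonneg _
  have h1 : N ≤ ∑ i, |φ i| * ‖w i‖ := by
    refine (norm_sum_le _ _).trans (le_of_eq ?_)
    apply Finset.sum_congr rfl
    intro i _
    rw [norm_mul, Complex.norm_real, Real.norm_eq_abs]
  have h2 : N ^ 2 ≤ (∑ i, φ i ^ 2) * ∑ i, ‖w i‖ ^ 2 := by
    have := Finset.sum_mul_sq_le_sq_mul_sq Finset.univ (fun i => |φ i|) (fun i => ‖w i‖)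
    simp only [sq_abs] at this
    refine le_trans ?_ this
    exact pow_le_pow_left₀ hN0 h1 2
  have h3 : η * ∑ i, ‖w i‖ ^ 2 ≤ N := by
    rw [Gm_quad' A hA V E hη φ, res_sum_quad]
    have : ∑ i, φ i * (∑ j, Gm A V E η i j * (φ j : ℂ)).im = (∑ i, (φ i : ℂ) * w i).im := by
      rw [Complex.im_sum]
      apply Finset.sum_congr rfl
      intro i _
      rw [Complex.im_ofReal_mul]
    rw [this]
    exact (le_abs_self _).trans (Complex.abs_im_le_norm _)
  have hS : 0 ≤ ∑ i, φ i ^ 2 := Finset.sum_nonneg (fun i _ => sq_nonneg _)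
  rw [le_div_iff₀ hη]
  rcases hN0.eq_or_lt with h0 | hpos
  · rw [← h0]; simpa using hS
  · have h4 : η * N ^ 2 ≤ (∑ i, φ i ^ 2) * N := by
      calc η * N ^ 2 ≤ η * ((∑ i, φ i ^ 2) * ∑ i, ‖w i‖ ^ 2) := mul_le_mul_of_nonneg_left h2 hη.le
        _ = (∑ i, φ i ^ 2) * (η * ∑ i, ‖w i‖ ^ 2) := by ring
        _ ≤ _ := mul_le_mul_of_nonneg_left h3 hS
    nlinarith

/-- the trial vector `u = Pm · x` -/
theorem trial_res (A : Matrix ι ι ℝ) (hA : A.IsSymm) (V : ι → ℝ) (E : ℝ) {η : ℝ} (hη : 0 < η)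
    (x : ι) :
    ∑ i, ((∑ j, A i j * Pm A V E η j x) + (V i - E) * Pm A V E η i x) ^ 2 ≤
      η * Pm A V E η x x := by
  have key : ∀ i, (∑ j, A i j * Pm A V E η j x) + (V i - E) * Pm A V E η i x =
      η * (Gm A V E η i x).re := by
    intro i
    have h1 : (Mz A V E η *ᵥ (fun j => Gm A V E η j x)) i = (1 : Matrix ι ι ℂ) i x := by
      have := congrFun (congrFun (Mz_mul_Gm A hA V E hη) i) x
      rw [Matrix.mul_apply] at this
      exact this
    rw [Mz_mulVec] at h1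
    have h2 := congrArg Complex.im h1
    have h3 : ((1 : Matrix ι ι ℂ) i x).im = 0 := by
      rw [Matrix.one_apply]; split_ifs <;> simp
    rw [h3, Complex.add_im, Complex.im_sum] at h2
    have h4 : ∀ j, ((A i j : ℂ) * Gm A V E η j x).im = A i j * Pm A V E η j x := by
      intro j; rw [Complex.im_ofReal_mul]; rfl
    have h5 : (((V i : ℂ) - ((E : ℂ) + (η : ℂ) * Complex.I)) * Gm A V E η i x).im =
        (V i - E) * Pm A V E η i x - η * (Gm A V E η i x).re := by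
      rw [Complex.mul_im]
      simp only [Complex.sub_re, Complex.ofReal_re, Complex.add_re, Complex.mul_re, Complex.I_re,
        mul_zero, Complex.ofReal_im, Complex.I_im, mul_one, sub_self, add_zero, Complex.sub_im,
        Complex.add_im, Complex.mul_im, zero_add, zero_sub]
      show (V i - E) * Pm A V E η i x + -η * (Gm A V E η i x).re = _
      ring
    simp only [h4, h5] at h2
    linarith
  simp only [key]
  have h1 := ward A hA V E hη x
  calc ∑ i, (η * (Gm A V E η i x).re) ^ 2 = η ^ 2 * ∑ i, (Gm A V E η i x).re ^ 2 := by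
        rw [Finset.mul_sum]
        apply Finset.sum_congr rfl
        intro i _; ring
    _ ≤ η ^ 2 * ∑ i, ‖Gm A V E η i x‖ ^ 2 := by
        apply mul_le_mul_of_nonneg_left _ (by positivity)
        exact Finset.sum_le_sum (fun i _ => re_sq_le _)
    _ = η * Pm A V E η x x := by
        rw [h1]; field_simp

theorem trial_norm (A : Matrix ι ι ℝ) (hA : A.IsSymm) (V : ι → ℝ) (E : ℝ) {η : ℝ} (hη : 0 < η)
    (x : ι) : ∑ i, (Pm A V E η i x) ^ 2 ≤ 1 / η ^ 2 := by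
  calc ∑ i, (Pm A V E η i x) ^ 2 ≤ ∑ i, ‖Gm A V E η i x‖ ^ 2 :=
        Finset.sum_le_sum (fun i _ => im_sq_le _)
    _ = Pm A V E η x x / η := ward A hA V E hη x
    _ ≤ (1 / η) / η := div_le_div_of_nonneg_right (Pm_diag_le A hA V E hη x) hη.le
    _ = 1 / η ^ 2 := by field_simp

theorem measurable_det {Ω : Type*} [MeasurableSpace Ω] (M : Ω → Matrix ι ι ℂ)
    (hM : ∀ i j, Measurable fun ω => M ω i j) : Measurable fun ω => (M ω).det := by
  simp only [Matrix.det_apply]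
  apply Finset.measurable_sum
  intro σ _
  have : Measurable fun ω => ∏ i, M ω (σ i) i := Finset.measurable_prod _ (fun i _ => hM _ _)
  have h2 : (fun ω => Equiv.Perm.sign σ • ∏ i, M ω (σ i) i) =
      fun ω => ((Equiv.Perm.sign σ : ℤ) : ℂ) * ∏ i, M ω (σ i) i := by
    funext ω
    rw [Units.smul_def, zsmul_eq_mul]
  rw [h2]
  exact this.const_mul _

/-- joint measurability; the matrix may depend measurably on a parameter -/
theorem measurable_Gm {Ω : Type*} [MeasurableSpace Ω] (A : Ω → Matrix ι ι ℝ)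
    (hA : ∀ i j, Measurable fun ω => A ω i j) (V : Ω → ι → ℝ) (hV : ∀ i, Measurable fun ω => V ω i)
    (E : Ω → ℝ) (hE : Measurable E) (η : ℝ) (i j : ι) :
    Measurable fun ω => Gm (A ω) (V ω) (E ω) η i j := by
  have hM : ∀ i j, Measurable fun ω => Mz (A ω) (V ω) (E ω) η i j := by
    intro i j
    simp only [Mz_apply]
    apply (Complex.measurable_ofReal.comp (hA i j)).add
    by_cases h : i = j
    · simp only [h, if_true]
      exact (Complex.measurable_ofReal.comp (hV j)).sub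
        ((Complex.measurable_ofReal.comp hE).add_const _)
    · simp only [h, if_false]
      exact measurable_const
  unfold Gm
  simp only [Matrix.inv_def, Matrix.smul_apply, Ring.inverse_eq_inv', smul_eq_mul]
  apply Measurable.mul
  · exact (measurable_det _ hM).inv
  · simp only [Matrix.adjugate_apply]
    apply measurable_det
    intro a b
    by_cases h : a = j
    · subst h
      simp only [Matrix.updateRow_self]
      exact measurable_const
    · simp only [Matrix.updateRow_ne h]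
      exact hM a b

theorem measurable_Pm {Ω : Type*} [MeasurableSpace Ω] (A : Ω → Matrix ι ι ℝ)
    (hA : ∀ i j, Measurable fun ω => A ω i j) (V : Ω → ι → ℝ) (hV : ∀ i, Measurable fun ω => V ω i)
    (E : Ω → ℝ) (hE : Measurable E) (η : ℝ) (i j : ι) :
    Measurable fun ω => Pm (A ω) (V ω) (E ω) η i j :=
  Complex.measurable_im.comp (measurable_Gm A hA V hV E hE η i j)

end H10PL
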