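import Pool.Agent.H10R2.PL.Defs
import Pool.Agent.H10R2.PL.Res

/-!
Task SCHUR (helper793): Schur complement for one site.
-/

namespace H10PL

open MeasureTheory ProbabilityTheory Matrix Set

variable {ι : Type*} [Fintype ι] [DecidableEq ι]

namespace SchurAux

/-- the spectral parameter -/
noncomputable def zz (E η : ℝ) : ℂ := (E : ℂ) + (η : ℂ) * Complex.I

theorem Mz_apply (A : Matrix ι ι ℝ) (V : ι → ℝ) (E η : ℝ) (i j : ι) :
    Mz A V E η i j = (A i j : ℂ) + if i = j then (V i : ℂ) - zz E η else 0 := by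
  unfold Mz zz
  rw [Matrix.sub_apply, Matrix.map_apply, Matrix.add_apply, Matrix.smul_apply,
    Matrix.diagonal_apply, Matrix.one_apply]
  split_ifs with h
  · push_cast
    simp only [smul_eq_mul]
    ring
  · simp

theorem sub_zz_ne (t E : ℝ) {η : ℝ} (hη : 0 < η) : (t : ℂ) - zz E η ≠ 0 := by
  intro h
  have := congrArg Complex.im h
  unfold zz at this
  simp at this
  linarith

theorem ne_zero_of_diag (A : Matrix ι ι ℝ) (hA : A.IsSymm) (V : ι → ℝ) (E : ℝ) {η : ℝ}
    (hη : 0 < η) (x : ι) : Gm A V E η x x ≠ 0 := by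
  intro h
  have h1 := Pm_diag_pos A hA V E hη x
  unfold Pm at h1
  rw [h] at h1
  simp at h1

end SchurAux

open SchurAux

theorem cut_symm (A : Matrix ι ι ℝ) (hA : A.IsSymm) (x : ι) : (cut A x).IsSymm := by
  ext i j
  rw [Matrix.transpose_apply]
  unfold cut
  have h := hA.apply i j
  by_cases h1 : i = x <;> by_cases h2 : j = x <;> simp [h1, h2, h]

theorem cut_diag (A : Matrix ι ι ℝ) (hd : ∀ i, A i i = 0) (x i : ι) : cut A x i i = 0 := by
  unfold cut
  split_ifs
  · rfl
  · exact hd i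

theorem cut_row (A : Matrix ι ι ℝ) (x i : ι) : ∑ j, (cut A x i j) ^ 2 ≤ ∑ j, (A i j) ^ 2 := by
  refine Finset.sum_le_sum fun j _ => ?_
  unfold cut
  split_ifs
  · have := sq_nonneg (A i j)
    simpa using this
  · exact le_rfl

/-- the imaginary part of the self energy is a quadratic form -/
theorem Sg_im (A : Matrix ι ι ℝ) (V : ι → ℝ) (E η : ℝ) (x : ι) :
    (Sg A V E η x).im = ∑ i, ∑ j, A x i * Pm (cut A x) V E η i j * A x j := by
  unfold Sg Pm
  rw [Complex.im_sum]
  refine Finset.sum_congr rfl fun i _ => ?_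
  rw [Complex.im_sum]
  refine Finset.sum_congr rfl fun j _ => ?_
  rw [mul_comm, Complex.im_ofReal_mul, Complex.im_ofReal_mul]
  ring

theorem Sg_im_nonneg (A : Matrix ι ι ℝ) (hA : A.IsSymm) (V : ι → ℝ) (E : ℝ) {η : ℝ}
    (hη : 0 < η) (x : ι) : 0 ≤ (Sg A V E η x).im := by
  rw [Sg_im]
  exact Pm_quad_nonneg (cut A x) (cut_symm A hA x) V E hη (fun i => A x i)

namespace SchurAux

/-- row `x` of the equation `Mz G = 1` -/
theorem row_eq (A : Matrix ι ι ℝ) (hA : A.IsSymm) (V : ι → ℝ) (E : ℝ) {η : ℝ} (hη : 0 < η)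
    (x w : ι) : ((V x : ℂ) - zz E η) * Gm A V E η x w + ∑ j, (A x j : ℂ) * Gm A V E η j w =
      if x = w then 1 else 0 := by
  have h := congrFun (congrFun (Mz_mul_Gm A hA V E hη) x) w
  rw [Matrix.mul_apply, Matrix.one_apply] at h
  rw [← h]
  simp only [Mz_apply, add_mul, ite_mul, zero_mul]
  rw [Finset.sum_add_distrib, Finset.sum_ite_eq, if_pos (Finset.mem_univ _)]
  ring

theorem off_row (A : Matrix ι ι ℝ) (hA : A.IsSymm) (V : ι → ℝ) (E : ℝ) {η : ℝ} (hη : 0 < η)
    (x y : ι) (hy : y ≠ x) : Gm (cut A x) V E η y x = 0 := by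
  rw [Gm_symm (cut A x) (cut_symm A hA x)]
  have h := row_eq (cut A x) (cut_symm A hA x) V E hη x y
  rw [if_neg (Ne.symm hy)] at h
  have h2 : ∑ j, (cut A x x j : ℂ) * Gm (cut A x) V E η j y = 0 := by
    refine Finset.sum_eq_zero fun j _ => ?_
    unfold cut
    simp
  rw [h2, add_zero] at h
  exact (mul_eq_zero.1 h).resolve_left (sub_zz_ne _ _ hη)

/-- the main identity -/
theorem main_eq (A : Matrix ι ι ℝ) (hA : A.IsSymm) (hd : ∀ i, A i i = 0) (V : ι → ℝ) (E : ℝ)
    {η : ℝ} (hη : 0 < η) (x y w : ι) (hy : y ≠ x) :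
    Gm A V E η y w = (if w = x then 0 else Gm (cut A x) V E η y w) -
      Gm A V E η x w * ∑ i, Gm (cut A x) V E η y i * (A x i : ℂ) := by
  set G' := Gm (cut A x) V E η with hG'
  set G := Gm A V E η with hG
  -- `K G_{.w}`
  have h1 : ∀ i, i ≠ x → ∑ j, Mz (cut A x) V E η i j * G j w =
      (if i = w then 1 else 0) - (A x i : ℂ) * G x w := by
    intro i hi
    have h2 := congrFun (congrFun (Mz_mul_Gm A hA V E hη) i) w
    rw [Matrix.mul_apply, Matrix.one_apply] at h2
    rw [← h2, ← hG]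
    have h3 : ∀ j, Mz (cut A x) V E η i j * G j w = Mz A V E η i j * G j w -
        if j = x then (A x i : ℂ) * G x w else 0 := by
      intro j
      rw [Mz_apply, Mz_apply]
      have hAs : A x i = A i x := hA.apply i x
      by_cases hj : j = x
      · subst hj
        rw [if_pos rfl, hAs]
        unfold cut
        simp only [or_true, if_true]
        push_cast
        ring
      · rw [if_neg hj, sub_zero]
        unfold cut
        simp only [hi, hj, or_self, if_false]
    rw [Finset.sum_congr rfl (fun j _ => h3 j), Finset.sum_sub_distrib, Finset.sum_ite_eq',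
      if_pos (Finset.mem_univ _)]
  have h4 := congrFun (congrFun (Gm_mul_Mz (cut A x) (cut_symm A hA x) V E hη) y)
  have h5 : G y w = ∑ i, G' y i * ∑ j, Mz (cut A x) V E η i j * G j w := by
    simp only [Finset.mul_sum]
    rw [Finset.sum_comm]
    have h6 : ∀ j, ∑ i, G' y i * (Mz (cut A x) V E η i j * G j w) =
        (if y = j then 1 else 0) * G j w := by
      intro j
      have h7 := h4 j
      rw [Matrix.mul_apply, Matrix.one_apply, ← hG'] at h7
      rw [← h7, Finset.sum_mul]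
      refine Finset.sum_congr rfl fun i _ => ?_
      ring
    rw [Finset.sum_congr rfl (fun j _ => h6 j)]
    simp
  have h8 : G' y x = 0 := off_row A hA V E hη x y hy
  rw [h5]
  have h9 : ∀ i, G' y i * ∑ j, Mz (cut A x) V E η i j * G j w =
      (if i = w then (if w = x then 0 else G' y i) else 0) - G x w * (G' y i * (A x i : ℂ)) := by
    intro i
    by_cases hi : i = x
    · subst hi
      rw [h8]
      by_cases hw : i = w
      · simp [hw]
      · simp [hw]
    · rw [h1 i hi]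
      by_cases hw : i = w
      · subst hw
        rw [if_pos rfl, if_pos rfl, if_neg hi]
        ring
      · rw [if_neg hw, if_neg hw]
        ring
  rw [Finset.sum_congr rfl (fun i _ => h9 i), Finset.sum_sub_distrib, ← Finset.mul_sum,
    Finset.sum_ite_eq', if_pos (Finset.mem_univ _)]

end SchurAux

/-- `G_xx = 1/(V_x - z - Σ_x)` -/
theorem schur_diag (A : Matrix ι ι ℝ) (hA : A.IsSymm) (hd : ∀ i, A i i = 0) (V : ι → ℝ) (E : ℝ)
    {η : ℝ} (hη : 0 < η) (x : ι) :
    Gm A V E η x x = ((V x : ℂ) - ((E : ℂ) + (η : ℂ) * Complex.I + Sg A V E η x))⁻¹ := by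
  have h1 := row_eq A hA V E hη x x
  rw [if_pos rfl] at h1
  have h2 : ∑ j, (A x j : ℂ) * Gm A V E η j x = -(Gm A V E η x x * Sg A V E η x) := by
    unfold Sg
    rw [Finset.mul_sum, ← Finset.sum_neg_distrib]
    refine Finset.sum_congr rfl fun j _ => ?_
    by_cases hj : j = x
    · subst hj
      rw [hd]
      simp
    · rw [main_eq A hA hd V E hη x j x hj, if_pos rfl]
      rw [zero_sub, mul_neg, neg_inj, Finset.mul_sum, Finset.mul_sum, Finset.mul_sum]
      refine Finset.sum_congr rfl fun i _ => ?_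
      ring
  rw [h2] at h1
  apply eq_inv_of_mul_eq_one_left
  unfold zz at h1
  linear_combination h1

/-- rank one difference -/
theorem rank_one (A : Matrix ι ι ℝ) (hA : A.IsSymm) (hd : ∀ i, A i i = 0) (V : ι → ℝ) (E : ℝ)
    {η : ℝ} (hη : 0 < η) (x y w : ι) (hy : y ≠ x) (hw : w ≠ x) :
    Gm A V E η y w = Gm (cut A x) V E η y w +
      Gm A V E η y x * Gm A V E η x w / Gm A V E η x x := by
  have h1 := main_eq A hA hd V E hη x y w hy
  have h2 := main_eq A hA hd V E hη x y x hy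
  rw [if_neg hw] at h1
  rw [if_pos rfl] at h2
  have h3 := ne_zero_of_diag A hA V E hη x
  have h4 : Gm A V E η y x * Gm A V E η x w / Gm A V E η x x =
      -(Gm A V E η x w * ∑ i, Gm (cut A x) V E η y i * (A x i : ℂ)) := by
    rw [div_eq_iff h3, h2]
    ring
  rw [h4, h1]
  ring

theorem sum_diff_le (A : Matrix ι ι ℝ) (hA : A.IsSymm) (hd : ∀ i, A i i = 0) (V : ι → ℝ) (E : ℝ)
    {η : ℝ} (hη : 0 < η) (x : ι) :
    ∑ y ∈ Finset.univ.erase x, |Pm A V E η y y - Pm (cut A x) V E η y y| ≤ 1 / η := by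
  have h3 := ne_zero_of_diag A hA V E hη x
  have h3' : 0 < ‖Gm A V E η x x‖ := norm_pos_iff.2 h3
  have h1 : ∀ y ∈ Finset.univ.erase x, |Pm A V E η y y - Pm (cut A x) V E η y y| ≤
      ‖Gm A V E η y x‖ ^ 2 / ‖Gm A V E η x x‖ := by
    intro y hy
    have hy' : y ≠ x := Finset.ne_of_mem_erase hy
    have h2 := rank_one A hA hd V E hη x y y hy' hy'
    unfold Pm
    rw [h2, Complex.add_im, add_sub_cancel_left]
    refine (Complex.abs_im_le_norm _).trans ?_
    rw [norm_div, norm_mul, Gm_symm A hA V E η x y, sq]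
  refine (Finset.sum_le_sum h1).trans ?_
  rw [← Finset.sum_div]
  have h4 : ∑ y ∈ Finset.univ.erase x, ‖Gm A V E η y x‖ ^ 2 ≤ ∑ y, ‖Gm A V E η y x‖ ^ 2 :=
    Finset.sum_le_sum_of_subset_of_nonneg (Finset.erase_subset _ _) (fun _ _ _ => by positivity)
  rw [ward A hA V E hη x] at h4
  have h5 : Pm A V E η x x ≤ ‖Gm A V E η x x‖ := by
    unfold Pm
    exact (le_abs_self _).trans (Complex.abs_im_le_norm _)
  calc (∑ y ∈ Finset.univ.erase x, ‖Gm A V E η y x‖ ^ 2) / ‖Gm A V E η x x‖
      ≤ (Pm A V E η x x / η) / ‖Gm A V E η x x‖ := div_le_div_of_nonneg_right h4 h3'.le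
    _ ≤ (‖Gm A V E η x x‖ / η) / ‖Gm A V E η x x‖ :=
        div_le_div_of_nonneg_right (div_le_div_of_nonneg_right h5 hη.le) h3'.le
    _ = 1 / η := by
        field_simp

theorem Gm_cut_off (A : Matrix ι ι ℝ) (hA : A.IsSymm) (V : ι → ℝ) (E : ℝ) {η : ℝ}
    (hη : 0 < η) (x y : ι) (hy : y ≠ x) : Gm (cut A x) V E η y x = 0 :=
  off_row A hA V E hη x y hy

/-- the decoupled resolvent away from `x` does not depend on `V x` -/
theorem Gm_cut_update (A : Matrix ι ι ℝ) (hA : A.IsSymm) (V : ι → ℝ) (t : ℝ) (E : ℝ) {η : ℝ}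
    (hη : 0 < η) (x y w : ι) (hy : y ≠ x) :
    Gm (cut A x) (Function.update V x t) E η y w = Gm (cut A x) V E η y w := by
  set G' := Gm (cut A x) V E η with hG'
  set G2 := Gm (cut A x) (Function.update V x t) E η with hG2
  have hc := cut_symm A hA x
  have h8 : G' y x = 0 := off_row A hA V E hη x y hy
  -- row `y` of `G' K'`
  have h1 : ∀ j, ∑ i, G' y i * Mz (cut A x) (Function.update V x t) E η i j =
      if y = j then 1 else 0 := by
    intro j
    have h2 := congrFun (congrFun (Gm_mul_Mz (cut A x) hc V E hη) y) j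
    rw [Matrix.mul_apply, Matrix.one_apply, ← hG'] at h2
    rw [← h2]
    refine Finset.sum_congr rfl fun i _ => ?_
    by_cases hi : i = x
    · rw [hi, h8, zero_mul, zero_mul]
    · rw [Mz_apply, Mz_apply, Function.update_of_ne hi]
  have h3 : G' y w = ∑ j, (∑ i, G' y i * Mz (cut A x) (Function.update V x t) E η i j) * G2 j w := by
    simp only [Finset.sum_mul]
    rw [Finset.sum_comm]
    have h4 : ∀ i, ∑ j, G' y i * Mz (cut A x) (Function.update V x t) E η i j * G2 j w =
        G' y i * if i = w then 1 else 0 := by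
      intro i
      have h5 := congrFun (congrFun (Mz_mul_Gm (cut A x) hc (Function.update V x t) E hη) i) w
      rw [Matrix.mul_apply, Matrix.one_apply, ← hG2] at h5
      rw [← h5, Finset.mul_sum]
      refine Finset.sum_congr rfl fun j _ => ?_
      ring
    rw [Finset.sum_congr rfl (fun i _ => h4 i)]
    simp
  rw [h3, Finset.sum_congr rfl (fun j _ => by rw [h1 j])]
  simp

theorem Sg_update (A : Matrix ι ι ℝ) (hA : A.IsSymm) (hd : ∀ i, A i i = 0) (V : ι → ℝ) (t : ℝ)
    (E : ℝ) {η : ℝ} (hη : 0 < η) (x : ι) :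
    Sg A (Function.update V x t) E η x = Sg A V E η x := by
  unfold Sg
  refine Finset.sum_congr rfl fun i _ => Finset.sum_congr rfl fun j _ => ?_
  by_cases hi : i = x
  · rw [hi, hd]
    simp
  · rw [Gm_cut_update A hA V t E hη x i j hi]

/-- second order expansion of the diagonal entry -/
theorem Gm_expand (A : Matrix ι ι ℝ) (hA : A.IsSymm) (hd : ∀ i, A i i = 0) (V : ι → ℝ) (E : ℝ)
    {η : ℝ} (hη : 0 < η) (x : ι) :
    Gm A V E η x x = ((V x : ℂ) - ((E : ℂ) + (η : ℂ) * Complex.I))⁻¹ +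
      (∑ i, ∑ j, (A x i : ℂ) * Gm A V E η i j * (A x j : ℂ)) *
        (((V x : ℂ) - ((E : ℂ) + (η : ℂ) * Complex.I))⁻¹) ^ 2 := by
  have hz : (V x : ℂ) - ((E : ℂ) + (η : ℂ) * Complex.I) ≠ 0 := sub_zz_ne (V x) E hη
  set z1 : ℂ := (V x : ℂ) - ((E : ℂ) + (η : ℂ) * Complex.I) with hz1
  have h1 := row_eq A hA V E hη x x
  rw [if_pos rfl] at h1
  have e1 : (V x : ℂ) - zz E η = z1 := rfl
  rw [e1] at h1
  have h2 : z1 * ∑ j, (A x j : ℂ) * Gm A V E η j x =
      -(∑ i, ∑ j, (A x i : ℂ) * Gm A V E η i j * (A x j : ℂ)) := by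
    have h3 : ∀ w, z1 * ((A x w : ℂ) * Gm A V E η w x) =
        -(∑ i, (A x i : ℂ) * Gm A V E η i w * (A x w : ℂ)) := by
      intro w
      have h4 := row_eq A hA V E hη x w
      rw [e1] at h4
      rw [Gm_symm A hA V E η w x]
      by_cases hw : x = w
      · subst hw
        rw [hd]
        simp
      · rw [if_neg hw] at h4
        have h5 : ∑ i, (A x i : ℂ) * Gm A V E η i w * (A x w : ℂ) =
            (∑ i, (A x i : ℂ) * Gm A V E η i w) * (A x w : ℂ) := by
          rw [Finset.sum_mul]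
        rw [h5]
        linear_combination (A x w : ℂ) * h4
    rw [Finset.mul_sum, Finset.sum_congr rfl (fun w _ => h3 w), Finset.sum_neg_distrib,
      Finset.sum_comm]
  have h6 : z1 ^ 2 * Gm A V E η x x =
      z1 + ∑ i, ∑ j, (A x i : ℂ) * Gm A V E η i j * (A x j : ℂ) := by
    linear_combination z1 * h1 - h2
  rw [inv_pow]
  field_simp
  linear_combination h6

end H10PL
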