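import Pool.Agent.H10R2.PL.Defs
import Pool.Agent.H10R2.PL.Res
import Pool.Agent.H10R2.PL.Schur

/-! Task TAIL: Poisson kernel, spectral integral, tails.
Final version of 03:05 UTC: imports the real modules Res and Schur (not the former stub). -/

namespace H10PL

open MeasureTheory ProbabilityTheory Matrix Set

variable {ι : Type*} [Fintype ι] [DecidableEq ι]

theorem tail_inv_im (v : ℝ) (ζ : ℂ) :
    (((v : ℂ) - ζ)⁻¹).im = ζ.im / ((v - ζ.re) ^ 2 + ζ.im ^ 2) := by
  rw [Complex.inv_im, Complex.normSq_apply]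
  simp only [Complex.sub_re, Complex.sub_im, Complex.ofReal_re, Complex.ofReal_im]
  congr 1
  · ring
  · ring

theorem poisson_lint (ζ : ℂ) (hζ : 0 < ζ.im) :
    ∫⁻ v : ℝ, ENNReal.ofReal ((((v : ℂ) - ζ)⁻¹).im) = ENNReal.ofReal Real.pi := by
  set a := ζ.re with ha
  set b := ζ.im with hb
  have h1 : ∀ v : ℝ, (((v : ℂ) - ζ)⁻¹).im = (1 / b) * (1 + ((v - a) / b) ^ 2)⁻¹ := by
    intro v
    rw [tail_inv_im, ← ha, ← hb]
    have : (v - a) ^ 2 + b ^ 2 ≠ 0 := by positivity
    have h2 : 1 + ((v - a) / b) ^ 2 ≠ 0 := by positivity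
    field_simp
    ring
  simp only [h1]
  have hint : Integrable (fun v : ℝ => (1 / b) * (1 + ((v - a) / b) ^ 2)⁻¹) := by
    have h3 := (integrable_inv_one_add_sq.comp_div hζ.ne').comp_sub_right a
    exact h3.const_mul _
  rw [← ofReal_integral_eq_lintegral_ofReal hint
    (Filter.Eventually.of_forall fun v => by positivity)]
  congr 1
  rw [integral_const_mul, integral_sub_right_eq_self (fun v : ℝ => (1 + (v / b) ^ 2)⁻¹) a,
    Measure.integral_comp_div (fun v : ℝ => (1 + v ^ 2)⁻¹) b, integral_univ_inv_one_add_sq,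
    abs_of_pos hζ, smul_eq_mul]
  field_simp

/-- diagonalisation of the quadratic form of the resolvent -/
theorem tail_diag (A : Matrix ι ι ℝ) (hA : A.IsSymm) (V : ι → ℝ) (φ : ι → ℝ) :
    ∃ (c lam : ι → ℝ), ∑ k, c k ^ 2 = ∑ i, φ i ^ 2 ∧ ∀ (E η : ℝ), 0 < η →
      ∑ i, ∑ j, φ i * Pm A V E η i j * φ j =
        ∑ k, c k ^ 2 * (((E : ℂ) - ((lam k : ℂ) + (η : ℂ) * Complex.I))⁻¹).im := by
  have hB : (A + Matrix.diagonal V).IsHermitian := by
    unfold Matrix.IsHermitian
    rw [Matrix.conjTranspose_eq_transpose_of_trivial, Matrix.transpose_add,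
      Matrix.diagonal_transpose, hA.eq]
  set b := hB.eigenvectorBasis with hb
  set x : EuclideanSpace ℝ ι := WithLp.toLp 2 φ with hx
  have hin : ∀ k, inner ℝ (b k) x = ∑ i, φ i * b k i := by
    intro k
    rw [PiLp.inner_apply]
    rfl
  have h1 : ∑ k, (∑ i, φ i * b k i) ^ 2 = ∑ i, φ i ^ 2 := by
    have := b.sum_sq_norm_inner_right x
    rw [EuclideanSpace.norm_sq_eq] at this
    simp only [hin, Real.norm_eq_abs, sq_abs] at this
    exact this
  have h2 : ∀ j, ∑ k, (∑ i, φ i * b k i) * b k j = φ j := by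
    intro j
    have := b.sum_repr' x
    have h3 := congrArg (fun y : EuclideanSpace ℝ ι => y j) this
    simp only [hin] at h3
    have h4 : (∑ k, (∑ i, φ i * b k i) • b k : EuclideanSpace ℝ ι) j =
        ∑ k, (∑ i, φ i * b k i) * b k j := by
      rw [WithLp.ofLp_sum, Finset.sum_apply]
      rfl
    rw [h4] at h3
    exact h3
  refine ⟨fun k => ∑ i, φ i * b k i, hB.eigenvalues, h1, fun E η hη => ?_⟩
  set z : ℂ := (E : ℂ) + (η : ℂ) * Complex.I with hz
  have hne : ∀ k, ((hB.eigenvalues k : ℂ) - z) ≠ 0 := by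
    intro k h
    have := congrArg Complex.im h
    simp [hz] at this
    exact hη.ne' this
  -- eigenvectors
  have h5 : ∀ k i, ∑ j, Mz A V E η i j * (b k j : ℂ) =
      ((hB.eigenvalues k : ℂ) - z) * (b k i : ℂ) := by
    intro k i
    have h6 := congrFun (hB.mulVec_eigenvectorBasis k) i
    have h7 : ∑ j, (A + Matrix.diagonal V) i j * b k j = hB.eigenvalues k * b k i := h6
    have h8 : ∀ j, Mz A V E η i j * (b k j : ℂ) =
        (((A + Matrix.diagonal V) i j * b k j : ℝ) : ℂ) - (if i = j then z * (b k j : ℂ) else 0) := by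
      intro j
      unfold Mz
      rw [Matrix.sub_apply, Matrix.map_apply, Matrix.smul_apply, Matrix.one_apply]
      by_cases hij : i = j
      · simp only [hij, if_true, smul_eq_mul]
        push_cast
        ring
      · simp only [hij, if_false, smul_eq_mul]
        push_cast
        ring
    simp only [h8]
    rw [Finset.sum_sub_distrib, ← Complex.ofReal_sum, h7, Finset.sum_ite_eq,
      if_pos (Finset.mem_univ i)]
    push_cast
    ring
  have h9 : ∀ k i, ∑ j, Gm A V E η i j * (b k j : ℂ) =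
      ((hB.eigenvalues k : ℂ) - z)⁻¹ * (b k i : ℂ) := by
    intro k i
    have h10 : ∑ j, (Gm A V E η * Mz A V E η) i j * (b k j : ℂ) = (b k i : ℂ) := by
      rw [Gm_mul_Mz A hA V E hη]
      simp [Matrix.one_apply]
    have h11 : ∑ j, (Gm A V E η * Mz A V E η) i j * (b k j : ℂ) =
        ((hB.eigenvalues k : ℂ) - z) * ∑ j, Gm A V E η i j * (b k j : ℂ) := by
      simp only [Matrix.mul_apply, Finset.sum_mul]
      rw [Finset.sum_comm, Finset.mul_sum]
      apply Finset.sum_congr rfl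
      intro l _
      have := h5 k l
      calc ∑ j, Gm A V E η i l * Mz A V E η l j * (b k j : ℂ)
          = Gm A V E η i l * ∑ j, Mz A V E η l j * (b k j : ℂ) := by
            rw [Finset.mul_sum]
            apply Finset.sum_congr rfl
            intro j _
            ring
        _ = _ := by
            rw [this]
            ring
    rw [h11] at h10
    rw [← h10]
    field_simp [hne k]
  have h12 : ∑ i, ∑ j, φ i * Pm A V E η i j * φ j =
      (∑ i, (φ i : ℂ) * ∑ j, Gm A V E η i j * (φ j : ℂ)).im := by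
    rw [Complex.im_sum]
    apply Finset.sum_congr rfl
    intro i _
    rw [Complex.im_ofReal_mul, Complex.im_sum, Finset.mul_sum]
    apply Finset.sum_congr rfl
    intro j _
    rw [Complex.im_mul_ofReal]
    unfold Pm
    ring
  rw [h12]
  have h13 : ∀ i, ∑ j, Gm A V E η i j * (φ j : ℂ) =
      ∑ k, ((∑ i, φ i * b k i : ℝ) : ℂ) * (((hB.eigenvalues k : ℂ) - z)⁻¹ * (b k i : ℂ)) := by
    intro i
    calc ∑ j, Gm A V E η i j * (φ j : ℂ)
        = ∑ j, Gm A V E η i j * ∑ k, ((∑ i, φ i * b k i : ℝ) : ℂ) * (b k j : ℂ) := by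
          apply Finset.sum_congr rfl
          intro j _
          congr 1
          rw [← h2 j]
          push_cast
          rfl
      _ = ∑ k, ((∑ i, φ i * b k i : ℝ) : ℂ) * ∑ j, Gm A V E η i j * (b k j : ℂ) := by
          simp only [Finset.mul_sum]
          rw [Finset.sum_comm]
          apply Finset.sum_congr rfl
          intro k _
          apply Finset.sum_congr rfl
          intro j _
          ring
      _ = _ := by simp only [h9]
  have h14 : ∑ i, (φ i : ℂ) * ∑ j, Gm A V E η i j * (φ j : ℂ) =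
      ∑ k, (((∑ i, φ i * b k i) ^ 2 : ℝ) : ℂ) * ((hB.eigenvalues k : ℂ) - z)⁻¹ := by
    simp only [h13, Finset.mul_sum]
    rw [Finset.sum_comm]
    apply Finset.sum_congr rfl
    intro k _
    have : (((∑ i, φ i * b k i) ^ 2 : ℝ) : ℂ) * ((hB.eigenvalues k : ℂ) - z)⁻¹ =
        ∑ i, (φ i : ℂ) * (b k i : ℂ) * (((∑ i, φ i * b k i : ℝ) : ℂ) *
          ((hB.eigenvalues k : ℂ) - z)⁻¹) := by
      rw [← Finset.sum_mul]
      push_cast
      ring
    rw [this]
    apply Finset.sum_congr rfl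
    intro i _
    ring
  rw [h14, Complex.im_sum]
  apply Finset.sum_congr rfl
  intro k _
  rw [Complex.im_ofReal_mul, tail_inv_im, tail_inv_im]
  congr 1
  simp [hz]
  ring

theorem spectral_lint (A : Matrix ι ι ℝ) (hA : A.IsSymm) (V : ι → ℝ) {η : ℝ} (hη : 0 < η)
    (φ : ι → ℝ) :
    ∫⁻ E : ℝ, ENNReal.ofReal (∑ i, ∑ j, φ i * Pm A V E η i j * φ j) =
      ENNReal.ofReal (Real.pi * ∑ i, φ i ^ 2) := by
  obtain ⟨c, lam, hc, h⟩ := tail_diag A hA V φ
  have him : ∀ (k : ι) (E : ℝ), 0 ≤ (((E : ℂ) - ((lam k : ℂ) + (η : ℂ) * Complex.I))⁻¹).im := by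
    intro k E
    rw [tail_inv_im]
    have : ((lam k : ℂ) + (η : ℂ) * Complex.I).im = η := by simp
    rw [this]
    positivity
  have h1 : ∀ E : ℝ, ENNReal.ofReal (∑ i, ∑ j, φ i * Pm A V E η i j * φ j) =
      ∑ k, ENNReal.ofReal (c k ^ 2) *
        ENNReal.ofReal ((((E : ℂ) - ((lam k : ℂ) + (η : ℂ) * Complex.I))⁻¹).im) := by
    intro E
    rw [h E η hη, ENNReal.ofReal_sum_of_nonneg (fun k _ => mul_nonneg (sq_nonneg _) (him k E))]
    apply Finset.sum_congr rfl
    intro k _
    rw [ENNReal.ofReal_mul (sq_nonneg _)]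
  have hmeas : ∀ k : ι, Measurable (fun E : ℝ =>
      ENNReal.ofReal ((((E : ℂ) - ((lam k : ℂ) + (η : ℂ) * Complex.I))⁻¹).im)) := by
    intro k
    exact (Complex.measurable_im.comp ((Complex.measurable_ofReal.sub_const _).inv)).ennreal_ofReal
  simp only [h1]
  rw [lintegral_finsetSum _ (fun k _ => (hmeas k).const_mul _)]
  have h2 : ∀ k : ι, ∫⁻ E : ℝ, ENNReal.ofReal (c k ^ 2) *
      ENNReal.ofReal ((((E : ℂ) - ((lam k : ℂ) + (η : ℂ) * Complex.I))⁻¹).im) =
      ENNReal.ofReal (c k ^ 2 * Real.pi) := by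
    intro k
    rw [lintegral_const_mul _ (hmeas k), poisson_lint _ (by simpa using hη),
      ENNReal.ofReal_mul (sq_nonneg _)]
  simp only [h2]
  rw [← ENNReal.ofReal_sum_of_nonneg (fun k _ => by positivity), ← Finset.sum_mul, hc]
  congr 1
  ring

/-- the tail integral of `c / t^2` -/
theorem tail_int (c W : ℝ) (hc : 0 ≤ c) (hW : 0 < W) :
    ∫⁻ t in (Icc (-W) W)ᶜ, ENNReal.ofReal (c / t ^ 2) ≤ ENNReal.ofReal (2 * c / W) := by
  have hmeas : Measurable (fun t : ℝ => ENNReal.ofReal (c / t ^ 2)) :=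
    (measurable_const.div (measurable_id.pow_const 2)).ennreal_ofReal
  have h1 : ∫⁻ t in Ioi W, ENNReal.ofReal (c / t ^ 2) = ENNReal.ofReal (c / W) := by
    have h2 : ∀ t ∈ Ioi W, c / t ^ 2 = c * t ^ (-2 : ℝ) := by
      intro t ht
      have ht0 : 0 < t := hW.trans ht
      rw [Real.rpow_neg ht0.le, div_eq_mul_inv]
      norm_num
    rw [setLIntegral_congr_fun measurableSet_Ioi (fun t ht => by rw [h2 t ht])]
    have hint : IntegrableOn (fun t : ℝ => c * t ^ (-2 : ℝ)) (Ioi W) :=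
      (integrableOn_Ioi_rpow_of_lt (by norm_num) hW).const_mul c
    rw [← ofReal_integral_eq_lintegral_ofReal hint]
    · rw [integral_const_mul, integral_Ioi_rpow_of_lt (by norm_num) hW]
      congr 1
      have : (-2 : ℝ) + 1 = -1 := by norm_num
      rw [this, Real.rpow_neg_one]
      field_simp
    · filter_upwards [ae_restrict_mem measurableSet_Ioi] with t ht
      have ht0 : 0 < t := hW.trans ht
      exact mul_nonneg hc (Real.rpow_nonneg ht0.le _)
  have h3 : ∫⁻ t in Iio (-W), ENNReal.ofReal (c / t ^ 2) = ENNReal.ofReal (c / W) := by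
    have h4 := (Measure.measurePreserving_neg (volume : Measure ℝ)).setLIntegral_comp_preimage
      (measurableSet_Ioi (a := W)) hmeas
    have h5 : (fun x : ℝ => -x) ⁻¹' Ioi W = Iio (-W) := by
      ext x
      simp only [mem_preimage, mem_Ioi, mem_Iio]
      constructor <;> intro h <;> linarith
    rw [h1] at h4
    rw [← h4]
    have h6 : (Neg.neg : ℝ → ℝ) ⁻¹' Ioi W = Iio (-W) := h5
    rw [h6]
    simp only [neg_sq]
  have h7 : (Icc (-W) W)ᶜ = Iio (-W) ∪ Ioi W := by
    ext t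
    simp only [mem_compl_iff, mem_Icc, mem_union, mem_Iio, mem_Ioi, not_and_or, not_le]
  rw [h7]
  refine (lintegral_union_le _ _ _).trans ?_
  rw [h1, h3, ← ENNReal.ofReal_add (by positivity) (by positivity)]
  apply ENNReal.ofReal_le_ofReal
  rw [← two_mul, mul_div_assoc]

theorem tail_pt (A : Matrix ι ι ℝ) (hA : A.IsSymm) (hd : ∀ i, A i i = 0) (V : ι → ℝ)
    {a K W η : ℝ} (x : ι) (hrow : ∑ j, (A x j) ^ 2 ≤ a) (hK : 0 < K) (hW : 2 * (K + 1) ≤ W)
    (hη : 0 < η) (hη1 : η ≤ 1) (E t : ℝ) (hE : |E| ≤ K) (ht : W < |t|) :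
    Pm A (Function.update V x t) E η x x ≤ (4 + 8 * a) / t ^ 2 +
      4 / t ^ 2 * ∑ i, ∑ j, A x i * Pm A (Function.update V x t) E η i j * A x j := by
  set V' := Function.update V x t with hV'
  have hV'x : V' x = t := Function.update_self _ _ _
  set z : ℂ := (E : ℂ) + (η : ℂ) * Complex.I with hz
  set w : ℂ := ((t : ℂ) - z)⁻¹ with hw
  set Q : ℂ := ∑ i, ∑ j, (A x i : ℂ) * Gm A V' E η i j * (A x j : ℂ) with hQ
  have hzre : z.re = E := by simp [hz]
  have hzim : z.im = η := by simp [hz]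
  have hexp := Gm_expand A hA hd V' E hη x
  rw [hV'x, ← hz, ← hw, ← hQ] at hexp
  have ht0 : 0 < |t| := by linarith
  have ht2 : 2 ≤ |t| := by linarith
  have htsq : 0 < t ^ 2 := by rw [← sq_abs]; positivity
  have ha0 : 0 ≤ a := le_trans (Finset.sum_nonneg fun i _ => sq_nonneg _) hrow
  -- size of w
  have hD : |t| / 2 ≤ ‖(t : ℂ) - z‖ := by
    have h1 : |((t : ℂ) - z).re| ≤ ‖(t : ℂ) - z‖ := Complex.abs_re_le_norm _
    have h2 : ((t : ℂ) - z).re = t - E := by rw [Complex.sub_re, Complex.ofReal_re, hzre]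
    rw [h2] at h1
    have h3 : |t| - |E| ≤ |t - E| := abs_sub_abs_le_abs_sub t E
    linarith
  have hD0 : 0 < ‖(t : ℂ) - z‖ := by linarith
  have hwn : ‖w‖ ≤ 2 / |t| := by
    rw [hw, norm_inv, inv_eq_one_div, div_le_div_iff₀ hD0 ht0]
    linarith
  have hwn0 : 0 ≤ ‖w‖ := norm_nonneg _
  have hwsq : ‖w‖ ^ 2 ≤ 4 / t ^ 2 := by
    calc ‖w‖ ^ 2 ≤ (2 / |t|) ^ 2 := pow_le_pow_left₀ hwn0 hwn 2
      _ = 4 / t ^ 2 := by rw [div_pow, sq_abs]; norm_num
  have hwim : w.im = η * ‖w‖ ^ 2 := by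
    rw [hw, tail_inv_im, hzre, hzim, norm_inv, inv_pow, ← Complex.normSq_eq_norm_sq,
      Complex.normSq_apply]
    simp only [Complex.sub_re, Complex.sub_im, Complex.ofReal_re, Complex.ofReal_im, hzre, hzim]
    rw [div_eq_mul_inv]
    congr 2
    ring
  have hwim0 : 0 ≤ w.im := by rw [hwim]; positivity
  have hwim1 : w.im ≤ 4 / t ^ 2 := by
    rw [hwim]
    calc η * ‖w‖ ^ 2 ≤ 1 * ‖w‖ ^ 2 := mul_le_mul_of_nonneg_right hη1 (sq_nonneg _)
      _ = ‖w‖ ^ 2 := one_mul _
      _ ≤ _ := hwsq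
  have hre2 : (w ^ 2).re ≤ 4 / t ^ 2 := by
    refine (Complex.re_le_norm _).trans ?_
    rw [norm_pow]
    exact hwsq
  have him2 : |(w ^ 2).im| ≤ 8 * η / t ^ 2 := by
    have h1 : (w ^ 2).im = 2 * w.re * w.im := by
      rw [pow_two, Complex.mul_im]
      ring
    have h2 : |w.re| ≤ ‖w‖ := Complex.abs_re_le_norm _
    have h3 : ‖w‖ ≤ 1 := hwn.trans (by rw [div_le_one ht0]; exact ht2)
    rw [h1, abs_mul, abs_mul, abs_of_nonneg hwim0, abs_of_pos (by norm_num : (0 : ℝ) < 2)]
    have h4 : 2 * |w.re| * w.im ≤ 2 * 1 * w.im := by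
      apply mul_le_mul_of_nonneg_right _ hwim0
      linarith
    refine h4.trans ?_
    rw [hwim]
    have h5 : η * ‖w‖ ^ 2 ≤ η * (4 / t ^ 2) := mul_le_mul_of_nonneg_left hwsq hη.le
    calc 2 * 1 * (η * ‖w‖ ^ 2) ≤ 2 * 1 * (η * (4 / t ^ 2)) := by linarith
      _ = 8 * η / t ^ 2 := by ring
  have hQim : Q.im = ∑ i, ∑ j, A x i * Pm A V' E η i j * A x j := by
    rw [hQ, Complex.im_sum]
    apply Finset.sum_congr rfl
    intro i _
    rw [Complex.im_sum]
    apply Finset.sum_congr rfl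
    intro j _
    rw [Complex.im_mul_ofReal, Complex.im_ofReal_mul]
    rfl
  have hQim0 : 0 ≤ Q.im := by
    rw [hQim]
    exact Pm_quad_nonneg A hA V' E hη (A x)
  have hQn : ‖Q‖ ≤ a / η := (norm_quad_le A hA V' E hη (A x)).trans
    (div_le_div_of_nonneg_right hrow hη.le)
  have hQre : |Q.re| ≤ a / η := (Complex.abs_re_le_norm _).trans hQn
  have hfin : Pm A V' E η x x = w.im + (Q.re * (w ^ 2).im + Q.im * (w ^ 2).re) := by
    unfold Pm
    rw [hexp, Complex.add_im, Complex.mul_im]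
  rw [hfin, ← hQim]
  have h6 : Q.re * (w ^ 2).im ≤ 8 * a / t ^ 2 := by
    calc Q.re * (w ^ 2).im ≤ |Q.re * (w ^ 2).im| := le_abs_self _
      _ = |Q.re| * |(w ^ 2).im| := abs_mul _ _
      _ ≤ (a / η) * (8 * η / t ^ 2) := mul_le_mul hQre him2 (abs_nonneg _) (by positivity)
      _ = 8 * a / t ^ 2 := by field_simp
  have h7 : Q.im * (w ^ 2).re ≤ Q.im * (4 / t ^ 2) := mul_le_mul_of_nonneg_left hre2 hQim0
  calc w.im + (Q.re * (w ^ 2).im + Q.im * (w ^ 2).re)
      ≤ 4 / t ^ 2 + (8 * a / t ^ 2 + Q.im * (4 / t ^ 2)) := by linarith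
    _ = (4 + 8 * a) / t ^ 2 + 4 / t ^ 2 * Q.im := by ring

theorem tail_meas (A : Matrix ι ι ℝ) (V : ι → ℝ) (x : ι) (η : ℝ) (i j : ι) :
    Measurable (fun p : ℝ × ℝ => Pm A (Function.update V x p.2) p.1 η i j) := by
  apply measurable_Pm (fun _ => A) (fun _ _ => measurable_const)
    (fun p : ℝ × ℝ => Function.update V x p.2) _ (fun p => p.1) measurable_fst
  intro k
  by_cases hk : k = x
  · subst hk
    simpa using measurable_snd
  · simpa [Function.update_of_ne hk] using measurable_const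

/-- large values of the potential contribute little, on average over the energy -/
theorem tail_bound (A : Matrix ι ι ℝ) (hA : A.IsSymm) (hd : ∀ i, A i i = 0) (V : ι → ℝ)
    {a K W η : ℝ} (x : ι) (hrow : ∑ j, (A x j) ^ 2 ≤ a) (hK : 0 < K) (hW : 2 * (K + 1) ≤ W)
    (hη : 0 < η) (hη1 : η ≤ 1) :
    ∫⁻ E in Icc (-K) K, ∫⁻ t in (Icc (-W) W)ᶜ,
      ENNReal.ofReal (Pm A (Function.update V x t) E η x x) ≤ ENNReal.ofReal (Ck K a / W) := by
  have ha0 : 0 ≤ a := le_trans (Finset.sum_nonneg fun i _ => sq_nonneg _) hrow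
  have hW0 : 0 < W := by linarith
  rw [lintegral_lintegral_swap (tail_meas A V x η x x).ennreal_ofReal.aemeasurable]
  have hin : ∀ t ∈ (Icc (-W) W)ᶜ, ∫⁻ E in Icc (-K) K,
      ENNReal.ofReal (Pm A (Function.update V x t) E η x x) ≤
      ENNReal.ofReal ((8 * K + 16 * K * a + 4 * Real.pi * a) / t ^ 2) := by
    intro t ht
    have ht' : W < |t| := by
      rw [mem_compl_iff, mem_Icc, ← abs_le, not_le] at ht
      exact ht
    have htsq : 0 < t ^ 2 := by
      rw [← sq_abs]
      have : 0 < |t| := by linarith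
      positivity
    have hm : Measurable (fun E : ℝ => ENNReal.ofReal (∑ i, ∑ j, A x i *
        Pm A (Function.update V x t) E η i j * A x j)) := by
      apply Measurable.ennreal_ofReal
      apply Finset.measurable_sum
      intro i _
      apply Finset.measurable_sum
      intro j _
      exact (((tail_meas A V x η i j).comp (measurable_id.prodMk measurable_const)).const_mul
        _).mul_const _
    calc ∫⁻ E in Icc (-K) K, ENNReal.ofReal (Pm A (Function.update V x t) E η x x)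
        ≤ ∫⁻ E in Icc (-K) K, (ENNReal.ofReal ((4 + 8 * a) / t ^ 2) +
            ENNReal.ofReal (4 / t ^ 2) * ENNReal.ofReal (∑ i, ∑ j, A x i *
              Pm A (Function.update V x t) E η i j * A x j)) := by
          apply setLIntegral_mono' measurableSet_Icc
          intro E hE
          have h1 := tail_pt A hA hd V x hrow hK hW hη hη1 E t (abs_le.2 hE) ht'
          have h2 := Pm_quad_nonneg A hA (Function.update V x t) E hη (A x)
          rw [← ENNReal.ofReal_mul (by positivity), ← ENNReal.ofReal_add (by positivity)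
            (mul_nonneg (by positivity) h2)]
          exact ENNReal.ofReal_le_ofReal h1
      _ = ENNReal.ofReal ((4 + 8 * a) / t ^ 2) * volume (Icc (-K) K) +
          ENNReal.ofReal (4 / t ^ 2) * ∫⁻ E in Icc (-K) K, ENNReal.ofReal (∑ i, ∑ j, A x i *
              Pm A (Function.update V x t) E η i j * A x j) := by
          rw [lintegral_add_left measurable_const, lintegral_const, Measure.restrict_apply_univ,
            lintegral_const_mul _ hm]
      _ ≤ ENNReal.ofReal ((4 + 8 * a) / t ^ 2) * ENNReal.ofReal (2 * K) +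
          ENNReal.ofReal (4 / t ^ 2) * ENNReal.ofReal (Real.pi * a) := by
          gcongr
          · rw [Real.volume_Icc]
            apply ENNReal.ofReal_le_ofReal
            linarith
          · refine (setLIntegral_le_lintegral _ _).trans ?_
            rw [spectral_lint A hA (Function.update V x t) hη (A x)]
            exact ENNReal.ofReal_le_ofReal (mul_le_mul_of_nonneg_left hrow Real.pi_pos.le)
      _ = ENNReal.ofReal ((8 * K + 16 * K * a + 4 * Real.pi * a) / t ^ 2) := by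
          rw [← ENNReal.ofReal_mul (by positivity), ← ENNReal.ofReal_mul (by positivity),
            ← ENNReal.ofReal_add (by positivity) (by positivity)]
          congr 1
          ring
  calc ∫⁻ t in (Icc (-W) W)ᶜ, ∫⁻ E in Icc (-K) K,
        ENNReal.ofReal (Pm A (Function.update V x t) E η x x)
      ≤ ∫⁻ t in (Icc (-W) W)ᶜ,
        ENNReal.ofReal ((8 * K + 16 * K * a + 4 * Real.pi * a) / t ^ 2) :=
        setLIntegral_mono' measurableSet_Icc.compl hin
    _ ≤ ENNReal.ofReal (2 * (8 * K + 16 * K * a + 4 * Real.pi * a) / W) :=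
        tail_int _ W (by positivity) hW0
    _ = ENNReal.ofReal (Ck K a / W) := by
        unfold Ck
        congr 1
        ring

theorem tail_large (ζ : ℂ) {W : ℝ} (hζ : 0 < ζ.im) (hW : 0 < W) (h : 8 * W ≤ ‖ζ‖) :
    1 ≤ ∫⁻ t in (Icc (-W) W)ᶜ, ENNReal.ofReal ((((t : ℂ) - ζ)⁻¹).im) := by
  by_contra hcon
  push Not at hcon
  have h1 := lintegral_add_compl (μ := (volume : Measure ℝ))
    (fun t : ℝ => ENNReal.ofReal ((((t : ℂ) - ζ)⁻¹).im)) (measurableSet_Icc (a := -W) (b := W))
  rw [poisson_lint ζ hζ] at h1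
  have hn0 : 0 < ‖ζ‖ := by linarith
  have h2 : ∫⁻ t in Icc (-W) W, ENNReal.ofReal ((((t : ℂ) - ζ)⁻¹).im) ≤
      ENNReal.ofReal (16 / 49) := by
    calc ∫⁻ t in Icc (-W) W, ENNReal.ofReal ((((t : ℂ) - ζ)⁻¹).im)
        ≤ ∫⁻ _t in Icc (-W) W, ENNReal.ofReal (64 / (49 * ‖ζ‖)) := by
          apply setLIntegral_mono' measurableSet_Icc
          intro t ht
          apply ENNReal.ofReal_le_ofReal
          have h3 : 7 / 8 * ‖ζ‖ ≤ ‖(t : ℂ) - ζ‖ := by
            have h4 : ‖ζ‖ - ‖(t : ℂ)‖ ≤ ‖(t : ℂ) - ζ‖ := by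
              rw [norm_sub_rev]
              exact norm_sub_norm_le _ _
            rw [Complex.norm_real, Real.norm_eq_abs] at h4
            have h5 : |t| ≤ W := abs_le.2 ht
            linarith
          have h6 : (((t : ℂ) - ζ)⁻¹).im = ζ.im / ‖(t : ℂ) - ζ‖ ^ 2 := by
            rw [tail_inv_im, ← Complex.normSq_eq_norm_sq, Complex.normSq_apply]
            simp only [Complex.sub_re, Complex.sub_im, Complex.ofReal_re, Complex.ofReal_im]
            congr 1
            ring
          rw [h6]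
          have h7 : ζ.im ≤ ‖ζ‖ := Complex.im_le_norm _
          calc ζ.im / ‖(t : ℂ) - ζ‖ ^ 2 ≤ ‖ζ‖ / (7 / 8 * ‖ζ‖) ^ 2 := by gcongr
            _ = 64 / (49 * ‖ζ‖) := by
              field_simp
              norm_num
      _ = ENNReal.ofReal (64 / (49 * ‖ζ‖)) * ENNReal.ofReal (2 * W) := by
          rw [lintegral_const, Measure.restrict_apply_univ, Real.volume_Icc]
          congr 2
          ring
      _ = ENNReal.ofReal (64 / (49 * ‖ζ‖) * (2 * W)) :=
          (ENNReal.ofReal_mul (by positivity)).symm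
      _ ≤ ENNReal.ofReal (16 / 49) := by
          apply ENNReal.ofReal_le_ofReal
          rw [div_mul_eq_mul_div, div_le_div_iff₀ (by positivity) (by norm_num)]
          nlinarith
  have h8 : ENNReal.ofReal Real.pi < ENNReal.ofReal (16 / 49) + 1 := by
    rw [← h1]
    exact ENNReal.add_lt_add_of_le_of_lt (ne_top_of_le_ne_top ENNReal.ofReal_ne_top h2) h2 hcon
  rw [← ENNReal.ofReal_one, ← ENNReal.ofReal_add (by norm_num) (by norm_num),
    ENNReal.ofReal_lt_ofReal_iff (by norm_num)] at h8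
  have := Real.pi_gt_three
  linarith

theorem tight (A : Matrix ι ι ℝ) (hA : A.IsSymm) (hd : ∀ i, A i i = 0) (V : ι → ℝ)
    {a K W η : ℝ} (x : ι) (hrow : ∑ j, (A x j) ^ 2 ≤ a) (hK : 0 < K) (hW : 2 * (K + 1) ≤ W)
    (hη : 0 < η) (hη1 : η ≤ 1) :
    volume {E : ℝ | E ∈ Icc (-K) K ∧
      8 * W ≤ ‖(E : ℂ) + (η : ℂ) * Complex.I + Sg A V E η x‖} ≤ ENNReal.ofReal (Ck K a / W) := by
  have hW0 : 0 < W := by linarith
  set F : ℝ → ENNReal := fun E => ∫⁻ t in (Icc (-W) W)ᶜ,
    ENNReal.ofReal (Pm A (Function.update V x t) E η x x) with hF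
  have hFm : Measurable F := by
    apply Measurable.lintegral_prod_right'
      (f := fun p : ℝ × ℝ => ENNReal.ofReal (Pm A (Function.update V x p.2) p.1 η x x))
    exact (tail_meas A V x η x x).ennreal_ofReal
  have h1 := mul_meas_ge_le_lintegral (μ := volume.restrict (Icc (-K) K)) hFm 1
  rw [one_mul, Measure.restrict_apply (measurableSet_le measurable_const hFm)] at h1
  refine le_trans (measure_mono ?_) (h1.trans (tail_bound A hA hd V x hrow hK hW hη hη1))
  rintro E ⟨hE, hE2⟩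
  refine ⟨?_, hE⟩
  change 1 ≤ F E
  have h2 := Sg_im_nonneg A hA V E hη x
  have h3 : 0 < ((E : ℂ) + (η : ℂ) * Complex.I + Sg A V E η x).im := by
    simp
    linarith
  have h4 := tail_large _ h3 hW0 hE2
  refine h4.trans (le_of_eq ?_)
  simp only [hF]
  apply lintegral_congr
  intro t
  unfold Pm
  rw [schur_diag A hA hd (Function.update V x t) E hη x, Sg_update A hA hd V t E hη x,
    Function.update_self]

end H10PL
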