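import Pool.Agent.H10R2.PL.Defs
import Pool.Agent.H10R2.PL.Res
import Pool.Agent.H10R2.PL.Schur
import Pool.Agent.H10R2.PL.Tail

/-!
Second moment in the potential (task MOM of the power-law Anderson model project).
-/

namespace H10PL

open MeasureTheory ProbabilityTheory Matrix Set

variable {ι : Type*} [Fintype ι] [DecidableEq ι]

namespace Mom

/-- resampling one coordinate of a product measure -/
theorem resample (μ : Measure ℝ) [IsProbabilityMeasure μ] (y : ι) (F : (ι → ℝ) → ENNReal)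
    (hF : Measurable F) :
    ∫⁻ V, F V ∂(Measure.pi fun _ : ι => μ) =
      ∫⁻ V, (∫⁻ t, F (Function.update V y t) ∂μ) ∂(Measure.pi fun _ : ι => μ) := by
  have hG : Measurable fun V : ι → ℝ => ∫⁻ t, F (Function.update V y t) ∂μ := by
    have h1 : Measurable fun p : (ι → ℝ) × ℝ => F (Function.update p.1 y p.2) :=
      hF.comp measurable_update'
    exact h1.lintegral_prod_right'
  refine lintegral_eq_of_lmarginal_eq {y} hF hG ?_
  rw [lmarginal_singleton, lmarginal_singleton]
  funext V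
  simp

/-- the weight -/
noncomputable def g (v : NNReal) (W t : ℝ) : ℝ :=
  if t ∈ Icc (-W) W then gaussianPDFReal 0 v W / gaussianPDFReal 0 v t else 0

theorem pdf_le (v : NNReal) (W t : ℝ) (ht : t ∈ Icc (-W) W) :
    gaussianPDFReal 0 v W ≤ gaussianPDFReal 0 v t := by
  simp only [gaussianPDFReal, sub_zero]
  have h1 : t ^ 2 ≤ W ^ 2 := by
    apply sq_le_sq'
    · exact ht.1
    · exact ht.2
  have h2 : (0 : ℝ) ≤ (2 * (v : ℝ)) := by positivity
  have h3 : -W ^ 2 / (2 * (v : ℝ)) ≤ -t ^ 2 / (2 * (v : ℝ)) := by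
    apply div_le_div_of_nonneg_right _ h2
    linarith
  have h4 := Real.exp_le_exp.mpr h3
  gcongr

theorem g_nonneg (v : NNReal) (W t : ℝ) : 0 ≤ g v W t := by
  unfold g
  split_ifs
  · exact div_nonneg (gaussianPDFReal_nonneg _ _ _) (gaussianPDFReal_nonneg _ _ _)
  · exact le_refl _

theorem g_le_one (v : NNReal) (W t : ℝ) : g v W t ≤ 1 := by
  unfold g
  split_ifs with h
  · exact div_le_one_of_le₀ (pdf_le v W t h) (gaussianPDFReal_nonneg _ _ _)
  · exact zero_le_one

theorem measurable_g (v : NNReal) (W : ℝ) : Measurable (g v W) := by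
  unfold g
  refine Measurable.ite measurableSet_Icc ?_ measurable_const
  exact measurable_const.div (measurable_gaussianPDFReal 0 v)

theorem gauss_lint (v : NNReal) (hv : v ≠ 0) (W : ℝ) (h : ℝ → ENNReal) (hh : Measurable h) :
    ∫⁻ t, ENNReal.ofReal (g v W t) * h t ∂(gaussianReal 0 v) =
      ENNReal.ofReal (gaussianPDFReal 0 v W) * ∫⁻ t in Icc (-W) W, h t := by
  have hm : Measurable fun t => ENNReal.ofReal (g v W t) * h t :=
    ((measurable_g v W).ennreal_ofReal).mul hh
  rw [gaussianReal_of_var_ne_zero 0 hv,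
    lintegral_withDensity_eq_lintegral_mul _ (measurable_gaussianPDF 0 v) hm,
    ← lintegral_const_mul _ hh, ← lintegral_indicator measurableSet_Icc]
  apply lintegral_congr
  intro t
  simp only [Pi.mul_apply]
  by_cases ht : t ∈ Icc (-W) W
  · rw [indicator_of_mem ht, ← mul_assoc]
    congr 1
    rw [gaussianPDF, ← ENNReal.ofReal_mul (gaussianPDFReal_nonneg _ _ _), g, if_pos ht]
    congr 1
    rw [mul_div_cancel₀]
    exact (gaussianPDFReal_pos 0 v t hv).ne'
  · rw [indicator_of_notMem ht, g, if_neg ht]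
    simp

theorem diag_form (A : Matrix ι ι ℝ) (hA : A.IsSymm) (hd : ∀ i, A i i = 0) (V : ι → ℝ) (E : ℝ)
    {η : ℝ} (hη : 0 < η) (y : ι) (t : ℝ) :
    Pm A (Function.update V y t) E η y y =
      (((t : ℂ) - ((E : ℂ) + (η : ℂ) * Complex.I + Sg A V E η y))⁻¹).im := by
  unfold Pm
  rw [schur_diag A hA hd _ E hη y, Sg_update A hA hd V t E hη y, Function.update_self]

theorem diag_full (A : Matrix ι ι ℝ) (hA : A.IsSymm) (hd : ∀ i, A i i = 0) (V : ι → ℝ) (E : ℝ)
    {η : ℝ} (hη : 0 < η) (y : ι) :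
    ∫⁻ t : ℝ, ENNReal.ofReal (Pm A (Function.update V y t) E η y y) =
      ENNReal.ofReal Real.pi := by
  have h1 := poisson_lint ((E : ℂ) + (η : ℂ) * Complex.I + Sg A V E η y) (by
    have := Sg_im_nonneg A hA V E hη y
    simp
    linarith)
  rw [← h1]
  apply lintegral_congr
  intro t
  rw [diag_form A hA hd V E hη y t]

theorem meas_upd (A : Matrix ι ι ℝ) (V : ι → ℝ) (E η : ℝ) (y : ι) :
    Measurable fun t : ℝ => Pm A (Function.update V y t) E η y y :=
  measurable_Pm (Ω := ℝ) (fun _ => A) (fun _ _ => measurable_const)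
    (fun t => Function.update V y t)
    (fun i => (measurable_pi_apply i).comp (measurable_update V)) (fun _ => E)
    measurable_const η y y

theorem diag_eq (v : NNReal) (hv : v ≠ 0) (A : Matrix ι ι ℝ) (V : ι → ℝ) (E : ℝ)
    {η W : ℝ} (y : ι) :
    ∫⁻ t : ℝ, ENNReal.ofReal (g v W t * Pm A (Function.update V y t) E η y y)
      ∂(gaussianReal 0 v) = ENNReal.ofReal (gaussianPDFReal 0 v W) *
        ∫⁻ t in Icc (-W) W, ENNReal.ofReal (Pm A (Function.update V y t) E η y y) := by
  rw [← gauss_lint v hv W _ (meas_upd A V E η y).ennreal_ofReal]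
  apply lintegral_congr
  intro t
  rw [ENNReal.ofReal_mul (g_nonneg v W t)]

theorem diag_le (v : NNReal) (hv : v ≠ 0) (A : Matrix ι ι ℝ) (hA : A.IsSymm)
    (hd : ∀ i, A i i = 0) (V : ι → ℝ) (E : ℝ)
    {η W : ℝ} (hη : 0 < η) (y : ι) :
    ∫⁻ t : ℝ, ENNReal.ofReal (g v W t * Pm A (Function.update V y t) E η y y)
      ∂(gaussianReal 0 v) ≤ ENNReal.ofReal (gaussianPDFReal 0 v W * Real.pi) := by
  rw [diag_eq v hv A V E y, ENNReal.ofReal_mul (gaussianPDFReal_nonneg _ _ _)]
  gcongr
  rw [← diag_full A hA hd V E hη y]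
  exact setLIntegral_le_lintegral _ _

theorem meas_V (A : Matrix ι ι ℝ) (E η : ℝ) (y : ι) :
    Measurable fun V : ι → ℝ => Pm A V E η y y :=
  measurable_Pm (Ω := ι → ℝ) (fun _ => A) (fun _ _ => measurable_const)
    (fun V => V) (fun i => measurable_pi_apply i) (fun _ => E) measurable_const η y y

theorem meas_EV (A : Matrix ι ι ℝ) (η : ℝ) (y : ι) :
    Measurable fun p : ℝ × (ι → ℝ) => Pm A p.2 p.1 η y y :=
  measurable_Pm (Ω := ℝ × (ι → ℝ)) (fun _ => A) (fun _ _ => measurable_const)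
    (fun p => p.2) (fun i => (measurable_pi_apply i).comp measurable_snd) (fun p => p.1)
    measurable_fst η y y

omit [Fintype ι] [DecidableEq ι] in
theorem meas_gV (v : NNReal) (W : ℝ) (y : ι) : Measurable fun V : ι → ℝ => g v W (V y) :=
  (measurable_g v W).comp (measurable_pi_apply y)

theorem meas_gP (v : NNReal) (W : ℝ) (A : Matrix ι ι ℝ) (E η : ℝ) (y : ι) :
    Measurable fun V : ι → ℝ => g v W (V y) * Pm A V E η y y :=
  (meas_gV v W y).mul (meas_V A E η y)

theorem first_le (v : NNReal) (hv : v ≠ 0) (A : Matrix ι ι ℝ) (hA : A.IsSymm)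
    (hd : ∀ i, A i i = 0) (E : ℝ) {η W : ℝ} (hη : 0 < η) (y : ι) :
    ∫⁻ V, ENNReal.ofReal (g v W (V y) * Pm A V E η y y)
      ∂(Measure.pi fun _ : ι => gaussianReal 0 v) ≤
      ENNReal.ofReal (gaussianPDFReal 0 v W * Real.pi) := by
  rw [resample (gaussianReal 0 v) y _ (meas_gP v W A E η y).ennreal_ofReal]
  calc ∫⁻ V, (∫⁻ t, ENNReal.ofReal (g v W (Function.update V y t y) *
        Pm A (Function.update V y t) E η y y) ∂(gaussianReal 0 v))
        ∂(Measure.pi fun _ : ι => gaussianReal 0 v)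
      ≤ ∫⁻ _V, ENNReal.ofReal (gaussianPDFReal 0 v W * Real.pi)
        ∂(Measure.pi fun _ : ι => gaussianReal 0 v) := by
        apply lintegral_mono
        intro V
        simp only [Function.update_self]
        exact diag_le v hv A hA hd V E hη y
    _ = _ := by simp

/-- the weighted sum -/
noncomputable def XX (v : NNReal) (W : ℝ) (A : Matrix ι ι ℝ) (η : ℝ) (S : Finset ι) (E : ℝ)
    (V : ι → ℝ) : ℝ := ∑ y ∈ S, g v W (V y) * Pm A V E η y y

theorem gP_nonneg (v : NNReal) (W : ℝ) (A : Matrix ι ι ℝ) (hA : A.IsSymm) (V : ι → ℝ) (E : ℝ)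
    {η : ℝ} (hη : 0 < η) (y : ι) (t : ℝ) : 0 ≤ g v W t * Pm A V E η y y :=
  mul_nonneg (g_nonneg v W t) (Pm_diag_pos A hA V E hη y).le

theorem XX_nonneg (v : NNReal) (W : ℝ) (A : Matrix ι ι ℝ) (hA : A.IsSymm) (V : ι → ℝ) (E : ℝ)
    {η : ℝ} (hη : 0 < η) (S : Finset ι) : 0 ≤ XX v W A η S E V :=
  Finset.sum_nonneg fun y _ => gP_nonneg v W A hA V E hη y _

theorem gP_le (v : NNReal) (W : ℝ) (A : Matrix ι ι ℝ) (hA : A.IsSymm) (V : ι → ℝ) (E : ℝ)
    {η : ℝ} (hη : 0 < η) (y : ι) (t : ℝ) : g v W t * Pm A V E η y y ≤ 1 / η := by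
  calc g v W t * Pm A V E η y y ≤ 1 * Pm A V E η y y :=
        mul_le_mul_of_nonneg_right (g_le_one v W t) (Pm_diag_pos A hA V E hη y).le
    _ = Pm A V E η y y := one_mul _
    _ ≤ 1 / η := Pm_diag_le A hA V E hη y

theorem XX_le (v : NNReal) (W : ℝ) (A : Matrix ι ι ℝ) (hA : A.IsSymm) (V : ι → ℝ) (E : ℝ)
    {η : ℝ} (hη : 0 < η) (S : Finset ι) : XX v W A η S E V ≤ S.card * (1 / η) := by
  unfold XX
  calc ∑ y ∈ S, g v W (V y) * Pm A V E η y y ≤ ∑ _y ∈ S, 1 / η :=
        Finset.sum_le_sum fun y _ => gP_le v W A hA V E hη y _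
    _ = S.card * (1 / η) := by rw [Finset.sum_const, nsmul_eq_mul]

theorem XX_le_sum (v : NNReal) (W : ℝ) (A : Matrix ι ι ℝ) (hA : A.IsSymm) (V : ι → ℝ) (E : ℝ)
    {η : ℝ} (hη : 0 < η) (S : Finset ι) : XX v W A η S E V ≤ ∑ y ∈ S, Pm A V E η y y := by
  unfold XX
  apply Finset.sum_le_sum
  intro y _
  calc g v W (V y) * Pm A V E η y y ≤ 1 * Pm A V E η y y :=
        mul_le_mul_of_nonneg_right (g_le_one v W _) (Pm_diag_pos A hA V E hη y).le
    _ = Pm A V E η y y := one_mul _

theorem meas_XX (v : NNReal) (W : ℝ) (A : Matrix ι ι ℝ) (E η : ℝ) (S : Finset ι) :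
    Measurable fun V : ι → ℝ => XX v W A η S E V := by
  unfold XX
  exact Finset.measurable_sum _ fun y _ => meas_gP v W A E η y

theorem meas_XX2 (v : NNReal) (W : ℝ) (A : Matrix ι ι ℝ) (η : ℝ) (S : Finset ι) :
    Measurable fun p : ℝ × (ι → ℝ) => XX v W A η S p.1 p.2 := by
  unfold XX
  exact Finset.measurable_sum _ fun y _ =>
    ((measurable_g v W).comp ((measurable_pi_apply y).comp measurable_snd)).mul (meas_EV A η y)

theorem XX_split (v : NNReal) (W : ℝ) (A : Matrix ι ι ℝ) (hA : A.IsSymm)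
    (hd : ∀ i, A i i = 0) (V : ι → ℝ) (E : ℝ)
    {η : ℝ} (hη : 0 < η) (S : Finset ι) (y : ι) (hy : y ∈ S) :
    XX v W A η S E V ≤ 2 / η + XX v W (cut A y) η (S.erase y) E V := by
  have h1 : XX v W A η S E V =
      g v W (V y) * Pm A V E η y y + XX v W A η (S.erase y) E V := by
    unfold XX
    rw [Finset.add_sum_erase S (fun y => g v W (V y) * Pm A V E η y y) hy]
  have h2 : XX v W A η (S.erase y) E V - XX v W (cut A y) η (S.erase y) E V ≤ 1 / η := by
    unfold XX
    rw [← Finset.sum_sub_distrib]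
    calc ∑ i ∈ S.erase y, (g v W (V i) * Pm A V E η i i -
          g v W (V i) * Pm (cut A y) V E η i i)
        ≤ ∑ i ∈ S.erase y, |Pm A V E η i i - Pm (cut A y) V E η i i| := by
          apply Finset.sum_le_sum
          intro i _
          rw [← mul_sub]
          calc g v W (V i) * (Pm A V E η i i - Pm (cut A y) V E η i i)
              ≤ g v W (V i) * |Pm A V E η i i - Pm (cut A y) V E η i i| :=
                mul_le_mul_of_nonneg_left (le_abs_self _) (g_nonneg _ _ _)
            _ ≤ 1 * |Pm A V E η i i - Pm (cut A y) V E η i i| :=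
                mul_le_mul_of_nonneg_right (g_le_one _ _ _) (abs_nonneg _)
            _ = _ := one_mul _
      _ ≤ ∑ i ∈ Finset.univ.erase y, |Pm A V E η i i - Pm (cut A y) V E η i i| := by
          apply Finset.sum_le_sum_of_subset_of_nonneg
          · exact Finset.erase_subset_erase y (Finset.subset_univ S)
          · intro i _ _
            exact abs_nonneg _
      _ ≤ 1 / η := sum_diff_le A hA hd V E hη y
  have h3 := gP_le v W A hA V E hη y (V y)
  have h4 : 2 / η = 1 / η + 1 / η := by ring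
  rw [h1, h4]
  linarith

theorem XX_cut_update (v : NNReal) (W : ℝ) (A : Matrix ι ι ℝ) (hA : A.IsSymm)
    (V : ι → ℝ) (E : ℝ) {η : ℝ} (hη : 0 < η) (S : Finset ι) (y : ι) (t : ℝ) :
    XX v W (cut A y) η (S.erase y) E (Function.update V y t) =
      XX v W (cut A y) η (S.erase y) E V := by
  unfold XX
  apply Finset.sum_congr rfl
  intro i hi
  have hiy : i ≠ y := (Finset.mem_erase.mp hi).1
  rw [Function.update_of_ne hiy]
  unfold Pm
  rw [Gm_cut_update A hA V t E hη y i i hiy]

theorem XX_mean (v : NNReal) (hv : v ≠ 0) (A : Matrix ι ι ℝ) (hA : A.IsSymm)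
    (hd : ∀ i, A i i = 0) (E : ℝ) {η W : ℝ} (hη : 0 < η) (S : Finset ι) :
    ∫⁻ V, ENNReal.ofReal (XX v W A η S E V) ∂(Measure.pi fun _ : ι => gaussianReal 0 v) ≤
      ENNReal.ofReal (gaussianPDFReal 0 v W * Real.pi * S.card) := by
  have h1 : ∀ V : ι → ℝ, ENNReal.ofReal (XX v W A η S E V) =
      ∑ y ∈ S, ENNReal.ofReal (g v W (V y) * Pm A V E η y y) := by
    intro V
    unfold XX
    rw [ENNReal.ofReal_sum_of_nonneg]
    intro y _
    exact gP_nonneg v W A hA V E hη y _
  simp_rw [h1]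
  rw [lintegral_finsetSum _ (fun y _ => (meas_gP v W A E η y).ennreal_ofReal)]
  calc ∑ y ∈ S, ∫⁻ V, ENNReal.ofReal (g v W (V y) * Pm A V E η y y)
        ∂(Measure.pi fun _ : ι => gaussianReal 0 v)
      ≤ ∑ _y ∈ S, ENNReal.ofReal (gaussianPDFReal 0 v W * Real.pi) :=
        Finset.sum_le_sum fun y _ => first_le v hv A hA hd E hη y
    _ = _ := by
      rw [Finset.sum_const, nsmul_eq_mul, mul_comm, ENNReal.ofReal_mul
        (mul_nonneg (gaussianPDFReal_nonneg _ _ _) Real.pi_pos.le)]
      simp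

theorem cross (v : NNReal) (hv : v ≠ 0) (A : Matrix ι ι ℝ) (hA : A.IsSymm)
    (hd : ∀ i, A i i = 0) (E : ℝ) {η W : ℝ} (hη : 0 < η) (S : Finset ι) (y : ι) :
    ∫⁻ V, ENNReal.ofReal (g v W (V y) * Pm A V E η y y * XX v W (cut A y) η (S.erase y) E V)
      ∂(Measure.pi fun _ : ι => gaussianReal 0 v) ≤
      ENNReal.ofReal (gaussianPDFReal 0 v W * Real.pi *
        (gaussianPDFReal 0 v W * Real.pi * (S.erase y).card)) := by
  have hcp : 0 ≤ gaussianPDFReal 0 v W * Real.pi :=
    mul_nonneg (gaussianPDFReal_nonneg _ _ _) Real.pi_pos.le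
  have hm : Measurable fun V : ι → ℝ => ENNReal.ofReal
      (g v W (V y) * Pm A V E η y y * XX v W (cut A y) η (S.erase y) E V) :=
    ((meas_gP v W A E η y).mul (meas_XX v W (cut A y) E η (S.erase y))).ennreal_ofReal
  rw [resample (gaussianReal 0 v) y _ hm]
  calc ∫⁻ V, (∫⁻ t, ENNReal.ofReal (g v W (Function.update V y t y) *
        Pm A (Function.update V y t) E η y y *
        XX v W (cut A y) η (S.erase y) E (Function.update V y t)) ∂(gaussianReal 0 v))
        ∂(Measure.pi fun _ : ι => gaussianReal 0 v)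
      ≤ ∫⁻ V, ENNReal.ofReal (gaussianPDFReal 0 v W * Real.pi) *
          ENNReal.ofReal (XX v W (cut A y) η (S.erase y) E V)
        ∂(Measure.pi fun _ : ι => gaussianReal 0 v) := by
        apply lintegral_mono
        intro V
        dsimp only
        simp only [Function.update_self]
        calc ∫⁻ t, ENNReal.ofReal (g v W t * Pm A (Function.update V y t) E η y y *
              XX v W (cut A y) η (S.erase y) E (Function.update V y t)) ∂(gaussianReal 0 v)
            = ∫⁻ t, ENNReal.ofReal (g v W t * Pm A (Function.update V y t) E η y y) *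
              ENNReal.ofReal (XX v W (cut A y) η (S.erase y) E V) ∂(gaussianReal 0 v) := by
              apply lintegral_congr
              intro t
              rw [XX_cut_update v W A hA V E hη S y t, ENNReal.ofReal_mul
                (gP_nonneg v W A hA _ E hη y t)]
          _ = (∫⁻ t, ENNReal.ofReal (g v W t * Pm A (Function.update V y t) E η y y)
              ∂(gaussianReal 0 v)) * ENNReal.ofReal (XX v W (cut A y) η (S.erase y) E V) :=
              lintegral_mul_const _
                (((measurable_g v W).mul (meas_upd A V E η y)).ennreal_ofReal)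
          _ ≤ _ := by
              gcongr
              exact diag_le v hv A hA hd V E hη y
    _ = ENNReal.ofReal (gaussianPDFReal 0 v W * Real.pi) *
        ∫⁻ V, ENNReal.ofReal (XX v W (cut A y) η (S.erase y) E V)
        ∂(Measure.pi fun _ : ι => gaussianReal 0 v) :=
        lintegral_const_mul _ (meas_XX v W (cut A y) E η (S.erase y)).ennreal_ofReal
    _ ≤ ENNReal.ofReal (gaussianPDFReal 0 v W * Real.pi) *
        ENNReal.ofReal (gaussianPDFReal 0 v W * Real.pi * (S.erase y).card) := by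
        gcongr
        exact XX_mean v hv (cut A y) (cut_symm A hA y) (fun i => cut_diag A hd y i) E hη _
    _ = _ := by rw [← ENNReal.ofReal_mul hcp]

theorem second (v : NNReal) (hv : v ≠ 0) (A : Matrix ι ι ℝ) (hA : A.IsSymm)
    (hd : ∀ i, A i i = 0) (E : ℝ) {η W : ℝ} (hη : 0 < η) (S : Finset ι) :
    ∫⁻ V, ENNReal.ofReal (XX v W A η S E V ^ 2) ∂(Measure.pi fun _ : ι => gaussianReal 0 v) ≤
      ENNReal.ofReal ((gaussianPDFReal 0 v W * Real.pi * S.card) ^ 2 +
        2 * (gaussianPDFReal 0 v W * Real.pi * S.card) / η) := by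
  have hcp : 0 ≤ gaussianPDFReal 0 v W * Real.pi :=
    mul_nonneg (gaussianPDFReal_nonneg _ _ _) Real.pi_pos.le
  set b := gaussianPDFReal 0 v W * Real.pi with hb
  have h1 : ∀ V : ι → ℝ, ENNReal.ofReal (XX v W A η S E V ^ 2) ≤
      ∑ y ∈ S, (ENNReal.ofReal (2 / η) * ENNReal.ofReal (g v W (V y) * Pm A V E η y y) +
        ENNReal.ofReal (g v W (V y) * Pm A V E η y y *
          XX v W (cut A y) η (S.erase y) E V)) := by
    intro V
    have h2 : XX v W A η S E V ^ 2 ≤ ∑ y ∈ S, (2 / η * (g v W (V y) * Pm A V E η y y) +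
        (g v W (V y) * Pm A V E η y y * XX v W (cut A y) η (S.erase y) E V)) := by
      calc XX v W A η S E V ^ 2 = ∑ y ∈ S, (g v W (V y) * Pm A V E η y y) * XX v W A η S E V := by
            rw [← Finset.sum_mul, sq]
            rfl
        _ ≤ _ := by
            apply Finset.sum_le_sum
            intro y hy
            have h3 := mul_le_mul_of_nonneg_left (XX_split v W A hA hd V E hη S y hy)
              (gP_nonneg v W A hA V E hη y (V y))
            calc _ ≤ _ := h3
              _ = _ := by ring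
    refine (ENNReal.ofReal_le_ofReal h2).trans ?_
    rw [ENNReal.ofReal_sum_of_nonneg]
    · apply Finset.sum_le_sum
      intro y _
      refine ENNReal.ofReal_add_le.trans ?_
      rw [ENNReal.ofReal_mul (by positivity : (0 : ℝ) ≤ 2 / η)]
    · intro y _
      have h3 := gP_nonneg v W A hA V E hη y (V y)
      have h4 := XX_nonneg v W (cut A y) (cut_symm A hA y) V E hη (S.erase y)
      positivity
  have h5 : ∀ y : ι, Measurable fun V : ι → ℝ =>
      (ENNReal.ofReal (2 / η) * ENNReal.ofReal (g v W (V y) * Pm A V E η y y) +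
        ENNReal.ofReal (g v W (V y) * Pm A V E η y y *
          XX v W (cut A y) η (S.erase y) E V)) := by
    intro y
    exact ((meas_gP v W A E η y).ennreal_ofReal.const_mul _).add
      ((meas_gP v W A E η y).mul (meas_XX v W (cut A y) E η (S.erase y))).ennreal_ofReal
  refine (lintegral_mono h1).trans ?_
  rw [lintegral_finsetSum _ (fun y _ => h5 y)]
  calc ∑ y ∈ S, ∫⁻ V, (ENNReal.ofReal (2 / η) *
          ENNReal.ofReal (g v W (V y) * Pm A V E η y y) +
        ENNReal.ofReal (g v W (V y) * Pm A V E η y y *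
          XX v W (cut A y) η (S.erase y) E V)) ∂(Measure.pi fun _ : ι => gaussianReal 0 v)
      ≤ ∑ y ∈ S, ENNReal.ofReal (2 / η * b + b * (b * (S.card - 1))) := by
        apply Finset.sum_le_sum
        intro y hy
        rw [lintegral_add_left ((meas_gP v W A E η y).ennreal_ofReal.const_mul _),
          lintegral_const_mul _ (meas_gP v W A E η y).ennreal_ofReal]
        have h6 : ((S.erase y).card : ℝ) = S.card - 1 := by
          rw [Finset.card_erase_of_mem hy, Nat.cast_sub (Finset.card_pos.mpr ⟨y, hy⟩)]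
          simp
        have h7 : (0 : ℝ) ≤ S.card - 1 := by rw [← h6]; positivity
        rw [ENNReal.ofReal_add (by positivity) (by positivity),
          ENNReal.ofReal_mul (by positivity : (0 : ℝ) ≤ 2 / η)]
        apply add_le_add
        · gcongr
          exact first_le v hv A hA hd E hη y
        · rw [← h6]
          exact cross v hv A hA hd E hη S y
    _ ≤ _ := by
      rw [Finset.sum_const, nsmul_eq_mul]
      rcases S.eq_empty_or_nonempty with rfl | hne
      · simp
      have hc1 : (1 : ℝ) ≤ S.card := by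
        have : 1 ≤ S.card := Finset.card_pos.mpr hne
        exact_mod_cast this
      have h8 : ((S.card : ℕ) : ENNReal) = ENNReal.ofReal (S.card : ℝ) := by simp
      rw [h8, ← ENNReal.ofReal_mul (by positivity)]
      apply ENNReal.ofReal_le_ofReal
      have h9 : (S.card : ℝ) * (2 / η * b + b * (b * (S.card - 1))) =
          (b * S.card) ^ 2 + 2 * (b * S.card) / η - b ^ 2 * S.card := by ring
      rw [h9]
      have h10 : 0 ≤ b ^ 2 * S.card := by positivity
      linarith

/-- lower bound of the mean of one term, averaged over the energy -/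
theorem mean_low (v : NNReal) (hv : v ≠ 0) (A : Matrix ι ι ℝ) (hA : A.IsSymm)
    (hd : ∀ i, A i i = 0) {a K W η : ℝ} (hrow : ∀ i, ∑ j, (A i j) ^ 2 ≤ a) (hK : 0 < K)
    (hW : 2 * (K + 1) ≤ W) (hη : 0 < η) (hη1 : η ≤ 1) (y : ι) :
    ENNReal.ofReal (gaussianPDFReal 0 v W * (2 * K * Real.pi)) ≤
      (∫⁻ p, ENNReal.ofReal (g v W (p.2 y) * Pm A p.2 p.1 η y y)
        ∂((volume.restrict (Icc (-K) K)).prod (Measure.pi fun _ : ι => gaussianReal 0 v))) +
      ENNReal.ofReal (gaussianPDFReal 0 v W * (Ck K a / W)) := by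
  set c := gaussianPDFReal 0 v W with hc
  have hc0 : 0 ≤ c := gaussianPDFReal_nonneg _ _ _
  set ν1 : Measure ℝ := volume.restrict (Icc (-K) K) with hν1
  set μ : Measure (ι → ℝ) := Measure.pi fun _ : ι => gaussianReal 0 v with hμ
  -- the joint function
  have hmq : Measurable fun q : (ℝ × (ι → ℝ)) × ℝ =>
      ENNReal.ofReal (Pm A (Function.update q.1.2 y q.2) q.1.1 η y y) := by
    refine Measurable.ennreal_ofReal (measurable_Pm (Ω := (ℝ × (ι → ℝ)) × ℝ) (fun _ => A)
      (fun _ _ => measurable_const) (fun q => Function.update q.1.2 y q.2)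
      (fun i => ?_) (fun q => q.1.1) (measurable_fst.comp measurable_fst) η y y)
    have h1 : Measurable fun q : (ℝ × (ι → ℝ)) × ℝ => Function.update q.1.2 y q.2 :=
      measurable_update'.comp ((measurable_snd.comp measurable_fst).prodMk measurable_snd)
    exact (measurable_pi_apply i).comp h1
  set J : ℝ × (ι → ℝ) → ENNReal := fun p => ∫⁻ t in Icc (-W) W,
    ENNReal.ofReal (Pm A (Function.update p.2 y t) p.1 η y y) with hJ
  set Jc : ℝ × (ι → ℝ) → ENNReal := fun p => ∫⁻ t in (Icc (-W) W)ᶜ,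
    ENNReal.ofReal (Pm A (Function.update p.2 y t) p.1 η y y) with hJc
  have hJm : Measurable J := hmq.lintegral_prod_right'
  have hJcm : Measurable Jc := hmq.lintegral_prod_right'
  have hsum : ∀ p, J p + Jc p = ENNReal.ofReal Real.pi := by
    intro p
    rw [← diag_full A hA hd p.2 p.1 hη y]
    exact lintegral_add_compl _ measurableSet_Icc
  have htot : ∫⁻ p, (J p + Jc p) ∂(ν1.prod μ) = ENNReal.ofReal (2 * K * Real.pi) := by
    simp_rw [hsum]
    rw [lintegral_const, Measure.prod_apply MeasurableSet.univ]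
    simp only [preimage_univ, measure_univ, lintegral_const, one_mul]
    rw [hν1, Measure.restrict_apply_univ, Real.volume_Icc, mul_comm,
      ← ENNReal.ofReal_mul (by linarith)]
    congr 1
    ring
  have hJcle : ∫⁻ p, Jc p ∂(ν1.prod μ) ≤ ENNReal.ofReal (Ck K a / W) := by
    rw [lintegral_prod_symm' _ hJcm]
    calc ∫⁻ V, ∫⁻ E, Jc (E, V) ∂ν1 ∂μ ≤ ∫⁻ _V, ENNReal.ofReal (Ck K a / W) ∂μ := by
          apply lintegral_mono
          intro V
          exact tail_bound A hA hd V y (hrow y) hK hW hη hη1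
      _ = _ := by simp
  have hfirst : ENNReal.ofReal c * ∫⁻ p, J p ∂(ν1.prod μ) =
      ∫⁻ p, ENNReal.ofReal (g v W (p.2 y) * Pm A p.2 p.1 η y y) ∂(ν1.prod μ) := by
    have hgm : Measurable fun p : ℝ × (ι → ℝ) =>
        ENNReal.ofReal (g v W (p.2 y) * Pm A p.2 p.1 η y y) :=
      (((measurable_g v W).comp ((measurable_pi_apply y).comp measurable_snd)).mul
        (meas_EV A η y)).ennreal_ofReal
    rw [← lintegral_const_mul _ hJm, lintegral_prod _ (hJm.const_mul _).aemeasurable,
      lintegral_prod _ hgm.aemeasurable]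
    apply lintegral_congr
    intro E
    rw [hμ, resample (gaussianReal 0 v) y _ (meas_gP v W A E η y).ennreal_ofReal]
    apply lintegral_congr
    intro V
    simp only [Function.update_self]
    rw [diag_eq v hv A V E y]
  calc ENNReal.ofReal (c * (2 * K * Real.pi))
      = ENNReal.ofReal c * ∫⁻ p, (J p + Jc p) ∂(ν1.prod μ) := by
        rw [htot, ENNReal.ofReal_mul hc0]
    _ = ENNReal.ofReal c * ∫⁻ p, J p ∂(ν1.prod μ) +
        ENNReal.ofReal c * ∫⁻ p, Jc p ∂(ν1.prod μ) := by
        rw [lintegral_add_left hJm, mul_add]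
    _ ≤ _ := by
        rw [hfirst, ENNReal.ofReal_mul hc0]
        gcongr

end Mom

open Mom in
theorem moment_bound (v : NNReal) (hv : v ≠ 0) (A : Matrix ι ι ℝ) (hA : A.IsSymm)
    (hd : ∀ i, A i i = 0) {a K W η : ℝ} (hrow : ∀ i, ∑ j, (A i j) ^ 2 ≤ a) (hK : 0 < K)
    (hW : 2 * (K + 1) ≤ W) (hη : 0 < η) (hη1 : η ≤ 1) (S : Finset ι) (hS : S.Nonempty) :
    ((volume.restrict (Icc (-K) K)).prod (Measure.pi fun _ : ι => gaussianReal 0 v))
      {p : ℝ × (ι → ℝ) | ∑ y ∈ S, Pm A p.2 p.1 η y y <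
        gaussianPDFReal 0 v W * Real.pi * S.card / 2} ≤
      ENNReal.ofReal (8 * Ck K a / (Real.pi * W) +
        16 * K / (gaussianPDFReal 0 v W * Real.pi * S.card * η)) := by
  set c := gaussianPDFReal 0 v W with hc
  have hc0 : 0 < c := gaussianPDFReal_pos _ _ _ hv
  set ν1 : Measure ℝ := volume.restrict (Icc (-K) K) with hν1
  set μ : Measure (ι → ℝ) := Measure.pi fun _ : ι => gaussianReal 0 v with hμ
  have hcard : (0 : ℝ) < S.card := by exact_mod_cast Finset.card_pos.mpr hS
  have hpi := Real.pi_pos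
  have hW0 : 0 < W := by linarith
  set a' := c * Real.pi * S.card with ha'
  have ha'0 : 0 < a' := by positivity
  have hν1u : ν1 univ = ENNReal.ofReal (2 * K) := by
    rw [hν1, Measure.restrict_apply_univ, Real.volume_Icc]
    congr 1
    ring
  have : IsFiniteMeasure ν1 := ⟨by rw [hν1u]; exact ENNReal.ofReal_lt_top⟩
  set X : ℝ × (ι → ℝ) → ℝ := fun p => XX v W A η S p.1 p.2 with hX
  have hXm : Measurable X := meas_XX2 v W A η S
  have hX0 : ∀ p, 0 ≤ X p := fun p => XX_nonneg v W A hA p.2 p.1 hη S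
  have hXle : ∀ p, X p ≤ S.card * (1 / η) := fun p => XX_le v W A hA p.2 p.1 hη S
  have hXi : Integrable X (ν1.prod μ) := by
    refine Integrable.of_bound hXm.aestronglyMeasurable (S.card * (1 / η)) ?_
    filter_upwards with p
    rw [Real.norm_eq_abs, abs_of_nonneg (hX0 p)]
    exact hXle p
  have hX2i : Integrable (fun p => X p ^ 2) (ν1.prod μ) := by
    refine Integrable.of_bound (hXm.pow_const 2).aestronglyMeasurable
      ((S.card * (1 / η)) ^ 2) ?_
    filter_upwards with p
    rw [Real.norm_eq_abs, abs_of_nonneg (sq_nonneg _)]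
    exact pow_le_pow_left₀ (hX0 p) (hXle p) 2
  have hmass : (ν1.prod μ) univ = ENNReal.ofReal (2 * K) := by
    rw [Measure.prod_apply MeasurableSet.univ]
    simp only [preimage_univ, measure_univ, lintegral_const, one_mul]
    exact hν1u
  have ha0 : 0 ≤ a := by
    obtain ⟨y, _⟩ := hS
    exact (Finset.sum_nonneg fun j _ => sq_nonneg (A y j)).trans (hrow y)
  have hCk : 0 ≤ Ck K a := by
    unfold Ck
    positivity
  -- second moment
  have hI2 : ∫ p, X p ^ 2 ∂(ν1.prod μ) ≤ 2 * K * (a' ^ 2 + 2 * a' / η) := by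
    have h1 : ENNReal.ofReal (∫ p, X p ^ 2 ∂(ν1.prod μ)) ≤
        ENNReal.ofReal (2 * K * (a' ^ 2 + 2 * a' / η)) := by
      rw [ofReal_integral_eq_lintegral_ofReal hX2i
        (Filter.Eventually.of_forall fun p => sq_nonneg _),
        lintegral_prod _ ((hXm.pow_const 2).ennreal_ofReal).aemeasurable]
      calc ∫⁻ E, ∫⁻ V, ENNReal.ofReal (X (E, V) ^ 2) ∂μ ∂ν1
          ≤ ∫⁻ _E, ENNReal.ofReal (a' ^ 2 + 2 * a' / η) ∂ν1 := by
            apply lintegral_mono
            intro E
            exact second v hv A hA hd E hη S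
        _ = _ := by
            rw [lintegral_const, hν1u, mul_comm, ← ENNReal.ofReal_mul (by linarith)]
    exact (ENNReal.ofReal_le_ofReal_iff (by positivity)).mp h1
  -- first moment
  have hI1 : 2 * K * a' - a' * Ck K a / (Real.pi * W) ≤ ∫ p, X p ∂(ν1.prod μ) := by
    have h1 : ∀ y ∈ S, ENNReal.ofReal (c * (2 * K * Real.pi)) ≤
        (∫⁻ p, ENNReal.ofReal (g v W (p.2 y) * Pm A p.2 p.1 η y y) ∂(ν1.prod μ)) +
        ENNReal.ofReal (c * (Ck K a / W)) := fun y _ =>
      mean_low v hv A hA hd hrow hK hW hη hη1 y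
    have h2 := Finset.sum_le_sum h1
    rw [Finset.sum_add_distrib, Finset.sum_const, Finset.sum_const, nsmul_eq_mul,
      nsmul_eq_mul] at h2
    have h3 : ∑ y ∈ S, ∫⁻ p, ENNReal.ofReal (g v W (p.2 y) * Pm A p.2 p.1 η y y)
        ∂(ν1.prod μ) = ENNReal.ofReal (∫ p, X p ∂(ν1.prod μ)) := by
      rw [ofReal_integral_eq_lintegral_ofReal hXi
        (Filter.Eventually.of_forall fun p => hX0 p), ← lintegral_finsetSum]
      · apply lintegral_congr
        intro p
        rw [hX]
        simp only [XX]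
        rw [ENNReal.ofReal_sum_of_nonneg]
        intro y _
        exact gP_nonneg v W A hA _ _ hη y _
      · intro y _
        exact (((measurable_g v W).comp ((measurable_pi_apply y).comp measurable_snd)).mul
          (meas_EV A η y)).ennreal_ofReal
    have h4 : ((S.card : ℕ) : ENNReal) = ENNReal.ofReal (S.card : ℝ) := by simp
    have hX1 : 0 ≤ ∫ p, X p ∂(ν1.prod μ) := integral_nonneg fun p => hX0 p
    rw [h3, h4, ← ENNReal.ofReal_mul hcard.le, ← ENNReal.ofReal_mul hcard.le,
      ← ENNReal.ofReal_add hX1 (by positivity)] at h2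
    have h5 := (ENNReal.ofReal_le_ofReal_iff (by positivity)).mp h2
    have h6 : a' * Ck K a / (Real.pi * W) = S.card * (c * (Ck K a / W)) := by
      rw [ha']
      field_simp
    rw [h6]
    have h7 : 2 * K * a' = S.card * (c * (2 * K * Real.pi)) := by
      rw [ha']
      ring
    rw [h7]
    linarith
  -- Chebyshev
  have hdi : Integrable (fun p => (a' - X p) ^ 2) (ν1.prod μ) := by
    have : (fun p => (a' - X p) ^ 2) = fun p => (a' ^ 2 - 2 * a' * X p) + X p ^ 2 := by
      funext p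
      ring
    rw [this]
    exact ((integrable_const _).sub (hXi.const_mul _)).add hX2i
  have hD : ∫ p, (a' - X p) ^ 2 ∂(ν1.prod μ) ≤
      2 * a' ^ 2 * Ck K a / (Real.pi * W) + 4 * K * a' / η := by
    have h1 : ∫ p, (a' - X p) ^ 2 ∂(ν1.prod μ) =
        2 * K * a' ^ 2 - 2 * a' * (∫ p, X p ∂(ν1.prod μ)) + ∫ p, X p ^ 2 ∂(ν1.prod μ) := by
      have h2 : (fun p => (a' - X p) ^ 2) = fun p => (a' ^ 2 - 2 * a' * X p) + X p ^ 2 := by
        funext p
        ring
      have i1 : Integrable (fun _ : ℝ × (ι → ℝ) => a' ^ 2) (ν1.prod μ) := integrable_const _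
      have i2 : Integrable (fun p => 2 * a' * X p) (ν1.prod μ) := hXi.const_mul _
      have i3 : Integrable (fun p => a' ^ 2 - 2 * a' * X p) (ν1.prod μ) := i1.sub i2
      rw [h2, integral_add i3 hX2i, integral_sub i1 i2, integral_const_mul,
        integral_const, measureReal_def, hmass, ENNReal.toReal_ofReal (by linarith)]
      rw [smul_eq_mul]
    rw [h1]
    have h3 := mul_le_mul_of_nonneg_left hI1 (by linarith : (0 : ℝ) ≤ 2 * a')
    have h4 : 2 * a' * (2 * K * a' - a' * Ck K a / (Real.pi * W)) =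
        4 * K * a' ^ 2 - 2 * a' ^ 2 * Ck K a / (Real.pi * W) := by ring
    rw [h4] at h3
    have h5 : 2 * K * (a' ^ 2 + 2 * a' / η) = 2 * K * a' ^ 2 + 4 * K * a' / η := by ring
    rw [h5] at hI2
    linarith
  have hcheb := mul_meas_ge_le_integral_of_nonneg (μ := ν1.prod μ)
    (Filter.Eventually.of_forall fun p => sq_nonneg (a' - X p)) hdi ((a' / 2) ^ 2)
  have hsub : {p : ℝ × (ι → ℝ) | ∑ y ∈ S, Pm A p.2 p.1 η y y < a' / 2} ⊆
      {p | (a' / 2) ^ 2 ≤ (a' - X p) ^ 2} := by
    intro p hp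
    simp only [Set.mem_ofPred_eq] at hp ⊢
    have h1 : X p < a' / 2 := lt_of_le_of_lt (XX_le_sum v W A hA p.2 p.1 hη S) hp
    apply pow_le_pow_left₀ (by positivity)
    linarith
  refine (measure_mono hsub).trans ?_
  have hreal : (ν1.prod μ).real {p | (a' / 2) ^ 2 ≤ (a' - X p) ^ 2} ≤
      8 * Ck K a / (Real.pi * W) + 16 * K / (c * Real.pi * S.card * η) := by
    have h1 := hcheb.trans hD
    have h2 : 2 * a' ^ 2 * Ck K a / (Real.pi * W) + 4 * K * a' / η =
        (a' / 2) ^ 2 * (8 * Ck K a / (Real.pi * W) + 16 * K / (a' * η)) := by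
      field_simp
      ring
    rw [h2] at h1
    exact le_of_mul_le_mul_left h1 (by positivity)
  rw [← ENNReal.ofReal_toReal (measure_ne_top (ν1.prod μ) {p | (a' / 2) ^ 2 ≤ (a' - X p) ^ 2})]
  exact ENNReal.ofReal_le_ofReal hreal

end H10PL
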