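import Pool.Agent.H10R2.PL.Defs2
import Pool.Agent.H10R2.PL.Mom

/-!
Wegner type bounds for an arbitrary bounded single-site density (task 2-WEGA).
-/

namespace H10PL

open MeasureTheory ProbabilityTheory Matrix Set

section finite

variable {ι : Type*} [Fintype ι] [DecidableEq ι]

/-- Wegner bound -/
theorem wegner (μ : Measure ℝ) [IsProbabilityMeasure μ] {D : ℝ} (hD : 0 ≤ D)
    (hμ : μ ≤ ENNReal.ofReal D • volume) (A : Matrix ι ι ℝ) (hA : A.IsSymm)
    (hd : ∀ i, A i i = 0) (V : ι → ℝ) (E : ℝ) {η : ℝ} (hη : 0 < η) (x : ι) :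
    ∫⁻ t, ENNReal.ofReal (Pm A (Function.update V x t) E η x x) ∂μ ≤
      ENNReal.ofReal (Real.pi * D) := by
  calc ∫⁻ t, ENNReal.ofReal (Pm A (Function.update V x t) E η x x) ∂μ
      ≤ ∫⁻ t, ENNReal.ofReal (Pm A (Function.update V x t) E η x x)
        ∂(ENNReal.ofReal D • (volume : Measure ℝ)) := lintegral_mono' hμ le_rfl
    _ = ENNReal.ofReal D * ENNReal.ofReal Real.pi := by
        rw [lintegral_smul_measure, Mom.diag_full A hA hd V E hη x]
        rfl
    _ = ENNReal.ofReal (Real.pi * D) := by rw [← ENNReal.ofReal_mul hD, mul_comm]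

/-- mass of `Pm x x` against a weight which does not depend on the potential at `x` -/
theorem wegner_weight (μ : Measure ℝ) [IsProbabilityMeasure μ] {D : ℝ} (hD : 0 ≤ D)
    (hμ : μ ≤ ENNReal.ofReal D • volume) (A : Matrix ι ι ℝ) (hA : A.IsSymm)
    (hd : ∀ i, A i i = 0) (E : ℝ) {η : ℝ} (hη : 0 < η) (x : ι) (F : (ι → ℝ) → ENNReal)
    (hF : Measurable F) (hind : ∀ V t, F (Function.update V x t) = F V) :
    ∫⁻ V, F V * ENNReal.ofReal (Pm A V E η x x) ∂(Measure.pi fun _ : ι => μ) ≤
      ENNReal.ofReal (Real.pi * D) * ∫⁻ V, F V ∂(Measure.pi fun _ : ι => μ) := by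
  have h1 := Mom.resample μ x (fun V => F V * ENNReal.ofReal (Pm A V E η x x))
    (hF.mul (Mom.meas_V A E η x).ennreal_ofReal)
  rw [h1]
  calc ∫⁻ V, (∫⁻ t, F (Function.update V x t) *
        ENNReal.ofReal (Pm A (Function.update V x t) E η x x) ∂μ) ∂(Measure.pi fun _ : ι => μ)
      = ∫⁻ V, F V * (∫⁻ t, ENNReal.ofReal (Pm A (Function.update V x t) E η x x) ∂μ)
        ∂(Measure.pi fun _ : ι => μ) := by
        apply lintegral_congr
        intro V
        simp only [hind]
        rw [lintegral_const_mul _ (Mom.meas_upd A V E η x).ennreal_ofReal]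
    _ ≤ ∫⁻ V, F V * ENNReal.ofReal (Real.pi * D) ∂(Measure.pi fun _ : ι => μ) := by
        apply lintegral_mono
        intro V
        exact mul_le_mul_right (wegner μ hD hμ A hA hd V E hη x) _
    _ = _ := by rw [lintegral_mul_const _ hF, mul_comm]

/-- total mass of the parameter space -/
theorem weg_mass (μ : Measure ℝ) [IsProbabilityMeasure μ] {K : ℝ} (hK : 0 < K) :
    ((volume.restrict (Icc (-K) K)).prod (Measure.pi fun _ : ι => μ)) Set.univ =
      ENNReal.ofReal (2 * K) := by
  have h1 : (Measure.pi fun _ : ι => μ) Set.univ = 1 := measure_univ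
  rw [← Set.univ_prod_univ, Measure.prod_prod, h1, mul_one,
    Measure.restrict_apply MeasurableSet.univ, Set.univ_inter, Real.volume_Icc]
  congr 1
  ring

/-- first bad event: the total local density in `Q` is small -/
theorem bad1 (μ : Measure ℝ) [IsProbabilityMeasure μ] (A : Matrix ι ι ℝ) (hA : A.IsSymm)
    {K η q : ℝ} (hK : 0 < K) (hη : 0 < η) (hq : 0 < q) (Q : Finset ι) :
    ∑ x ∈ Q, ∫⁻ p in {p : ℝ × (ι → ℝ) | ∑ y ∈ Q, Pm A p.2 p.1 η y y < q},
      ENNReal.ofReal (Pm A p.2 p.1 η x x)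
        ∂((volume.restrict (Icc (-K) K)).prod (Measure.pi fun _ : ι => μ)) ≤
      ENNReal.ofReal (2 * K * q) := by
  have hS : MeasurableSet {p : ℝ × (ι → ℝ) | ∑ y ∈ Q, Pm A p.2 p.1 η y y < q} :=
    measurableSet_lt (Finset.measurable_fun_sum Q fun y _ => Mom.meas_EV A η y) measurable_const
  rw [← lintegral_finsetSum _ fun x _ => (Mom.meas_EV A η x).ennreal_ofReal]
  calc ∫⁻ p in {p : ℝ × (ι → ℝ) | ∑ y ∈ Q, Pm A p.2 p.1 η y y < q},
      ∑ x ∈ Q, ENNReal.ofReal (Pm A p.2 p.1 η x x)
        ∂((volume.restrict (Icc (-K) K)).prod (Measure.pi fun _ : ι => μ))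
      ≤ ∫⁻ _p in {p : ℝ × (ι → ℝ) | ∑ y ∈ Q, Pm A p.2 p.1 η y y < q}, ENNReal.ofReal q
        ∂((volume.restrict (Icc (-K) K)).prod (Measure.pi fun _ : ι => μ)) := by
        apply setLIntegral_mono' hS
        intro p hp
        rw [← ENNReal.ofReal_sum_of_nonneg fun y _ => (Pm_diag_pos A hA p.2 p.1 hη y).le]
        exact ENNReal.ofReal_le_ofReal (le_of_lt hp)
    _ ≤ ENNReal.ofReal q *
        ((volume.restrict (Icc (-K) K)).prod (Measure.pi fun _ : ι => μ)) Set.univ := by
        rw [setLIntegral_const]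
        exact mul_le_mul_right (measure_mono (Set.subset_univ _)) _
    _ = ENNReal.ofReal (2 * K * q) := by
        rw [weg_mass μ hK, ← ENNReal.ofReal_mul hq.le, mul_comm]

/-- second bad event: the sites close to `x` carry too much -/
theorem bad2 (μ : Measure ℝ) [IsProbabilityMeasure μ] {D : ℝ} (hD : 0 ≤ D)
    (hμ : μ ≤ ENNReal.ofReal D • volume) (A : Matrix ι ι ℝ) (hA : A.IsSymm)
    (hd : ∀ i, A i i = 0) (x : ι) {K η q : ℝ} (hK : 0 < K) (hη : 0 < η) (hq : 0 < q)
    (N : Finset ι) (hxN : x ∉ N) :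
    ∫⁻ p in {p : ℝ × (ι → ℝ) | q ≤ ∑ y ∈ N, Pm (cut A x) p.2 p.1 η y y},
      ENNReal.ofReal (Pm A p.2 p.1 η x x)
        ∂((volume.restrict (Icc (-K) K)).prod (Measure.pi fun _ : ι => μ)) ≤
      ENNReal.ofReal (2 * K * (Real.pi * D) ^ 2 * N.card / q) := by
  classical
  have hcs := cut_symm A hA x
  have hcd := cut_diag A hd x
  set S : Set (ℝ × (ι → ℝ)) := {p | q ≤ ∑ y ∈ N, Pm (cut A x) p.2 p.1 η y y} with hSdef
  have hS : MeasurableSet S :=
    measurableSet_le measurable_const
      (Finset.measurable_fun_sum N fun y _ => Mom.meas_EV (cut A x) η y)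
  have hf : Measurable fun p : ℝ × (ι → ℝ) => ENNReal.ofReal (Pm A p.2 p.1 η x x) :=
    (Mom.meas_EV A η x).ennreal_ofReal
  rw [← lintegral_indicator hS, lintegral_prod _ (hf.indicator hS).aemeasurable]
  -- fixed energy
  have key : ∀ E : ℝ, ∫⁻ V, S.indicator (fun p : ℝ × (ι → ℝ) =>
      ENNReal.ofReal (Pm A p.2 p.1 η x x)) (E, V) ∂(Measure.pi fun _ : ι => μ) ≤
      ENNReal.ofReal (Real.pi * D) * (ENNReal.ofReal (1 / q) *
        ((N.card : ENNReal) * ENNReal.ofReal (Real.pi * D))) := by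
    intro E
    set F : (ι → ℝ) → ENNReal := fun V =>
      if q ≤ ∑ y ∈ N, Pm (cut A x) V E η y y then 1 else 0 with hFdef
    have hSE : MeasurableSet {V : ι → ℝ | q ≤ ∑ y ∈ N, Pm (cut A x) V E η y y} :=
      measurableSet_le measurable_const
        (Finset.measurable_fun_sum N fun y _ => Mom.meas_V (cut A x) E η y)
    have hF : Measurable F := Measurable.ite hSE measurable_const measurable_const
    have hind : ∀ V t, F (Function.update V x t) = F V := by
      intro V t
      have h1 : ∑ y ∈ N, Pm (cut A x) (Function.update V x t) E η y y =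
          ∑ y ∈ N, Pm (cut A x) V E η y y := by
        refine Finset.sum_congr rfl fun y hy => ?_
        have hyx : y ≠ x := fun h => hxN (h ▸ hy)
        unfold Pm
        rw [Gm_cut_update A hA V t E hη x y y hyx]
      simp only [hFdef, h1]
    have h2 : ∀ V, S.indicator (fun p : ℝ × (ι → ℝ) =>
        ENNReal.ofReal (Pm A p.2 p.1 η x x)) (E, V) =
        F V * ENNReal.ofReal (Pm A V E η x x) := by
      intro V
      by_cases hc : q ≤ ∑ y ∈ N, Pm (cut A x) V E η y y
      · rw [Set.indicator_of_mem (show (E, V) ∈ S from hc)]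
        simp only [hFdef, if_pos hc, one_mul]
      · rw [Set.indicator_of_notMem (show (E, V) ∉ S from hc)]
        simp only [hFdef, if_neg hc, zero_mul]
    simp only [h2]
    refine (wegner_weight μ hD hμ A hA hd E hη x F hF hind).trans ?_
    refine mul_le_mul_right ?_ _
    calc ∫⁻ V, F V ∂(Measure.pi fun _ : ι => μ)
        ≤ ∫⁻ V, ENNReal.ofReal (1 / q) * ∑ y ∈ N, ENNReal.ofReal (Pm (cut A x) V E η y y)
          ∂(Measure.pi fun _ : ι => μ) := by
          apply lintegral_mono
          intro V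
          by_cases hc : q ≤ ∑ y ∈ N, Pm (cut A x) V E η y y
          · simp only [hFdef, if_pos hc]
            rw [← ENNReal.ofReal_sum_of_nonneg fun y _ =>
              (Pm_diag_pos (cut A x) hcs V E hη y).le, ← ENNReal.ofReal_mul (by positivity),
              ENNReal.one_le_ofReal, one_div, inv_mul_eq_div, le_div_iff₀ hq, one_mul]
            exact hc
          · simp only [hFdef, if_neg hc]
            exact zero_le
      _ = ENNReal.ofReal (1 / q) * ∑ y ∈ N, ∫⁻ V, ENNReal.ofReal (Pm (cut A x) V E η y y)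
          ∂(Measure.pi fun _ : ι => μ) := by
          rw [lintegral_const_mul _ (Finset.measurable_fun_sum N fun y _ =>
            (Mom.meas_V (cut A x) E η y).ennreal_ofReal),
            lintegral_finsetSum _ fun y _ => (Mom.meas_V (cut A x) E η y).ennreal_ofReal]
      _ ≤ ENNReal.ofReal (1 / q) * ∑ _y ∈ N, ENNReal.ofReal (Real.pi * D) := by
          refine mul_le_mul_right (Finset.sum_le_sum fun y _ => ?_) _
          have h3 := wegner_weight μ hD hμ (cut A x) hcs hcd E hη y (fun _ => 1)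
            measurable_const (fun _ _ => rfl)
          simp only [one_mul, lintegral_const, measure_univ, mul_one] at h3
          exact h3
      _ = ENNReal.ofReal (1 / q) * ((N.card : ENNReal) * ENNReal.ofReal (Real.pi * D)) := by
          rw [Finset.sum_const, nsmul_eq_mul]
  calc ∫⁻ E in Icc (-K) K, ∫⁻ V, S.indicator (fun p : ℝ × (ι → ℝ) =>
      ENNReal.ofReal (Pm A p.2 p.1 η x x)) (E, V) ∂(Measure.pi fun _ : ι => μ)
      ≤ ∫⁻ _E in Icc (-K) K, ENNReal.ofReal (Real.pi * D) * (ENNReal.ofReal (1 / q) *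
        ((N.card : ENNReal) * ENNReal.ofReal (Real.pi * D))) := lintegral_mono key
    _ = ENNReal.ofReal (2 * K * (Real.pi * D) ^ 2 * N.card / q) := by
        rw [setLIntegral_const, Real.volume_Icc, ← ENNReal.ofReal_natCast,
          ← ENNReal.ofReal_mul (by positivity), ← ENNReal.ofReal_mul (by positivity),
          ← ENNReal.ofReal_mul (by positivity), ← ENNReal.ofReal_mul (by positivity)]
        congr 1
        ring

end finite

end H10PL
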