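import Pool.Agent.H10R2.PL.Defs

/-! Task SIGN: variance of a quadratic form in random signs. -/

set_option autoImplicit false
set_option linter.unusedSectionVars false

namespace H10PL

open MeasureTheory ProbabilityTheory Matrix Set

variable {ι : Type*} [Fintype ι] [DecidableEq ι]

theorem sg_mul_self (b : Bool) : sg b * sg b = 1 := by
  cases b <;> simp [sg]

theorem sg_not (b : Bool) : sg (!b) = - sg b := by
  cases b <;> simp [sg]

theorem sign_flip (m : ι) (F : (ι → Bool) → ℝ) :
    ∑ ε : ι → Bool, F (Function.update ε m (!(ε m))) = ∑ ε : ι → Bool, F ε := by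
  have hinv : Function.Involutive (fun ε : ι → Bool => Function.update ε m (!(ε m))) := by
    intro ε
    funext i
    by_cases h : i = m
    · subst h; simp
    · simp [h]
  exact Equiv.sum_comp (Function.Involutive.toPerm _ hinv) F

theorem sign_flip_zero (m : ι) (F : (ι → Bool) → ℝ)
    (h : ∀ ε, F (Function.update ε m (!(ε m))) = - F ε) : ∑ ε : ι → Bool, F ε = 0 := by
  have h1 := sign_flip m F
  simp only [h, Finset.sum_neg_distrib] at h1
  linarith

theorem sign_two (i j : ι) : ∑ ε : ι → Bool, sg (ε i) * sg (ε j) =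
    if i = j then 2 ^ (Fintype.card ι) else 0 := by
  by_cases h : i = j
  · subst h
    simp only [sg_mul_self, if_true]
    simp
  · rw [if_neg h]
    apply sign_flip_zero i
    intro ε
    rw [Function.update_self, Function.update_of_ne (Ne.symm h), sg_not]
    ring

theorem sign_four {i j : ι} (hij : i ≠ j) {k l : ι} (hkl : k ≠ l) :
    ∑ ε : ι → Bool, sg (ε i) * sg (ε j) * (sg (ε k) * sg (ε l)) =
    (if k = i ∧ l = j then 2 ^ (Fintype.card ι) else 0) +
      (if k = j ∧ l = i then 2 ^ (Fintype.card ι) else 0) := by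
  by_cases hki : k = i
  · subst hki
    have e : ∀ ε : ι → Bool, sg (ε k) * sg (ε j) * (sg (ε k) * sg (ε l)) =
        sg (ε j) * sg (ε l) := by
      intro ε
      calc sg (ε k) * sg (ε j) * (sg (ε k) * sg (ε l)) =
          (sg (ε k) * sg (ε k)) * (sg (ε j) * sg (ε l)) := by ring
        _ = _ := by rw [sg_mul_self, one_mul]
    simp only [e, sign_two]
    by_cases hjl : j = l
    · subst hjl; simp [hij]
    · simp [hjl, Ne.symm hjl, hij]
  · by_cases hkj : k = j
    · subst hkj
      have e : ∀ ε : ι → Bool, sg (ε i) * sg (ε k) * (sg (ε k) * sg (ε l)) =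
          sg (ε i) * sg (ε l) := by
        intro ε
        calc sg (ε i) * sg (ε k) * (sg (ε k) * sg (ε l)) =
            (sg (ε k) * sg (ε k)) * (sg (ε i) * sg (ε l)) := by ring
          _ = _ := by rw [sg_mul_self, one_mul]
      simp only [e, sign_two]
      by_cases hil : i = l
      · subst hil; simp [hki]
      · simp [hil, Ne.symm hil, hki]
    · rw [if_neg (fun h => hki h.1), if_neg (fun h => hkj h.1), add_zero]
      apply sign_flip_zero k
      intro ε
      rw [Function.update_self, Function.update_of_ne (Ne.symm hki),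
        Function.update_of_ne (Ne.symm hkj), Function.update_of_ne (Ne.symm hkl), sg_not]
      ring

theorem sign_lin (a : ι → ℝ) : ∑ ε : ι → Bool, (∑ i, a i * sg (ε i)) ^ 2 =
    2 ^ (Fintype.card ι) * ∑ i, a i ^ 2 := by
  have h1 : ∀ ε : ι → Bool, (∑ i, a i * sg (ε i)) ^ 2 =
      ∑ i, ∑ j, (a i * a j) * (sg (ε i) * sg (ε j)) := by
    intro ε
    rw [sq, Finset.sum_mul_sum]
    apply Finset.sum_congr rfl
    intro i _
    apply Finset.sum_congr rfl
    intro j _
    ring
  simp only [h1]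
  rw [Finset.sum_comm, Finset.mul_sum]
  apply Finset.sum_congr rfl
  intro i _
  rw [Finset.sum_comm]
  simp only [← Finset.mul_sum, sign_two, mul_ite, mul_zero, Finset.sum_ite_eq, Finset.mem_univ,
    if_true]
  ring

theorem sign_quad (b : ι → ι → ℝ) (hb : ∀ i, b i i = 0) (hs : ∀ i j, b i j = b j i) :
    ∑ ε : ι → Bool, (∑ i, ∑ j, b i j * (sg (ε i) * sg (ε j))) ^ 2 =
    2 ^ (Fintype.card ι) * (2 * ∑ i, ∑ j, b i j ^ 2) := by
  have h1 : ∀ ε : ι → Bool, (∑ i, ∑ j, b i j * (sg (ε i) * sg (ε j))) ^ 2 =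
      ∑ i, ∑ j, ∑ k, ∑ l, (b i j * b k l) * (sg (ε i) * sg (ε j) * (sg (ε k) * sg (ε l))) := by
    intro ε
    rw [sq, Finset.sum_mul]
    apply Finset.sum_congr rfl
    intro i _
    rw [Finset.sum_mul]
    apply Finset.sum_congr rfl
    intro j _
    rw [Finset.mul_sum]
    apply Finset.sum_congr rfl
    intro k _
    rw [Finset.mul_sum]
    apply Finset.sum_congr rfl
    intro l _
    ring
  simp only [h1]
  rw [Finset.sum_comm]
  have hsw : ∀ i, ∑ ε : ι → Bool, ∑ j, ∑ k, ∑ l, (b i j * b k l) *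
      (sg (ε i) * sg (ε j) * (sg (ε k) * sg (ε l))) =
      ∑ j, ∑ k, ∑ l, (b i j * b k l) * ∑ ε : ι → Bool,
        (sg (ε i) * sg (ε j) * (sg (ε k) * sg (ε l))) := by
    intro i
    rw [Finset.sum_comm]
    apply Finset.sum_congr rfl
    intro j _
    rw [Finset.sum_comm]
    apply Finset.sum_congr rfl
    intro k _
    rw [Finset.sum_comm]
    apply Finset.sum_congr rfl
    intro l _
    rw [Finset.mul_sum]
  simp only [hsw]
  rw [Finset.mul_sum, Finset.mul_sum]
  apply Finset.sum_congr rfl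
  intro i _
  rw [Finset.mul_sum, Finset.mul_sum]
  apply Finset.sum_congr rfl
  intro j _
  by_cases hij : i = j
  · subst hij
    simp [hb]
  · have hterm : ∀ k l, (b i j * b k l) * ∑ ε : ι → Bool,
        (sg (ε i) * sg (ε j) * (sg (ε k) * sg (ε l))) =
        (if k = i then (if l = j then b i j * b k l * 2 ^ (Fintype.card ι) else 0) else 0) +
        (if k = j then (if l = i then b i j * b k l * 2 ^ (Fintype.card ι) else 0) else 0) := by
      intro k l
      by_cases hkl : k = l
      · subst hkl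
        simp [hb]
      · rw [sign_four hij hkl, mul_add]
        congr 1
        · by_cases h1 : k = i
          · by_cases h2 : l = j
            · simp [h1, h2]
            · simp [h2]
          · simp [h1]
        · by_cases h1 : k = j
          · by_cases h2 : l = i
            · simp [h1, h2]
            · simp [h2]
          · simp [h1]
    simp only [hterm, Finset.sum_add_distrib]
    have hA : ∑ k, ∑ l, (if k = i then (if l = j then b i j * b k l * 2 ^ (Fintype.card ι)
        else 0) else 0) = b i j * b i j * 2 ^ (Fintype.card ι) := by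
      rw [Finset.sum_eq_single i]
      · simp
      · intro k _ hk; simp [hk]
      · intro h; exact absurd (Finset.mem_univ _) h
    have hB : ∑ k, ∑ l, (if k = j then (if l = i then b i j * b k l * 2 ^ (Fintype.card ι)
        else 0) else 0) = b i j * b j i * 2 ^ (Fintype.card ι) := by
      rw [Finset.sum_eq_single j]
      · simp
      · intro k _ hk; simp [hk]
      · intro h; exact absurd (Finset.mem_univ _) h
    rw [hA, hB, hs j i]
    ring

theorem sign_cross (a : ι → ℝ) (b : ι → ι → ℝ) :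
    ∑ ε : ι → Bool, (∑ i, a i * sg (ε i)) * (∑ i, ∑ j, b i j * (sg (ε i) * sg (ε j))) = 0 := by
  have hinv : Function.Involutive (fun (ε : ι → Bool) (i : ι) => !(ε i)) := by
    intro ε; funext i; simp
  have h1 := Equiv.sum_comp (Function.Involutive.toPerm _ hinv)
    (fun ε : ι → Bool => (∑ i, a i * sg (ε i)) * (∑ i, ∑ j, b i j * (sg (ε i) * sg (ε j))))
  have h2 : ∀ ε : ι → Bool, (∑ i, a i * sg ((Function.Involutive.toPerm _ hinv ε) i)) *
      (∑ i, ∑ j, b i j * (sg ((Function.Involutive.toPerm _ hinv ε) i) *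
        sg ((Function.Involutive.toPerm _ hinv ε) j))) =
      -((∑ i, a i * sg (ε i)) * (∑ i, ∑ j, b i j * (sg (ε i) * sg (ε j)))) := by
    intro ε
    have e : ∀ i, (Function.Involutive.toPerm (fun (ε : ι → Bool) (i : ι) => !(ε i)) hinv ε) i =
      !(ε i) := fun i => rfl
    simp only [e, sg_not, mul_neg, neg_mul, neg_neg, Finset.sum_neg_distrib]
  simp only [h2, Finset.sum_neg_distrib] at h1
  linarith

theorem sign_total (a : ι → ℝ) (b : ι → ι → ℝ) (hb : ∀ i, b i i = 0) (hs : ∀ i j, b i j = b j i) :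
    ∑ ε : ι → Bool, ((∑ i, a i * sg (ε i)) + ∑ i, ∑ j, b i j * (sg (ε i) * sg (ε j))) ^ 2 =
    2 ^ (Fintype.card ι) * ((∑ i, a i ^ 2) + 2 * ∑ i, ∑ j, b i j ^ 2) := by
  have hexp : ∀ ε : ι → Bool, ((∑ i, a i * sg (ε i)) +
      ∑ i, ∑ j, b i j * (sg (ε i) * sg (ε j))) ^ 2 =
      (∑ i, a i * sg (ε i)) ^ 2 + (∑ i, ∑ j, b i j * (sg (ε i) * sg (ε j))) ^ 2 +
      2 * ((∑ i, a i * sg (ε i)) * (∑ i, ∑ j, b i j * (sg (ε i) * sg (ε j)))) := by
    intro ε; ring
  rw [Finset.sum_congr rfl (fun ε _ => hexp ε), Finset.sum_add_distrib, Finset.sum_add_distrib,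
    ← Finset.mul_sum, sign_cross, mul_zero, add_zero, sign_lin, sign_quad b hb hs, mul_add]

theorem sign_decomp (P : Matrix ι ι ℝ) (hP : P.IsSymm) (φ c : ι → ℝ) (ε : ι → Bool) :
    (∑ i, ∑ j, (φ i + sg (ε i) * c i) * P i j * (φ j + sg (ε j) * c j)) -
        ((∑ i, ∑ j, φ i * P i j * φ j) + ∑ i, c i ^ 2 * P i i) =
    (∑ i, (2 * c i * ∑ j, P i j * φ j) * sg (ε i)) +
      ∑ i, ∑ j, (if i = j then 0 else c i * c j * P i j) * (sg (ε i) * sg (ε j)) := by
  have h1 : ∑ i, ∑ j, (φ i + sg (ε i) * c i) * P i j * (φ j + sg (ε j) * c j) =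
      (∑ i, ∑ j, φ i * P i j * φ j) + (∑ i, ∑ j, φ i * P i j * (sg (ε j) * c j)) +
      (∑ i, ∑ j, sg (ε i) * c i * P i j * φ j) +
      (∑ i, ∑ j, sg (ε i) * c i * P i j * (sg (ε j) * c j)) := by
    simp only [← Finset.sum_add_distrib]
    apply Finset.sum_congr rfl
    intro i _
    apply Finset.sum_congr rfl
    intro j _
    ring
  have h2 : ∑ i, ∑ j, φ i * P i j * (sg (ε j) * c j) = ∑ i, ∑ j, sg (ε i) * c i * P i j * φ j := by
    rw [Finset.sum_comm]
    apply Finset.sum_congr rfl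
    intro i _
    apply Finset.sum_congr rfl
    intro j _
    rw [hP.apply i j]
    ring
  have h3 : ∑ i, (2 * c i * ∑ j, P i j * φ j) * sg (ε i) =
      2 * ∑ i, ∑ j, sg (ε i) * c i * P i j * φ j := by
    rw [Finset.mul_sum]
    apply Finset.sum_congr rfl
    intro i _
    rw [Finset.mul_sum, Finset.mul_sum, Finset.sum_mul]
    apply Finset.sum_congr rfl
    intro j _
    ring
  have h4 : ∑ i, ∑ j, sg (ε i) * c i * P i j * (sg (ε j) * c j) =
      (∑ i, ∑ j, (if i = j then 0 else c i * c j * P i j) * (sg (ε i) * sg (ε j))) +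
      ∑ i, c i ^ 2 * P i i := by
    rw [← Finset.sum_add_distrib]
    apply Finset.sum_congr rfl
    intro i _
    have h5 : c i ^ 2 * P i i = ∑ j, if i = j then c i ^ 2 * P i i else 0 := by simp
    rw [h5, ← Finset.sum_add_distrib]
    apply Finset.sum_congr rfl
    intro j _
    by_cases hij : i = j
    · subst hij
      simp only [if_true, zero_mul, zero_add]
      calc sg (ε i) * c i * P i i * (sg (ε i) * c i) =
          (sg (ε i) * sg (ε i)) * (c i ^ 2 * P i i) := by ring
        _ = _ := by rw [sg_mul_self, one_mul]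
    · simp only [hij, if_false, add_zero]
      ring
  rw [h1, h2, h3, h4]
  ring

theorem sign_var (P : Matrix ι ι ℝ) (hP : P.IsSymm) {η : ℝ} (hη : 0 < η)
    (hP2 : ∀ φ : ι → ℝ, ∑ i, (∑ j, P i j * φ j) ^ 2 ≤ (1 / η) * ∑ i, ∑ j, φ i * P i j * φ j)
    (φ c : ι → ℝ) (β : ℝ) (hc : ∀ i, |c i| ≤ β) :
    ∑ ε : ι → Bool, ((∑ i, ∑ j, (φ i + sg (ε i) * c i) * P i j * (φ j + sg (ε j) * c j)) -
        ((∑ i, ∑ j, φ i * P i j * φ j) + ∑ i, c i ^ 2 * P i i)) ^ 2 ≤
      2 ^ (Fintype.card ι) * ((4 * β ^ 2 / η) *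
        ((∑ i, ∑ j, φ i * P i j * φ j) + ∑ i, c i ^ 2 * P i i)) := by
  have hc2 : ∀ i, c i ^ 2 ≤ β ^ 2 := by
    intro i
    rw [← sq_abs (c i)]
    exact pow_le_pow_left₀ (abs_nonneg _) (hc i) 2
  have hcongr : ∀ ε : ι → Bool,
      ((∑ i, ∑ j, (φ i + sg (ε i) * c i) * P i j * (φ j + sg (ε j) * c j)) -
        ((∑ i, ∑ j, φ i * P i j * φ j) + ∑ i, c i ^ 2 * P i i)) ^ 2 =
      ((∑ i, (2 * c i * ∑ j, P i j * φ j) * sg (ε i)) +
      ∑ i, ∑ j, (if i = j then 0 else c i * c j * P i j) * (sg (ε i) * sg (ε j))) ^ 2 := by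
    intro ε
    rw [sign_decomp P hP φ c ε]
  rw [Finset.sum_congr rfl (fun ε _ => hcongr ε)]
  have key := sign_total (fun i => 2 * c i * ∑ j, P i j * φ j)
    (fun i j => if i = j then 0 else c i * c j * P i j) (fun i => by simp) (fun i j => by
      by_cases hij : i = j
      · simp [hij]
      · simp only [if_neg hij, if_neg (Ne.symm hij)]
        rw [hP.apply i j]; ring)
  refine (le_of_eq key).trans ?_
  apply mul_le_mul_of_nonneg_left _ (by positivity)
  rw [mul_add]
  apply add_le_add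
  · calc ∑ i, (2 * c i * ∑ j, P i j * φ j) ^ 2 = ∑ i, 4 * c i ^ 2 * (∑ j, P i j * φ j) ^ 2 := by
          apply Finset.sum_congr rfl
          intro i _
          ring
      _ ≤ ∑ i, 4 * β ^ 2 * (∑ j, P i j * φ j) ^ 2 := by
          apply Finset.sum_le_sum
          intro i _
          apply mul_le_mul_of_nonneg_right _ (sq_nonneg _)
          linarith [hc2 i]
      _ = 4 * β ^ 2 * ∑ i, (∑ j, P i j * φ j) ^ 2 := by rw [Finset.mul_sum]
      _ ≤ 4 * β ^ 2 * ((1 / η) * ∑ i, ∑ j, φ i * P i j * φ j) :=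
          mul_le_mul_of_nonneg_left (hP2 φ) (by positivity)
      _ = 4 * β ^ 2 / η * ∑ i, ∑ j, φ i * P i j * φ j := by ring
  · have hcol : ∀ i, ∑ j, P i j ^ 2 ≤ P i i / η := by
      intro i
      have h1 := hP2 (Pi.single i 1)
      have e1 : ∀ k, ∑ j, P k j * (Pi.single i (1 : ℝ) : ι → ℝ) j = P k i := by
        intro k
        rw [Finset.sum_eq_single i]
        · simp
        · intro j _ hj; rw [Pi.single_eq_of_ne hj, mul_zero]
        · intro h; exact absurd (Finset.mem_univ _) h
      have e2 : ∑ k, ∑ j, (Pi.single i (1 : ℝ) : ι → ℝ) k * P k j *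
          (Pi.single i (1 : ℝ) : ι → ℝ) j = P i i := by
        rw [Finset.sum_eq_single i]
        · rw [Finset.sum_eq_single i]
          · simp
          · intro j _ hj; rw [Pi.single_eq_of_ne hj, mul_zero]
          · intro h; exact absurd (Finset.mem_univ _) h
        · intro k _ hk
          apply Finset.sum_eq_zero
          intro j _
          rw [Pi.single_eq_of_ne hk, zero_mul, zero_mul]
        · intro h; exact absurd (Finset.mem_univ _) h
      rw [e2] at h1
      simp only [e1] at h1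
      have e3 : ∑ k, P k i ^ 2 = ∑ j, P i j ^ 2 := by
        apply Finset.sum_congr rfl
        intro k _
        rw [hP.apply i k]
      rw [e3] at h1
      calc ∑ j, P i j ^ 2 ≤ 1 / η * P i i := h1
        _ = P i i / η := by ring
    have hPii : ∀ i, 0 ≤ P i i := by
      intro i
      have h1 : 0 ≤ P i i / η := le_trans (Finset.sum_nonneg (fun j _ => sq_nonneg _)) (hcol i)
      by_contra hcon
      have := div_neg_of_neg_of_pos (not_le.1 hcon) hη
      linarith
    calc 2 * ∑ i, ∑ j, (if i = j then 0 else c i * c j * P i j) ^ 2 ≤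
          2 * ∑ i, ∑ j, c i ^ 2 * β ^ 2 * P i j ^ 2 := by
          apply mul_le_mul_of_nonneg_left _ (by norm_num)
          apply Finset.sum_le_sum
          intro i _
          apply Finset.sum_le_sum
          intro j _
          by_cases hij : i = j
          · rw [if_pos hij, zero_pow two_ne_zero]
            exact mul_nonneg (mul_nonneg (sq_nonneg _) (sq_nonneg _)) (sq_nonneg _)
          · rw [if_neg hij, mul_pow, mul_pow]
            apply mul_le_mul_of_nonneg_right _ (sq_nonneg _)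
            exact mul_le_mul_of_nonneg_left (hc2 j) (sq_nonneg _)
      _ = 2 * β ^ 2 * ∑ i, c i ^ 2 * ∑ j, P i j ^ 2 := by
          rw [Finset.mul_sum, Finset.mul_sum]
          apply Finset.sum_congr rfl
          intro i _
          rw [Finset.mul_sum, Finset.mul_sum, Finset.mul_sum]
          apply Finset.sum_congr rfl
          intro j _
          ring
      _ ≤ 2 * β ^ 2 * ∑ i, c i ^ 2 * (P i i / η) := by
          apply mul_le_mul_of_nonneg_left _ (by positivity)
          apply Finset.sum_le_sum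
          intro i _
          exact mul_le_mul_of_nonneg_left (hcol i) (sq_nonneg _)
      _ = 2 * β ^ 2 / η * ∑ i, c i ^ 2 * P i i := by
          rw [Finset.mul_sum, Finset.mul_sum]
          apply Finset.sum_congr rfl
          intro i _
          ring
      _ ≤ 4 * β ^ 2 / η * ∑ i, c i ^ 2 * P i i := by
          apply mul_le_mul_of_nonneg_right
          · apply div_le_div_of_nonneg_right _ hη.le
            nlinarith [sq_nonneg β]
          · exact Finset.sum_nonneg (fun i _ => mul_nonneg (sq_nonneg _) (hPii i))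

theorem sign_count (P : Matrix ι ι ℝ) (hP : P.IsSymm) {η : ℝ} (hη : 0 < η)
    (hP2 : ∀ φ : ι → ℝ, ∑ i, (∑ j, P i j * φ j) ^ 2 ≤ (1 / η) * ∑ i, ∑ j, φ i * P i j * φ j)
    (φ c : ι → ℝ) (β : ℝ) (hc : ∀ i, |c i| ≤ β) (m : ℝ) (hm : 0 < m)
    (hm2 : m ≤ ∑ i, c i ^ 2 * P i i) :
    ((Finset.univ.filter fun ε : ι → Bool =>
        ∑ i, ∑ j, (φ i + sg (ε i) * c i) * P i j * (φ j + sg (ε j) * c j) < m / 2).card : ℝ) ≤
      2 ^ (Fintype.card ι) * (16 * β ^ 2 / (η * m)) := by
  have hvar := sign_var P hP hη hP2 φ c β hc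
  have hφ : 0 ≤ ∑ i, ∑ j, φ i * P i j * φ j := by
    have h1 : 0 ≤ (1 / η) * ∑ i, ∑ j, φ i * P i j * φ j :=
      le_trans (Finset.sum_nonneg (fun i _ => sq_nonneg _)) (hP2 φ)
    have h2 : 0 ≤ η * ((1 / η) * ∑ i, ∑ j, φ i * P i j * φ j) := mul_nonneg hη.le h1
    have h3 : η * ((1 / η) * ∑ i, ∑ j, φ i * P i j * φ j) = ∑ i, ∑ j, φ i * P i j * φ j := by
      field_simp
    rwa [h3] at h2
  set m0 := (∑ i, ∑ j, φ i * P i j * φ j) + ∑ i, c i ^ 2 * P i i with hm0
  have hmm : m ≤ m0 := by rw [hm0]; linarith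
  have hm0pos : 0 < m0 := lt_of_lt_of_le hm hmm
  set Q : (ι → Bool) → ℝ := fun ε =>
    ∑ i, ∑ j, (φ i + sg (ε i) * c i) * P i j * (φ j + sg (ε j) * c j) with hQ
  have h1 : ((Finset.univ.filter fun ε : ι → Bool => Q ε < m / 2).card : ℝ) * (m0 ^ 2 / 4) ≤
      ∑ ε : ι → Bool, (Q ε - m0) ^ 2 := by
    rw [← nsmul_eq_mul, ← Finset.sum_const]
    refine le_trans ?_ (Finset.sum_le_sum_of_subset_of_nonneg
      (Finset.filter_subset (fun ε : ι → Bool => Q ε < m / 2) Finset.univ)
      (fun ε _ _ => sq_nonneg _))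
    apply Finset.sum_le_sum
    intro ε hε
    have h2 : Q ε < m / 2 := (Finset.mem_filter.1 hε).2
    nlinarith
  have h2 : ((Finset.univ.filter fun ε : ι → Bool => Q ε < m / 2).card : ℝ) * (m0 ^ 2 / 4) ≤
      2 ^ (Fintype.card ι) * ((4 * β ^ 2 / η) * m0) := h1.trans hvar
  have h3 : ((Finset.univ.filter fun ε : ι → Bool => Q ε < m / 2).card : ℝ) ≤
      2 ^ (Fintype.card ι) * (16 * β ^ 2 / (η * m0)) := by
    have h4 : (2 : ℝ) ^ (Fintype.card ι) * (16 * β ^ 2 / (η * m0)) =
        2 ^ (Fintype.card ι) * ((4 * β ^ 2 / η) * m0) / (m0 ^ 2 / 4) := by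
      field_simp
      ring
    rw [h4, le_div_iff₀ (by positivity)]
    exact h2
  refine h3.trans ?_
  apply mul_le_mul_of_nonneg_left _ (by positivity)
  apply div_le_div_of_nonneg_left (by positivity) (by positivity)
  exact mul_le_mul_of_nonneg_left hmm hη.le

end H10PL
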