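import Pool.Agent.H10R2.PL.Defs
import Pool.Agent.H10R2.PL.Res
import Pool.Agent.H10R2.PL.Schur
import Pool.Agent.H10R2.PL.Tail
import Pool.Agent.H10R2.PL.Mom
import Pool.Agent.H10R2.PL.Sign

/-!
Combination in finite volume (task FV of helper10's power-law Anderson project).
-/

namespace H10PL

open MeasureTheory ProbabilityTheory Matrix Set

variable {ι : Type*} [Fintype ι] [DecidableEq ι]

set_option linter.unusedSectionVars false

theorem fv_Aeps_symm (Ab : Matrix ι ι ℝ) (hA : Ab.IsSymm) (x : ι) (c : ι → ℝ) (ε : ι → Bool) :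
    (Aeps Ab x c ε).IsSymm := by
  apply Matrix.IsSymm.ext
  intro i j
  have h := hA.apply i j
  simp only [Aeps]
  rw [h]
  ring

theorem fv_Aeps_diag (Ab : Matrix ι ι ℝ) (hd : ∀ i, Ab i i = 0) (x : ι) (c : ι → ℝ)
    (hcx : c x = 0) (ε : ι → Bool) (i : ι) : Aeps Ab x c ε i i = 0 := by
  simp only [Aeps, hd]
  by_cases h : i = x
  · subst h; simp [hcx]
  · simp [h]

theorem fv_Aeps_row (Ab : Matrix ι ι ℝ) (x : ι) (c : ι → ℝ)
    (hcx : c x = 0) (ε : ι → Bool) (j : ι) : Aeps Ab x c ε x j = Ab x j + sg (ε j) * c j := by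
  simp only [Aeps, hcx]
  simp

theorem fv_cut_Aeps (Ab : Matrix ι ι ℝ) (x : ι) (c : ι → ℝ) (ε : ι → Bool) :
    cut (Aeps Ab x c ε) x = cut Ab x := by
  funext i j
  simp only [cut, Aeps]
  by_cases h : i = x
  · simp [h]
  · by_cases h' : j = x
    · simp [h']
    · simp [h, h']

/-- pointwise part: a good configuration has a large diagonal entry. -/
theorem fv_point (Ab : Matrix ι ι ℝ) (hA : Ab.IsSymm)
    (hd : ∀ i, Ab i i = 0) (x : ι) (V : ι → ℝ) (E : ℝ) {W W2 η X : ℝ} (hη : 0 < η)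
    (hW : 0 < W) (hX : 0 < X) (hV : |V x| ≤ W2)
    (h8 : ‖(E : ℂ) + (η : ℂ) * Complex.I + Sg Ab V E η x‖ < 8 * W)
    (him : X / 2 ≤ (Sg Ab V E η x).im) :
    X / (2 * (W2 + 8 * W) ^ 2) ≤ Pm Ab V E η x x := by
  have hW2 : 0 ≤ W2 := (abs_nonneg _).trans hV
  unfold Pm
  rw [schur_diag Ab hA hd V E hη x]
  set ζ : ℂ := (E : ℂ) + (η : ℂ) * Complex.I + Sg Ab V E η x with hζ
  have himζ : ζ.im = η + (Sg Ab V E η x).im := by simp [hζ]
  have hζpos : X / 2 ≤ ζ.im := by rw [himζ]; linarith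
  rw [Complex.inv_im]
  have h1 : -((V x : ℂ) - ζ).im = ζ.im := by simp
  rw [h1]
  have hpos : 0 < Complex.normSq ((V x : ℂ) - ζ) := by
    rw [Complex.normSq_pos]
    intro h0
    have := congrArg Complex.im h0
    simp at this
    linarith
  have hle : Complex.normSq ((V x : ℂ) - ζ) ≤ (W2 + 8 * W) ^ 2 := by
    rw [Complex.normSq_eq_norm_sq]
    apply pow_le_pow_left₀ (norm_nonneg _)
    calc ‖(V x : ℂ) - ζ‖ ≤ ‖(V x : ℂ)‖ + ‖ζ‖ := norm_sub_le _ _
      _ ≤ W2 + 8 * W := by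
        apply add_le_add
        · rw [Complex.norm_real]; exact hV
        · exact h8.le
  have hpos2 : 0 < (W2 + 8 * W) ^ 2 := by positivity
  calc X / (2 * (W2 + 8 * W) ^ 2) = (X / 2) / (W2 + 8 * W) ^ 2 := by
        field_simp
    _ ≤ ζ.im / (W2 + 8 * W) ^ 2 := by gcongr
    _ ≤ ζ.im / Complex.normSq ((V x : ℂ) - ζ) := by
        apply div_le_div_of_nonneg_left _ hpos hle
        linarith

theorem measurable_Sg (A : Matrix ι ι ℝ) (η : ℝ) (x : ι) :
    Measurable fun p : ℝ × (ι → ℝ) => Sg A p.2 p.1 η x := by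
  unfold Sg
  refine Finset.measurable_sum _ fun i _ => Finset.measurable_sum _ fun j _ => ?_
  refine (measurable_const.mul ?_).mul measurable_const
  exact measurable_Gm (fun _ => cut A x) (fun _ _ => measurable_const)
    (fun p : ℝ × (ι → ℝ) => p.2) (fun i => (measurable_pi_apply i).comp measurable_snd)
    (fun p => p.1) measurable_fst η i j

theorem measurable_Pm' (A : Matrix ι ι ℝ) (η : ℝ) (i j : ι) :
    Measurable fun p : ℝ × (ι → ℝ) => Pm A p.2 p.1 η i j :=
  measurable_Pm (fun _ => A) (fun _ _ => measurable_const)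
    (fun p : ℝ × (ι → ℝ) => p.2) (fun i => (measurable_pi_apply i).comp measurable_snd)
    (fun p => p.1) measurable_fst η i j

theorem fv_bound (v : NNReal) (hv : v ≠ 0) (Ab : Matrix ι ι ℝ) (hA : Ab.IsSymm)
    (hd : ∀ i, Ab i i = 0) (x : ι) (c : ι → ℝ) (S : Finset ι) (hS : S.Nonempty) (hxS : x ∉ S)
    (hcS : ∀ i, i ∉ S → c i = 0) {β B : ℝ} (hβ : 0 < β) (h1 : ∀ i ∈ S, β ≤ |c i|)
    (h2 : ∀ i ∈ S, |c i| ≤ B * β) {a K W W2 η : ℝ}
    (hrow : ∀ (ε : ι → Bool) i, ∑ j, (Aeps Ab x c ε i j) ^ 2 ≤ a) (hK : 0 < K)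
    (hW : 2 * (K + 1) ≤ W) (hη : 0 < η) (hη1 : η ≤ 1) (hW2 : 0 ≤ W2) :
    ∑ ε : ι → Bool,
      ((volume.restrict (Icc (-K) K)).prod (Measure.pi fun _ : ι => gaussianReal 0 v))
      {p : ℝ × (ι → ℝ) | |p.2 x| ≤ W2 ∧ Pm (Aeps Ab x c ε) p.2 p.1 η x x <
        β ^ 2 * (gaussianPDFReal 0 v W * Real.pi * S.card / 2) / (2 * (W2 + 8 * W) ^ 2)} ≤
      2 ^ (Fintype.card ι) * ENNReal.ofReal (9 * Ck K a / W +
        (16 + 64 * B ^ 2) * K / (gaussianPDFReal 0 v W * Real.pi * S.card * η)) := by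
  classical
  set μ : Measure (ℝ × (ι → ℝ)) :=
    (volume.restrict (Icc (-K) K)).prod (Measure.pi fun _ : ι => gaussianReal 0 v) with hμ
  set X0 : ℝ := gaussianPDFReal 0 v W * Real.pi * S.card / 2 with hX0
  have hcx : c x = 0 := hcS x hxS
  have hW0 : 0 < W := by linarith
  have hcard : 0 < (S.card : ℝ) := by exact_mod_cast hS.card_pos
  have hg : 0 < gaussianPDFReal 0 v W := gaussianPDFReal_pos 0 v W hv
  have hpi : 0 < Real.pi := Real.pi_pos
  have hX0pos : 0 < X0 := by positivity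
  obtain ⟨i0, hi0⟩ := hS
  have hB : 0 < B := by
    have h3 := (h1 i0 hi0).trans (h2 i0 hi0)
    by_contra hcon
    push Not at hcon
    nlinarith
  have ha : 0 ≤ a := le_trans (Finset.sum_nonneg fun j _ => sq_nonneg _)
    (hrow (fun _ => true) x)
  have hCk : 0 ≤ Ck K a := by unfold Ck; positivity
  -- the matrix with `x` decoupled
  set C : Matrix ι ι ℝ := cut Ab x with hC
  have hCs : C.IsSymm := cut_symm Ab hA x
  have hCd : ∀ i, C i i = 0 := fun i => cut_diag Ab hd x i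
  have hCrow : ∀ i, ∑ j, (C i j) ^ 2 ≤ a := by
    intro i
    have h3 := cut_row (Aeps Ab x c (fun _ => true)) x i
    rw [fv_cut_Aeps] at h3
    exact h3.trans (hrow _ i)
  -- the three bad events
  set B1 : Set (ℝ × (ι → ℝ)) := {p | ∑ y ∈ S, Pm C p.2 p.1 η y y < X0} with hB1
  set Q : (ι → Bool) → (ℝ × (ι → ℝ)) → ℝ := fun ε p =>
    ∑ i, ∑ j, (Ab x i + sg (ε i) * c i) * Pm C p.2 p.1 η i j * (Ab x j + sg (ε j) * c j) with hQ
  set B2 : (ι → Bool) → Set (ℝ × (ι → ℝ)) := fun ε =>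
    {p | X0 ≤ ∑ y ∈ S, Pm C p.2 p.1 η y y ∧ Q ε p < β ^ 2 * X0 / 2} with hB2
  set B3 : (ι → Bool) → Set (ℝ × (ι → ℝ)) := fun ε =>
    {p | 8 * W ≤ ‖(p.1 : ℂ) + (η : ℂ) * Complex.I + Sg (Aeps Ab x c ε) p.2 p.1 η x‖} with hB3
  have hSgQ : ∀ ε (p : ℝ × (ι → ℝ)), (Sg (Aeps Ab x c ε) p.2 p.1 η x).im = Q ε p := by
    intro ε p
    rw [Sg_im, fv_cut_Aeps]
    simp only [hQ, fv_Aeps_row Ab x c hcx ε]
    rfl
  -- containment
  have hsub : ∀ ε, {p : ℝ × (ι → ℝ) | |p.2 x| ≤ W2 ∧ Pm (Aeps Ab x c ε) p.2 p.1 η x x <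
        β ^ 2 * X0 / (2 * (W2 + 8 * W) ^ 2)} ⊆ B1 ∪ B2 ε ∪ B3 ε := by
    intro ε p hp
    obtain ⟨hp1, hp2⟩ := hp
    by_contra hcon
    simp only [mem_union, not_or] at hcon
    obtain ⟨⟨hn1, hn2⟩, hn3⟩ := hcon
    simp only [hB1, mem_setOf_eq, not_lt] at hn1
    simp only [hB2, mem_setOf_eq, not_and, not_lt] at hn2
    simp only [hB3, mem_setOf_eq, not_le] at hn3
    have hn2' := hn2 hn1
    have := fv_point (Aeps Ab x c ε) (fv_Aeps_symm Ab hA x c ε) (fv_Aeps_diag Ab hd x c hcx ε)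
      x p.2 p.1 (W := W) (W2 := W2) (X := β ^ 2 * X0) hη hW0 (by positivity) hp1 hn3
      (by rw [hSgQ]; exact hn2')
    linarith
  -- bound for B1
  have hb1 : μ B1 ≤ ENNReal.ofReal (8 * Ck K a / (Real.pi * W) +
        16 * K / (gaussianPDFReal 0 v W * Real.pi * S.card * η)) :=
    moment_bound v hv C hCs hCd hCrow hK hW hη hη1 S ⟨i0, hi0⟩
  -- measurability
  have hmP : ∀ i j, Measurable fun p : ℝ × (ι → ℝ) => Pm C p.2 p.1 η i j :=
    fun i j => measurable_Pm' C η i j
  have hmQ : ∀ ε, Measurable (Q ε) := by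
    intro ε
    refine Finset.measurable_sum _ fun i _ => Finset.measurable_sum _ fun j _ => ?_
    exact (measurable_const.mul (hmP i j)).mul measurable_const
  have hmB2 : ∀ ε, MeasurableSet (B2 ε) := by
    intro ε
    apply MeasurableSet.inter
    · exact measurableSet_le measurable_const (Finset.measurable_sum _ fun y _ => hmP y y)
    · exact measurableSet_lt (hmQ ε) measurable_const
  have hmB3 : ∀ ε, MeasurableSet (B3 ε) := by
    intro ε
    refine measurableSet_le measurable_const ?_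
    apply Measurable.norm
    apply Measurable.add _ (measurable_Sg (Aeps Ab x c ε) η x)
    exact (Complex.measurable_ofReal.comp measurable_fst).add measurable_const
  -- bound for B3
  have hb3 : ∀ ε, μ (B3 ε) ≤ ENNReal.ofReal (Ck K a / W) := by
    intro ε
    rw [hμ, Measure.prod_apply_symm (hmB3 ε)]
    have : ∀ V : ι → ℝ, (volume.restrict (Icc (-K) K)) ((fun E => (E, V)) ⁻¹' B3 ε) ≤
        ENNReal.ofReal (Ck K a / W) := by
      intro V
      rw [Measure.restrict_apply]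
      · refine le_trans (measure_mono ?_) (tight (Aeps Ab x c ε) (fv_Aeps_symm Ab hA x c ε)
          (fv_Aeps_diag Ab hd x c hcx ε) V x (hrow ε x) hK hW hη hη1)
        rintro E ⟨hE1, hE2⟩
        exact ⟨hE2, hE1⟩
      · exact measurable_prodMk_right (hmB3 ε)
    calc ∫⁻ V, (volume.restrict (Icc (-K) K)) ((fun E => (E, V)) ⁻¹' B3 ε)
          ∂(Measure.pi fun _ : ι => gaussianReal 0 v) ≤
        ∫⁻ _V, ENNReal.ofReal (Ck K a / W) ∂(Measure.pi fun _ : ι => gaussianReal 0 v) :=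
          lintegral_mono this
      _ = ENNReal.ofReal (Ck K a / W) := by simp
  -- bound for B2
  have hμuniv : μ univ = ENNReal.ofReal (2 * K) := by
    rw [hμ, ← univ_prod_univ, Measure.prod_prod]
    simp only [measure_univ, mul_one, Measure.restrict_apply MeasurableSet.univ, univ_inter,
      Real.volume_Icc]
    congr 1
    ring
  have hcnt : ∀ p : ℝ × (ι → ℝ), ∑ ε : ι → Bool, (B2 ε).indicator (1 : ℝ × (ι → ℝ) → ENNReal) p ≤
      2 ^ (Fintype.card ι) * ENNReal.ofReal (16 * (B * β) ^ 2 / (η * (β ^ 2 * X0))) := by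
    intro p
    by_cases hp : X0 ≤ ∑ y ∈ S, Pm C p.2 p.1 η y y
    · have hPs : Matrix.IsSymm (Pm C p.2 p.1 η) := by
        apply Matrix.IsSymm.ext
        intro i j
        unfold Pm
        rw [Gm_symm C hCs]
      have hm2 : β ^ 2 * X0 ≤ ∑ i, c i ^ 2 * Pm C p.2 p.1 η i i := by
        calc β ^ 2 * X0 ≤ β ^ 2 * ∑ y ∈ S, Pm C p.2 p.1 η y y := by gcongr
          _ = ∑ y ∈ S, β ^ 2 * Pm C p.2 p.1 η y y := by rw [Finset.mul_sum]
          _ ≤ ∑ y ∈ S, c y ^ 2 * Pm C p.2 p.1 η y y := by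
            apply Finset.sum_le_sum
            intro y hy
            apply mul_le_mul_of_nonneg_right _ (Pm_diag_pos C hCs _ _ hη y).le
            rw [← sq_abs (c y)]
            exact pow_le_pow_left₀ hβ.le (h1 y hy) 2
          _ ≤ ∑ y, c y ^ 2 * Pm C p.2 p.1 η y y := by
            apply Finset.sum_le_sum_of_subset_of_nonneg (Finset.subset_univ S)
            intro y _ _
            exact mul_nonneg (sq_nonneg _) (Pm_diag_pos C hCs _ _ hη y).le
      have hsc := sign_count (Pm C p.2 p.1 η) hPs hη (fun φ => Pm_sq_quad C hCs p.2 p.1 hη φ)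
        (fun i => Ab x i) c (B * β) (by
          intro i
          by_cases hi : i ∈ S
          · exact h2 i hi
          · rw [hcS i hi]; simp; positivity) (β ^ 2 * X0) (by positivity) hm2
      have hsum : ∑ ε : ι → Bool, (B2 ε).indicator (1 : ℝ × (ι → ℝ) → ENNReal) p =
          ((Finset.univ.filter fun ε : ι → Bool =>
            ∑ i, ∑ j, (Ab x i + sg (ε i) * c i) * Pm C p.2 p.1 η i j *
              (Ab x j + sg (ε j) * c j) < β ^ 2 * X0 / 2).card : ENNReal) := by
        rw [Finset.card_filter, Nat.cast_sum]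
        apply Finset.sum_congr rfl
        intro ε _
        by_cases hε : Q ε p < β ^ 2 * X0 / 2
        · rw [indicator_of_mem (show p ∈ B2 ε from ⟨hp, hε⟩)]
          rw [if_pos hε]
          simp
        · rw [indicator_of_notMem (show p ∉ B2 ε from fun h => hε h.2)]
          rw [if_neg hε]
          simp
      rw [hsum]
      have h3 : ((Finset.univ.filter fun ε : ι → Bool =>
            ∑ i, ∑ j, (Ab x i + sg (ε i) * c i) * Pm C p.2 p.1 η i j *
              (Ab x j + sg (ε j) * c j) < β ^ 2 * X0 / 2).card : ENNReal) =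
          ENNReal.ofReal ((Finset.univ.filter fun ε : ι → Bool =>
            ∑ i, ∑ j, (Ab x i + sg (ε i) * c i) * Pm C p.2 p.1 η i j *
              (Ab x j + sg (ε j) * c j) < β ^ 2 * X0 / 2).card : ℝ) := by
        rw [ENNReal.ofReal_natCast]
      rw [h3]
      have h4 : (2 : ENNReal) ^ (Fintype.card ι) = ENNReal.ofReal (2 ^ (Fintype.card ι)) := by
        rw [ENNReal.ofReal_pow (by norm_num)]
        simp
      rw [h4, ← ENNReal.ofReal_mul (by positivity)]
      exact ENNReal.ofReal_le_ofReal hsc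
    · have : ∑ ε : ι → Bool, (B2 ε).indicator (1 : ℝ × (ι → ℝ) → ENNReal) p = 0 := by
        apply Finset.sum_eq_zero
        intro ε _
        rw [indicator_of_notMem (show p ∉ B2 ε from fun h => hp h.1)]
      rw [this]
      exact zero_le
  have hb2 : ∑ ε : ι → Bool, μ (B2 ε) ≤
      2 ^ (Fintype.card ι) * ENNReal.ofReal (16 * (B * β) ^ 2 / (η * (β ^ 2 * X0))) *
        ENNReal.ofReal (2 * K) := by
    calc ∑ ε : ι → Bool, μ (B2 ε) =
        ∑ ε : ι → Bool, ∫⁻ p, (B2 ε).indicator (1 : ℝ × (ι → ℝ) → ENNReal) p ∂μ := by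
          apply Finset.sum_congr rfl
          intro ε _
          rw [lintegral_indicator_one (hmB2 ε)]
      _ = ∫⁻ p, ∑ ε : ι → Bool, (B2 ε).indicator (1 : ℝ × (ι → ℝ) → ENNReal) p ∂μ := by
          rw [lintegral_finsetSum]
          intro ε _
          exact measurable_one.indicator (hmB2 ε)
      _ ≤ ∫⁻ _p, 2 ^ (Fintype.card ι) *
            ENNReal.ofReal (16 * (B * β) ^ 2 / (η * (β ^ 2 * X0))) ∂μ := lintegral_mono hcnt
      _ = _ := by rw [lintegral_const, hμuniv]
  -- assembly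
  have hcardb : (Finset.univ : Finset (ι → Bool)).card = 2 ^ (Fintype.card ι) := by
    rw [Finset.card_univ, Fintype.card_fun, Fintype.card_bool]
  calc ∑ ε : ι → Bool, μ {p : ℝ × (ι → ℝ) | |p.2 x| ≤ W2 ∧
          Pm (Aeps Ab x c ε) p.2 p.1 η x x < β ^ 2 * X0 / (2 * (W2 + 8 * W) ^ 2)}
      ≤ ∑ ε : ι → Bool, (μ B1 + μ (B2 ε) + μ (B3 ε)) := by
        apply Finset.sum_le_sum
        intro ε _
        refine (measure_mono (hsub ε)).trans ((measure_union_le _ _).trans ?_)
        gcongr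
        exact measure_union_le _ _
    _ = 2 ^ (Fintype.card ι) * μ B1 + ∑ ε : ι → Bool, μ (B2 ε) + ∑ ε : ι → Bool, μ (B3 ε) := by
        rw [Finset.sum_add_distrib, Finset.sum_add_distrib, Finset.sum_const, hcardb]
        simp
    _ ≤ 2 ^ (Fintype.card ι) * ENNReal.ofReal (8 * Ck K a / (Real.pi * W) +
          16 * K / (gaussianPDFReal 0 v W * Real.pi * S.card * η)) +
        2 ^ (Fintype.card ι) * ENNReal.ofReal (16 * (B * β) ^ 2 / (η * (β ^ 2 * X0))) *
          ENNReal.ofReal (2 * K) +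
        2 ^ (Fintype.card ι) * ENNReal.ofReal (Ck K a / W) := by
        gcongr
        calc ∑ ε : ι → Bool, μ (B3 ε) ≤ ∑ _ε : ι → Bool, ENNReal.ofReal (Ck K a / W) :=
              Finset.sum_le_sum fun ε _ => hb3 ε
          _ = 2 ^ (Fintype.card ι) * ENNReal.ofReal (Ck K a / W) := by
              rw [Finset.sum_const, hcardb]; simp
    _ = 2 ^ (Fintype.card ι) * (ENNReal.ofReal (8 * Ck K a / (Real.pi * W) +
          16 * K / (gaussianPDFReal 0 v W * Real.pi * S.card * η)) +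
        ENNReal.ofReal (16 * (B * β) ^ 2 / (η * (β ^ 2 * X0))) *
          ENNReal.ofReal (2 * K) + ENNReal.ofReal (Ck K a / W)) := by ring
    _ ≤ _ := by
        gcongr
        rw [← ENNReal.ofReal_mul (by positivity), ← ENNReal.ofReal_add (by positivity)
          (by positivity), ← ENNReal.ofReal_add (by positivity) (by positivity)]
        apply ENNReal.ofReal_le_ofReal
        have e1 : 16 * (B * β) ^ 2 / (η * (β ^ 2 * X0)) * (2 * K) =
            64 * B ^ 2 * K / (gaussianPDFReal 0 v W * Real.pi * S.card * η) := by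
          rw [hX0]
          field_simp
          ring
        have e2 : 8 * Ck K a / (Real.pi * W) ≤ 8 * Ck K a / W := by
          apply div_le_div_of_nonneg_left (by positivity) hW0
          have : 1 ≤ Real.pi := by linarith [Real.pi_gt_three]
          nlinarith
        rw [e1]
        have e3 : (16 + 64 * B ^ 2) * K / (gaussianPDFReal 0 v W * Real.pi * S.card * η) =
            16 * K / (gaussianPDFReal 0 v W * Real.pi * S.card * η) +
            64 * B ^ 2 * K / (gaussianPDFReal 0 v W * Real.pi * S.card * η) := by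
          rw [← add_div]; congr 1; ring
        have e4 : 9 * Ck K a / W = 8 * Ck K a / W + Ck K a / W := by
          rw [← add_div]; congr 1; ring
        rw [e3, e4]
        linarith

end H10PL
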