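import Pool.Agent.H10R2.PL.Defs
import Pool.Agent.H10R2.PL.Res
import Pool.Agent.H10R2.PL.Schur
import Pool.Agent.H10R2.PL.Tail
import Pool.Agent.H10R2.PL.Mom
import Pool.Agent.H10R2.PL.Sign
import Pool.Agent.H10R2.PL.FV

/-!
Third bad event (task 2-WEGB of helper10's power-law Anderson project).
-/

namespace H10PL

open MeasureTheory ProbabilityTheory Matrix Set

variable {ι : Type*} [Fintype ι] [DecidableEq ι]

set_option linter.unusedSectionVars false

/-- local copy of the Wegner bound with a weight -/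
theorem b3_ww (μ : Measure ℝ) [IsProbabilityMeasure μ] {D : ℝ} (hD : 0 ≤ D)
    (hμ : μ ≤ ENNReal.ofReal D • volume) (A : Matrix ι ι ℝ) (hA : A.IsSymm)
    (hd : ∀ i, A i i = 0) (E : ℝ) {η : ℝ} (hη : 0 < η) (x : ι) (F : (ι → ℝ) → ENNReal)
    (hF : Measurable F) (hind : ∀ V t, F (Function.update V x t) = F V) :
    ∫⁻ V, F V * ENNReal.ofReal (Pm A V E η x x) ∂(Measure.pi fun _ : ι => μ) ≤
      ENNReal.ofReal (Real.pi * D) * ∫⁻ V, F V ∂(Measure.pi fun _ : ι => μ) := by
  have hm : Measurable fun V : ι → ℝ => F V * ENNReal.ofReal (Pm A V E η x x) :=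
    hF.mul (Mom.meas_V A E η x).ennreal_ofReal
  rw [Mom.resample μ x _ hm, ← lintegral_const_mul _ hF]
  apply lintegral_mono
  intro V
  simp only [hind]
  rw [lintegral_const_mul _ (Mom.meas_upd A V E η x).ennreal_ofReal, mul_comm]
  gcongr
  calc ∫⁻ t, ENNReal.ofReal (Pm A (Function.update V x t) E η x x) ∂μ
      ≤ ∫⁻ t, ENNReal.ofReal (Pm A (Function.update V x t) E η x x)
          ∂(ENNReal.ofReal D • volume) := lintegral_mono' hμ le_rfl
    _ = ENNReal.ofReal D * ENNReal.ofReal Real.pi := by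
        rw [lintegral_smul_measure, Mom.diag_full A hA hd V E hη x]
        rfl
    _ = ENNReal.ofReal (Real.pi * D) := by
        rw [← ENNReal.ofReal_mul hD, mul_comm]

/-- mass on an event which, for each energy, does not depend on the potential at `x` -/
theorem b3_event (μ : Measure ℝ) [IsProbabilityMeasure μ] {D : ℝ} (hD : 0 ≤ D)
    (hμ : μ ≤ ENNReal.ofReal D • volume) (A : Matrix ι ι ℝ) (hA : A.IsSymm)
    (hd : ∀ i, A i i = 0) (x : ι) {K η : ℝ} (hη : 0 < η)
    (B : Set (ℝ × (ι → ℝ))) (hB : MeasurableSet B)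
    (hind : ∀ E V t, (E, Function.update V x t) ∈ B ↔ (E, V) ∈ B) :
    ∫⁻ p in B, ENNReal.ofReal (Pm A p.2 p.1 η x x)
        ∂((volume.restrict (Icc (-K) K)).prod (Measure.pi fun _ : ι => μ)) ≤
      ENNReal.ofReal (Real.pi * D) *
        ((volume.restrict (Icc (-K) K)).prod (Measure.pi fun _ : ι => μ)) B := by
  have hmP : Measurable fun p : ℝ × (ι → ℝ) => ENNReal.ofReal (Pm A p.2 p.1 η x x) :=
    (measurable_Pm' A η x x).ennreal_ofReal
  have hmI : Measurable (B.indicator (1 : ℝ × (ι → ℝ) → ENNReal)) := measurable_one.indicator hB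
  have e1 : ∫⁻ p in B, ENNReal.ofReal (Pm A p.2 p.1 η x x)
        ∂((volume.restrict (Icc (-K) K)).prod (Measure.pi fun _ : ι => μ)) =
      ∫⁻ p, B.indicator (1 : ℝ × (ι → ℝ) → ENNReal) p * ENNReal.ofReal (Pm A p.2 p.1 η x x)
        ∂((volume.restrict (Icc (-K) K)).prod (Measure.pi fun _ : ι => μ)) := by
    rw [← lintegral_indicator hB]
    apply lintegral_congr
    intro p
    by_cases hp : p ∈ B
    · simp [hp]
    · simp [hp]
  have e2 : ∫⁻ p, B.indicator (1 : ℝ × (ι → ℝ) → ENNReal) p *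
        ENNReal.ofReal (Pm A p.2 p.1 η x x)
        ∂((volume.restrict (Icc (-K) K)).prod (Measure.pi fun _ : ι => μ)) =
      ∫⁻ E, ∫⁻ V, B.indicator (1 : ℝ × (ι → ℝ) → ENNReal) (E, V) *
        ENNReal.ofReal (Pm A V E η x x) ∂(Measure.pi fun _ : ι => μ)
        ∂(volume.restrict (Icc (-K) K)) :=
    lintegral_prod (fun p : ℝ × (ι → ℝ) => B.indicator (1 : ℝ × (ι → ℝ) → ENNReal) p *
        ENNReal.ofReal (Pm A p.2 p.1 η x x)) (hmI.mul hmP).aemeasurable
  rw [e1, e2, ← lintegral_indicator_one hB,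
    lintegral_prod _ hmI.aemeasurable, ← lintegral_const_mul]
  · apply lintegral_mono
    intro E
    apply b3_ww μ hD hμ A hA hd E hη x (fun V => B.indicator (1 : ℝ × (ι → ℝ) → ENNReal) (E, V))
    · exact hmI.comp measurable_prodMk_left
    · intro V t
      by_cases hp : (E, V) ∈ B
      · have := (hind E V t).mpr hp
        simp [hp, this]
      · have : (E, Function.update V x t) ∉ B := fun h => hp ((hind E V t).mp h)
        simp [hp, this]
  · exact hmI.lintegral_prod_right'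

/-- third bad event: the signs conspire -/
theorem bad3 (μ : Measure ℝ) [IsProbabilityMeasure μ] {D : ℝ} (hD : 0 ≤ D)
    (hμ : μ ≤ ENNReal.ofReal D • volume) (Ab : Matrix ι ι ℝ) (hA : Ab.IsSymm)
    (hd : ∀ i, Ab i i = 0) (x : ι) (c : ι → ℝ) (S : Finset ι) (hxS : x ∉ S)
    (hcS : ∀ i, i ∉ S → c i = 0) {β B : ℝ} (hβ : 0 < β) (h1 : ∀ i ∈ S, β ≤ |c i|)
    (h2 : ∀ i ∈ S, |c i| ≤ B * β) {K η q : ℝ} (hK : 0 < K) (hη : 0 < η) (hq : 0 < q) :
    ∑ ε : ι → Bool, ∫⁻ p in {p : ℝ × (ι → ℝ) |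
        q ≤ ∑ y ∈ S, Pm (cut Ab x) p.2 p.1 η y y ∧
        (Sg (Aeps Ab x c ε) p.2 p.1 η x).im < β ^ 2 * q / 2},
      ENNReal.ofReal (Pm (Aeps Ab x c ε) p.2 p.1 η x x)
        ∂((volume.restrict (Icc (-K) K)).prod (Measure.pi fun _ : ι => μ)) ≤
      2 ^ (Fintype.card ι) * ENNReal.ofReal (2 * K * (Real.pi * D) * (16 * B ^ 2 / (η * q))) := by
  classical
  set M : Measure (ℝ × (ι → ℝ)) :=
    (volume.restrict (Icc (-K) K)).prod (Measure.pi fun _ : ι => μ) with hM
  have hcx : c x = 0 := hcS x hxS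
  set C : Matrix ι ι ℝ := cut Ab x with hC
  have hCs : C.IsSymm := cut_symm Ab hA x
  have hpi : 0 < Real.pi := Real.pi_pos
  set Q : (ι → Bool) → (ℝ × (ι → ℝ)) → ℝ := fun ε p =>
    ∑ i, ∑ j, (Ab x i + sg (ε i) * c i) * Pm C p.2 p.1 η i j * (Ab x j + sg (ε j) * c j) with hQ
  set B2 : (ι → Bool) → Set (ℝ × (ι → ℝ)) := fun ε =>
    {p | q ≤ ∑ y ∈ S, Pm C p.2 p.1 η y y ∧
      (Sg (Aeps Ab x c ε) p.2 p.1 η x).im < β ^ 2 * q / 2} with hB2
  have hSgQ : ∀ ε (p : ℝ × (ι → ℝ)), (Sg (Aeps Ab x c ε) p.2 p.1 η x).im = Q ε p := by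
    intro ε p
    rw [Sg_im, fv_cut_Aeps]
    simp only [hQ, fv_Aeps_row Ab x c hcx ε]
    rfl
  have hmP : ∀ i j, Measurable fun p : ℝ × (ι → ℝ) => Pm C p.2 p.1 η i j :=
    fun i j => measurable_Pm' C η i j
  have hmQ : ∀ ε, Measurable (Q ε) := by
    intro ε
    refine Finset.measurable_sum _ fun i _ => Finset.measurable_sum _ fun j _ => ?_
    exact (measurable_const.mul (hmP i j)).mul measurable_const
  have hmB2 : ∀ ε, MeasurableSet (B2 ε) := by
    intro ε
    have this : B2 ε = {p | q ≤ ∑ y ∈ S, Pm C p.2 p.1 η y y} ∩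
        {p | Q ε p < β ^ 2 * q / 2} := by
      ext p
      simp only [hB2, mem_setOf_eq, mem_inter_iff, hSgQ]
    rw [this]
    apply MeasurableSet.inter
    · exact measurableSet_le measurable_const (Finset.measurable_sum _ fun y _ => hmP y y)
    · exact measurableSet_lt (hmQ ε) measurable_const
  have hMuniv : M univ = ENNReal.ofReal (2 * K) := by
    rw [hM, ← univ_prod_univ, Measure.prod_prod]
    simp only [measure_univ, mul_one, Measure.restrict_apply MeasurableSet.univ, univ_inter,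
      Real.volume_Icc]
    congr 1
    ring
  have hcnt : ∀ p : ℝ × (ι → ℝ), ∑ ε : ι → Bool, (B2 ε).indicator (1 : ℝ × (ι → ℝ) → ENNReal) p ≤
      2 ^ (Fintype.card ι) * ENNReal.ofReal (16 * (B * β) ^ 2 / (η * (β ^ 2 * q))) := by
    intro p
    by_cases hp : q ≤ ∑ y ∈ S, Pm C p.2 p.1 η y y
    · have hSne : S.Nonempty := by
        rw [Finset.nonempty_iff_ne_empty]
        intro h0
        rw [h0] at hp
        simp at hp
        linarith
      obtain ⟨i0, hi0⟩ := hSne
      have hBpos : 0 < B := by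
        have h3 := (h1 i0 hi0).trans (h2 i0 hi0)
        by_contra hcon
        push Not at hcon
        nlinarith
      have hPs : Matrix.IsSymm (Pm C p.2 p.1 η) := by
        apply Matrix.IsSymm.ext
        intro i j
        unfold Pm
        rw [Gm_symm C hCs]
      have hm2 : β ^ 2 * q ≤ ∑ i, c i ^ 2 * Pm C p.2 p.1 η i i := by
        calc β ^ 2 * q ≤ β ^ 2 * ∑ y ∈ S, Pm C p.2 p.1 η y y := by gcongr
          _ = ∑ y ∈ S, β ^ 2 * Pm C p.2 p.1 η y y := by rw [Finset.mul_sum]
          _ ≤ ∑ y ∈ S, c y ^ 2 * Pm C p.2 p.1 η y y := by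
            apply Finset.sum_le_sum
            intro y hy
            apply mul_le_mul_of_nonneg_right _ (Pm_diag_pos C hCs _ _ hη y).le
            rw [← sq_abs (c y)]
            exact pow_le_pow_left₀ hβ.le (h1 y hy) 2
          _ ≤ ∑ y, c y ^ 2 * Pm C p.2 p.1 η y y := by
            apply Finset.sum_le_sum_of_subset_of_nonneg (Finset.subset_univ S)
            intro y _ _
            exact mul_nonneg (sq_nonneg _) (Pm_diag_pos C hCs _ _ hη y).le
      have hsc := sign_count (Pm C p.2 p.1 η) hPs hη (fun φ => Pm_sq_quad C hCs p.2 p.1 hη φ)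
        (fun i => Ab x i) c (B * β) (by
          intro i
          by_cases hi : i ∈ S
          · exact h2 i hi
          · rw [hcS i hi]; simp; positivity) (β ^ 2 * q) (by positivity) hm2
      have hsum : ∑ ε : ι → Bool, (B2 ε).indicator (1 : ℝ × (ι → ℝ) → ENNReal) p =
          ((Finset.univ.filter fun ε : ι → Bool =>
            ∑ i, ∑ j, (Ab x i + sg (ε i) * c i) * Pm C p.2 p.1 η i j *
              (Ab x j + sg (ε j) * c j) < β ^ 2 * q / 2).card : ENNReal) := by
        rw [Finset.card_filter, Nat.cast_sum]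
        apply Finset.sum_congr rfl
        intro ε _
        by_cases hε : Q ε p < β ^ 2 * q / 2
        · rw [indicator_of_mem (show p ∈ B2 ε from ⟨hp, by rw [hSgQ]; exact hε⟩)]
          rw [if_pos hε]
          simp
        · rw [indicator_of_notMem (show p ∉ B2 ε from fun h => hε (by
            have h3 := h.2
            rw [hSgQ] at h3
            exact h3))]
          rw [if_neg hε]
          simp
      rw [hsum]
      have h3 : ((Finset.univ.filter fun ε : ι → Bool =>
            ∑ i, ∑ j, (Ab x i + sg (ε i) * c i) * Pm C p.2 p.1 η i j *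
              (Ab x j + sg (ε j) * c j) < β ^ 2 * q / 2).card : ENNReal) =
          ENNReal.ofReal ((Finset.univ.filter fun ε : ι → Bool =>
            ∑ i, ∑ j, (Ab x i + sg (ε i) * c i) * Pm C p.2 p.1 η i j *
              (Ab x j + sg (ε j) * c j) < β ^ 2 * q / 2).card : ℝ) := by
        rw [ENNReal.ofReal_natCast]
      rw [h3]
      have h4 : (2 : ENNReal) ^ (Fintype.card ι) = ENNReal.ofReal (2 ^ (Fintype.card ι)) := by
        rw [ENNReal.ofReal_pow (by norm_num)]
        simp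
      rw [h4, ← ENNReal.ofReal_mul (by positivity)]
      exact ENNReal.ofReal_le_ofReal hsc
    · have : ∑ ε : ι → Bool, (B2 ε).indicator (1 : ℝ × (ι → ℝ) → ENNReal) p = 0 := by
        apply Finset.sum_eq_zero
        intro ε _
        rw [indicator_of_notMem (show p ∉ B2 ε from fun h => hp h.1)]
      rw [this]
      exact zero_le
  have hb2 : ∑ ε : ι → Bool, M (B2 ε) ≤
      2 ^ (Fintype.card ι) * ENNReal.ofReal (16 * (B * β) ^ 2 / (η * (β ^ 2 * q))) *
        ENNReal.ofReal (2 * K) := by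
    calc ∑ ε : ι → Bool, M (B2 ε) =
        ∑ ε : ι → Bool, ∫⁻ p, (B2 ε).indicator (1 : ℝ × (ι → ℝ) → ENNReal) p ∂M := by
          apply Finset.sum_congr rfl
          intro ε _
          rw [lintegral_indicator_one (hmB2 ε)]
      _ = ∫⁻ p, ∑ ε : ι → Bool, (B2 ε).indicator (1 : ℝ × (ι → ℝ) → ENNReal) p ∂M := by
          rw [lintegral_finsetSum]
          intro ε _
          exact measurable_one.indicator (hmB2 ε)
      _ ≤ ∫⁻ _p, 2 ^ (Fintype.card ι) *
            ENNReal.ofReal (16 * (B * β) ^ 2 / (η * (β ^ 2 * q))) ∂M := lintegral_mono hcnt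
      _ = _ := by rw [lintegral_const, hMuniv]
  calc ∑ ε : ι → Bool, ∫⁻ p in B2 ε, ENNReal.ofReal (Pm (Aeps Ab x c ε) p.2 p.1 η x x) ∂M
      ≤ ∑ ε : ι → Bool, ENNReal.ofReal (Real.pi * D) * M (B2 ε) := by
        apply Finset.sum_le_sum
        intro ε _
        apply b3_event μ hD hμ (Aeps Ab x c ε) (fv_Aeps_symm Ab hA x c ε)
          (fv_Aeps_diag Ab hd x c hcx ε) x hη (B2 ε) (hmB2 ε)
        intro E V t
        simp only [hB2, mem_setOf_eq]
        rw [Sg_update (Aeps Ab x c ε) (fv_Aeps_symm Ab hA x c ε)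
          (fv_Aeps_diag Ab hd x c hcx ε) V t E hη x]
        have h5 : ∑ y ∈ S, Pm C (Function.update V x t) E η y y =
            ∑ y ∈ S, Pm C V E η y y := by
          apply Finset.sum_congr rfl
          intro y hy
          unfold Pm
          rw [hC, Gm_cut_update Ab hA V t E hη x y y (fun h => hxS (h ▸ hy))]
        rw [h5]
    _ = ENNReal.ofReal (Real.pi * D) * ∑ ε : ι → Bool, M (B2 ε) := by
        rw [Finset.mul_sum]
    _ ≤ ENNReal.ofReal (Real.pi * D) * (2 ^ (Fintype.card ι) *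
          ENNReal.ofReal (16 * (B * β) ^ 2 / (η * (β ^ 2 * q))) * ENNReal.ofReal (2 * K)) := by
        gcongr
    _ = 2 ^ (Fintype.card ι) * (ENNReal.ofReal (Real.pi * D) *
          ENNReal.ofReal (16 * (B * β) ^ 2 / (η * (β ^ 2 * q))) * ENNReal.ofReal (2 * K)) := by
        ring
    _ = _ := by
        rw [← ENNReal.ofReal_mul (by positivity), ← ENNReal.ofReal_mul (by positivity)]
        congr 2
        field_simp

end H10PL
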