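import Pool.Agent.H10R2.PL.Defs2
import Pool.Agent.H10R2.PL.Weg
import Pool.Agent.H10R2.PL.Weg3
import Pool.Agent.H10R2.PL.Shift

namespace H10PL

open MeasureTheory ProbabilityTheory Matrix Set

variable {d : ℕ} {T0 : (Fin d → ℤ) → (Fin d → ℤ) → ℝ} {κ : (Fin d → ℤ) → ℝ} {ρ0 b : ℝ}

/-- the product over energies, potentials, signs, reordered and restricted to a box -/
theorem lat_int (μ : Measure ℝ) [IsProbabilityMeasure μ] (Λ : Finset (Fin d → ℤ)) (K : ℝ)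
    (G : (ℝ × (Λ → ℝ)) × (Sym2 (Fin d → ℤ) → Bool) → ENNReal) (hG : Measurable G) :
    ∫⁻ p, G ((p.1, fun i : Λ => p.2.1 i), p.2.2)
      ∂((volume.restrict (Icc (-K) K)).prod ((PVg d μ).prod (Ps d))) =
    ∫⁻ s, (∫⁻ q, G (q, s) ∂((volume.restrict (Icc (-K) K)).prod
      (Measure.pi fun _ : Λ => μ))) ∂(Ps d) := by
  set μE := (volume.restrict (Icc (-K) K) : Measure ℝ) with hμE
  set γ : Measure (Λ → ℝ) := Measure.pi fun _ : Λ => μ with hγ
  have hmp1 : MeasurePreserving (MeasurableEquiv.prodAssoc.symm :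
      ℝ × (((Fin d → ℤ) → ℝ) × (Sym2 (Fin d → ℤ) → Bool)) → _)
      (μE.prod ((PVg d μ).prod (Ps d))) ((μE.prod (PVg d μ)).prod (Ps d)) :=
    (measurePreserving_prodAssoc μE (PVg d μ) (Ps d)).symm
  have hmp2 : MeasurePreserving (Prod.map (Prod.map id (fun (V : (Fin d → ℤ) → ℝ) (y : Λ) => V y)) id)
      ((μE.prod (PVg d μ)).prod (Ps d)) ((μE.prod γ).prod (Ps d)) :=
    ((MeasurePreserving.id μE).prod (restrict_mpg μ Λ)).prod (MeasurePreserving.id (Ps d))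
  have hmp := hmp2.comp hmp1
  have h1 := hmp.lintegral_comp hG
  rw [lintegral_prod_symm' _ hG] at h1
  rw [← h1]
  rfl

/-- averaging over flips of the row of `x` -/
theorem flip_avg (Λ S : Finset (Fin d → ℤ)) (x : Fin d → ℤ)
    (J : (Sym2 (Fin d → ℤ) → Bool) → ENNReal) (hJ : Measurable J) (C : ENNReal)
    (h : ∀ s, ∑ ε : Λ → Bool, (open Classical in J (flipS (TF Λ S x ε) s)) ≤
      2 ^ (Fintype.card Λ) * C) : ∫⁻ s, J s ∂(Ps d) ≤ C := by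
  classical
  have hflip : ∀ ε : Λ → Bool, ∫⁻ s, J (flipS (TF Λ S x ε) s) ∂(Ps d) = ∫⁻ s, J s ∂(Ps d) :=
    fun ε => (flip_mp (TF Λ S x ε)).lintegral_comp hJ
  have h2 : (2 : ENNReal) ^ (Fintype.card Λ) * ∫⁻ s, J s ∂(Ps d) ≤
      2 ^ (Fintype.card Λ) * C := by
    calc (2 : ENNReal) ^ (Fintype.card Λ) * ∫⁻ s, J s ∂(Ps d)
        = ∑ ε : Λ → Bool, ∫⁻ s, J s ∂(Ps d) := by
          rw [Finset.sum_const, Finset.card_univ, Fintype.card_fun, Fintype.card_bool,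
            nsmul_eq_mul]
          norm_num
      _ = ∑ ε : Λ → Bool, ∫⁻ s, J (flipS (TF Λ S x ε) s) ∂(Ps d) :=
          Finset.sum_congr rfl fun ε _ => (hflip ε).symm
      _ = ∫⁻ s, ∑ ε : Λ → Bool, J (flipS (TF Λ S x ε) s) ∂(Ps d) := by
          rw [lintegral_finsetSum]
          intro ε _
          exact hJ.comp (flip_mp (TF Λ S x ε)).measurable
      _ ≤ ∫⁻ _s, 2 ^ (Fintype.card Λ) * C ∂(Ps d) := lintegral_mono (fun s => by convert h s)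
      _ = 2 ^ (Fintype.card Λ) * C := by simp
  have h3 : (2 : ENNReal) ^ (Fintype.card Λ) ≠ 0 := by positivity
  have h4 : (2 : ENNReal) ^ (Fintype.card Λ) ≠ ⊤ := ENNReal.pow_ne_top (by norm_num)
  exact (ENNReal.mul_le_mul_iff_right h3 h4).1 h2

theorem cutPm_meas (_h : Adm T0 κ ρ0 b) (ρ η : ℝ) (Λ : Finset (Fin d → ℤ)) (x i j : Λ) :
    Measurable fun p : (ℝ × (Λ → ℝ)) × (Sym2 (Fin d → ℤ) → Bool) =>
      Pm (cut (Am T0 κ ρ Λ p.2) x) p.1.2 p.1.1 η i j := by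
  have hsg : Measurable sg := measurable_of_finite _
  refine measurable_Pm (fun p : (ℝ × (Λ → ℝ)) × (Sym2 (Fin d → ℤ) → Bool) =>
    cut (Am T0 κ ρ Λ p.2) x)
    ?_ (fun p => p.1.2) ?_ (fun p => p.1.1) ?_ η i j
  · intro i j
    unfold cut
    split_ifs
    · exact measurable_const
    · unfold Am Kr Kf
      split_ifs
      · refine measurable_const.add (Measurable.mul_const ?_ _)
        exact hsg.comp ((measurable_pi_apply _).comp measurable_snd)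
      · exact measurable_const
  · intro i
    exact (measurable_pi_apply i).comp (measurable_snd.comp measurable_fst)
  · exact measurable_fst.comp measurable_fst

theorem Am_entry_meas (ρ : ℝ) (Λ : Finset (Fin d → ℤ)) (i j : Λ) :
    Measurable fun p : (ℝ × (Λ → ℝ)) × (Sym2 (Fin d → ℤ) → Bool) => Am T0 κ ρ Λ p.2 i j := by
  have hsg : Measurable sg := measurable_of_finite _
  unfold Am Kr Kf
  split_ifs
  · refine measurable_const.add (Measurable.mul_const ?_ _)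
    exact hsg.comp ((measurable_pi_apply _).comp measurable_snd)
  · exact measurable_const

theorem SgIm_meas (h : Adm T0 κ ρ0 b) (ρ η : ℝ) (Λ : Finset (Fin d → ℤ)) (x : Λ) :
    Measurable fun p : (ℝ × (Λ → ℝ)) × (Sym2 (Fin d → ℤ) → Bool) =>
      (Sg (Am T0 κ ρ Λ p.2) p.1.2 p.1.1 η x).im := by
  have h1 : (fun p : (ℝ × (Λ → ℝ)) × (Sym2 (Fin d → ℤ) → Bool) =>
      (Sg (Am T0 κ ρ Λ p.2) p.1.2 p.1.1 η x).im) = fun p => ∑ i, ∑ j,
        Am T0 κ ρ Λ p.2 x i * Pm (cut (Am T0 κ ρ Λ p.2) x) p.1.2 p.1.1 η i j *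
          Am T0 κ ρ Λ p.2 x j := by
    funext p
    exact Sg_im _ _ _ _ _
  rw [h1]
  refine Finset.measurable_sum _ fun i _ => Finset.measurable_sum _ fun j _ => ?_
  exact ((Am_entry_meas ρ Λ x i).mul (cutPm_meas h ρ η Λ x i j)).mul (Am_entry_meas ρ Λ x j)

/-- integral of an indicator over a section -/
theorem sec_int {α β : Type*} [MeasurableSpace α] [MeasurableSpace β] (m : Measure α)
    (D : Set (α × β)) (hD : MeasurableSet D) (F : α × β → ENNReal) (s : β) :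
    ∫⁻ q, D.indicator F (q, s) ∂m = ∫⁻ q in {q | (q, s) ∈ D}, F (q, s) ∂m := by
  have hm : MeasurableSet {q : α | (q, s) ∈ D} := measurable_prodMk_right hD
  rw [← lintegral_indicator hm]
  rfl

theorem bad3_lat (h : Adm T0 κ ρ0 b) (μ : Measure ℝ) [IsProbabilityMeasure μ] {D : ℝ}
    (hD : 0 ≤ D) (hμ : μ ≤ ENNReal.ofReal D • volume) {ρ : ℝ}
    (Λ S : Finset (Fin d → ℤ)) (x : Fin d → ℤ) (hx : x ∈ Λ) (h0 : (0 : Fin d → ℤ) ∉ S)
    (hS : ∀ z ∈ S, ‖z‖ ≤ ρ) {β B : ℝ}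
    (hβ : 0 < β) (hκ : ∀ z ∈ S, β ≤ |κ z| ∧ |κ z| ≤ B * β) {K q η : ℝ} (hK : 0 < K)
    (hη : 0 < η) (hq : 0 < q)
    (D3 : Set ((ℝ × (Λ → ℝ)) × (Sym2 (Fin d → ℤ) → Bool))) (hD3m : MeasurableSet D3)
    (hD3 : D3 = {p | q ≤ ∑ y ∈ Finset.univ.filter (fun j : Λ => x - (j : Fin d → ℤ) ∈ S),
        Pm (cut (Am T0 κ ρ Λ p.2) ⟨x, hx⟩) p.1.2 p.1.1 η y y ∧
        (Sg (Am T0 κ ρ Λ p.2) p.1.2 p.1.1 η ⟨x, hx⟩).im < β ^ 2 * q / 2}) :
    ∫⁻ s, (∫⁻ p, D3.indicator (fun p => ENNReal.ofReal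
        (Pm (Am T0 κ ρ Λ p.2) p.1.2 p.1.1 η ⟨x, hx⟩ ⟨x, hx⟩)) (p, s)
        ∂((volume.restrict (Icc (-K) K)).prod (Measure.pi fun _ : Λ => μ))) ∂(Ps d) ≤
      ENNReal.ofReal (2 * K * (Real.pi * D) * (16 * B ^ 2 / (η * q))) := by
  classical
  set X : Λ := ⟨x, hx⟩ with hX
  set F : (ℝ × (Λ → ℝ)) × (Sym2 (Fin d → ℤ) → Bool) → ENNReal := fun p => ENNReal.ofReal
        (Pm (Am T0 κ ρ Λ p.2) p.1.2 p.1.1 η X X) with hF
  have hFm : Measurable F := ENNReal.measurable_ofReal.comp (Pm_meas h ρ η Λ X X)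
  have hGm : Measurable (D3.indicator F) := hFm.indicator hD3m
  refine flip_avg Λ S x _ (hGm.lintegral_prod_left') _ ?_
  intro s
  have hfin := bad3 (ι := Λ) μ hD hμ (AbF T0 κ ρ Λ S x hx s) (AbF_symm h ρ Λ S x hx s)
      (AbF_diag h ρ Λ S x hx s h0) X (cF κ Λ S x s)
      (Finset.univ.filter fun j : Λ => x - (j : Fin d → ℤ) ∈ S) (by simp [hX, h0]) (by
        intro i hi
        unfold cF
        rw [if_neg]
        intro hc
        exact hi (by simp [hc])) (β := β) (B := B) hβ (by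
        intro i hi
        have hi' := (Finset.mem_filter.1 hi).2
        unfold cF
        rw [if_pos hi', abs_mul, asm_abs_sg, one_mul]
        exact (hκ _ hi').1) (by
        intro i hi
        have hi' := (Finset.mem_filter.1 hi).2
        unfold cF
        rw [if_pos hi', abs_mul, asm_abs_sg, one_mul]
        exact (hκ _ hi').2) hK hη hq
  refine le_trans (le_of_eq ?_) hfin
  refine Finset.sum_congr rfl fun ε _ => ?_
  rw [sec_int _ D3 hD3m]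
  have hcut : cut (Am T0 κ ρ Λ (flipS (TF Λ S x ε) s)) X = cut (AbF T0 κ ρ Λ S x hx s) X := by
    rw [Am_flip h Λ S x hx s h0 hS ε]
    ext i j
    unfold cut Aeps
    split_ifs with hc h1 h2 h3
    · rfl
    · exact absurd (Or.inl h1) hc
    · exact absurd (Or.inl h1) hc
    · exact absurd (Or.inr h3) hc
    · simp
  have hset : {p : ℝ × (Λ → ℝ) | (p, flipS (TF Λ S x ε) s) ∈ D3} = {p : ℝ × (Λ → ℝ) |
        q ≤ ∑ y ∈ Finset.univ.filter (fun j : Λ => x - (j : Fin d → ℤ) ∈ S),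
          Pm (cut (AbF T0 κ ρ Λ S x hx s) X) p.2 p.1 η y y ∧
        (Sg (Aeps (AbF T0 κ ρ Λ S x hx s) X (cF κ Λ S x s) ε) p.2 p.1 η X).im <
          β ^ 2 * q / 2} := by
    rw [hD3]
    ext p
    simp only [Set.mem_ofPred_eq]
    rw [hcut, Am_flip h Λ S x hx s h0 hS ε]
  rw [hset]
  simp only [hF]
  rw [Am_flip h Λ S x hx s h0 hS ε]

open Classical in
/-- the box -/
noncomputable def Qb (Λ : Finset (Fin d → ℤ)) (R : ℝ) : Finset Λ :=
  Finset.univ.filter fun i : Λ => ‖(i : Fin d → ℤ)‖ ≤ R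

open Classical in
/-- sites of the box close to `x` -/
noncomputable def Nb (Λ : Finset (Fin d → ℤ)) (R R' : ℝ) (x : Λ) : Finset Λ :=
  Finset.univ.filter fun i : Λ => ‖(i : Fin d → ℤ)‖ ≤ R ∧ i ≠ x ∧
    ‖(x : Fin d → ℤ) - (i : Fin d → ℤ)‖ ≤ R'

open Classical in
/-- differences to the far sites of the box -/
noncomputable def Sb (Λ : Finset (Fin d → ℤ)) (R R' : ℝ) (x : Λ) : Finset (Fin d → ℤ) :=
  (Finset.univ.filter fun i : Λ => ‖(i : Fin d → ℤ)‖ ≤ R ∧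
    R' < ‖(x : Fin d → ℤ) - (i : Fin d → ℤ)‖).image fun i : Λ => (x : Fin d → ℤ) - i

theorem Sb_filter (Λ : Finset (Fin d → ℤ)) (R R' : ℝ) (x : Λ) (i : Λ) :
    (x : Fin d → ℤ) - (i : Fin d → ℤ) ∈ Sb Λ R R' x ↔
      ‖(i : Fin d → ℤ)‖ ≤ R ∧ R' < ‖(x : Fin d → ℤ) - (i : Fin d → ℤ)‖ := by
  classical
  unfold Sb
  constructor
  · intro hi
    obtain ⟨j, hj, hji⟩ := Finset.mem_image.1 hi
    have : (j : Fin d → ℤ) = i := by simpa using hji
    have hij : j = i := Subtype.ext this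
    rw [← hij]
    exact (Finset.mem_filter.1 hj).2
  · intro hi
    exact Finset.mem_image.2 ⟨i, Finset.mem_filter.2 ⟨Finset.mem_univ _, hi⟩, rfl⟩

/-- the deterministic inclusion -/
theorem bad_incl {ι : Type*} [Fintype ι] [DecidableEq ι] (A : Matrix ι ι ℝ) (hA : A.IsSymm)
    (hd : ∀ i, A i i = 0) (V : ι → ℝ) (E : ℝ) {η : ℝ} (hη : 0 < η) (x : ι)
    (Q N S : Finset ι) (hxQ : x ∈ Q) (hQ : ∀ i ∈ Q, i ≠ x → i ∈ N ∨ i ∈ S)
    {q1 q2 q3 : ℝ} (hq : q3 + q2 + 2 / η ≤ q1) :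
    (∑ y ∈ Q, Pm A V E η y y < q1) ∨ (q2 ≤ ∑ y ∈ N, Pm (cut A x) V E η y y) ∨
      (q3 ≤ ∑ y ∈ S, Pm (cut A x) V E η y y) := by
  by_contra hcon
  simp only [not_or, not_lt, not_le] at hcon
  obtain ⟨h1, h2, h3⟩ := hcon
  have hpos : ∀ y, 0 ≤ Pm (cut A x) V E η y y := fun y =>
    (Pm_diag_pos _ (cut_symm A hA x) V E hη y).le
  have h4 : ∑ y ∈ Q.erase x, Pm (cut A x) V E η y y ≤
      ∑ y ∈ N, Pm (cut A x) V E η y y + ∑ y ∈ S, Pm (cut A x) V E η y y := by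
    calc ∑ y ∈ Q.erase x, Pm (cut A x) V E η y y ≤ ∑ y ∈ N ∪ S, Pm (cut A x) V E η y y := by
          refine Finset.sum_le_sum_of_subset_of_nonneg ?_ (fun y _ _ => hpos y)
          intro y hy
          obtain ⟨hy1, hy2⟩ := Finset.mem_erase.1 hy
          exact Finset.mem_union.2 (hQ y hy2 hy1)
      _ ≤ _ := by
          have := Finset.sum_union_inter (s₁ := N) (s₂ := S)
            (f := fun y => Pm (cut A x) V E η y y)
          have h5 : 0 ≤ ∑ y ∈ N ∩ S, Pm (cut A x) V E η y y :=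
            Finset.sum_nonneg fun y _ => hpos y
          linarith
  have h5 : ∑ y ∈ Q.erase x, Pm A V E η y y - ∑ y ∈ Q.erase x, Pm (cut A x) V E η y y ≤ 1 / η := by
    rw [← Finset.sum_sub_distrib]
    calc ∑ y ∈ Q.erase x, (Pm A V E η y y - Pm (cut A x) V E η y y)
        ≤ ∑ y ∈ Q.erase x, |Pm A V E η y y - Pm (cut A x) V E η y y| :=
          Finset.sum_le_sum fun y _ => le_abs_self _
      _ ≤ ∑ y ∈ Finset.univ.erase x, |Pm A V E η y y - Pm (cut A x) V E η y y| := by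
          refine Finset.sum_le_sum_of_subset_of_nonneg ?_ (fun y _ _ => abs_nonneg _)
          exact Finset.erase_subset_erase _ (Finset.subset_univ _)
      _ ≤ 1 / η := sum_diff_le A hA hd V E hη x
  have h6 : ∑ y ∈ Q, Pm A V E η y y = Pm A V E η x x + ∑ y ∈ Q.erase x, Pm A V E η y y :=
    (Finset.add_sum_erase Q (fun y => Pm A V E η y y) hxQ).symm
  have h7 : Pm A V E η x x ≤ 1 / η := Pm_diag_le A hA V E hη x
  have h8 : 2 / η = 1 / η + 1 / η := by ring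
  linarith

/-- weight of the bad event `Im Σ_x < M η` -/
noncomputable def Fm (T0 : (Fin d → ℤ) → (Fin d → ℤ) → ℝ) (κ : (Fin d → ℤ) → ℝ) (ρ η M : ℝ)
    (Λ : Finset (Fin d → ℤ)) (x : Λ) :
    (ℝ × (Λ → ℝ)) × (Sym2 (Fin d → ℤ) → Bool) → ENNReal :=
  {p : (ℝ × (Λ → ℝ)) × (Sym2 (Fin d → ℤ) → Bool) |
    (Sg (Am T0 κ ρ Λ p.2) p.1.2 p.1.1 η x).im < M * η}.indicator
      (fun p => ENNReal.ofReal (Pm (Am T0 κ ρ Λ p.2) p.1.2 p.1.1 η x x))

theorem Fm_meas (h : Adm T0 κ ρ0 b) (ρ η M : ℝ) (Λ : Finset (Fin d → ℤ)) (x : Λ) :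
    Measurable (Fm T0 κ ρ η M Λ x) := by
  unfold Fm
  refine Measurable.indicator ?_ ?_
  · exact ENNReal.measurable_ofReal.comp (Pm_meas h ρ η Λ x x)
  · exact measurableSet_lt (SgIm_meas h ρ η Λ x) measurable_const

theorem mass_lat (h : Adm T0 κ ρ0 b) (μ : Measure ℝ) [IsProbabilityMeasure μ] {D : ℝ}
    (hD : 0 ≤ D) (hμ : μ ≤ ENNReal.ofReal D • volume) {ρ R R' : ℝ} (hR' : 0 ≤ R')
    (hRρ : 2 * R ≤ ρ) (Λ : Finset (Fin d → ℤ)) {β B : ℝ} (hβ : 0 < β)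
    (hκ : ∀ z : Fin d → ℤ, R' < ‖z‖ → ‖z‖ ≤ 2 * R → β ≤ |κ z| ∧ |κ z| ≤ B * β)
    {K η M q1 q2 q3 n2 : ℝ} (hK : 0 < K) (hη : 0 < η) (hq1 : 0 < q1) (hq2 : 0 < q2)
    (hq3 : 0 < q3) (hq : q3 + q2 + 2 / η ≤ q1) (hM : M * η ≤ β ^ 2 * q3 / 2)
    (hn2 : ∀ x ∈ Qb Λ R, ((Nb Λ R R' x).card : ℝ) ≤ n2) (hn20 : 0 ≤ n2) :
    ∑ x ∈ Qb Λ R, ∫⁻ p, Fm T0 κ ρ η M Λ x ((p.1, fun i : Λ => p.2.1 i), p.2.2)
      ∂((volume.restrict (Icc (-K) K)).prod ((PVg d μ).prod (Ps d))) ≤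
    ENNReal.ofReal (2 * K * q1 + (Qb Λ R).card * (2 * K * (Real.pi * D) ^ 2 * n2 / q2 +
      2 * K * (Real.pi * D) * (16 * B ^ 2 / (η * q3)))) := by
  classical
  have hpi := Real.pi_pos
  set m : Measure (ℝ × (Λ → ℝ)) := (volume.restrict (Icc (-K) K)).prod
    (Measure.pi fun _ : Λ => μ) with hm
  let F : Λ → (ℝ × (Λ → ℝ)) × (Sym2 (Fin d → ℤ) → Bool) → ENNReal := fun x p =>
    ENNReal.ofReal (Pm (Am T0 κ ρ Λ p.2) p.1.2 p.1.1 η x x)
  have hFm : ∀ x, Measurable (F x) := fun x =>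
    ENNReal.measurable_ofReal.comp (Pm_meas h ρ η Λ x x)
  let D1 : Set ((ℝ × (Λ → ℝ)) × (Sym2 (Fin d → ℤ) → Bool)) :=
    {p | ∑ y ∈ Qb Λ R, Pm (Am T0 κ ρ Λ p.2) p.1.2 p.1.1 η y y < q1}
  let D2 : Λ → Set ((ℝ × (Λ → ℝ)) × (Sym2 (Fin d → ℤ) → Bool)) := fun x =>
    {p | q2 ≤ ∑ y ∈ Nb Λ R R' x, Pm (cut (Am T0 κ ρ Λ p.2) x) p.1.2 p.1.1 η y y}
  let D3 : Λ → Set ((ℝ × (Λ → ℝ)) × (Sym2 (Fin d → ℤ) → Bool)) := fun x =>
    {p | q3 ≤ ∑ y ∈ Finset.univ.filter (fun j : Λ => (x : Fin d → ℤ) - (j : Fin d → ℤ) ∈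
        Sb Λ R R' x),
        Pm (cut (Am T0 κ ρ Λ p.2) ⟨(x : Fin d → ℤ), x.2⟩) p.1.2 p.1.1 η y y ∧
        (Sg (Am T0 κ ρ Λ p.2) p.1.2 p.1.1 η ⟨(x : Fin d → ℤ), x.2⟩).im < β ^ 2 * q3 / 2}
  have hD1m : MeasurableSet D1 := measurableSet_lt
    (Finset.measurable_sum _ fun y _ => Pm_meas h ρ η Λ y y) measurable_const
  have hD2m : ∀ x, MeasurableSet (D2 x) := fun x => measurableSet_le measurable_const
    (Finset.measurable_sum _ fun y _ => cutPm_meas h ρ η Λ x y y)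
  have hD3m : ∀ x, MeasurableSet (D3 x) := fun x => MeasurableSet.inter
    (measurableSet_le measurable_const
      (Finset.measurable_sum _ fun y _ => cutPm_meas h ρ η Λ x y y))
    (measurableSet_lt (SgIm_meas h ρ η Λ x) measurable_const)
  have hpt : ∀ x ∈ Qb Λ R, ∀ p, Fm T0 κ ρ η M Λ x p ≤
      D1.indicator (F x) p + ((D2 x).indicator (F x) p + (D3 x).indicator (F x) p) := by
    intro x hx p
    unfold Fm
    by_cases hp : (Sg (Am T0 κ ρ Λ p.2) p.1.2 p.1.1 η x).im < M * η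
    · rw [indicator_of_mem (show p ∈ {p : (ℝ × (Λ → ℝ)) × (Sym2 (Fin d → ℤ) → Bool) |
        (Sg (Am T0 κ ρ Λ p.2) p.1.2 p.1.1 η x).im < M * η} from hp)]
      rcases bad_incl (Am T0 κ ρ Λ p.2) (Am_symm h ρ Λ p.2) (Am_diag h ρ Λ p.2) p.1.2 p.1.1 hη x
        (Qb Λ R) (Nb Λ R R' x) (Finset.univ.filter (fun j : Λ =>
          (x : Fin d → ℤ) - (j : Fin d → ℤ) ∈ Sb Λ R R' x)) hx (by
          intro i hi hix
          have hi' := (Finset.mem_filter.1 hi).2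
          by_cases hc : ‖(x : Fin d → ℤ) - (i : Fin d → ℤ)‖ ≤ R'
          · exact Or.inl (Finset.mem_filter.2 ⟨Finset.mem_univ _, hi', hix, hc⟩)
          · refine Or.inr (Finset.mem_filter.2 ⟨Finset.mem_univ _, ?_⟩)
            rw [Sb_filter]
            exact ⟨hi', not_le.1 hc⟩) hq with h1 | h1 | h1
      · rw [indicator_of_mem (show p ∈ D1 from h1)]
        exact le_self_add
      · rw [indicator_of_mem (show p ∈ D2 x from h1)]
        exact le_trans le_self_add le_add_self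
      · rw [indicator_of_mem (show p ∈ D3 x from ⟨h1, lt_of_lt_of_le hp hM⟩)]
        exact le_trans le_add_self le_add_self
    · rw [indicator_of_notMem (show p ∉ {p : (ℝ × (Λ → ℝ)) × (Sym2 (Fin d → ℤ) → Bool) |
        (Sg (Am T0 κ ρ Λ p.2) p.1.2 p.1.1 η x).im < M * η} from hp)]
      exact zero_le
  have hsum1 : ∑ x ∈ Qb Λ R, ∫⁻ s, (∫⁻ q, D1.indicator (F x) (q, s) ∂m) ∂(Ps d) ≤
      ENNReal.ofReal (2 * K * q1) := by
    rw [← lintegral_finsetSum _ (fun x _ => ((hFm x).indicator hD1m).lintegral_prod_left')]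
    calc ∫⁻ s, ∑ x ∈ Qb Λ R, (∫⁻ q, D1.indicator (F x) (q, s) ∂m) ∂(Ps d)
        ≤ ∫⁻ _s, ENNReal.ofReal (2 * K * q1) ∂(Ps d) := by
          refine lintegral_mono fun s => ?_
          have := bad1 μ (Am T0 κ ρ Λ s) (Am_symm h ρ Λ s) hK hη hq1 (Qb Λ R)
          refine le_trans (le_of_eq ?_) this
          refine Finset.sum_congr rfl fun x _ => ?_
          rw [sec_int m D1 hD1m]
          rfl
      _ = ENNReal.ofReal (2 * K * q1) := by simp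
  have hsum2 : ∀ x ∈ Qb Λ R, ∫⁻ s, (∫⁻ q, (D2 x).indicator (F x) (q, s) ∂m) ∂(Ps d) ≤
      ENNReal.ofReal (2 * K * (Real.pi * D) ^ 2 * n2 / q2) := by
    intro x hx
    calc ∫⁻ s, (∫⁻ q, (D2 x).indicator (F x) (q, s) ∂m) ∂(Ps d)
        ≤ ∫⁻ _s, ENNReal.ofReal (2 * K * (Real.pi * D) ^ 2 * n2 / q2) ∂(Ps d) := by
          refine lintegral_mono fun s => ?_
          have := bad2 μ hD hμ (Am T0 κ ρ Λ s) (Am_symm h ρ Λ s) (Am_diag h ρ Λ s) x hK hη hq2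
            (Nb Λ R R' x) (by simp [Nb])
          rw [sec_int m (D2 x) (hD2m x)]
          refine le_trans this (ENNReal.ofReal_le_ofReal ?_)
          have := hn2 x hx
          gcongr
      _ = _ := by simp
  have hsum3 : ∀ x ∈ Qb Λ R, ∫⁻ s, (∫⁻ q, (D3 x).indicator (F x) (q, s) ∂m) ∂(Ps d) ≤
      ENNReal.ofReal (2 * K * (Real.pi * D) * (16 * B ^ 2 / (η * q3))) := by
    intro x hx
    have hxR := (Finset.mem_filter.1 hx).2
    have hSprop : ∀ z ∈ Sb Λ R R' x, R' < ‖z‖ ∧ ‖z‖ ≤ 2 * R := by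
      intro z hz
      obtain ⟨j, hj, rfl⟩ := Finset.mem_image.1 hz
      obtain ⟨h1, h2⟩ := (Finset.mem_filter.1 hj).2
      refine ⟨h2, ?_⟩
      calc ‖(x : Fin d → ℤ) - (j : Fin d → ℤ)‖ ≤ ‖(x : Fin d → ℤ)‖ + ‖(j : Fin d → ℤ)‖ :=
            norm_sub_le _ _
        _ ≤ 2 * R := by linarith
    exact bad3_lat h μ hD hμ Λ (Sb Λ R R' x) x x.2 (by
      intro h0
      have := (hSprop 0 h0).1
      rw [norm_zero] at this
      linarith) (fun z hz => (hSprop z hz).2.trans hRρ) hβ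
      (fun z hz => hκ z (hSprop z hz).1 (hSprop z hz).2) hK hη hq3 (D3 x) (hD3m x) rfl
  calc ∑ x ∈ Qb Λ R, ∫⁻ p, Fm T0 κ ρ η M Λ x ((p.1, fun i : Λ => p.2.1 i), p.2.2)
      ∂((volume.restrict (Icc (-K) K)).prod ((PVg d μ).prod (Ps d)))
      = ∑ x ∈ Qb Λ R, ∫⁻ s, (∫⁻ q, Fm T0 κ ρ η M Λ x (q, s) ∂m) ∂(Ps d) := by
        refine Finset.sum_congr rfl fun x _ => ?_
        exact lat_int μ Λ K (Fm T0 κ ρ η M Λ x) (Fm_meas h ρ η M Λ x)
    _ ≤ ∑ x ∈ Qb Λ R, ((∫⁻ s, (∫⁻ q, D1.indicator (F x) (q, s) ∂m) ∂(Ps d)) +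
        ((∫⁻ s, (∫⁻ q, (D2 x).indicator (F x) (q, s) ∂m) ∂(Ps d)) +
          (∫⁻ s, (∫⁻ q, (D3 x).indicator (F x) (q, s) ∂m) ∂(Ps d)))) := by
        refine Finset.sum_le_sum fun x hx => ?_
        have g1 : Measurable fun s => ∫⁻ q, D1.indicator (F x) (q, s) ∂m :=
          ((hFm x).indicator hD1m).lintegral_prod_left'
        have g2 : Measurable fun s => ∫⁻ q, (D2 x).indicator (F x) (q, s) ∂m :=
          ((hFm x).indicator (hD2m x)).lintegral_prod_left'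
        rw [← lintegral_add_left g2, ← lintegral_add_left g1]
        refine lintegral_mono fun s => ?_
        have k1 : Measurable fun q => D1.indicator (F x) (q, s) :=
          ((hFm x).indicator hD1m).comp measurable_prodMk_right
        have k2 : Measurable fun q => (D2 x).indicator (F x) (q, s) :=
          ((hFm x).indicator (hD2m x)).comp measurable_prodMk_right
        rw [← lintegral_add_left k2, ← lintegral_add_left k1]
        exact lintegral_mono fun q => hpt x hx (q, s)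
    _ = (∑ x ∈ Qb Λ R, ∫⁻ s, (∫⁻ q, D1.indicator (F x) (q, s) ∂m) ∂(Ps d)) +
        ∑ x ∈ Qb Λ R, ((∫⁻ s, (∫⁻ q, (D2 x).indicator (F x) (q, s) ∂m) ∂(Ps d)) +
          (∫⁻ s, (∫⁻ q, (D3 x).indicator (F x) (q, s) ∂m) ∂(Ps d))) :=
        Finset.sum_add_distrib
    _ ≤ ENNReal.ofReal (2 * K * q1) + ∑ _x ∈ Qb Λ R,
        (ENNReal.ofReal (2 * K * (Real.pi * D) ^ 2 * n2 / q2) +
          ENNReal.ofReal (2 * K * (Real.pi * D) * (16 * B ^ 2 / (η * q3)))) :=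
        add_le_add hsum1 (Finset.sum_le_sum fun x hx => add_le_add (hsum2 x hx) (hsum3 x hx))
    _ = _ := by
        rw [Finset.sum_const, nsmul_eq_mul, ← ENNReal.ofReal_add (by positivity) (by positivity),
          ← ENNReal.ofReal_natCast, ← ENNReal.ofReal_mul (by positivity),
          ← ENNReal.ofReal_add (by positivity) (by positivity)]

end H10PL
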