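import Pool.Agent.H10R2.PL.Fin2c

namespace H10PL

open MeasureTheory ProbabilityTheory Matrix Set Filter

variable {d : ℕ} {T0 : (Fin d → ℤ) → (Fin d → ℤ) → ℝ} {κ : (Fin d → ℤ) → ℝ} {ρ0 b : ℝ}

/-- at the spectral parameter `E + i η` the site `x` is approximately resolved -/
def GoodE (T0 : (Fin d → ℤ) → (Fin d → ℤ) → ℝ) (κ : (Fin d → ℤ) → ℝ) (η e : ℝ)
    (x : Fin d → ℤ) (E : ℝ) (ω : ((Fin d → ℤ) → ℝ) × (Sym2 (Fin d → ℤ) → Bool)) : Prop :=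
  ∀ (E0 : ℂ) (ψ : (Fin d → ℤ) → ℂ), EigC T0 κ ω.2 ω.1 E0 ψ →
    ‖ψ x‖ ≤ Real.sqrt (∑' y, ‖ψ y‖ ^ 2) *
      (e + ‖E0 - ((E : ℂ) + (η : ℂ) * Complex.I)‖ * (1 / η))

theorem good_le (h : Adm T0 κ ρ0 b) (μ : Measure ℝ) [IsProbabilityMeasure μ] {η e : ℝ}
    (hη : 0 < η) (he : 0 < e) (x : Fin d → ℤ) {K ε : ℝ} (hK : 0 < K) (hε : 0 < ε) :
    ((volume.restrict (Icc (-K) K)).prod ((PVg d μ).prod (Ps d)))
      {p | ¬ GoodE T0 κ η e x p.1 p.2} ≤ ENNReal.ofReal ε := by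
  obtain ⟨ρ1, hρ1⟩ := tail_small h (δ := ε * η ^ 2 * e ^ 2 / (16 * K)) (by positivity)
  obtain ⟨ρ, hρρ0, hρ0, hρρ1⟩ : ∃ ρ : ℝ, ρ0 ≤ ρ ∧ 0 ≤ ρ ∧ ρ1 ≤ ρ :=
    ⟨max (max ρ0 0) ρ1, le_trans (le_max_left _ _) (le_max_left _ _),
      le_trans (le_max_right _ _) (le_max_left _ _), le_max_right _ _⟩
  have htl := hρ1 ρ hρρ1
  obtain ⟨T, hT0, hT⟩ := row_abs h ρ
  obtain ⟨r, hr⟩ : ∃ r, r = 1 + 2 * ρ * T / (e * η) := ⟨_, rfl⟩
  have hr1 : 0 ≤ 2 * ρ * T / (e * η) := by positivity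
  have hr0 : 0 < r := by linarith
  have hc1 : 2 * ((ρ / r) * T) ^ 2 * (1 / η ^ 2) ≤ e ^ 2 / 2 := by
    have h2 : 2 * ρ * T ≤ r * (e * η) := by
      have h3 : 2 * ρ * T / (e * η) ≤ r := by linarith
      rwa [div_le_iff₀ (by positivity)] at h3
    have h4 : (ρ / r) * T ≤ e * η / 2 := by
      have h5 : (ρ / r) * T = (ρ * T) / r := by ring
      rw [h5, div_le_iff₀ hr0]
      linarith
    have h6 : 0 ≤ (ρ / r) * T := by positivity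
    have h7 : ((ρ / r) * T) ^ 2 ≤ (e * η / 2) ^ 2 := pow_le_pow_left₀ h6 h4 2
    calc 2 * ((ρ / r) * T) ^ 2 * (1 / η ^ 2) ≤ 2 * (e * η / 2) ^ 2 * (1 / η ^ 2) := by gcongr
      _ = e ^ 2 / 2 := by field_simp
  obtain ⟨Λ, hΛmem⟩ : ∃ Λ : Finset (Fin d → ℤ), ∀ y, ‖y - x‖ ≤ r + ρ → y ∈ Λ := by
    refine ⟨(ball_finite x (r + ρ)).toFinset, fun y hy => ?_⟩
    rw [Set.Finite.mem_toFinset]
    exact hy
  have hxΛ : x ∈ Λ := hΛmem x (by rw [sub_self, norm_zero]; linarith)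
  obtain ⟨Z, hZm, hZ1, hZ2⟩ := long_complex h μ hρρ0 hη hr0 Λ x hxΛ hK
    (show 0 < e ^ 2 / 4 by positivity)
  have hsub : {p : ℝ × (((Fin d → ℤ) → ℝ) × (Sym2 (Fin d → ℤ) → Bool)) |
      ¬ GoodE T0 κ η e x p.1 p.2} ⊆ Z := by
    intro p hp
    by_contra hpZ
    apply hp
    intro E0 ψ hψ
    have h1 := gf_bound h p.2.2 p.2.1 p.1 x hρρ0 hρ0 hr0 hη Λ hΛmem hxΛ hT0 (hT Λ p.2.2)
      he.le hc1 (hZ1 p hpZ) E0 ψ hψ
    refine h1.trans ?_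
    have h2 : Real.sqrt (Pm (Am T0 κ ρ Λ p.2.2) (fun i : Λ => p.2.1 i) p.1 η ⟨x, hxΛ⟩ ⟨x, hxΛ⟩
        / η) ≤ 1 / η := by
      rw [Real.sqrt_le_left (by positivity)]
      have := Pm_diag_le (Am T0 κ ρ Λ p.2.2) (Am_symm h ρ Λ p.2.2) (fun i : Λ => p.2.1 i) p.1 hη
        ⟨x, hxΛ⟩
      calc Pm (Am T0 κ ρ Λ p.2.2) (fun i : Λ => p.2.1 i) p.1 η ⟨x, hxΛ⟩ ⟨x, hxΛ⟩ / η
          ≤ (1 / η) / η := by gcongr
        _ = (1 / η) ^ 2 := by field_simp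
    gcongr
  refine (measure_mono hsub).trans (hZ2.trans (ENNReal.ofReal_le_ofReal ?_))
  calc 2 * K * (2 * (∑' y : Fin d → ℤ, if ρ < ‖y‖ then κ y ^ 2 else 0) *
        (1 / η ^ 2) / (e ^ 2 / 4)) ≤
        2 * K * (2 * (ε * η ^ 2 * e ^ 2 / (16 * K)) * (1 / η ^ 2) / (e ^ 2 / 4)) := by gcongr
    _ = ε := by field_simp; ring

theorem good_ae (h : Adm T0 κ ρ0 b) (μ : Measure ℝ) [IsProbabilityMeasure μ] {η e : ℝ}
    (hη : 0 < η) (he : 0 < e) (x : Fin d → ℤ) :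
    ∀ᵐ ω ∂((PVg d μ).prod (Ps d)), ∀ᵐ E : ℝ, GoodE T0 κ η e x E ω := by
  set ν := (PVg d μ).prod (Ps d) with hν
  set bad : Set (ℝ × (((Fin d → ℤ) → ℝ) × (Sym2 (Fin d → ℤ) → Bool))) :=
    {p | ¬ GoodE T0 κ η e x p.1 p.2} with hbad
  have h1 : ∀ n : ℕ, ((volume.restrict (Icc (-((n : ℝ) + 1)) ((n : ℝ) + 1))).prod ν) bad = 0 := by
    intro n
    refine le_antisymm ?_ bot_le
    refine ENNReal.le_of_forall_pos_le_add fun ε hε _ => ?_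
    rw [zero_add]
    have := good_le h μ hη he x (K := (n : ℝ) + 1) (by positivity) (ε := ε)
      (by exact_mod_cast hε)
    rw [ENNReal.ofReal_coe_nnreal] at this
    exact this
  have h2 : ∀ n : ℕ, ((volume : Measure ℝ).prod ν)
      (bad ∩ (Icc (-((n : ℝ) + 1)) ((n : ℝ) + 1) ×ˢ univ)) = 0 := by
    intro n
    have h3 := h1 n
    rw [← Measure.restrict_univ (μ := ν), Measure.prod_restrict,
      Measure.restrict_apply' (measurableSet_Icc.prod MeasurableSet.univ)] at h3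
    simpa using h3
  have h5 : ((volume : Measure ℝ).prod ν) bad = 0 := by
    have h4 : bad ⊆ ⋃ n : ℕ, bad ∩ (Icc (-((n : ℝ) + 1)) ((n : ℝ) + 1) ×ˢ univ) := by
      intro p hp
      obtain ⟨n, hn⟩ := exists_nat_ge |p.1|
      refine mem_iUnion.2 ⟨n, hp, ?_⟩
      refine ⟨?_, mem_univ _⟩
      have := abs_le.1 hn
      exact ⟨by linarith [this.1], by linarith [this.2]⟩
    exact measure_mono_null h4 (measure_iUnion_null h2)
  have h6 : ∀ᵐ p ∂((volume : Measure ℝ).prod ν), GoodE T0 κ η e x p.1 p.2 := h5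
  have h7 : ∀ᵐ q ∂(ν.prod (volume : Measure ℝ)), GoodE T0 κ η e x q.2 q.1 :=
    (Measure.measurePreserving_swap (μ := ν) (ν := (volume : Measure ℝ))).quasiMeasurePreserving.ae
      h6
  exact Measure.ae_ae_of_ae_prod h7

theorem nonreal_zero {ω : ((Fin d → ℤ) → ℝ) × (Sym2 (Fin d → ℤ) → Bool)}
    (hg : ∀ (q : ℚ) (m : ℕ) (x : Fin d → ℤ), 0 < q →
      ∀ᵐ E : ℝ, GoodE T0 κ (q : ℝ) (1 / ((m : ℝ) + 1)) x E ω)
    (E0 : ℂ) (hE0 : 0 < E0.im) (ψ : (Fin d → ℤ) → ℂ) (hψ : EigC T0 κ ω.2 ω.1 E0 ψ) : ψ = 0 := by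
  funext x
  have key : ∀ m : ℕ, ‖ψ x‖ ≤ Real.sqrt (∑' y, ‖ψ y‖ ^ 2) * (3 / ((m : ℝ) + 1)) := by
    intro m
    obtain ⟨δ, hδ⟩ : ∃ δ, δ = E0.im / ((m : ℝ) + 1) := ⟨_, rfl⟩
    have hδ0 : 0 < δ := by rw [hδ]; positivity
    obtain ⟨q, hq1, hq2⟩ := exists_rat_btwn (show E0.im < E0.im + δ by linarith)
    have hq0 : 0 < q := by
      have : (0 : ℝ) < q := hE0.trans hq1
      exact_mod_cast this
    have hqr : (0 : ℝ) < q := by exact_mod_cast hq0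
    obtain ⟨E, hE1, hE2⟩ : ∃ E : ℝ, GoodE T0 κ (q : ℝ) (1 / ((m : ℝ) + 1)) x E ω ∧
        E ∈ Ioo (E0.re - δ) (E0.re + δ) := by
      have h1 := hg q m x hq0
      have h2 : (volume (Ioo (E0.re - δ) (E0.re + δ)) : ENNReal) ≠ 0 := by
        rw [Real.volume_Ioo]
        have : (0 : ℝ) < E0.re + δ - (E0.re - δ) := by linarith
        simpa using this
      have h3 : ∃ᵐ E : ℝ, E ∈ Ioo (E0.re - δ) (E0.re + δ) := by
        rw [frequently_ae_mem_iff]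
        exact h2
      exact (h1.and_frequently h3).exists
    have h4 := hE1 E0 ψ hψ
    refine h4.trans (mul_le_mul_of_nonneg_left ?_ (Real.sqrt_nonneg _))
    have h5 : ‖E0 - ((E : ℂ) + ((q : ℝ) : ℂ) * Complex.I)‖ ≤ 2 * δ := by
      refine (Complex.norm_le_abs_re_add_abs_im _).trans ?_
      have h6 : (E0 - ((E : ℂ) + ((q : ℝ) : ℂ) * Complex.I)).re = E0.re - E := by simp
      have h7 : (E0 - ((E : ℂ) + ((q : ℝ) : ℂ) * Complex.I)).im = E0.im - q := by simp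
      rw [h6, h7]
      have h8 : |E0.re - E| ≤ δ := by
        rw [abs_le]
        exact ⟨by linarith [hE2.2], by linarith [hE2.1]⟩
      have h9 : |E0.im - q| ≤ δ := by
        rw [abs_le]
        exact ⟨by linarith, by linarith⟩
      linarith
    have h10 : ‖E0 - ((E : ℂ) + ((q : ℝ) : ℂ) * Complex.I)‖ * (1 / (q : ℝ)) ≤
        2 / ((m : ℝ) + 1) := by
      calc ‖E0 - ((E : ℂ) + ((q : ℝ) : ℂ) * Complex.I)‖ * (1 / (q : ℝ))
          ≤ 2 * δ * (1 / E0.im) := by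
            refine mul_le_mul h5 ?_ (by positivity) (by positivity)
            exact one_div_le_one_div_of_le hE0 hq1.le
        _ = 2 / ((m : ℝ) + 1) := by rw [hδ]; field_simp
    have h11 : (3 : ℝ) / ((m : ℝ) + 1) = 1 / ((m : ℝ) + 1) + 2 / ((m : ℝ) + 1) := by ring
    rw [h11]
    linarith
  by_contra hne
  have hpos : 0 < ‖ψ x‖ := norm_pos_iff.2 hne
  obtain ⟨m, hm⟩ := exists_nat_gt (3 * Real.sqrt (∑' y, ‖ψ y‖ ^ 2) / ‖ψ x‖)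
  have h1 := key m
  have hm1 : (0 : ℝ) < (m : ℝ) + 1 := by positivity
  rw [div_lt_iff₀ hpos] at hm
  have h2 : ‖ψ x‖ * ((m : ℝ) + 1) ≤ 3 * Real.sqrt (∑' y, ‖ψ y‖ ^ 2) := by
    have h3 : Real.sqrt (∑' y, ‖ψ y‖ ^ 2) * (3 / ((m : ℝ) + 1)) * ((m : ℝ) + 1) =
        3 * Real.sqrt (∑' y, ‖ψ y‖ ^ 2) := by field_simp
    rw [← h3]
    exact mul_le_mul_of_nonneg_right h1 hm1.le
  nlinarith

theorem EigC_conj {ω : ((Fin d → ℤ) → ℝ) × (Sym2 (Fin d → ℤ) → Bool)}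
    (E0 : ℂ) (ψ : (Fin d → ℤ) → ℂ) (hψ : EigC T0 κ ω.2 ω.1 E0 ψ) :
    EigC T0 κ ω.2 ω.1 ((starRingEnd ℂ) E0) (fun y => (starRingEnd ℂ) (ψ y)) := by
  obtain ⟨h1, h2⟩ := hψ
  refine ⟨?_, fun y => ?_⟩
  · simpa using h1
  · have h3 := congrArg (starRingEnd ℂ) (h2 y)
    rw [map_add, Complex.conj_tsum, map_mul, map_mul] at h3
    simp only [map_mul, Complex.conj_ofReal] at h3
    exact h3

/-- MAIN THEOREM for a bounded single-site density -/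
theorem main_bdd (h : Adm T0 κ ρ0 b) (hTinv : ∀ a y w, T0 (y + a) (w + a) = T0 y w)
    (hd : 0 < d) (μ : Measure ℝ) [IsProbabilityMeasure μ]
    {D : ℝ} (hD : 0 ≤ D) (hμ : μ ≤ ENNReal.ofReal D • volume) (hprof : Prof κ) :
    ∀ᵐ ω ∂((PVg d μ).prod (Ps d)), ∀ (E0 : ℂ) (ψ : (Fin d → ℤ) → ℂ),
      EigC T0 κ ω.2 ω.1 E0 ψ → ψ = 0 := by
  have h1 : ∀ᵐ ω ∂((PVg d μ).prod (Ps d)), ∀ (n m : ℕ) (x : Fin d → ℤ),
      ω ∉ EvR T0 κ (1 / ((n : ℝ) + 1)) (m : ℝ) x := by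
    rw [ae_all_iff]; intro n
    rw [ae_all_iff]; intro m
    rw [ae_all_iff]; intro x
    rw [ae_iff]
    simp only [not_not]
    exact EvR_zero h hTinv hd μ hD hμ hprof (by positivity) (by positivity) x
  have h2 : ∀ᵐ ω ∂((PVg d μ).prod (Ps d)), ∀ (q : ℚ) (m : ℕ) (x : Fin d → ℤ), 0 < q →
      ∀ᵐ E : ℝ, GoodE T0 κ (q : ℝ) (1 / ((m : ℝ) + 1)) x E ω := by
    rw [ae_all_iff]; intro q
    rw [ae_all_iff]; intro m
    rw [ae_all_iff]; intro x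
    by_cases hq : 0 < q
    · have hqr : (0 : ℝ) < q := by exact_mod_cast hq
      filter_upwards [good_ae h μ hqr (show (0 : ℝ) < 1 / ((m : ℝ) + 1) by positivity) x]
        with ω hω _
      exact hω
    · exact Filter.Eventually.of_forall fun ω hq' => absurd hq' hq
  filter_upwards [h1, h2] with ω hω1 hω2
  intro E0 ψ hψ
  rcases lt_trichotomy E0.im 0 with hE | hE | hE
  · have h3 := nonreal_zero hω2 ((starRingEnd ℂ) E0) (by simpa using hE) _ (EigC_conj E0 ψ hψ)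
    funext x
    have h4 := congrFun h3 x
    simpa using h4
  · by_contra hne
    obtain ⟨x, hx⟩ : ∃ x, ψ x ≠ 0 := by
      by_contra hcon
      apply hne
      funext x
      by_contra hx
      exact hcon ⟨x, hx⟩
    have hpos : 0 < ‖ψ x‖ := norm_pos_iff.2 hx
    have hsum : 0 < ∑' y, ‖ψ y‖ ^ 2 :=
      lt_of_lt_of_le (by positivity) (hψ.1.le_tsum x (fun y _ => sq_nonneg _))
    obtain ⟨n, hn⟩ := exists_nat_ge ((∑' y, ‖ψ y‖ ^ 2) / ‖ψ x‖ ^ 2)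
    obtain ⟨m, hm⟩ := exists_nat_ge |E0.re|
    refine hω1 n m x ⟨E0.re, hm, ψ, ?_, hpos, ?_⟩
    · have h5 : ((E0.re : ℝ) : ℂ) = E0 := by
        apply Complex.ext
        · simp
        · simp [hE]
      rw [h5]
      exact hψ
    · rw [div_le_iff₀ (by positivity)] at hn
      rw [one_div, inv_mul_le_iff₀ (by positivity)]
      nlinarith [sq_nonneg ‖ψ x‖]
  · exact nonreal_zero hω2 E0 hE ψ hψ

end H10PL
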