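import Pool.Agent.H10R2.PL.Defs

/-! Task PROB: product measures. -/

namespace H10PL

open MeasureTheory ProbabilityTheory Matrix Set

theorem coin_map_not : coin.map not = coin := by
  ext s hs
  rw [Measure.map_apply (measurable_of_countable _) hs]
  classical
  unfold coin
  rw [PMF.toMeasure_uniformOfFintype_apply _ (measurable_of_countable _ hs),
    PMF.toMeasure_uniformOfFintype_apply _ hs]
  congr 2
  refine Fintype.card_congr ⟨fun b => ⟨!b.1, b.2⟩, fun b => ⟨!b.1, ?_⟩, ?_, ?_⟩
  · show (!(!b.1)) ∈ s
    rw [Bool.not_not]; exact b.2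
  · intro b; ext; simp
  · intro b; ext; simp

variable {d : ℕ}

theorem flip_mp (T : Set (Sym2 (Fin d → ℤ))) [DecidablePred (· ∈ T)] :
    MeasurePreserving (flipS T) (Ps d) (Ps d) := by
  have hf : flipS T = fun (s : Sym2 (Fin d → ℤ) → Bool) e =>
      (if e ∈ T then not else id : Bool → Bool) (s e) := by
    funext s e
    unfold flipS
    split_ifs <;> rfl
  have hm : Measurable (flipS T) := by
    rw [hf]
    refine measurable_pi_iff.mpr fun e => ?_
    exact (measurable_of_countable _).comp (measurable_pi_apply e)
  refine ⟨hm, ?_⟩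
  rw [hf]
  unfold Ps
  rw [Measure.infinitePi_map_pi (fun _ => coin)
    (f := fun e => (if e ∈ T then not else id : Bool → Bool)) (fun e => measurable_of_countable _)]
  congr 1
  funext e
  split_ifs
  · exact coin_map_not
  · exact Measure.map_id

theorem update_mp (v : NNReal) (x : Fin d → ℤ) :
    MeasurePreserving (fun p : ((Fin d → ℤ) → ℝ) × ℝ => Function.update p.1 x p.2)
      ((PV d v).prod (gaussianReal 0 v)) (PV d v) := by
  have hm : Measurable (fun p : ((Fin d → ℤ) → ℝ) × ℝ => Function.update p.1 x p.2) := by
    refine measurable_pi_iff.mpr fun y => ?_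
    by_cases h : y = x
    · subst h
      simpa using measurable_snd
    · simp only [Function.update_of_ne h]
      exact (measurable_pi_apply y).comp measurable_fst
  refine ⟨hm, ?_⟩
  apply Measure.eq_infinitePi
  intro s t ht
  classical
  rw [Measure.map_apply hm (.pi s.countable_toSet fun _ _ ↦ ht _)]
  have hpre : (fun p : ((Fin d → ℤ) → ℝ) × ℝ => Function.update p.1 x p.2) ⁻¹' (Set.pi s t) =
      (Set.pi (s.erase x : Finset (Fin d → ℤ)) t) ×ˢ (if x ∈ s then t x else univ) := by
    ext ⟨V, r⟩
    simp only [mem_preimage, Set.mem_pi, mem_prod, Finset.mem_coe, Finset.mem_erase]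
    constructor
    · intro h
      refine ⟨fun i hi => ?_, ?_⟩
      · have := h i hi.2
        rwa [Function.update_of_ne hi.1] at this
      · split_ifs with hx
        · have := h x hx
          rwa [Function.update_self] at this
        · trivial
    · rintro ⟨h1, h2⟩ i hi
      by_cases hix : i = x
      · subst hix
        rw [Function.update_self]
        rw [if_pos hi] at h2
        exact h2
      · rw [Function.update_of_ne hix]
        exact h1 i ⟨hix, hi⟩
  rw [hpre, Measure.prod_prod]
  unfold PV
  rw [Measure.infinitePi_pi _ (fun i _ => ht i)]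
  split_ifs with hx
  · exact Finset.prod_erase_mul s _ hx
  · rw [measure_univ, mul_one, Finset.erase_eq_of_notMem hx]

theorem restrict_mp (v : NNReal) (Λ : Finset (Fin d → ℤ)) :
    MeasurePreserving (fun (V : (Fin d → ℤ) → ℝ) (y : Λ) => V y) (PV d v)
      (Measure.pi fun _ : Λ => gaussianReal 0 v) := by
  refine ⟨by fun_prop, ?_⟩
  exact Measure.infinitePi_map_restrict (fun _ : (Fin d → ℤ) => gaussianReal 0 v) (I := Λ)

end H10PL
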