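import Pool.Agent.H10R2.PL.AsmB
import Pool.Agent.H10R2.PL.FV
import Pool.Agent.H10R2.PL.Prob

namespace H10PL

open MeasureTheory ProbabilityTheory Matrix Set

variable {d : ℕ} {T0 : (Fin d → ℤ) → (Fin d → ℤ) → ℝ} {κ : (Fin d → ℤ) → ℝ} {ρ0 b : ℝ}

open Classical in
/-- the flippable part of the row of `x` -/
noncomputable def cF (κ : (Fin d → ℤ) → ℝ) (Λ S : Finset (Fin d → ℤ)) (x : Fin d → ℤ)
    (s : Sym2 (Fin d → ℤ) → Bool) (j : Λ) : ℝ :=
  if x - j ∈ S then sg (s s(x, (j : Fin d → ℤ))) * κ (x - j) else 0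

/-- the matrix without the flippable part -/
noncomputable def AbF (T0 : (Fin d → ℤ) → (Fin d → ℤ) → ℝ) (κ : (Fin d → ℤ) → ℝ) (ρ : ℝ)
    (Λ S : Finset (Fin d → ℤ)) (x : Fin d → ℤ) (hx : x ∈ Λ)
    (s : Sym2 (Fin d → ℤ) → Bool) : Matrix Λ Λ ℝ :=
  fun i j => Am T0 κ ρ Λ s i j - (if i = ⟨x, hx⟩ then cF κ Λ S x s j else 0)
    - (if j = ⟨x, hx⟩ then cF κ Λ S x s i else 0)

/-- flipped edges -/
def TF (Λ S : Finset (Fin d → ℤ)) (x : Fin d → ℤ) (ε : Λ → Bool) : Set (Sym2 (Fin d → ℤ)) :=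
  {e | ∃ j : Λ, e = s(x, (j : Fin d → ℤ)) ∧ x - j ∈ S ∧ ε j = false}

theorem cF_x (Λ S : Finset (Fin d → ℤ)) (x : Fin d → ℤ) (hx : x ∈ Λ)
    (s : Sym2 (Fin d → ℤ) → Bool) (h0 : (0 : Fin d → ℤ) ∉ S) : cF κ Λ S x s ⟨x, hx⟩ = 0 := by
  unfold cF
  rw [if_neg]
  simpa using h0

theorem AbF_symm (h : Adm T0 κ ρ0 b) (ρ : ℝ) (Λ S : Finset (Fin d → ℤ)) (x : Fin d → ℤ)
    (hx : x ∈ Λ) (s : Sym2 (Fin d → ℤ) → Bool) : (AbF T0 κ ρ Λ S x hx s).IsSymm := by
  ext i j
  have := (Am_symm h ρ Λ s).apply i j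
  simp only [Matrix.transpose_apply, AbF]
  rw [this]
  ring

theorem AbF_diag (h : Adm T0 κ ρ0 b) (ρ : ℝ) (Λ S : Finset (Fin d → ℤ)) (x : Fin d → ℤ)
    (hx : x ∈ Λ) (s : Sym2 (Fin d → ℤ) → Bool) (h0 : (0 : Fin d → ℤ) ∉ S) (i : Λ) :
    AbF T0 κ ρ Λ S x hx s i i = 0 := by
  simp only [AbF]
  rw [Am_diag h]
  by_cases hi : i = ⟨x, hx⟩
  · subst hi
    rw [cF_x Λ S x hx s h0]
    simp
  · simp [hi]

theorem Aeps_symm' {ι : Type*} [Fintype ι] [DecidableEq ι] (Ab : Matrix ι ι ℝ) (hA : Ab.IsSymm)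
    (x : ι) (c : ι → ℝ) (ε : ι → Bool) : (Aeps Ab x c ε).IsSymm := by
  ext i j
  simp only [Matrix.transpose_apply, Aeps]
  rw [hA.apply i j]
  ring

open Classical in
theorem Am_flip (h : Adm T0 κ ρ0 b) {ρ : ℝ} (Λ S : Finset (Fin d → ℤ)) (x : Fin d → ℤ)
    (hx : x ∈ Λ) (s : Sym2 (Fin d → ℤ) → Bool) (h0 : (0 : Fin d → ℤ) ∉ S)
    (hS : ∀ z ∈ S, ‖z‖ ≤ ρ) (ε : Λ → Bool) :
    Am T0 κ ρ Λ (flipS (TF Λ S x ε) s) =
      Aeps (AbF T0 κ ρ Λ S x hx s) ⟨x, hx⟩ (cF κ Λ S x s) ε := by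
  -- row `x`
  have hrow : ∀ j : Λ, Am T0 κ ρ Λ (flipS (TF Λ S x ε) s) ⟨x, hx⟩ j =
      Aeps (AbF T0 κ ρ Λ S x hx s) ⟨x, hx⟩ (cF κ Λ S x s) ε ⟨x, hx⟩ j := by
    intro j
    by_cases hj : j = ⟨x, hx⟩
    · subst hj
      rw [Am_diag h]
      simp only [Aeps, AbF, cF_x Λ S x hx s h0, Am_diag h]
      simp
    · have hjx : (j : Fin d → ℤ) ≠ x := fun hc => hj (Subtype.ext hc)
      simp only [Aeps, AbF, if_neg hj, if_true]
      by_cases hSj : x - (j : Fin d → ℤ) ∈ S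
      · have hn : ‖x - (j : Fin d → ℤ)‖ ≤ ρ := hS _ hSj
        have hflip : sg (flipS (TF Λ S x ε) s s(x, (j : Fin d → ℤ))) =
            sg (ε j) * sg (s s(x, (j : Fin d → ℤ))) := by
          unfold flipS
          have hmem : s(x, (j : Fin d → ℤ)) ∈ TF Λ S x ε ↔ ε j = false := by
            constructor
            · rintro ⟨j', hj', _, h3⟩
              have : (j' : Fin d → ℤ) = j := by
                rcases Sym2.eq_iff.1 hj' with ⟨_, h5⟩ | ⟨h4, h5⟩
                · exact h5.symm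
                · exact absurd h5 hjx
              have : j' = j := Subtype.ext this
              rw [← this]; exact h3
            · intro h3
              exact ⟨j, rfl, hSj, h3⟩
          by_cases h3 : ε j = false
          · rw [if_pos (hmem.2 h3), h3]
            cases s s(x, (j : Fin d → ℤ)) <;> simp [sg]
          · rw [if_neg (fun hc => h3 (hmem.1 hc))]
            have h4 : ε j = true := by simpa using h3
            rw [h4]
            simp [sg]
        have hc : cF κ Λ S x s j = sg (s s(x, (j : Fin d → ℤ))) * κ (x - j) := by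
          unfold cF; rw [if_pos hSj]
        rw [hc]
        unfold Am Kr Kf
        simp only [if_pos hn]
        rw [hflip]
        ring
      · have hc : cF κ Λ S x s j = 0 := by unfold cF; rw [if_neg hSj]
        rw [hc]
        have hflip : flipS (TF Λ S x ε) s s(x, (j : Fin d → ℤ)) = s s(x, (j : Fin d → ℤ)) := by
          unfold flipS
          rw [if_neg]
          rintro ⟨j', hj', h2, _⟩
          have : (j' : Fin d → ℤ) = j := by
            rcases Sym2.eq_iff.1 hj' with ⟨_, h5⟩ | ⟨h4, h5⟩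
            · exact h5.symm
            · exact absurd h5 hjx
          rw [this] at h2
          exact hSj h2
        unfold Am Kr Kf
        rw [hflip]
        simp
  ext i j
  by_cases hi : i = ⟨x, hx⟩
  · subst hi; exact hrow j
  by_cases hj : j = ⟨x, hx⟩
  · subst hj
    rw [← (Am_symm h ρ Λ (flipS (TF Λ S x ε) s)).apply i ⟨x, hx⟩, hrow i]
    exact (Aeps_symm' _ (AbF_symm h ρ Λ S x hx s) _ _ _).apply i ⟨x, hx⟩
  · simp only [Aeps, AbF, if_neg hi, if_neg hj]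
    have hix : (i : Fin d → ℤ) ≠ x := fun hc => hi (Subtype.ext hc)
    have hjx : (j : Fin d → ℤ) ≠ x := fun hc => hj (Subtype.ext hc)
    have hflip : flipS (TF Λ S x ε) s s((i : Fin d → ℤ), (j : Fin d → ℤ)) =
        s s((i : Fin d → ℤ), (j : Fin d → ℤ)) := by
      unfold flipS
      rw [if_neg]
      rintro ⟨j', hj', _, _⟩
      rcases Sym2.eq_iff.1 hj' with ⟨h4, _⟩ | ⟨_, h5⟩
      · exact hix h4
      · exact hjx h5
    unfold Am Kr Kf
    rw [hflip]
    simp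

theorem Pm_meas (h : Adm T0 κ ρ0 b) (ρ η : ℝ) (Λ : Finset (Fin d → ℤ)) (i j : Λ) :
    Measurable fun p : (ℝ × (Λ → ℝ)) × (Sym2 (Fin d → ℤ) → Bool) =>
      Pm (Am T0 κ ρ Λ p.2) p.1.2 p.1.1 η i j := by
  have hsg : Measurable sg := measurable_of_finite _
  refine measurable_Pm (fun p : (ℝ × (Λ → ℝ)) × (Sym2 (Fin d → ℤ) → Bool) => Am T0 κ ρ Λ p.2)
    ?_ (fun p => p.1.2) ?_ (fun p => p.1.1) ?_ η i j
  · intro i j
    unfold Am Kr Kf
    split_ifs
    · refine measurable_const.add (Measurable.mul_const ?_ _)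
      exact hsg.comp ((measurable_pi_apply _).comp measurable_snd)
    · exact measurable_const
  · intro i
    exact (measurable_pi_apply i).comp (measurable_snd.comp measurable_fst)
  · exact measurable_fst.comp measurable_fst

/-- the bad set of `fv_bound` on the lattice -/
theorem fv_lattice (h : Adm T0 κ ρ0 b) (v : NNReal) (hv : v ≠ 0) {ρ : ℝ}
    (Λ S : Finset (Fin d → ℤ)) (x : Fin d → ℤ) (hx : x ∈ Λ) (h0 : (0 : Fin d → ℤ) ∉ S)
    (hS : ∀ z ∈ S, ‖z‖ ≤ ρ) (hSΛ : ∀ z ∈ S, x - z ∈ Λ) (hSn : S.Nonempty) {β B : ℝ}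
    (hβ : 0 < β) (hκ : ∀ z ∈ S, β ≤ |κ z| ∧ |κ z| ≤ B * β) {K W W2 η : ℝ} (hK : 0 < K)
    (hW : 2 * (K + 1) ≤ W) (hη : 0 < η) (hη1 : η ≤ 1) (hW2 : 0 ≤ W2) :
    ((volume.restrict (Icc (-K) K)).prod ((PV d v).prod (Ps d)))
      {p | |p.2.1 x| ≤ W2 ∧
        Pm (Am T0 κ ρ Λ p.2.2) (fun i : Λ => p.2.1 i) p.1 η ⟨x, hx⟩ ⟨x, hx⟩ <
        β ^ 2 * (gaussianPDFReal 0 v W * Real.pi * S.card / 2) / (2 * (W2 + 8 * W) ^ 2)} ≤
      ENNReal.ofReal (9 * Ck K (aC b κ) / W +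
        (16 + 64 * B ^ 2) * K / (gaussianPDFReal 0 v W * Real.pi * S.card * η)) := by
  classical
  set X : Λ := ⟨x, hx⟩ with hX
  set thr := β ^ 2 * (gaussianPDFReal 0 v W * Real.pi * S.card / 2) / (2 * (W2 + 8 * W) ^ 2)
    with hthr
  set bd := 9 * Ck K (aC b κ) / W +
        (16 + 64 * B ^ 2) * K / (gaussianPDFReal 0 v W * Real.pi * S.card * η) with hbd
  set μE := (volume.restrict (Icc (-K) K) : Measure ℝ) with hμE
  set γ : Measure (Λ → ℝ) := Measure.pi fun _ : Λ => gaussianReal 0 v with hγ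
  -- the set in the reordered product
  set D : Set ((ℝ × (Λ → ℝ)) × (Sym2 (Fin d → ℤ) → Bool)) :=
    {q | |q.1.2 X| ≤ W2 ∧ Pm (Am T0 κ ρ Λ q.2) q.1.2 q.1.1 η X X < thr} with hD
  have hDm : MeasurableSet D := by
    refine MeasurableSet.inter ?_ ?_
    · exact measurableSet_le
        ((measurable_pi_apply X).comp (measurable_snd.comp measurable_fst)).abs measurable_const
    · exact measurableSet_lt (Pm_meas h ρ η Λ X X) measurable_const
  -- measure preserving map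
  have hmp1 : MeasurePreserving (MeasurableEquiv.prodAssoc.symm :
      ℝ × (((Fin d → ℤ) → ℝ) × (Sym2 (Fin d → ℤ) → Bool)) → _)
      (μE.prod ((PV d v).prod (Ps d))) ((μE.prod (PV d v)).prod (Ps d)) :=
    (measurePreserving_prodAssoc μE (PV d v) (Ps d)).symm
  have hmp2 : MeasurePreserving (Prod.map (Prod.map id (fun (V : (Fin d → ℤ) → ℝ) (y : Λ) => V y)) id)
      ((μE.prod (PV d v)).prod (Ps d)) ((μE.prod γ).prod (Ps d)) :=
    ((MeasurePreserving.id μE).prod (restrict_mp v Λ)).prod (MeasurePreserving.id (Ps d))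
  have hmp := hmp2.comp hmp1
  have hset : {p : ℝ × (((Fin d → ℤ) → ℝ) × (Sym2 (Fin d → ℤ) → Bool)) | |p.2.1 x| ≤ W2 ∧
        Pm (Am T0 κ ρ Λ p.2.2) (fun i : Λ => p.2.1 i) p.1 η X X < thr} =
      ((Prod.map (Prod.map id (fun (V : (Fin d → ℤ) → ℝ) (y : Λ) => V y)) id) ∘
        (MeasurableEquiv.prodAssoc.symm :
          ℝ × (((Fin d → ℤ) → ℝ) × (Sym2 (Fin d → ℤ) → Bool)) → _)) ⁻¹' D := by
    ext p
    rfl
  rw [hset, hmp.measure_preimage hDm.nullMeasurableSet]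
  rw [Measure.prod_apply_symm hDm]
  set F : (Sym2 (Fin d → ℤ) → Bool) → ENNReal := fun s => (μE.prod γ) ((fun q => (q, s)) ⁻¹' D)
    with hF
  have hFm : Measurable F := measurable_measure_prodMk_right hDm
  -- average over flips
  have hflip : ∀ ε : Λ → Bool, ∫⁻ s, F (flipS (TF Λ S x ε) s) ∂(Ps d) = ∫⁻ s, F s ∂(Ps d) :=
    fun ε => (flip_mp (TF Λ S x ε)).lintegral_comp hFm
  have hpt : ∀ s, ∑ ε : Λ → Bool, F (flipS (TF Λ S x ε) s) ≤
      2 ^ (Fintype.card Λ) * ENNReal.ofReal bd := by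
    intro s
    have hcard : (Finset.univ.filter fun j : Λ => x - (j : Fin d → ℤ) ∈ S).card = S.card := by
      refine Finset.card_bij (fun j _ => x - (j : Fin d → ℤ)) ?_ ?_ ?_
      · intro j hj
        exact (Finset.mem_filter.1 hj).2
      · intro i _ j _ hij
        exact Subtype.ext (by simpa using hij)
      · intro z hz
        refine ⟨⟨x - z, hSΛ z hz⟩, ?_, ?_⟩
        · simp [hz]
        · simp
    have := fv_bound (ι := Λ) v hv (AbF T0 κ ρ Λ S x hx s) (AbF_symm h ρ Λ S x hx s)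
      (AbF_diag h ρ Λ S x hx s h0) X (cF κ Λ S x s)
      (Finset.univ.filter fun j : Λ => x - (j : Fin d → ℤ) ∈ S) (by
        obtain ⟨z, hz⟩ := hSn
        exact ⟨⟨x - z, hSΛ z hz⟩, by simp [hz]⟩) (by simp [hX, h0]) (by
        intro i hi
        unfold cF
        rw [if_neg]
        intro hc
        exact hi (by simp [hc])) (β := β) (B := B) hβ (by
        intro i hi
        have hi' := (Finset.mem_filter.1 hi).2
        unfold cF
        rw [if_pos hi', abs_mul, asm_abs_sg, one_mul]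
        exact (hκ _ hi').1) (by
        intro i hi
        have hi' := (Finset.mem_filter.1 hi).2
        unfold cF
        rw [if_pos hi', abs_mul, asm_abs_sg, one_mul]
        exact (hκ _ hi').2) (a := aC b κ) (K := K) (W := W) (W2 := W2) (η := η) (by
        intro ε i
        rw [← Am_flip h Λ S x hx s h0 hS ε]
        exact Am_row h ρ Λ _ i) hK hW hη hη1 hW2
    rw [hcard] at this
    refine le_trans (le_of_eq ?_) this
    refine Finset.sum_congr rfl fun ε _ => ?_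
    simp only [hF]
    congr 1
    ext q
    simp only [hD, Set.mem_preimage, Set.mem_ofPred_eq]
    rw [Am_flip h Λ S x hx s h0 hS ε]
  have h2 : (2 : ENNReal) ^ (Fintype.card Λ) * ∫⁻ s, F s ∂(Ps d) ≤
      2 ^ (Fintype.card Λ) * ENNReal.ofReal bd := by
    calc (2 : ENNReal) ^ (Fintype.card Λ) * ∫⁻ s, F s ∂(Ps d)
        = ∑ ε : Λ → Bool, ∫⁻ s, F s ∂(Ps d) := by
          rw [Finset.sum_const, Finset.card_univ, Fintype.card_fun, Fintype.card_bool,
            nsmul_eq_mul]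
          norm_num
      _ = ∑ ε : Λ → Bool, ∫⁻ s, F (flipS (TF Λ S x ε) s) ∂(Ps d) :=
          Finset.sum_congr rfl fun ε _ => (hflip ε).symm
      _ = ∫⁻ s, ∑ ε : Λ → Bool, F (flipS (TF Λ S x ε) s) ∂(Ps d) := by
          rw [lintegral_finset_sum]
          intro ε _
          exact hFm.comp (flip_mp (TF Λ S x ε)).measurable
      _ ≤ ∫⁻ _s, 2 ^ (Fintype.card Λ) * ENNReal.ofReal bd ∂(Ps d) := lintegral_mono hpt
      _ = 2 ^ (Fintype.card Λ) * ENNReal.ofReal bd := by simp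
  have h3 : (2 : ENNReal) ^ (Fintype.card Λ) ≠ 0 := by positivity
  have h4 : (2 : ENNReal) ^ (Fintype.card Λ) ≠ ⊤ := by
    exact ENNReal.pow_ne_top (by norm_num)
  exact (ENNReal.mul_le_mul_iff_right h3 h4).1 h2

end H10PL
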