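import Pool.Agent.H10R2.PL.SWA

/-! No square summable eigenfunction for a nonreal energy. -/

namespace H10PL

open MeasureTheory ProbabilityTheory Matrix Set Filter Topology

variable {d : ℕ} {T0 : (Fin d → ℤ) → (Fin d → ℤ) → ℝ} {κ : (Fin d → ℤ) → ℝ} {ρ0 b : ℝ}

/-- the commutator with an admissible cut-off is small -/
theorem cplx_comm_bound (h : Adm T0 κ ρ0 b) (s : Sym2 (Fin d → ℤ) → Bool) {ε : ℝ} (hε : 0 ≤ ε)
    (χ : (Fin d → ℤ) →₀ ℝ)
    (hχ3 : ∀ (Λ : Finset (Fin d → ℤ)) (u v : (Fin d → ℤ) → ℝ),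
      |∑ y ∈ Λ, ∑ w ∈ Λ, (χ y - χ w) * Kf T0 κ s y w * (u y * v w)| ≤
        ε * (∑ y ∈ Λ, u y ^ 2 + ∑ y ∈ Λ, v y ^ 2))
    (ψ φ : (Fin d → ℤ) → ℝ) (hψ1 : Summable fun y => ψ y ^ 2) (hφ1 : Summable fun y => φ y ^ 2) :
    |∑ y ∈ χ.support, χ y * φ y * ∑' w, Kf T0 κ s y w * ψ w -
      ∑ w ∈ χ.support, χ w * ψ w * ∑' y, Kf T0 κ s w y * φ y| ≤
      ε * (∑' y, φ y ^ 2 + ∑' y, ψ y ^ 2) := by
  classical
  set S := ∑ y ∈ χ.support, χ y * φ y * ∑' w, Kf T0 κ s y w * ψ w -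
    ∑ w ∈ χ.support, χ w * ψ w * ∑' y, Kf T0 κ s w y * φ y with hS
  have hlim : Tendsto (fun Λ : Finset (Fin d → ℤ) =>
      ∑ y ∈ Λ, ∑ w ∈ Λ, (χ y - χ w) * Kf T0 κ s y w * (φ y * ψ w)) atTop (𝓝 S) := by
    have h1 : Tendsto (fun Λ : Finset (Fin d → ℤ) =>
        ∑ y ∈ χ.support, χ y * φ y * ∑ w ∈ Λ, Kf T0 κ s y w * ψ w -
        ∑ w ∈ χ.support, χ w * ψ w * ∑ y ∈ Λ, Kf T0 κ s w y * φ y) atTop (𝓝 S) := by
      apply Tendsto.sub
      · apply tendsto_finsetSum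
        intro y _
        exact ((cs_tsum (Kf_sq_summable h s y) hψ1).1.hasSum).const_mul _
      · apply tendsto_finsetSum
        intro y _
        exact ((cs_tsum (Kf_sq_summable h s y) hφ1).1.hasSum).const_mul _
    refine h1.congr' ?_
    filter_upwards [eventually_ge_atTop χ.support] with Λ hΛ
    have h2 : ∑ y ∈ Λ, ∑ w ∈ Λ, (χ y - χ w) * Kf T0 κ s y w * (φ y * ψ w) =
        ∑ y ∈ Λ, χ y * φ y * ∑ w ∈ Λ, Kf T0 κ s y w * ψ w -
        ∑ w ∈ Λ, χ w * ψ w * ∑ y ∈ Λ, Kf T0 κ s w y * φ y := by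
      have h3 : ∑ w ∈ Λ, χ w * ψ w * ∑ y ∈ Λ, Kf T0 κ s w y * φ y =
          ∑ y ∈ Λ, ∑ w ∈ Λ, χ w * Kf T0 κ s y w * (φ y * ψ w) := by
        rw [Finset.sum_comm]
        refine Finset.sum_congr rfl fun w _ => ?_
        rw [Finset.mul_sum]
        refine Finset.sum_congr rfl fun y _ => ?_
        rw [Kf_symm h s w y]
        ring
      rw [h3, ← Finset.sum_sub_distrib]
      refine Finset.sum_congr rfl fun y _ => ?_
      rw [Finset.mul_sum, ← Finset.sum_sub_distrib]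
      refine Finset.sum_congr rfl fun w _ => ?_
      ring
    rw [h2]
    congr 1
    · refine Finset.sum_subset hΛ fun y _ hy => ?_
      rw [Finsupp.notMem_support_iff.mp hy]
      ring
    · refine Finset.sum_subset hΛ fun y _ hy => ?_
      rw [Finsupp.notMem_support_iff.mp hy]
      ring
  have hle : ∀ Λ : Finset (Fin d → ℤ),
      |∑ y ∈ Λ, ∑ w ∈ Λ, (χ y - χ w) * Kf T0 κ s y w * (φ y * ψ w)| ≤
        ε * (∑' y, φ y ^ 2 + ∑' y, ψ y ^ 2) := by
    intro Λ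
    refine (hχ3 Λ φ ψ).trans ?_
    apply mul_le_mul_of_nonneg_left _ hε
    have h5 := hφ1.sum_le_tsum Λ (fun y _ => sq_nonneg _)
    have h6 := hψ1.sum_le_tsum Λ (fun y _ => sq_nonneg _)
    linarith
  exact le_of_tendsto' hlim.abs hle

/-- no eigenfunction `a + i b` for a nonreal energy `p + i q` -/
theorem cplx_ev (h : Adm T0 κ ρ0 b) (s : Sym2 (Fin d → ℤ) → Bool) (hc : CutOK T0 κ s)
    (V : (Fin d → ℤ) → ℝ) (p q : ℝ) (hq : q ≠ 0) (f g : (Fin d → ℤ) → ℝ)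
    (hf : Summable fun y => f y ^ 2) (hg : Summable fun y => g y ^ 2)
    (h1 : ∀ y, (∑' w, Kf T0 κ s y w * f w) + V y * f y = p * f y - q * g y)
    (h2 : ∀ y, (∑' w, Kf T0 κ s y w * g w) + V y * g y = p * g y + q * f y) :
    f = 0 ∧ g = 0 := by
  have hq' : 0 < |q| := abs_pos.mpr hq
  have key : ∀ x, f x ^ 2 + g x ^ 2 ≤ 0 := by
    intro x
    set n := ∑' y, g y ^ 2 + ∑' y, f y ^ 2 with hn
    have hn0 : 0 ≤ n := add_nonneg (tsum_nonneg fun y => sq_nonneg _) (tsum_nonneg fun y => sq_nonneg _)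
    apply le_of_forall_pos_le_add
    intro ε hε
    rw [zero_add]
    have hε' : 0 < |q| * ε / (n + 1) := by positivity
    obtain ⟨χ, hχ1, hχ2, hχ3⟩ := hc (|q| * ε / (n + 1)) hε' {x}
    have hχx : χ x = 1 := hχ2 x (Finset.mem_singleton_self x)
    have hS := cplx_comm_bound h s hε'.le χ hχ3 f g hf hg
    have hid : ∑ y ∈ χ.support, χ y * g y * ∑' w, Kf T0 κ s y w * f w -
        ∑ w ∈ χ.support, χ w * f w * ∑' y, Kf T0 κ s w y * g y =
        -(q * ∑ y ∈ χ.support, χ y * (f y ^ 2 + g y ^ 2)) := by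
      rw [← Finset.sum_sub_distrib, Finset.mul_sum, ← Finset.sum_neg_distrib]
      refine Finset.sum_congr rfl fun y _ => ?_
      linear_combination (χ y * g y) * h1 y - (χ y * f y) * h2 y
    rw [hid, abs_neg, abs_mul] at hS
    have hnn : 0 ≤ ∑ y ∈ χ.support, χ y * (f y ^ 2 + g y ^ 2) :=
      Finset.sum_nonneg fun y _ => mul_nonneg (hχ1 y).1 (by positivity)
    have hx : f x ^ 2 + g x ^ 2 ≤ ∑ y ∈ χ.support, χ y * (f y ^ 2 + g y ^ 2) := by
      have h3 : x ∈ χ.support := by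
        rw [Finsupp.mem_support_iff, hχx]; exact one_ne_zero
      have h4 := Finset.single_le_sum (f := fun y => χ y * (f y ^ 2 + g y ^ 2))
        (fun y _ => mul_nonneg (hχ1 y).1 (by positivity)) h3
      simpa [hχx] using h4
    rw [abs_of_nonneg hnn] at hS
    have h5 : |q| * (f x ^ 2 + g x ^ 2) ≤ |q| * ε := by
      calc |q| * (f x ^ 2 + g x ^ 2) ≤ |q| * ∑ y ∈ χ.support, χ y * (f y ^ 2 + g y ^ 2) :=
            mul_le_mul_of_nonneg_left hx hq'.le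
        _ ≤ |q| * ε / (n + 1) * n := hS
        _ ≤ |q| * ε / (n + 1) * (n + 1) := mul_le_mul_of_nonneg_left (by linarith) hε'.le
        _ = |q| * ε := by field_simp
    exact le_of_mul_le_mul_left h5 hq'
  constructor
  · funext x
    have := key x
    have h3 : f x ^ 2 = 0 := by nlinarith [sq_nonneg (f x), sq_nonneg (g x)]
    simpa using h3
  · funext x
    have := key x
    have h3 : g x ^ 2 = 0 := by nlinarith [sq_nonneg (f x), sq_nonneg (g x)]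
    simpa using h3

end H10PL
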