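import Mathlib

/-! A numerical series for the Borel-Cantelli argument in `Cut.lean`. -/

namespace H10PL

theorem exp_two_gt : (7 : ℝ) ≤ Real.exp 2 := by
  have h := Real.exp_one_gt_d9
  have : Real.exp 2 = Real.exp 1 * Real.exp 1 := by rw [← Real.exp_add]; norm_num
  rw [this]; nlinarith

theorem two_pow_le_exp (n : ℕ) : (2 : ℝ) ^ n ≤ Real.exp n := by
  have h := Real.exp_one_gt_d9
  calc (2 : ℝ) ^ n ≤ (Real.exp 1) ^ n := pow_le_pow_left₀ (by norm_num) (by linarith) n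
    _ = Real.exp n := by rw [← Real.exp_nat_mul]; simp

theorem cut_event (c δ b : ℝ) (hδ : 0 < δ) (hb : 0 < b) :
    ∀ᶠ j : ℕ in Filter.atTop, c * (j + 1) + j ≤ b * (2 : ℝ) ^ (δ * j) := by
  have hr : 1 < (2 : ℝ) ^ δ := Real.one_lt_rpow (by norm_num) hδ
  have h1 := tendsto_pow_const_div_const_pow_of_one_lt 1 hr
  have h0 := tendsto_pow_const_div_const_pow_of_one_lt 0 hr
  have h2 := (h1.const_mul (c + 1)).add (h0.const_mul c)
  simp only [mul_zero, add_zero] at h2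
  filter_upwards [h2.eventually_lt_const hb] with j hj
  have hpos : 0 < ((2 : ℝ) ^ δ) ^ j := by positivity
  have e : (c + 1) * ((j : ℝ) ^ 1 / ((2 : ℝ) ^ δ) ^ j) + c * ((j : ℝ) ^ 0 / ((2 : ℝ) ^ δ) ^ j) =
      (c * (j + 1) + j) / ((2 : ℝ) ^ δ) ^ j := by
    field_simp; ring
  rw [e, div_lt_iff₀ hpos] at hj
  rw [Real.rpow_mul (by norm_num), Real.rpow_natCast]
  exact hj.le

theorem cut_num (d : ℕ) (C a : ℝ) (hC : 0 < C) (ha : (d : ℝ) / 2 < a) :
    Summable fun j : ℕ =>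
      ((2 * (2 * 2 ^ ((d + 2) * j) + 1) + 1 : ℝ) ^ d * 5 ^ d) *
        ((2 * ((2 : ℝ) ^ (j * d)) ^ 2 + 1) ^ (2 * 2 ^ (j * d)) *
          (2 * Real.exp (-((2 : ℝ) ^ (-((a - d / 2) / 2 * j))) ^ 2 /
            (4 * (C * (2 : ℝ) ^ (-(a * j))) ^ 2)))) := by
  set c : ℝ := 4 * d + d * (d + 2) + 4 + 4 * d + 1 with hc
  have hev := cut_event c (a - d / 2) (1 / (4 * C ^ 2)) (by linarith) (by positivity)
  refine Summable.of_norm_bounded_eventually_nat Real.summable_exp_neg_nat ?_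
  filter_upwards [hev] with j hj
  have hexp : -((2 : ℝ) ^ (-((a - d / 2) / 2 * j))) ^ 2 / (4 * (C * (2 : ℝ) ^ (-(a * j))) ^ 2) =
      -((1 / (4 * C ^ 2)) * ((2 : ℝ) ^ ((a - d / 2) * j) * (2 : ℝ) ^ (j * d))) := by
    have e1 : ((2 : ℝ) ^ (-((a - d / 2) / 2 * j))) ^ 2 = (2 : ℝ) ^ (-((a - d / 2) * j)) := by
      rw [← Real.rpow_natCast, ← Real.rpow_mul (by norm_num)]
      congr 1; push_cast; ring
    have e2 : ((2 : ℝ) ^ (-(a * j))) ^ 2 = (2 : ℝ) ^ (-(2 * a * j)) := by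
      rw [← Real.rpow_natCast, ← Real.rpow_mul (by norm_num)]
      congr 1; push_cast; ring
    have e3 : (2 : ℝ) ^ (j * d) = (2 : ℝ) ^ ((j : ℝ) * d) := by
      rw [← Nat.cast_mul, Real.rpow_natCast]
    have e4 : (2 : ℝ) ^ (-((a - d / 2) * j)) =
        (2 : ℝ) ^ ((a - d / 2) * j) * (2 : ℝ) ^ ((j : ℝ) * d) * (2 : ℝ) ^ (-(2 * a * j)) := by
      rw [← Real.rpow_add (by norm_num), ← Real.rpow_add (by norm_num)]
      congr 1; ring
    rw [e1, mul_pow, e2, e3, e4]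
    have : (2 : ℝ) ^ (-(2 * a * j)) ≠ 0 := by positivity
    field_simp
  rw [hexp]
  set N : ℝ := (2 : ℝ) ^ (j * d) with hN
  have hN1 : 1 ≤ N := one_le_pow₀ (by norm_num)
  have hj0 : (0 : ℝ) ≤ j := Nat.cast_nonneg j
  have hd0 : (0 : ℝ) ≤ d := Nat.cast_nonneg d
  have h7 := exp_two_gt
  -- first factor
  have hX1 : (1 : ℝ) ≤ 2 ^ ((d + 2) * j) := one_le_pow₀ (by norm_num)
  have t1 : (2 * (2 * 2 ^ ((d + 2) * j) + 1) + 1 : ℝ) ^ d * 5 ^ d ≤
      Real.exp (d * (4 + (d + 2) * j)) := by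
    have a1 : (2 * (2 * 2 ^ ((d + 2) * j) + 1) + 1 : ℝ) ≤ Real.exp (2 + (d + 2) * j) := by
      have b1 := two_pow_le_exp ((d + 2) * j)
      push_cast at b1
      rw [Real.exp_add]
      calc (2 * (2 * 2 ^ ((d + 2) * j) + 1) + 1 : ℝ) ≤ 7 * 2 ^ ((d + 2) * j) := by linarith
        _ ≤ Real.exp 2 * Real.exp ((d + 2) * j) :=
          mul_le_mul h7 b1 (by positivity) (by positivity)
    have a2 : (5 : ℝ) ≤ Real.exp 2 := by linarith
    calc (2 * (2 * 2 ^ ((d + 2) * j) + 1) + 1 : ℝ) ^ d * 5 ^ d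
        ≤ (Real.exp (2 + (d + 2) * j)) ^ d * (Real.exp 2) ^ d :=
          mul_le_mul (pow_le_pow_left₀ (by positivity) a1 d) (pow_le_pow_left₀ (by norm_num) a2 d)
            (by positivity) (by positivity)
      _ = Real.exp (d * (4 + (d + 2) * j)) := by
          rw [← Real.exp_nat_mul, ← Real.exp_nat_mul, ← Real.exp_add]
          congr 1; ring
  -- second factor
  have t2 : (2 * N ^ 2 + 1) ^ (2 * 2 ^ (j * d)) ≤ Real.exp ((2 + 2 * (j * d)) * (2 * N)) := by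
    have b1 := two_pow_le_exp (j * d)
    rw [← hN] at b1
    push_cast at b1
    have a1 : 2 * N ^ 2 + 1 ≤ Real.exp (2 + 2 * (j * d)) := by
      rw [Real.exp_add, two_mul ((j : ℝ) * d), Real.exp_add]
      calc 2 * N ^ 2 + 1 ≤ 7 * (N * N) := by nlinarith
        _ ≤ Real.exp 2 * (Real.exp (j * d) * Real.exp (j * d)) := by
          apply mul_le_mul h7 (mul_le_mul b1 b1 (by positivity) (by positivity)) (by positivity)
            (by positivity)
    calc (2 * N ^ 2 + 1) ^ (2 * 2 ^ (j * d)) ≤ (Real.exp (2 + 2 * (j * d))) ^ (2 * 2 ^ (j * d)) :=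
          pow_le_pow_left₀ (by positivity) a1 _
      _ = Real.exp ((2 + 2 * (j * d)) * (2 * N)) := by
          rw [← Real.exp_nat_mul]
          congr 1
          push_cast
          rw [← hN]
          ring
  have t3 : (2 : ℝ) ≤ Real.exp 1 := by have := Real.exp_one_gt_d9; linarith
  rw [Real.norm_of_nonneg (by positivity)]
  calc (2 * (2 * 2 ^ ((d + 2) * j) + 1) + 1 : ℝ) ^ d * 5 ^ d *
        ((2 * N ^ 2 + 1) ^ (2 * 2 ^ (j * d)) *
          (2 * Real.exp (-(1 / (4 * C ^ 2) * (2 ^ ((a - d / 2) * j) * N)))))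
      ≤ Real.exp (d * (4 + (d + 2) * j)) * (Real.exp ((2 + 2 * (j * d)) * (2 * N)) *
          (Real.exp 1 * Real.exp (-(1 / (4 * C ^ 2) * (2 ^ ((a - d / 2) * j) * N))))) := by
        apply mul_le_mul t1 _ (by positivity) (by positivity)
        apply mul_le_mul t2 _ (by positivity) (by positivity)
        exact mul_le_mul_of_nonneg_right t3 (by positivity)
    _ = Real.exp (d * (4 + (d + 2) * j) + (2 + 2 * (j * d)) * (2 * N) + 1 -
          N * (1 / (4 * C ^ 2) * 2 ^ ((a - d / 2) * j))) := by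
        rw [← Real.exp_add, ← Real.exp_add, ← Real.exp_add]
        congr 1; ring
    _ ≤ Real.exp (-j) := by
        apply Real.exp_le_exp.mpr
        have k1 : N * (c * (j + 1) + j) ≤ N * (1 / (4 * C ^ 2) * 2 ^ ((a - d / 2) * j)) :=
          mul_le_mul_of_nonneg_left hj (by linarith)
        have k2 : (d : ℝ) * (4 + (d + 2) * j) ≤ N * ((4 * d + d * (d + 2)) * (j + 1)) := by
          have m1 : (d : ℝ) * (4 + (d + 2) * j) ≤ (4 * d + d * (d + 2)) * (j + 1) := by nlinarith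
          have m2 : 0 ≤ (4 * (d : ℝ) + d * (d + 2)) * (j + 1) := by positivity
          nlinarith
        have k3 : (2 + 2 * ((j : ℝ) * d)) * (2 * N) ≤ N * ((4 + 4 * d) * (j + 1)) := by
          have m1 : (2 + 2 * ((j : ℝ) * d)) * 2 ≤ (4 + 4 * d) * (j + 1) := by nlinarith
          nlinarith
        have k4 : (1 : ℝ) ≤ N * (j + 1) := by nlinarith
        have k5 : (j : ℝ) ≤ N * j := by nlinarith
        have k6 : N * (c * (j + 1) + j) = N * ((4 * d + d * (d + 2)) * (j + 1)) +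
            N * ((4 + 4 * d) * (j + 1)) + N * (j + 1) + N * j := by rw [hc]; ring
        linarith

end H10PL
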