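import Pool.Agent.H10R2.PL.Defs

/-!
Norm of a random sign matrix: tail bound and union bound over a grid.
-/

namespace H10PL

open MeasureTheory ProbabilityTheory Matrix Set Filter Topology

section lattice

variable {d : ℕ}

theorem sg_measurable : Measurable sg := measurable_of_finite _

theorem sg_integral : ∫ c, sg c ∂coin = 0 := by
  unfold coin
  rw [PMF.integral_eq_sum]
  simp [sg]

theorem sg_subG (e : Sym2 (Fin d → ℤ)) :
    HasSubgaussianMGF (fun s : Sym2 (Fin d → ℤ) → Bool => sg (s e)) 1 (Ps d) := by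
  have hm : Measurable (fun s : Sym2 (Fin d → ℤ) → Bool => sg (s e)) :=
    sg_measurable.comp (measurable_pi_apply e)
  have hb : ∀ᵐ s ∂(Ps d), (fun s : Sym2 (Fin d → ℤ) → Bool => sg (s e)) s ∈
      Set.Icc (-1 : ℝ) 1 := by
    refine ae_of_all _ fun s => ?_
    show sg (s e) ∈ Set.Icc (-1 : ℝ) 1
    unfold sg
    split_ifs <;> norm_num
  have hi : ∫ s, (fun s : Sym2 (Fin d → ℤ) → Bool => sg (s e)) s ∂(Ps d) = 0 := by
    have h1 := (measurePreserving_eval_infinitePi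
      (fun _ : Sym2 (Fin d → ℤ) => coin) e)
    have h2 : ∫ c, sg c ∂((Ps d).map (Function.eval e)) = 0 := by
      unfold Ps
      rw [h1.map_eq]
      exact sg_integral
    rw [integral_map h1.measurable.aemeasurable sg_measurable.aestronglyMeasurable] at h2
    exact h2
  have h := hasSubgaussianMGF_of_mem_Icc_of_integral_eq_zero hm.aemeasurable hb hi
  have e1 : ((‖(1 : ℝ) - -1‖₊ / 2) ^ 2 : NNReal) = 1 := by
    have : ‖(1 : ℝ) - -1‖₊ = 2 := by
      rw [sub_neg_eq_add, one_add_one_eq_two]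
      exact Real.nnnorm_ofNat 2
    rw [this]
    norm_num
  rw [e1] at h
  exact h

/-- one-sided tail bound for a form in random signs -/
theorem form_tail_one (B B' : Finset (Fin d → ℤ)) (c : (Fin d → ℤ) → (Fin d → ℤ) → ℝ)
    (σ t : ℝ) (ht : 0 ≤ t) (hσ : 0 < σ) (hc : ∑ y ∈ B, ∑ w ∈ B', c y w ^ 2 ≤ σ) :
    (Ps d).real {s | t ≤ ∑ y ∈ B, ∑ w ∈ B', sg (s s(y, w)) * c y w} ≤
      Real.exp (-t ^ 2 / (4 * σ)) := by
  classical
  set P := B ×ˢ B' with hP
  set q : (Fin d → ℤ) × (Fin d → ℤ) → Sym2 (Fin d → ℤ) := fun p => s(p.1, p.2) with hq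
  set Ed := P.image q with hEd
  set C : Sym2 (Fin d → ℤ) → ℝ := fun e => ∑ p ∈ P.filter (fun p => q p = e), c p.1 p.2 with hC
  have hform : ∀ s : Sym2 (Fin d → ℤ) → Bool,
      ∑ y ∈ B, ∑ w ∈ B', sg (s s(y, w)) * c y w = ∑ e ∈ Ed, C e * sg (s e) := by
    intro s
    rw [← Finset.sum_product' B B' (fun y w => sg (s s(y, w)) * c y w)]
    rw [← Finset.sum_fiberwise_of_maps_to (s := P) (t := Ed) (g := q)
      (fun p hp => Finset.mem_image_of_mem q hp)]
    refine Finset.sum_congr rfl fun e _ => ?_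
    rw [hC, Finset.sum_mul]
    refine Finset.sum_congr rfl fun p hp => ?_
    have hpe : q p = e := (Finset.mem_filter.mp hp).2
    rw [← hpe, mul_comm]
  have hC2 : ∑ e ∈ Ed, C e ^ 2 ≤ 2 * σ := by
    have h1 : ∀ e ∈ Ed, C e ^ 2 ≤ 2 * ∑ p ∈ P.filter (fun p => q p = e), c p.1 p.2 ^ 2 := by
      intro e _
      refine (sq_sum_le_card_mul_sum_sq).trans ?_
      have hcard : (P.filter (fun p => q p = e)).card ≤ 2 := by
        induction e using Sym2.ind with
        | _ y w =>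
          have hsub : P.filter (fun p => q p = s(y, w)) ⊆ {(y, w), (w, y)} := by
            intro p hp
            have h2 : s(p.1, p.2) = s(y, w) := (Finset.mem_filter.mp hp).2
            rw [Sym2.eq_iff] at h2
            rw [Finset.mem_insert, Finset.mem_singleton]
            rcases h2 with ⟨h3, h4⟩ | ⟨h3, h4⟩
            · exact Or.inl (Prod.ext h3 h4)
            · exact Or.inr (Prod.ext h3 h4)
          exact (Finset.card_le_card hsub).trans Finset.card_le_two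
      have h3 : ((P.filter (fun p => q p = e)).card : ℝ) ≤ 2 := by exact_mod_cast hcard
      exact mul_le_mul_of_nonneg_right h3 (Finset.sum_nonneg fun _ _ => sq_nonneg _)
    calc ∑ e ∈ Ed, C e ^ 2 ≤ ∑ e ∈ Ed, 2 * ∑ p ∈ P.filter (fun p => q p = e), c p.1 p.2 ^ 2 :=
          Finset.sum_le_sum h1
      _ = 2 * ∑ p ∈ P, c p.1 p.2 ^ 2 := by
          rw [← Finset.mul_sum, Finset.sum_fiberwise_of_maps_to
            (fun p hp => Finset.mem_image_of_mem q hp)]
      _ ≤ 2 * σ := by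
          rw [hP, Finset.sum_product' B B' (fun y w => c y w ^ 2)]
          linarith
  have hind : iIndepFun (fun e (s : Sym2 (Fin d → ℤ) → Bool) => C e * sg (s e)) (Ps d) :=
    iIndepFun_infinitePi (X := fun e (b : Bool) => C e * sg b)
      (fun e => sg_measurable.const_mul _)
  set cN : Sym2 (Fin d → ℤ) → NNReal := fun e => Real.toNNReal (C e ^ 2) with hcN
  have hcN' : ∀ e, ((cN e : NNReal) : ℝ) = C e ^ 2 := fun e => Real.coe_toNNReal _ (sq_nonneg _)
  have hsub : ∀ e ∈ Ed, HasSubgaussianMGF (fun s : Sym2 (Fin d → ℤ) → Bool => C e * sg (s e))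
      (cN e) (Ps d) := by
    intro e _
    have h := (sg_subG e).const_mul (C e)
    refine ⟨h.integrable_exp_mul, fun r => (h.mgf_le r).trans (le_of_eq ?_)⟩
    rw [hcN']
    have h1 : (1 : NNReal) = (⟨1, zero_le_one⟩ : NNReal) := rfl
    congr 3
    show C e ^ 2 * 1 = C e ^ 2
    ring
  have hs := HasSubgaussianMGF.sum_of_iIndepFun hind hsub
  have hv : ((∑ e ∈ Ed, cN e : NNReal) : ℝ) ≤ 2 * σ := by
    rw [NNReal.coe_sum]
    simp only [hcN']
    exact hC2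
  set σN : NNReal := Real.toNNReal (2 * σ) with hσN
  have hσN' : (σN : ℝ) = 2 * σ := Real.coe_toNNReal _ (by positivity)
  have hs2 : HasSubgaussianMGF (fun s : Sym2 (Fin d → ℤ) → Bool => ∑ e ∈ Ed, C e * sg (s e))
      σN (Ps d) := by
    refine ⟨hs.integrable_exp_mul, fun r => (hs.mgf_le r).trans (Real.exp_le_exp.mpr ?_)⟩
    have : (0 : ℝ) ≤ r ^ 2 := sq_nonneg r
    rw [hσN']
    nlinarith
  have h5 := hs2.measure_ge_le ht
  have h6 : {s : Sym2 (Fin d → ℤ) → Bool | t ≤ ∑ y ∈ B, ∑ w ∈ B', sg (s s(y, w)) * c y w} =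
      {s | t ≤ ∑ e ∈ Ed, C e * sg (s e)} := by
    ext s
    rw [Set.mem_ofPred_eq, Set.mem_ofPred_eq, hform s]
  rw [h6]
  refine h5.trans (le_of_eq ?_)
  rw [hσN']
  congr 2
  ring

/-- two-sided tail bound for a form in random signs -/
theorem form_tail (B B' : Finset (Fin d → ℤ)) (c : (Fin d → ℤ) → (Fin d → ℤ) → ℝ)
    (σ t : ℝ) (ht : 0 ≤ t) (hσ : 0 < σ) (hc : ∑ y ∈ B, ∑ w ∈ B', c y w ^ 2 ≤ σ) :
    Ps d {s | t ≤ |∑ y ∈ B, ∑ w ∈ B', sg (s s(y, w)) * c y w|} ≤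
      ENNReal.ofReal (2 * Real.exp (-t ^ 2 / (4 * σ))) := by
  have h1 := form_tail_one B B' c σ t ht hσ hc
  have h2 := form_tail_one B B' (fun y w => -c y w) σ t ht hσ (by simpa using hc)
  have hsub : {s : Sym2 (Fin d → ℤ) → Bool | t ≤ |∑ y ∈ B, ∑ w ∈ B', sg (s s(y, w)) * c y w|} ⊆
      {s | t ≤ ∑ y ∈ B, ∑ w ∈ B', sg (s s(y, w)) * c y w} ∪
      {s | t ≤ ∑ y ∈ B, ∑ w ∈ B', sg (s s(y, w)) * -c y w} := by
    intro s hs
    have hs' : t ≤ |∑ y ∈ B, ∑ w ∈ B', sg (s s(y, w)) * c y w| := hs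
    rcases le_abs.mp hs' with h | h
    · exact Or.inl h
    · right
      show t ≤ _
      simp only [mul_neg, Finset.sum_neg_distrib]
      exact h
  refine (measure_mono hsub).trans ((measure_union_le _ _).trans ?_)
  rw [two_mul, ENNReal.ofReal_add (Real.exp_pos _).le (Real.exp_pos _).le]
  refine add_le_add ?_ ?_
  · rw [← ENNReal.ofReal_toReal (measure_ne_top (Ps d) _)]
    exact ENNReal.ofReal_le_ofReal h1
  · rw [← ENNReal.ofReal_toReal (measure_ne_top (Ps d) _)]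
    exact ENNReal.ofReal_le_ofReal h2

/-- rounding towards zero on the grid of mesh `1/N` -/
noncomputable def rz (N : ℕ) (x : ℝ) : ℤ := if 0 ≤ x then ⌊(N : ℝ) * x⌋ else ⌈(N : ℝ) * x⌉

theorem rz_abs (N : ℕ) (x : ℝ) : |(rz N x : ℝ)| ≤ N * |x| := by
  unfold rz
  have hN : (0 : ℝ) ≤ N := Nat.cast_nonneg N
  split_ifs with h
  · rw [abs_of_nonneg h]
    have h1 : (0 : ℝ) ≤ N * x := mul_nonneg hN h
    have h2 : (0 : ℤ) ≤ ⌊(N : ℝ) * x⌋ := Int.floor_nonneg.mpr h1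
    have h3 : (0 : ℝ) ≤ (⌊(N : ℝ) * x⌋ : ℝ) := by exact_mod_cast h2
    rw [abs_of_nonneg h3]
    exact Int.floor_le _
  · have h' : x ≤ 0 := (not_le.mp h).le
    rw [abs_of_nonpos h']
    have h1 : (N : ℝ) * x ≤ 0 := mul_nonpos_of_nonneg_of_nonpos hN h'
    have h2 : ⌈(N : ℝ) * x⌉ ≤ 0 := Int.ceil_le.mpr (by exact_mod_cast h1)
    have h3 : (⌈(N : ℝ) * x⌉ : ℝ) ≤ 0 := by exact_mod_cast h2
    rw [abs_of_nonpos h3]
    have := Int.le_ceil ((N : ℝ) * x)
    linarith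

theorem rz_sub (N : ℕ) (x : ℝ) : |(N : ℝ) * x - rz N x| ≤ 1 := by
  unfold rz
  split_ifs with h
  · have h1 := Int.floor_le ((N : ℝ) * x)
    have h2 := Int.lt_floor_add_one ((N : ℝ) * x)
    rw [abs_le]
    constructor <;> linarith
  · have h1 := Int.le_ceil ((N : ℝ) * x)
    have h2 := Int.ceil_lt_add_one ((N : ℝ) * x)
    rw [abs_le]
    constructor <;> linarith

theorem le_one_of_sum_sq {B : Finset (Fin d → ℤ)} {a : (Fin d → ℤ) → ℝ}
    (h : ∑ y ∈ B, a y ^ 2 ≤ 1) {y : Fin d → ℤ} (hy : y ∈ B) : |a y| ≤ 1 := by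
  have h1 : a y ^ 2 ≤ 1 :=
    (Finset.single_le_sum (f := fun y => a y ^ 2) (fun _ _ => sq_nonneg _) hy).trans h
  exact (sq_le_one_iff_abs_le_one _).mp h1

/-- the form does not change much under rounding -/
theorem form_round (B B' : Finset (Fin d → ℤ)) (n N : ℕ) (hB : B.card ≤ n) (hB' : B'.card ≤ n)
    (hN : 0 < N) (K : (Fin d → ℤ) → (Fin d → ℤ) → ℝ) (m : ℝ) (hm : 0 < m)
    (hK : ∀ y w, |K y w| ≤ m) (a b : (Fin d → ℤ) → ℝ) (ha : ∑ y ∈ B, a y ^ 2 ≤ 1)
    (hb : ∑ y ∈ B', b y ^ 2 ≤ 1) (s : Sym2 (Fin d → ℤ) → Bool) :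
    |∑ y ∈ B, ∑ w ∈ B', sg (s s(y, w)) * (K y w * (a y * b w))| ≤
      |∑ y ∈ B, ∑ w ∈ B', sg (s s(y, w)) *
        (K y w * ((rz N (a y) / N : ℝ) * (rz N (b w) / N : ℝ)))| + 2 * n ^ 2 * m / N := by
  have hN' : (0 : ℝ) < N := by exact_mod_cast hN
  have hterm : ∀ y ∈ B, ∀ w ∈ B', |sg (s s(y, w)) * (K y w * (a y * b w)) -
      sg (s s(y, w)) * (K y w * ((rz N (a y) / N : ℝ) * (rz N (b w) / N : ℝ)))| ≤
        2 * m / N := by
    intro y hy w hw
    have h1 : sg (s s(y, w)) * (K y w * (a y * b w)) -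
      sg (s s(y, w)) * (K y w * ((rz N (a y) / N : ℝ) * (rz N (b w) / N : ℝ))) =
      sg (s s(y, w)) * (K y w * ((a y - rz N (a y) / N) * b w +
        (rz N (a y) / N : ℝ) * (b w - rz N (b w) / N))) := by ring
    have hsg : |sg (s s(y, w))| = 1 := by
      unfold sg
      split_ifs <;> norm_num
    have h2 : |a y - rz N (a y) / N| ≤ 1 / N := by
      have h3 := rz_sub N (a y)
      have h4 : a y - rz N (a y) / N = ((N : ℝ) * a y - rz N (a y)) / N := by
        field_simp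
      rw [h4, abs_div, abs_of_pos hN']
      exact div_le_div_of_nonneg_right h3 hN'.le
    have h3 : |b w - rz N (b w) / N| ≤ 1 / N := by
      have h3 := rz_sub N (b w)
      have h4 : b w - rz N (b w) / N = ((N : ℝ) * b w - rz N (b w)) / N := by
        field_simp
      rw [h4, abs_div, abs_of_pos hN']
      exact div_le_div_of_nonneg_right h3 hN'.le
    have h4 : |(rz N (a y) / N : ℝ)| ≤ 1 := by
      rw [abs_div, abs_of_pos hN', div_le_one hN']
      refine (rz_abs N (a y)).trans ?_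
      have := le_one_of_sum_sq ha hy
      nlinarith
    have h5 : |b w| ≤ 1 := le_one_of_sum_sq hb hw
    rw [h1, abs_mul, hsg, one_mul, abs_mul]
    have h6 : |(a y - rz N (a y) / N) * b w + (rz N (a y) / N : ℝ) * (b w - rz N (b w) / N)| ≤
        1 / N + 1 / N := by
      refine (abs_add_le _ _).trans (add_le_add ?_ ?_)
      · rw [abs_mul]
        calc |a y - rz N (a y) / N| * |b w| ≤ 1 / N * 1 :=
              mul_le_mul h2 h5 (abs_nonneg _) (by positivity)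
          _ = 1 / N := mul_one _
      · rw [abs_mul]
        calc |(rz N (a y) / N : ℝ)| * |b w - rz N (b w) / N| ≤ 1 * (1 / N) :=
              mul_le_mul h4 h3 (abs_nonneg _) zero_le_one
          _ = 1 / N := one_mul _
    calc |K y w| * |(a y - rz N (a y) / N) * b w +
          (rz N (a y) / N : ℝ) * (b w - rz N (b w) / N)|
        ≤ m * (1 / N + 1 / N) := mul_le_mul (hK y w) h6 (abs_nonneg _) hm.le
      _ = 2 * m / N := by ring
  have hdiff : |∑ y ∈ B, ∑ w ∈ B', sg (s s(y, w)) * (K y w * (a y * b w)) -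
      ∑ y ∈ B, ∑ w ∈ B', sg (s s(y, w)) *
        (K y w * ((rz N (a y) / N : ℝ) * (rz N (b w) / N : ℝ)))| ≤ 2 * n ^ 2 * m / N := by
    rw [← Finset.sum_sub_distrib]
    refine (Finset.abs_sum_le_sum_abs _ _).trans ?_
    have h1 : ∀ y ∈ B, |∑ w ∈ B', sg (s s(y, w)) * (K y w * (a y * b w)) -
        ∑ w ∈ B', sg (s s(y, w)) *
          (K y w * ((rz N (a y) / N : ℝ) * (rz N (b w) / N : ℝ)))| ≤ n * (2 * m / N) := by
      intro y hy
      rw [← Finset.sum_sub_distrib]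
      refine (Finset.abs_sum_le_sum_abs _ _).trans ?_
      refine (Finset.sum_le_sum (hterm y hy)).trans ?_
      rw [Finset.sum_const, nsmul_eq_mul]
      exact mul_le_mul_of_nonneg_right (by exact_mod_cast hB') (by positivity)
    refine (Finset.sum_le_sum h1).trans ?_
    rw [Finset.sum_const, nsmul_eq_mul]
    calc (B.card : ℝ) * (n * (2 * m / N)) ≤ n * (n * (2 * m / N)) :=
          mul_le_mul_of_nonneg_right (by exact_mod_cast hB) (by positivity)
      _ = 2 * n ^ 2 * m / N := by ring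
  have h7 := abs_sub_abs_le_abs_sub
    (∑ y ∈ B, ∑ w ∈ B', sg (s s(y, w)) * (K y w * (a y * b w)))
    (∑ y ∈ B, ∑ w ∈ B', sg (s s(y, w)) *
        (K y w * ((rz N (a y) / N : ℝ) * (rz N (b w) / N : ℝ))))
  linarith

/-- a grid function extended by zero -/
noncomputable def gext (N : ℕ) (B : Finset (Fin d → ℤ))
    (k : B → Finset.Icc (-(N : ℤ)) (N : ℤ)) (y : Fin d → ℤ) : ℝ :=
  open Classical in if h : y ∈ B then ((k ⟨y, h⟩ : ℤ) : ℝ) / N else 0

theorem exists_gext (N : ℕ) (hN : 0 < N) (B : Finset (Fin d → ℤ)) (a : (Fin d → ℤ) → ℝ)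
    (ha : ∑ y ∈ B, a y ^ 2 ≤ 1) :
    ∃ k : B → Finset.Icc (-(N : ℤ)) (N : ℤ), ∀ y ∈ B, gext N B k y = rz N (a y) / N := by
  have hN' : (0 : ℝ) < N := by exact_mod_cast hN
  refine ⟨fun y => ⟨rz N (a y.1), ?_⟩, ?_⟩
  · have h1 := rz_abs N (a y.1)
    have h2 := le_one_of_sum_sq ha y.2
    have h3 : |(rz N (a y.1) : ℝ)| ≤ N := h1.trans (by nlinarith)
    rw [Finset.mem_Icc]
    obtain ⟨h4, h5⟩ := abs_le.mp h3
    constructor
    · exact_mod_cast h4
    · exact_mod_cast h5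
  · intro y hy
    unfold gext
    rw [dif_pos hy]

/-- norm of a random sign matrix -/
theorem block_tail (B B' : Finset (Fin d → ℤ)) (n N : ℕ) (hB : B.card ≤ n) (hB' : B'.card ≤ n)
    (hN : 0 < N) (K : (Fin d → ℤ) → (Fin d → ℤ) → ℝ) (m t : ℝ) (hm : 0 < m)
    (hK : ∀ y w, |K y w| ≤ m) (ht : 0 ≤ t) :
    Ps d {s | ∃ a b : (Fin d → ℤ) → ℝ, ∑ y ∈ B, a y ^ 2 ≤ 1 ∧ ∑ w ∈ B', b w ^ 2 ≤ 1 ∧
      t + 2 * n ^ 2 * m / N <
        |∑ y ∈ B, ∑ w ∈ B', sg (s s(y, w)) * (K y w * (a y * b w))|} ≤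
      ENNReal.ofReal ((2 * N + 1) ^ (2 * n) * (2 * Real.exp (-t ^ 2 / (4 * m ^ 2)))) := by
  classical
  have hN' : (0 : ℝ) < N := by exact_mod_cast hN
  let T := (B → Finset.Icc (-(N : ℤ)) (N : ℤ)) × (B' → Finset.Icc (-(N : ℤ)) (N : ℤ))
  let EV : T → Set (Sym2 (Fin d → ℤ) → Bool) := fun k =>
    {s | ∑ y ∈ B, gext N B k.1 y ^ 2 ≤ 1 ∧ ∑ y ∈ B', gext N B' k.2 y ^ 2 ≤ 1 ∧
      t ≤ |∑ y ∈ B, ∑ w ∈ B', sg (s s(y, w)) * (K y w * (gext N B k.1 y * gext N B' k.2 w))|}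
  have hsub : {s : Sym2 (Fin d → ℤ) → Bool | ∃ a b : (Fin d → ℤ) → ℝ,
      ∑ y ∈ B, a y ^ 2 ≤ 1 ∧ ∑ w ∈ B', b w ^ 2 ≤ 1 ∧
      t + 2 * n ^ 2 * m / N <
        |∑ y ∈ B, ∑ w ∈ B', sg (s s(y, w)) * (K y w * (a y * b w))|} ⊆ ⋃ k : T, EV k := by
    rintro s ⟨a, b, ha, hb, hs⟩
    obtain ⟨k, hk⟩ := exists_gext N hN B a ha
    obtain ⟨k', hk'⟩ := exists_gext N hN B' b hb
    refine Set.mem_iUnion.mpr ⟨(k, k'), ?_, ?_, ?_⟩
    · refine le_trans (Finset.sum_le_sum fun y hy => ?_) ha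
      show gext N B k y ^ 2 ≤ a y ^ 2
      rw [hk y hy, div_pow, div_le_iff₀ (by positivity)]
      have h1 := rz_abs N (a y)
      have h2 := sq_le_sq' (by linarith [abs_nonneg (rz N (a y) : ℝ)]) h1
      rw [sq_abs, mul_pow, sq_abs] at h2
      linarith
    · refine le_trans (Finset.sum_le_sum fun y hy => ?_) hb
      show gext N B' k' y ^ 2 ≤ b y ^ 2
      rw [hk' y hy, div_pow, div_le_iff₀ (by positivity)]
      have h1 := rz_abs N (b y)
      have h2 := sq_le_sq' (by linarith [abs_nonneg (rz N (b y) : ℝ)]) h1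
      rw [sq_abs, mul_pow, sq_abs] at h2
      linarith
    · have h1 := form_round B B' n N hB hB' hN K m hm hK a b ha hb s
      have h2 : ∑ y ∈ B, ∑ w ∈ B', sg (s s(y, w)) *
          (K y w * (gext N B k y * gext N B' k' w)) =
          ∑ y ∈ B, ∑ w ∈ B', sg (s s(y, w)) *
          (K y w * ((rz N (a y) / N : ℝ) * (rz N (b w) / N : ℝ))) := by
        refine Finset.sum_congr rfl fun y hy => Finset.sum_congr rfl fun w hw => ?_
        rw [hk y hy, hk' w hw]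
      show t ≤ |∑ y ∈ B, ∑ w ∈ B', sg (s s(y, w)) *
          (K y w * (gext N B k y * gext N B' k' w))|
      rw [h2]
      linarith
  have hEV : ∀ k : T, Ps d (EV k) ≤ ENNReal.ofReal (2 * Real.exp (-t ^ 2 / (4 * m ^ 2))) := by
    intro k
    by_cases h1 : ∑ y ∈ B, gext N B k.1 y ^ 2 ≤ 1 ∧ ∑ y ∈ B', gext N B' k.2 y ^ 2 ≤ 1
    · have hc : ∑ y ∈ B, ∑ w ∈ B', (K y w * (gext N B k.1 y * gext N B' k.2 w)) ^ 2 ≤ m ^ 2 := by
        have h2 : ∀ y ∈ B, ∀ w ∈ B', (K y w * (gext N B k.1 y * gext N B' k.2 w)) ^ 2 ≤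
            m ^ 2 * (gext N B k.1 y ^ 2 * gext N B' k.2 w ^ 2) := by
          intro y _ w _
          rw [mul_pow, mul_pow]
          have h3 : K y w ^ 2 ≤ m ^ 2 := sq_le_sq' (by linarith [(abs_le.mp (hK y w)).1])
            (abs_le.mp (hK y w)).2
          exact mul_le_mul_of_nonneg_right h3 (by positivity)
        calc ∑ y ∈ B, ∑ w ∈ B', (K y w * (gext N B k.1 y * gext N B' k.2 w)) ^ 2
            ≤ ∑ y ∈ B, ∑ w ∈ B', m ^ 2 * (gext N B k.1 y ^ 2 * gext N B' k.2 w ^ 2) :=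
              Finset.sum_le_sum fun y hy => Finset.sum_le_sum fun w hw => h2 y hy w hw
          _ = m ^ 2 * ((∑ y ∈ B, gext N B k.1 y ^ 2) * ∑ w ∈ B', gext N B' k.2 w ^ 2) := by
              rw [Finset.sum_mul_sum, Finset.mul_sum]
              refine Finset.sum_congr rfl fun y _ => ?_
              rw [Finset.mul_sum]
          _ ≤ m ^ 2 * (1 * 1) := by
              refine mul_le_mul_of_nonneg_left ?_ (sq_nonneg m)
              exact mul_le_mul h1.1 h1.2 (Finset.sum_nonneg fun _ _ => sq_nonneg _) zero_le_one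
          _ = m ^ 2 := by ring
      refine le_trans (measure_mono ?_) (form_tail B B'
        (fun y w => K y w * (gext N B k.1 y * gext N B' k.2 w)) (m ^ 2) t ht (by positivity) hc)
      intro s hs
      exact hs.2.2
    · have h2 : EV k = ∅ := by
        ext s
        constructor
        · intro hs
          exact absurd ⟨hs.1, hs.2.1⟩ h1
        · intro hs
          exact hs.elim
      rw [h2, measure_empty]
      exact zero_le
  have hcard : Fintype.card T ≤ (2 * N + 1) ^ (2 * n) := by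
    have h1 : Fintype.card (Finset.Icc (-(N : ℤ)) (N : ℤ)) = 2 * N + 1 := by
      rw [Fintype.card_coe, Int.card_Icc]
      omega
    show Fintype.card ((B → Finset.Icc (-(N : ℤ)) (N : ℤ)) ×
      (B' → Finset.Icc (-(N : ℤ)) (N : ℤ))) ≤ _
    rw [Fintype.card_prod, Fintype.card_fun, Fintype.card_fun, h1, Fintype.card_coe,
      Fintype.card_coe, ← pow_add]
    exact Nat.pow_le_pow_right (by omega) (by omega)
  calc Ps d {s | ∃ a b : (Fin d → ℤ) → ℝ, ∑ y ∈ B, a y ^ 2 ≤ 1 ∧ ∑ w ∈ B', b w ^ 2 ≤ 1 ∧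
      t + 2 * n ^ 2 * m / N <
        |∑ y ∈ B, ∑ w ∈ B', sg (s s(y, w)) * (K y w * (a y * b w))|}
      ≤ Ps d (⋃ k : T, EV k) := measure_mono hsub
    _ ≤ ∑ k : T, Ps d (EV k) := measure_iUnion_fintype_le _ _
    _ ≤ ∑ _k : T, ENNReal.ofReal (2 * Real.exp (-t ^ 2 / (4 * m ^ 2))) :=
        Finset.sum_le_sum fun k _ => hEV k
    _ = (Fintype.card T : ENNReal) * ENNReal.ofReal (2 * Real.exp (-t ^ 2 / (4 * m ^ 2))) := by
        rw [Finset.sum_const, Finset.card_univ, nsmul_eq_mul]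
    _ ≤ ((2 * N + 1) ^ (2 * n) : ℕ) * ENNReal.ofReal (2 * Real.exp (-t ^ 2 / (4 * m ^ 2))) := by
        gcongr
    _ = ENNReal.ofReal ((2 * N + 1) ^ (2 * n) * (2 * Real.exp (-t ^ 2 / (4 * m ^ 2)))) := by
        have e : ENNReal.ofReal ((2 * (N : ℝ) + 1) ^ (2 * n) *
            (2 * Real.exp (-t ^ 2 / (4 * m ^ 2)))) =
            ENNReal.ofReal ((2 * (N : ℝ) + 1) ^ (2 * n)) *
            ENNReal.ofReal (2 * Real.exp (-t ^ 2 / (4 * m ^ 2))) :=
          ENNReal.ofReal_mul (by positivity)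
        rw [e, ← ENNReal.ofReal_natCast]
        push_cast
        rfl

end lattice

end H10PL
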