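import Pool.Agent.H10R2.PL.CutDet
import Pool.Agent.H10R2.PL.CutTail
import Pool.Agent.H10R2.PL.CutNum

/-!
Almost surely the commutators of the hopping with slowly varying cut-offs are small; in
particular the operator is essentially self-adjoint on finitely supported functions.
-/

namespace H10PL

open MeasureTheory ProbabilityTheory Matrix Set Filter Topology

section lattice

variable {d : ℕ} {T0 : (Fin d → ℤ) → (Fin d → ℤ) → ℝ} {κ : (Fin d → ℤ) → ℝ} {ρ0 b : ℝ}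

/-- the cut-off function -/
noncomputable def cutf (r : ℝ) (y : Fin d → ℤ) : ℝ := max 0 (min 1 (2 - ‖y‖ / r))

theorem cutf_nonneg (r : ℝ) (y : Fin d → ℤ) : 0 ≤ cutf r y := le_max_left _ _

theorem cutf_le_one (r : ℝ) (y : Fin d → ℤ) : cutf r y ≤ 1 :=
  max_le zero_le_one (min_le_left _ _)

theorem cutf_one {r : ℝ} (hr : 0 < r) {y : Fin d → ℤ} (hy : ‖y‖ ≤ r) : cutf r y = 1 := by
  unfold cutf
  have h1 : ‖y‖ / r ≤ 1 := (div_le_one hr).mpr hy
  rw [min_eq_left (by linarith), max_eq_right zero_le_one]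

theorem cutf_ne {r : ℝ} (hr : 0 < r) {y : Fin d → ℤ} (hy : cutf r y ≠ 0) : ‖y‖ ≤ 2 * r := by
  by_contra h
  apply hy
  unfold cutf
  have h1 : 2 < ‖y‖ / r := by
    rw [lt_div_iff₀ hr]
    linarith
  exact max_eq_left ((min_le_right _ _).trans (by linarith))

theorem cutf_lip {r : ℝ} (hr : 0 < r) (y w : Fin d → ℤ) :
    |cutf r y - cutf r w| ≤ ‖y - w‖ / r := by
  unfold cutf
  have h1 := abs_max_sub_max_le_max 0 (min 1 (2 - ‖y‖ / r)) 0 (min 1 (2 - ‖w‖ / r))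
  have h2 := abs_min_sub_min_le_max 1 (2 - ‖y‖ / r) 1 (2 - ‖w‖ / r)
  have h3 : |(2 - ‖y‖ / r) - (2 - ‖w‖ / r)| ≤ ‖y - w‖ / r := by
    have h4 : (2 - ‖y‖ / r) - (2 - ‖w‖ / r) = -((‖y‖ - ‖w‖) / r) := by ring
    rw [h4, abs_neg, abs_div, abs_of_pos hr]
    exact div_le_div_of_nonneg_right (abs_norm_sub_norm_le y w) hr.le
  have h5 : (0 : ℝ) ≤ ‖y - w‖ / r := by positivity
  rw [sub_self, abs_zero,
    max_eq_right (abs_nonneg (min 1 (2 - ‖y‖ / r) - min 1 (2 - ‖w‖ / r)))] at h1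
  rw [sub_self, abs_zero,
    max_eq_right (abs_nonneg ((2 - ‖y‖ / r) - (2 - ‖w‖ / r)))] at h2
  linarith

theorem bi_win {j R : ℕ} {y : Fin d → ℤ} (hy : ‖y‖ ≤ R) :
    bi j y ∈ (win R : Finset (Fin d → ℤ)) := by
  have h1 := (mem_win R y).mpr hy
  unfold win at h1 ⊢
  rw [Fintype.mem_piFinset] at h1 ⊢
  intro i
  obtain ⟨h2, h3⟩ := Finset.mem_Icc.mp (h1 i)
  show y i / 2 ^ j ∈ _
  have hp : (1 : ℤ) ≤ 2 ^ j := one_le_pow₀ (by norm_num)
  rw [Finset.mem_Icc]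
  constructor
  · rw [Int.le_ediv_iff_mul_le (by omega)]
    have hR : (0 : ℤ) ≤ R := Int.natCast_nonneg R
    nlinarith
  · by_cases h4 : 0 ≤ y i
    · exact (Int.ediv_le_self _ h4).trans h3
    · have h5 : y i / 2 ^ j ≤ 0 := by
        have h6 : y i / 2 ^ j < 0 := Int.ediv_neg_of_neg_of_pos (by omega) (by omega)
        omega
      have hR : (0 : ℤ) ≤ R := Int.natCast_nonneg R
      omega

/-- number of points at distance `< 2^J` -/
theorem ball_count (Λ : Finset (Fin d → ℤ)) (J : ℕ) (y : Fin d → ℤ) :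
    ((Λ.filter (fun w => ‖y - w‖ < 2 ^ J)).card : ℝ) ≤ (3 * 2 ^ J) ^ d := by
  classical
  have h1 : (Λ.filter (fun w => ‖y - w‖ < 2 ^ J)).card ≤
      (Fintype.piFinset fun i => Finset.Icc (y i - 2 ^ J) (y i + 2 ^ J)).card := by
    apply Finset.card_le_card
    intro w hw
    have h2 := (Finset.mem_filter.mp hw).2
    rw [Fintype.mem_piFinset]
    intro i
    have h3 := (abs_coord_le (y - w) i).trans_lt h2
    have h4 : |(y - w) i| < 2 ^ J := by exact_mod_cast h3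
    rw [Pi.sub_apply, abs_lt] at h4
    rw [Finset.mem_Icc]
    constructor <;> omega
  have h2 : (Fintype.piFinset fun i => Finset.Icc (y i - 2 ^ J) (y i + 2 ^ J)).card =
      (2 * 2 ^ J + 1) ^ d := by
    rw [Fintype.card_piFinset]
    have h : ∀ i : Fin d, (Finset.Icc (y i - 2 ^ J) (y i + 2 ^ J)).card = 2 * 2 ^ J + 1 := by
      intro i
      rw [Int.card_Icc]
      have : y i + 2 ^ J + 1 - (y i - 2 ^ J) = ((2 * 2 ^ J + 1 : ℕ) : ℤ) := by push_cast; ring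
      rw [this, Int.toNat_natCast]
    rw [Finset.prod_congr rfl (fun i _ => h i), Finset.prod_const, Finset.card_univ,
      Fintype.card_fin]
  rw [h2] at h1
  have h3 : ((Λ.filter (fun w => ‖y - w‖ < 2 ^ J)).card : ℝ) ≤ ((2 * 2 ^ J + 1 : ℕ) ^ d : ℕ) := by
    exact_mod_cast h1
  refine h3.trans ?_
  push_cast
  have h4 : (1 : ℝ) ≤ 2 ^ J := one_le_pow₀ one_le_two
  exact pow_le_pow_left₀ (by positivity) (by linarith) d

theorem Ks_symm (hκ : ∀ y, κ (-y) = κ y) (j : ℕ) (y w : Fin d → ℤ) :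
    Ks κ j y w = Ks κ j w y := by
  unfold Ks
  rw [norm_sub_rev y w, ← hκ (y - w), neg_sub]

theorem sg_abs' (c : Bool) : |sg c| = 1 := sg_abs c

/-- the commutator bound -/
theorem comm_bound (h : Adm T0 κ ρ0 b) (s : Sym2 (Fin d → ℤ) → Bool) {C : ℝ} (hC : 0 ≤ C)
    (hκ : ∀ y, |κ y| ≤ C) {τ : ℕ → ℝ} (hτ : ∀ j, 0 ≤ τ j) {R : ℕ → ℕ} {J : ℕ} {r : ℝ}
    (hr : 0 < r) (hR : ∀ j, J ≤ j → 2 * r ≤ R j)
    (hg : ∀ j, J ≤ j → GoodJ κ j (τ j) (R j) s) (Λ : Finset (Fin d → ℤ))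
    (u v : (Fin d → ℤ) → ℝ) :
    ∃ L : ℕ, |∑ y ∈ Λ, ∑ w ∈ Λ, (cutf r y - cutf r w) * Kf T0 κ s y w * (u y * v w)| ≤
      (|ρ0| / r * b + 2 ^ J / r * (C * (3 * 2 ^ J) ^ d) +
        5 ^ d * ∑ i ∈ Finset.range L, τ (J + i)) *
        (∑ y ∈ Λ, u y ^ 2 + ∑ y ∈ Λ, v y ^ 2) := by
  classical
  set Q := ∑ y ∈ Λ, u y ^ 2 + ∑ y ∈ Λ, v y ^ 2 with hQ
  have hQ0 : 0 ≤ Q := add_nonneg (Finset.sum_nonneg fun _ _ => sq_nonneg _)
    (Finset.sum_nonneg fun _ _ => sq_nonneg _)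
  have hb : 0 ≤ b := by simpa using h.T0sum 0 ∅
  -- a scale larger than all distances
  obtain ⟨L, hL⟩ : ∃ L : ℕ, ∀ y ∈ Λ, ∀ w ∈ Λ, ‖y - w‖ < 2 ^ (J + L) := by
    obtain ⟨n, hn⟩ := exists_nat_gt (∑ y ∈ Λ, ∑ w ∈ Λ, ‖y - w‖)
    refine ⟨n, fun y hy w hw => ?_⟩
    have h1 : ‖y - w‖ ≤ ∑ y ∈ Λ, ∑ w ∈ Λ, ‖y - w‖ :=
      (Finset.single_le_sum (f := fun w => ‖y - w‖) (fun _ _ => norm_nonneg _) hw).trans
        (Finset.single_le_sum (f := fun y => ∑ w ∈ Λ, ‖y - w‖)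
          (fun _ _ => Finset.sum_nonneg fun _ _ => norm_nonneg _) hy)
    have h2 : (n : ℝ) < 2 ^ n := by exact_mod_cast Nat.lt_two_pow_self
    have h3 : (2 : ℝ) ^ n ≤ 2 ^ (J + n) := pow_le_pow_right₀ one_le_two (by omega)
    linarith
  refine ⟨L, ?_⟩
  -- the three parts
  set F1 : (Fin d → ℤ) → (Fin d → ℤ) → ℝ := fun y w => (cutf r y - cutf r w) * T0 y w with hF1
  set F2 : (Fin d → ℤ) → (Fin d → ℤ) → ℝ := fun y w =>
    (cutf r y - cutf r w) * (sg (s s(y, w)) * Kn κ J y w) with hF2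
  have hsplit : ∑ y ∈ Λ, ∑ w ∈ Λ, (cutf r y - cutf r w) * Kf T0 κ s y w * (u y * v w) =
      ∑ y ∈ Λ, ∑ w ∈ Λ, F1 y w * (u y * v w) + ∑ y ∈ Λ, ∑ w ∈ Λ, F2 y w * (u y * v w) +
      ∑ i ∈ Finset.range L, ((∑ y ∈ Λ, ∑ w ∈ Λ, sg (s s(y, w)) *
        (Ks κ (J + i) y w * ((cutf r y * u y) * v w))) -
        ∑ y ∈ Λ, ∑ w ∈ Λ, sg (s s(y, w)) *
        (Ks κ (J + i) y w * ((cutf r y * v y) * u w))) := by
    have h1 : ∀ i, ∑ y ∈ Λ, ∑ w ∈ Λ, sg (s s(y, w)) *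
        (Ks κ (J + i) y w * ((cutf r y * v y) * u w)) =
        ∑ y ∈ Λ, ∑ w ∈ Λ, sg (s s(y, w)) *
        (Ks κ (J + i) y w * (u y * (cutf r w * v w))) := by
      intro i
      rw [Finset.sum_comm]
      refine Finset.sum_congr rfl fun y _ => Finset.sum_congr rfl fun w _ => ?_
      rw [Ks_symm h.κsymm, Sym2.eq_swap]
      ring
    simp only [h1]
    have h2 : ∀ y ∈ Λ, ∀ w ∈ Λ, (cutf r y - cutf r w) * Kf T0 κ s y w * (u y * v w) =
        F1 y w * (u y * v w) + F2 y w * (u y * v w) +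
        ∑ i ∈ Finset.range L, (sg (s s(y, w)) *
        (Ks κ (J + i) y w * ((cutf r y * u y) * v w)) - sg (s s(y, w)) *
        (Ks κ (J + i) y w * (u y * (cutf r w * v w)))) := by
      intro y hy w hw
      have h3 : κ (y - w) = Kn κ J y w + ∑ i ∈ Finset.range L, Ks κ (J + i) y w := by
        rw [← Kn_add]
        unfold Kn
        rw [if_pos (hL y hy w hw)]
      have h4 : ∑ i ∈ Finset.range L, (sg (s s(y, w)) *
        (Ks κ (J + i) y w * ((cutf r y * u y) * v w)) - sg (s s(y, w)) *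
        (Ks κ (J + i) y w * (u y * (cutf r w * v w)))) =
        (cutf r y - cutf r w) * sg (s s(y, w)) * (u y * v w) *
        ∑ i ∈ Finset.range L, Ks κ (J + i) y w := by
        rw [Finset.mul_sum]
        refine Finset.sum_congr rfl fun i _ => ?_
        ring
      rw [h4, hF1, hF2]
      unfold Kf
      rw [h3]
      ring
    rw [Finset.sum_congr rfl fun y hy => Finset.sum_congr rfl fun w hw => h2 y hy w hw]
    simp only [Finset.sum_add_distrib]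
    congr 1
    rw [Finset.sum_congr rfl fun y _ => Finset.sum_comm, Finset.sum_comm]
    refine Finset.sum_congr rfl fun i _ => ?_
    simp only [Finset.sum_sub_distrib]
  have hlip : ∀ y w : Fin d → ℤ, |cutf r w - cutf r y| = |cutf r y - cutf r w| :=
    fun y w => abs_sub_comm _ _
  -- first part
  have hF1abs : ∀ y w, |F1 y w| ≤ |ρ0| / r * |T0 y w| := by
    intro y w
    rw [hF1]
    show |(cutf r y - cutf r w) * T0 y w| ≤ _
    rw [abs_mul]
    by_cases h1 : ρ0 < ‖y - w‖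
    · rw [h.T0range y w h1, abs_zero, mul_zero, mul_zero]
    · refine mul_le_mul_of_nonneg_right ((cutf_lip hr y w).trans ?_) (abs_nonneg _)
      exact div_le_div_of_nonneg_right ((not_lt.mp h1).trans (le_abs_self _)) hr.le
  have hb1 : |∑ y ∈ Λ, ∑ w ∈ Λ, F1 y w * (u y * v w)| ≤ |ρ0| / r * b * Q / 2 := by
    apply schur_test
    · intro y _
      calc ∑ w ∈ Λ, |F1 y w| ≤ ∑ w ∈ Λ, |ρ0| / r * |T0 y w| :=
            Finset.sum_le_sum fun w _ => hF1abs y w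
        _ = |ρ0| / r * ∑ w ∈ Λ, |T0 y w| := by rw [Finset.mul_sum]
        _ ≤ |ρ0| / r * b := mul_le_mul_of_nonneg_left (h.T0sum y Λ) (by positivity)
    · intro w _
      calc ∑ y ∈ Λ, |F1 y w| ≤ ∑ y ∈ Λ, |ρ0| / r * |T0 w y| :=
            Finset.sum_le_sum fun y _ => by rw [h.T0symm w y]; exact hF1abs y w
        _ = |ρ0| / r * ∑ y ∈ Λ, |T0 w y| := by rw [Finset.mul_sum]
        _ ≤ |ρ0| / r * b := mul_le_mul_of_nonneg_left (h.T0sum w Λ) (by positivity)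
  -- second part
  have hF2abs : ∀ y w, |F2 y w| ≤ if ‖y - w‖ < 2 ^ J then 2 ^ J / r * C else 0 := by
    intro y w
    rw [hF2]
    show |(cutf r y - cutf r w) * (sg (s s(y, w)) * Kn κ J y w)| ≤ _
    unfold Kn
    split_ifs with h1
    · rw [abs_mul, abs_mul, sg_abs, one_mul]
      refine mul_le_mul ((cutf_lip hr y w).trans ?_) (hκ _) (abs_nonneg _) (by positivity)
      exact div_le_div_of_nonneg_right h1.le hr.le
    · rw [mul_zero, mul_zero, abs_zero]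
  have hb2 : |∑ y ∈ Λ, ∑ w ∈ Λ, F2 y w * (u y * v w)| ≤
      2 ^ J / r * (C * (3 * 2 ^ J) ^ d) * Q / 2 := by
    apply schur_test
    · intro y _
      refine (Finset.sum_le_sum fun w _ => hF2abs y w).trans ?_
      rw [← Finset.sum_filter, Finset.sum_const, nsmul_eq_mul]
      calc ((Λ.filter (fun w => ‖y - w‖ < 2 ^ J)).card : ℝ) * (2 ^ J / r * C)
          ≤ (3 * 2 ^ J) ^ d * (2 ^ J / r * C) :=
            mul_le_mul_of_nonneg_right (ball_count Λ J y) (by positivity)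
        _ = 2 ^ J / r * (C * (3 * 2 ^ J) ^ d) := by ring
    · intro w _
      refine (Finset.sum_le_sum fun y _ => hF2abs y w).trans ?_
      have h1 : ∑ y ∈ Λ, (if ‖y - w‖ < 2 ^ J then 2 ^ J / r * C else 0) =
          ∑ y ∈ Λ, (if ‖w - y‖ < 2 ^ J then 2 ^ J / r * C else 0) := by
        refine Finset.sum_congr rfl fun y _ => ?_
        rw [norm_sub_rev]
      rw [h1, ← Finset.sum_filter, Finset.sum_const, nsmul_eq_mul]
      calc ((Λ.filter (fun y => ‖w - y‖ < 2 ^ J)).card : ℝ) * (2 ^ J / r * C)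
          ≤ (3 * 2 ^ J) ^ d * (2 ^ J / r * C) :=
            mul_le_mul_of_nonneg_right (ball_count Λ J w) (by positivity)
        _ = 2 ^ J / r * (C * (3 * 2 ^ J) ^ d) := by ring
  -- third part
  have hcs : ∀ f : (Fin d → ℤ) → ℝ, ∑ y ∈ Λ, (cutf r y * f y) ^ 2 ≤ ∑ y ∈ Λ, f y ^ 2 := by
    intro f
    refine Finset.sum_le_sum fun y _ => ?_
    rw [mul_pow]
    have h1 := cutf_nonneg r y
    have h2 := cutf_le_one r y
    have h3 : cutf r y ^ 2 ≤ 1 := by nlinarith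
    nlinarith [sq_nonneg (f y)]
  have hwin : ∀ i, ∀ f : (Fin d → ℤ) → ℝ, ∀ y ∈ Λ, cutf r y * f y ≠ 0 →
      bi (J + i) y ∈ (win (R (J + i)) : Finset (Fin d → ℤ)) := by
    intro i f y _ hne
    have h1 : cutf r y ≠ 0 := fun h0 => hne (by rw [h0, zero_mul])
    exact bi_win ((cutf_ne hr h1).trans (hR (J + i) (by omega)))
  have hb3 : ∀ i ∈ Finset.range L, |(∑ y ∈ Λ, ∑ w ∈ Λ, sg (s s(y, w)) *
        (Ks κ (J + i) y w * ((cutf r y * u y) * v w))) -
        ∑ y ∈ Λ, ∑ w ∈ Λ, sg (s s(y, w)) *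
        (Ks κ (J + i) y w * ((cutf r y * v y) * u w))| ≤ 5 ^ d * τ (J + i) * Q := by
    intro i _
    have h1 := (hg (J + i) (by omega)).shell (hτ _) Λ (fun y => cutf r y * u y) v
      (hwin i u)
    have h2 := (hg (J + i) (by omega)).shell (hτ _) Λ (fun y => cutf r y * v y) u
      (hwin i v)
    have h3 := hcs u
    have h4 := hcs v
    have h5 : 0 ≤ 5 ^ d * τ (J + i) := mul_nonneg (by positivity) (hτ _)
    have h6 := mul_le_mul_of_nonneg_left h3 h5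
    have h7 := mul_le_mul_of_nonneg_left h4 h5
    refine (abs_sub _ _).trans ?_
    have h8 : 5 ^ d * τ (J + i) * Q = 5 ^ d * τ (J + i) * (∑ y ∈ Λ, u y ^ 2) +
      5 ^ d * τ (J + i) * (∑ y ∈ Λ, v y ^ 2) := by rw [hQ]; ring
    rw [h8]
    simp only [mul_add, add_div] at h1 h2
    linarith
  rw [hsplit]
  have h9 : |∑ i ∈ Finset.range L, ((∑ y ∈ Λ, ∑ w ∈ Λ, sg (s s(y, w)) *
        (Ks κ (J + i) y w * ((cutf r y * u y) * v w))) -
        ∑ y ∈ Λ, ∑ w ∈ Λ, sg (s s(y, w)) *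
        (Ks κ (J + i) y w * ((cutf r y * v y) * u w)))| ≤
        5 ^ d * (∑ i ∈ Finset.range L, τ (J + i)) * Q := by
    refine (Finset.abs_sum_le_sum_abs _ _).trans ((Finset.sum_le_sum hb3).trans (le_of_eq ?_))
    rw [Finset.mul_sum, Finset.sum_mul]
  refine (abs_add_three _ _ _).trans ?_
  have h10 : 0 ≤ |ρ0| / r * b * Q := by positivity
  have h11 : 0 ≤ 2 ^ J / r * (C * (3 * 2 ^ J) ^ d) * Q := by positivity
  nlinarith

/-- good scales give cut-offs -/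
theorem cut_of_good (h : Adm T0 κ ρ0 b) (s : Sym2 (Fin d → ℤ) → Bool) {C : ℝ} (hC : 0 ≤ C)
    (hκ : ∀ y, |κ y| ≤ C) {τ : ℕ → ℝ} (hτ : ∀ j, 0 ≤ τ j) (hτs : Summable τ)
    (hg : ∀ᶠ j in atTop, GoodJ κ j (τ j) (2 * 2 ^ ((d + 2) * j) + 1) s) : CutOK T0 κ s := by
  classical
  intro ε hε F
  have hb : 0 ≤ b := by simpa using h.T0sum 0 ∅
  have hhalf : Tendsto (fun J : ℕ => ((1 : ℝ) / 2) ^ J) atTop (𝓝 0) :=
    tendsto_pow_atTop_nhds_zero_of_lt_one (by norm_num) (by norm_num)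
  -- choice of the scale
  have e1 : ∀ᶠ J : ℕ in atTop, |ρ0| * b * (1 / 2) ^ J < ε / 3 := by
    have := hhalf.const_mul (|ρ0| * b)
    rw [mul_zero] at this
    exact this.eventually_lt_const (by positivity)
  have e2 : ∀ᶠ J : ℕ in atTop, C * 3 ^ d * (1 / 2) ^ J < ε / 3 := by
    have := hhalf.const_mul (C * 3 ^ d)
    rw [mul_zero] at this
    exact this.eventually_lt_const (by positivity)
  have e3 : ∀ᶠ J : ℕ in atTop, 5 ^ d * ∑' i, τ (i + J) < ε / 3 := by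
    have := (tendsto_sum_nat_add τ).const_mul (5 ^ d)
    rw [mul_zero] at this
    exact this.eventually_lt_const (by positivity)
  have e4 : ∀ᶠ J : ℕ in atTop, ∑ y ∈ F, ‖y‖ ≤ (2 : ℝ) ^ J := by
    exact (tendsto_pow_atTop_atTop_of_one_lt (one_lt_two)).eventually_ge_atTop _
  obtain ⟨j0, hj0⟩ := eventually_atTop.mp hg
  obtain ⟨J, h1, h2, h3, h4, h5⟩ :=
    (e1.and (e2.and (e3.and (e4.and (eventually_ge_atTop j0))))).exists
  set r : ℝ := 2 ^ ((d + 2) * J) with hr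
  have hr0 : 0 < r := by positivity
  have hr1 : (2 : ℝ) ^ J ≤ r := by
    rw [hr]
    exact pow_le_pow_right₀ one_le_two (by nlinarith)
  have hR : ∀ j, J ≤ j → 2 * r ≤ ((2 * 2 ^ ((d + 2) * j) + 1 : ℕ) : ℝ) := by
    intro j hj
    push_cast
    have : r ≤ 2 ^ ((d + 2) * j) := by
      rw [hr]
      exact pow_le_pow_right₀ one_le_two (Nat.mul_le_mul_left _ hj)
    linarith
  have hfin : ∀ y : Fin d → ℤ, cutf r y ≠ 0 →
      y ∈ (win (2 * 2 ^ ((d + 2) * J)) : Finset (Fin d → ℤ)) := by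
    intro y hy
    rw [mem_win]
    have := cutf_ne hr0 hy
    push_cast
    exact this
  refine ⟨Finsupp.onFinset (win (2 * 2 ^ ((d + 2) * J))) (cutf r) hfin, ?_, ?_, ?_⟩
  · intro y
    exact ⟨cutf_nonneg r y, cutf_le_one r y⟩
  · intro y hy
    show cutf r y = 1
    apply cutf_one hr0
    have h6 : ‖y‖ ≤ ∑ y ∈ F, ‖y‖ :=
      Finset.single_le_sum (f := fun y : Fin d → ℤ => ‖y‖) (fun _ _ => norm_nonneg _) hy
    linarith
  · intro Λ u v
    obtain ⟨L, hL⟩ := comm_bound h s hC hκ hτ hr0 hR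
      (fun j hj => hj0 j (h5.trans hj)) Λ u v
    refine hL.trans (mul_le_mul_of_nonneg_right ?_
      (add_nonneg (Finset.sum_nonneg fun _ _ => sq_nonneg _)
        (Finset.sum_nonneg fun _ _ => sq_nonneg _)))
    have h2J : (0 : ℝ) < 2 ^ J := by positivity
    have a1 : |ρ0| / r * b ≤ |ρ0| * b * (1 / 2) ^ J := by
      rw [div_mul_eq_mul_div, one_div, inv_pow, ← div_eq_mul_inv]
      exact div_le_div_of_nonneg_left (by positivity) h2J hr1
    have a2 : 2 ^ J / r * (C * (3 * 2 ^ J) ^ d) ≤ C * 3 ^ d * (1 / 2) ^ J := by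
      apply le_of_eq
      rw [hr, one_div, inv_pow, mul_pow]
      have : (2 : ℝ) ^ ((d + 2) * J) = (2 ^ J) ^ d * 2 ^ J * 2 ^ J := by
        rw [← pow_mul, ← pow_add, ← pow_add]
        congr 1
        ring
      rw [this]
      field_simp
    have a3 : ∑ i ∈ Finset.range L, τ (J + i) ≤ ∑' i, τ (i + J) := by
      have h6 : Summable fun i => τ (i + J) := (summable_nat_add_iff J).mpr hτs
      have h7 := h6.sum_le_tsum (Finset.range L) (fun i _ => hτ _)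
      refine le_trans (le_of_eq ?_) h7
      refine Finset.sum_congr rfl fun i _ => ?_
      rw [add_comm]
    have a4 : 5 ^ d * ∑ i ∈ Finset.range L, τ (J + i) ≤ 5 ^ d * ∑' i, τ (i + J) :=
      mul_le_mul_of_nonneg_left a3 (by positivity)
    linarith

/-- the probability that a scale is bad -/
theorem bad_scale (j : ℕ) {m t : ℝ} (hm : 0 < m) (ht : 0 ≤ t)
    (hK : ∀ y w : Fin d → ℤ, |Ks κ j y w| ≤ m) (R : ℕ) :
    Ps d {s | ¬ GoodJ κ j (t + 2 * m) R s} ≤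
      ENNReal.ofReal (((2 * R + 1 : ℝ) ^ d * 5 ^ d) *
        ((2 * ((2 : ℝ) ^ (j * d)) ^ 2 + 1) ^ (2 * 2 ^ (j * d)) *
          (2 * Real.exp (-t ^ 2 / (4 * m ^ 2))))) := by
  classical
  set n : ℕ := 2 ^ (j * d) with hn
  set N : ℕ := n ^ 2 with hN
  have hn0 : 0 < n := by positivity
  have hN0 : 0 < N := by positivity
  let EV : (Fin d → ℤ) → (Fin d → ℤ) → Set (Sym2 (Fin d → ℤ) → Bool) := fun u u' =>
    {s | ∃ a c : (Fin d → ℤ) → ℝ, ∑ y ∈ blk j u, a y ^ 2 ≤ 1 ∧ ∑ w ∈ blk j u', c w ^ 2 ≤ 1 ∧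
      t + 2 * (n : ℝ) ^ 2 * m / N <
        |∑ y ∈ blk j u, ∑ w ∈ blk j u', sg (s s(y, w)) * (Ks κ j y w * (a y * c w))|}
  have hEV : ∀ u u', Ps d (EV u u') ≤ ENNReal.ofReal ((2 * (N : ℝ) + 1) ^ (2 * n) *
      (2 * Real.exp (-t ^ 2 / (4 * m ^ 2)))) := by
    intro u u'
    exact block_tail (blk j u) (blk j u') n N (card_blk j u).le (card_blk j u').le hN0
      (Ks κ j) m t hm hK ht
  have hmesh : 2 * (n : ℝ) ^ 2 * m / N = 2 * m := by
    have h1 : (N : ℝ) = (n : ℝ) ^ 2 := by rw [hN]; push_cast; ring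
    have h2 : (0 : ℝ) < (n : ℝ) ^ 2 := by positivity
    rw [h1]
    field_simp
  have hsub : {s : Sym2 (Fin d → ℤ) → Bool | ¬ GoodJ κ j (t + 2 * m) R s} ⊆
      ⋃ u ∈ (win R : Finset (Fin d → ℤ)), ⋃ u' ∈ nb u, EV u u' := by
    intro s hs
    have hs' : ¬ GoodJ κ j (t + 2 * m) R s := hs
    unfold GoodJ at hs'
    push Not at hs'
    obtain ⟨u, hu, u', hu', a, c, ha, hc, hlt⟩ := hs'
    refine Set.mem_biUnion hu (Set.mem_biUnion hu' ⟨a, c, ha, hc, ?_⟩)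
    rw [hmesh]
    exact hlt
  set X : ENNReal := ENNReal.ofReal ((2 * (N : ℝ) + 1) ^ (2 * n) *
      (2 * Real.exp (-t ^ 2 / (4 * m ^ 2)))) with hX
  calc Ps d {s | ¬ GoodJ κ j (t + 2 * m) R s}
      ≤ Ps d (⋃ u ∈ (win R : Finset (Fin d → ℤ)), ⋃ u' ∈ nb u, EV u u') := measure_mono hsub
    _ ≤ ∑ u ∈ (win R : Finset (Fin d → ℤ)), Ps d (⋃ u' ∈ nb u, EV u u') :=
        measure_biUnion_finset_le _ _
    _ ≤ ∑ u ∈ (win R : Finset (Fin d → ℤ)), ∑ u' ∈ nb u, X := by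
        refine Finset.sum_le_sum fun u _ => (measure_biUnion_finset_le _ _).trans ?_
        exact Finset.sum_le_sum fun u' _ => hEV u u'
    _ = (((2 * R + 1) ^ d * 5 ^ d : ℕ) : ENNReal) * X := by
        simp only [Finset.sum_const, card_nb, card_win, nsmul_eq_mul]
        push_cast
        ring
    _ = _ := by
        have e : ENNReal.ofReal (((2 * R + 1 : ℝ) ^ d * 5 ^ d) *
            ((2 * ((2 : ℝ) ^ (j * d)) ^ 2 + 1) ^ (2 * 2 ^ (j * d)) *
            (2 * Real.exp (-t ^ 2 / (4 * m ^ 2))))) =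
            ENNReal.ofReal ((2 * R + 1 : ℝ) ^ d * 5 ^ d) *
            ENNReal.ofReal ((2 * ((2 : ℝ) ^ (j * d)) ^ 2 + 1) ^ (2 * 2 ^ (j * d)) *
            (2 * Real.exp (-t ^ 2 / (4 * m ^ 2)))) :=
          ENNReal.ofReal_mul (by positivity)
        rw [e, ← ENNReal.ofReal_natCast, hX, hN, hn]
        push_cast
        rfl

/-- almost surely the hopping has good cut-offs -/
theorem cut_ae (h : Adm T0 κ ρ0 b) (C a : ℝ) (ha : (d : ℝ) / 2 < a)
    (hk : ∀ y, y ≠ 0 → |κ y| ≤ C * ‖y‖ ^ (-a)) : ∀ᵐ s ∂(Ps d), CutOK T0 κ s := by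
  -- a positive constant
  set C' : ℝ := |C| + 1 with hC'
  have hC0 : 0 < C' := by positivity
  have hk' : ∀ y, y ≠ 0 → |κ y| ≤ C' * ‖y‖ ^ (-a) := by
    intro y hy
    refine (hk y hy).trans (mul_le_mul_of_nonneg_right ?_ (Real.rpow_nonneg (norm_nonneg _) _))
    rw [hC']
    linarith [le_abs_self C]
  have ha0 : 0 < a := lt_of_le_of_lt (by positivity) ha
  have hnorm : ∀ y : Fin d → ℤ, y ≠ 0 → 1 ≤ ‖y‖ := by
    intro y hy
    obtain ⟨i, hi⟩ := Function.ne_iff.mp hy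
    have h1 := abs_coord_le y i
    have h2 : (1 : ℤ) ≤ |y i| := Int.one_le_abs hi
    have h3 : (1 : ℝ) ≤ |(y i : ℝ)| := by exact_mod_cast h2
    linarith
  have hκC : ∀ y, |κ y| ≤ C' := by
    intro y
    by_cases hy : y = 0
    · rw [hy, h.κ0, abs_zero]
      exact hC0.le
    · refine (hk' y hy).trans ?_
      have h1 : ‖y‖ ^ (-a) ≤ 1 := Real.rpow_le_one_of_one_le_of_nonpos (hnorm y hy) (by linarith)
      nlinarith
  set δ : ℝ := (a - d / 2) / 2 with hδ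
  have hδ0 : 0 < δ := by rw [hδ]; linarith
  set m : ℕ → ℝ := fun j => C' * (2 : ℝ) ^ (-(a * j)) with hm
  set t : ℕ → ℝ := fun j => (2 : ℝ) ^ (-(δ * j)) with ht
  have hm0 : ∀ j, 0 < m j := fun j => by rw [hm]; positivity
  have ht0 : ∀ j, 0 ≤ t j := fun j => by rw [ht]; positivity
  have hK : ∀ j, ∀ y w : Fin d → ℤ, |Ks κ j y w| ≤ m j := by
    intro j y w
    unfold Ks
    split_ifs with h1
    · have hne : y - w ≠ 0 := by
        intro h0
        rw [h0, norm_zero] at h1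
        have : (0 : ℝ) < 2 ^ j := by positivity
        linarith [h1.1]
      refine (hk' _ hne).trans (mul_le_mul_of_nonneg_left ?_ hC0.le)
      have h2 : ((2 : ℝ) ^ j) ^ (-a) = (2 : ℝ) ^ (-(a * j)) := by
        rw [← Real.rpow_natCast, ← Real.rpow_mul (by norm_num)]
        congr 1
        ring
      rw [← h2]
      exact Real.rpow_le_rpow_of_nonpos (by positivity) h1.1 (by linarith)
    · rw [abs_zero]
      exact (hm0 j).le
  -- summability of the norms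
  have hgeo : ∀ c : ℝ, 0 < c → Summable fun j : ℕ => (2 : ℝ) ^ (-(c * j)) := by
    intro c hc
    have h1 : ∀ j : ℕ, (2 : ℝ) ^ (-(c * j)) = ((2 : ℝ) ^ (-c)) ^ j := by
      intro j
      rw [← Real.rpow_natCast, ← Real.rpow_mul (by norm_num)]
      congr 1
      ring
    simp only [h1]
    apply summable_geometric_of_lt_one (by positivity)
    exact Real.rpow_lt_one_of_one_lt_of_neg (by norm_num) (by linarith)
  have hτs : Summable fun j => t j + 2 * m j := by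
    refine (hgeo δ hδ0).add ?_
    exact ((hgeo a ha0).mul_left C').mul_left 2
  -- Borel-Cantelli
  have hnum := cut_num d C' a hC0 ha
  have hbad : ∀ j : ℕ, Ps d {s | ¬ GoodJ κ j (t j + 2 * m j) (2 * 2 ^ ((d + 2) * j) + 1) s} ≤
      ENNReal.ofReal (((2 * (2 * 2 ^ ((d + 2) * j) + 1) + 1 : ℝ) ^ d * 5 ^ d) *
        ((2 * ((2 : ℝ) ^ (j * d)) ^ 2 + 1) ^ (2 * 2 ^ (j * d)) *
          (2 * Real.exp (-((2 : ℝ) ^ (-((a - d / 2) / 2 * j))) ^ 2 /
            (4 * (C' * (2 : ℝ) ^ (-(a * j))) ^ 2))))) := by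
    intro j
    have h1 := bad_scale (κ := κ) j (hm0 j) (ht0 j) (hK j) (2 * 2 ^ ((d + 2) * j) + 1)
    push_cast at h1
    exact h1
  have hsum : ∑' j : ℕ, Ps d {s | ¬ GoodJ κ j (t j + 2 * m j) (2 * 2 ^ ((d + 2) * j) + 1) s} ≠
      ⊤ := by
    refine ne_top_of_le_ne_top ?_ (ENNReal.tsum_le_tsum hbad)
    exact hnum.tsum_ofReal_ne_top
  have hae := ae_eventually_notMem hsum
  filter_upwards [hae] with s hs
  apply cut_of_good h s hC0.le hκC (τ := fun j => t j + 2 * m j)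
    (fun j => add_nonneg (ht0 j) (mul_nonneg zero_le_two (hm0 j).le)) hτs
  filter_upwards [hs] with j hj
  by_contra h1
  exact hj h1

end lattice

end H10PL
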