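import Pool.Agent.H10R2.PL.Defs

/-! Task POW: the power law profile. -/

namespace H10PL

open MeasureTheory ProbabilityTheory Matrix Set

variable {d : ℕ}

theorem norm_castR (y : Fin d → ℤ) : ‖(fun i => (y i : ℝ))‖ = ‖y‖ := by
  simp only [Pi.norm_def]
  congr 1

/-- the coordinatewise cast as a `ℤ`-linear map -/
noncomputable def castL (d : ℕ) : (Fin d → ℤ) →ₗ[ℤ] (Fin d → ℝ) where
  toFun y := fun i => (y i : ℝ)
  map_add' := by intro x y; funext i; simp
  map_smul' := by intro x y; funext i; simp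

theorem castL_inj (d : ℕ) : Function.Injective (castL d) := by
  intro x y h
  funext i
  have := congrFun h i
  simpa [castL] using this

theorem norm_castL (y : Fin d → ℤ) : ‖castL d y‖ = ‖y‖ := norm_castR y

theorem summable_norm_rpow_int (d : ℕ) (r : ℝ) (hr : r < -(d : ℝ)) :
    Summable fun y : Fin d → ℤ => ‖y‖ ^ r := by
  set L := LinearMap.range (castL d) with hL
  let e : (Fin d → ℤ) ≃ₗ[ℤ] L := LinearEquiv.ofInjective (castL d) (castL_inj d)
  have he : ∀ y, ‖e y‖ = ‖y‖ := fun y => norm_castL y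
  have hiso : Isometry (fun z : L => e.symm z) := by
    refine AddMonoidHomClass.isometry_of_norm (e.symm : L ≃ₗ[ℤ] (Fin d → ℤ)) ?_
    intro z
    rw [← he, LinearEquiv.apply_symm_apply]
  haveI : DiscreteTopology L :=
    DiscreteTopology.of_continuous_injective hiso.continuous hiso.injective
  have hfin : Module.finrank ℤ L = d := by
    rw [← LinearEquiv.finrank_eq e]
    simp
  have h := ZLattice.summable_norm_rpow L r (by rw [hfin]; exact hr)
  have h2 := (e.toEquiv.summable_iff (f := fun z : L => ‖z‖ ^ r)).mpr h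
  refine h2.congr ?_
  intro y
  show ‖e y‖ ^ r = ‖y‖ ^ r
  rw [he]

theorem pow_summable (hd : 0 < d) (α : ℝ) (hα : (d : ℝ) / 2 < α) :
    Summable fun y : Fin d → ℤ => (if y = 0 then (0 : ℝ) else ‖y‖ ^ (-α)) ^ 2 := by
  have h := summable_norm_rpow_int d (-(2 * α)) (by linarith)
  refine Summable.of_nonneg_of_le (fun y => sq_nonneg _) (fun y => ?_) h
  split_ifs with hy
  · simp only [ne_eq, OfNat.ofNat_ne_zero, not_false_eq_true, zero_pow]
    positivity
  · have hpos : 0 < ‖y‖ := norm_pos_iff.mpr hy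
    rw [← Real.rpow_natCast, ← Real.rpow_mul hpos.le]
    apply le_of_eq
    congr 1
    push_cast
    ring

theorem pow_profile (hd : 0 < d) (g α : ℝ) (hg : g ≠ 0) (hα0 : 0 < α) (hα : α < d) (T : ℝ) :
    ∃ β : ℝ, 0 < β ∧ ∃ S : Finset (Fin d → ℤ),
      (∀ y ∈ S, β ≤ |g * (if y = 0 then (0 : ℝ) else ‖y‖ ^ (-α))| ∧
        |g * (if y = 0 then (0 : ℝ) else ‖y‖ ^ (-α))| ≤ (2 : ℝ) ^ α * β) ∧
      T ≤ β * S.card := by
  have hg' : 0 < |g| := abs_pos.mpr hg
  have h2α : 0 < (2 : ℝ) ^ (-α) := by positivity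
  have htend : Filter.Tendsto (fun R : ℕ => |g| * (2 : ℝ) ^ (-α) * (R : ℝ) ^ ((d : ℝ) - α))
      Filter.atTop Filter.atTop := by
    apply Filter.Tendsto.const_mul_atTop (by positivity)
    exact (tendsto_rpow_atTop (by linarith)).comp tendsto_natCast_atTop_atTop
  obtain ⟨R, hR1, hR2⟩ := ((htend.eventually_ge_atTop T).and (Filter.eventually_ge_atTop 1)).exists
  have hRpos : (0 : ℝ) < R := by exact_mod_cast hR2
  refine ⟨|g| * (2 * (R : ℝ)) ^ (-α), by positivity,
    Fintype.piFinset (fun i : Fin d => if i = ⟨0, hd⟩ then Finset.Icc (R : ℤ) (2 * R)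
      else Finset.Icc (0 : ℤ) R), ?_, ?_⟩
  · intro y hy
    rw [Fintype.mem_piFinset] at hy
    have h0 : y ⟨0, hd⟩ ∈ Finset.Icc (R : ℤ) (2 * R) := by simpa using hy ⟨0, hd⟩
    rw [Finset.mem_Icc] at h0
    have hall : ∀ i, 0 ≤ y i ∧ y i ≤ 2 * R := by
      intro i
      have := hy i
      split_ifs at this with hi
      · rw [Finset.mem_Icc] at this; constructor <;> omega
      · rw [Finset.mem_Icc] at this; constructor <;> omega
    have hlow : (R : ℝ) ≤ ‖y‖ := by
      refine le_trans ?_ (norm_le_pi_norm y ⟨0, hd⟩)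
      rw [Int.norm_eq_abs]
      refine le_trans ?_ (le_abs_self _)
      exact_mod_cast h0.1
    have hup : ‖y‖ ≤ 2 * R := by
      rw [pi_norm_le_iff_of_nonneg (by positivity)]
      intro i
      rw [Int.norm_eq_abs, abs_of_nonneg (by exact_mod_cast (hall i).1)]
      exact_mod_cast (hall i).2
    have hne : y ≠ 0 := by
      rintro rfl
      simp at hlow
      linarith
    rw [if_neg hne, abs_mul, abs_of_pos (Real.rpow_pos_of_pos (by linarith) _ : (0 : ℝ) < ‖y‖ ^ (-α))]
    constructor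
    · apply mul_le_mul_of_nonneg_left _ hg'.le
      exact Real.rpow_le_rpow_of_nonpos (by linarith) hup (by linarith)
    · have h1 : ‖y‖ ^ (-α) ≤ (R : ℝ) ^ (-α) :=
        Real.rpow_le_rpow_of_nonpos hRpos hlow (by linarith)
      have h2 : (2 : ℝ) ^ α * (|g| * (2 * (R : ℝ)) ^ (-α)) = |g| * (R : ℝ) ^ (-α) := by
        rw [Real.mul_rpow (by norm_num) hRpos.le]
        have h3 : (2 : ℝ) ^ α * (2 : ℝ) ^ (-α) = 1 := by
          rw [← Real.rpow_add (by norm_num)]; simp
        calc (2 : ℝ) ^ α * (|g| * ((2 : ℝ) ^ (-α) * (R : ℝ) ^ (-α)))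
            = ((2 : ℝ) ^ α * (2 : ℝ) ^ (-α)) * (|g| * (R : ℝ) ^ (-α)) := by ring
          _ = _ := by rw [h3, one_mul]
      rw [h2]
      exact mul_le_mul_of_nonneg_left h1 hg'.le
  · have hcard : (R : ℝ) ^ d ≤ ((Fintype.piFinset (fun i : Fin d =>
        if i = ⟨0, hd⟩ then Finset.Icc (R : ℤ) (2 * R) else Finset.Icc (0 : ℤ) R)).card : ℝ) := by
      rw [Fintype.card_piFinset]
      push_cast
      have h1 : (R : ℝ) ^ d = ∏ _i : Fin d, (R : ℝ) := by simp
      rw [h1]
      apply Finset.prod_le_prod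
      · intro i _; exact hRpos.le
      · intro i _
        split_ifs
        · rw [Int.card_Icc]
          have : ((2 * (R : ℤ) + 1 - R).toNat : ℝ) = R + 1 := by
            have h3 : (2 * (R : ℤ) + 1 - R).toNat = R + 1 := by omega
            rw [h3]; push_cast; ring
          rw [this]; linarith
        · rw [Int.card_Icc]
          have : (((R : ℤ) + 1 - 0).toNat : ℝ) = R + 1 := by
            have h3 : ((R : ℤ) + 1 - 0).toNat = R + 1 := by omega
            rw [h3]; push_cast; ring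
          rw [this]; linarith
    calc T ≤ |g| * (2 : ℝ) ^ (-α) * (R : ℝ) ^ ((d : ℝ) - α) := hR1
      _ = |g| * (2 * (R : ℝ)) ^ (-α) * (R : ℝ) ^ d := by
          rw [Real.mul_rpow (by norm_num) hRpos.le, sub_eq_add_neg, Real.rpow_add hRpos,
            Real.rpow_natCast]
          ring
      _ ≤ _ := mul_le_mul_of_nonneg_left hcard (by positivity)

end H10PL
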