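import Pool.Agent.H10R2.PL.Defs

/-!
Deterministic part of the Simon-Wolff argument.
-/

namespace H10PL

open MeasureTheory ProbabilityTheory Matrix Set Filter Topology

section lattice

variable {d : ℕ} {T0 : (Fin d → ℤ) → (Fin d → ℤ) → ℝ} {κ : (Fin d → ℤ) → ℝ} {ρ0 b : ℝ}

/-- there are slowly varying finitely supported cut-offs whose commutator with the hopping is
small; this says that `H` is essentially self-adjoint on finitely supported functions -/
def CutOK (T0 : (Fin d → ℤ) → (Fin d → ℤ) → ℝ) (κ : (Fin d → ℤ) → ℝ)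
    (s : Sym2 (Fin d → ℤ) → Bool) : Prop :=
  ∀ ε : ℝ, 0 < ε → ∀ F : Finset (Fin d → ℤ), ∃ χ : (Fin d → ℤ) →₀ ℝ,
    (∀ y, 0 ≤ χ y ∧ χ y ≤ 1) ∧ (∀ y ∈ F, χ y = 1) ∧
    ∀ (Λ : Finset (Fin d → ℤ)) (u v : (Fin d → ℤ) → ℝ),
      |∑ y ∈ Λ, ∑ w ∈ Λ, (χ y - χ w) * Kf T0 κ s y w * (u y * v w)| ≤
        ε * (∑ y ∈ Λ, u y ^ 2 + ∑ y ∈ Λ, v y ^ 2)

theorem sg_sq (c : Bool) : sg c ^ 2 = 1 := by
  unfold sg
  split_ifs <;> norm_num

theorem sg_abs (c : Bool) : |sg c| = 1 := by
  unfold sg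
  split_ifs <;> norm_num

/-- Cauchy-Schwarz for square summable families -/
theorem cs_tsum {ι : Type*} {f g : ι → ℝ} (hf : Summable fun y => f y ^ 2)
    (hg : Summable fun y => g y ^ 2) :
    Summable (fun y => f y * g y) ∧
      (∑' y, f y * g y) ^ 2 ≤ (∑' y, f y ^ 2) * ∑' y, g y ^ 2 := by
  have h1 : Summable (fun y => f y * g y) := by
    apply Summable.of_norm_bounded (hf.add hg)
    intro y
    rw [Real.norm_eq_abs, abs_le]
    constructor <;> nlinarith [sq_nonneg (f y + g y), sq_nonneg (f y - g y), sq_nonneg (f y),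
      sq_nonneg (g y)]
  refine ⟨h1, ?_⟩
  have h2 : Tendsto (fun F : Finset ι => (∑ y ∈ F, f y * g y) ^ 2) atTop
      (𝓝 ((∑' y, f y * g y) ^ 2)) := h1.hasSum.pow 2
  refine le_of_tendsto' h2 (fun F => ?_)
  refine (Finset.sum_mul_sq_le_sq_mul_sq F f g).trans ?_
  exact mul_le_mul (hf.sum_le_tsum F (fun y _ => sq_nonneg _))
    (hg.sum_le_tsum F (fun y _ => sq_nonneg _)) (Finset.sum_nonneg fun y _ => sq_nonneg _)
    (tsum_nonneg fun y => sq_nonneg _)

theorem Kf_sq_summable (h : Adm T0 κ ρ0 b) (s : Sym2 (Fin d → ℤ) → Bool) (y : Fin d → ℤ) :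
    Summable fun w => Kf T0 κ s y w ^ 2 := by
  have h1 : Summable fun w => |T0 y w| :=
    summable_of_sum_le (fun w => abs_nonneg _) (fun F => h.T0sum y F)
  have h2 : Summable fun w => T0 y w ^ 2 := by
    refine Summable.of_nonneg_of_le (fun w => sq_nonneg _) (fun w => ?_) (h1.mul_left b)
    have h3 : |T0 y w| ≤ b := by simpa using h.T0sum y {w}
    rw [← sq_abs, sq]
    exact mul_le_mul_of_nonneg_right h3 (abs_nonneg _)
  have h3 : Summable fun w => κ (y - w) ^ 2 := by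
    have := (Equiv.subLeft y).summable_iff.mpr h.κsq
    exact this
  refine Summable.of_nonneg_of_le (fun w => sq_nonneg _) (fun w => ?_)
    ((h2.mul_left 2).add (h3.mul_left 2))
  unfold Kf
  have h4 : (sg (s s(y, w)) * κ (y - w)) ^ 2 = κ (y - w) ^ 2 := by
    rw [mul_pow, sg_sq, one_mul]
  nlinarith [sq_nonneg (T0 y w - sg (s s(y, w)) * κ (y - w))]

theorem Kf_symm (h : Adm T0 κ ρ0 b) (s : Sym2 (Fin d → ℤ) → Bool) (y w : Fin d → ℤ) :
    Kf T0 κ s y w = Kf T0 κ s w y := by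
  unfold Kf
  rw [h.T0symm y w, Sym2.eq_swap, ← h.κsymm (y - w), neg_sub]

/-- if `InfN` holds for all `M`, then `E` is an eigenvalue (with `ψ x ≠ 0`) for no other value
of the potential at `x` -/
theorem kill (h : Adm T0 κ ρ0 b) (s : Sym2 (Fin d → ℤ) → Bool) (V : (Fin d → ℤ) → ℝ) (E : ℝ)
    (x : Fin d → ℤ) (hinf : ∀ M : ℕ, InfN T0 κ s V E x M) (t : ℝ) (ψ : (Fin d → ℤ) → ℝ)
    (hψ : IsEig T0 κ s (Function.update V x t) E ψ) (hx : ψ x ≠ 0) : t = V x := by
  classical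
  obtain ⟨hsum, heq⟩ := hψ
  by_contra hne
  have hVt : V x - t ≠ 0 := fun h0 => hne (by linarith)
  set P := ∑' y, ψ y ^ 2 with hP
  have hq : 0 < ((V x - t) * ψ x) ^ 2 := by positivity
  obtain ⟨M, hM⟩ := exists_nat_ge (P / ((V x - t) * ψ x) ^ 2)
  obtain ⟨f, hf1, hf2⟩ := hinf M
  -- the pairing
  have hpair : HasSum (fun y => appl T0 κ s V E f y * ψ y) (f x * ((V x - t) * ψ x)) := by
    have h1 : ∀ w ∈ f.support, HasSum (fun y => Kf T0 κ s y w * f w * ψ y)
        (f w * ∑' y, Kf T0 κ s w y * ψ y) := by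
      intro w _
      have h2 := (cs_tsum (Kf_sq_summable h s w) hsum).1.hasSum.mul_left (f w)
      have e : (fun y => Kf T0 κ s y w * f w * ψ y) =
          fun y => f w * (Kf T0 κ s w y * ψ y) := by
        funext y
        rw [Kf_symm h s y w]
        ring
      rw [e]
      exact h2
    have h3 : HasSum (fun y => ∑ w ∈ f.support, Kf T0 κ s y w * f w * ψ y)
        (∑ w ∈ f.support, f w * ∑' y, Kf T0 κ s w y * ψ y) := hasSum_sum h1
    have h4 : HasSum (fun y => (V y - E) * f y * ψ y)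
        (∑ w ∈ f.support, (V w - E) * f w * ψ w) := by
      apply hasSum_sum_of_ne_finset_zero
      intro y hy
      rw [Finsupp.notMem_support_iff.mp hy]
      ring
    have h5 := h3.add h4
    rw [← Finset.sum_add_distrib] at h5
    have h6 : ∑ w ∈ f.support, (f w * ∑' y, Kf T0 κ s w y * ψ y + (V w - E) * f w * ψ w) =
        f x * ((V x - t) * ψ x) := by
      have h7 : ∀ w ∈ f.support, f w * ∑' y, Kf T0 κ s w y * ψ y + (V w - E) * f w * ψ w =
          if w = x then f x * ((V x - t) * ψ x) else 0 := by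
        intro w _
        have h8 := heq w
        by_cases hw : w = x
        · subst hw
          rw [Function.update_self] at h8
          rw [if_pos rfl]
          linear_combination (f w) * h8
        · rw [Function.update_of_ne hw] at h8
          rw [if_neg hw]
          linear_combination (f w) * h8
      rw [Finset.sum_congr rfl h7, Finset.sum_ite_eq']
      split_ifs with h9
      · rfl
      · rw [Finsupp.notMem_support_iff.mp h9]
        ring
    rw [h6] at h5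
    have e : (fun y => appl T0 κ s V E f y * ψ y) =
        fun y => ∑ w ∈ f.support, Kf T0 κ s y w * f w * ψ y + (V y - E) * f y * ψ y := by
      funext y
      unfold appl
      rw [add_mul, Finset.sum_mul]
    rw [e]
    exact h5
  have hcs := (cs_tsum hf1 hsum).2
  rw [hpair.tsum_eq] at hcs
  have h10 : P ≤ M * ((V x - t) * ψ x) ^ 2 := by
    rw [div_le_iff₀ hq] at hM
    exact hM
  have h11 : 0 ≤ ∑' y, appl T0 κ s V E f y ^ 2 := tsum_nonneg fun y => sq_nonneg _
  have h12 : (∑' y, appl T0 κ s V E f y ^ 2) * P ≤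
      (∑' y, appl T0 κ s V E f y ^ 2) * (M * ((V x - t) * ψ x) ^ 2) :=
    mul_le_mul_of_nonneg_left h10 h11
  have h13 := mul_lt_mul_of_pos_right hf2 hq
  have h14 : (f x * ((V x - t) * ψ x)) ^ 2 = f x ^ 2 * ((V x - t) * ψ x) ^ 2 := by ring
  rw [h14] at hcs
  nlinarith

/-- symmetry of the maximal operator on eigenfunctions -/
theorem pairing (h : Adm T0 κ ρ0 b) (s : Sym2 (Fin d → ℤ) → Bool) (hc : CutOK T0 κ s)
    (V : (Fin d → ℤ) → ℝ) (x : Fin d → ℤ) (t t' E E' : ℝ) (ψ φ : (Fin d → ℤ) → ℝ)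
    (hψ : IsEig T0 κ s (Function.update V x t) E ψ)
    (hφ : IsEig T0 κ s (Function.update V x t') E' φ) (hψx : ψ x = 1) (hφx : φ x = 1)
    (n : ℝ) (hn1 : ∑' y, ψ y ^ 2 ≤ n) (hn2 : ∑' y, φ y ^ 2 ≤ n) :
    |t - t'| ≤ n * |E - E'| := by
  classical
  have hn0 : 0 ≤ n := le_trans (tsum_nonneg fun y => sq_nonneg _) hn1
  apply le_of_forall_pos_le_add
  intro ε hε
  have hε' : 0 < ε / (2 * n + 1) := by positivity
  obtain ⟨χ, hχ1, hχ2, hχ3⟩ := hc (ε / (2 * n + 1)) hε' {x}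
  have hχx : χ x = 1 := hχ2 x (Finset.mem_singleton_self x)
  obtain ⟨hψ1, hψ2⟩ := hψ
  obtain ⟨hφ1, hφ2⟩ := hφ
  -- the commutator term
  set S := ∑ y ∈ χ.support, χ y * φ y * ∑' w, Kf T0 κ s y w * ψ w -
    ∑ w ∈ χ.support, χ w * ψ w * ∑' y, Kf T0 κ s w y * φ y with hS
  have hSb : |S| ≤ ε := by
    have hlim : Tendsto (fun Λ : Finset (Fin d → ℤ) =>
        ∑ y ∈ Λ, ∑ w ∈ Λ, (χ y - χ w) * Kf T0 κ s y w * (φ y * ψ w)) atTop (𝓝 S) := by
      have h1 : Tendsto (fun Λ : Finset (Fin d → ℤ) =>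
          ∑ y ∈ χ.support, χ y * φ y * ∑ w ∈ Λ, Kf T0 κ s y w * ψ w -
          ∑ w ∈ χ.support, χ w * ψ w * ∑ y ∈ Λ, Kf T0 κ s w y * φ y) atTop (𝓝 S) := by
        apply Tendsto.sub
        · apply tendsto_finsetSum
          intro y _
          exact ((cs_tsum (Kf_sq_summable h s y) hψ1).1.hasSum).const_mul _
        · apply tendsto_finsetSum
          intro y _
          exact ((cs_tsum (Kf_sq_summable h s y) hφ1).1.hasSum).const_mul _
      refine h1.congr' ?_
      filter_upwards [eventually_ge_atTop χ.support] with Λ hΛ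
      have h2 : ∑ y ∈ Λ, ∑ w ∈ Λ, (χ y - χ w) * Kf T0 κ s y w * (φ y * ψ w) =
          ∑ y ∈ Λ, χ y * φ y * ∑ w ∈ Λ, Kf T0 κ s y w * ψ w -
          ∑ w ∈ Λ, χ w * ψ w * ∑ y ∈ Λ, Kf T0 κ s w y * φ y := by
        have h3 : ∑ w ∈ Λ, χ w * ψ w * ∑ y ∈ Λ, Kf T0 κ s w y * φ y =
            ∑ y ∈ Λ, ∑ w ∈ Λ, χ w * Kf T0 κ s y w * (φ y * ψ w) := by
          rw [Finset.sum_comm]
          refine Finset.sum_congr rfl fun w _ => ?_
          rw [Finset.mul_sum]
          refine Finset.sum_congr rfl fun y _ => ?_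
          rw [Kf_symm h s w y]
          ring
        rw [h3, ← Finset.sum_sub_distrib]
        refine Finset.sum_congr rfl fun y _ => ?_
        rw [Finset.mul_sum, ← Finset.sum_sub_distrib]
        refine Finset.sum_congr rfl fun w _ => ?_
        ring
      rw [h2]
      congr 1
      · refine Finset.sum_subset hΛ fun y _ hy => ?_
        rw [Finsupp.notMem_support_iff.mp hy]
        ring
      · refine Finset.sum_subset hΛ fun y _ hy => ?_
        rw [Finsupp.notMem_support_iff.mp hy]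
        ring
    have hle : ∀ Λ : Finset (Fin d → ℤ),
        |∑ y ∈ Λ, ∑ w ∈ Λ, (χ y - χ w) * Kf T0 κ s y w * (φ y * ψ w)| ≤ ε := by
      intro Λ
      refine (hχ3 Λ φ ψ).trans ?_
      have h4 : ∑ y ∈ Λ, φ y ^ 2 + ∑ y ∈ Λ, ψ y ^ 2 ≤ 2 * n := by
        have h5 := hφ1.sum_le_tsum Λ (fun y _ => sq_nonneg _)
        have h6 := hψ1.sum_le_tsum Λ (fun y _ => sq_nonneg _)
        linarith
      calc ε / (2 * n + 1) * (∑ y ∈ Λ, φ y ^ 2 + ∑ y ∈ Λ, ψ y ^ 2)
          ≤ ε / (2 * n + 1) * (2 * n) := mul_le_mul_of_nonneg_left h4 hε'.le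
        _ ≤ ε / (2 * n + 1) * (2 * n + 1) := mul_le_mul_of_nonneg_left (by linarith) hε'.le
        _ = ε := by field_simp
    exact le_of_tendsto' hlim.abs hle
  -- the identity
  have hid : (E - E') * ∑ y ∈ χ.support, χ y * (ψ y * φ y) = S + (t - t') := by
    have h1 : ∀ y ∈ χ.support, (E - E') * (χ y * (ψ y * φ y)) =
        (χ y * φ y * ∑' w, Kf T0 κ s y w * ψ w) - (χ y * ψ y * ∑' w, Kf T0 κ s y w * φ w) +
        if y = x then (t - t') else 0 := by
      intro y _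
      have h2 := hψ2 y
      have h3 := hφ2 y
      by_cases hy : y = x
      · subst hy
        rw [Function.update_self] at h2 h3
        rw [if_pos rfl]
        rw [hχx, hψx, hφx] at *
        linarith
      · rw [Function.update_of_ne hy] at h2 h3
        rw [if_neg hy]
        linear_combination (-(χ y * φ y)) * h2 + (χ y * ψ y) * h3
    rw [Finset.mul_sum, Finset.sum_congr rfl h1, Finset.sum_add_distrib, Finset.sum_sub_distrib,
      Finset.sum_ite_eq', if_pos]
    rw [Finsupp.mem_support_iff, hχx]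
    exact one_ne_zero
  have hb : |∑ y ∈ χ.support, χ y * (ψ y * φ y)| ≤ n := by
    have h1 : ∑ y ∈ χ.support, χ y * (ψ y * φ y) =
        ∑ y ∈ χ.support, (χ y * ψ y) * φ y := by
      refine Finset.sum_congr rfl fun y _ => ?_
      ring
    have h2 := Finset.sum_mul_sq_le_sq_mul_sq χ.support (fun y => χ y * ψ y) φ
    have h3 : ∑ y ∈ χ.support, (χ y * ψ y) ^ 2 ≤ n := by
      refine le_trans (Finset.sum_le_sum fun y _ => ?_)
        ((hψ1.sum_le_tsum χ.support (fun y _ => sq_nonneg _)).trans hn1)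
      rw [mul_pow]
      have h4 : χ y ^ 2 ≤ 1 := by
        have := hχ1 y
        nlinarith
      nlinarith [sq_nonneg (ψ y)]
    have h4 : ∑ y ∈ χ.support, φ y ^ 2 ≤ n :=
      (hφ1.sum_le_tsum χ.support (fun y _ => sq_nonneg _)).trans hn2
    have h5 : (∑ y ∈ χ.support, (χ y * ψ y) * φ y) ^ 2 ≤ n ^ 2 := by
      refine h2.trans ?_
      rw [sq]
      exact mul_le_mul h3 h4 (Finset.sum_nonneg fun y _ => sq_nonneg _) hn0
    rw [h1]
    exact abs_le_of_sq_le_sq h5 hn0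
  have h7 : t - t' = (E - E') * ∑ y ∈ χ.support, χ y * (ψ y * φ y) - S := by
    rw [hid]
    ring
  rw [h7]
  calc |(E - E') * ∑ y ∈ χ.support, χ y * (ψ y * φ y) - S|
      ≤ |(E - E') * ∑ y ∈ χ.support, χ y * (ψ y * φ y)| + |S| := abs_sub _ _
    _ ≤ n * |E - E'| + ε := by
        rw [abs_mul, mul_comm n]
        exact add_le_add (mul_le_mul_of_nonneg_left hb (abs_nonneg _)) hSb

/-- if for almost no energy there is a value of `V x` with an eigenvector not vanishing at `x`,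
then for almost every value of `V x` there is no energy with such an eigenvector -/
theorem null_slice (h : Adm T0 κ ρ0 b) (s : Sym2 (Fin d → ℤ) → Bool) (hc : CutOK T0 κ s)
    (V : (Fin d → ℤ) → ℝ) (x : Fin d → ℤ)
    (hE : ∀ᵐ E : ℝ, ¬ ∃ t ψ, IsEig T0 κ s (Function.update V x t) E ψ ∧ ψ x ≠ 0) :
    ∀ᵐ t : ℝ, ¬ ∃ E ψ, IsEig T0 κ s (Function.update V x t) E ψ ∧ ψ x ≠ 0 := by
  classical
  -- normalised eigenvectors with norm square at most `n`
  let B : ℕ → ℝ → ℝ → Prop := fun n E t => ∃ ψ, IsEig T0 κ s (Function.update V x t) E ψ ∧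
    ψ x = 1 ∧ ∑' y, ψ y ^ 2 ≤ n
  have hB : ∀ E t ψ, IsEig T0 κ s (Function.update V x t) E ψ → ψ x ≠ 0 → ∃ n, B n E t := by
    intro E t ψ hψ hx
    obtain ⟨h1, h2⟩ := hψ
    obtain ⟨n, hn⟩ := exists_nat_ge (∑' y, ((ψ x)⁻¹ * ψ y) ^ 2)
    refine ⟨n, fun y => (ψ x)⁻¹ * ψ y, ⟨?_, ?_⟩, inv_mul_cancel₀ hx, hn⟩
    · have := h1.mul_left ((ψ x)⁻¹ ^ 2)
      refine this.congr fun y => ?_
      ring
    · intro y
      have h3 := h2 y
      have h4 : ∑' w, Kf T0 κ s y w * ((ψ x)⁻¹ * ψ w) =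
          (ψ x)⁻¹ * ∑' w, Kf T0 κ s y w * ψ w := by
        rw [← tsum_mul_left]
        refine tsum_congr fun w => ?_
        ring
      rw [h4]
      linear_combination (ψ x)⁻¹ * h3
  have hLip : ∀ n E t E' t', B n E t → B n E' t' → |t - t'| ≤ n * |E - E'| := by
    rintro n E t E' t' ⟨ψ, h1, h2, h3⟩ ⟨φ, h4, h5, h6⟩
    exact pairing h s hc V x t t' E E' ψ φ h1 h4 h2 h5 n h3 h6
  have hnull : ∀ n, volume {t : ℝ | ∃ E, B n E t} = 0 := by
    intro n
    set En := {E : ℝ | ∃ t, B n E t} with hEn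
    have hEn0 : volume En = 0 := by
      refine measure_mono_null ?_ hE
      rintro E ⟨t, ψ, h1, h2, -⟩ h3
      exact h3 ⟨t, ψ, h1, by rw [h2]; exact one_ne_zero⟩
    have hch : ∀ E : ℝ, ∃ t : ℝ, E ∈ En → B n E t := by
      intro E
      by_cases hE' : E ∈ En
      · obtain ⟨t, ht⟩ := hE'
        exact ⟨t, fun _ => ht⟩
      · exact ⟨0, fun h' => absurd h' hE'⟩
    choose τ hτ using hch
    have hlip : LipschitzOnWith (n : NNReal) τ En := by
      apply LipschitzOnWith.of_dist_le_mul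
      intro E hE1 E' hE2
      rw [Real.dist_eq, Real.dist_eq]
      exact hLip n E _ E' _ (hτ E hE1) (hτ E' hE2)
    have himg : {t : ℝ | ∃ E, B n E t} ⊆ τ '' En := by
      rintro t ⟨E, hEt⟩
      have hE1 : E ∈ En := ⟨t, hEt⟩
      refine ⟨E, hE1, ?_⟩
      have h1 := hLip n E _ E _ (hτ E hE1) hEt
      rw [sub_self, abs_zero, mul_zero] at h1
      have h2 := abs_nonpos_iff.mp h1
      linarith
    refine measure_mono_null himg ?_
    have h1 := hlip.hausdorffMeasure_image_le (d := 1) zero_le_one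
    rw [hausdorffMeasure_real] at h1
    rw [hEn0, mul_zero] at h1
    exact le_antisymm h1 zero_le
  have hall : volume (⋃ n, {t : ℝ | ∃ E, B n E t}) = 0 := measure_iUnion_null hnull
  rw [ae_iff]
  refine measure_mono_null ?_ hall
  intro t ht
  rw [Set.mem_ofPred_eq, not_not] at ht
  obtain ⟨E, ψ, h1, h2⟩ := ht
  obtain ⟨n, hn⟩ := hB E t ψ h1 h2
  exact Set.mem_iUnion.mpr ⟨n, E, hn⟩

end lattice

end H10PL
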