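import Pool.Agent.H10R2.PL.Defs

/-! Measurability of the set of potentials and signs with an eigenvector not vanishing at `x`. -/

namespace H10PL

open MeasureTheory ProbabilityTheory Matrix Set

section lattice

variable {d : ℕ} {T0 : (Fin d → ℤ) → (Fin d → ℤ) → ℝ} {κ : (Fin d → ℤ) → ℝ} {ρ0 b : ℝ}

/-- a majorant of the kernel, independent of the signs -/
noncomputable def swbM (T0 : (Fin d → ℤ) → (Fin d → ℤ) → ℝ) (κ : (Fin d → ℤ) → ℝ)
    (y w : Fin d → ℤ) : ℝ := |T0 y w| + |κ (y - w)|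

lemma swb_abs (s : Sym2 (Fin d → ℤ) → Bool) (y w : Fin d → ℤ) :
    |Kf T0 κ s y w| ≤ swbM T0 κ y w := by
  unfold Kf swbM
  refine (abs_add_le _ _).trans ?_
  have h1 : |sg (s s(y, w))| = 1 := by
    unfold sg
    split_ifs <;> simp
  rw [abs_mul, h1, one_mul]

lemma swb_sq (h : Adm T0 κ ρ0 b) (y : Fin d → ℤ) : Summable fun w => swbM T0 κ y w ^ 2 := by
  have h1 : Summable fun w => |T0 y w| :=
    summable_of_sum_le (fun w => abs_nonneg _) (h.T0sum y)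
  have hb : ∀ w, |T0 y w| ≤ b := by
    intro w
    have := h.T0sum y {w}
    simpa using this
  have h2 : Summable fun w => T0 y w ^ 2 := by
    refine Summable.of_nonneg_of_le (fun w => sq_nonneg _) (fun w => ?_) (h1.mul_left b)
    rw [← sq_abs, sq]
    exact mul_le_mul_of_nonneg_right (hb w) (abs_nonneg _)
  have h3 : Summable fun w => κ (y - w) ^ 2 :=
    h.κsq.comp_injective (sub_right_injective (b := y))
  refine Summable.of_nonneg_of_le (fun w => sq_nonneg _) (fun w => ?_)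
    ((h2.mul_left 2).add (h3.mul_left 2))
  unfold swbM
  rw [← sq_abs (T0 y w), ← sq_abs (κ (y - w))]
  nlinarith [sq_nonneg (|T0 y w| - |κ (y - w)|)]

lemma swb_cs (s : Sym2 (Fin d → ℤ) → Bool) (y : Fin d → ℤ) (ψ : (Fin d → ℤ) → ℝ) {n : ℝ}
    (hn : 0 ≤ n) (hψ : ∀ F : Finset (Fin d → ℤ), ∑ w ∈ F, ψ w ^ 2 ≤ n ^ 2)
    (G : Finset (Fin d → ℤ)) :
    |∑ w ∈ G, Kf T0 κ s y w * ψ w| ≤ n * Real.sqrt (∑ w ∈ G, swbM T0 κ y w ^ 2) := by
  have h1 : |∑ w ∈ G, Kf T0 κ s y w * ψ w| ≤ ∑ w ∈ G, swbM T0 κ y w * |ψ w| := by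
    refine (Finset.abs_sum_le_sum_abs _ _).trans (Finset.sum_le_sum fun w _ => ?_)
    rw [abs_mul]
    exact mul_le_mul_of_nonneg_right (swb_abs s y w) (abs_nonneg _)
  refine h1.trans ((Real.sum_mul_le_sqrt_mul_sqrt G _ _).trans ?_)
  rw [mul_comm]
  apply mul_le_mul_of_nonneg_right _ (Real.sqrt_nonneg _)
  rw [show n = Real.sqrt (n ^ 2) from (Real.sqrt_sq hn).symm]
  apply Real.sqrt_le_sqrt
  simpa only [sq_abs] using hψ G

lemma swb_summable (h : Adm T0 κ ρ0 b) (s : Sym2 (Fin d → ℤ) → Bool) (y : Fin d → ℤ)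
    (ψ : (Fin d → ℤ) → ℝ) (hψ : Summable fun w => ψ w ^ 2) :
    Summable fun w => Kf T0 κ s y w * ψ w := by
  apply Summable.of_norm_bounded ((swb_sq h y).add hψ)
  intro w
  rw [Real.norm_eq_abs, abs_mul]
  have h1 := swb_abs (T0 := T0) (κ := κ) s y w
  have h2 : |Kf T0 κ s y w| * |ψ w| ≤ swbM T0 κ y w * |ψ w| :=
    mul_le_mul_of_nonneg_right h1 (abs_nonneg _)
  rw [← sq_abs (ψ w)]
  nlinarith [sq_nonneg (swbM T0 κ y w - |ψ w|), sq_nonneg (swbM T0 κ y w),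
    sq_nonneg (|ψ w|)]

lemma swb_iff (h : Adm T0 κ ρ0 b) (s : Sym2 (Fin d → ℤ) → Bool) (y : Fin d → ℤ)
    (ψ : (Fin d → ℤ) → ℝ) {n : ℝ} (hn : 0 ≤ n)
    (hψ : ∀ F : Finset (Fin d → ℤ), ∑ w ∈ F, ψ w ^ 2 ≤ n ^ 2) (v E : ℝ) :
    ((∑' w, Kf T0 κ s y w * ψ w) + v * ψ y = E * ψ y) ↔
      ∀ F : Finset (Fin d → ℤ), |(∑ w ∈ F, Kf T0 κ s y w * ψ w) + (v - E) * ψ y| ≤
        n * Real.sqrt ((∑' w, swbM T0 κ y w ^ 2) - ∑ w ∈ F, swbM T0 κ y w ^ 2) := by
  have hsum : Summable fun w => ψ w ^ 2 := summable_of_sum_le (fun w => sq_nonneg _) hψ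
  have hs := swb_summable h s y ψ hsum
  have hM := swb_sq h y
  constructor
  · intro heq F
    have h1 : (∑ w ∈ F, Kf T0 κ s y w * ψ w) + (v - E) * ψ y =
        -((∑' w, Kf T0 κ s y w * ψ w) - ∑ w ∈ F, Kf T0 κ s y w * ψ w) := by
      linarith
    rw [h1, abs_neg]
    have hlim : Filter.Tendsto (fun G : Finset (Fin d → ℤ) =>
        |(∑ w ∈ G, Kf T0 κ s y w * ψ w) - ∑ w ∈ F, Kf T0 κ s y w * ψ w|) Filter.atTop
        (nhds |(∑' w, Kf T0 κ s y w * ψ w) - ∑ w ∈ F, Kf T0 κ s y w * ψ w|) :=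
      (hs.hasSum.sub_const _).abs
    apply le_of_tendsto hlim
    filter_upwards [Filter.eventually_ge_atTop F] with G hG
    have h2 : (∑ w ∈ G, Kf T0 κ s y w * ψ w) - ∑ w ∈ F, Kf T0 κ s y w * ψ w =
        ∑ w ∈ G \ F, Kf T0 κ s y w * ψ w := by
      rw [← Finset.sum_sdiff hG]; ring
    rw [h2]
    refine (swb_cs s y ψ hn hψ (G \ F)).trans ?_
    apply mul_le_mul_of_nonneg_left _ hn
    apply Real.sqrt_le_sqrt
    have h3 : ∑ w ∈ G \ F, swbM T0 κ y w ^ 2 =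
        (∑ w ∈ G, swbM T0 κ y w ^ 2) - ∑ w ∈ F, swbM T0 κ y w ^ 2 := by
      rw [← Finset.sum_sdiff hG]; ring
    rw [h3]
    have h4 := hM.sum_le_tsum G (fun w _ => sq_nonneg _)
    linarith
  · intro hF
    have hl : Filter.Tendsto (fun F : Finset (Fin d → ℤ) =>
        |(∑ w ∈ F, Kf T0 κ s y w * ψ w) + (v - E) * ψ y|) Filter.atTop
        (nhds |(∑' w, Kf T0 κ s y w * ψ w) + (v - E) * ψ y|) :=
      (hs.hasSum.add_const _).abs
    have hr : Filter.Tendsto (fun F : Finset (Fin d → ℤ) =>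
        n * Real.sqrt ((∑' w, swbM T0 κ y w ^ 2) - ∑ w ∈ F, swbM T0 κ y w ^ 2)) Filter.atTop
        (nhds (n * Real.sqrt ((∑' w, swbM T0 κ y w ^ 2) - ∑' w, swbM T0 κ y w ^ 2))) := by
      apply Filter.Tendsto.const_mul
      exact (Real.continuous_sqrt.tendsto _).comp (hM.hasSum.const_sub _)
    have hle := le_of_tendsto_of_tendsto' hl hr hF
    rw [sub_self, Real.sqrt_zero, mul_zero] at hle
    have h0 := abs_eq_zero.1 (le_antisymm hle (abs_nonneg _))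
    linarith

/-- a compact set of vectors -/
def swbC (d : ℕ) (n : ℕ) : Set ((Fin d → ℤ) → ℝ) :=
  {ψ | ∀ F : Finset (Fin d → ℤ), ∑ w ∈ F, ψ w ^ 2 ≤ (n : ℝ) ^ 2}

lemma swb_closedC (n : ℕ) : IsClosed (swbC d n) := by
  have : swbC d n = ⋂ F : Finset (Fin d → ℤ), {ψ | ∑ w ∈ F, ψ w ^ 2 ≤ (n : ℝ) ^ 2} := by
    ext ψ; simp [swbC]
  rw [this]
  refine isClosed_iInter fun F => isClosed_le ?_ continuous_const
  fun_prop

lemma swb_compactC (n : ℕ) : IsCompact (swbC d n) := by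
  refine (isCompact_univ_pi (fun _ : Fin d → ℤ => isCompact_Icc (a := -(n : ℝ)) (b := n))
    ).of_isClosed_subset (swb_closedC n) ?_
  intro ψ hψ w _
  have h1 := hψ {w}
  rw [Finset.sum_singleton] at h1
  have h2 : |ψ w| ≤ n := by
    rw [← abs_of_nonneg (Nat.cast_nonneg (α := ℝ) n)]
    exact sq_le_sq.1 h1
  exact abs_le.1 h2

lemma swb_continuous_Kf (y w : Fin d → ℤ) :
    Continuous fun s : Sym2 (Fin d → ℤ) → Bool => Kf T0 κ s y w := by
  unfold Kf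
  have h1 : Continuous sg := continuous_of_discreteTopology
  exact continuous_const.add ((h1.comp (continuous_apply _)).mul continuous_const)

theorem measurable_bad (h : Adm T0 κ ρ0 b) (x : Fin d → ℤ) :
    MeasurableSet {ω : ((Fin d → ℤ) → ℝ) × (Sym2 (Fin d → ℤ) → Bool) |
      ∃ E ψ, IsEig T0 κ ω.2 ω.1 E ψ ∧ ψ x ≠ 0} := by
  -- the compact set of pairs `(E, ψ)`
  set K : ℕ → Set (ℝ × ((Fin d → ℤ) → ℝ)) := fun n => Icc (-(n : ℝ)) n ×ˢ swbC d n with hK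
  have hKc : ∀ n, IsCompact (K n) := fun n => isCompact_Icc.prod (swb_compactC n)
  set B : ℕ → Set (((Fin d → ℤ) → ℝ) × (Sym2 (Fin d → ℤ) → Bool)) := fun n =>
    {ω | ∃ k ∈ K n, k.2 x = 1 ∧ ∀ (y : Fin d → ℤ) (F : Finset (Fin d → ℤ)),
      |(∑ w ∈ F, Kf T0 κ ω.2 y w * k.2 w) + (ω.1 y - k.1) * k.2 y| ≤
        n * Real.sqrt ((∑' w, swbM T0 κ y w ^ 2) - ∑ w ∈ F, swbM T0 κ y w ^ 2)} with hB
  have hclosed : ∀ n, IsClosed (B n) := by
    intro n
    haveI : CompactSpace (K n) := isCompact_iff_compactSpace.1 (hKc n)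
    set S : Set ((K n) × (((Fin d → ℤ) → ℝ) × (Sym2 (Fin d → ℤ) → Bool))) :=
      {p | p.1.1.2 x = 1 ∧ ∀ (y : Fin d → ℤ) (F : Finset (Fin d → ℤ)),
      |(∑ w ∈ F, Kf T0 κ p.2.2 y w * p.1.1.2 w) + (p.2.1 y - p.1.1.1) * p.1.1.2 y| ≤
        n * Real.sqrt ((∑' w, swbM T0 κ y w ^ 2) - ∑ w ∈ F, swbM T0 κ y w ^ 2)} with hS
    have hSc : IsClosed S := by
      have hev : ∀ w : Fin d → ℤ, Continuous fun p : (K n) ×
          (((Fin d → ℤ) → ℝ) × (Sym2 (Fin d → ℤ) → Bool)) => p.1.1.2 w := fun w =>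
        (continuous_apply w).comp (continuous_snd.comp (continuous_subtype_val.comp
          continuous_fst))
      have h1 : IsClosed {p : (K n) × (((Fin d → ℤ) → ℝ) × (Sym2 (Fin d → ℤ) → Bool)) |
          p.1.1.2 x = 1} := isClosed_eq (hev x) continuous_const
      have h2 : IsClosed (⋂ y : Fin d → ℤ, ⋂ F : Finset (Fin d → ℤ),
          {p : (K n) × (((Fin d → ℤ) → ℝ) × (Sym2 (Fin d → ℤ) → Bool)) |
          |(∑ w ∈ F, Kf T0 κ p.2.2 y w * p.1.1.2 w) + (p.2.1 y - p.1.1.1) * p.1.1.2 y| ≤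
          n * Real.sqrt ((∑' w, swbM T0 κ y w ^ 2) - ∑ w ∈ F, swbM T0 κ y w ^ 2)}) := by
        refine isClosed_iInter fun y => isClosed_iInter fun F =>
          isClosed_le (Continuous.abs (Continuous.add ?_ ?_)) continuous_const
        · refine continuous_finset_sum _ fun w _ => Continuous.mul ?_ (hev w)
          exact (swb_continuous_Kf y w).comp (continuous_snd.comp continuous_snd)
        · refine Continuous.mul (Continuous.sub ?_ ?_) (hev y)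
          · exact (continuous_apply y).comp (continuous_fst.comp continuous_snd)
          · exact continuous_fst.comp (continuous_subtype_val.comp continuous_fst)
      have h3 := h1.inter h2
      have h4 : S = {p : (K n) × (((Fin d → ℤ) → ℝ) × (Sym2 (Fin d → ℤ) → Bool)) |
          p.1.1.2 x = 1} ∩ (⋂ y : Fin d → ℤ, ⋂ F : Finset (Fin d → ℤ),
          {p : (K n) × (((Fin d → ℤ) → ℝ) × (Sym2 (Fin d → ℤ) → Bool)) |
          |(∑ w ∈ F, Kf T0 κ p.2.2 y w * p.1.1.2 w) + (p.2.1 y - p.1.1.1) * p.1.1.2 y| ≤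
          n * Real.sqrt ((∑' w, swbM T0 κ y w ^ 2) - ∑ w ∈ F, swbM T0 κ y w ^ 2)}) := by
        ext p
        simp only [hS, mem_setOf_eq, mem_inter_iff, mem_iInter]
      rw [h4]
      exact h3
    have himg := isClosedMap_snd_of_compactSpace (X := K n) S hSc
    have heq : B n = Prod.snd '' S := by
      ext ω
      constructor
      · rintro ⟨k, hk, h1, h2⟩
        exact ⟨(⟨k, hk⟩, ω), ⟨h1, h2⟩, rfl⟩
      · rintro ⟨⟨k, ω'⟩, ⟨h1, h2⟩, rfl⟩
        exact ⟨k.1, k.2, h1, h2⟩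
    rw [heq]
    exact himg
  have hbad : {ω : ((Fin d → ℤ) → ℝ) × (Sym2 (Fin d → ℤ) → Bool) |
      ∃ E ψ, IsEig T0 κ ω.2 ω.1 E ψ ∧ ψ x ≠ 0} = ⋃ n, B n := by
    ext ω
    rw [mem_iUnion]
    constructor
    · rintro ⟨E, ψ, ⟨hsum, heq⟩, hx⟩
      set ψ' : (Fin d → ℤ) → ℝ := fun w => (ψ x)⁻¹ * ψ w with hψ'
      have hsum' : Summable fun w => ψ' w ^ 2 := by
        have := hsum.mul_left ((ψ x)⁻¹ ^ 2)
        refine this.congr fun w => ?_
        simp only [hψ']; ring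
      obtain ⟨n, hn⟩ := exists_nat_ge (max (|E|) (max 1 (∑' w, ψ' w ^ 2)))
      have hn1 : |E| ≤ n := (le_max_left _ _).trans hn
      have hn2 : (1 : ℝ) ≤ n := (le_max_left _ _).trans ((le_max_right _ _).trans hn)
      have hn3 : ∑' w, ψ' w ^ 2 ≤ n := (le_max_right _ _).trans ((le_max_right _ _).trans hn)
      have hC : ∀ F : Finset (Fin d → ℤ), ∑ w ∈ F, ψ' w ^ 2 ≤ (n : ℝ) ^ 2 := by
        intro F
        have h1 := hsum'.sum_le_tsum F (fun w _ => sq_nonneg _)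
        nlinarith
      refine ⟨n, (E, ψ'), ⟨abs_le.1 hn1, hC⟩, ?_, fun y F => ?_⟩
      · simp only [hψ']
        exact inv_mul_cancel₀ hx
      · refine (swb_iff h ω.2 y ψ' (Nat.cast_nonneg n) hC (ω.1 y) E).1 ?_ F
        have h2 : ∑' w, Kf T0 κ ω.2 y w * ψ' w = (ψ x)⁻¹ * ∑' w, Kf T0 κ ω.2 y w * ψ w := by
          rw [← tsum_mul_left]
          apply tsum_congr
          intro w
          simp only [hψ']; ring
        rw [h2]
        simp only [hψ']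
        have := heq y
        linear_combination (ψ x)⁻¹ * this
    · rintro ⟨n, ⟨E, ψ⟩, ⟨hE, hC⟩, h1, h2⟩
      refine ⟨E, ψ, ⟨summable_of_sum_le (fun w => sq_nonneg _) hC, fun y => ?_⟩, ?_⟩
      · exact (swb_iff h ω.2 y ψ (Nat.cast_nonneg n) hC (ω.1 y) E).2 (h2 y)
      · simp only at h1
        rw [h1]
        exact one_ne_zero
  rw [hbad]
  exact MeasurableSet.iUnion fun n => (hclosed n).measurableSet

end lattice

end H10PL
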