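import Pool.Agent.H10R2.PL.Prob
import Pool.Agent.H10R2.PL.SWA
import Pool.Agent.H10R2.PL.SWB

/-! Task SW: Fubini assembly of the Simon-Wolff argument. -/

namespace H10PL

open MeasureTheory ProbabilityTheory Matrix Set

variable {d : ℕ} {T0 : (Fin d → ℤ) → (Fin d → ℤ) → ℝ} {κ : (Fin d → ℤ) → ℝ} {ρ0 b : ℝ}

/-- resampling the potential at `x` -/
theorem resample_mp (v : NNReal) (x : Fin d → ℤ) :
    MeasurePreserving (fun p : (((Fin d → ℤ) → ℝ) × (Sym2 (Fin d → ℤ) → Bool)) × ℝ =>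
        (Function.update p.1.1 x p.2, p.1.2))
      (((PV d v).prod (Ps d)).prod (gaussianReal 0 v)) ((PV d v).prod (Ps d)) := by
  have h1 : MeasurePreserving (fun p : ((((Fin d → ℤ) → ℝ) × ℝ) × (Sym2 (Fin d → ℤ) → Bool)) =>
      (Function.update p.1.1 x p.1.2, p.2))
      (((PV d v).prod (gaussianReal 0 v)).prod (Ps d)) ((PV d v).prod (Ps d)) :=
    (update_mp v x).prod (MeasurePreserving.id _)
  have h2 : MeasurePreserving (fun p : (((Fin d → ℤ) → ℝ) × (Sym2 (Fin d → ℤ) → Bool)) × ℝ =>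
        ((p.1.1, p.2), p.1.2))
      (((PV d v).prod (Ps d)).prod (gaussianReal 0 v))
      (((PV d v).prod (gaussianReal 0 v)).prod (Ps d)) := by
    have a1 := measurePreserving_prodAssoc (PV d v) (Ps d) (gaussianReal 0 v)
    have a2 : MeasurePreserving (Prod.map id Prod.swap)
        ((PV d v).prod ((Ps d).prod (gaussianReal 0 v)))
        ((PV d v).prod ((gaussianReal 0 v).prod (Ps d))) :=
      (MeasurePreserving.id _).prod Measure.measurePreserving_swap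
    have a3 := (measurePreserving_prodAssoc (PV d v) (gaussianReal 0 v) (Ps d)).symm
    exact a3.comp (a2.comp a1)
  exact h1.comp h2

theorem null_bad (h : Adm T0 κ ρ0 b) (v : NNReal) (hv : v ≠ 0) (x : Fin d → ℤ)
    (hcut : ∀ᵐ s ∂(Ps d), CutOK T0 κ s)
    (hinf : ∀ (M : ℕ),
      ∀ᵐ p : ℝ × (((Fin d → ℤ) → ℝ) × (Sym2 (Fin d → ℤ) → Bool))
        ∂(volume.prod ((PV d v).prod (Ps d))), InfN T0 κ p.2.2 p.2.1 p.1 x M) :
    ∀ᵐ ω : ((Fin d → ℤ) → ℝ) × (Sym2 (Fin d → ℤ) → Bool) ∂((PV d v).prod (Ps d)),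
      ¬ ∃ E ψ, IsEig T0 κ ω.2 ω.1 E ψ ∧ ψ x ≠ 0 := by
  -- step 1: for a.e. `ω`, for a.e. `E`, all `InfN`
  have h1 : ∀ᵐ p : ℝ × (((Fin d → ℤ) → ℝ) × (Sym2 (Fin d → ℤ) → Bool))
        ∂(volume.prod ((PV d v).prod (Ps d))), ∀ M : ℕ, InfN T0 κ p.2.2 p.2.1 p.1 x M :=
    ae_all_iff.mpr hinf
  have h2 : ∀ᵐ q : (((Fin d → ℤ) → ℝ) × (Sym2 (Fin d → ℤ) → Bool)) × ℝ
        ∂(((PV d v).prod (Ps d)).prod volume), ∀ M : ℕ, InfN T0 κ q.1.2 q.1.1 q.2 x M := by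
    have := (Measure.measurePreserving_swap (μ := (PV d v).prod (Ps d))
      (ν := (volume : Measure ℝ))).quasiMeasurePreserving.ae h1
    exact this
  have h3 : ∀ᵐ ω : ((Fin d → ℤ) → ℝ) × (Sym2 (Fin d → ℤ) → Bool) ∂((PV d v).prod (Ps d)),
      ∀ᵐ E : ℝ, ∀ M : ℕ, InfN T0 κ ω.2 ω.1 E x M := Measure.ae_ae_of_ae_prod h2
  -- step 2: resample
  have h4 := (resample_mp v x).quasiMeasurePreserving.ae h3
  have h5 : ∀ᵐ ω : ((Fin d → ℤ) → ℝ) × (Sym2 (Fin d → ℤ) → Bool) ∂((PV d v).prod (Ps d)),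
      ∀ᵐ t ∂(gaussianReal 0 v), ∀ᵐ E : ℝ, ∀ M : ℕ,
        InfN T0 κ ω.2 (Function.update ω.1 x t) E x M := Measure.ae_ae_of_ae_prod h4
  have hna : NullSingletonClass (gaussianReal 0 v) := nullSingletonClass_gaussianReal hv
  have h6 : ∀ᵐ ω : ((Fin d → ℤ) → ℝ) × (Sym2 (Fin d → ℤ) → Bool) ∂((PV d v).prod (Ps d)),
      ∀ᵐ t ∂(gaussianReal 0 v), ¬ ∃ E ψ, IsEig T0 κ ω.2 (Function.update ω.1 x t) E ψ ∧ ψ x ≠ 0 := by
    have hcut' : ∀ᵐ ω : ((Fin d → ℤ) → ℝ) × (Sym2 (Fin d → ℤ) → Bool) ∂((PV d v).prod (Ps d)),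
        CutOK T0 κ ω.2 := Measure.quasiMeasurePreserving_snd.ae hcut
    filter_upwards [h5, hcut'] with ω hω hωc
    obtain ⟨t1, ht1⟩ := hω.exists
    have hne : ∀ᵐ t ∂(gaussianReal 0 v), t ≠ t1 := by
      rw [ae_iff]
      simp only [ne_eq, not_not, ofPred_eq_eq_singleton]
      exact measure_singleton t1
    obtain ⟨t2, ht2, hne2⟩ := (hω.and hne).exists
    have hE : ∀ᵐ E : ℝ, ¬ ∃ t ψ, IsEig T0 κ ω.2 (Function.update ω.1 x t) E ψ ∧ ψ x ≠ 0 := by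
      filter_upwards [ht1, ht2] with E hE1 hE2
      rintro ⟨t, ψ, hψ, hx⟩
      have e1 : t = Function.update ω.1 x t1 x :=
        kill h ω.2 (Function.update ω.1 x t1) E x hE1 t ψ (by rwa [Function.update_idem]) hx
      have e2 : t = Function.update ω.1 x t2 x :=
        kill h ω.2 (Function.update ω.1 x t2) E x hE2 t ψ (by rwa [Function.update_idem]) hx
      rw [Function.update_self] at e1 e2
      exact hne2 (e2.symm.trans e1)
    have h7 := null_slice h ω.2 hωc ω.1 x hE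
    exact (gaussianReal_absolutelyContinuous 0 hv).ae_le h7
  -- step 3: conclude
  have hmeas := measurable_bad h x
  have h8 : ∀ᵐ q : (((Fin d → ℤ) → ℝ) × (Sym2 (Fin d → ℤ) → Bool)) × ℝ
        ∂(((PV d v).prod (Ps d)).prod (gaussianReal 0 v)),
      ¬ ∃ E ψ, IsEig T0 κ q.1.2 (Function.update q.1.1 x q.2) E ψ ∧ ψ x ≠ 0 := by
    refine (Measure.ae_prod_iff_ae_ae (p := fun q : (((Fin d → ℤ) → ℝ) ×
      (Sym2 (Fin d → ℤ) → Bool)) × ℝ =>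
      ¬ ∃ E ψ, IsEig T0 κ q.1.2 (Function.update q.1.1 x q.2) E ψ ∧ ψ x ≠ 0) ?_).mpr h6
    exact ((resample_mp v x).measurable hmeas).compl
  have h9 := (resample_mp v x).measure_preimage hmeas.nullMeasurableSet
  rw [ae_iff]
  simp only [not_not]
  rw [← h9]
  rw [ae_iff] at h8
  simp only [not_not] at h8
  exact h8

theorem no_eigenvector (h : Adm T0 κ ρ0 b) (v : NNReal) (hv : v ≠ 0)
    (hcut : ∀ᵐ s ∂(Ps d), CutOK T0 κ s)
    (hinf : ∀ (x : Fin d → ℤ) (M : ℕ),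
      ∀ᵐ p : ℝ × (((Fin d → ℤ) → ℝ) × (Sym2 (Fin d → ℤ) → Bool))
        ∂(volume.prod ((PV d v).prod (Ps d))), InfN T0 κ p.2.2 p.2.1 p.1 x M) :
    ∀ᵐ ω : ((Fin d → ℤ) → ℝ) × (Sym2 (Fin d → ℤ) → Bool) ∂((PV d v).prod (Ps d)),
      ∀ (E : ℝ) (ψ : (Fin d → ℤ) → ℝ), Summable (fun y => ψ y ^ 2) →
        (∀ y, (∑' w, Kf T0 κ ω.2 y w * ψ w) + ω.1 y * ψ y = E * ψ y) → ψ = 0 := by
  have h1 := ae_all_iff.mpr (fun x => null_bad h v hv x hcut (hinf x))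
  filter_upwards [h1] with ω hω E ψ hs he
  funext x
  by_contra hx
  exact hω x ⟨E, ψ, ⟨hs, he⟩, hx⟩

end H10PL
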