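import Pool.Agent.H10R2.PL.AsmE
import Pool.Agent.H10R2.PL.SW
import Pool.Agent.H10R2.PL.Pow
import Pool.Agent.H10R2.PL.Cplx
import Pool.Agent.H10R2.PL.Cut

/-! Final assembly: real and complex eigenfunctions, the lattice Laplacian as `T0`. -/

namespace H10PL

open MeasureTheory ProbabilityTheory Set

/-- the adjacency kernel of `Z^d` -/
noncomputable def T1 (d : ℕ) (y w : Fin d → ℤ) : ℝ :=
  ∑ i : Fin d, ((if w = y + Pi.single i 1 then (1 : ℝ) else 0) +
    (if w = y - Pi.single i 1 then 1 else 0))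

theorem T1_nonneg (d : ℕ) (y w : Fin d → ℤ) : 0 ≤ T1 d y w := by
  unfold T1
  refine Finset.sum_nonneg fun i _ => ?_
  split_ifs <;> norm_num

theorem T1_symm (d : ℕ) (y w : Fin d → ℤ) : T1 d y w = T1 d w y := by
  unfold T1
  refine Finset.sum_congr rfl fun i _ => ?_
  have h1 : (w = y + Pi.single i 1) ↔ (y = w - Pi.single i 1) := by
    constructor
    · rintro rfl; simp
    · rintro rfl; simp
  have h2 : (w = y - Pi.single i 1) ↔ (y = w + Pi.single i 1) := by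
    constructor
    · rintro rfl; simp
    · rintro rfl; simp
  simp only [h1, h2]
  ring

theorem T1_diag (d : ℕ) (y : Fin d → ℤ) : T1 d y y = 0 := by
  unfold T1
  refine Finset.sum_eq_zero fun i _ => ?_
  have h1 : ¬ (y = y + Pi.single i 1) := by
    intro hc
    have := congrFun hc i
    simp at this
  have h2 : ¬ (y = y - Pi.single i 1) := by
    intro hc
    have := congrFun hc i
    simp at this
    omega
  simp [h1, h2]

theorem norm_single_one (d : ℕ) (i : Fin d) : ‖(Pi.single i (1 : ℤ) : Fin d → ℤ)‖ ≤ 1 := by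
  refine (pi_norm_le_iff_of_nonneg zero_le_one).2 fun j => ?_
  by_cases hj : j = i
  · subst hj
    simp
  · rw [Pi.single_eq_of_ne hj]
    simp

theorem T1_range (d : ℕ) (y w : Fin d → ℤ) (h : (1 : ℝ) < ‖y - w‖) : T1 d y w = 0 := by
  unfold T1
  refine Finset.sum_eq_zero fun i _ => ?_
  have h1 : ¬ (w = y + Pi.single i 1) := by
    intro hc
    rw [hc] at h
    have h3 : y - (y + Pi.single i 1) = -(Pi.single i (1 : ℤ) : Fin d → ℤ) := by abel
    rw [h3, norm_neg] at h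
    have := norm_single_one d i
    linarith
  have h2 : ¬ (w = y - Pi.single i 1) := by
    intro hc
    rw [hc] at h
    have h3 : y - (y - Pi.single i 1) = (Pi.single i (1 : ℤ) : Fin d → ℤ) := by abel
    rw [h3] at h
    have := norm_single_one d i
    linarith
  simp [h1, h2]

theorem T1_sum (d : ℕ) (y : Fin d → ℤ) (F : Finset (Fin d → ℤ)) :
    ∑ w ∈ F, |T1 d y w| ≤ 2 * d := by
  have h1 : ∀ w, |T1 d y w| = T1 d y w := fun w => abs_of_nonneg (T1_nonneg d y w)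
  simp only [h1]
  unfold T1
  rw [Finset.sum_comm]
  have h2 : ∀ i ∈ (Finset.univ : Finset (Fin d)),
      ∑ w ∈ F, ((if w = y + Pi.single i 1 then (1 : ℝ) else 0) +
      (if w = y - Pi.single i 1 then 1 else 0)) ≤ 2 := by
    intro i _
    rw [Finset.sum_add_distrib, Finset.sum_ite_eq', Finset.sum_ite_eq']
    split_ifs <;> norm_num
  refine (Finset.sum_le_sum h2).trans ?_
  simp [mul_comm]

theorem T1_apply (d : ℕ) (a : (Fin d → ℤ) → ℝ) (x : Fin d → ℤ) :
    HasSum (fun w => T1 d x w * a w)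
      (∑ i : Fin d, (a (x + Pi.single i 1) + a (x - Pi.single i 1))) := by
  have key : ∀ z : Fin d → ℤ, HasSum (fun w => (if w = z then (1 : ℝ) else 0) * a w) (a z) := by
    intro z
    have h1 := hasSum_ite_eq z (a z)
    have h2 : (fun w => (if w = z then (1 : ℝ) else 0) * a w) =
        fun w => if w = z then a z else 0 := by
      funext w
      split_ifs with hw
      · rw [hw, one_mul]
      · rw [zero_mul]
    rw [h2]
    exact h1
  unfold T1
  simp only [Finset.sum_mul, add_mul]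
  exact hasSum_sum fun i _ => (key _).add (key _)

theorem T1_applyC (d : ℕ) (a : (Fin d → ℤ) → ℂ) (x : Fin d → ℤ) :
    HasSum (fun w => (T1 d x w : ℂ) * a w)
      (∑ i : Fin d, (a (x + Pi.single i 1) + a (x - Pi.single i 1))) := by
  have key : ∀ z : Fin d → ℤ, HasSum (fun w => (if w = z then (1 : ℂ) else 0) * a w) (a z) := by
    intro z
    have h1 := hasSum_ite_eq z (a z)
    have h2 : (fun w => (if w = z then (1 : ℂ) else 0) * a w) =
        fun w => if w = z then a z else 0 := by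
      funext w
      split_ifs with hw
      · rw [hw, one_mul]
      · rw [zero_mul]
    rw [h2]
    exact h1
  have h3 : ∀ w, (T1 d x w : ℂ) = ∑ i : Fin d, ((if w = x + Pi.single i 1 then (1 : ℂ) else 0) +
      (if w = x - Pi.single i 1 then 1 else 0)) := by
    intro w
    unfold T1
    rw [Complex.ofReal_sum]
    refine Finset.sum_congr rfl fun i _ => ?_
    rw [Complex.ofReal_add]
    congr 1
    · split_ifs <;> simp
    · split_ifs <;> simp
  simp only [h3, Finset.sum_mul, add_mul]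
  exact hasSum_sum fun i _ => (key _).add (key _)

/-- the full kernel for the lattice Laplacian plus `g κ` -/
theorem Kf_T1_apply {d : ℕ} (g : ℝ) {κ : (Fin d → ℤ) → ℝ} (hκ : Summable fun y => κ y ^ 2)
    (s : Sym2 (Fin d → ℤ) → Bool) (ψ : (Fin d → ℤ) → ℂ) (hψ : Summable fun y => ‖ψ y‖ ^ 2)
    (x : Fin d → ℤ) :
    (∑' w, (Kf (T1 d) (fun y => g * κ y) s x w : ℂ) * ψ w) =
      (∑ i : Fin d, (ψ (x + Pi.single i 1) + ψ (x - Pi.single i 1))) +
      (g : ℂ) * ∑' y, ((sg (s s(x, y)) * κ (x - y) : ℝ) : ℂ) * ψ y := by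
  have hs : Summable fun y => ((sg (s s(x, y)) * κ (x - y) : ℝ) : ℂ) * ψ y := by
    have h0 : Summable fun y => κ (x - y) ^ 2 :=
      hκ.comp_injective (i := fun y => x - y) (fun a c hac => by simpa using hac)
    refine Summable.of_norm_bounded (h0.add hψ) fun w => ?_
    rw [norm_mul, Complex.norm_real, Real.norm_eq_abs, abs_mul, sg_abs, one_mul]
    nlinarith [sq_nonneg (|κ (x - w)| - ‖ψ w‖), sq_abs (κ (x - w)),
      sq_nonneg (|κ (x - w)|), sq_nonneg (‖ψ w‖)]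
  have h1 := (T1_applyC d ψ x).add (hs.hasSum.mul_left (g : ℂ))
  rw [← h1.tsum_eq]
  refine tsum_congr fun w => ?_
  unfold Kf
  push_cast
  ring

theorem T1_adm (d : ℕ) (κ : (Fin d → ℤ) → ℝ) (h0 : κ 0 = 0) (hs : ∀ y, κ (-y) = κ y)
    (hsq : Summable fun y => κ y ^ 2) : Adm (T1 d) κ 1 (2 * d) where
  T0symm := T1_symm d
  T0diag := T1_diag d
  T0range := T1_range d
  T0sum := T1_sum d
  κ0 := h0
  κsymm := hs
  κsq := hsq

/-- no complex eigenfunctions, at any complex energy -/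
theorem no_complex {d : ℕ} {T0 : (Fin d → ℤ) → (Fin d → ℤ) → ℝ} {κ : (Fin d → ℤ) → ℝ}
    {ρ0 b : ℝ} (h : Adm T0 κ ρ0 b) (s : Sym2 (Fin d → ℤ) → Bool) (hc : CutOK T0 κ s)
    (V : (Fin d → ℤ) → ℝ)
    (hr : ∀ (E : ℝ) (ψ : (Fin d → ℤ) → ℝ), Summable (fun y => ψ y ^ 2) →
        (∀ y, (∑' w, Kf T0 κ s y w * ψ w) + V y * ψ y = E * ψ y) → ψ = 0)
    (E : ℂ) (ψ : (Fin d → ℤ) → ℂ) (hψ : Summable fun y => ‖ψ y‖ ^ 2)
    (he : ∀ y, (∑' w, (Kf T0 κ s y w : ℂ) * ψ w) + (V y : ℂ) * ψ y = E * ψ y) : ψ = 0 := by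
  have hre : Summable fun y => (ψ y).re ^ 2 := by
    refine Summable.of_nonneg_of_le (fun y => sq_nonneg _) (fun y => ?_) hψ
    rw [← sq_abs]
    exact pow_le_pow_left₀ (abs_nonneg _) (Complex.abs_re_le_norm _) 2
  have him : Summable fun y => (ψ y).im ^ 2 := by
    refine Summable.of_nonneg_of_le (fun y => sq_nonneg _) (fun y => ?_) hψ
    rw [← sq_abs]
    exact pow_le_pow_left₀ (abs_nonneg _) (Complex.abs_im_le_norm _) 2
  have hs : ∀ y, Summable fun w => (Kf T0 κ s y w : ℂ) * ψ w := by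
    intro y
    have h1 := (Kf_sq_summable h s y).add hψ
    refine Summable.of_norm_bounded h1 fun w => ?_
    rw [norm_mul, Complex.norm_real, Real.norm_eq_abs]
    nlinarith [sq_nonneg (|Kf T0 κ s y w| - ‖ψ w‖), sq_abs (Kf T0 κ s y w),
      sq_nonneg (|Kf T0 κ s y w|), sq_nonneg (‖ψ w‖)]
  have e1 : ∀ y, (∑' w, Kf T0 κ s y w * (ψ w).re) + V y * (ψ y).re =
      E.re * (ψ y).re - E.im * (ψ y).im := by
    intro y
    have h1 := congrArg Complex.re (he y)
    rw [Complex.add_re, Complex.re_tsum (hs y), Complex.mul_re] at h1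
    simpa using h1
  have e2 : ∀ y, (∑' w, Kf T0 κ s y w * (ψ w).im) + V y * (ψ y).im =
      E.re * (ψ y).im + E.im * (ψ y).re := by
    intro y
    have h1 := congrArg Complex.im (he y)
    rw [Complex.add_im, Complex.im_tsum (hs y), Complex.mul_im] at h1
    simpa using h1
  have hfin : (fun y => (ψ y).re) = 0 ∧ (fun y => (ψ y).im) = 0 := by
    by_cases hq : E.im = 0
    · refine ⟨hr E.re _ hre fun y => ?_, hr E.re _ him fun y => ?_⟩
      · rw [e1 y, hq]; ring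
      · rw [e2 y, hq]; ring
    · exact cplx_ev h s hc V E.re E.im hq _ _ hre him e1 e2
  funext y
  refine Complex.ext ?_ ?_
  · exact congrFun hfin.1 y
  · exact congrFun hfin.2 y

/-- the whole theorem for a general profile and a general finite range part, variance `v` -/
theorem general_ae {d : ℕ} {T0 : (Fin d → ℤ) → (Fin d → ℤ) → ℝ} {κ : (Fin d → ℤ) → ℝ}
    {ρ0 b : ℝ} (h : Adm T0 κ ρ0 b) {B : ℝ}
    (hprof : ∀ T : ℝ, ∃ β : ℝ, 0 < β ∧ ∃ S : Finset (Fin d → ℤ),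
      (∀ y ∈ S, β ≤ |κ y| ∧ |κ y| ≤ B * β) ∧ T ≤ β * S.card)
    (C a : ℝ) (ha : (d : ℝ) / 2 < a) (hk : ∀ y, y ≠ 0 → |κ y| ≤ C * ‖y‖ ^ (-a))
    (v : NNReal) (hv : v ≠ 0) :
    ∀ᵐ ω : ((Fin d → ℤ) → ℝ) × (Sym2 (Fin d → ℤ) → Bool) ∂((PV d v).prod (Ps d)),
      ∀ (E : ℂ) (ψ : (Fin d → ℤ) → ℂ), Summable (fun y => ‖ψ y‖ ^ 2) →
        (∀ y, (∑' w, (Kf T0 κ ω.2 y w : ℂ) * ψ w) + (ω.1 y : ℂ) * ψ y = E * ψ y) → ψ = 0 := by
  have hcut := cut_ae h C a ha hk
  have h1 := no_eigenvector h v hv hcut (fun x M => infN_ae h hprof v hv x M)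
  have hcut' : ∀ᵐ ω : ((Fin d → ℤ) → ℝ) × (Sym2 (Fin d → ℤ) → Bool) ∂((PV d v).prod (Ps d)),
      CutOK T0 κ ω.2 := Measure.quasiMeasurePreserving_snd.ae hcut
  filter_upwards [h1, hcut'] with ω hω hωc
  intro E ψ hψ he
  exact no_complex h ω.2 hωc ω.1 hω E ψ hψ he

/-- profile condition for two-sided power bounds -/
theorem profile_two_sided {d : ℕ} (hd : 0 < d) {κ : (Fin d → ℤ) → ℝ} {c C α : ℝ} (hc : 0 < c)
    (hα0 : 0 < α) (hα : α < d)
    (hκ : ∀ y, y ≠ 0 → c * ‖y‖ ^ (-α) ≤ |κ y| ∧ |κ y| ≤ C * ‖y‖ ^ (-α)) (T : ℝ) :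
    ∃ β : ℝ, 0 < β ∧ ∃ S : Finset (Fin d → ℤ),
      (∀ y ∈ S, β ≤ |κ y| ∧ |κ y| ≤ (|C| / c * (2 : ℝ) ^ α) * β) ∧ T ≤ β * S.card := by
  obtain ⟨β, hβ, S, hS, hT⟩ := pow_profile hd 1 α one_ne_zero hα0 hα (T / c)
  refine ⟨c * β, by positivity, S, ?_, ?_⟩
  · intro y hy
    obtain ⟨h1, h2⟩ := hS y hy
    have hy0 : y ≠ 0 := by
      rintro rfl
      simp at h1
      linarith
    rw [if_neg hy0, one_mul] at h1 h2
    have hn : (0 : ℝ) ≤ ‖y‖ ^ (-α) := Real.rpow_nonneg (norm_nonneg _) _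
    rw [abs_of_nonneg hn] at h1 h2
    obtain ⟨h3, h4⟩ := hκ y hy0
    constructor
    · exact (mul_le_mul_of_nonneg_left h1 hc.le).trans h3
    · calc |κ y| ≤ C * ‖y‖ ^ (-α) := h4
        _ ≤ |C| * ‖y‖ ^ (-α) := mul_le_mul_of_nonneg_right (le_abs_self _) hn
        _ ≤ |C| * ((2 : ℝ) ^ α * β) := mul_le_mul_of_nonneg_left h2 (abs_nonneg _)
        _ = (|C| / c * (2 : ℝ) ^ α) * (c * β) := by field_simp
  · rw [div_le_iff₀ hc] at hT
    linarith

theorem summable_two_sided {d : ℕ} (hd : 0 < d) {κ : (Fin d → ℤ) → ℝ} {C α : ℝ}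
    (hα : (d : ℝ) / 2 < α) (h0 : κ 0 = 0)
    (hκ : ∀ y, y ≠ 0 → |κ y| ≤ C * ‖y‖ ^ (-α)) : Summable fun y => κ y ^ 2 := by
  refine Summable.of_nonneg_of_le (fun y => sq_nonneg _) (fun y => ?_)
    ((pow_summable hd α hα).mul_left (C ^ 2))
  by_cases hy : y = 0
  · subst hy
    simp [h0]
  · rw [if_neg hy, ← mul_pow, ← sq_abs (κ y)]
    exact pow_le_pow_left₀ (abs_nonneg _) (hκ y hy) 2

end H10PL
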