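import Pool.Agent.H10R2.PL.Fin2d
import Pool.Agent.H10R2.PL.Final

/-! Second theorem: final form with an explicit nearest neighbour part. -/

namespace H10PL

open MeasureTheory ProbabilityTheory Set

variable {d : ℕ}

/-- a multiple of the adjacency kernel -/
noncomputable def T2 (d : ℕ) (t : ℝ) (y w : Fin d → ℤ) : ℝ := t * T1 d y w

theorem T1_inv (d : ℕ) (a y w : Fin d → ℤ) : T1 d (y + a) (w + a) = T1 d y w := by
  unfold T1
  refine Finset.sum_congr rfl fun i _ => ?_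
  have h1 : (w + a = y + a + Pi.single i 1) ↔ (w = y + Pi.single i 1) := by
    rw [add_right_comm, add_left_inj]
  have h2 : (w + a = y + a - Pi.single i 1) ↔ (w = y - Pi.single i 1) := by
    rw [add_sub_right_comm, add_left_inj]
  simp only [h1, h2]

theorem T2_adm (d : ℕ) (t : ℝ) (κ : (Fin d → ℤ) → ℝ) (h0 : κ 0 = 0) (hs : ∀ y, κ (-y) = κ y)
    (hsq : Summable fun y => κ y ^ 2) : Adm (T2 d t) κ 1 (|t| * (2 * d)) where
  T0symm := fun y w => by unfold T2; rw [T1_symm]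
  T0diag := fun y => by unfold T2; rw [T1_diag, mul_zero]
  T0range := fun y w h => by unfold T2; rw [T1_range d y w h, mul_zero]
  T0sum := fun y F => by
    unfold T2
    simp only [abs_mul]
    rw [← Finset.mul_sum]
    exact mul_le_mul_of_nonneg_left (T1_sum d y F) (abs_nonneg t)
  κ0 := h0
  κsymm := hs
  κsq := hsq

theorem Kf_T2_apply (t g : ℝ) {κ : (Fin d → ℤ) → ℝ} (hκ : Summable fun y => κ y ^ 2)
    (s : Sym2 (Fin d → ℤ) → Bool) (ψ : (Fin d → ℤ) → ℂ) (hψ : Summable fun y => ‖ψ y‖ ^ 2)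
    (x : Fin d → ℤ) :
    (∑' w, (Kf (T2 d t) (fun y => g * κ y) s x w : ℂ) * ψ w) =
      (t : ℂ) * (∑ i : Fin d, (ψ (x + Pi.single i 1) + ψ (x - Pi.single i 1))) +
      (g : ℂ) * ∑' y, ((sg (s s(x, y)) * κ (x - y) : ℝ) : ℂ) * ψ y := by
  have hs : Summable fun y => ((sg (s s(x, y)) * κ (x - y) : ℝ) : ℂ) * ψ y := by
    have h0 : Summable fun y => κ (x - y) ^ 2 :=
      hκ.comp_injective (i := fun y => x - y) (fun a c hac => by simpa using hac)
    refine Summable.of_norm_bounded (h0.add hψ) fun w => ?_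
    rw [norm_mul, Complex.norm_real, Real.norm_eq_abs, abs_mul, sg_abs, one_mul]
    nlinarith [sq_nonneg (|κ (x - w)| - ‖ψ w‖), sq_abs (κ (x - w)),
      sq_nonneg (|κ (x - w)|), sq_nonneg (‖ψ w‖)]
  have h1 := ((T1_applyC d ψ x).mul_left (t : ℂ)).add (hs.hasSum.mul_left (g : ℂ))
  rw [← h1.tsum_eq]
  refine tsum_congr fun w => ?_
  unfold Kf T2
  push_cast
  ring

theorem Prof_smul {κ : (Fin d → ℤ) → ℝ} {g : ℝ} (hg : g ≠ 0) (h : Prof κ) :
    Prof (fun y => g * κ y) := by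
  intro L hL
  obtain ⟨B, hB⟩ := h L hL
  refine ⟨B, fun N => ?_⟩
  have hg0 : 0 < |g| := abs_pos.2 hg
  obtain ⟨R, β, h1, h2, h3, h4⟩ := hB (max N (N / |g|))
  refine ⟨R, |g| * β, le_trans (le_max_left _ _) h1, by positivity, ?_, ?_⟩
  · have h5 : N / |g| ≤ β * R ^ d := le_trans (le_max_right _ _) h3
    rw [div_le_iff₀ hg0] at h5
    linarith
  · intro z hz1 hz2
    obtain ⟨h6, h7⟩ := h4 z hz1 hz2
    rw [abs_mul]
    constructor
    · exact mul_le_mul_of_nonneg_left h6 hg0.le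
    · calc |g| * |κ z| ≤ |g| * (B * β) := mul_le_mul_of_nonneg_left h7 hg0.le
        _ = B * (|g| * β) := by ring

/-- the law of `lam * ω` has density at most `D / |lam|` -/
theorem map_density {μ : Measure ℝ} {D : ℝ} (hμ : μ ≤ ENNReal.ofReal D • volume) {lam : ℝ}
    (hlam : lam ≠ 0) :
    μ.map (fun t => lam * t) ≤ ENNReal.ofReal (D * |lam|⁻¹) • volume := by
  rw [Measure.le_iff]
  intro s hs
  have hm : Measurable fun t : ℝ => lam * t := measurable_const_mul lam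
  rw [Measure.map_apply hm hs]
  refine (hμ _).trans ?_
  rw [Measure.smul_apply, Measure.smul_apply, Real.volume_preimage_mul_left hlam, smul_eq_mul,
    smul_eq_mul, ← mul_assoc, abs_inv]
  rw [← ENNReal.ofReal_mul' (by positivity)]

/-- `H = t * adjacency + lam ω + g B + m` -/
theorem final_bdd (hd : 0 < d) (t lam g m : ℝ) (hlam : lam ≠ 0) (hg : g ≠ 0) (μ : Measure ℝ)
    [IsProbabilityMeasure μ] {D : ℝ} (hD : 0 ≤ D) (hμ : μ ≤ ENNReal.ofReal D • volume)
    (κ : (Fin d → ℤ) → ℝ) (hκ0 : κ 0 = 0) (hκs : ∀ y, κ (-y) = κ y)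
    (hκsq : Summable fun y => κ y ^ 2) (hprof : Prof κ) :
    ∀ᵐ ω ∂((Measure.infinitePi fun _ : Fin d → ℤ => μ).prod (Ps d)),
      ∀ (E : ℂ) (ψ : (Fin d → ℤ) → ℂ), Summable (fun x => ‖ψ x‖ ^ 2) →
        (∀ x, (t : ℂ) * (∑ i : Fin d, (ψ (x + Pi.single i 1) + ψ (x - Pi.single i 1))) +
          ((lam * ω.1 x : ℝ) : ℂ) * ψ x + (m : ℂ) * ψ x +
          (g : ℂ) * ∑' y, ((sg (ω.2 s(x, y)) * κ (x - y) : ℝ) : ℂ) * ψ y = E * ψ x) →
        ψ = 0 := by
  have hm : Measurable fun t : ℝ => lam * t := measurable_const_mul lam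
  have hprob : IsProbabilityMeasure (μ.map (fun t => lam * t)) :=
    Measure.isProbabilityMeasure_map hm.aemeasurable
  have h0 : (fun y => g * κ y) 0 = 0 := by simp [hκ0]
  have hsq : Summable fun y => (g * κ y) ^ 2 := by
    simp only [mul_pow]
    exact hκsq.mul_left _
  have hadm := T2_adm d t (fun y => g * κ y) h0 (fun y => by
    show g * κ (-y) = g * κ y
    rw [hκs]) hsq
  have hmain := main_bdd hadm (fun a y w => by unfold T2; rw [T1_inv]) hd
    (μ.map (fun t => lam * t)) (D := D * |lam|⁻¹) (by positivity) (map_density hμ hlam)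
    (Prof_smul hg hprof)
  have hmp1 : MeasurePreserving (fun (ω : (Fin d → ℤ) → ℝ) x => lam * ω x)
      (Measure.infinitePi fun _ : Fin d → ℤ => μ) (PVg d (μ.map (fun t => lam * t))) := by
    refine ⟨by fun_prop, ?_⟩
    unfold PVg
    exact Measure.infinitePi_map_pi (μ := fun _ : Fin d → ℤ => μ)
      (f := fun (_ : Fin d → ℤ) (t : ℝ) => lam * t) (fun _ => by fun_prop)
  have hmp : MeasurePreserving (Prod.map (fun (ω : (Fin d → ℤ) → ℝ) x => lam * ω x) id)
      ((Measure.infinitePi fun _ : Fin d → ℤ => μ).prod (Ps d))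
      ((PVg d (μ.map (fun t => lam * t))).prod (Ps d)) :=
    hmp1.prod (MeasurePreserving.id (Ps d))
  have hae := hmp.quasiMeasurePreserving.ae hmain
  filter_upwards [hae] with ω hω
  intro E ψ hψ he
  refine hω (E - m) ψ ⟨hψ, fun x => ?_⟩
  have h1 := he x
  simp only [Prod.map_fst, Prod.map_snd, id]
  rw [Kf_T2_apply t g hκsq ω.2 ψ hψ x, sub_mul, ← h1]
  ring

end H10PL
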