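import Pool.Agent.H10R2.PL.Prof3Def

/-! Task 3-PROF: the critical power law satisfies the profile condition `Prof3`. -/

namespace H10PL

open MeasureTheory ProbabilityTheory Matrix Set

variable {d : ℕ} {κ : (Fin d → ℤ) → ℝ}

theorem prof3_of_lower (hd : 0 < d) {c : ℝ} (hc : 0 < c)
    (hκ : ∀ y : Fin d → ℤ, y ≠ 0 → c * ‖y‖ ^ (-(d : ℝ)) ≤ |κ y|) : Prof3 κ := by
  have hd' : (0 : ℝ) < d := by exact_mod_cast hd
  refine ⟨c, hc, ?_⟩
  intro t0 ht0
  have htend : Filter.Tendsto (fun N : ℕ => c * (N : ℝ) ^ (-(d : ℝ))) Filter.atTop (nhds 0) := by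
    have h1 : Filter.Tendsto (fun N : ℕ => (N : ℝ) ^ (-(d : ℝ))) Filter.atTop (nhds 0) :=
      (tendsto_rpow_neg_atTop hd').comp tendsto_natCast_atTop_atTop
    simpa using h1.const_mul c
  obtain ⟨N, hN1, hN2⟩ := ((htend.eventually_le_const ht0).and
    (Filter.eventually_ge_atTop 1)).exists
  have hN : (0 : ℝ) < N := by exact_mod_cast hN2
  refine ⟨c * (N : ℝ) ^ (-(d : ℝ)), by positivity, hN1,
    Fintype.piFinset (fun _ : Fin d => Finset.Icc (1 : ℤ) N), ?_, ?_⟩
  · intro y hy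
    rw [Fintype.mem_piFinset] at hy
    have hall : ∀ i, 1 ≤ y i ∧ y i ≤ N := fun i => Finset.mem_Icc.1 (hy i)
    have hne : y ≠ 0 := by
      intro h
      have h1 := (hall ⟨0, hd⟩).1
      rw [h] at h1
      simp at h1
    have hpos : 0 < ‖y‖ := norm_pos_iff.2 hne
    have hup : ‖y‖ ≤ N := by
      rw [pi_norm_le_iff_of_nonneg hN.le]
      intro i
      rw [Int.norm_eq_abs, abs_of_nonneg (by exact_mod_cast (by linarith [(hall i).1] : (0:ℤ) ≤ y i))]
      exact_mod_cast (hall i).2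
    refine le_trans ?_ (hκ y hne)
    exact mul_le_mul_of_nonneg_left
      (Real.rpow_le_rpow_of_nonpos hpos hup (by linarith)) hc.le
  · have hcard : ((Fintype.piFinset (fun _ : Fin d => Finset.Icc (1 : ℤ) N)).card : ℝ) =
        (N : ℝ) ^ d := by
      rw [Fintype.card_piFinset]
      simp
    rw [hcard, Real.rpow_neg hN.le, Real.rpow_natCast, mul_assoc,
      inv_mul_cancel₀ (pow_ne_zero _ hN.ne'), mul_one]

end H10PL
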