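import Pool.Agent.H10R2.PL.Kle
import Pool.Agent.H10R2.PL.Sign

/-!
Anticoncentration of a positive semidefinite quadratic form in random signs.
-/

set_option autoImplicit false
set_option linter.unusedSectionVars false

namespace H10PL

open Finset

/-! ### Blocks -/

section blocks

variable {ι : Type} [Fintype ι] [DecidableEq ι]

theorem acl_subset (w : ι → ℝ) (h1 : ∀ i, w i ≤ 1) {l : ℝ} (hl : 0 ≤ l)
    (A : Finset ι) (hA : l ≤ ∑ i ∈ A, w i) :
    ∃ b ⊆ A, l ≤ ∑ i ∈ b, w i ∧ ∑ i ∈ b, w i ≤ l + 1 := by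
  induction A using Finset.induction_on with
  | empty =>
    refine ⟨∅, Finset.Subset.refl _, hA, ?_⟩
    simp
    linarith
  | insert a A ha ih =>
    by_cases h : l ≤ ∑ i ∈ A, w i
    · obtain ⟨b, hb, h2, h3⟩ := ih h
      exact ⟨b, hb.trans (Finset.subset_insert _ _), h2, h3⟩
    · refine ⟨insert a A, Finset.Subset.refl _, hA, ?_⟩
      rw [Finset.sum_insert ha]
      have := h1 a
      push Not at h
      linarith

theorem acl_blocks (w : ι → ℝ) (h1 : ∀ i, w i ≤ 1) {l : ℝ} (hl : 0 ≤ l) :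
    ∀ (m : ℕ) (A : Finset ι), (m : ℝ) * (l + 1) ≤ ∑ i ∈ A, w i →
    ∃ b : Fin m → Finset ι, (∀ j, b j ⊆ A) ∧ (∀ j k, j ≠ k → Disjoint (b j) (b k)) ∧
      ∀ j, l ≤ ∑ i ∈ b j, w i := by
  intro m
  induction m with
  | zero =>
    intro A _
    exact ⟨fun _ => ∅, fun j => j.elim0, fun j => j.elim0, fun j => j.elim0⟩
  | succ m ih =>
    intro A hA
    push_cast at hA
    have hm : 0 ≤ (m : ℝ) * (l + 1) := by positivity
    obtain ⟨b0, hb0, h2, h3⟩ := acl_subset w h1 hl A (by linarith)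
    have hsd : ∑ i ∈ A \ b0, w i = ∑ i ∈ A, w i - ∑ i ∈ b0, w i := by
      rw [← Finset.sum_sdiff hb0]
      ring
    obtain ⟨b, hb1, hb2, hb3⟩ := ih (A \ b0) (by rw [hsd]; linarith)
    refine ⟨Fin.cons b0 b, ?_, ?_, ?_⟩
    · intro j
      refine Fin.cases ?_ (fun j => ?_) j
      · simpa using hb0
      · simpa using (hb1 j).trans Finset.sdiff_subset
    · intro j k
      refine Fin.cases ?_ (fun j => ?_) j
      · refine Fin.cases ?_ (fun k => ?_) k
        · intro h
          exact absurd rfl h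
        · intro _
          simp only [Fin.cons_zero, Fin.cons_succ]
          exact (Finset.disjoint_of_subset_left (hb1 k) Finset.sdiff_disjoint).symm
      · refine Fin.cases ?_ (fun k => ?_) k
        · intro _
          simp only [Fin.cons_zero, Fin.cons_succ]
          exact Finset.disjoint_of_subset_left (hb1 j) Finset.sdiff_disjoint
        · intro h
          simp only [Fin.cons_succ]
          exact hb2 j k (fun e => h (by rw [e]))
    · intro j
      refine Fin.cases ?_ (fun j => ?_) j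
      · simpa using h2
      · simpa using hb3 j

end blocks

/-! ### Moments of block sums -/

section moments

variable {ι : Type} [Fintype ι] [DecidableEq ι]
variable {V : Type} [NormedAddCommGroup V] [InnerProductSpace ℝ V]

/-- block sum -/
def bsum (u : ι → V) (b : Finset ι) (ε : ι → Bool) : V := ∑ i ∈ b, sg (ε i) • u i

theorem bsum_congr (u : ι → V) (b : Finset ι) {ε δ : ι → Bool} (h : ∀ i ∈ b, ε i = δ i) :
    bsum u b ε = bsum u b δ := by
  unfold bsum
  exact Finset.sum_congr rfl (fun i hi => by rw [h i hi])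

theorem sg_norm_smul (b : Bool) (v : V) : ‖sg b • v‖ = ‖v‖ := by
  cases b <;> simp [sg]

theorem avg_flip (i : ι) (F : (ι → Bool) → ℝ) :
    2 * ∑ ε : ι → Bool, F ε = ∑ ε : ι → Bool, (F ε + F (Function.update ε i (!(ε i)))) := by
  rw [Finset.sum_add_distrib, sign_flip]
  ring

theorem bsum_insert (u : ι → V) {b : Finset ι} {i : ι} (hi : i ∉ b) (ε : ι → Bool) :
    bsum u (insert i b) ε = bsum u b ε + sg (ε i) • u i := by
  unfold bsum
  rw [Finset.sum_insert hi, add_comm]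

theorem bsum_insert_flip (u : ι → V) {b : Finset ι} {i : ι} (hi : i ∉ b) (ε : ι → Bool) :
    bsum u (insert i b) (Function.update ε i (!(ε i))) = bsum u b ε - sg (ε i) • u i := by
  rw [bsum_insert u hi, Function.update_self, sg_not, neg_smul, ← sub_eq_add_neg]
  congr 1
  apply bsum_congr
  intro j hj
  rw [Function.update_of_ne]
  rintro rfl
  exact hi hj

theorem moment_two (u : ι → V) (b : Finset ι) :
    ∑ ε : ι → Bool, ‖bsum u b ε‖ ^ 2 = 2 ^ (Fintype.card ι) * ∑ i ∈ b, ‖u i‖ ^ 2 := by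
  induction b using Finset.induction_on with
  | empty => simp [bsum]
  | insert i b hi ih =>
    have h := avg_flip i (fun ε => ‖bsum u (insert i b) ε‖ ^ 2)
    have h2 : ∀ ε : ι → Bool, ‖bsum u (insert i b) ε‖ ^ 2 +
        ‖bsum u (insert i b) (Function.update ε i (!(ε i)))‖ ^ 2 =
        2 * ‖bsum u b ε‖ ^ 2 + 2 * ‖u i‖ ^ 2 := by
      intro ε
      rw [bsum_insert_flip u hi, bsum_insert u hi]
      have := parallelogram_law_with_norm ℝ (bsum u b ε) (sg (ε i) • u i)
      rw [sg_norm_smul] at this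
      linarith [this]
    simp only [h2] at h
    rw [Finset.sum_add_distrib, ← Finset.mul_sum, ih] at h
    rw [Finset.sum_insert hi]
    simp only [Finset.sum_const, Finset.card_univ, Fintype.card_fun, Fintype.card_bool,
      nsmul_eq_mul, Nat.cast_pow, Nat.cast_ofNat] at h
    linarith

theorem quartic_flip (x y : V) : ‖x + y‖ ^ 4 + ‖x - y‖ ^ 4 ≤
    2 * (‖x‖ ^ 2) ^ 2 + 12 * (‖x‖ ^ 2 * ‖y‖ ^ 2) + 2 * (‖y‖ ^ 2) ^ 2 := by
  have h1 : ‖x + y‖ ^ 2 = ‖x‖ ^ 2 + 2 * inner ℝ x y + ‖y‖ ^ 2 := norm_add_sq_real x y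
  have h2 : ‖x - y‖ ^ 2 = ‖x‖ ^ 2 - 2 * inner ℝ x y + ‖y‖ ^ 2 := norm_sub_sq_real x y
  have h3 : |inner ℝ x y| ≤ ‖x‖ * ‖y‖ := abs_real_inner_le_norm x y
  have h4 : (inner ℝ x y : ℝ) ^ 2 ≤ ‖x‖ ^ 2 * ‖y‖ ^ 2 := by
    rw [← sq_abs, ← mul_pow]
    exact pow_le_pow_left₀ (abs_nonneg _) h3 2
  have e1 : ‖x + y‖ ^ 4 = (‖x + y‖ ^ 2) ^ 2 := by ring
  have e2 : ‖x - y‖ ^ 4 = (‖x - y‖ ^ 2) ^ 2 := by ring
  rw [e1, e2, h1, h2]
  nlinarith

theorem moment_four (u : ι → V) (b : Finset ι) :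
    ∑ ε : ι → Bool, ‖bsum u b ε‖ ^ 4 ≤
      3 * 2 ^ (Fintype.card ι) * (∑ i ∈ b, ‖u i‖ ^ 2) ^ 2 := by
  induction b using Finset.induction_on with
  | empty => simp [bsum]
  | insert i b hi ih =>
    have h := avg_flip i (fun ε => ‖bsum u (insert i b) ε‖ ^ 4)
    have h2 : ∀ ε : ι → Bool, ‖bsum u (insert i b) ε‖ ^ 4 +
        ‖bsum u (insert i b) (Function.update ε i (!(ε i)))‖ ^ 4 ≤
        2 * ‖bsum u b ε‖ ^ 4 + 12 * ‖u i‖ ^ 2 * ‖bsum u b ε‖ ^ 2 + 2 * (‖u i‖ ^ 2) ^ 2 := by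
      intro ε
      rw [bsum_insert_flip u hi, bsum_insert u hi]
      have := quartic_flip (bsum u b ε) (sg (ε i) • u i)
      rw [sg_norm_smul] at this
      calc _ ≤ _ := this
        _ = _ := by ring
    have h3 := Finset.sum_le_sum (fun ε (_ : ε ∈ (Finset.univ : Finset (ι → Bool))) => h2 ε)
    rw [← h, Finset.sum_add_distrib, Finset.sum_add_distrib, ← Finset.mul_sum,
      ← Finset.mul_sum, moment_two] at h3
    rw [Finset.sum_insert hi]
    simp only [Finset.sum_const, Finset.card_univ, Fintype.card_fun, Fintype.card_bool,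
      nsmul_eq_mul, Nat.cast_pow, Nat.cast_ofNat] at h3
    have hp : (0 : ℝ) < 2 ^ (Fintype.card ι) := by positivity
    have hs : 0 ≤ ∑ i ∈ b, ‖u i‖ ^ 2 := Finset.sum_nonneg (fun i _ => by positivity)
    have hu : 0 ≤ ‖u i‖ ^ 2 := by positivity
    nlinarith [mul_nonneg hp.le (mul_nonneg hu hu)]

/-- Paley-Zygmund for a block -/
theorem pz_block (u : ι → V) (b : Finset ι) {l : ℝ} (hl : 0 < l)
    (hb : l ≤ ∑ i ∈ b, ‖u i‖ ^ 2) :
    (2 : ℝ) ^ (Fintype.card ι) / 12 ≤
      ((Finset.univ.filter fun ε : ι → Bool => l / 2 ≤ ‖bsum u b ε‖ ^ 2).card : ℝ) := by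
  set e := ∑ i ∈ b, ‖u i‖ ^ 2 with he
  have he0 : 0 < e := lt_of_lt_of_le hl hb
  have key : ∀ ε : ι → Bool, ‖bsum u b ε‖ ^ 2 ≤ e / 2 + (1 / (12 * e)) * ‖bsum u b ε‖ ^ 4 +
      3 * e * (if l / 2 ≤ ‖bsum u b ε‖ ^ 2 then 1 else 0) := by
    intro ε
    set X := ‖bsum u b ε‖ ^ 2 with hX
    have hX4 : ‖bsum u b ε‖ ^ 4 = X ^ 2 := by rw [hX]; ring
    rw [hX4]
    have h0 : 0 ≤ (1 / (12 * e)) * X ^ 2 := by positivity
    split_ifs with h
    · have h1 : X ≤ (1 / (12 * e)) * X ^ 2 + 3 * e := by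
        have : 0 ≤ (1 / (12 * e)) * (X - 6 * e) ^ 2 := by positivity
        have e3 : (1 / (12 * e)) * (X - 6 * e) ^ 2 = (1 / (12 * e)) * X ^ 2 - X + 3 * e := by
          field_simp
          ring
        linarith
      linarith
    · push Not at h
      linarith
  have hsum := Finset.sum_le_sum (fun ε (_ : ε ∈ (Finset.univ : Finset (ι → Bool))) => key ε)
  rw [moment_two, Finset.sum_add_distrib, Finset.sum_add_distrib, ← Finset.mul_sum,
    ← Finset.mul_sum, Finset.sum_boole] at hsum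
  simp only [Finset.sum_const, Finset.card_univ, Fintype.card_fun, Fintype.card_bool,
      nsmul_eq_mul, Nat.cast_pow, Nat.cast_ofNat] at hsum
  have h4 := moment_four u b
  rw [← he] at h4 hsum
  have h5 : (1 / (12 * e)) * ∑ ε : ι → Bool, ‖bsum u b ε‖ ^ 4 ≤
      (1 / (12 * e)) * (3 * 2 ^ (Fintype.card ι) * e ^ 2) :=
    mul_le_mul_of_nonneg_left h4 (by positivity)
  have h6 : (1 / (12 * e)) * (3 * 2 ^ (Fintype.card ι) * e ^ 2) =
      2 ^ (Fintype.card ι) * e / 4 := by
    field_simp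
    ring
  rw [h6] at h5
  set A := ((Finset.univ.filter fun ε : ι → Bool => l / 2 ≤ ‖bsum u b ε‖ ^ 2).card : ℝ) with hA
  have h7 : e * (2 ^ (Fintype.card ι) / 12) ≤ e * A := by nlinarith
  exact le_of_mul_le_mul_left h7 he0

end moments

/-! ### Independence of disjoint blocks -/

section indep

variable {ι : Type} [Fintype ι] [DecidableEq ι]

/-- take `ε` on `b` and `δ` elsewhere -/
def mixb (b : Finset ι) (ε δ : ι → Bool) : ι → Bool := fun i => if i ∈ b then ε i else δ i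

theorem indep_sum (b : Finset ι) (f g : (ι → Bool) → ℝ)
    (hf : ∀ ε δ, (∀ i ∈ b, ε i = δ i) → f ε = f δ)
    (hg : ∀ ε δ, (∀ i, i ∉ b → ε i = δ i) → g ε = g δ) :
    (∑ ε, f ε) * (∑ ε, g ε) = 2 ^ (Fintype.card ι) * ∑ ε, f ε * g ε := by
  have hinv : Function.Involutive (fun p : (ι → Bool) × (ι → Bool) =>
      (mixb b p.1 p.2, mixb b p.2 p.1)) := by
    rintro ⟨ε, δ⟩
    simp only [Prod.mk.injEq]
    constructor
    · funext i
      unfold mixb
      by_cases h : i ∈ b <;> simp [h]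
    · funext i
      unfold mixb
      by_cases h : i ∈ b <;> simp [h]
  have h1 := Equiv.sum_comp (Function.Involutive.toPerm _ hinv)
    (fun p : (ι → Bool) × (ι → Bool) => f p.1 * g p.1)
  rw [Finset.sum_mul_sum, ← Fintype.sum_prod_type']
  have h2 : ∀ p : (ι → Bool) × (ι → Bool), f p.1 * g p.2 =
      f (mixb b p.1 p.2) * g (mixb b p.1 p.2) := by
    rintro ⟨ε, δ⟩
    congr 1
    · apply hf
      intro i hi
      simp [mixb, hi]
    · apply hg
      intro i hi
      simp [mixb, hi]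
  rw [Finset.sum_congr rfl (fun p _ => h2 p)]
  have h3 : ∑ p : (ι → Bool) × (ι → Bool), f (mixb b p.1 p.2) * g (mixb b p.1 p.2) =
      ∑ p : (ι → Bool) × (ι → Bool), f p.1 * g p.1 := h1
  rw [h3, Fintype.sum_prod_type]
  simp only [Finset.sum_const, Finset.card_univ, Fintype.card_fun, Fintype.card_bool,
      nsmul_eq_mul, Nat.cast_pow, Nat.cast_ofNat]
  rw [← Finset.mul_sum]

end indep

/-! ### Many good blocks -/

section cheb

variable {ι : Type} [Fintype ι] [DecidableEq ι]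
variable {V : Type} [NormedAddCommGroup V] [InnerProductSpace ℝ V]

theorem few_good (u : ι → V) {m : ℕ} (hm : 0 < m) (b : Fin m → Finset ι)
    (hd : ∀ j k, j ≠ k → Disjoint (b j) (b k)) {r : ℝ} (hr : 0 < r)
    (hb : ∀ j, 2 * r ^ 2 ≤ ∑ i ∈ b j, ‖u i‖ ^ 2) :
    ((Finset.univ.filter fun ε : ι → Bool =>
      (kK r (fun j => bsum u (b j) ε) : ℝ) < m / 24).card : ℝ) ≤
      576 / m * 2 ^ (Fintype.card ι) := by
  set N : ℝ := 2 ^ (Fintype.card ι) with hN
  have hN0 : 0 < N := by positivity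
  set ind : Fin m → (ι → Bool) → ℝ := fun j ε => if r ≤ ‖bsum u (b j) ε‖ then 1 else 0 with hind
  set p : Fin m → ℝ := fun j => (∑ ε, ind j ε) / N with hp
  have hpN : ∀ j, ∑ ε, ind j ε = p j * N := by
    intro j
    rw [hp]
    field_simp
  have hp12 : ∀ j, 1 / 12 ≤ p j := by
    intro j
    rw [hp]
    simp only
    rw [le_div_iff₀ hN0]
    have h := pz_block u (b j) (l := 2 * r ^ 2) (by positivity) (hb j)
    rw [← hN] at h
    have h2 : ∑ ε, ind j ε = ((Finset.univ.filter fun ε : ι → Bool =>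
        2 * r ^ 2 / 2 ≤ ‖bsum u (b j) ε‖ ^ 2).card : ℝ) := by
      rw [hind]
      simp only
      rw [Finset.sum_boole]
      congr 2
      apply Finset.filter_congr
      intro ε _
      rw [mul_div_cancel_left₀ _ (by norm_num : (2 : ℝ) ≠ 0)]
      exact (pow_le_pow_iff_left₀ hr.le (norm_nonneg _) (by norm_num)).symm
    rw [h2]
    linarith
  have hind01 : ∀ j ε, 0 ≤ ind j ε ∧ ind j ε ≤ 1 := by
    intro j ε
    rw [hind]
    simp only
    split_ifs <;> norm_num
  have hp1 : ∀ j, p j ≤ 1 := by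
    intro j
    rw [hp]
    simp only
    rw [div_le_one hN0]
    calc ∑ ε, ind j ε ≤ ∑ ε : ι → Bool, (1 : ℝ) := Finset.sum_le_sum (fun ε _ => (hind01 j ε).2)
      _ = N := by simp [hN]
  set h : Fin m → (ι → Bool) → ℝ := fun j ε => ind j ε - p j with hh
  have hzero : ∀ j, ∑ ε, h j ε = 0 := by
    intro j
    rw [hh]
    simp only
    rw [Finset.sum_sub_distrib, hpN]
    simp only [Finset.sum_const, Finset.card_univ, Fintype.card_fun, Fintype.card_bool,
      nsmul_eq_mul, Nat.cast_pow, Nat.cast_ofNat]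
    rw [← hN]
    ring
  have hcross : ∀ j k, j ≠ k → ∑ ε, h j ε * h k ε = 0 := by
    intro j k hjk
    have h1 := indep_sum (b j) (h j) (h k) ?_ ?_
    · rw [hzero, zero_mul] at h1
      rw [← hN] at h1
      rcases mul_eq_zero.mp h1.symm with h2 | h2
      · exact absurd h2 hN0.ne'
      · exact h2
    · intro ε δ hεδ
      rw [hh, hind]
      simp only
      rw [bsum_congr u (b j) hεδ]
    · intro ε δ hεδ
      rw [hh, hind]
      simp only
      rw [bsum_congr u (b k) (fun i hi => hεδ i (fun hi' =>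
        (Finset.disjoint_left.mp (hd j k hjk)) hi' hi))]
  have hvar : ∑ ε, (∑ j, h j ε) ^ 2 ≤ m * N := by
    have h1 : ∀ ε, (∑ j, h j ε) ^ 2 = ∑ j, ∑ k, h j ε * h k ε := by
      intro ε
      rw [sq, Finset.sum_mul_sum]
    rw [Finset.sum_congr rfl (fun ε _ => h1 ε), Finset.sum_comm]
    calc ∑ j, ∑ ε, ∑ k, h j ε * h k ε ≤ ∑ j : Fin m, N := by
          apply Finset.sum_le_sum
          intro j _
          rw [Finset.sum_comm]
          rw [Finset.sum_eq_single j (fun k _ hk => hcross j k (Ne.symm hk))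
            (fun h' => absurd (Finset.mem_univ _) h')]
          calc ∑ ε, h j ε * h j ε ≤ ∑ ε : ι → Bool, (1 : ℝ) := by
                apply Finset.sum_le_sum
                intro ε _
                have a1 := hind01 j ε
                have a2 := hp12 j
                have a3 := hp1 j
                have a4 : h j ε = ind j ε - p j := rfl
                rw [a4]
                nlinarith [a1.1, a1.2]
            _ = N := by simp [hN]
      _ = m * N := by simp
  have hcast : ∀ ε, (kK r (fun j => bsum u (b j) ε) : ℝ) = ∑ j, ind j ε := by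
    intro ε
    unfold kK
    rw [hind]
    push_cast
    rfl
  have hm0 : (0 : ℝ) < m := by exact_mod_cast hm
  have hcheb : ((Finset.univ.filter fun ε : ι → Bool =>
      (kK r (fun j => bsum u (b j) ε) : ℝ) < m / 24).card : ℝ) * ((m : ℝ) / 24) ^ 2 ≤ m * N := by
    refine le_trans ?_ hvar
    rw [← nsmul_eq_mul, ← Finset.sum_const]
    refine le_trans (Finset.sum_le_sum (g := fun ε => (∑ j, h j ε) ^ 2) ?_)
      (Finset.sum_le_sum_of_subset_of_nonneg (Finset.subset_univ _) (fun ε _ _ => sq_nonneg _))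
    intro ε hε
    rw [Finset.mem_filter] at hε
    have h1 := hε.2
    rw [hcast] at h1
    have h2 : ∑ j, h j ε = ∑ j, ind j ε - ∑ j, p j := by
      rw [hh]
      simp only
      rw [Finset.sum_sub_distrib]
    have h3 : (m : ℝ) / 12 ≤ ∑ j, p j := by
      calc (m : ℝ) / 12 = ∑ j : Fin m, (1 / 12 : ℝ) := by simp; ring
        _ ≤ _ := Finset.sum_le_sum (fun j _ => hp12 j)
    have h4 : ∑ j, h j ε ≤ - (m / 24) := by rw [h2]; linarith
    have h5 : 0 < (m : ℝ) / 24 := by positivity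
    nlinarith
  have h7 : ((m : ℝ) / 24) ^ 2 > 0 := by positivity
  rw [← le_div_iff₀ h7] at hcheb
  refine hcheb.trans (le_of_eq ?_)
  field_simp
  ring

end cheb

/-! ### Flipping blocks -/

section flips

variable {ι : Type} [Fintype ι] [DecidableEq ι]
variable {V : Type} [NormedAddCommGroup V] [InnerProductSpace ℝ V]

/-- flip all the blocks with `τ j = false` -/
def flb {m : ℕ} (b : Fin m → Finset ι) (τ : Fin m → Bool) (ε : ι → Bool) : ι → Bool :=
  fun i => if ∃ j, τ j = false ∧ i ∈ b j then !(ε i) else ε i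

theorem flb_sum {m : ℕ} (b : Fin m → Finset ι) (τ : Fin m → Bool) (F : (ι → Bool) → ℝ) :
    ∑ ε, F (flb b τ ε) = ∑ ε, F ε := by
  have hinv : Function.Involutive (flb b τ) := by
    intro ε
    funext i
    unfold flb
    by_cases h : ∃ j, τ j = false ∧ i ∈ b j
    · simp only [if_pos h, Bool.not_not]
    · simp only [if_neg h]
  exact Equiv.sum_comp (Function.Involutive.toPerm _ hinv) F

theorem flb_bsum {m : ℕ} (u : ι → V) (b : Fin m → Finset ι)
    (hd : ∀ j k, j ≠ k → Disjoint (b j) (b k)) (τ : Fin m → Bool) (ε : ι → Bool) :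
    ∑ i, sg (flb b τ ε i) • u i =
      (∑ i ∈ Finset.univ \ (Finset.univ.biUnion b), sg (ε i) • u i) +
        ∑ j, sg (τ j) • bsum u (b j) ε := by
  rw [← Finset.sum_sdiff (Finset.subset_univ (Finset.univ.biUnion b))]
  congr 1
  · apply Finset.sum_congr rfl
    intro i hi
    rw [Finset.mem_sdiff, Finset.mem_biUnion] at hi
    congr 2
    unfold flb
    rw [if_neg]
    rintro ⟨j, -, hj⟩
    exact hi.2 ⟨j, Finset.mem_univ _, hj⟩
  · rw [Finset.sum_biUnion (fun j _ k _ hjk => hd j k hjk)]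
    apply Finset.sum_congr rfl
    intro j _
    unfold bsum
    rw [Finset.smul_sum]
    apply Finset.sum_congr rfl
    intro i hi
    rw [smul_smul]
    congr 1
    unfold flb
    cases hτ : τ j with
    | false =>
      have h0 : sg false = -1 := by simp [sg]
      rw [if_pos ⟨j, hτ, hi⟩, sg_not, h0]
      ring
    | true =>
      rw [if_neg]
      · simp [sg]
      · rintro ⟨k, hk, hik⟩
        have : k = j := by
          by_contra hne
          exact (Finset.disjoint_left.mp (hd k j hne)) hik hi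
        rw [this, hτ] at hk
        exact Bool.noConfusion hk

theorem flip_bound {m : ℕ} (u : ι → V) (b : Fin m → Finset ι)
    (hd : ∀ j k, j ≠ k → Disjoint (b j) (b k)) {r : ℝ} (hr : 0 < r) (q : V) :
    ((Finset.univ.filter fun ε : ι → Bool => ‖q + ∑ i, sg (ε i) • u i‖ < r).card : ℝ) ≤
      ∑ ε : ι → Bool, 1 / Real.sqrt ((kK r (fun j => bsum u (b j) ε) : ℝ) + 1) := by
  have h2m : (0 : ℝ) < 2 ^ m := by positivity
  have h1 : (2 : ℝ) ^ m * ((Finset.univ.filter fun ε : ι → Bool =>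
      ‖q + ∑ i, sg (ε i) • u i‖ < r).card : ℝ) =
      ∑ ε : ι → Bool, ∑ τ : Fin m → Bool,
        (if ‖q + ∑ i, sg (flb b τ ε i) • u i‖ < r then (1 : ℝ) else 0) := by
    rw [Finset.sum_comm]
    have h2 : ∀ τ : Fin m → Bool, ∑ ε : ι → Bool,
        (if ‖q + ∑ i, sg (flb b τ ε i) • u i‖ < r then (1 : ℝ) else 0) =
        ((Finset.univ.filter fun ε : ι → Bool =>
      ‖q + ∑ i, sg (ε i) • u i‖ < r).card : ℝ) := by
      intro τ
      rw [flb_sum b τ (fun ε => if ‖q + ∑ i, sg (ε i) • u i‖ < r then (1 : ℝ) else 0),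
        Finset.sum_boole]
    rw [Finset.sum_congr rfl (fun τ _ => h2 τ)]
    simp
  refine le_of_mul_le_mul_left ?_ h2m
  rw [h1, Finset.mul_sum]
  apply Finset.sum_le_sum
  intro ε _
  set K := kK r (fun j => bsum u (b j) ε) with hK
  have hKm : K ≤ m := kK_le _ _
  have h3 := kleitman_gen m (fun j => bsum u (b j) ε) hr
    (q + ∑ i ∈ Finset.univ \ (Finset.univ.biUnion b), sg (ε i) • u i)
  rw [← hK] at h3
  have h4 : ∑ τ : Fin m → Bool,
        (if ‖q + ∑ i, sg (flb b τ ε i) • u i‖ < r then (1 : ℝ) else 0) =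
      ((Finset.univ.filter fun τ : Fin m → Bool =>
        ‖(q + ∑ i ∈ Finset.univ \ (Finset.univ.biUnion b), sg (ε i) • u i) +
          ∑ j, sg (τ j) • bsum u (b j) ε‖ < r).card : ℝ) := by
    rw [← Finset.sum_boole]
    apply Finset.sum_congr rfl
    intro τ _
    rw [flb_bsum u b hd τ ε, add_assoc]
  rw [h4]
  have h5 : ((2 ^ (m - K) * K.choose (K / 2) : ℕ) : ℝ) ≤ 2 ^ m * (1 / Real.sqrt ((K : ℝ) + 1)) := by
    push_cast
    have h6 := choose_mid_le K
    calc (2 : ℝ) ^ (m - K) * (K.choose (K / 2) : ℝ)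
        ≤ 2 ^ (m - K) * (2 ^ K / Real.sqrt (K + 1)) :=
          mul_le_mul_of_nonneg_left h6 (by positivity)
      _ = (2 ^ (m - K) * 2 ^ K) * (1 / Real.sqrt (K + 1)) := by ring
      _ = 2 ^ m * (1 / Real.sqrt (K + 1)) := by
          rw [← pow_add, Nat.sub_add_cancel hKm]
  refine le_trans ?_ h5
  exact_mod_cast h3

/-- concentration bound for sums of vectors -/
theorem vec_conc (u : ι → V) {m : ℕ} (hm : 0 < m) {r : ℝ} (hr : 0 < r) (q : V)
    (hw : (m : ℝ) * (2 * r ^ 2 + 1) ≤ ∑ i, min (‖u i‖ ^ 2) 1) :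
    ((Finset.univ.filter fun ε : ι → Bool => ‖q + ∑ i, sg (ε i) • u i‖ < r).card : ℝ) ≤
      (576 / m + 1 / Real.sqrt ((m : ℝ) / 24 + 1)) * 2 ^ (Fintype.card ι) := by
  obtain ⟨b, -, hd, hb⟩ := acl_blocks (fun i => min (‖u i‖ ^ 2) 1) (fun i => min_le_right _ _)
    (l := 2 * r ^ 2) (by positivity) m Finset.univ hw
  have hb' : ∀ j, 2 * r ^ 2 ≤ ∑ i ∈ b j, ‖u i‖ ^ 2 := fun j =>
    (hb j).trans (Finset.sum_le_sum (fun i _ => min_le_left _ _))
  have hm0 : (0 : ℝ) < m := by exact_mod_cast hm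
  refine (flip_bound u b hd hr q).trans ?_
  have h1 : ∀ ε : ι → Bool, 1 / Real.sqrt ((kK r (fun j => bsum u (b j) ε) : ℝ) + 1) ≤
      (if (kK r (fun j => bsum u (b j) ε) : ℝ) < m / 24 then 1 else 0) +
        1 / Real.sqrt ((m : ℝ) / 24 + 1) := by
    intro ε
    have hpos : 0 < Real.sqrt ((m : ℝ) / 24 + 1) := Real.sqrt_pos.mpr (by positivity)
    split_ifs with h
    · have h2 : 1 ≤ Real.sqrt ((kK r (fun j => bsum u (b j) ε) : ℝ) + 1) := by
        rw [Real.one_le_sqrt]
        have : (0 : ℝ) ≤ (kK r (fun j => bsum u (b j) ε) : ℝ) := Nat.cast_nonneg _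
        linarith
      have h3 : 1 / Real.sqrt ((kK r (fun j => bsum u (b j) ε) : ℝ) + 1) ≤ 1 := by
        rw [div_le_one (by linarith)]
        exact h2
      have h4 : 0 ≤ 1 / Real.sqrt ((m : ℝ) / 24 + 1) := by positivity
      linarith
    · push Not at h
      rw [zero_add]
      apply one_div_le_one_div_of_le hpos
      apply Real.sqrt_le_sqrt
      linarith
  refine (Finset.sum_le_sum (fun ε _ => h1 ε)).trans ?_
  rw [Finset.sum_add_distrib, Finset.sum_boole]
  have h2 := few_good u hm b hd hr hb'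
  simp only [Finset.sum_const, Finset.card_univ, Fintype.card_fun, Fintype.card_bool,
      nsmul_eq_mul, Nat.cast_pow, Nat.cast_ofNat]
  rw [add_mul]
  have h3 : (2 : ℝ) ^ (Fintype.card ι) * (1 / Real.sqrt ((m : ℝ) / 24 + 1)) =
    1 / Real.sqrt ((m : ℝ) / 24 + 1) * 2 ^ (Fintype.card ι) := by ring
  rw [h3]
  linarith

end flips

/-! ### Gram vectors -/

section gram

open scoped MatrixOrder

theorem gram_exists {ι : Type} [Fintype ι] [DecidableEq ι] (P : Matrix ι ι ℝ) (hs : P.IsSymm)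
    (hpsd : ∀ φ : ι → ℝ, 0 ≤ ∑ i, ∑ j, φ i * P i j * φ j) :
    ∃ g : ι → EuclideanSpace ℝ ι, ∀ i j, inner ℝ (g i) (g j) = P i j := by
  have hP : P.PosSemidef := by
    refine Matrix.PosSemidef.of_dotProduct_mulVec_nonneg ?_ ?_
    · rw [Matrix.IsHermitian, Matrix.conjTranspose_eq_transpose_of_trivial]
      exact hs
    · intro x
      have h := hpsd x
      have e : star x ⬝ᵥ P.mulVec x = ∑ i, ∑ j, x i * P i j * x j := by
        simp only [dotProduct, Matrix.mulVec, Finset.mul_sum, Pi.star_apply, star_trivial]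
        apply Finset.sum_congr rfl
        intro i _
        apply Finset.sum_congr rfl
        intro j _
        ring
      rw [e]
      exact h
  obtain ⟨B, hB⟩ := CStarAlgebra.nonneg_iff_eq_star_mul_self.mp hP.nonneg
  refine ⟨fun i => WithLp.toLp 2 (fun k => B k i), ?_⟩
  intro i j
  rw [hB, Matrix.star_eq_conjTranspose, Matrix.mul_apply]
  simp only [PiLp.inner_apply, Matrix.conjTranspose_apply, star_trivial, RCLike.inner_apply,
    conj_trivial]
  apply Finset.sum_congr rfl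
  intro k _
  ring

end gram

theorem anti_conc {M θ : ℝ} (hM : 0 < M) (hθ : 0 < θ) : ∃ L : ℝ, ∀ {ι : Type} [Fintype ι]
    [DecidableEq ι] (P : Matrix ι ι ℝ) (_ : P.IsSymm)
    (_ : ∀ φ : ι → ℝ, 0 ≤ ∑ i, ∑ j, φ i * P i j * φ j) (φ c : ι → ℝ),
    L ≤ ∑ i, min (c i ^ 2 * P i i) 1 →
    ((Finset.univ.filter fun ε : ι → Bool =>
      ∑ i, ∑ j, (φ i + sg (ε i) * c i) * P i j * (φ j + sg (ε j) * c j) < M).card : ℝ) ≤
      θ * 2 ^ (Fintype.card ι) := by
  obtain ⟨m, hm⟩ := exists_nat_gt (1152 / θ + 96 / θ ^ 2)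
  have hA : 0 < 1152 / θ := by positivity
  have hB : 0 < 96 / θ ^ 2 := by positivity
  have hm0 : (0 : ℝ) < m := by linarith
  have hmn : 0 < m := by exact_mod_cast hm0
  refine ⟨(m : ℝ) * (2 * (Real.sqrt M) ^ 2 + 1), ?_⟩
  intro ι _ _ P hs hpsd φ c hL
  obtain ⟨g, hg⟩ := gram_exists P hs hpsd
  have hr : 0 < Real.sqrt M := Real.sqrt_pos.mpr hM
  have hquad : ∀ x : ι → ℝ, ∑ i, ∑ j, x i * P i j * x j = ‖∑ i, x i • g i‖ ^ 2 := by
    intro x
    rw [← real_inner_self_eq_norm_sq, sum_inner]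
    apply Finset.sum_congr rfl
    intro i _
    rw [inner_sum]
    apply Finset.sum_congr rfl
    intro j _
    rw [real_inner_smul_left, real_inner_smul_right, hg]
    ring
  have hnorm : ∀ i, ‖c i • g i‖ ^ 2 = c i ^ 2 * P i i := by
    intro i
    rw [norm_smul, mul_pow, Real.norm_eq_abs, sq_abs, ← real_inner_self_eq_norm_sq (g i), hg]
  have h1 := vec_conc (fun i => c i • g i) hmn hr (∑ i, φ i • g i) (by
    simp only [hnorm]
    exact hL)
  have h2 : (Finset.univ.filter fun ε : ι → Bool =>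
      ∑ i, ∑ j, (φ i + sg (ε i) * c i) * P i j * (φ j + sg (ε j) * c j) < M) =
      (Finset.univ.filter fun ε : ι → Bool =>
        ‖(∑ i, φ i • g i) + ∑ i, sg (ε i) • (c i • g i)‖ < Real.sqrt M) := by
    apply Finset.filter_congr
    intro ε _
    rw [hquad (fun i => φ i + sg (ε i) * c i)]
    have e : ∑ i, (φ i + sg (ε i) * c i) • g i =
        (∑ i, φ i • g i) + ∑ i, sg (ε i) • (c i • g i) := by
      rw [← Finset.sum_add_distrib]
      apply Finset.sum_congr rfl
      intro i _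
      rw [add_smul, smul_smul]
    rw [e, Real.lt_sqrt (norm_nonneg _)]
  rw [h2]
  refine h1.trans ?_
  apply mul_le_mul_of_nonneg_right _ (by positivity)
  have h3 : 576 / (m : ℝ) ≤ θ / 2 := by
    rw [div_le_iff₀ hm0]
    have h4 : 1152 / θ < m := by linarith
    rw [div_lt_iff₀ hθ] at h4
    nlinarith
  have h5 : 1 / Real.sqrt ((m : ℝ) / 24 + 1) ≤ θ / 2 := by
    have h6 : 2 / θ ≤ Real.sqrt ((m : ℝ) / 24 + 1) := by
      apply Real.le_sqrt_of_sq_le
      have h7 : 96 / θ ^ 2 < m := by linarith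
      have h8 : (2 / θ) ^ 2 = (96 / θ ^ 2) / 24 := by
        field_simp
        ring
      rw [h8]
      linarith
    have h9 : 0 < 2 / θ := by positivity
    calc 1 / Real.sqrt ((m : ℝ) / 24 + 1) ≤ 1 / (2 / θ) := one_div_le_one_div_of_le h9 h6
      _ = θ / 2 := by field_simp
  linarith

end H10PL
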