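import Pool.Agent.H10R2.PL.Fin2b

namespace H10PL

open MeasureTheory ProbabilityTheory Matrix Set Filter

variable {d : ℕ} {T0 : (Fin d → ℤ) → (Fin d → ℤ) → ℝ} {κ : (Fin d → ℤ) → ℝ} {ρ0 b : ℝ}

theorem Kf_shift (hTinv : ∀ a y w, T0 (y + a) (w + a) = T0 y w) (a : Fin d → ℤ)
    (s : Sym2 (Fin d → ℤ) → Bool) (y w : Fin d → ℤ) :
    Kf T0 κ (shS a s) y w = Kf T0 κ s (y + a) (w + a) := by
  unfold Kf shS
  rw [hTinv a y w, Sym2.map_mk, add_sub_add_right_eq_sub]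

theorem EigC_shift (hTinv : ∀ a y w, T0 (y + a) (w + a) = T0 y w) (a : Fin d → ℤ)
    (s : Sym2 (Fin d → ℤ) → Bool) (V : (Fin d → ℤ) → ℝ) (E0 : ℂ) (ψ : (Fin d → ℤ) → ℂ)
    (h : EigC T0 κ (shS a s) (shV a V) E0 ψ) : EigC T0 κ s V E0 (fun y => ψ (y - a)) := by
  obtain ⟨h1, h2⟩ := h
  refine ⟨(Equiv.subRight a).summable_iff.2 h1, fun y => ?_⟩
  have h3 := h2 (y - a)
  have h4 : (∑' w, (Kf T0 κ (shS a s) (y - a) w : ℂ) * ψ w) =
      ∑' w, (Kf T0 κ s y w : ℂ) * ψ (w - a) := by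
    rw [← (Equiv.subRight a).tsum_eq (fun w => (Kf T0 κ (shS a s) (y - a) w : ℂ) * ψ w)]
    refine tsum_congr fun w => ?_
    simp only [Equiv.subRight_apply]
    rw [Kf_shift hTinv, sub_add_cancel, sub_add_cancel]
  rw [h4] at h3
  have h5 : shV a V (y - a) = V y := by
    unfold shV
    rw [sub_add_cancel]
  rw [h5] at h3
  exact h3

theorem EvR_shift (hTinv : ∀ a y w, T0 (y + a) (w + a) = T0 y w) (μ : Measure ℝ)
    [IsProbabilityMeasure μ] (w K0 : ℝ) (x a : Fin d → ℤ) :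
    ((PVg d μ).prod (Ps d)) (EvR T0 κ w K0 x) ≤ ((PVg d μ).prod (Ps d)) (EvR T0 κ w K0 (x + a)) := by
  rw [← shift_inv μ a (EvR T0 κ w K0 x)]
  refine measure_mono ?_
  rintro ω ⟨E0, hE0, ψ, hψ, hx, hw⟩
  refine ⟨E0, hE0, fun y => ψ (y - a), EigC_shift hTinv a _ _ _ _ hψ, ?_, ?_⟩
  · simpa using hx
  · have h1 : ∑' y, ‖ψ (y - a)‖ ^ 2 = ∑' y, ‖ψ y‖ ^ 2 :=
      (Equiv.subRight a).tsum_eq (fun y => ‖ψ y‖ ^ 2)
    simp only [add_sub_cancel_right]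
    rw [h1]
    exact hw

theorem EvR_zero (h : Adm T0 κ ρ0 b) (hTinv : ∀ a y w, T0 (y + a) (w + a) = T0 y w)
    (hd : 0 < d) (μ : Measure ℝ) [IsProbabilityMeasure μ]
    {D : ℝ} (hD : 0 ≤ D) (hμ : μ ≤ ENNReal.ofReal D • volume) (hprof : Prof κ)
    {w K0 : ℝ} (hw : 0 < w) (hK0 : 0 ≤ K0) (x : Fin d → ℤ) :
    ((PVg d μ).prod (Ps d)) (EvR T0 κ w K0 x) = 0 := by
  classical
  set P := (PVg d μ).prod (Ps d) with hP
  -- reduction to `x = 0`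
  suffices h0 : P (EvR T0 κ w K0 0) = 0 by
    refine le_antisymm ?_ bot_le
    rw [← h0]
    have := EvR_shift (κ := κ) hTinv μ w K0 x (-x)
    rwa [add_neg_cancel] at this
  refine le_antisymm ?_ bot_le
  refine ENNReal.le_of_forall_pos_le_add fun ε' hε' _ => ?_
  rw [zero_add]
  obtain ⟨ε, hεε⟩ : ∃ ε : ℝ, ε = ε' := ⟨_, rfl⟩
  have hε : 0 < ε := by rw [hεε]; exact_mod_cast hε'
  have hgoal : P (EvR T0 κ w K0 0) ≤ ENNReal.ofReal ε := by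
    obtain ⟨R, η, hη, hη1, hmass⟩ := mass_small h hd μ hD hμ hprof
      (K := K0 + 1) (M := 16 / w) (ε := ε * w / 16) (by linarith) (by positivity) (by positivity)
    obtain ⟨e, he⟩ : ∃ e, e = Real.sqrt w / 2 := ⟨_, rfl⟩
    have hsw : 0 < Real.sqrt w := Real.sqrt_pos.2 hw
    have he0 : 0 < e := by rw [he]; positivity
    have hK1 : 0 < K0 + 1 := by linarith
    obtain ⟨ρ1, hρ1⟩ := tail_small h (δ := ε / 2 * η ^ 3 * e ^ 2 / (16 * (K0 + 1)))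
      (by positivity)
    obtain ⟨ρ, hρρ0, hρ0, hρρ1, hρR⟩ : ∃ ρ : ℝ, ρ0 ≤ ρ ∧ 0 ≤ ρ ∧ ρ1 ≤ ρ ∧ 2 * (R : ℝ) ≤ ρ :=
      ⟨max (max ρ0 0) (max ρ1 (2 * (R : ℝ))),
        le_trans (le_max_left _ _) (le_max_left _ _),
        le_trans (le_max_right _ _) (le_max_left _ _),
        le_trans (le_max_left _ _) (le_max_right _ _),
        le_trans (le_max_right _ _) (le_max_right _ _)⟩
    have htl := hρ1 ρ hρρ1
    obtain ⟨T, hT0, hT⟩ := row_abs h ρ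
    obtain ⟨r, hr⟩ : ∃ r, r = 1 + 2 * ρ * T / (e * η) := ⟨_, rfl⟩
    have hr1 : 0 ≤ 2 * ρ * T / (e * η) := by positivity
    have hr0 : 0 < r := by linarith
    have hc1 : 2 * ((ρ / r) * T) ^ 2 * (1 / η ^ 2) ≤ e ^ 2 / 2 := by
      have h2 : 2 * ρ * T ≤ r * (e * η) := by
        have h3 : 2 * ρ * T / (e * η) ≤ r := by linarith
        rwa [div_le_iff₀ (by positivity)] at h3
      have h4 : (ρ / r) * T ≤ e * η / 2 := by
        have h5 : (ρ / r) * T = (ρ * T) / r := by ring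
        rw [h5, div_le_iff₀ hr0]
        linarith
      have h6 : 0 ≤ (ρ / r) * T := by positivity
      have h7 : ((ρ / r) * T) ^ 2 ≤ (e * η / 2) ^ 2 := pow_le_pow_left₀ h6 h4 2
      calc 2 * ((ρ / r) * T) ^ 2 * (1 / η ^ 2) ≤ 2 * (e * η / 2) ^ 2 * (1 / η ^ 2) := by gcongr
        _ = e ^ 2 / 2 := by field_simp
    have htail : 2 * (K0 + 1) * (2 * (∑' y : Fin d → ℤ, if ρ < ‖y‖ then κ y ^ 2 else 0) *
        (1 / η ^ 2) / (e ^ 2 / 4)) ≤ ε / 2 * η := by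
      calc 2 * (K0 + 1) * (2 * (∑' y : Fin d → ℤ, if ρ < ‖y‖ then κ y ^ 2 else 0) *
          (1 / η ^ 2) / (e ^ 2 / 4)) ≤
          2 * (K0 + 1) * (2 * (ε / 2 * η ^ 3 * e ^ 2 / (16 * (K0 + 1))) *
          (1 / η ^ 2) / (e ^ 2 / 4)) := by gcongr
        _ = ε / 2 * η := by field_simp; ring
    obtain ⟨Λ, hΛmem⟩ : ∃ Λ : Finset (Fin d → ℤ), ∀ y, ‖y‖ ≤ R + r + ρ → y ∈ Λ := by
      refine ⟨(ball_finite 0 (R + r + ρ)).toFinset, fun y hy => ?_⟩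
      rw [Set.Finite.mem_toFinset]
      show ‖y - 0‖ ≤ R + r + ρ
      rwa [sub_zero]
    have hRnn : (0 : ℝ) ≤ R := Nat.cast_nonneg R
    have hΛR : ∀ y : Fin d → ℤ, ‖y‖ ≤ R → y ∈ Λ := fun y hy => hΛmem y (by linarith)
    have hm := hmass Λ ρ hΛR hρR
    have hsite : ∀ x ∈ Qb Λ (R : ℝ), P (EvR T0 κ w K0 0) ≤
        ENNReal.ofReal (ε / 2) + ENNReal.ofReal (8 / w) *
      ∫⁻ p, Fm T0 κ ρ η (16 / w) Λ x ((p.1, fun i : Λ => p.2.1 i), p.2.2)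
        ∂((volume.restrict (Icc (-(K0 + 1)) (K0 + 1))).prod ((PVg d μ).prod (Ps d))) := by
      intro x hx
      have hxR := (Finset.mem_filter.1 hx).2
      have h1 := EvR_shift (κ := κ) hTinv μ w K0 0 (x : Fin d → ℤ)
      rw [zero_add] at h1
      refine h1.trans ?_
      exact site_bound h μ hw hK0 hρρ0 hρ0 hr0 hη hη1 Λ x x.2 (fun y hy => hΛmem y (by
        calc ‖y‖ = ‖(y - (x : Fin d → ℤ)) + x‖ := by rw [sub_add_cancel]
          _ ≤ ‖y - (x : Fin d → ℤ)‖ + ‖(x : Fin d → ℤ)‖ := norm_add_le _ _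
          _ ≤ R + r + ρ := by linarith)) hT0 (hT Λ) he0 he.le hc1 htail (by
        rw [div_lt_div_iff_of_pos_right hw]; norm_num)
    have hsum : ((Qb Λ (R : ℝ)).card : ENNReal) * P (EvR T0 κ w K0 0) ≤
        ((Qb Λ (R : ℝ)).card : ENNReal) * ENNReal.ofReal ε := by
      calc ((Qb Λ (R : ℝ)).card : ENNReal) * P (EvR T0 κ w K0 0)
          = ∑ _x ∈ Qb Λ (R : ℝ), P (EvR T0 κ w K0 0) := by
            rw [Finset.sum_const, nsmul_eq_mul]
        _ ≤ ∑ x ∈ Qb Λ (R : ℝ), (ENNReal.ofReal (ε / 2) + ENNReal.ofReal (8 / w) *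
            ∫⁻ p, Fm T0 κ ρ η (16 / w) Λ x ((p.1, fun i : Λ => p.2.1 i), p.2.2)
            ∂((volume.restrict (Icc (-(K0 + 1)) (K0 + 1))).prod ((PVg d μ).prod (Ps d)))) :=
            Finset.sum_le_sum hsite
        _ = ((Qb Λ (R : ℝ)).card : ENNReal) * ENNReal.ofReal (ε / 2) + ENNReal.ofReal (8 / w) *
            ∑ x ∈ Qb Λ (R : ℝ),
            ∫⁻ p, Fm T0 κ ρ η (16 / w) Λ x ((p.1, fun i : Λ => p.2.1 i), p.2.2)
            ∂((volume.restrict (Icc (-(K0 + 1)) (K0 + 1))).prod ((PVg d μ).prod (Ps d))) := by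
            rw [Finset.sum_add_distrib, Finset.sum_const, nsmul_eq_mul, Finset.mul_sum]
        _ ≤ ((Qb Λ (R : ℝ)).card : ENNReal) * ENNReal.ofReal (ε / 2) + ENNReal.ofReal (8 / w) *
            ENNReal.ofReal (ε * w / 16 * (Qb Λ (R : ℝ)).card) := by gcongr
        _ = ((Qb Λ (R : ℝ)).card : ENNReal) * ENNReal.ofReal ε := by
            rw [← ENNReal.ofReal_natCast, ← ENNReal.ofReal_mul (by positivity),
              ← ENNReal.ofReal_mul (by positivity), ← ENNReal.ofReal_add (by positivity)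
              (by positivity), ← ENNReal.ofReal_mul (by positivity)]
            congr 1
            field_simp
            ring
    have hc0 : ((Qb Λ (R : ℝ)).card : ENNReal) ≠ 0 := by
      rw [Qb_card Λ R hΛR]
      simp
    exact (ENNReal.mul_le_mul_iff_right hc0 (ENNReal.natCast_ne_top _)).1 hsum
  rw [hεε, ENNReal.ofReal_coe_nnreal] at hgoal
  exact hgoal

end H10PL
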