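import Pool.Agent.H10R2.PL.Asm3b

namespace H10PL

open MeasureTheory ProbabilityTheory Matrix Set Filter

variable {d : ℕ} {T0 : (Fin d → ℤ) → (Fin d → ℤ) → ℝ} {κ : (Fin d → ℤ) → ℝ} {ρ0 b : ℝ}

theorem mass_univ (v : NNReal) {K : ℝ} (_hK : 0 < K) :
    ((volume.restrict (Icc (-K) K)).prod ((PV d v).prod (Ps d))) univ =
      ENNReal.ofReal (2 * K) := by
  rw [← univ_prod_univ, Measure.prod_prod, measure_univ (μ := (PV d v).prod (Ps d)), mul_one,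
    Measure.restrict_apply_univ, Real.volume_Icc]
  congr 1
  ring

theorem bad3_null (h : Adm T0 κ ρ0 b) (hprof : Prof3 κ) (v : NNReal) (hv : v ≠ 0)
    (x : Fin d → ℤ) (M : ℝ) {K : ℝ} (hK : 0 < K) :
    ((volume.restrict (Icc (-K) K)).prod ((PV d v).prod (Ps d)))
      {p | ¬ InfN T0 κ p.2.2 p.2.1 p.1 x M} = 0 := by
  classical
  have hpi := Real.pi_pos
  obtain ⟨m, hm⟩ : ∃ m : Measure (ℝ × (((Fin d → ℤ) → ℝ) × (Sym2 (Fin d → ℤ) → Bool))),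
    m = (volume.restrict (Icc (-K) K)).prod ((PV d v).prod (Ps d)) := ⟨_, rfl⟩
  obtain ⟨bad, hbad⟩ : ∃ bad : Set (ℝ × (((Fin d → ℤ) → ℝ) × (Sym2 (Fin d → ℤ) → Bool))),
    bad = {p | ¬ InfN T0 κ p.2.2 p.2.1 p.1 x M} := ⟨_, rfl⟩
  rw [← hm, ← hbad]
  by_contra hne
  have : IsFiniteMeasure m := by rw [hm]; infer_instance
  have hmU : m univ = ENNReal.ofReal (2 * K) := by rw [hm]; exact mass_univ v hK
  have hfin : m bad ≠ ⊤ := measure_ne_top _ _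
  obtain ⟨δ, hδ⟩ : ∃ δ, δ = (m bad).toReal / 2 := ⟨_, rfl⟩
  have hδ0 : 0 < δ := by
    rw [hδ]
    have := ENNReal.toReal_pos hne hfin
    positivity
  have hmbad : m bad = ENNReal.ofReal (2 * δ) := by
    rw [hδ, mul_div_cancel₀ _ (two_ne_zero), ENNReal.ofReal_toReal hfin]
  obtain ⟨U, hU⟩ : ∃ U, U = toMeasurable m bad := ⟨_, rfl⟩
  have hUm : MeasurableSet U := by rw [hU]; exact measurableSet_toMeasurable _ _
  have hUeq : m U = ENNReal.ofReal (2 * δ) := by rw [hU, measure_toMeasurable, hmbad]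
  -- constants
  have ha0 : 0 ≤ aC b κ := aC_nonneg
  have hCk := Ck_pos hK ha0
  obtain ⟨W, hW⟩ : ∃ W, W = 2 * (K + 1) + 2 * Ck K (aC b κ) / (Real.pi * δ) := ⟨_, rfl⟩
  have hW0 : 0 ≤ 2 * Ck K (aC b κ) / (Real.pi * δ) := by positivity
  have hWpos : 0 < W := by linarith
  have hW1 : 2 * (K + 1) ≤ W := by linarith
  have hCW : Ck K (aC b κ) / W ≤ Real.pi * δ / 2 := by
    rw [div_le_iff₀ hWpos]
    have h1 : 2 * Ck K (aC b κ) / (Real.pi * δ) ≤ W := by linarith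
    rw [div_le_iff₀ (by positivity)] at h1
    linarith
  obtain ⟨c1, hc1, hpr⟩ := hprof
  obtain ⟨D, hD⟩ : ∃ D, D = (Real.sqrt (2 * Real.pi * v))⁻¹ := ⟨_, rfl⟩
  have hv0 : (0 : ℝ) < v := by
    have : 0 < v := pos_iff_ne_zero.2 hv
    exact_mod_cast this
  have hD0 : 0 < D := by
    rw [hD]
    have : 0 < Real.sqrt (2 * Real.pi * v) := Real.sqrt_pos.2 (by positivity)
    positivity
  have hμ : gaussianReal 0 v ≤ ENNReal.ofReal D • volume := by rw [hD]; exact gauss_le v hv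
  obtain ⟨C3, hC3⟩ : ∃ C3, C3 = 2 * K * (Real.pi * D * c1 * (Real.pi * D * c1 + 2)) := ⟨_, rfl⟩
  have hC30 : 0 < C3 := by rw [hC3]; positivity
  have hcW : 0 < gaussianPDFReal 0 v W := gaussianPDFReal_pos 0 v W hv
  obtain ⟨c, hc⟩ : ∃ c, c = c1 / 2 * (gaussianPDFReal 0 v W * Real.pi * δ / 2) := ⟨_, rfl⟩
  have hc0 : 0 < c := by rw [hc]; positivity
  obtain ⟨ε1, hε1⟩ : ∃ ε1, ε1 = min δ (c ^ 2 / (16 * C3)) := ⟨_, rfl⟩
  have hε10 : 0 < ε1 := by rw [hε1]; positivity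
  obtain ⟨B, U', hU'm, hU'ind, hsd⟩ := approx_set m U hUm hε10
  have hsd1 : m (U' \ U) ≤ ENNReal.ofReal (c ^ 2 / (16 * C3)) := by
    refine (measure_mono ?_).trans (hsd.trans (ENNReal.ofReal_le_ofReal ?_))
    · rw [Set.symmDiff_def]
      exact subset_union_right
    · rw [hε1]; exact min_le_right _ _
  have hsd2 : m (U \ U') ≤ ENNReal.ofReal δ := by
    refine (measure_mono ?_).trans (hsd.trans (ENNReal.ofReal_le_ofReal ?_))
    · rw [Set.symmDiff_def]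
      exact subset_union_left
    · rw [hε1]; exact min_le_left _ _
  have hδU : ENNReal.ofReal δ ≤ m U' := by
    refine le_of_add_half (e := δ) hδ0.le hδ0.le ?_
    have e1 : δ + δ = 2 * δ := by ring
    rw [e1, ← hUeq]
    calc m U ≤ m (U' ∪ (U \ U')) := measure_mono (fun p hp => by
          by_cases hp' : p ∈ U'
          · exact Or.inl hp'
          · exact Or.inr ⟨hp, hp'⟩)
      _ ≤ m U' + m (U \ U') := measure_union_le _ _
      _ ≤ m U' + ENNReal.ofReal δ := add_le_add le_rfl hsd2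
  -- Paley-Zygmund constants
  obtain ⟨c6, hc6⟩ : ∃ c6, c6 = (c / 2) ^ 2 / (8 * C3) := ⟨_, rfl⟩
  have hc60 : 0 < c6 := by rw [hc6]; positivity
  obtain ⟨M2, hM2, hlow⟩ := notInf_small h v hv x M hK (ε := c6 / 4) (by positivity)
  obtain ⟨θ, hθ⟩ : ∃ θ, θ = c6 / (8 * K) := ⟨_, rfl⟩
  have hθ0 : 0 < θ := by rw [hθ]; positivity
  obtain ⟨L, hL⟩ := acl_lattice (d := d) h v hM2 hθ0
  obtain ⟨n, hn⟩ := exists_nat_gt (max 1 (L / (c / 2 / (8 * K))))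
  have hn1 : (1 : ℝ) < n := lt_of_le_of_lt (le_max_left _ _) hn
  have hn0 : (0 : ℝ) < n := by linarith
  have hnL : L ≤ c / 2 / (8 * K) * n := by
    have h1 : L / (c / 2 / (8 * K)) < n := lt_of_le_of_lt (le_max_right _ _) hn
    rw [div_lt_iff₀ (by positivity)] at h1
    linarith
  obtain ⟨β, F, hβ, hFB, hFd, hFκ, hFc⟩ := scales hc1 hpr x (insert x B) n
  have hxF : ∀ k, x ∉ F k := by
    intro k hxk
    exact (Finset.disjoint_left.1 (hFB k) hxk) (Finset.mem_insert_self _ _)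
  have hBF : ∀ k, ∀ w ∈ F k, w ∉ B := by
    intro k w hw hwB
    exact (Finset.disjoint_left.1 (hFB k) hw) (Finset.mem_insert_of_mem hwB)
  obtain ⟨η, hη0, hη1, hηβ⟩ : ∃ η : ℝ, 0 < η ∧ η ≤ 1 ∧ ∀ k, η ≤ β k := by
    have hn' : 0 < n := by exact_mod_cast hn0
    have : Nonempty (Fin n) := ⟨⟨0, hn'⟩⟩
    obtain ⟨k0, hk0⟩ := Finite.exists_min β
    exact ⟨β k0, (hβ k0).1, (hβ k0).2, hk0⟩
  obtain ⟨ρ, Λ, hx, hρ, hFΛ, hlow2⟩ := hlow η hη0 hη1 (∑ k, ∑ w ∈ F k, ‖x - w‖)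
    (Finset.univ.biUnion F)
  have hFk : ∀ k, F k ⊆ Λ := fun k =>
    (Finset.subset_biUnion_of_mem F (Finset.mem_univ k)).trans hFΛ
  have hρk : ∀ k, ∀ w ∈ F k, ‖x - w‖ ≤ ρ := by
    intro k w hw
    refine le_trans ?_ hρ
    refine le_trans (Finset.single_le_sum (f := fun w => ‖x - w‖) (fun z _ => norm_nonneg _) hw) ?_
    exact Finset.single_le_sum (f := fun k => ∑ w ∈ F k, ‖x - w‖)
      (fun k _ => Finset.sum_nonneg fun z _ => norm_nonneg _) (Finset.mem_univ k)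
  have hacl := hL ρ η K hη0 hK Λ x hx n β F hFk hxF hFd hFκ hρk hηβ
  rw [← hm] at hacl hlow2
  -- the random variable
  obtain ⟨X, hX⟩ : ∃ X : (ℝ × (((Fin d → ℤ) → ℝ) × (Sym2 (Fin d → ℤ) → Bool))) → ENNReal,
    X = fun p => ENNReal.ofReal (Sn T0 κ ρ Λ ⟨x, hx⟩ β F (prj Λ p)) := ⟨_, rfl⟩
  have hXm : Measurable X := by
    rw [hX]
    exact ((Sn_meas h ρ Λ ⟨x, hx⟩ β F).comp (prj_meas Λ)).ennreal_ofReal
  have hsq : ∫⁻ p, X p ^ 2 ∂m ≤ ENNReal.ofReal (C3 * (n : ℝ) ^ 2) := by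
    rw [hX, hm, hC3]
    exact Sn_sq h v hD0.le hμ ρ Λ ⟨x, hx⟩ β (fun k => (hβ k).1) F hc1.le
      (fun k => (hFc k).2) hK
  have hlo' : ENNReal.ofReal (c * n) ≤ ∫⁻ p in U', X p ∂m := by
    rw [hX, hm, hc]
    refine Sn_low h v hv ρ Λ x hx β hβ F hFk hxF (fun k => (hFc k).1) hK hW1 hδ0 hCW U' hU'm ?_ ?_
    · rw [← hm]; exact hδU
    · intro k w hw E V s t
      exact hU'ind E V s w t (hBF k w hw)
  have hlo := approx_low m hXm hUm hU'm hn0 hC30 hc0 hsq hsd1 hlo'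
  have hpz := pz_abs m hXm hUm hn0 hC30 (by positivity : 0 < c / 2) hK hmU.le hsq hlo
  have hSm : MeasurableSet {p | ENNReal.ofReal (c / 2 / (8 * K) * n) ≤ X p} :=
    measurableSet_le measurable_const hXm
  rw [hU, Measure.measure_toMeasurable_inter hSm hfin, ← hc6] at hpz
  have hsub : bad ∩ {p | ENNReal.ofReal (c / 2 / (8 * K) * n) ≤ X p} ⊆
      {p | ¬ InfN T0 κ p.2.2 p.2.1 p.1 x M ∧
        M2 * η ≤ (Sg (Am T0 κ ρ Λ p.2.2) (fun i : Λ => p.2.1 i) p.1 η ⟨x, hx⟩).im} ∪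
      {p | L ≤ ∑ k, β k * ∑ i ∈ Finset.univ.filter (fun i : Λ => (i : Fin d → ℤ) ∈ F k),
            Pm (cut (Am T0 κ ρ Λ p.2.2) ⟨x, hx⟩) (fun i : Λ => p.2.1 i) p.1 (β k) i i ∧
          (Sg (Am T0 κ ρ Λ p.2.2) (fun i : Λ => p.2.1 i) p.1 η ⟨x, hx⟩).im < M2 * η} := by
    rintro p ⟨hp1, hp2⟩
    rw [hbad] at hp1
    by_cases hp3 : M2 * η ≤ (Sg (Am T0 κ ρ Λ p.2.2) (fun i : Λ => p.2.1 i) p.1 η ⟨x, hx⟩).im
    · exact Or.inl ⟨hp1, hp3⟩
    · refine Or.inr ⟨?_, not_le.1 hp3⟩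
      have h1 : ENNReal.ofReal (c / 2 / (8 * K) * n) ≤
          ENNReal.ofReal (Sn T0 κ ρ Λ ⟨x, hx⟩ β F (prj Λ p)) := by
        have h2 : ENNReal.ofReal (c / 2 / (8 * K) * n) ≤ X p := hp2
        rw [hX] at h2
        exact h2
      have h3 : c / 2 / (8 * K) * n ≤ Sn T0 κ ρ Λ ⟨x, hx⟩ β F (prj Λ p) :=
        (ENNReal.ofReal_le_ofReal_iff
          (Sn_nonneg h ρ Λ ⟨x, hx⟩ β (fun k => (hβ k).1) F _)).1 h1
      refine hnL.trans (h3.trans (le_of_eq ?_))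
      unfold Sn prj
      congr! 1
  have hfinal : ENNReal.ofReal c6 ≤ ENNReal.ofReal (c6 / 4) + ENNReal.ofReal (2 * K * θ) :=
    hpz.trans ((measure_mono hsub).trans ((measure_union_le _ _).trans
      (add_le_add hlow2 (by convert hacl))))
  rw [← ENNReal.ofReal_add (by positivity) (by positivity), hθ] at hfinal
  have e1 : c6 / 4 + 2 * K * (c6 / (8 * K)) = c6 / 2 := by
    field_simp
    ring
  rw [e1, ENNReal.ofReal_le_ofReal_iff (by positivity)] at hfinal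
  linarith

theorem infN_ae3' (h : Adm T0 κ ρ0 b) (hprof : Prof3 κ) (v : NNReal) (hv : v ≠ 0)
    (x : Fin d → ℤ) (M : ℝ) :
    ∀ᵐ p : ℝ × (((Fin d → ℤ) → ℝ) × (Sym2 (Fin d → ℤ) → Bool))
      ∂(volume.prod ((PV d v).prod (Ps d))), InfN T0 κ p.2.2 p.2.1 p.1 x M := by
  set ν := (PV d v).prod (Ps d) with hν
  set bad : Set (ℝ × (((Fin d → ℤ) → ℝ) × (Sym2 (Fin d → ℤ) → Bool))) :=
    {p | ¬ InfN T0 κ p.2.2 p.2.1 p.1 x M} with hbad
  have h1 : ∀ n : ℕ, ((volume.restrict (Icc (-((n : ℝ) + 1)) ((n : ℝ) + 1))).prod ν) bad = 0 :=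
    fun n => bad3_null h hprof v hv x M (K := (n : ℝ) + 1) (by positivity)
  have h2 : ∀ n : ℕ, ((volume : Measure ℝ).prod ν)
      (bad ∩ (Icc (-((n : ℝ) + 1)) ((n : ℝ) + 1) ×ˢ univ)) = 0 := by
    intro n
    have h3 := h1 n
    rw [← Measure.restrict_univ (μ := ν), Measure.prod_restrict,
      Measure.restrict_apply' (measurableSet_Icc.prod MeasurableSet.univ)] at h3
    simpa using h3
  show ((volume : Measure ℝ).prod ν) bad = 0
  have h4 : bad ⊆ ⋃ n : ℕ, bad ∩ (Icc (-((n : ℝ) + 1)) ((n : ℝ) + 1) ×ˢ univ) := by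
    intro p hp
    obtain ⟨n, hn⟩ := exists_nat_ge |p.1|
    refine mem_iUnion.2 ⟨n, hp, ?_⟩
    refine ⟨?_, mem_univ _⟩
    have := abs_le.1 hn
    exact ⟨by linarith [this.1], by linarith [this.2]⟩
  exact measure_mono_null h4 (measure_iUnion_null h2)

end H10PL
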