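import Pool.Agent.H10R2.PL.Final
import Pool.Agent.H10R2.PL.Asm3c

/-! Final assembly of the third theorem. -/

namespace H10PL

open MeasureTheory ProbabilityTheory Set

/-- the whole theorem for a critical profile and a general finite range part, variance `v` -/
theorem general3_ae {d : ℕ} {T0 : (Fin d → ℤ) → (Fin d → ℤ) → ℝ} {κ : (Fin d → ℤ) → ℝ}
    {ρ0 b : ℝ} (h : Adm T0 κ ρ0 b) (hprof : Prof3 κ)
    (C a : ℝ) (ha : (d : ℝ) / 2 < a) (hk : ∀ y, y ≠ 0 → |κ y| ≤ C * ‖y‖ ^ (-a))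
    (v : NNReal) (hv : v ≠ 0) :
    ∀ᵐ ω : ((Fin d → ℤ) → ℝ) × (Sym2 (Fin d → ℤ) → Bool) ∂((PV d v).prod (Ps d)),
      ∀ (E : ℂ) (ψ : (Fin d → ℤ) → ℂ), Summable (fun y => ‖ψ y‖ ^ 2) →
        (∀ y, (∑' w, (Kf T0 κ ω.2 y w : ℂ) * ψ w) + (ω.1 y : ℂ) * ψ y = E * ψ y) → ψ = 0 := by
  have hcut := cut_ae h C a ha hk
  have h1 := no_eigenvector h v hv hcut (fun x M => infN_ae3' h hprof v hv x M)
  have hcut' : ∀ᵐ ω : ((Fin d → ℤ) → ℝ) × (Sym2 (Fin d → ℤ) → Bool) ∂((PV d v).prod (Ps d)),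
      CutOK T0 κ ω.2 := Measure.quasiMeasurePreserving_snd.ae hcut
  filter_upwards [h1, hcut'] with ω hω hωc
  intro E ψ hψ he
  exact no_complex h ω.2 hωc ω.1 hω E ψ hψ he

end H10PL
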