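import Mathlib

/-!
# Approximation of measurable sets by sets not depending on the potential outside a finite set
-/

namespace H10PL

open MeasureTheory ProbabilityTheory Set

section lattice

variable {d : ℕ}

/-- `U` is measurable and does not depend on the potential outside `B`. -/
def IndepOut (d : ℕ) (B : Finset (Fin d → ℤ))
    (U' : Set (ℝ × (((Fin d → ℤ) → ℝ) × (Sym2 (Fin d → ℤ) → Bool)))) : Prop :=
  MeasurableSet U' ∧
      (∀ (E : ℝ) (V : (Fin d → ℤ) → ℝ) (s : Sym2 (Fin d → ℤ) → Bool) (w : Fin d → ℤ) (t : ℝ),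
        w ∉ B → ((E, (Function.update V w t, s)) ∈ U' ↔ (E, (V, s)) ∈ U'))

theorem IndepOut.compl {B : Finset (Fin d → ℤ)}
    {U' : Set (ℝ × (((Fin d → ℤ) → ℝ) × (Sym2 (Fin d → ℤ) → Bool)))} (h : IndepOut d B U') :
    IndepOut d B U'ᶜ := by
  refine ⟨h.1.compl, fun E V s w t hw => ?_⟩
  rw [mem_compl_iff, mem_compl_iff, h.2 E V s w t hw]

theorem IndepOut.iUnion {N : ℕ} {B : ℕ → Finset (Fin d → ℤ)}
    {U' : ℕ → Set (ℝ × (((Fin d → ℤ) → ℝ) × (Sym2 (Fin d → ℤ) → Bool)))}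
    (h : ∀ n, IndepOut d (B n) (U' n)) :
    IndepOut d ((Finset.range N).biUnion B) (⋃ n ∈ Finset.range N, U' n) := by
  refine ⟨Finset.measurableSet_biUnion _ fun n _ => (h n).1, fun E V s w t hw => ?_⟩
  simp only [mem_iUnion]
  simp only [Finset.mem_biUnion, not_exists, not_and] at hw
  constructor
  · rintro ⟨n, hn, hm⟩
    exact ⟨n, hn, ((h n).2 E V s w t (hw n hn)).1 hm⟩
  · rintro ⟨n, hn, hm⟩
    exact ⟨n, hn, ((h n).2 E V s w t (hw n hn)).2 hm⟩

/-- The class of sets which can be approximated. -/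
def ApxClass (m : Measure (ℝ × (((Fin d → ℤ) → ℝ) × (Sym2 (Fin d → ℤ) → Bool))))
    (U : Set (ℝ × (((Fin d → ℤ) → ℝ) × (Sym2 (Fin d → ℤ) → Bool)))) : Prop :=
  MeasurableSet U ∧ ∀ ε : ℝ, 0 < ε → ∃ B U', IndepOut d B U' ∧
    m (symmDiff U U') ≤ ENNReal.ofReal ε

theorem ApxClass.compl {m : Measure (ℝ × (((Fin d → ℤ) → ℝ) × (Sym2 (Fin d → ℤ) → Bool)))}
    {U : Set (ℝ × (((Fin d → ℤ) → ℝ) × (Sym2 (Fin d → ℤ) → Bool)))} (h : ApxClass m U) :
    ApxClass m Uᶜ := by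
  refine ⟨h.1.compl, fun ε hε => ?_⟩
  obtain ⟨B, U', h1, h2⟩ := h.2 ε hε
  refine ⟨B, U'ᶜ, h1.compl, ?_⟩
  rwa [compl_symmDiff_compl]

theorem ApxClass.of_indep {m : Measure (ℝ × (((Fin d → ℤ) → ℝ) × (Sym2 (Fin d → ℤ) → Bool)))}
    {U : Set (ℝ × (((Fin d → ℤ) → ℝ) × (Sym2 (Fin d → ℤ) → Bool)))}
    {B : Finset (Fin d → ℤ)} (h : IndepOut d B U) :
    ApxClass m U := by
  refine ⟨h.1, fun ε hε => ⟨B, U, h, ?_⟩⟩
  simp

theorem ApxClass.iUnion {m : Measure (ℝ × (((Fin d → ℤ) → ℝ) × (Sym2 (Fin d → ℤ) → Bool)))}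
    [IsFiniteMeasure m]
    {U : ℕ → Set (ℝ × (((Fin d → ℤ) → ℝ) × (Sym2 (Fin d → ℤ) → Bool)))}
    (h : ∀ n, ApxClass m (U n)) :
    ApxClass m (⋃ n, U n) := by
  refine ⟨MeasurableSet.iUnion fun n => (h n).1, fun ε hε => ?_⟩
  have hε2 : 0 < ENNReal.ofReal (ε / 2) := by
    rw [ENNReal.ofReal_pos]; positivity
  -- choose N
  have ht : Filter.Tendsto (fun N => m ((⋃ n, U n) \ Set.accumulate U N)) Filter.atTop
      (nhds 0) := by
    have hc : ∀ N, MeasurableSet (Set.accumulate U N) := fun N => by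
      unfold Set.accumulate
      exact MeasurableSet.iUnion fun i => MeasurableSet.iUnion fun _ => (h i).1
    have h1 := tendsto_measure_iInter_atTop (μ := m)
      (s := fun N => (⋃ n, U n) \ Set.accumulate U N)
      (fun N => ((MeasurableSet.iUnion fun n => (h n).1).diff (hc N)).nullMeasurableSet)
      (fun a b hab x hx => ⟨hx.1, fun hx2 => hx.2 (Set.monotone_accumulate hab hx2)⟩)
      ⟨0, measure_ne_top _ _⟩
    have h2 : (⋂ N, ((⋃ n, U n) \ Set.accumulate U N)) = ∅ := by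
      ext x
      simp only [mem_iInter, mem_sdiff, mem_iUnion, mem_empty_iff_false, iff_false, not_forall]
      by_contra hcon
      push Not at hcon
      obtain ⟨⟨n, hn⟩, -⟩ := hcon 0
      exact (hcon n).2 (Set.subset_accumulate hn)
    rw [h2, measure_empty] at h1
    exact h1
  obtain ⟨N, hN⟩ := (ht.eventually (gt_mem_nhds hε2)).exists
  have hpos : 0 < ε / (2 * (N + 1 : ℝ)) := by positivity
  choose B U' hI hm using fun n => (h n).2 (ε / (2 * (N + 1 : ℝ))) hpos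
  refine ⟨_, _, IndepOut.iUnion (N := N + 1) hI, ?_⟩
  have hsub : symmDiff (⋃ n, U n) (⋃ n ∈ Finset.range (N + 1), U' n) ⊆
      ((⋃ n, U n) \ Set.accumulate U N) ∪ ⋃ n ∈ Finset.range (N + 1), symmDiff (U n) (U' n) := by
    intro x hx
    rw [Set.mem_symmDiff] at hx
    simp only [mem_union, mem_sdiff, mem_iUnion, Set.mem_symmDiff, Set.mem_accumulate,
      Finset.mem_range, exists_prop, not_exists, not_and] at hx ⊢
    rcases hx with ⟨⟨n, hn⟩, hx2⟩ | ⟨⟨n, hn, hn2⟩, hx2⟩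
    · by_cases hacc : ∃ k, k ≤ N ∧ x ∈ U k
      · obtain ⟨k, hk, hxk⟩ := hacc
        exact Or.inr ⟨k, by omega, Or.inl ⟨hxk, hx2 k (by omega)⟩⟩
      · exact Or.inl ⟨⟨n, hn⟩, fun k hk hxk => hacc ⟨k, hk, hxk⟩⟩
    · exact Or.inr ⟨n, hn, Or.inr ⟨hn2, hx2 n⟩⟩
  calc m (symmDiff (⋃ n, U n) (⋃ n ∈ Finset.range (N + 1), U' n))
      ≤ m (((⋃ n, U n) \ Set.accumulate U N) ∪
          ⋃ n ∈ Finset.range (N + 1), symmDiff (U n) (U' n)) := measure_mono hsub
    _ ≤ m ((⋃ n, U n) \ Set.accumulate U N) +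
          m (⋃ n ∈ Finset.range (N + 1), symmDiff (U n) (U' n)) := measure_union_le _ _
    _ ≤ ENNReal.ofReal (ε / 2) + ∑ n ∈ Finset.range (N + 1), m (symmDiff (U n) (U' n)) :=
        add_le_add hN.le (measure_biUnion_finset_le _ _)
    _ ≤ ENNReal.ofReal (ε / 2) +
          ∑ n ∈ Finset.range (N + 1), ENNReal.ofReal (ε / (2 * (N + 1 : ℝ))) :=
        add_le_add le_rfl (Finset.sum_le_sum fun n _ => hm n)
    _ = ENNReal.ofReal (ε / 2) + ENNReal.ofReal (ε / 2) := by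
        congr 1
        rw [← ENNReal.ofReal_sum_of_nonneg (fun _ _ => hpos.le)]
        congr 1
        rw [Finset.sum_const, Finset.card_range, nsmul_eq_mul]
        push_cast
        field_simp
    _ = ENNReal.ofReal ε := by
        rw [← ENNReal.ofReal_add (by positivity) (by positivity)]
        congr 1
        ring

/-- a measurable set is approximated by sets which do not depend on the potential outside a
finite set -/
theorem approx_set (m : Measure (ℝ × (((Fin d → ℤ) → ℝ) × (Sym2 (Fin d → ℤ) → Bool))))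
    [IsFiniteMeasure m] (U : Set (ℝ × (((Fin d → ℤ) → ℝ) × (Sym2 (Fin d → ℤ) → Bool))))
    (hU : MeasurableSet U) {ε : ℝ} (hε : 0 < ε) :
    ∃ (B : Finset (Fin d → ℤ)) (U' : Set (ℝ × (((Fin d → ℤ) → ℝ) × (Sym2 (Fin d → ℤ) → Bool)))),
      MeasurableSet U' ∧
      (∀ (E : ℝ) (V : (Fin d → ℤ) → ℝ) (s : Sym2 (Fin d → ℤ) → Bool) (w : Fin d → ℤ) (t : ℝ),
        w ∉ B → ((E, (Function.update V w t, s)) ∈ U' ↔ (E, (V, s)) ∈ U')) ∧
      m (symmDiff U U') ≤ ENNReal.ofReal ε := by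
  let C : MeasurableSpace (ℝ × (((Fin d → ℤ) → ℝ) × (Sym2 (Fin d → ℤ) → Bool))) :=
    { MeasurableSet' := fun U => ApxClass m U
      measurableSet_empty := ApxClass.of_indep (B := ∅)
        ⟨MeasurableSet.empty, fun _ _ _ _ _ _ => Iff.rfl⟩
      measurableSet_compl := fun _ h => h.compl
      measurableSet_iUnion := fun _ h => ApxClass.iUnion h }
  have h1 : Measurable[C] (fun p : ℝ × (((Fin d → ℤ) → ℝ) × (Sym2 (Fin d → ℤ) → Bool)) => p.1) :=
    fun A hA => ApxClass.of_indep (B := ∅) ⟨measurable_fst hA, fun E V s w t _ => Iff.rfl⟩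
  have h2 : Measurable[C] (fun p : ℝ × (((Fin d → ℤ) → ℝ) × (Sym2 (Fin d → ℤ) → Bool)) =>
      p.2.1) := by
    refine measurable_pi_iff.2 fun w A hA => ApxClass.of_indep (B := {w}) ⟨?_, ?_⟩
    · exact ((measurable_pi_apply w).comp (measurable_fst.comp measurable_snd)) hA
    · intro E V s w' t hw'
      rw [Finset.mem_singleton] at hw'
      simp only [mem_preimage]
      rw [Function.update_of_ne (fun h => hw' h.symm)]
  have h3 : Measurable[C] (fun p : ℝ × (((Fin d → ℤ) → ℝ) × (Sym2 (Fin d → ℤ) → Bool)) =>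
      p.2.2) :=
    fun A hA => ApxClass.of_indep (B := ∅)
      ⟨(measurable_snd.comp measurable_snd) hA, fun E V s w t _ => Iff.rfl⟩
  have h4 := Measurable.prodMk h1 (Measurable.prodMk h2 h3)
  obtain ⟨B, U', h1, h2⟩ := (h4 hU).2 ε hε
  exact ⟨B, U', h1.1, h1.2, h2⟩

end lattice

end H10PL
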