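import Pool.Agent.H10R2.PL.Prof3Def
import Pool.Agent.H10R2.PL.Lat2

namespace H10PL

open MeasureTheory ProbabilityTheory Matrix Set Filter

/-! ### abstract measure theory -/

theorem lint_le_sq {Ω : Type*} [MeasurableSpace Ω] (m : Measure Ω) {X : Ω → ENNReal}
    (_hX : Measurable X) {D : Set Ω} (_hD : MeasurableSet D) {τ : ℝ} (hτ : 0 < τ) :
    ∫⁻ ω in D, X ω ∂m ≤ ENNReal.ofReal τ * ∫⁻ ω, X ω ^ 2 ∂m + ENNReal.ofReal (1 / τ) * m D := by
  have hτ0 : ENNReal.ofReal τ ≠ 0 := by simpa using hτ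
  have hpt : ∀ ω, X ω ≤ ENNReal.ofReal τ * X ω ^ 2 + ENNReal.ofReal (1 / τ) := by
    intro ω
    by_cases hx : X ω ≤ ENNReal.ofReal (1 / τ)
    · exact hx.trans le_add_self
    · have hx' : ENNReal.ofReal (1 / τ) ≤ X ω := (not_le.1 hx).le
      have h1 : (1 : ENNReal) ≤ ENNReal.ofReal τ * X ω := by
        calc (1 : ENNReal) = ENNReal.ofReal (τ * (1 / τ)) := by
              rw [mul_one_div_cancel hτ.ne', ENNReal.ofReal_one]
          _ = ENNReal.ofReal τ * ENNReal.ofReal (1 / τ) := ENNReal.ofReal_mul hτ.le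
          _ ≤ ENNReal.ofReal τ * X ω := mul_le_mul' le_rfl hx'
      calc X ω = 1 * X ω := (one_mul _).symm
        _ ≤ (ENNReal.ofReal τ * X ω) * X ω := mul_le_mul' h1 le_rfl
        _ = ENNReal.ofReal τ * X ω ^ 2 := by ring
        _ ≤ _ := le_self_add
  calc ∫⁻ ω in D, X ω ∂m
      ≤ ∫⁻ ω in D, (ENNReal.ofReal τ * X ω ^ 2 + ENNReal.ofReal (1 / τ)) ∂m :=
        lintegral_mono hpt
    _ = (∫⁻ ω in D, ENNReal.ofReal τ * X ω ^ 2 ∂m) + ENNReal.ofReal (1 / τ) * m D := by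
        rw [lintegral_add_right _ measurable_const]
        simp
    _ ≤ (∫⁻ ω, ENNReal.ofReal τ * X ω ^ 2 ∂m) + ENNReal.ofReal (1 / τ) * m D := by
        gcongr
        exact Measure.restrict_le_self
    _ = _ := by
        rw [lintegral_const_mul' _ _ ENNReal.ofReal_ne_top]

theorem le_of_add_half {a : ENNReal} {c e : ℝ} (hc : 0 ≤ c) (he : 0 ≤ e)
    (h : ENNReal.ofReal (c + e) ≤ a + ENNReal.ofReal e) : ENNReal.ofReal c ≤ a := by
  rw [ENNReal.ofReal_add hc he] at h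
  exact (ENNReal.add_le_add_iff_right ENNReal.ofReal_ne_top).1 h

theorem pz_abs {Ω : Type*} [MeasurableSpace Ω] (m : Measure Ω) {X : Ω → ENNReal}
    (hX : Measurable X) {U : Set Ω} (hU : MeasurableSet U) {n C3 c4 K : ℝ} (hn : 0 < n)
    (hC3 : 0 < C3) (hc4 : 0 < c4) (hK : 0 < K) (hm : m univ ≤ ENNReal.ofReal (2 * K))
    (hsq : ∫⁻ ω, X ω ^ 2 ∂m ≤ ENNReal.ofReal (C3 * n ^ 2))
    (hlow : ENNReal.ofReal (c4 * n) ≤ ∫⁻ ω in U, X ω ∂m) :
    ENNReal.ofReal (c4 ^ 2 / (8 * C3)) ≤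
      m (U ∩ {ω | ENNReal.ofReal (c4 / (8 * K) * n) ≤ X ω}) := by
  set S : Set Ω := {ω | ENNReal.ofReal (c4 / (8 * K) * n) ≤ X ω} with hS
  have hSm : MeasurableSet S := measurableSet_le measurable_const hX
  obtain ⟨τ, hτ⟩ : ∃ τ, τ = c4 / (4 * C3 * n) := ⟨_, rfl⟩
  have hτ0 : 0 < τ := by rw [hτ]; positivity
  have h1 : ∫⁻ ω in U, X ω ∂m ≤ ENNReal.ofReal (c4 / 4 * n) +
      (ENNReal.ofReal (c4 / 4 * n) + ENNReal.ofReal (1 / τ) * m (U ∩ S)) := by
    have h2 : ∫⁻ ω in U, X ω ∂m = (∫⁻ ω in U ∩ S, X ω ∂m) + ∫⁻ ω in U \ S, X ω ∂m :=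
      (lintegral_inter_add_sdiff _ _ hSm).symm
    rw [h2, add_comm]
    refine add_le_add ?_ ?_
    · calc ∫⁻ ω in U \ S, X ω ∂m ≤ ∫⁻ _ω in U \ S, ENNReal.ofReal (c4 / (8 * K) * n) ∂m := by
            refine setLIntegral_mono measurable_const ?_
            intro ω hω
            exact (not_le.1 hω.2).le
        _ = ENNReal.ofReal (c4 / (8 * K) * n) * m (U \ S) := by simp
        _ ≤ ENNReal.ofReal (c4 / (8 * K) * n) * ENNReal.ofReal (2 * K) :=
            mul_le_mul' le_rfl ((measure_mono (subset_univ _)).trans hm)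
        _ = ENNReal.ofReal (c4 / 4 * n) := by
            rw [← ENNReal.ofReal_mul (by positivity)]
            congr 1
            field_simp
            norm_num
    · refine (lint_le_sq m hX (hU.inter hSm) hτ0).trans ?_
      refine add_le_add ?_ le_rfl
      calc ENNReal.ofReal τ * ∫⁻ ω, X ω ^ 2 ∂m
          ≤ ENNReal.ofReal τ * ENNReal.ofReal (C3 * n ^ 2) := mul_le_mul' le_rfl hsq
        _ = ENNReal.ofReal (c4 / 4 * n) := by
            rw [← ENNReal.ofReal_mul hτ0.le, hτ]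
            congr 1
            field_simp
  have h2 : ENNReal.ofReal (c4 / 2 * n) ≤ ENNReal.ofReal (1 / τ) * m (U ∩ S) := by
    have h3 := hlow.trans h1
    rw [← add_assoc, ← ENNReal.ofReal_add (by positivity) (by positivity), add_comm] at h3
    refine le_of_add_half (e := c4 / 2 * n) (by positivity) (by positivity) ?_
    have e1 : c4 / 2 * n + c4 / 2 * n = c4 * n := by ring
    have e2 : c4 / 4 * n + c4 / 4 * n = c4 / 2 * n := by ring
    rw [e1]
    rw [e2] at h3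
    exact h3
  calc ENNReal.ofReal (c4 ^ 2 / (8 * C3)) = ENNReal.ofReal τ * ENNReal.ofReal (c4 / 2 * n) := by
        rw [← ENNReal.ofReal_mul hτ0.le, hτ]
        congr 1
        field_simp
        norm_num
    _ ≤ ENNReal.ofReal τ * (ENNReal.ofReal (1 / τ) * m (U ∩ S)) := mul_le_mul' le_rfl h2
    _ = m (U ∩ S) := by
        rw [← mul_assoc, ← ENNReal.ofReal_mul hτ0.le, mul_one_div_cancel hτ0.ne',
          ENNReal.ofReal_one, one_mul]

/-- transfer of the lower bound from the approximating set -/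
theorem approx_low {Ω : Type*} [MeasurableSpace Ω] (m : Measure Ω) {X : Ω → ENNReal}
    (hX : Measurable X) {U U' : Set Ω} (hU : MeasurableSet U) (hU' : MeasurableSet U')
    {n C3 c : ℝ} (hn : 0 < n) (hC3 : 0 < C3) (hc : 0 < c)
    (hsq : ∫⁻ ω, X ω ^ 2 ∂m ≤ ENNReal.ofReal (C3 * n ^ 2))
    (hsd : m (U' \ U) ≤ ENNReal.ofReal (c ^ 2 / (16 * C3)))
    (hlow : ENNReal.ofReal (c * n) ≤ ∫⁻ ω in U', X ω ∂m) :
    ENNReal.ofReal (c / 2 * n) ≤ ∫⁻ ω in U, X ω ∂m := by
  obtain ⟨τ, hτ⟩ : ∃ τ, τ = c / (4 * C3 * n) := ⟨_, rfl⟩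
  have hτ0 : 0 < τ := by rw [hτ]; positivity
  have h1 : ∫⁻ ω in U', X ω ∂m ≤ (∫⁻ ω in U, X ω ∂m) + ENNReal.ofReal (c / 2 * n) := by
    calc ∫⁻ ω in U', X ω ∂m = (∫⁻ ω in U' ∩ U, X ω ∂m) + ∫⁻ ω in U' \ U, X ω ∂m :=
          (lintegral_inter_add_sdiff _ _ hU).symm
      _ ≤ (∫⁻ ω in U, X ω ∂m) + ENNReal.ofReal (c / 2 * n) := by
          refine add_le_add (lintegral_mono_set inter_subset_right) ?_
          refine (lint_le_sq m hX (hU'.diff hU) hτ0).trans ?_
          calc ENNReal.ofReal τ * ∫⁻ ω, X ω ^ 2 ∂m + ENNReal.ofReal (1 / τ) * m (U' \ U)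
              ≤ ENNReal.ofReal τ * ENNReal.ofReal (C3 * n ^ 2) +
                ENNReal.ofReal (1 / τ) * ENNReal.ofReal (c ^ 2 / (16 * C3)) := by
                gcongr
            _ = ENNReal.ofReal (c / 2 * n) := by
                rw [← ENNReal.ofReal_mul hτ0.le, ← ENNReal.ofReal_mul (by positivity),
                  ← ENNReal.ofReal_add (by positivity) (by positivity), hτ]
                congr 1
                field_simp
                norm_num
  refine le_of_add_half (e := c / 2 * n) (by positivity) (by positivity) ?_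
  have e1 : c / 2 * n + c / 2 * n = c * n := by ring
  rw [e1]
  exact hlow.trans h1

/-! ### selection of the scales -/

variable {d : ℕ} {κ : (Fin d → ℤ) → ℝ}

theorem one_scale {c1 : ℝ} (hc1 : 0 < c1)
    (h : ∀ t0 : ℝ, 0 < t0 → ∃ t : ℝ, 0 < t ∧ t ≤ t0 ∧
      ∃ F : Finset (Fin d → ℤ), (∀ y ∈ F, t ≤ |κ y|) ∧ c1 ≤ t * F.card)
    (x : Fin d → ℤ) (B : Finset (Fin d → ℤ)) :
    ∃ t : ℝ, 0 < t ∧ t ≤ 1 ∧ ∃ G : Finset (Fin d → ℤ), Disjoint G B ∧
      (∀ w ∈ G, t ≤ |κ (x - w)|) ∧ c1 / 2 ≤ t * G.card ∧ t * G.card ≤ c1 := by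
  classical
  obtain ⟨t0, ht0, h1, h2, h3⟩ : ∃ t0 : ℝ, 0 < t0 ∧ t0 ≤ 1 ∧ t0 ≤ c1 / 4 ∧
      t0 * B.card ≤ c1 / 4 := by
    refine ⟨min 1 (min (c1 / 4) (c1 / (4 * (B.card + 1)))), by positivity, min_le_left _ _,
      (min_le_right _ _).trans (min_le_left _ _), ?_⟩
    have h1 : min 1 (min (c1 / 4) (c1 / (4 * ((B.card : ℝ) + 1)))) ≤
        c1 / (4 * ((B.card : ℝ) + 1)) := (min_le_right _ _).trans (min_le_right _ _)
    calc min 1 (min (c1 / 4) (c1 / (4 * ((B.card : ℝ) + 1)))) * B.card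
        ≤ c1 / (4 * ((B.card : ℝ) + 1)) * (B.card + 1) := by
          have : (0 : ℝ) ≤ B.card := Nat.cast_nonneg _
          refine mul_le_mul h1 (by linarith) this (by positivity)
      _ = c1 / 4 := by field_simp
  obtain ⟨t, ht, htt, F, hF, hFc⟩ := h t0 ht0
  have hB0 : (0 : ℝ) ≤ B.card := Nat.cast_nonneg _
  obtain ⟨F', hF'⟩ : ∃ F' : Finset (Fin d → ℤ), F' = (F.image fun y => x - y) \ B := ⟨_, rfl⟩
  have hcard : (F.card : ℝ) - B.card ≤ F'.card := by
    have h5 : (F.image fun y => x - y).card = F.card :=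
      Finset.card_image_of_injective _ fun a c hac => by simpa using hac
    have h6 := Finset.card_le_card_sdiff_add_card (s := F.image fun y => x - y) (t := B)
    rw [h5, ← hF'] at h6
    have h7 : (F.card : ℝ) ≤ F'.card + B.card := by exact_mod_cast h6
    linarith
  have htB : t * B.card ≤ c1 / 4 := le_trans (mul_le_mul_of_nonneg_right htt hB0) h3
  have htF' : 3 * c1 / 4 ≤ t * F'.card := by
    have := mul_le_mul_of_nonneg_left hcard ht.le
    rw [mul_sub] at this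
    linarith
  have hk : ⌈c1 / (2 * t)⌉₊ ≤ F'.card := by
    have h5 : (⌈c1 / (2 * t)⌉₊ : ℝ) < c1 / (2 * t) + 1 := Nat.ceil_lt_add_one (by positivity)
    have h6 : c1 / (2 * t) + 1 ≤ F'.card := by
      have h7 : t * (c1 / (2 * t) + 1) ≤ t * F'.card := by
        have : t * (c1 / (2 * t) + 1) = c1 / 2 + t := by field_simp
        rw [this]
        linarith
      exact le_of_mul_le_mul_left h7 ht
    have h8 : (⌈c1 / (2 * t)⌉₊ : ℝ) ≤ F'.card := by linarith
    exact_mod_cast h8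
  obtain ⟨G, hGF, hGc⟩ := Finset.exists_subset_card_eq hk
  refine ⟨t, ht, htt.trans h1, G, ?_, ?_, ?_, ?_⟩
  · refine Finset.disjoint_of_subset_left hGF ?_
    rw [hF']
    exact Finset.sdiff_disjoint
  · intro w hw
    have h5 := hGF hw
    rw [hF'] at h5
    obtain ⟨y, hy, rfl⟩ := Finset.mem_image.1 (Finset.mem_sdiff.1 h5).1
    have h6 : x - (x - y) = y := by abel
    rw [h6]
    exact hF y hy
  · rw [hGc]
    have h5 : c1 / (2 * t) ≤ (⌈c1 / (2 * t)⌉₊ : ℝ) := Nat.le_ceil _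
    calc c1 / 2 = t * (c1 / (2 * t)) := by field_simp
      _ ≤ t * ⌈c1 / (2 * t)⌉₊ := mul_le_mul_of_nonneg_left h5 ht.le
  · rw [hGc]
    have h5 : (⌈c1 / (2 * t)⌉₊ : ℝ) < c1 / (2 * t) + 1 := Nat.ceil_lt_add_one (by positivity)
    calc t * ⌈c1 / (2 * t)⌉₊ ≤ t * (c1 / (2 * t) + 1) := mul_le_mul_of_nonneg_left h5.le ht.le
      _ = c1 / 2 + t := by field_simp
      _ ≤ c1 := by linarith

theorem scales {c1 : ℝ} (hc1 : 0 < c1)
    (h : ∀ t0 : ℝ, 0 < t0 → ∃ t : ℝ, 0 < t ∧ t ≤ t0 ∧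
      ∃ F : Finset (Fin d → ℤ), (∀ y ∈ F, t ≤ |κ y|) ∧ c1 ≤ t * F.card)
    (x : Fin d → ℤ) (B : Finset (Fin d → ℤ)) (n : ℕ) :
    ∃ (β : Fin n → ℝ) (F : Fin n → Finset (Fin d → ℤ)), (∀ k, 0 < β k ∧ β k ≤ 1) ∧
      (∀ k, Disjoint (F k) B) ∧ (∀ j k, j ≠ k → Disjoint (F j) (F k)) ∧
      (∀ k, ∀ w ∈ F k, β k ≤ |κ (x - w)|) ∧
      (∀ k, c1 / 2 ≤ β k * (F k).card ∧ β k * (F k).card ≤ c1) := by
  classical
  induction n with
  | zero => exact ⟨fun k => k.elim0, fun k => k.elim0, fun k => k.elim0, fun k => k.elim0,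
      fun k => k.elim0, fun k => k.elim0, fun k => k.elim0⟩
  | succ n ih =>
    obtain ⟨β, F, h1, h2, h3, h4, h5⟩ := ih
    obtain ⟨t, ht0, ht1, G, hG, hG2, hG3, hG4⟩ := one_scale hc1 h x
      (B ∪ Finset.univ.biUnion F)
    refine ⟨Fin.snoc β t, Fin.snoc F G, ?_, ?_, ?_, ?_, ?_⟩
    · intro k
      refine Fin.lastCases ?_ (fun i => ?_) k
      · simp [ht0, ht1]
      · simp [h1 i]
    · intro k
      refine Fin.lastCases ?_ (fun i => ?_) k
      · simp only [Fin.snoc_last]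
        exact Finset.disjoint_of_subset_right Finset.subset_union_left hG
      · simp only [Fin.snoc_castSucc]
        exact h2 i
    · have hlast : ∀ i : Fin n, Disjoint (F i) G := by
        intro i
        refine (Finset.disjoint_of_subset_right ?_ hG).symm
        refine Finset.Subset.trans ?_ Finset.subset_union_right
        exact Finset.subset_biUnion_of_mem F (Finset.mem_univ i)
      intro j
      refine Fin.lastCases ?_ (fun i => ?_) j
      · intro k
        refine Fin.lastCases (fun hc => absurd rfl hc) (fun i _ => ?_) k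
        simp only [Fin.snoc_last, Fin.snoc_castSucc]
        exact (hlast i).symm
      · intro k
        refine Fin.lastCases (fun _ => ?_) (fun i' hi => ?_) k
        · simp only [Fin.snoc_last, Fin.snoc_castSucc]
          exact hlast i
        · simp only [Fin.snoc_castSucc]
          exact h3 i i' (fun hc => hi (by rw [hc]))
    · intro k
      refine Fin.lastCases ?_ (fun i => ?_) k
      · simp only [Fin.snoc_last]
        exact hG2
      · simp only [Fin.snoc_castSucc]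
        exact h4 i
    · intro k
      refine Fin.lastCases ?_ (fun i => ?_) k
      · simp only [Fin.snoc_last]
        exact ⟨hG3, hG4⟩
      · simp only [Fin.snoc_castSucc]
        exact h5 i

end H10PL
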