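import Pool.Agent.H10R2.PL.Res

/-!
Task 3-MONO: monotonicity of `Im G_ww(E + iη) / η` in `η`.
-/

set_option linter.unusedSectionVars false

namespace H10PL

open MeasureTheory ProbabilityTheory Matrix Set

variable {ι : Type*} [Fintype ι] [DecidableEq ι]

private theorem mono_norm (a b : ℂ) (δ : ℝ) :
    ‖a - Complex.I * (δ : ℂ) * b‖ ^ 2 =
      ‖a‖ ^ 2 + δ ^ 2 * ‖b‖ ^ 2 - 2 * δ * ((starRingEnd ℂ) b * a).im := by
  rw [← Complex.normSq_eq_norm_sq, ← Complex.normSq_eq_norm_sq, ← Complex.normSq_eq_norm_sq,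
    Complex.normSq_apply, Complex.normSq_apply, Complex.normSq_apply]
  simp only [Complex.sub_re, Complex.sub_im, Complex.mul_re, Complex.mul_im, Complex.I_re,
    Complex.I_im, Complex.ofReal_re, Complex.ofReal_im, Complex.conj_re, Complex.conj_im]
  ring

theorem Pm_mono (A : Matrix ι ι ℝ) (hA : A.IsSymm) (V : ι → ℝ) (E : ℝ) {η β : ℝ} (hη : 0 < η)
    (hηβ : η ≤ β) (w : ι) : Pm A V E β w w / β ≤ Pm A V E η w w / η := by
  have hβ : 0 < β := lt_of_lt_of_le hη hηβ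
  rw [← ward A hA V E hβ w, ← ward A hA V E hη w]
  set u : ι → ℂ := fun i => Gm A V E β i w with hu
  set g : ι → ℂ := Gm A V E η *ᵥ u with hg
  have hMg : Mz A V E η *ᵥ g = u := Mz_mulVec_Gm A hA V E hη u
  have hMu : ∀ i, (Mz A V E β *ᵥ u) i = (1 : Matrix ι ι ℂ) i w := by
    intro i
    have h1 := congrFun (congrFun (Mz_mul_Gm A hA V E hβ) i) w
    rw [Matrix.mul_apply] at h1
    exact h1
  have hv : ∀ i, Gm A V E η i w = u i - Complex.I * ((β - η : ℝ) : ℂ) * g i := by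
    have h1 : Mz A V E η *ᵥ (u - (Complex.I * ((β - η : ℝ) : ℂ)) • g) =
        fun i => (1 : Matrix ι ι ℂ) i w := by
      rw [Matrix.mulVec_sub, Matrix.mulVec_smul, hMg]
      funext i
      rw [Pi.sub_apply, Pi.smul_apply, smul_eq_mul, ← hMu i, Mz_mulVec, Mz_mulVec]
      push_cast
      ring
    have h2 : Gm A V E η *ᵥ (Mz A V E η *ᵥ (u - (Complex.I * ((β - η : ℝ) : ℂ)) • g)) =
        u - (Complex.I * ((β - η : ℝ) : ℂ)) • g := by
      rw [Matrix.mulVec_mulVec, Gm_mul_Mz A hA V E hη, Matrix.one_mulVec]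
    rw [h1] at h2
    intro i
    have h3 := congrFun h2 i
    rw [Pi.sub_apply, Pi.smul_apply, smul_eq_mul] at h3
    rw [← h3]
    show Gm A V E η i w = ∑ j, Gm A V E η i j * (1 : Matrix ι ι ℂ) j w
    rw [Finset.sum_eq_single w]
    · rw [Matrix.one_apply_eq, mul_one]
    · intro j _ hj
      rw [Matrix.one_apply_ne hj, mul_zero]
    · intro h; exact absurd (Finset.mem_univ _) h
  have him : (∑ i, (starRingEnd ℂ) (g i) * u i).im = -η * ∑ i, ‖g i‖ ^ 2 := by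
    have h1 := Mz_im A hA V E η g
    rw [hMg] at h1
    exact h1
  have hsum : ∑ i, ‖Gm A V E η i w‖ ^ 2 = ∑ i, ‖u i‖ ^ 2 +
      (β - η) ^ 2 * ∑ i, ‖g i‖ ^ 2 - 2 * (β - η) * (∑ i, (starRingEnd ℂ) (g i) * u i).im := by
    rw [Complex.im_sum, Finset.mul_sum, Finset.mul_sum, ← Finset.sum_add_distrib,
      ← Finset.sum_sub_distrib]
    refine Finset.sum_congr rfl fun i _ => ?_
    rw [hv i, mono_norm]
  rw [hsum, him]
  have hgn : 0 ≤ ∑ i, ‖g i‖ ^ 2 := Finset.sum_nonneg fun i _ => sq_nonneg _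
  have h1 : 0 ≤ (β - η) ^ 2 * ∑ i, ‖g i‖ ^ 2 := mul_nonneg (sq_nonneg _) hgn
  have h2 : 0 ≤ 2 * (β - η) * (η * ∑ i, ‖g i‖ ^ 2) :=
    mul_nonneg (by linarith) (mul_nonneg hη.le hgn)
  linarith

end H10PL
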