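import Pool.Agent.H10R2.PL.Lat2
import Pool.Agent.H10R2.PL.Acl
import Pool.Agent.H10R2.PL.Mono

/-!
Task 3-FLIP (helper459): anticoncentration of the self energy under flips of one row.
-/

namespace H10PL

open MeasureTheory ProbabilityTheory Matrix Set

section finite

variable {ι : Type} [Fintype ι] [DecidableEq ι]

/-- finite volume: few sign vectors give a small self energy -/
theorem flip3_fin {M θ L : ℝ}
    (hL : ∀ (P : Matrix ι ι ℝ) (_ : P.IsSymm)
      (_ : ∀ φ : ι → ℝ, 0 ≤ ∑ i, ∑ j, φ i * P i j * φ j) (φ c : ι → ℝ),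
      L ≤ ∑ i, min (c i ^ 2 * P i i) 1 →
      ((Finset.univ.filter fun ε : ι → Bool =>
        ∑ i, ∑ j, (φ i + sg (ε i) * c i) * P i j * (φ j + sg (ε j) * c j) < M).card : ℝ) ≤
        θ * 2 ^ (Fintype.card ι))
    (Ab : Matrix ι ι ℝ) (hA : Ab.IsSymm) (x : ι) (c : ι → ℝ) (hcx : c x = 0)
    (V : ι → ℝ) (E : ℝ) {η : ℝ} (hη : 0 < η) {n : ℕ} (β : Fin n → ℝ) (hβ : ∀ k, η ≤ β k)
    (F : Fin n → Finset ι) (hF : ∀ j k, j ≠ k → Disjoint (F j) (F k))
    (hc : ∀ k, ∀ w ∈ F k, β k ≤ |c w|)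
    (hmass : L ≤ ∑ k, β k * ∑ i ∈ F k, Pm (cut Ab x) V E (β k) i i) :
    ((Finset.univ.filter fun ε : ι → Bool =>
      (Sg (Aeps Ab x c ε) V E η x).im < M * η).card : ℝ) ≤ θ * 2 ^ (Fintype.card ι) := by
  classical
  have hcut := cut_symm Ab hA x
  set P : Matrix ι ι ℝ := fun i j => Pm (cut Ab x) V E η i j / η with hP
  have hPs : P.IsSymm := by
    apply Matrix.IsSymm.ext
    intro i j
    show Pm (cut Ab x) V E η j i / η = Pm (cut Ab x) V E η i j / η
    unfold Pm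
    rw [Gm_symm (cut Ab x) hcut V E η j i]
  have hP0 : ∀ φ : ι → ℝ, 0 ≤ ∑ i, ∑ j, φ i * P i j * φ j := by
    intro φ
    have h1 := Pm_quad_nonneg (cut Ab x) hcut V E hη φ
    have h2 : ∑ i, ∑ j, φ i * P i j * φ j = (∑ i, ∑ j, φ i * Pm (cut Ab x) V E η i j * φ j) / η := by
      rw [Finset.sum_div]
      refine Finset.sum_congr rfl fun i _ => ?_
      rw [Finset.sum_div]
      refine Finset.sum_congr rfl fun j _ => ?_
      simp only [hP]
      ring
    rw [h2]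
    exact div_nonneg h1 hη.le
  have hm : L ≤ ∑ i, min (c i ^ 2 * P i i) 1 := by
    refine le_trans hmass ?_
    have hmin0 : ∀ i, 0 ≤ min (c i ^ 2 * P i i) 1 := by
      intro i
      refine le_min ?_ zero_le_one
      have := (Pm_diag_pos (cut Ab x) hcut V E hη i).le
      simp only [hP]
      positivity
    have h1 : ∀ k, β k * ∑ i ∈ F k, Pm (cut Ab x) V E (β k) i i ≤
        ∑ i ∈ F k, min (c i ^ 2 * P i i) 1 := by
      intro k
      have hβk : 0 < β k := lt_of_lt_of_le hη (hβ k)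
      rw [Finset.mul_sum]
      refine Finset.sum_le_sum fun w hw => ?_
      have hpos := (Pm_diag_pos (cut Ab x) hcut V E hβk w).le
      have hposη := (Pm_diag_pos (cut Ab x) hcut V E hη w).le
      refine le_min ?_ ?_
      · have h2 := Pm_mono (cut Ab x) hcut V E hη (hβ k) w
        have h3 : β k ^ 2 ≤ c w ^ 2 := by
          rw [← sq_abs (c w)]
          exact pow_le_pow_left₀ hβk.le (hc k w hw) 2
        calc β k * Pm (cut Ab x) V E (β k) w w = β k ^ 2 * (Pm (cut Ab x) V E (β k) w w / β k) := by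
              field_simp
          _ ≤ β k ^ 2 * (Pm (cut Ab x) V E η w w / η) := by gcongr
          _ ≤ c w ^ 2 * (Pm (cut Ab x) V E η w w / η) := by gcongr
      · have h2 := Pm_diag_le (cut Ab x) hcut V E hβk w
        calc β k * Pm (cut Ab x) V E (β k) w w ≤ β k * (1 / β k) := by gcongr
          _ = 1 := by field_simp
    calc ∑ k, β k * ∑ i ∈ F k, Pm (cut Ab x) V E (β k) i i
        ≤ ∑ k, ∑ i ∈ F k, min (c i ^ 2 * P i i) 1 := Finset.sum_le_sum fun k _ => h1 k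
      _ = ∑ i ∈ Finset.univ.biUnion F, min (c i ^ 2 * P i i) 1 := by
          rw [Finset.sum_biUnion]
          intro j _ k _ hjk
          exact hF j k hjk
      _ ≤ ∑ i, min (c i ^ 2 * P i i) 1 :=
          Finset.sum_le_sum_of_subset_of_nonneg (Finset.subset_univ _) fun i _ _ => hmin0 i
  have hfin := hL P hPs hP0 (fun j => Ab x j) c hm
  refine le_trans (le_of_eq ?_) hfin
  congr 2
  ext ε
  simp only [Finset.mem_filter, Finset.mem_univ, true_and]
  rw [Sg_im, fv_cut_Aeps]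
  have h2 : ∑ i, ∑ j, Aeps Ab x c ε x i * Pm (cut Ab x) V E η i j * Aeps Ab x c ε x j =
      (∑ i, ∑ j, (Ab x i + sg (ε i) * c i) * P i j * (Ab x j + sg (ε j) * c j)) * η := by
    rw [Finset.sum_mul]
    refine Finset.sum_congr rfl fun i _ => ?_
    rw [Finset.sum_mul]
    refine Finset.sum_congr rfl fun j _ => ?_
    rw [fv_Aeps_row Ab x c hcx ε i, fv_Aeps_row Ab x c hcx ε j]
    simp only [hP]
    field_simp
  rw [h2]
  exact mul_lt_mul_iff_left₀ hη

end finite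

section lattice

variable {d : ℕ} {T0 : (Fin d → ℤ) → (Fin d → ℤ) → ℝ} {κ : (Fin d → ℤ) → ℝ} {ρ0 b : ℝ}

open Classical in
theorem acl_lattice (h : Adm T0 κ ρ0 b) (v : NNReal) {M θ : ℝ} (hM : 0 < M)
    (hθ : 0 < θ) : ∃ L : ℝ, ∀ (ρ η K : ℝ), 0 < η → 0 < K → ∀ (Λ : Finset (Fin d → ℤ))
      (x : Fin d → ℤ) (hx : x ∈ Λ) (n : ℕ) (β : Fin n → ℝ) (F : Fin n → Finset (Fin d → ℤ)),
      (∀ k, F k ⊆ Λ) → (∀ k, x ∉ F k) → (∀ j k, j ≠ k → Disjoint (F j) (F k)) →
      (∀ k, ∀ w ∈ F k, β k ≤ |κ (x - w)|) → (∀ k, ∀ w ∈ F k, ‖x - w‖ ≤ ρ) →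
      (∀ k, η ≤ β k) →
      ((volume.restrict (Icc (-K) K)).prod ((PV d v).prod (Ps d)))
        {p | L ≤ ∑ k, β k * ∑ i ∈ Finset.univ.filter (fun i : Λ => (i : Fin d → ℤ) ∈ F k),
            Pm (cut (Am T0 κ ρ Λ p.2.2) ⟨x, hx⟩) (fun i : Λ => p.2.1 i) p.1 (β k) i i ∧
          (Sg (Am T0 κ ρ Λ p.2.2) (fun i : Λ => p.2.1 i) p.1 η ⟨x, hx⟩).im < M * η} ≤
        ENNReal.ofReal (2 * K * θ) := by
  obtain ⟨L, hL⟩ := anti_conc hM hθ
  refine ⟨L, ?_⟩
  intro ρ η K hη hK Λ x hx n β F hFΛ hxF hdisj hκ hρ hβ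
  set X : Λ := ⟨x, hx⟩ with hX
  set S : Finset (Fin d → ℤ) := (Finset.univ.biUnion F).image fun w => x - w with hS
  have hSmem : ∀ z, z ∈ S ↔ ∃ k, x - z ∈ F k := by
    intro z
    rw [hS, Finset.mem_image]
    constructor
    · rintro ⟨w, hw, rfl⟩
      obtain ⟨k, _, hk⟩ := Finset.mem_biUnion.1 hw
      exact ⟨k, by simpa using hk⟩
    · rintro ⟨k, hk⟩
      exact ⟨x - z, Finset.mem_biUnion.2 ⟨k, Finset.mem_univ _, hk⟩, by simp⟩
  have h0 : (0 : Fin d → ℤ) ∉ S := by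
    rw [hSmem]
    rintro ⟨k, hk⟩
    exact hxF k (by simpa using hk)
  have hSρ : ∀ z ∈ S, ‖z‖ ≤ ρ := by
    intro z hz
    obtain ⟨k, hk⟩ := (hSmem z).1 hz
    have := hρ k _ hk
    simpa using this
  -- the set
  set D : Set ((ℝ × (Λ → ℝ)) × (Sym2 (Fin d → ℤ) → Bool)) :=
    {p | L ≤ ∑ k, β k * ∑ i ∈ Finset.univ.filter (fun i : Λ => (i : Fin d → ℤ) ∈ F k),
            Pm (cut (Am T0 κ ρ Λ p.2) X) p.1.2 p.1.1 (β k) i i ∧
          (Sg (Am T0 κ ρ Λ p.2) p.1.2 p.1.1 η X).im < M * η} with hD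
  have hDm : MeasurableSet D := by
    refine MeasurableSet.inter ?_ ?_
    · exact measurableSet_le measurable_const (Finset.measurable_sum _ fun k _ =>
        measurable_const.mul (Finset.measurable_sum _ fun i _ => cutPm_meas h ρ (β k) Λ X i i))
    · exact measurableSet_lt (SgIm_meas h ρ η Λ X) measurable_const
  have hset : {p : ℝ × (((Fin d → ℤ) → ℝ) × (Sym2 (Fin d → ℤ) → Bool)) |
      L ≤ ∑ k, β k * ∑ i ∈ Finset.univ.filter (fun i : Λ => (i : Fin d → ℤ) ∈ F k),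
            Pm (cut (Am T0 κ ρ Λ p.2.2) X) (fun i : Λ => p.2.1 i) p.1 (β k) i i ∧
          (Sg (Am T0 κ ρ Λ p.2.2) (fun i : Λ => p.2.1 i) p.1 η X).im < M * η} =
      (fun p : ℝ × (((Fin d → ℤ) → ℝ) × (Sym2 (Fin d → ℤ) → Bool)) =>
        (((p.1, fun i : Λ => p.2.1 i), p.2.2) : (ℝ × (Λ → ℝ)) × (Sym2 (Fin d → ℤ) → Bool))) ⁻¹' D := rfl
  rw [hset]
  have hmap : Measurable (fun p : ℝ × (((Fin d → ℤ) → ℝ) × (Sym2 (Fin d → ℤ) → Bool)) =>
        (((p.1, fun i : Λ => p.2.1 i), p.2.2) : (ℝ × (Λ → ℝ)) × (Sym2 (Fin d → ℤ) → Bool))) := by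
    refine Measurable.prodMk (Measurable.prodMk measurable_fst ?_) (measurable_snd.comp measurable_snd)
    exact measurable_pi_lambda _ fun i => (measurable_pi_apply _).comp (measurable_fst.comp measurable_snd)
  rw [← lintegral_indicator_one (hmap hDm)]
  have hind : Measurable (D.indicator (1 : (ℝ × (Λ → ℝ)) × (Sym2 (Fin d → ℤ) → Bool) → ENNReal)) :=
    measurable_one.indicator hDm
  have hlat := lat_int (gaussianReal 0 v) Λ K
    (D.indicator (1 : (ℝ × (Λ → ℝ)) × (Sym2 (Fin d → ℤ) → Bool) → ENNReal)) hind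
  have hPV : PVg d (gaussianReal 0 v) = PV d v := rfl
  rw [hPV] at hlat
  refine le_trans (le_of_eq hlat) ?_
  set m : Measure (ℝ × (Λ → ℝ)) := (volume.restrict (Icc (-K) K)).prod
    (Measure.pi fun _ : Λ => gaussianReal 0 v) with hm
  have hmuniv : m univ = ENNReal.ofReal (2 * K) := by
    rw [hm, ← Set.univ_prod_univ, Measure.prod_prod]
    simp only [measure_univ, mul_one, Measure.restrict_apply_univ, Real.volume_Icc]
    congr 1
    ring
  refine flip_avg Λ S x _ (hind.lintegral_prod_left') _ ?_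
  intro s
  rw [← lintegral_finsetSum]
  swap
  · intro ε _
    exact hind.comp measurable_prodMk_right
  have hpt : ∀ q : ℝ × (Λ → ℝ), ∑ ε : Λ → Bool, D.indicator
      (1 : (ℝ × (Λ → ℝ)) × (Sym2 (Fin d → ℤ) → Bool) → ENNReal) (q, flipS (TF Λ S x ε) s) ≤
      2 ^ (Fintype.card Λ) * ENNReal.ofReal θ := by
    intro q
    have hcx : cF κ Λ S x s X = 0 := cF_x Λ S x hx s h0
    have hAs := AbF_symm h ρ Λ S x hx s
    have hmemD : ∀ ε : Λ → Bool, (q, flipS (TF Λ S x ε) s) ∈ D ↔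
        (L ≤ ∑ k, β k * ∑ i ∈ Finset.univ.filter (fun i : Λ => (i : Fin d → ℤ) ∈ F k),
            Pm (cut (AbF T0 κ ρ Λ S x hx s) X) q.2 q.1 (β k) i i ∧
          (Sg (Aeps (AbF T0 κ ρ Λ S x hx s) X (cF κ Λ S x s) ε) q.2 q.1 η X).im < M * η) := by
      intro ε
      rw [hD, Set.mem_ofPred_eq]
      rw [Am_flip h Λ S x hx s h0 hSρ ε, fv_cut_Aeps]
    by_cases hmass : L ≤ ∑ k, β k * ∑ i ∈ Finset.univ.filter (fun i : Λ => (i : Fin d → ℤ) ∈ F k),
            Pm (cut (AbF T0 κ ρ Λ S x hx s) X) q.2 q.1 (β k) i i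
    · have hfin := flip3_fin (ι := Λ) (M := M) (θ := θ) (L := L) (fun P h1 h2 φ c h3 => hL P h1 h2 φ c h3)
        (AbF T0 κ ρ Λ S x hx s) hAs X (cF κ Λ S x s) hcx q.2 q.1 hη β hβ
        (fun k => Finset.univ.filter (fun i : Λ => (i : Fin d → ℤ) ∈ F k)) (by
          intro j k hjk
          rw [Finset.disjoint_left]
          intro i hi hi'
          exact Finset.disjoint_left.1 (hdisj j k hjk) (Finset.mem_filter.1 hi).2 (Finset.mem_filter.1 hi').2)
        (by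
          intro k w hw
          have hw' := (Finset.mem_filter.1 hw).2
          have : x - (w : Fin d → ℤ) ∈ S := (hSmem _).2 ⟨k, by simpa using hw'⟩
          unfold cF
          rw [if_pos this, abs_mul, asm_abs_sg, one_mul]
          exact hκ k _ hw') hmass
      calc ∑ ε : Λ → Bool, D.indicator
            (1 : (ℝ × (Λ → ℝ)) × (Sym2 (Fin d → ℤ) → Bool) → ENNReal) (q, flipS (TF Λ S x ε) s)
          = ∑ ε : Λ → Bool, if (Sg (Aeps (AbF T0 κ ρ Λ S x hx s) X (cF κ Λ S x s) ε) q.2 q.1 η X).im <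
              M * η then 1 else 0 := by
            refine Finset.sum_congr rfl fun ε _ => ?_
            by_cases hc : (q, flipS (TF Λ S x ε) s) ∈ D
            · rw [indicator_of_mem hc, if_pos ((hmemD ε).1 hc).2]
              rfl
            · rw [indicator_of_notMem hc, if_neg]
              intro hc'
              exact hc ((hmemD ε).2 ⟨hmass, hc'⟩)
        _ = ((Finset.univ.filter fun ε : Λ → Bool =>
              (Sg (Aeps (AbF T0 κ ρ Λ S x hx s) X (cF κ Λ S x s) ε) q.2 q.1 η X).im < M * η).card : ENNReal) := by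
            rw [Finset.sum_boole]
        _ ≤ ENNReal.ofReal (θ * 2 ^ (Fintype.card Λ)) := by
            rw [← ENNReal.ofReal_natCast]
            exact ENNReal.ofReal_le_ofReal hfin
        _ = 2 ^ (Fintype.card Λ) * ENNReal.ofReal θ := by
            rw [ENNReal.ofReal_mul hθ.le, mul_comm, ENNReal.ofReal_pow (by norm_num)]
            norm_num
    · have : ∑ ε : Λ → Bool, D.indicator
          (1 : (ℝ × (Λ → ℝ)) × (Sym2 (Fin d → ℤ) → Bool) → ENNReal) (q, flipS (TF Λ S x ε) s) = 0 := by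
        refine Finset.sum_eq_zero fun ε _ => ?_
        exact indicator_of_notMem (fun hc => hmass ((hmemD ε).1 hc).1) _
      rw [this]
      exact zero_le
  calc ∫⁻ q, ∑ ε : Λ → Bool, D.indicator
        (1 : (ℝ × (Λ → ℝ)) × (Sym2 (Fin d → ℤ) → Bool) → ENNReal) (q, flipS (TF Λ S x ε) s) ∂m
      ≤ ∫⁻ _q, 2 ^ (Fintype.card Λ) * ENNReal.ofReal θ ∂m := lintegral_mono hpt
    _ = 2 ^ (Fintype.card Λ) * ENNReal.ofReal θ * ENNReal.ofReal (2 * K) := by
        rw [lintegral_const, hmuniv]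
    _ = 2 ^ (Fintype.card Λ) * ENNReal.ofReal (2 * K * θ) := by
        rw [mul_comm (2 * K) θ, ENNReal.ofReal_mul hθ.le, mul_assoc]

end lattice

end H10PL
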