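import Pool.Agent.H10R2.PL.AsmE
import Pool.Agent.H10R2.PL.Tail

/-!
Where `InfN` fails, the self energy is small at every scale (task 3-LOW of helper10's project).
-/

namespace H10PL

open MeasureTheory ProbabilityTheory Matrix Set Filter

variable {d : ℕ} {T0 : (Fin d → ℤ) → (Fin d → ℤ) → ℝ} {κ : (Fin d → ℤ) → ℝ} {ρ0 b : ℝ}

theorem low_entry_meas (ρ : ℝ) (Λ : Finset (Fin d → ℤ)) (i j : Λ) :
    Measurable fun p : ℝ × (((Fin d → ℤ) → ℝ) × (Sym2 (Fin d → ℤ) → Bool)) =>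
      Am T0 κ ρ Λ p.2.2 i j := by
  have hsg : Measurable sg := measurable_of_finite _
  unfold Am Kr Kf
  split_ifs
  · refine measurable_const.add (Measurable.mul_const ?_ _)
    exact hsg.comp ((measurable_pi_apply _).comp (measurable_snd.comp measurable_snd))
  · exact measurable_const

theorem low_Sg_meas (ρ η : ℝ) (Λ : Finset (Fin d → ℤ)) (x : Λ) :
    Measurable fun p : ℝ × (((Fin d → ℤ) → ℝ) × (Sym2 (Fin d → ℤ) → Bool)) =>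
      Sg (Am T0 κ ρ Λ p.2.2) (fun i : Λ => p.2.1 i) p.1 η x := by
  unfold Sg
  refine Finset.measurable_sum _ fun i _ => Finset.measurable_sum _ fun j _ => ?_
  refine Measurable.mul (Measurable.mul ?_ ?_) ?_
  · exact Complex.measurable_ofReal.comp (low_entry_meas ρ Λ x i)
  · refine measurable_Gm
      (fun p : ℝ × (((Fin d → ℤ) → ℝ) × (Sym2 (Fin d → ℤ) → Bool)) =>
        cut (Am T0 κ ρ Λ p.2.2) x) ?_ (fun p i => p.2.1 i) ?_ (fun p => p.1) ?_ η i j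
    · intro i j
      unfold cut
      split_ifs
      · exact measurable_const
      · exact low_entry_meas ρ Λ i j
    · intro i
      exact (measurable_pi_apply _).comp (measurable_fst.comp measurable_snd)
    · exact measurable_fst
  · exact Complex.measurable_ofReal.comp (low_entry_meas ρ Λ x j)

/-- tightness of the self energy on the lattice -/
theorem tight_lattice (h : Adm T0 κ ρ0 b) (v : NNReal) {ρ : ℝ}
    (Λ : Finset (Fin d → ℤ)) (x : Fin d → ℤ) (hx : x ∈ Λ) {K W η : ℝ} (hK : 0 < K)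
    (hW : 2 * (K + 1) ≤ W) (hη : 0 < η) (hη1 : η ≤ 1) :
    ((volume.restrict (Icc (-K) K)).prod ((PV d v).prod (Ps d)))
      {p | 8 * W ≤ ‖(p.1 : ℂ) + (η : ℂ) * Complex.I +
        Sg (Am T0 κ ρ Λ p.2.2) (fun i : Λ => p.2.1 i) p.1 η ⟨x, hx⟩‖} ≤
      ENNReal.ofReal (Ck K (aC b κ) / W) := by
  have hm : MeasurableSet {p : ℝ × (((Fin d → ℤ) → ℝ) × (Sym2 (Fin d → ℤ) → Bool)) |
      8 * W ≤ ‖(p.1 : ℂ) + (η : ℂ) * Complex.I +
        Sg (Am T0 κ ρ Λ p.2.2) (fun i : Λ => p.2.1 i) p.1 η ⟨x, hx⟩‖} := by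
    refine measurableSet_le measurable_const ?_
    apply Measurable.norm
    apply Measurable.add _ (low_Sg_meas ρ η Λ ⟨x, hx⟩)
    exact (Complex.measurable_ofReal.comp measurable_fst).add measurable_const
  rw [Measure.prod_apply_symm hm]
  have hpt : ∀ q : ((Fin d → ℤ) → ℝ) × (Sym2 (Fin d → ℤ) → Bool),
      (volume.restrict (Icc (-K) K)) ((fun E => (E, q)) ⁻¹'
        {p : ℝ × (((Fin d → ℤ) → ℝ) × (Sym2 (Fin d → ℤ) → Bool)) |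
      8 * W ≤ ‖(p.1 : ℂ) + (η : ℂ) * Complex.I +
        Sg (Am T0 κ ρ Λ p.2.2) (fun i : Λ => p.2.1 i) p.1 η ⟨x, hx⟩‖}) ≤
      ENNReal.ofReal (Ck K (aC b κ) / W) := by
    intro q
    rw [Measure.restrict_apply (measurable_prodMk_right hm)]
    refine le_trans (measure_mono ?_) (tight (Am T0 κ ρ Λ q.2) (Am_symm h ρ Λ q.2)
      (Am_diag h ρ Λ q.2) (fun i : Λ => q.1 i) ⟨x, hx⟩ (Am_row h ρ Λ q.2 ⟨x, hx⟩) hK hW hη hη1)
    rintro E ⟨hE1, hE2⟩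
    exact ⟨hE2, hE1⟩
  calc _ ≤ ∫⁻ _q, ENNReal.ofReal (Ck K (aC b κ) / W) ∂((PV d v).prod (Ps d)) :=
        lintegral_mono hpt
    _ = ENNReal.ofReal (Ck K (aC b κ) / W) := by simp

theorem low_W {C ε W : ℝ} (hε : 0 < ε) (hW : 0 < W) (h : 2 * C / ε ≤ W) :
    C / W ≤ ε / 2 := by
  rw [div_le_iff₀ hW]
  have : 2 * C / ε * (ε / 2) = C := by field_simp
  calc C = 2 * C / ε * (ε / 2) := this.symm
    _ ≤ W * (ε / 2) := mul_le_mul_of_nonneg_right h (by positivity)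
    _ = ε / 2 * W := by ring

/-- where `InfN` fails, the self energy is small at every scale `η` -/
theorem notInf_small (h : Adm T0 κ ρ0 b) (v : NNReal) (hv : v ≠ 0) (x : Fin d → ℤ) (M : ℝ)
    {K : ℝ} (hK : 0 < K) {ε : ℝ} (hε : 0 < ε) :
    ∃ M2 : ℝ, 0 < M2 ∧ ∀ η : ℝ, 0 < η → η ≤ 1 → ∀ (ρm : ℝ) (F : Finset (Fin d → ℤ)),
      ∃ (ρ : ℝ) (Λ : Finset (Fin d → ℤ)) (hx : x ∈ Λ), ρm ≤ ρ ∧ F ⊆ Λ ∧
        ((volume.restrict (Icc (-K) K)).prod ((PV d v).prod (Ps d)))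
          {p | ¬ InfN T0 κ p.2.2 p.2.1 p.1 x M ∧
            M2 * η ≤ (Sg (Am T0 κ ρ Λ p.2.2) (fun i : Λ => p.2.1 i) p.1 η ⟨x, hx⟩).im} ≤
          ENNReal.ofReal ε := by
  classical
  obtain ⟨M', hM'⟩ : ∃ M', M' = max M 1 := ⟨_, rfl⟩
  have hM'0 : 0 < M' := by rw [hM']; exact lt_of_lt_of_le zero_lt_one (le_max_right _ _)
  have hMM : M ≤ M' := by rw [hM']; exact le_max_left _ _
  have ha0 : 0 ≤ aC b κ := aC_nonneg
  have hCk := Ck_pos hK ha0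
  obtain ⟨W, hW⟩ : ∃ W, W = 2 * (K + 1) + 2 * Ck K (aC b κ) / ε := ⟨_, rfl⟩
  have hW0 : 0 ≤ 2 * Ck K (aC b κ) / ε := by positivity
  have hWpos : 0 < W := by linarith
  have hW1 : 2 * (K + 1) ≤ W := by linarith
  have hCW : Ck K (aC b κ) / W ≤ ε / 2 := low_W hε hWpos (by linarith)
  obtain ⟨W2, hW20, hW2⟩ := V_tail (d := d) v x (δ := ε / (8 * K)) (by positivity)
  have hw8 : 0 < W2 + 8 * W := by linarith
  refine ⟨4 * M' * (W2 + 8 * W) ^ 2, by positivity, fun η hη0 hη1 ρm F => ?_⟩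
  have hδ : 0 < ε * η ^ 4 * M' / (32 * K) := by positivity
  obtain ⟨ρ1, hρ1⟩ := tail_small h hδ
  obtain ⟨ρ, hρρ0, hρ0, hρρ1, hρm⟩ : ∃ ρ : ℝ, ρ0 ≤ ρ ∧ 0 ≤ ρ ∧ ρ1 ≤ ρ ∧ ρm ≤ ρ :=
    ⟨max (max ρ0 0) (max ρ1 ρm),
      le_trans (le_max_left _ _) (le_max_left _ _),
      le_trans (le_max_right _ _) (le_max_left _ _),
      le_trans (le_max_left _ _) (le_max_right _ _),
      le_trans (le_max_right _ _) (le_max_right _ _)⟩
  have htail := hρ1 ρ hρρ1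
  obtain ⟨Tρ, hTρ0, hTρ⟩ := row_abs h ρ
  have hsM : 0 < Real.sqrt M' := Real.sqrt_pos.2 hM'0
  obtain ⟨r, hr⟩ : ∃ r, r = 1 + 2 * ρ * Tρ / (η ^ 2 * Real.sqrt M') := ⟨_, rfl⟩
  have hr1 : 0 ≤ 2 * ρ * Tρ / (η ^ 2 * Real.sqrt M') := by positivity
  have hr0 : 0 < r := by linarith
  have hr2 : 2 * ρ * Tρ ≤ r * (η ^ 2 * Real.sqrt M') := by
    have h2 : 2 * ρ * Tρ / (η ^ 2 * Real.sqrt M') ≤ r := by linarith
    rw [div_le_iff₀ (by positivity)] at h2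
    exact h2
  obtain ⟨Λ, hΛmem, hFΛ⟩ : ∃ Λ : Finset (Fin d → ℤ), (∀ y, ‖y - x‖ ≤ r + ρ → y ∈ Λ) ∧
      F ⊆ Λ := by
    refine ⟨(ball_finite x (r + ρ)).toFinset ∪ F, fun y hy => ?_, Finset.subset_union_right⟩
    rw [Finset.mem_union, Set.Finite.mem_toFinset]
    exact Or.inl hy
  have hxΛ : x ∈ Λ := hΛmem x (by rw [sub_self, norm_zero]; linarith)
  have c2 : (ρ / r) * Tρ * (1 / η) ≤ η * Real.sqrt M' / 2 := ar_c2 hr0 hη0 hr2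
  refine ⟨ρ, Λ, hxΛ, hρm, hFΛ, ?_⟩
  have htight := tight_lattice h v (ρ := ρ) Λ x hxΛ hK hW1 hη0 hη1
  have hc : 0 < (η * Real.sqrt M' / 2) ^ 2 := by positivity
  have hlong := long_lattice h v hρρ0 hη0 hr0 Λ x hxΛ hK hc
  have hfst := first_set v x hK hW2
  set A1 : Set (ℝ × (((Fin d → ℤ) → ℝ) × (Sym2 (Fin d → ℤ) → Bool))) :=
    {p | W2 < |p.2.1 x|} with hA1
  set A2 : Set (ℝ × (((Fin d → ℤ) → ℝ) × (Sym2 (Fin d → ℤ) → Bool))) :=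
    {p | 8 * W ≤ ‖(p.1 : ℂ) + (η : ℂ) * Complex.I +
        Sg (Am T0 κ ρ Λ p.2.2) (fun i : Λ => p.2.1 i) p.1 η ⟨x, hxΛ⟩‖} with hA2
  set A3 : Set (ℝ × (((Fin d → ℤ) → ℝ) × (Sym2 (Fin d → ℤ) → Bool))) :=
    {p | ¬ (∑' y, (∑ w ∈ Λ, (Kf T0 κ p.2.2 y w - Kr T0 κ ρ p.2.2 y w) *
        ff T0 κ ρ η r Λ x hxΛ p.2.2 p.2.1 p.1 w) ^ 2) ≤ (η * Real.sqrt M' / 2) ^ 2} with hA3
  have hsub : {p : ℝ × (((Fin d → ℤ) → ℝ) × (Sym2 (Fin d → ℤ) → Bool)) |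
      ¬ InfN T0 κ p.2.2 p.2.1 p.1 x M ∧ 4 * M' * (W2 + 8 * W) ^ 2 * η ≤
        (Sg (Am T0 κ ρ Λ p.2.2) (fun i : Λ => p.2.1 i) p.1 η ⟨x, hxΛ⟩).im} ⊆ A1 ∪ (A2 ∪ A3) := by
    rintro p ⟨hp, hpS⟩
    by_contra hcon
    simp only [mem_union, not_or] at hcon
    obtain ⟨n1, n2, n3⟩ := hcon
    have m1 : |p.2.1 x| ≤ W2 := not_lt.1 n1
    have m2 : ‖(p.1 : ℂ) + (η : ℂ) * Complex.I +
        Sg (Am T0 κ ρ Λ p.2.2) (fun i : Λ => p.2.1 i) p.1 η ⟨x, hxΛ⟩‖ < 8 * W := not_le.1 n2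
    have m3 : (∑' y, (∑ w ∈ Λ, (Kf T0 κ p.2.2 y w - Kr T0 κ ρ p.2.2 y w) *
        ff T0 κ ρ η r Λ x hxΛ p.2.2 p.2.1 p.1 w) ^ 2) ≤ (η * Real.sqrt M' / 2) ^ 2 :=
      not_not.1 n3
    have hX : 0 < 2 * (4 * M' * (W2 + 8 * W) ^ 2 * η) := by positivity
    have h4 := fv_point (Am T0 κ ρ Λ p.2.2) (Am_symm h ρ Λ p.2.2) (Am_diag h ρ Λ p.2.2)
      ⟨x, hxΛ⟩ (fun i : Λ => p.2.1 i) p.1 (W := W) (W2 := W2)
      (X := 2 * (4 * M' * (W2 + 8 * W) ^ 2 * η)) hη0 hWpos hX m1 m2 (by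
        rw [mul_div_cancel_left₀ _ (two_ne_zero)]
        exact hpS)
    have h5 : 2 * (4 * M' * (W2 + 8 * W) ^ 2 * η) / (2 * (W2 + 8 * W) ^ 2) = 4 * M' * η := by
      field_simp
    rw [h5] at h4
    exact hp (infN_of h p.2.2 p.2.1 p.1 x hρρ0 hρ0 hr0 hη0 Λ hΛmem hxΛ hTρ0
      (hTρ Λ p.2.2) hMM hM'0 h4 c2 m3)
  refine (measure_mono hsub).trans ?_
  refine (measure_union_le _ _).trans ?_
  have e1 : 2 * K * (ε / (8 * K)) = ε / 4 := by field_simp; norm_num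
  have e3 : 2 * K * ((∑' y : Fin d → ℤ, if ρ < ‖y‖ then κ y ^ 2 else 0) *
        (1 / η ^ 2) / (η * Real.sqrt M' / 2) ^ 2) ≤ ε / 4 := ar_lng hK hM'0 hη0 htail
  calc _ ≤ ENNReal.ofReal (ε / 4) + (ENNReal.ofReal (ε / 2) + ENNReal.ofReal (ε / 4)) := by
        refine add_le_add (hfst.trans (by rw [e1])) ((measure_union_le _ _).trans ?_)
        exact add_le_add (htight.trans (ENNReal.ofReal_le_ofReal hCW))
          (hlong.trans (ENNReal.ofReal_le_ofReal e3))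
    _ = ENNReal.ofReal ε := by
        rw [← ENNReal.ofReal_add (by positivity) (by positivity),
          ← ENNReal.ofReal_add (by positivity) (by positivity)]
        congr 1
        ring

end H10PL
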