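import Pool.Agent.H10R2.PL.Lat2
import Pool.Agent.H10R2.PL.Prob
import Pool.Agent.H10R2.PL.Tail
import Pool.Agent.H10R2.PL.AsmB

/-!
Task 3-MEAN: lower bound of the mean of a diagonal entry on a set which does not depend on the
potential at that site (helper903).
-/

namespace H10PL

open MeasureTheory ProbabilityTheory Matrix Set

variable {d : ℕ} {T0 : (Fin d → ℤ) → (Fin d → ℤ) → ℝ} {κ : (Fin d → ℤ) → ℝ} {ρ0 b : ℝ}

namespace Mean3

theorem upd_meas (w : Fin d → ℤ) :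
    Measurable (fun p : ((Fin d → ℤ) → ℝ) × ℝ => Function.update p.1 w p.2) := by
  refine measurable_pi_iff.mpr fun y => ?_
  by_cases h : y = w
  · subst h
    simpa using measurable_snd
  · simp only [Function.update_of_ne h]
    exact (measurable_pi_apply y).comp measurable_fst

/-- resampling the potential at one site -/
theorem resamp (v : NNReal) (w : Fin d → ℤ) (K : ℝ)
    (F : ℝ × (((Fin d → ℤ) → ℝ) × (Sym2 (Fin d → ℤ) → Bool)) → ENNReal) (hF : Measurable F) :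
    ∫⁻ p, F p ∂((volume.restrict (Icc (-K) K)).prod ((PV d v).prod (Ps d))) =
      ∫⁻ p, (∫⁻ t, F (p.1, (Function.update p.2.1 w t, p.2.2)) ∂(gaussianReal 0 v))
        ∂((volume.restrict (Icc (-K) K)).prod ((PV d v).prod (Ps d))) := by
  have hm : Measurable fun q : (ℝ × (((Fin d → ℤ) → ℝ) × (Sym2 (Fin d → ℤ) → Bool))) × ℝ =>
      F (q.1.1, (Function.update q.1.2.1 w q.2, q.1.2.2)) := by
    refine hF.comp ?_
    refine (measurable_fst.comp measurable_fst).prodMk (Measurable.prodMk ?_ ?_)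
    · exact (upd_meas w).comp ((measurable_fst.comp (measurable_snd.comp
        measurable_fst)).prodMk measurable_snd)
    · exact measurable_snd.comp (measurable_snd.comp measurable_fst)
  have hG : Measurable fun p : ℝ × (((Fin d → ℤ) → ℝ) × (Sym2 (Fin d → ℤ) → Bool)) =>
      ∫⁻ t, F (p.1, (Function.update p.2.1 w t, p.2.2)) ∂(gaussianReal 0 v) :=
    hm.lintegral_prod_right'
  rw [lintegral_prod _ hF.aemeasurable, lintegral_prod _ hG.aemeasurable]
  refine lintegral_congr fun E => ?_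
  have hFE : Measurable fun q : ((Fin d → ℤ) → ℝ) × (Sym2 (Fin d → ℤ) → Bool) => F (E, q) :=
    hF.comp measurable_prodMk_left
  have hGE : Measurable fun q : ((Fin d → ℤ) → ℝ) × (Sym2 (Fin d → ℤ) → Bool) =>
      ∫⁻ t, F (E, (Function.update q.1 w t, q.2)) ∂(gaussianReal 0 v) :=
    hG.comp measurable_prodMk_left
  rw [lintegral_prod_symm' _ hFE, lintegral_prod_symm' _ hGE]
  refine lintegral_congr fun s => ?_
  have hFs : Measurable fun V : (Fin d → ℤ) → ℝ => F (E, (V, s)) :=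
    hFE.comp measurable_prodMk_right
  have h1 := (update_mp v w).lintegral_comp hFs
  rw [← h1]
  exact lintegral_prod _ (hFs.comp (upd_meas w)).aemeasurable

theorem upd_comp {Ω ι : Type*} [MeasurableSpace Ω] [DecidableEq ι] (f : Ω → ι → ℝ)
    (hf : ∀ i, Measurable fun q => f q i) (g : Ω → ℝ) (hg : Measurable g) (y : ι) :
    Measurable fun q => Function.update (f q) y (g q) := by
  refine measurable_pi_iff.mpr fun i => ?_
  by_cases h : i = y
  · subst h
    simpa using hg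
  · simp only [Function.update_of_ne h]
    exact hf i

theorem gen_meas (h : Adm T0 κ ρ0 b) (ρ η : ℝ) (Λ : Finset (Fin d → ℤ)) (X Y : Λ)
    {Ω : Type*} [MeasurableSpace Ω] (e : Ω → ℝ) (f : Ω → Λ → ℝ)
    (s : Ω → Sym2 (Fin d → ℤ) → Bool) (he : Measurable e) (hf : Measurable f)
    (hs : Measurable s) :
    Measurable fun q : Ω => ENNReal.ofReal (Pm (cut (Am T0 κ ρ Λ (s q)) X) (f q) (e q) η Y Y) := by
  have h1 : Measurable fun q : Ω => (((e q, f q), s q) :
      (ℝ × (Λ → ℝ)) × (Sym2 (Fin d → ℤ) → Bool)) := (he.prodMk hf).prodMk hs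
  exact ((cutPm_meas h ρ η Λ X Y Y).comp h1).ennreal_ofReal

theorem restr_upd (Λ : Finset (Fin d → ℤ)) (w : Fin d → ℤ) (hw : w ∈ Λ)
    (V : (Fin d → ℤ) → ℝ) (t : ℝ) :
    (fun i : Λ => Function.update V w t i) =
      Function.update (fun i : Λ => V i) ⟨w, hw⟩ t := by
  funext i
  by_cases h : i = ⟨w, hw⟩
  · subst h
    simp
  · have h' : (i : Fin d → ℤ) ≠ w := fun hc => h (Subtype.ext hc)
    rw [Function.update_of_ne h, Function.update_of_ne h']

end Mean3

open Mean3 in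
theorem mean_lower (h : Adm T0 κ ρ0 b) (v : NNReal) (hv : v ≠ 0) (ρ : ℝ)
    (Λ : Finset (Fin d → ℤ)) (x w : Fin d → ℤ) (hx : x ∈ Λ) (hw : w ∈ Λ) (hwx : w ≠ x)
    {K W η : ℝ} (hK : 0 < K) (hW : 2 * (K + 1) ≤ W) (hη : 0 < η) (hη1 : η ≤ 1)
    (U' : Set (ℝ × (((Fin d → ℤ) → ℝ) × (Sym2 (Fin d → ℤ) → Bool)))) (hU' : MeasurableSet U')
    (hind : ∀ (E : ℝ) (V : (Fin d → ℤ) → ℝ) (s : Sym2 (Fin d → ℤ) → Bool) (t : ℝ),
        ((E, (Function.update V w t, s)) ∈ U' ↔ (E, (V, s)) ∈ U')) :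
    ENNReal.ofReal (gaussianPDFReal 0 v W * Real.pi) *
        ((volume.restrict (Icc (-K) K)).prod ((PV d v).prod (Ps d))) U' ≤
      (∫⁻ p in U', ENNReal.ofReal (Pm (cut (Am T0 κ ρ Λ p.2.2) ⟨x, hx⟩)
          (fun i : Λ => p.2.1 i) p.1 η ⟨w, hw⟩ ⟨w, hw⟩)
        ∂((volume.restrict (Icc (-K) K)).prod ((PV d v).prod (Ps d)))) +
      ENNReal.ofReal (gaussianPDFReal 0 v W * (Ck K (aC b κ) / W)) := by
  have _ := hwx
  set c := gaussianPDFReal 0 v W with hc
  have hc0 : 0 ≤ c := gaussianPDFReal_nonneg _ _ _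
  set ν1 : Measure ℝ := volume.restrict (Icc (-K) K) with hν1
  set m := ν1.prod ((PV d v).prod (Ps d)) with hm
  set X : Λ := ⟨x, hx⟩ with hX
  set Y : Λ := ⟨w, hw⟩ with hY
  -- measurability of the joint function
  have hmq : Measurable fun q : (ℝ × (((Fin d → ℤ) → ℝ) × (Sym2 (Fin d → ℤ) → Bool))) × ℝ =>
      ENNReal.ofReal (Pm (cut (Am T0 κ ρ Λ q.1.2.2) X)
        (Function.update (fun i : Λ => q.1.2.1 i) Y q.2) q.1.1 η Y Y) :=
    gen_meas h ρ η Λ X Y
      (fun q : (ℝ × (((Fin d → ℤ) → ℝ) × (Sym2 (Fin d → ℤ) → Bool))) × ℝ => q.1.1)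
      (fun q => Function.update (fun i : Λ => q.1.2.1 i) Y q.2) (fun q => q.1.2.2)
      (measurable_fst.comp measurable_fst)
      (upd_comp (fun q : (ℝ × (((Fin d → ℤ) → ℝ) × (Sym2 (Fin d → ℤ) → Bool))) × ℝ =>
        (fun i : Λ => q.1.2.1 i)) (fun i => (measurable_pi_apply _).comp (measurable_fst.comp
          (measurable_snd.comp measurable_fst))) (fun q => q.2) measurable_snd Y)
      (measurable_snd.comp (measurable_snd.comp measurable_fst))
  have hPhi : Measurable fun p : ℝ × (((Fin d → ℤ) → ℝ) × (Sym2 (Fin d → ℤ) → Bool)) =>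
      ENNReal.ofReal (Pm (cut (Am T0 κ ρ Λ p.2.2) X) (fun i : Λ => p.2.1 i) p.1 η Y Y) :=
    gen_meas h ρ η Λ X Y
      (fun p : ℝ × (((Fin d → ℤ) → ℝ) × (Sym2 (Fin d → ℤ) → Bool)) => p.1)
      (fun p => (fun i : Λ => p.2.1 i)) (fun p => p.2.2) measurable_fst
      (measurable_pi_iff.mpr fun i => (measurable_pi_apply _).comp
        (measurable_fst.comp measurable_snd))
      (measurable_snd.comp measurable_snd)
  set Φ : ℝ × (((Fin d → ℤ) → ℝ) × (Sym2 (Fin d → ℤ) → Bool)) → ENNReal := fun p =>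
      ENNReal.ofReal (Pm (cut (Am T0 κ ρ Λ p.2.2) X) (fun i : Λ => p.2.1 i) p.1 η Y Y) with hΦ
  set J : ℝ × (((Fin d → ℤ) → ℝ) × (Sym2 (Fin d → ℤ) → Bool)) → ENNReal := fun p =>
    ∫⁻ t in Icc (-W) W, ENNReal.ofReal (Pm (cut (Am T0 κ ρ Λ p.2.2) X)
        (Function.update (fun i : Λ => p.2.1 i) Y t) p.1 η Y Y) with hJ
  set Jc : ℝ × (((Fin d → ℤ) → ℝ) × (Sym2 (Fin d → ℤ) → Bool)) → ENNReal := fun p =>
    ∫⁻ t in (Icc (-W) W)ᶜ, ENNReal.ofReal (Pm (cut (Am T0 κ ρ Λ p.2.2) X)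
        (Function.update (fun i : Λ => p.2.1 i) Y t) p.1 η Y Y) with hJc
  have hJm : Measurable J := hmq.lintegral_prod_right'
  have hJcm : Measurable Jc := hmq.lintegral_prod_right'
  have hsym : ∀ s, (cut (Am T0 κ ρ Λ s) X).IsSymm := fun s => cut_symm _ (Am_symm h ρ Λ s) X
  have hdia : ∀ s i, cut (Am T0 κ ρ Λ s) X i i = 0 := fun s i =>
    cut_diag _ (Am_diag h ρ Λ s) X i
  have hsum : ∀ p, J p + Jc p = ENNReal.ofReal Real.pi := by
    intro p
    rw [← Mom.diag_full (cut (Am T0 κ ρ Λ p.2.2) X) (hsym _) (hdia _)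
      (fun i : Λ => p.2.1 i) p.1 hη Y]
    exact lintegral_add_compl _ measurableSet_Icc
  have hJcle : ∫⁻ p, Jc p ∂m ≤ ENNReal.ofReal (Ck K (aC b κ) / W) := by
    rw [hm, lintegral_prod_symm' _ hJcm]
    calc ∫⁻ q, ∫⁻ E, Jc (E, q) ∂ν1 ∂((PV d v).prod (Ps d))
        ≤ ∫⁻ _q, ENNReal.ofReal (Ck K (aC b κ) / W) ∂((PV d v).prod (Ps d)) := by
          apply lintegral_mono
          intro q
          exact tail_bound (cut (Am T0 κ ρ Λ q.2) X) (hsym _) (hdia _) (fun i : Λ => q.1 i) Y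
            ((cut_row _ X Y).trans (Am_row h ρ Λ q.2 Y)) hK hW hη hη1
      _ = _ := by simp
  have hfirst : ENNReal.ofReal c * ∫⁻ p in U', J p ∂m ≤ ∫⁻ p in U', Φ p ∂m := by
    rw [← lintegral_const_mul _ hJm, ← lintegral_indicator hU', ← lintegral_indicator hU',
      hm, resamp v w K (U'.indicator Φ) (hPhi.indicator hU')]
    apply lintegral_mono
    intro p
    by_cases hp : p ∈ U'
    · have h1 : ∀ t, U'.indicator Φ (p.1, (Function.update p.2.1 w t, p.2.2)) =
          ENNReal.ofReal (Pm (cut (Am T0 κ ρ Λ p.2.2) X)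
            (Function.update (fun i : Λ => p.2.1 i) Y t) p.1 η Y Y) := by
        intro t
        rw [indicator_of_mem ((hind p.1 p.2.1 p.2.2 t).2 hp)]
        simp only [hΦ]
        rw [restr_upd Λ w hw]
      simp only [h1]
      rw [indicator_of_mem hp]
      simp only [hJ]
      rw [← Mom.diag_eq v hv]
      apply lintegral_mono
      intro t
      apply ENNReal.ofReal_le_ofReal
      have h2 : 0 ≤ Pm (cut (Am T0 κ ρ Λ p.2.2) X)
            (Function.update (fun i : Λ => p.2.1 i) Y t) p.1 η Y Y :=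
        (Pm_diag_pos _ (hsym _) _ _ hη _).le
      exact mul_le_of_le_one_left h2 (Mom.g_le_one v W t)
    · rw [indicator_of_notMem hp]
      exact zero_le
  calc ENNReal.ofReal (c * Real.pi) * m U'
      = ENNReal.ofReal c * ∫⁻ p in U', (J p + Jc p) ∂m := by
        simp_rw [hsum]
        rw [setLIntegral_const, ENNReal.ofReal_mul hc0, mul_assoc]
    _ = ENNReal.ofReal c * ∫⁻ p in U', J p ∂m + ENNReal.ofReal c * ∫⁻ p in U', Jc p ∂m := by
        rw [lintegral_add_left hJm, mul_add]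
    _ ≤ ∫⁻ p in U', Φ p ∂m + ENNReal.ofReal (c * (Ck K (aC b κ) / W)) := by
        rw [ENNReal.ofReal_mul hc0]
        refine add_le_add hfirst ?_
        gcongr
        exact (setLIntegral_le_lintegral _ _).trans hJcle

end H10PL
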