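import Pool.Agent.H10R2.PL.Weg

/-!
Second moment of the local density at several scales (task 3-SEC).
-/

namespace H10PL

open MeasureTheory ProbabilityTheory Matrix Set

section finite

variable {ι : Type*} [Fintype ι] [DecidableEq ι]

namespace Sec

/-- the weight `X_w` -/
noncomputable def X (A : Matrix ι ι ℝ) (E β : ℝ) (F : Finset ι) (w : ι) (V : ι → ℝ) : ℝ :=
  2 / β + ∑ w' ∈ F.erase w, Pm (cut A w) V E β w' w'

theorem sum_le_X (A : Matrix ι ι ℝ) (hA : A.IsSymm) (hd : ∀ i, A i i = 0) (E : ℝ) {β : ℝ}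
    (hβ : 0 < β) (F : Finset ι) (w : ι) (hw : w ∈ F) (V : ι → ℝ) :
    ∑ w' ∈ F, Pm A V E β w' w' ≤ X A E β F w V := by
  have h1 := Pm_diag_le A hA V E hβ w
  have h2 := sum_diff_le A hA hd V E hβ w
  have h3 : ∑ w' ∈ F.erase w, |Pm A V E β w' w' - Pm (cut A w) V E β w' w'| ≤ 1 / β :=
    (Finset.sum_le_sum_of_subset_of_nonneg
      (Finset.erase_subset_erase w (Finset.subset_univ F)) (fun _ _ _ => abs_nonneg _)).trans h2
  have h4 : ∑ w' ∈ F.erase w, (Pm A V E β w' w' - Pm (cut A w) V E β w' w') ≤ 1 / β :=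
    (Finset.sum_le_sum fun w' _ => le_abs_self _).trans h3
  rw [Finset.sum_sub_distrib] at h4
  rw [← Finset.add_sum_erase F _ hw]
  unfold X
  have h5 : 2 / β = 1 / β + 1 / β := by ring
  linarith

theorem X_nonneg (A : Matrix ι ι ℝ) (hA : A.IsSymm) (E : ℝ) {β : ℝ} (hβ : 0 < β) (F : Finset ι)
    (w : ι) (V : ι → ℝ) : 0 ≤ X A E β F w V := by
  unfold X
  have h := Finset.sum_nonneg fun w' (_ : w' ∈ F.erase w) =>
    (Pm_diag_pos (cut A w) (cut_symm A hA w) V E hβ w').le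
  positivity

theorem X_meas (A : Matrix ι ι ℝ) (E β : ℝ) (F : Finset ι) (w : ι) :
    Measurable (X A E β F w) := by
  unfold X
  exact measurable_const.add
    (Finset.measurable_fun_sum _ fun y _ => Mom.meas_V (cut A w) E β y)

theorem X_ind (A : Matrix ι ι ℝ) (hA : A.IsSymm) (E : ℝ) {β : ℝ} (hβ : 0 < β) (F : Finset ι)
    (w : ι) (V : ι → ℝ) (t : ℝ) : X A E β F w (Function.update V w t) = X A E β F w V := by
  unfold X
  congr 1
  refine Finset.sum_congr rfl fun y hy => ?_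
  unfold Pm
  rw [Gm_cut_update A hA V t E hβ w y y (Finset.ne_of_mem_erase hy)]

theorem wegner_pi (μ : Measure ℝ) [IsProbabilityMeasure μ] {D : ℝ} (hD : 0 ≤ D)
    (hμ : μ ≤ ENNReal.ofReal D • volume) (A : Matrix ι ι ℝ) (hA : A.IsSymm)
    (hd : ∀ i, A i i = 0) (E : ℝ) {η : ℝ} (hη : 0 < η) (x : ι) :
    ∫⁻ V, ENNReal.ofReal (Pm A V E η x x) ∂(Measure.pi fun _ : ι => μ) ≤
      ENNReal.ofReal (Real.pi * D) := by
  have h3 := wegner_weight μ hD hμ A hA hd E hη x (fun _ => 1)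
    measurable_const (fun _ _ => rfl)
  simpa only [one_mul, lintegral_const, measure_univ, mul_one] using h3

theorem int_X (μ : Measure ℝ) [IsProbabilityMeasure μ] {D : ℝ} (hD : 0 ≤ D)
    (hμ : μ ≤ ENNReal.ofReal D • volume) (A : Matrix ι ι ℝ) (hA : A.IsSymm)
    (hd : ∀ i, A i i = 0) (E : ℝ) {β : ℝ} (hβ : 0 < β) (F : Finset ι) (w : ι) :
    ∫⁻ V, ENNReal.ofReal (X A E β F w V) ∂(Measure.pi fun _ : ι => μ) ≤
      ENNReal.ofReal (2 / β + F.card * (Real.pi * D)) := by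
  have hcs := cut_symm A hA w
  have hcd := cut_diag A hd w
  have h1 : ∀ V : ι → ℝ, ENNReal.ofReal (X A E β F w V) =
      ENNReal.ofReal (2 / β) +
        ∑ w' ∈ F.erase w, ENNReal.ofReal (Pm (cut A w) V E β w' w') := by
    intro V
    unfold X
    rw [ENNReal.ofReal_add (by positivity) (Finset.sum_nonneg fun w' _ =>
      (Pm_diag_pos (cut A w) hcs V E hβ w').le), ENNReal.ofReal_sum_of_nonneg fun w' _ =>
      (Pm_diag_pos (cut A w) hcs V E hβ w').le]
  simp only [h1]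
  rw [lintegral_add_left measurable_const, lintegral_const, measure_univ, mul_one,
    lintegral_finsetSum _ fun y _ => (Mom.meas_V (cut A w) E β y).ennreal_ofReal,
    ENNReal.ofReal_add (by positivity) (by positivity)]
  refine add_le_add le_rfl ?_
  calc ∑ w' ∈ F.erase w, ∫⁻ V, ENNReal.ofReal (Pm (cut A w) V E β w' w')
        ∂(Measure.pi fun _ : ι => μ)
      ≤ ∑ _w' ∈ F.erase w, ENNReal.ofReal (Real.pi * D) :=
        Finset.sum_le_sum fun y _ => wegner_pi μ hD hμ (cut A w) hcs hcd E hβ y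
    _ ≤ ∑ _w' ∈ F, ENNReal.ofReal (Real.pi * D) :=
        Finset.sum_le_sum_of_subset (Finset.erase_subset _ _)
    _ = ENNReal.ofReal (F.card * (Real.pi * D)) := by
        rw [Finset.sum_const, nsmul_eq_mul, ← ENNReal.ofReal_natCast,
          ← ENNReal.ofReal_mul (by positivity)]

theorem single (μ : Measure ℝ) [IsProbabilityMeasure μ] {D : ℝ} (hD : 0 ≤ D)
    (hμ : μ ≤ ENNReal.ofReal D • volume) (A : Matrix ι ι ℝ) (hA : A.IsSymm)
    (hd : ∀ i, A i i = 0) (E : ℝ) {β : ℝ} (hβ : 0 < β) (F : Finset ι) {c2 : ℝ}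
    (hc : β * F.card ≤ c2) :
    ∫⁻ V, ENNReal.ofReal ((β * ∑ w ∈ F, Pm A V E β w w) ^ 2) ∂(Measure.pi fun _ : ι => μ) ≤
      ENNReal.ofReal (Real.pi * D * c2 * (Real.pi * D * c2 + 2)) := by
  have h1 : ∀ V : ι → ℝ, ENNReal.ofReal ((β * ∑ w ∈ F, Pm A V E β w w) ^ 2) ≤
      ENNReal.ofReal (β ^ 2) * ∑ w ∈ F,
        (ENNReal.ofReal (X A E β F w V) * ENNReal.ofReal (Pm A V E β w w)) := by
    intro V
    have h2 : (β * ∑ w ∈ F, Pm A V E β w w) ^ 2 ≤
        β ^ 2 * ∑ w ∈ F, X A E β F w V * Pm A V E β w w := by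
      rw [mul_pow]
      refine mul_le_mul_of_nonneg_left ?_ (by positivity)
      rw [sq, Finset.mul_sum]
      refine Finset.sum_le_sum fun w hw => ?_
      exact mul_le_mul_of_nonneg_right (sum_le_X A hA hd E hβ F w hw V)
        (Pm_diag_pos A hA V E hβ w).le
    refine (ENNReal.ofReal_le_ofReal h2).trans ?_
    rw [ENNReal.ofReal_mul (by positivity), ENNReal.ofReal_sum_of_nonneg fun w _ =>
      mul_nonneg (X_nonneg A hA E hβ F w V) (Pm_diag_pos A hA V E hβ w).le]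
    refine mul_le_mul_right (Finset.sum_le_sum fun w _ => ?_) _
    rw [ENNReal.ofReal_mul (X_nonneg A hA E hβ F w V)]
  have hmeas : ∀ w ∈ F, Measurable fun V : ι → ℝ =>
      ENNReal.ofReal (X A E β F w V) * ENNReal.ofReal (Pm A V E β w w) := fun w _ =>
    (X_meas A E β F w).ennreal_ofReal.mul (Mom.meas_V A E β w).ennreal_ofReal
  have hc0 : 0 ≤ c2 := le_trans (by positivity) hc
  calc ∫⁻ V, ENNReal.ofReal ((β * ∑ w ∈ F, Pm A V E β w w) ^ 2) ∂(Measure.pi fun _ : ι => μ)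
      ≤ ∫⁻ V, ENNReal.ofReal (β ^ 2) * ∑ w ∈ F,
        (ENNReal.ofReal (X A E β F w V) * ENNReal.ofReal (Pm A V E β w w))
        ∂(Measure.pi fun _ : ι => μ) := lintegral_mono h1
    _ = ENNReal.ofReal (β ^ 2) * ∑ w ∈ F, ∫⁻ V,
        (ENNReal.ofReal (X A E β F w V) * ENNReal.ofReal (Pm A V E β w w))
        ∂(Measure.pi fun _ : ι => μ) := by
        rw [lintegral_const_mul _ (Finset.measurable_fun_sum F hmeas),
          lintegral_finsetSum _ hmeas]
    _ ≤ ENNReal.ofReal (β ^ 2) * ∑ _w ∈ F, ENNReal.ofReal (Real.pi * D) *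
        ENNReal.ofReal (2 / β + F.card * (Real.pi * D)) := by
        refine mul_le_mul_right (Finset.sum_le_sum fun w _ => ?_) _
        refine (wegner_weight μ hD hμ A hA hd E hβ w (fun V => ENNReal.ofReal (X A E β F w V))
          (X_meas A E β F w).ennreal_ofReal (fun V t => by rw [X_ind A hA E hβ])).trans ?_
        exact mul_le_mul_right (int_X μ hD hμ A hA hd E hβ F w) _
    _ = ENNReal.ofReal (β ^ 2 * (F.card * (Real.pi * D * (2 / β + F.card * (Real.pi * D))))) := by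
        rw [Finset.sum_const, nsmul_eq_mul, ← ENNReal.ofReal_natCast,
          ← ENNReal.ofReal_mul (by positivity), ← ENNReal.ofReal_mul (by positivity),
          ← ENNReal.ofReal_mul (by positivity)]
    _ ≤ ENNReal.ofReal (Real.pi * D * c2 * (Real.pi * D * c2 + 2)) := by
        apply ENNReal.ofReal_le_ofReal
        have h3 : β ^ 2 * (F.card * (Real.pi * D * (2 / β + F.card * (Real.pi * D)))) =
            Real.pi * D * (β * F.card) * (Real.pi * D * (β * F.card) + 2) := by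
          field_simp
          ring
        rw [h3]
        have h4 : 0 ≤ β * F.card := by positivity
        have h5 : 0 ≤ Real.pi * D := by positivity
        have h6 : Real.pi * D * (β * F.card) ≤ Real.pi * D * c2 :=
          mul_le_mul_of_nonneg_left hc h5
        have h7 : 0 ≤ Real.pi * D * (β * F.card) := mul_nonneg h5 h4
        exact mul_le_mul h6 (by linarith) (by linarith) (h7.trans h6)

end Sec

theorem second_moment (μ : Measure ℝ) [IsProbabilityMeasure μ] {D : ℝ} (hD : 0 ≤ D)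
    (hμ : μ ≤ ENNReal.ofReal D • volume) (A : Matrix ι ι ℝ) (hA : A.IsSymm)
    (hd : ∀ i, A i i = 0) (E : ℝ) (n : ℕ) (β : Fin n → ℝ) (hβ : ∀ k, 0 < β k)
    (F : Fin n → Finset ι) {c2 : ℝ} (hc : ∀ k, β k * (F k).card ≤ c2) :
    ∫⁻ V, (ENNReal.ofReal (∑ k, β k * ∑ w ∈ F k, Pm A V E (β k) w w)) ^ 2
      ∂(Measure.pi fun _ : ι => μ) ≤
      ENNReal.ofReal (n ^ 2 * (Real.pi * D * c2 * (Real.pi * D * c2 + 2))) := by
  have hZ : ∀ (V : ι → ℝ) (k : Fin n), 0 ≤ β k * ∑ w ∈ F k, Pm A V E (β k) w w := fun V k =>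
    mul_nonneg (hβ k).le (Finset.sum_nonneg fun w _ => (Pm_diag_pos A hA V E (hβ k) w).le)
  have h1 : ∀ V : ι → ℝ, (ENNReal.ofReal (∑ k, β k * ∑ w ∈ F k, Pm A V E (β k) w w)) ^ 2 ≤
      ENNReal.ofReal n * ∑ k, ENNReal.ofReal ((β k * ∑ w ∈ F k, Pm A V E (β k) w w) ^ 2) := by
    intro V
    rw [← ENNReal.ofReal_pow (Finset.sum_nonneg fun k _ => hZ V k),
      ← ENNReal.ofReal_sum_of_nonneg fun k _ => sq_nonneg _,
      ← ENNReal.ofReal_mul (by positivity)]
    apply ENNReal.ofReal_le_ofReal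
    have h2 := sq_sum_le_card_mul_sum_sq (s := (Finset.univ : Finset (Fin n)))
      (f := fun k => β k * ∑ w ∈ F k, Pm A V E (β k) w w)
    simpa using h2
  have hmeas : ∀ k : Fin n, Measurable fun V : ι → ℝ =>
      ENNReal.ofReal ((β k * ∑ w ∈ F k, Pm A V E (β k) w w) ^ 2) := by
    intro k
    refine Measurable.ennreal_ofReal ?_
    exact ((Finset.measurable_fun_sum _ fun y _ => Mom.meas_V A E (β k) y).const_mul _).pow_const 2
  calc ∫⁻ V, (ENNReal.ofReal (∑ k, β k * ∑ w ∈ F k, Pm A V E (β k) w w)) ^ 2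
        ∂(Measure.pi fun _ : ι => μ)
      ≤ ∫⁻ V, ENNReal.ofReal n *
        ∑ k, ENNReal.ofReal ((β k * ∑ w ∈ F k, Pm A V E (β k) w w) ^ 2)
        ∂(Measure.pi fun _ : ι => μ) := lintegral_mono h1
    _ = ENNReal.ofReal n * ∑ k, ∫⁻ V,
        ENNReal.ofReal ((β k * ∑ w ∈ F k, Pm A V E (β k) w w) ^ 2)
        ∂(Measure.pi fun _ : ι => μ) := by
        rw [lintegral_const_mul _ (Finset.measurable_fun_sum _ fun k _ => hmeas k),
          lintegral_finsetSum _ fun k _ => hmeas k]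
    _ ≤ ENNReal.ofReal n * ∑ _k : Fin n,
        ENNReal.ofReal (Real.pi * D * c2 * (Real.pi * D * c2 + 2)) := by
        refine mul_le_mul_right (Finset.sum_le_sum fun k _ => ?_) _
        exact Sec.single μ hD hμ A hA hd E (hβ k) (F k) (hc k)
    _ = ENNReal.ofReal (n ^ 2 * (Real.pi * D * c2 * (Real.pi * D * c2 + 2))) := by
        rw [Finset.sum_const, nsmul_eq_mul, Finset.card_univ, Fintype.card_fin,
          ← ENNReal.ofReal_natCast, ← ENNReal.ofReal_mul (by positivity),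
          ← ENNReal.ofReal_mul (by positivity)]
        congr 1
        ring

end finite

end H10PL
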