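import Pool.Agent.H10R2.PL.Asm3a
import Pool.Agent.H10R2.PL.Sec
import Pool.Agent.H10R2.PL.Apx
import Pool.Agent.H10R2.PL.Mean
import Pool.Agent.H10R2.PL.Low
import Pool.Agent.H10R2.PL.Flip3

namespace H10PL

open MeasureTheory ProbabilityTheory Matrix Set Filter

variable {d : ℕ} {T0 : (Fin d → ℤ) → (Fin d → ℤ) → ℝ} {κ : (Fin d → ℤ) → ℝ} {ρ0 b : ℝ}

/-- bound of the Gaussian density -/
theorem gauss_le (v : NNReal) (hv : v ≠ 0) :
    gaussianReal 0 v ≤ ENNReal.ofReal ((Real.sqrt (2 * Real.pi * v))⁻¹) • volume := by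
  rw [gaussianReal_of_var_ne_zero 0 hv, ← withDensity_const]
  refine withDensity_mono (Filter.Eventually.of_forall fun t => ?_)
  unfold gaussianPDF gaussianPDFReal
  refine ENNReal.ofReal_le_ofReal ?_
  have h1 : Real.exp (-(t - 0) ^ 2 / (2 * v)) ≤ 1 := by
    rw [Real.exp_le_one_iff]
    have : (0 : ℝ) ≤ (t - 0) ^ 2 / (2 * v) := by positivity
    have h2 : -(t - 0) ^ 2 / (2 * v) = -((t - 0) ^ 2 / (2 * v)) := by ring
    rw [h2]
    linarith
  have h0 : (0 : ℝ) ≤ (Real.sqrt (2 * Real.pi * v))⁻¹ := by positivity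
  nlinarith

/-- the sum over the scales -/
noncomputable def Sn (T0 : (Fin d → ℤ) → (Fin d → ℤ) → ℝ) (κ : (Fin d → ℤ) → ℝ) (ρ : ℝ)
    (Λ : Finset (Fin d → ℤ)) (X : Λ) {n : ℕ} (β : Fin n → ℝ) (F : Fin n → Finset (Fin d → ℤ))
    (q : (ℝ × (Λ → ℝ)) × (Sym2 (Fin d → ℤ) → Bool)) : ℝ :=
  open Classical in
  ∑ k, β k * ∑ i ∈ Finset.univ.filter (fun i : Λ => (i : Fin d → ℤ) ∈ F k),
    Pm (cut (Am T0 κ ρ Λ q.2) X) q.1.2 q.1.1 (β k) i i

theorem Sn_meas (h : Adm T0 κ ρ0 b) (ρ : ℝ) (Λ : Finset (Fin d → ℤ)) (X : Λ) {n : ℕ}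
    (β : Fin n → ℝ) (F : Fin n → Finset (Fin d → ℤ)) :
    Measurable (Sn T0 κ ρ Λ X β F) := by
  classical
  unfold Sn
  refine Finset.measurable_sum _ fun k _ => ?_
  refine Measurable.const_mul ?_ _
  refine Finset.measurable_sum _ fun i _ => ?_
  exact cutPm_meas h ρ (β k) Λ X i i

theorem Sn_nonneg (h : Adm T0 κ ρ0 b) (ρ : ℝ) (Λ : Finset (Fin d → ℤ)) (X : Λ) {n : ℕ}
    (β : Fin n → ℝ) (hβ : ∀ k, 0 < β k) (F : Fin n → Finset (Fin d → ℤ))
    (q : (ℝ × (Λ → ℝ)) × (Sym2 (Fin d → ℤ) → Bool)) : 0 ≤ Sn T0 κ ρ Λ X β F q := by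
  classical
  unfold Sn
  refine Finset.sum_nonneg fun k _ => mul_nonneg (hβ k).le ?_
  refine Finset.sum_nonneg fun i _ => ?_
  exact (Pm_diag_pos _ (cut_symm _ (Am_symm h ρ Λ q.2) X) _ _ (hβ k) i).le

/-- projection to the box -/
def prj (Λ : Finset (Fin d → ℤ)) (p : ℝ × (((Fin d → ℤ) → ℝ) × (Sym2 (Fin d → ℤ) → Bool))) :
    (ℝ × (Λ → ℝ)) × (Sym2 (Fin d → ℤ) → Bool) := ((p.1, fun i : Λ => p.2.1 i), p.2.2)

theorem prj_meas (Λ : Finset (Fin d → ℤ)) : Measurable (prj (d := d) Λ) := by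
  unfold prj
  refine Measurable.prodMk (Measurable.prodMk measurable_fst ?_)
    (measurable_snd.comp measurable_snd)
  refine measurable_pi_lambda _ fun i => ?_
  exact (measurable_pi_apply _).comp (measurable_fst.comp measurable_snd)

theorem Sn_sq (h : Adm T0 κ ρ0 b) (v : NNReal) {D : ℝ} (hD : 0 ≤ D)
    (hμ : gaussianReal 0 v ≤ ENNReal.ofReal D • volume) (ρ : ℝ) (Λ : Finset (Fin d → ℤ))
    (X : Λ) {n : ℕ} (β : Fin n → ℝ) (hβ : ∀ k, 0 < β k) (F : Fin n → Finset (Fin d → ℤ))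
    {c2 : ℝ} (hc2 : 0 ≤ c2) (hc : ∀ k, β k * (F k).card ≤ c2) {K : ℝ} (hK : 0 < K) :
    ∫⁻ p, ENNReal.ofReal (Sn T0 κ ρ Λ X β F (prj Λ p)) ^ 2
      ∂((volume.restrict (Icc (-K) K)).prod ((PV d v).prod (Ps d))) ≤
    ENNReal.ofReal (2 * K * (Real.pi * D * c2 * (Real.pi * D * c2 + 2)) * (n : ℝ) ^ 2) := by
  classical
  have hpi := Real.pi_pos
  have hm : Measurable fun q => ENNReal.ofReal (Sn T0 κ ρ Λ X β F q) ^ 2 :=
    ((Sn_meas h ρ Λ X β F).ennreal_ofReal).pow_const 2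
  have h1 := lat_int (gaussianReal 0 v) Λ K (fun q => ENNReal.ofReal (Sn T0 κ ρ Λ X β F q) ^ 2) hm
  have h2 : ∀ s : Sym2 (Fin d → ℤ) → Bool,
      (∫⁻ q, ENNReal.ofReal (Sn T0 κ ρ Λ X β F (q, s)) ^ 2 ∂((volume.restrict (Icc (-K) K)).prod
        (Measure.pi fun _ : Λ => gaussianReal 0 v))) ≤
      ENNReal.ofReal (2 * K * (Real.pi * D * c2 * (Real.pi * D * c2 + 2)) * (n : ℝ) ^ 2) := by
    intro s
    have hms : Measurable fun q : ℝ × (Λ → ℝ) => ENNReal.ofReal (Sn T0 κ ρ Λ X β F (q, s)) ^ 2 :=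
      hm.comp measurable_prodMk_right
    rw [lintegral_prod _ hms.aemeasurable]
    have h3 : ∀ E : ℝ, ∫⁻ V, ENNReal.ofReal (Sn T0 κ ρ Λ X β F ((E, V), s)) ^ 2
        ∂(Measure.pi fun _ : Λ => gaussianReal 0 v) ≤
        ENNReal.ofReal ((n : ℝ) ^ 2 * (Real.pi * D * c2 * (Real.pi * D * c2 + 2))) := by
      intro E
      have hA := cut_symm _ (Am_symm h ρ Λ s) X
      have hd := cut_diag _ (Am_diag h ρ Λ s) X
      refine second_moment (gaussianReal 0 v) hD hμ (cut (Am T0 κ ρ Λ s) X) hA hd E n β hβ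
        (fun k => Finset.univ.filter (fun i : Λ => (i : Fin d → ℤ) ∈ F k)) (c2 := c2) ?_
      intro k
      have h4 : (Finset.univ.filter (fun i : Λ => (i : Fin d → ℤ) ∈ F k)).card ≤ (F k).card := by
        refine Finset.card_le_card_of_injOn (fun i : Λ => (i : Fin d → ℤ)) ?_ ?_
        · intro i hi
          exact (Finset.mem_filter.1 hi).2
        · intro i _ j _ hij
          exact Subtype.ext hij
      refine le_trans ?_ (hc k)
      exact mul_le_mul_of_nonneg_left (by exact_mod_cast h4) (hβ k).le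
    calc ∫⁻ E in Icc (-K) K, (∫⁻ V, ENNReal.ofReal (Sn T0 κ ρ Λ X β F ((E, V), s)) ^ 2
          ∂(Measure.pi fun _ : Λ => gaussianReal 0 v))
        ≤ ∫⁻ _E in Icc (-K) K,
          ENNReal.ofReal ((n : ℝ) ^ 2 * (Real.pi * D * c2 * (Real.pi * D * c2 + 2))) :=
          lintegral_mono h3
      _ = ENNReal.ofReal ((n : ℝ) ^ 2 * (Real.pi * D * c2 * (Real.pi * D * c2 + 2))) *
          ENNReal.ofReal (2 * K) := by
          rw [lintegral_const, Measure.restrict_apply_univ, Real.volume_Icc]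
          congr 2
          ring
      _ = _ := by
          rw [← ENNReal.ofReal_mul (by positivity)]
          congr 1
          ring
  calc _ = ∫⁻ s, (∫⁻ q, ENNReal.ofReal (Sn T0 κ ρ Λ X β F (q, s)) ^ 2
        ∂((volume.restrict (Icc (-K) K)).prod
        (Measure.pi fun _ : Λ => gaussianReal 0 v))) ∂(Ps d) := h1
    _ ≤ ∫⁻ _s, ENNReal.ofReal
        (2 * K * (Real.pi * D * c2 * (Real.pi * D * c2 + 2)) * (n : ℝ) ^ 2) ∂(Ps d) :=
        lintegral_mono h2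
    _ = _ := by simp

/-- lower bound for the mean over an approximating set -/
theorem Sn_low (h : Adm T0 κ ρ0 b) (v : NNReal) (hv : v ≠ 0) (ρ : ℝ) (Λ : Finset (Fin d → ℤ))
    (x : Fin d → ℤ) (hx : x ∈ Λ) {n : ℕ} (β : Fin n → ℝ) (hβ : ∀ k, 0 < β k ∧ β k ≤ 1)
    (F : Fin n → Finset (Fin d → ℤ)) (hFΛ : ∀ k, F k ⊆ Λ) (hxF : ∀ k, x ∉ F k)
    {c1 : ℝ} (hc : ∀ k, c1 ≤ β k * (F k).card) {K W δ : ℝ} (hK : 0 < K)
    (hW : 2 * (K + 1) ≤ W) (hδ : 0 < δ) (hCW : Ck K (aC b κ) / W ≤ Real.pi * δ / 2)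
    (U' : Set (ℝ × (((Fin d → ℤ) → ℝ) × (Sym2 (Fin d → ℤ) → Bool)))) (hU' : MeasurableSet U')
    (hδU : ENNReal.ofReal δ ≤ ((volume.restrict (Icc (-K) K)).prod ((PV d v).prod (Ps d))) U')
    (hind : ∀ k, ∀ w ∈ F k, ∀ (E : ℝ) (V : (Fin d → ℤ) → ℝ) (s : Sym2 (Fin d → ℤ) → Bool) (t : ℝ),
        ((E, (Function.update V w t, s)) ∈ U' ↔ (E, (V, s)) ∈ U')) :
    ENNReal.ofReal (c1 * (gaussianPDFReal 0 v W * Real.pi * δ / 2) * n) ≤
      ∫⁻ p in U', ENNReal.ofReal (Sn T0 κ ρ Λ ⟨x, hx⟩ β F (prj Λ p))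
        ∂((volume.restrict (Icc (-K) K)).prod ((PV d v).prod (Ps d))) := by
  classical
  have hpi := Real.pi_pos
  set m := (volume.restrict (Icc (-K) K)).prod ((PV d v).prod (Ps d)) with hm
  have hcW : 0 < gaussianPDFReal 0 v W := gaussianPDFReal_pos 0 v W hv
  obtain ⟨e, he⟩ : ∃ e, e = gaussianPDFReal 0 v W * Real.pi * δ / 2 := ⟨_, rfl⟩
  have he0 : 0 < e := by rw [he]; positivity
  have hPm0 : ∀ k (i : Λ) (p : ℝ × (((Fin d → ℤ) → ℝ) × (Sym2 (Fin d → ℤ) → Bool))),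
      0 ≤ Pm (cut (Am T0 κ ρ Λ (prj Λ p).2) ⟨x, hx⟩) (prj Λ p).1.2 (prj Λ p).1.1 (β k) i i := by
    intro k i p
    exact (Pm_diag_pos _ (cut_symm _ (Am_symm h ρ Λ _) _) _ _ (hβ k).1 i).le
  have hmeas : ∀ k (i : Λ), Measurable
      fun p : ℝ × (((Fin d → ℤ) → ℝ) × (Sym2 (Fin d → ℤ) → Bool)) =>
      Pm (cut (Am T0 κ ρ Λ (prj Λ p).2) ⟨x, hx⟩) (prj Λ p).1.2 (prj Λ p).1.1 (β k) i i := by
    intro k i
    exact (cutPm_meas h ρ (β k) Λ ⟨x, hx⟩ i i).comp (prj_meas Λ)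
  have h1 : ∀ k, ∀ w (hw : w ∈ F k), ENNReal.ofReal e ≤
      ∫⁻ p in U', ENNReal.ofReal (Pm (cut (Am T0 κ ρ Λ (prj Λ p).2) ⟨x, hx⟩) (prj Λ p).1.2
        (prj Λ p).1.1 (β k) ⟨w, hFΛ k hw⟩ ⟨w, hFΛ k hw⟩) ∂m := by
    intro k w hw
    have hwx : w ≠ x := fun hc => hxF k (hc ▸ hw)
    have h2 := mean_lower h v hv ρ Λ x w hx (hFΛ k hw) hwx hK hW (hβ k).1 (hβ k).2 U' hU'
      (hind k w hw)
    have h3 : ENNReal.ofReal (e + e) ≤
        ENNReal.ofReal (gaussianPDFReal 0 v W * Real.pi) * m U' := by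
      calc ENNReal.ofReal (e + e) = ENNReal.ofReal (gaussianPDFReal 0 v W * Real.pi) *
            ENNReal.ofReal δ := by
            rw [← ENNReal.ofReal_mul (by positivity), he]
            congr 1
            ring
        _ ≤ _ := mul_le_mul' le_rfl hδU
    have h4 : gaussianPDFReal 0 v W * (Ck K (aC b κ) / W) ≤ e := by
      rw [he]
      calc gaussianPDFReal 0 v W * (Ck K (aC b κ) / W)
          ≤ gaussianPDFReal 0 v W * (Real.pi * δ / 2) := mul_le_mul_of_nonneg_left hCW hcW.le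
        _ = _ := by ring
    refine le_of_add_half he0.le he0.le (h3.trans (h2.trans ?_))
    exact add_le_add le_rfl (ENNReal.ofReal_le_ofReal h4)
  have h2 : ∫⁻ p in U', ENNReal.ofReal (Sn T0 κ ρ Λ ⟨x, hx⟩ β F (prj Λ p)) ∂m =
      ∑ k, ENNReal.ofReal (β k) * ∑ i ∈ Finset.univ.filter (fun i : Λ => (i : Fin d → ℤ) ∈ F k),
        ∫⁻ p in U', ENNReal.ofReal (Pm (cut (Am T0 κ ρ Λ (prj Λ p).2) ⟨x, hx⟩) (prj Λ p).1.2
          (prj Λ p).1.1 (β k) i i) ∂m := by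
    have h3 : ∀ p, ENNReal.ofReal (Sn T0 κ ρ Λ ⟨x, hx⟩ β F (prj Λ p)) =
        ∑ k, ENNReal.ofReal (β k) *
          ∑ i ∈ Finset.univ.filter (fun i : Λ => (i : Fin d → ℤ) ∈ F k),
          ENNReal.ofReal (Pm (cut (Am T0 κ ρ Λ (prj Λ p).2) ⟨x, hx⟩) (prj Λ p).1.2
            (prj Λ p).1.1 (β k) i i) := by
      intro p
      unfold Sn
      rw [ENNReal.ofReal_sum_of_nonneg]
      · refine Finset.sum_congr rfl fun k _ => ?_
        rw [ENNReal.ofReal_mul (hβ k).1.le, ENNReal.ofReal_sum_of_nonneg]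
        intro i _
        exact hPm0 k i p
      · intro k _
        exact mul_nonneg (hβ k).1.le (Finset.sum_nonneg fun i _ => hPm0 k i p)
    simp only [h3]
    rw [lintegral_finsetSum]
    · refine Finset.sum_congr rfl fun k _ => ?_
      rw [lintegral_const_mul' _ _ ENNReal.ofReal_ne_top, lintegral_finsetSum]
      intro i _
      exact (hmeas k i).ennreal_ofReal
    · intro k _
      refine Measurable.const_mul ?_ _
      refine Finset.measurable_sum _ fun i _ => ?_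
      exact (hmeas k i).ennreal_ofReal
  rw [h2, ← he]
  calc ENNReal.ofReal (c1 * e * n) = ∑ _k : Fin n, ENNReal.ofReal (c1 * e) := by
        rw [Finset.sum_const, Finset.card_univ, Fintype.card_fin, nsmul_eq_mul,
          mul_comm (c1 * e) (n : ℝ), ENNReal.ofReal_mul (Nat.cast_nonneg n),
          ENNReal.ofReal_natCast]
    _ ≤ _ := by
        refine Finset.sum_le_sum fun k _ => ?_
        have hcard : (F k).card =
            (Finset.univ.filter (fun i : Λ => (i : Fin d → ℤ) ∈ F k)).card := by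
          symm
          refine Finset.card_bij (fun i _ => (i : Fin d → ℤ)) ?_ ?_ ?_
          · intro i hi
            exact (Finset.mem_filter.1 hi).2
          · intro i _ j _ hij
            exact Subtype.ext hij
          · intro w hw
            exact ⟨⟨w, hFΛ k hw⟩, Finset.mem_filter.2 ⟨Finset.mem_univ _, hw⟩, rfl⟩
        calc ENNReal.ofReal (c1 * e) ≤ ENNReal.ofReal (β k * (F k).card * e) :=
              ENNReal.ofReal_le_ofReal (mul_le_mul_of_nonneg_right (hc k) he0.le)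
          _ = ENNReal.ofReal (β k) *
              ∑ _i ∈ Finset.univ.filter (fun i : Λ => (i : Fin d → ℤ) ∈ F k),
                ENNReal.ofReal e := by
              rw [Finset.sum_const, ← hcard, nsmul_eq_mul, mul_assoc,
                ENNReal.ofReal_mul (hβ k).1.le, ENNReal.ofReal_mul (Nat.cast_nonneg _),
                ENNReal.ofReal_natCast]
          _ ≤ _ := by
              refine mul_le_mul' le_rfl (Finset.sum_le_sum fun i hi => ?_)
              exact h1 k i (Finset.mem_filter.1 hi).2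

end H10PL
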