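import Pool.Agent.H10R2.PL.Defs

/-!
Task TRIAL: from the finite matrix to the lattice (helper273 for helper10, MP_1906c1_mp).
-/

namespace H10PL

open MeasureTheory ProbabilityTheory Matrix Set

section minkowski

variable {α : Type*}

/-- Minkowski inequality in `l2`. -/
theorem trial_l2_add_le {a c : α → ℝ} (ha : Summable fun y => a y ^ 2) (hc : Summable fun y => c y ^ 2) :
    Summable (fun y => (a y + c y) ^ 2) ∧
      Real.sqrt (∑' y, (a y + c y) ^ 2) ≤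
        Real.sqrt (∑' y, a y ^ 2) + Real.sqrt (∑' y, c y ^ 2) := by
  have hb : ∀ F : Finset α, ∑ y ∈ F, (a y + c y) ^ 2 ≤
      (Real.sqrt (∑' y, a y ^ 2) + Real.sqrt (∑' y, c y ^ 2)) ^ 2 := by
    intro F
    have h1 : ∑ y ∈ F, a y ^ 2 ≤ ∑' y, a y ^ 2 :=
      ha.sum_le_tsum F (fun y _ => sq_nonneg _)
    have h2 : ∑ y ∈ F, c y ^ 2 ≤ ∑' y, c y ^ 2 :=
      hc.sum_le_tsum F (fun y _ => sq_nonneg _)
    have h3 : ∑ y ∈ F, a y * c y ≤ Real.sqrt (∑ y ∈ F, a y ^ 2) * Real.sqrt (∑ y ∈ F, c y ^ 2) :=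
      Real.sum_mul_le_sqrt_mul_sqrt F a c
    have h4 : Real.sqrt (∑ y ∈ F, a y ^ 2) * Real.sqrt (∑ y ∈ F, c y ^ 2) ≤
        Real.sqrt (∑' y, a y ^ 2) * Real.sqrt (∑' y, c y ^ 2) :=
      mul_le_mul (Real.sqrt_le_sqrt h1) (Real.sqrt_le_sqrt h2) (Real.sqrt_nonneg _)
        (Real.sqrt_nonneg _)
    have h5 : 0 ≤ ∑' y, a y ^ 2 := tsum_nonneg fun y => sq_nonneg _
    have h6 : 0 ≤ ∑' y, c y ^ 2 := tsum_nonneg fun y => sq_nonneg _
    have h7 : ∑ y ∈ F, (a y + c y) ^ 2 =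
        ∑ y ∈ F, a y ^ 2 + 2 * ∑ y ∈ F, a y * c y + ∑ y ∈ F, c y ^ 2 := by
      rw [Finset.mul_sum, ← Finset.sum_add_distrib, ← Finset.sum_add_distrib]
      exact Finset.sum_congr rfl fun y _ => by ring
    have h8 := Real.sq_sqrt h5
    have h9 := Real.sq_sqrt h6
    nlinarith [h1, h2, h3, h4, h7, h8, h9]
  have hs : Summable (fun y => (a y + c y) ^ 2) :=
    summable_of_sum_le (fun y => sq_nonneg _) hb
  refine ⟨hs, ?_⟩
  have h1 : ∑' y, (a y + c y) ^ 2 ≤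
      (Real.sqrt (∑' y, a y ^ 2) + Real.sqrt (∑' y, c y ^ 2)) ^ 2 :=
    hs.tsum_le_of_sum_le hb
  calc Real.sqrt (∑' y, (a y + c y) ^ 2) ≤
      Real.sqrt ((Real.sqrt (∑' y, a y ^ 2) + Real.sqrt (∑' y, c y ^ 2)) ^ 2) :=
        Real.sqrt_le_sqrt h1
    _ = _ := Real.sqrt_sq (add_nonneg (Real.sqrt_nonneg _) (Real.sqrt_nonneg _))

/-- Schur test for a finite symmetric kernel. -/
theorem trial_schur_test [DecidableEq α] (Λ : Finset α) (k : α → α → ℝ) (hk : ∀ y w, |k y w| = |k w y|)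
    {T q : ℝ} (hT0 : 0 ≤ T) (hq : 0 ≤ q) (hT : ∀ y, ∑ w ∈ Λ, |k y w| ≤ T)
    (D : α → α → ℝ) (hD : ∀ y w, |D y w| ≤ q * |k y w|) (u : α → ℝ) :
    Real.sqrt (∑ y ∈ Λ, (∑ w ∈ Λ, D y w * u w) ^ 2) ≤ q * T * Real.sqrt (∑ y ∈ Λ, u y ^ 2) := by
  have h1 : ∀ y, (∑ w ∈ Λ, D y w * u w) ^ 2 ≤ q ^ 2 * (T * ∑ w ∈ Λ, |k y w| * u w ^ 2) := by
    intro y
    have ha : |∑ w ∈ Λ, D y w * u w| ≤ q * ∑ w ∈ Λ, |k y w| * |u w| := by
      calc |∑ w ∈ Λ, D y w * u w| ≤ ∑ w ∈ Λ, |D y w * u w| := Finset.abs_sum_le_sum_abs _ _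
        _ ≤ ∑ w ∈ Λ, q * (|k y w| * |u w|) := by
            refine Finset.sum_le_sum fun w _ => ?_
            rw [abs_mul, ← mul_assoc]
            exact mul_le_mul_of_nonneg_right (hD y w) (abs_nonneg _)
        _ = _ := by rw [Finset.mul_sum]
    have hb : (∑ w ∈ Λ, |k y w| * |u w|) ^ 2 ≤
        (∑ w ∈ Λ, |k y w|) * ∑ w ∈ Λ, |k y w| * u w ^ 2 := by
      have := Finset.sum_sq_le_sum_mul_sum_of_sq_le_mul Λ (r := fun w => |k y w| * |u w|)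
        (f := fun w => |k y w|) (g := fun w => |k y w| * u w ^ 2)
        (fun w _ => abs_nonneg _) (fun w _ => mul_nonneg (abs_nonneg _) (sq_nonneg _))
        (fun w _ => le_of_eq (by rw [mul_pow, sq_abs (u w)]; ring))
      exact this
    have hc : (∑ w ∈ Λ, |k y w|) * ∑ w ∈ Λ, |k y w| * u w ^ 2 ≤
        T * ∑ w ∈ Λ, |k y w| * u w ^ 2 :=
      mul_le_mul_of_nonneg_right (hT y)
        (Finset.sum_nonneg fun w _ => mul_nonneg (abs_nonneg _) (sq_nonneg _))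
    have hd : (∑ w ∈ Λ, D y w * u w) ^ 2 ≤ (q * ∑ w ∈ Λ, |k y w| * |u w|) ^ 2 := by
      rw [← sq_abs]
      exact pow_le_pow_left₀ (abs_nonneg _) ha 2
    calc (∑ w ∈ Λ, D y w * u w) ^ 2 ≤ (q * ∑ w ∈ Λ, |k y w| * |u w|) ^ 2 := hd
      _ = q ^ 2 * (∑ w ∈ Λ, |k y w| * |u w|) ^ 2 := by ring
      _ ≤ q ^ 2 * (T * ∑ w ∈ Λ, |k y w| * u w ^ 2) :=
          mul_le_mul_of_nonneg_left (hb.trans hc) (sq_nonneg _)
  have h2 : ∑ y ∈ Λ, (∑ w ∈ Λ, D y w * u w) ^ 2 ≤ (q * T) ^ 2 * ∑ y ∈ Λ, u y ^ 2 := by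
    calc ∑ y ∈ Λ, (∑ w ∈ Λ, D y w * u w) ^ 2
        ≤ ∑ y ∈ Λ, q ^ 2 * (T * ∑ w ∈ Λ, |k y w| * u w ^ 2) := Finset.sum_le_sum fun y _ => h1 y
      _ = q ^ 2 * T * ∑ w ∈ Λ, ∑ y ∈ Λ, |k y w| * u w ^ 2 := by
          rw [← Finset.mul_sum, ← Finset.mul_sum, Finset.sum_comm]; ring
      _ ≤ q ^ 2 * T * ∑ w ∈ Λ, T * u w ^ 2 := by
          refine mul_le_mul_of_nonneg_left (Finset.sum_le_sum fun w _ => ?_)
            (mul_nonneg (sq_nonneg _) hT0)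
          rw [← Finset.sum_mul]
          refine mul_le_mul_of_nonneg_right ?_ (sq_nonneg _)
          calc ∑ y ∈ Λ, |k y w| = ∑ y ∈ Λ, |k w y| := Finset.sum_congr rfl fun y _ => hk y w
            _ ≤ T := hT w
      _ = (q * T) ^ 2 * ∑ y ∈ Λ, u y ^ 2 := by rw [← Finset.mul_sum]; ring
  calc Real.sqrt (∑ y ∈ Λ, (∑ w ∈ Λ, D y w * u w) ^ 2)
      ≤ Real.sqrt ((q * T) ^ 2 * ∑ y ∈ Λ, u y ^ 2) := Real.sqrt_le_sqrt h2
    _ = q * T * Real.sqrt (∑ y ∈ Λ, u y ^ 2) := by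
        rw [Real.sqrt_mul (sq_nonneg _), Real.sqrt_sq (mul_nonneg hq hT0)]

end minkowski

section lattice

variable {d : ℕ} {T0 : (Fin d → ℤ) → (Fin d → ℤ) → ℝ} {κ : (Fin d → ℤ) → ℝ} {ρ0 b : ℝ}

theorem trial_Kf_symm (h : Adm T0 κ ρ0 b) (s : Sym2 (Fin d → ℤ) → Bool) (y w : Fin d → ℤ) :
    Kf T0 κ s y w = Kf T0 κ s w y := by
  unfold Kf
  have h1 : κ (y - w) = κ (w - y) := by rw [← h.κsymm (y - w), neg_sub]
  rw [h.T0symm y w, Sym2.eq_swap, h1]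

theorem trial_Kr_symm (h : Adm T0 κ ρ0 b) (ρ : ℝ) (s : Sym2 (Fin d → ℤ) → Bool) (y w : Fin d → ℤ) :
    Kr T0 κ ρ s y w = Kr T0 κ ρ s w y := by
  unfold Kr
  rw [trial_Kf_symm h s y w, norm_sub_rev]

theorem trial_sg_sq (c : Bool) : sg c ^ 2 = 1 := by
  unfold sg; split <;> norm_num

theorem trial_long_sq_summable (h : Adm T0 κ ρ0 b) {ρ : ℝ} (hρ : ρ0 ≤ ρ) (s : Sym2 (Fin d → ℤ) → Bool)
    (Λ : Finset (Fin d → ℤ)) (f : (Fin d → ℤ) → ℝ) :
    Summable fun y => (∑ w ∈ Λ, (Kf T0 κ s y w - Kr T0 κ ρ s y w) * f w) ^ 2 := by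
  have h1 : ∀ y w, (Kf T0 κ s y w - Kr T0 κ ρ s y w) ^ 2 ≤ κ (y - w) ^ 2 := by
    intro y w
    unfold Kr
    split_ifs with hc
    · rw [sub_self, zero_pow two_ne_zero]; positivity
    · have : T0 y w = 0 := h.T0range y w (lt_of_le_of_lt hρ (not_le.mp hc))
      unfold Kf
      rw [this, sub_zero, zero_add, mul_pow, trial_sg_sq, one_mul]
  have h2 : ∀ w, Summable fun y => κ (y - w) ^ 2 := by
    intro w
    exact (Equiv.subRight w).summable_iff.mpr h.κsq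
  have h3 : Summable fun y => (∑ w ∈ Λ, κ (y - w) ^ 2) * ∑ w ∈ Λ, f w ^ 2 :=
    (summable_sum fun w _ => h2 w).mul_right _
  refine Summable.of_nonneg_of_le (fun y => sq_nonneg _) (fun y => ?_) h3
  refine (Finset.sum_mul_sq_le_sq_mul_sq Λ _ _).trans ?_
  refine mul_le_mul_of_nonneg_right (Finset.sum_le_sum fun w _ => h1 y w)
    (Finset.sum_nonneg fun w _ => sq_nonneg _)

theorem trial_lattice (h : Adm T0 κ ρ0 b) (s : Sym2 (Fin d → ℤ) → Bool)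
    (V : (Fin d → ℤ) → ℝ) (E : ℝ) (x : Fin d → ℤ) {ρ r T : ℝ} (hρ : ρ0 ≤ ρ) (hρ0 : 0 ≤ ρ)
    (hr : 0 < r) (Λ : Finset (Fin d → ℤ)) (hΛ : ∀ y, ‖y - x‖ ≤ r + ρ → y ∈ Λ)
    (u : (Fin d → ℤ) → ℝ) (f : (Fin d → ℤ) →₀ ℝ)
    (hf : ∀ y, f y = if y ∈ Λ then max 0 (1 - ‖y - x‖ / r) * u y else 0)
    (hT0 : 0 ≤ T) (hT : ∀ y, ∑ w ∈ Λ, |Kr T0 κ ρ s y w| ≤ T) :
    Summable (fun y => (appl T0 κ s V E f y) ^ 2) ∧
    Real.sqrt (∑' y, (appl T0 κ s V E f y) ^ 2) ≤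
      Real.sqrt (∑ y ∈ Λ, ((∑ w ∈ Λ, Kr T0 κ ρ s y w * u w) + (V y - E) * u y) ^ 2) +
      (ρ / r) * T * Real.sqrt (∑ y ∈ Λ, u y ^ 2) +
      Real.sqrt (∑' y, (∑ w ∈ Λ, (Kf T0 κ s y w - Kr T0 κ ρ s y w) * f w) ^ 2) := by
  classical
  set χ : (Fin d → ℤ) → ℝ := fun y => max 0 (1 - ‖y - x‖ / r) with hχ
  have hχ0 : ∀ y, 0 ≤ χ y := fun y => le_max_left _ _
  have hχ1 : ∀ y, χ y ≤ 1 := fun y => max_le zero_le_one (by
    have : 0 ≤ ‖y - x‖ / r := div_nonneg (norm_nonneg _) hr.le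
    linarith)
  have hχl : ∀ y w, |χ w - χ y| ≤ ‖y - w‖ / r := by
    intro y w
    have h1 : |χ w - χ y| ≤ |(1 - ‖w - x‖ / r) - (1 - ‖y - x‖ / r)| := by
      have := abs_max_sub_max_le_abs (1 - ‖w - x‖ / r) (1 - ‖y - x‖ / r) 0
      simpa [hχ, max_comm] using this
    have h2 : (1 - ‖w - x‖ / r) - (1 - ‖y - x‖ / r) = (‖y - x‖ - ‖w - x‖) / r := by ring
    rw [h2, abs_div, abs_of_pos hr] at h1
    refine h1.trans ?_
    refine div_le_div_of_nonneg_right ?_ hr.le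
    have := abs_norm_sub_norm_le (y - x) (w - x)
    simpa using this
  -- the sum over the support is the sum over Λ
  have hsupp : f.support ⊆ Λ := by
    intro y hy
    by_contra hn
    have := hf y
    rw [if_neg hn] at this
    exact (Finsupp.mem_support_iff.mp hy) this
  have hsum : ∀ y, ∑ w ∈ f.support, Kf T0 κ s y w * f w = ∑ w ∈ Λ, Kf T0 κ s y w * f w := by
    intro y
    refine Finset.sum_subset hsupp fun w _ hw => ?_
    rw [Finsupp.notMem_support_iff.mp hw, mul_zero]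
  set A : (Fin d → ℤ) → ℝ := fun y => if y ∈ Λ then
    χ y * ((∑ w ∈ Λ, Kr T0 κ ρ s y w * u w) + (V y - E) * u y) else 0 with hA
  set B : (Fin d → ℤ) → ℝ := fun y => if y ∈ Λ then
    ∑ w ∈ Λ, (Kr T0 κ ρ s y w * (χ w - χ y)) * u w else 0 with hB
  set C : (Fin d → ℤ) → ℝ := fun y =>
    ∑ w ∈ Λ, (Kf T0 κ s y w - Kr T0 κ ρ s y w) * f w with hC
  have hdec : ∀ y, appl T0 κ s V E f y = (A y + B y) + C y := by
    intro y
    unfold appl
    rw [hsum y]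
    have h1 : ∑ w ∈ Λ, Kf T0 κ s y w * f w = ∑ w ∈ Λ, Kr T0 κ ρ s y w * f w + C y := by
      rw [hC, ← Finset.sum_add_distrib]
      exact Finset.sum_congr rfl fun w _ => by ring
    rw [h1]
    by_cases hy : y ∈ Λ
    · have h2 : ∑ w ∈ Λ, Kr T0 κ ρ s y w * f w =
          χ y * (∑ w ∈ Λ, Kr T0 κ ρ s y w * u w) + B y := by
        simp only [hB, if_pos hy]
        rw [Finset.mul_sum, ← Finset.sum_add_distrib]
        refine Finset.sum_congr rfl fun w hw => ?_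
        rw [hf w, if_pos hw]
        simp only [hχ]
        ring
      rw [h2, hf y, if_pos hy]
      simp only [hA, if_pos hy]
      simp only [hχ]
      ring
    · have h2 : ∑ w ∈ Λ, Kr T0 κ ρ s y w * f w = 0 := by
        refine Finset.sum_eq_zero fun w hw => ?_
        by_contra hne
        have h3 : Kr T0 κ ρ s y w ≠ 0 := left_ne_zero_of_mul hne
        have h4 : f w ≠ 0 := right_ne_zero_of_mul hne
        have h5 : ‖y - w‖ ≤ ρ := by
          by_contra hn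
          exact h3 (by unfold Kr; rw [if_neg hn])
        have h6 : ‖w - x‖ ≤ r := by
          by_contra hn
          refine h4 ?_
          rw [hf w, if_pos hw]
          have : max 0 (1 - ‖w - x‖ / r) = 0 := by
            refine max_eq_left ?_
            have : 1 ≤ ‖w - x‖ / r := by
              rw [le_div_iff₀ hr]; linarith [not_le.mp hn]
            linarith
          rw [this, zero_mul]
        refine hy (hΛ y ?_)
        calc ‖y - x‖ = ‖(y - w) + (w - x)‖ := by congr 1; abel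
          _ ≤ ‖y - w‖ + ‖w - x‖ := norm_add_le _ _
          _ ≤ r + ρ := by linarith
      rw [h2, hf y, if_neg hy]
      simp only [hA, hB, if_neg hy]
      ring
  have hAs : Summable fun y => A y ^ 2 := by
    refine summable_of_ne_finset_zero (s := Λ) fun y hy => ?_
    simp only [hA, if_neg hy]; norm_num
  have hBs : Summable fun y => B y ^ 2 := by
    refine summable_of_ne_finset_zero (s := Λ) fun y hy => ?_
    simp only [hB, if_neg hy]; norm_num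
  have hCs : Summable fun y => C y ^ 2 := trial_long_sq_summable h hρ s Λ f
  have hAB := trial_l2_add_le hAs hBs
  have hABC := trial_l2_add_le hAB.1 hCs
  have hfun : (fun y => (appl T0 κ s V E f y) ^ 2) = fun y => ((A y + B y) + C y) ^ 2 := by
    funext y; rw [hdec y]
  rw [hfun]
  refine ⟨hABC.1, ?_⟩
  have hA2 : Real.sqrt (∑' y, A y ^ 2) ≤
      Real.sqrt (∑ y ∈ Λ, ((∑ w ∈ Λ, Kr T0 κ ρ s y w * u w) + (V y - E) * u y) ^ 2) := by
    refine Real.sqrt_le_sqrt ?_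
    rw [tsum_eq_sum (s := Λ) (fun y hy => by simp only [hA, if_neg hy]; norm_num)]
    refine Finset.sum_le_sum fun y hy => ?_
    simp only [hA, if_pos hy]
    rw [mul_pow]
    refine mul_le_of_le_one_left (sq_nonneg _) ?_
    exact pow_le_one₀ (hχ0 y) (hχ1 y)
  have hB2 : Real.sqrt (∑' y, B y ^ 2) ≤ (ρ / r) * T * Real.sqrt (∑ y ∈ Λ, u y ^ 2) := by
    rw [tsum_eq_sum (s := Λ) (fun y hy => by simp only [hB, if_neg hy]; norm_num)]
    have h1 : ∑ y ∈ Λ, B y ^ 2 =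
        ∑ y ∈ Λ, (∑ w ∈ Λ, (Kr T0 κ ρ s y w * (χ w - χ y)) * u w) ^ 2 := by
      refine Finset.sum_congr rfl fun y hy => ?_
      simp only [hB, if_pos hy]
    rw [h1]
    refine trial_schur_test Λ (fun y w => Kr T0 κ ρ s y w) (fun y w => by
      rw [trial_Kr_symm h ρ s y w]) hT0 (div_nonneg hρ0 hr.le) hT _ ?_ u
    intro y w
    rw [abs_mul, mul_comm (ρ / r)]
    by_cases hc : ‖y - w‖ ≤ ρ
    · refine mul_le_mul_of_nonneg_left ?_ (abs_nonneg _)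
      exact (hχl y w).trans (div_le_div_of_nonneg_right hc hr.le)
    · have : Kr T0 κ ρ s y w = 0 := by unfold Kr; rw [if_neg hc]
      rw [this]; simp
  calc Real.sqrt (∑' y, (A y + B y + C y) ^ 2)
      ≤ Real.sqrt (∑' y, (A y + B y) ^ 2) + Real.sqrt (∑' y, C y ^ 2) := hABC.2
    _ ≤ (Real.sqrt (∑' y, A y ^ 2) + Real.sqrt (∑' y, B y ^ 2)) + Real.sqrt (∑' y, C y ^ 2) := by
        gcongr; exact hAB.2
    _ ≤ _ := by gcongr

end lattice

end H10PL
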