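import Pool.Agent.H10R2.PL.Res
import Pool.Agent.H10R2.PL.Trial

namespace H10PL

open MeasureTheory ProbabilityTheory Matrix Set

variable {d : ℕ} {T0 : (Fin d → ℤ) → (Fin d → ℤ) → ℝ} {κ : (Fin d → ℤ) → ℝ} {ρ0 b : ℝ}

/-- finite volume matrix -/
noncomputable def Am (T0 : (Fin d → ℤ) → (Fin d → ℤ) → ℝ) (κ : (Fin d → ℤ) → ℝ) (ρ : ℝ)
    (Λ : Finset (Fin d → ℤ)) (s : Sym2 (Fin d → ℤ) → Bool) : Matrix Λ Λ ℝ :=
  fun i j => Kr T0 κ ρ s i j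

/-- trial vector before cut-off -/
noncomputable def uf (T0 : (Fin d → ℤ) → (Fin d → ℤ) → ℝ) (κ : (Fin d → ℤ) → ℝ) (ρ η : ℝ)
    (Λ : Finset (Fin d → ℤ)) (x : Fin d → ℤ) (hx : x ∈ Λ) (s : Sym2 (Fin d → ℤ) → Bool)
    (V : (Fin d → ℤ) → ℝ) (E : ℝ) (y : Fin d → ℤ) : ℝ :=
  if hy : y ∈ Λ then Pm (Am T0 κ ρ Λ s) (fun i : Λ => V i) E η ⟨y, hy⟩ ⟨x, hx⟩ else 0

/-- trial vector -/
noncomputable def ff (T0 : (Fin d → ℤ) → (Fin d → ℤ) → ℝ) (κ : (Fin d → ℤ) → ℝ) (ρ η r : ℝ)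
    (Λ : Finset (Fin d → ℤ)) (x : Fin d → ℤ) (hx : x ∈ Λ) (s : Sym2 (Fin d → ℤ) → Bool)
    (V : (Fin d → ℤ) → ℝ) (E : ℝ) (y : Fin d → ℤ) : ℝ :=
  if y ∈ Λ then max 0 (1 - ‖y - x‖ / r) * uf T0 κ ρ η Λ x hx s V E y else 0

theorem Kr_symm (h : Adm T0 κ ρ0 b) (ρ : ℝ) (s : Sym2 (Fin d → ℤ) → Bool) (y w : Fin d → ℤ) :
    Kr T0 κ ρ s y w = Kr T0 κ ρ s w y := by
  unfold Kr Kf
  rw [norm_sub_rev y w, h.T0symm y w, Sym2.eq_swap, ← h.κsymm (y - w), neg_sub]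

theorem Am_symm (h : Adm T0 κ ρ0 b) (ρ : ℝ) (Λ : Finset (Fin d → ℤ))
    (s : Sym2 (Fin d → ℤ) → Bool) : (Am T0 κ ρ Λ s).IsSymm := by
  ext i j
  exact Kr_symm h ρ s j i

theorem Am_diag (h : Adm T0 κ ρ0 b) (ρ : ℝ) (Λ : Finset (Fin d → ℤ))
    (s : Sym2 (Fin d → ℤ) → Bool) (i : Λ) : Am T0 κ ρ Λ s i i = 0 := by
  unfold Am Kr Kf
  simp [h.T0diag, h.κ0]

theorem infN_of (h : Adm T0 κ ρ0 b) (s : Sym2 (Fin d → ℤ) → Bool)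
    (V : (Fin d → ℤ) → ℝ) (E : ℝ) (x : Fin d → ℤ) {ρ r T η M M' : ℝ} (hρ : ρ0 ≤ ρ) (hρ0 : 0 ≤ ρ)
    (hr : 0 < r) (hη : 0 < η) (Λ : Finset (Fin d → ℤ)) (hΛ : ∀ y, ‖y - x‖ ≤ r + ρ → y ∈ Λ)
    (hx : x ∈ Λ) (hT0 : 0 ≤ T) (hT : ∀ y, ∑ w ∈ Λ, |Kr T0 κ ρ s y w| ≤ T)
    (hM : M ≤ M') (hM' : 0 < M')
    (c1 : 4 * M' * η ≤ Pm (Am T0 κ ρ Λ s) (fun i : Λ => V i) E η ⟨x, hx⟩ ⟨x, hx⟩)
    (c2 : (ρ / r) * T * (1 / η) ≤ η * Real.sqrt M' / 2)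
    (c3 : ∑' y, (∑ w ∈ Λ, (Kf T0 κ s y w - Kr T0 κ ρ s y w) * ff T0 κ ρ η r Λ x hx s V E w) ^ 2 ≤
      (η * Real.sqrt M' / 2) ^ 2) :
    InfN T0 κ s V E x M := by
  classical
  set P := Pm (Am T0 κ ρ Λ s) (fun i : Λ => V i) E η with hP
  set X : Λ := ⟨x, hx⟩ with hX
  set g := ff T0 κ ρ η r Λ x hx s V E with hg
  have hg0 : ∀ y, y ∉ Λ → g y = 0 := by
    intro y hy
    simp [hg, ff, hy]
  let f : (Fin d → ℤ) →₀ ℝ := Finsupp.onFinset Λ g (fun y hy => by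
    by_contra hc
    exact hy (hg0 y hc))
  have hfg : ∀ y, f y = g y := fun y => rfl
  set u := uf T0 κ ρ η Λ x hx s V E with hu
  have huΛ : ∀ i : Λ, u i = P i X := by
    intro i
    simp [hu, uf, hP, hX]
  have hf : ∀ y, f y = if y ∈ Λ then max 0 (1 - ‖y - x‖ / r) * u y else 0 := by
    intro y
    rw [hfg]
    simp only [hg, ff, hu]
  obtain ⟨hs, hle⟩ := trial_lattice h s V E x hρ hρ0 hr Λ hΛ u f hf hT0 hT
  refine ⟨f, hs, ?_⟩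
  have hPpos : 0 < P X X := Pm_diag_pos _ (Am_symm h ρ Λ s) _ _ hη _
  -- first term
  have t1 : ∑ y ∈ Λ, ((∑ w ∈ Λ, Kr T0 κ ρ s y w * u w) + (V y - E) * u y) ^ 2 ≤ η * P X X := by
    have := trial_res (Am T0 κ ρ Λ s) (Am_symm h ρ Λ s) (fun i : Λ => V i) E hη X
    refine le_trans (le_of_eq ?_) this
    rw [← Finset.sum_coe_sort Λ]
    refine Finset.sum_congr rfl fun i _ => ?_
    rw [← Finset.sum_coe_sort Λ]
    simp only [huΛ]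
    rfl
  have t2 : ∑ y ∈ Λ, u y ^ 2 ≤ (1 / η) ^ 2 := by
    have := trial_norm (Am T0 κ ρ Λ s) (Am_symm h ρ Λ s) (fun i : Λ => V i) E hη X
    rw [_root_.one_div_pow]
    refine le_trans (le_of_eq ?_) this
    rw [← Finset.sum_coe_sort Λ]
    refine Finset.sum_congr rfl fun i _ => ?_
    rw [huΛ]
  have t3 : ∑' y, (∑ w ∈ Λ, (Kf T0 κ s y w - Kr T0 κ ρ s y w) * f w) ^ 2 ≤
      (η * Real.sqrt M' / 2) ^ 2 := c3
  have hsM : 0 ≤ Real.sqrt M' := Real.sqrt_nonneg _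
  have s1 := Real.sqrt_le_sqrt t1
  have s2 : Real.sqrt (∑ y ∈ Λ, u y ^ 2) ≤ 1 / η := by
    rw [← Real.sqrt_sq (show 0 ≤ 1 / η by positivity)]
    exact Real.sqrt_le_sqrt t2
  have s3 : Real.sqrt (∑' y, (∑ w ∈ Λ, (Kf T0 κ s y w - Kr T0 κ ρ s y w) * f w) ^ 2) ≤
      η * Real.sqrt M' / 2 := by
    rw [← Real.sqrt_sq (show 0 ≤ η * Real.sqrt M' / 2 by positivity)]
    exact Real.sqrt_le_sqrt t3
  set N := ∑' y, (appl T0 κ s V E f y) ^ 2 with hN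
  have hN0 : 0 ≤ N := tsum_nonneg fun y => sq_nonneg _
  have c2' : (ρ / r) * T * Real.sqrt (∑ y ∈ Λ, u y ^ 2) ≤ η * Real.sqrt M' / 2 := by
    refine le_trans ?_ c2
    exact mul_le_mul_of_nonneg_left s2 (by positivity)
  have hmain : Real.sqrt N ≤ Real.sqrt (η * P X X) + η * Real.sqrt M' := by
    linarith
  have hsq : η * Real.sqrt M' ≤ Real.sqrt (η * P X X) / 2 := by
    have h4 : (2 * (η * Real.sqrt M')) ^ 2 ≤ η * P X X := by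
      have : (2 * (η * Real.sqrt M')) ^ 2 = 4 * M' * η * η := by
        rw [mul_pow, mul_pow, Real.sq_sqrt hM'.le]; ring
      rw [this, mul_comm η (P X X)]
      exact mul_le_mul_of_nonneg_right c1 hη.le
    have := Real.sqrt_le_sqrt h4
    rw [Real.sqrt_sq (by positivity)] at this
    linarith
  have h5 : Real.sqrt N ≤ 3 / 2 * Real.sqrt (η * P X X) := by linarith
  have h6 : N ≤ 9 / 4 * (η * P X X) := by
    have h7 : Real.sqrt N ^ 2 ≤ (3 / 2 * Real.sqrt (η * P X X)) ^ 2 :=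
      pow_le_pow_left₀ (Real.sqrt_nonneg _) h5 2
    rw [Real.sq_sqrt hN0, mul_pow, Real.sq_sqrt (by positivity)] at h7
    linarith
  have hfx : f x = P X X := by
    rw [hf x, if_pos hx]
    have := huΛ X
    simp only [hX] at this
    rw [this]
    simp [hX]
  rw [hfx]
  calc M * N ≤ M' * N := mul_le_mul_of_nonneg_right hM hN0
    _ ≤ M' * (9 / 4 * (η * P X X)) := mul_le_mul_of_nonneg_left h6 hM'.le
    _ = 9 / 16 * (4 * M' * η) * P X X := by ring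
    _ ≤ 9 / 16 * P X X * P X X := by
        refine mul_le_mul_of_nonneg_right ?_ hPpos.le
        exact mul_le_mul_of_nonneg_left c1 (by norm_num)
    _ < P X X ^ 2 := by nlinarith [mul_pos hPpos hPpos]

end H10PL
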