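import Pool.Agent.H10R2.PL.Prob

/-! # Task LONG : expected size of the long range part of the hopping -/

namespace H10PL

open MeasureTheory ProbabilityTheory Matrix Set

section lattice

variable {d : ℕ} {T0 : (Fin d → ℤ) → (Fin d → ℤ) → ℝ} {κ : (Fin d → ℤ) → ℝ} {ρ0 b : ℝ}

theorem long_sg_sq (b : Bool) : sg b ^ 2 = 1 := by cases b <;> simp [sg]

theorem long_sg_not (b : Bool) : sg (!b) = - sg b := by cases b <;> simp [sg]

theorem long_sg_abs (b : Bool) : |sg b| = 1 := by cases b <;> simp [sg]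

theorem long_diff (h : Adm T0 κ ρ0 b) {ρ : ℝ} (hρ : ρ0 ≤ ρ) (s : Sym2 (Fin d → ℤ) → Bool)
    (y w : Fin d → ℤ) : Kf T0 κ s y w - Kr T0 κ ρ s y w
      = sg (s s(y, w)) * (if ρ < ‖y - w‖ then κ (y - w) else 0) := by
  unfold Kr
  by_cases hh : ‖y - w‖ ≤ ρ
  · rw [if_pos hh, if_neg (not_lt.mpr hh)]
    simp
  · rw [if_neg hh, if_pos (not_le.mp hh)]
    unfold Kf
    rw [h.T0range y w (lt_of_le_of_lt hρ (not_le.mp hh))]
    ring

theorem long_int_zero (e : Sym2 (Fin d → ℤ)) (F : (Sym2 (Fin d → ℤ) → Bool) → ℝ)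
    (hF : Measurable F)
    (hflip : ∀ s : Sym2 (Fin d → ℤ) → Bool, F (Function.update s e (!(s e))) = - F s) :
    ∫ s, F s ∂(Ps d) = 0 := by
  classical
  have hmp := flip_mp ({e} : Set (Sym2 (Fin d → ℤ)))
  have h1 : ∫ s, F s ∂(Ps d) = ∫ s, F (flipS {e} s) ∂(Ps d) := by
    conv_lhs => rw [← hmp.map_eq]
    rw [integral_map hmp.measurable.aemeasurable hF.aestronglyMeasurable]
  have h2 : ∀ s, F (flipS {e} s) = - F s := by
    intro s
    rw [← hflip]
    congr 1
    funext e'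
    unfold flipS
    by_cases he : e' = e
    · subst he
      simp
    · simp [he]
  simp_rw [h2, integral_neg] at h1
  linarith

theorem long_orth {Ω ι : Type*} [MeasurableSpace Ω] (μ : Measure Ω)
    [IsProbabilityMeasure μ] (Λ : Finset ι) (X : ι → Ω → ℝ) (hX : ∀ i ∈ Λ, Measurable (X i))
    (C : ℝ) (hC : ∀ i ∈ Λ, ∀ ω, |X i ω| ≤ C)
    (h0 : ∀ i ∈ Λ, ∀ j ∈ Λ, i ≠ j → ∫ ω, X i ω * X j ω ∂μ = 0) :
    ∫ ω, (∑ i ∈ Λ, X i ω) ^ 2 ∂μ = ∑ i ∈ Λ, ∫ ω, X i ω ^ 2 ∂μ := by
  have hint : ∀ i ∈ Λ, ∀ j ∈ Λ, Integrable (fun ω => X i ω * X j ω) μ := by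
    intro i hi j hj
    apply Integrable.of_bound ((hX i hi).mul (hX j hj)).aestronglyMeasurable (C * C)
    filter_upwards with ω
    rw [Real.norm_eq_abs, Pi.mul_apply, abs_mul]
    exact mul_le_mul (hC i hi ω) (hC j hj ω) (abs_nonneg _) ((abs_nonneg _).trans (hC i hi ω))
  have h1 : ∀ ω, (∑ i ∈ Λ, X i ω) ^ 2 = ∑ i ∈ Λ, ∑ j ∈ Λ, X i ω * X j ω := by
    intro ω
    rw [sq, Finset.sum_mul_sum]
  simp_rw [h1]
  rw [integral_finsetSum _ (fun i hi => integrable_finsetSum _ (fun j hj => hint i hi j hj))]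
  apply Finset.sum_congr rfl
  intro i hi
  rw [integral_finsetSum _ (fun j hj => hint i hi j hj)]
  rw [Finset.sum_eq_single i]
  · congr 1
    funext ω
    ring
  · intro j hj hji
    exact h0 i hi j hj (Ne.symm hji)
  · intro hh
    exact absurd hi hh

theorem long_meas_sg (e : Sym2 (Fin d → ℤ)) :
    Measurable fun s : Sym2 (Fin d → ℤ) → Bool => sg (s e) :=
  (Measurable.of_discrete (f := sg)).comp (measurable_pi_apply e)

/-- expected size of the long range part of the hopping -/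
theorem long_exp (h : Adm T0 κ ρ0 b) {ρ : ℝ} (hρ : ρ0 ≤ ρ) (Λ : Finset (Fin d → ℤ))
    (f : (Sym2 (Fin d → ℤ) → Bool) → (Fin d → ℤ) → ℝ) (hm : ∀ y, Measurable fun s => f s y)
    (hind : ∀ s y w t, ρ < ‖y - w‖ → f (Function.update s s(y, w) t) = f s) {N : ℝ}
    (hN : ∀ s, ∑ y ∈ Λ, f s y ^ 2 ≤ N) :
    ∫⁻ s, (∑' y, ENNReal.ofReal
        ((∑ w ∈ Λ, (Kf T0 κ s y w - Kr T0 κ ρ s y w) * f s w) ^ 2)) ∂(Ps d) ≤
      ENNReal.ofReal ((∑' y : Fin d → ℤ, if ρ < ‖y‖ then κ y ^ 2 else 0) * N) := by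
  -- the long range profile
  set g : (Fin d → ℤ) → (Fin d → ℤ) → ℝ := fun y w => if ρ < ‖y - w‖ then κ (y - w) else 0 with hg
  have hdiff : ∀ (s : Sym2 (Fin d → ℤ) → Bool) (y w : Fin d → ℤ),
      Kf T0 κ s y w - Kr T0 κ ρ s y w = sg (s s(y, w)) * g y w := fun s y w => long_diff h hρ s y w
  have hfb : ∀ w ∈ Λ, ∀ s, |f s w| ≤ 1 + N := by
    intro w hw s
    have h1 : f s w ^ 2 ≤ N := by
      refine le_trans ?_ (hN s)
      exact Finset.single_le_sum (f := fun y => f s y ^ 2) (fun y _ => sq_nonneg _) hw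
    have h2 : |f s w| ^ 2 = f s w ^ 2 := sq_abs _
    nlinarith [sq_nonneg (|f s w| - 1), abs_nonneg (f s w)]
  have hN0 : 0 ≤ N := le_trans (Finset.sum_nonneg (fun y _ => sq_nonneg _)) (hN (fun _ => true))
  -- the terms
  set X : (Fin d → ℤ) → (Fin d → ℤ) → (Sym2 (Fin d → ℤ) → Bool) → ℝ :=
    fun y w s => sg (s s(y, w)) * g y w * f s w with hX
  have hXm : ∀ y w, Measurable (X y w) := fun y w =>
    ((long_meas_sg s(y, w)).mul_const _).mul (hm w)
  have hXb : ∀ y, ∀ w ∈ Λ, ∀ s, |X y w s| ≤ (∑ w' ∈ Λ, |g y w'|) * (1 + N) := by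
    intro y w hw s
    rw [hX]
    simp only
    rw [abs_mul, abs_mul, long_sg_abs, one_mul]
    apply mul_le_mul _ (hfb w hw s) (abs_nonneg _) (Finset.sum_nonneg (fun _ _ => abs_nonneg _))
    exact Finset.single_le_sum (f := fun w' => |g y w'|) (fun _ _ => abs_nonneg _) hw
  have hX0 : ∀ y, ∀ w ∈ Λ, ∀ w' ∈ Λ, w ≠ w' → ∫ s, X y w s * X y w' s ∂(Ps d) = 0 := by
    intro y w hw w' hw' hne
    by_cases hl : ρ < ‖y - w‖
    · apply long_int_zero s(y, w) _ ((hXm y w).mul (hXm y w'))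
      intro s
      have hf := hind s y w (!(s s(y, w))) hl
      have he : s(y, w') ≠ s(y, w) := by
        intro he
        rw [Sym2.congr_right] at he
        exact hne he.symm
      rw [hX]
      simp only [Pi.mul_apply]
      rw [Function.update_self, Function.update_of_ne he, long_sg_not, hf]
      ring
    · have hz : g y w = 0 := by
        rw [hg]
        simp only
        rw [if_neg hl]
      have : ∀ s, X y w s * X y w' s = 0 := by
        intro s
        rw [hX]
        simp only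
        rw [hz]
        ring
      simp_rw [this]
      simp
  have hmain : ∀ y, ∫⁻ s, ENNReal.ofReal
      ((∑ w ∈ Λ, (Kf T0 κ s y w - Kr T0 κ ρ s y w) * f s w) ^ 2) ∂(Ps d)
      = ∑ w ∈ Λ, ENNReal.ofReal (g y w ^ 2) * ENNReal.ofReal (∫ s, f s w ^ 2 ∂(Ps d)) := by
    intro y
    have h1 : ∀ s, (∑ w ∈ Λ, (Kf T0 κ s y w - Kr T0 κ ρ s y w) * f s w) = ∑ w ∈ Λ, X y w s := by
      intro s
      apply Finset.sum_congr rfl
      intro w _
      rw [hdiff]
    simp_rw [h1]
    rw [← ofReal_integral_eq_lintegral_ofReal]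
    · rw [long_orth (Ps d) Λ (X y) (fun w _ => hXm y w) _ (hXb y) (hX0 y)]
      rw [ENNReal.ofReal_sum_of_nonneg (fun w _ => integral_nonneg (fun s => sq_nonneg _))]
      apply Finset.sum_congr rfl
      intro w _
      rw [← ENNReal.ofReal_mul (sq_nonneg _)]
      congr 1
      rw [← integral_const_mul]
      congr 1
      funext s
      rw [hX]
      simp only
      have := long_sg_sq (s s(y, w))
      linear_combination (g y w ^ 2 * f s w ^ 2) * this
    · apply Integrable.of_bound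
        ((Finset.measurable_sum Λ (fun w _ => hXm y w)).pow_const 2).aestronglyMeasurable
        ((∑ w ∈ Λ, (∑ w' ∈ Λ, |g y w'|) * (1 + N)) ^ 2)
      filter_upwards with s
      rw [Real.norm_eq_abs, abs_pow]
      apply pow_le_pow_left₀ (abs_nonneg _)
      exact le_trans (Finset.abs_sum_le_sum_abs _ _) (Finset.sum_le_sum (fun w hw => hXb y w hw s))
    · filter_upwards with s
      exact sq_nonneg _
  have hmeas : ∀ y, Measurable fun s : Sym2 (Fin d → ℤ) → Bool => ENNReal.ofReal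
      ((∑ w ∈ Λ, (Kf T0 κ s y w - Kr T0 κ ρ s y w) * f s w) ^ 2) := by
    intro y
    have h1 : ∀ s, (∑ w ∈ Λ, (Kf T0 κ s y w - Kr T0 κ ρ s y w) * f s w) = ∑ w ∈ Λ, X y w s := by
      intro s
      apply Finset.sum_congr rfl
      intro w _
      rw [hdiff]
    simp_rw [h1]
    exact ENNReal.measurable_ofReal.comp
      ((Finset.measurable_sum Λ (fun w _ => hXm y w)).pow_const 2)
  rw [lintegral_tsum (fun y => (hmeas y).aemeasurable)]
  simp_rw [hmain]
  rw [Summable.tsum_finsetSum (fun w _ => ENNReal.summable)]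
  -- translation
  have hsum : Summable fun y : Fin d → ℤ => if ρ < ‖y‖ then κ y ^ 2 else 0 := by
    apply Summable.of_nonneg_of_le _ _ h.κsq
    · intro y
      split_ifs
      · exact sq_nonneg _
      · exact le_refl _
    · intro y
      split_ifs
      · exact le_refl _
      · exact sq_nonneg _
  have htr : ∀ w, ∑' y, ENNReal.ofReal (g y w ^ 2)
      = ENNReal.ofReal (∑' y : Fin d → ℤ, if ρ < ‖y‖ then κ y ^ 2 else 0) := by
    intro w
    rw [ENNReal.ofReal_tsum_of_nonneg _ hsum]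
    · rw [← (Equiv.subRight w).tsum_eq (fun y : Fin d → ℤ =>
        ENNReal.ofReal (if ρ < ‖y‖ then κ y ^ 2 else 0))]
      congr 1
      funext y
      congr 1
      rw [hg]
      simp only [Equiv.subRight_apply]
      split_ifs
      · rfl
      · ring
    · intro y
      split_ifs
      · exact sq_nonneg _
      · exact le_refl _
  have hT0 : 0 ≤ ∑' y : Fin d → ℤ, (if ρ < ‖y‖ then κ y ^ 2 else 0) := by
    apply tsum_nonneg
    intro y
    split_ifs
    · exact sq_nonneg _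
    · exact le_refl _
  simp_rw [ENNReal.tsum_mul_right, htr]
  rw [← Finset.mul_sum, ← ENNReal.ofReal_sum_of_nonneg
    (fun w _ => integral_nonneg (fun s => sq_nonneg _)), ENNReal.ofReal_mul hT0]
  gcongr
  rw [← integral_finsetSum]
  · calc ∫ s, ∑ w ∈ Λ, f s w ^ 2 ∂(Ps d) ≤ ∫ _, N ∂(Ps d) := by
          apply integral_mono_of_nonneg
          · filter_upwards with s
            exact Finset.sum_nonneg (fun y _ => sq_nonneg _)
          · exact integrable_const _
          · filter_upwards with s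
            exact hN s
      _ = N := by simp
  · intro w hw
    apply Integrable.of_bound ((hm w).pow_const 2).aestronglyMeasurable ((1 + N) ^ 2)
    filter_upwards with s
    rw [Real.norm_eq_abs, abs_pow]
    exact pow_le_pow_left₀ (abs_nonneg _) (hfb w hw s) 2

end lattice

end H10PL
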