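import Pool.Agent.H10R2.PL.AsmC
import Pool.Agent.H10R2.PL.Long

namespace H10PL

open MeasureTheory ProbabilityTheory Matrix Set Filter

variable {d : ℕ} {T0 : (Fin d → ℤ) → (Fin d → ℤ) → ℝ} {κ : (Fin d → ℤ) → ℝ} {ρ0 b : ℝ}

theorem Am_update (ρ : ℝ) (Λ : Finset (Fin d → ℤ)) (s : Sym2 (Fin d → ℤ) → Bool)
    (y w : Fin d → ℤ) (t : Bool) (hyw : ρ < ‖y - w‖) :
    Am T0 κ ρ Λ (Function.update s s(y, w) t) = Am T0 κ ρ Λ s := by
  ext i j
  unfold Am Kr Kf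
  split_ifs with hc
  · have hne : s((i : Fin d → ℤ), (j : Fin d → ℤ)) ≠ s(y, w) := by
      intro he
      rcases Sym2.eq_iff.1 he with ⟨h1, h2⟩ | ⟨h1, h2⟩
      · rw [h1, h2] at hc; linarith
      · rw [h1, h2, norm_sub_rev] at hc; linarith
    rw [Function.update_of_ne hne]
  · rfl

theorem uf_meas (h : Adm T0 κ ρ0 b) (ρ η : ℝ) (Λ : Finset (Fin d → ℤ)) (x : Fin d → ℤ)
    (hx : x ∈ Λ) (y : Fin d → ℤ) :
    Measurable fun q : (ℝ × ((Fin d → ℤ) → ℝ)) × (Sym2 (Fin d → ℤ) → Bool) =>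
      uf T0 κ ρ η Λ x hx q.2 q.1.2 q.1.1 y := by
  unfold uf
  split_ifs with hy
  · have h2 : Measurable fun q : (ℝ × ((Fin d → ℤ) → ℝ)) × (Sym2 (Fin d → ℤ) → Bool) =>
        (((q.1.1, fun i : Λ => q.1.2 i), q.2) : (ℝ × (Λ → ℝ)) × (Sym2 (Fin d → ℤ) → Bool)) := by
      refine Measurable.prodMk (Measurable.prodMk ?_ ?_) measurable_snd
      · exact measurable_fst.comp measurable_fst
      · refine measurable_pi_lambda _ fun i => ?_
        exact (measurable_pi_apply _).comp (measurable_snd.comp measurable_fst)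
    have h1 := Pm_meas (d := d) h ρ η Λ ⟨y, hy⟩ ⟨x, hx⟩
    have h3 := Measurable.comp h1 h2
    simp only [Function.comp_def] at h3
    exact h3
  · exact measurable_const

theorem ff_meas (h : Adm T0 κ ρ0 b) (ρ η r : ℝ) (Λ : Finset (Fin d → ℤ)) (x : Fin d → ℤ)
    (hx : x ∈ Λ) (y : Fin d → ℤ) :
    Measurable fun q : (ℝ × ((Fin d → ℤ) → ℝ)) × (Sym2 (Fin d → ℤ) → Bool) =>
      ff T0 κ ρ η r Λ x hx q.2 q.1.2 q.1.1 y := by
  unfold ff
  split_ifs with hy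
  · exact (uf_meas h ρ η Λ x hx y).const_mul _
  · exact measurable_const

theorem ff_sq (h : Adm T0 κ ρ0 b) {ρ η r : ℝ} (hη : 0 < η) (hr : 0 < r)
    (Λ : Finset (Fin d → ℤ)) (x : Fin d → ℤ)
    (hx : x ∈ Λ) (s : Sym2 (Fin d → ℤ) → Bool) (V : (Fin d → ℤ) → ℝ) (E : ℝ) :
    ∑ y ∈ Λ, ff T0 κ ρ η r Λ x hx s V E y ^ 2 ≤ 1 / η ^ 2 := by
  have h1 := trial_norm (Am T0 κ ρ Λ s) (Am_symm h ρ Λ s) (fun i : Λ => V i) E hη ⟨x, hx⟩
  refine le_trans ?_ h1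
  rw [← Finset.sum_coe_sort Λ]
  refine Finset.sum_le_sum fun i _ => ?_
  unfold ff
  rw [if_pos i.2]
  have h2 : uf T0 κ ρ η Λ x hx s V E i =
      Pm (Am T0 κ ρ Λ s) (fun i : Λ => V i) E η i ⟨x, hx⟩ := by
    unfold uf
    rw [dif_pos i.2]
  rw [h2, mul_pow]
  have h3 : 0 ≤ max 0 (1 - ‖(i : Fin d → ℤ) - x‖ / r) := le_max_left _ _
  have h4 : max 0 (1 - ‖(i : Fin d → ℤ) - x‖ / r) ≤ 1 := by
    refine max_le zero_le_one ?_
    have : 0 ≤ ‖(i : Fin d → ℤ) - x‖ / r := by positivity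
    linarith
  have h5 : max 0 (1 - ‖(i : Fin d → ℤ) - x‖ / r) ^ 2 ≤ 1 := pow_le_one₀ h3 h4
  have h6 := sq_nonneg (Pm (Am T0 κ ρ Λ s) (fun i : Λ => V i) E η i ⟨x, hx⟩)
  nlinarith

/-- the long range residual as an extended nonnegative number -/
noncomputable def Lg (T0 : (Fin d → ℤ) → (Fin d → ℤ) → ℝ) (κ : (Fin d → ℤ) → ℝ) (ρ η r : ℝ)
    (Λ : Finset (Fin d → ℤ)) (x : Fin d → ℤ) (hx : x ∈ Λ)
    (q : (ℝ × ((Fin d → ℤ) → ℝ)) × (Sym2 (Fin d → ℤ) → Bool)) : ENNReal :=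
  ∑' y, ENNReal.ofReal ((∑ w ∈ Λ, (Kf T0 κ q.2 y w - Kr T0 κ ρ q.2 y w) *
    ff T0 κ ρ η r Λ x hx q.2 q.1.2 q.1.1 w) ^ 2)

theorem Lg_meas (h : Adm T0 κ ρ0 b) (ρ η r : ℝ) (Λ : Finset (Fin d → ℤ)) (x : Fin d → ℤ)
    (hx : x ∈ Λ) : Measurable (Lg T0 κ ρ η r Λ x hx) := by
  have hsg : Measurable sg := measurable_of_finite _
  unfold Lg
  refine Measurable.tsum fun y => ?_
  refine ENNReal.measurable_ofReal.comp ?_
  refine Measurable.pow_const ?_ 2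
  refine Finset.measurable_sum _ fun w _ => ?_
  refine Measurable.mul ?_ (ff_meas h ρ η r Λ x hx w)
  have hK : Measurable fun q : (ℝ × ((Fin d → ℤ) → ℝ)) × (Sym2 (Fin d → ℤ) → Bool) =>
      Kf T0 κ q.2 y w := by
    unfold Kf
    refine measurable_const.add (Measurable.mul_const ?_ _)
    exact hsg.comp ((measurable_pi_apply _).comp measurable_snd)
  refine hK.sub ?_
  unfold Kr
  split_ifs
  · exact hK
  · exact measurable_const

theorem long_lattice (h : Adm T0 κ ρ0 b) (v : NNReal) {ρ η r : ℝ} (hρ : ρ0 ≤ ρ) (hη : 0 < η)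
    (hr : 0 < r) (Λ : Finset (Fin d → ℤ)) (x : Fin d → ℤ) (hx : x ∈ Λ) {K c : ℝ} (hK : 0 < K)
    (hc : 0 < c) :
    ((volume.restrict (Icc (-K) K)).prod ((PV d v).prod (Ps d)))
      {p | ¬ (∑' y, (∑ w ∈ Λ, (Kf T0 κ p.2.2 y w - Kr T0 κ ρ p.2.2 y w) *
        ff T0 κ ρ η r Λ x hx p.2.2 p.2.1 p.1 w) ^ 2) ≤ c} ≤
      ENNReal.ofReal (2 * K * ((∑' y : Fin d → ℤ, if ρ < ‖y‖ then κ y ^ 2 else 0) *
        (1 / η ^ 2) / c)) := by
  set μE := (volume.restrict (Icc (-K) K) : Measure ℝ) with hμE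
  set tl := (∑' y : Fin d → ℤ, if ρ < ‖y‖ then κ y ^ 2 else 0) with htl
  have htl0 : 0 ≤ tl := tsum_nonneg fun y => by
    split_ifs
    · exact sq_nonneg _
    · exact le_rfl
  set L := Lg T0 κ ρ η r Λ x hx with hL
  have hLm : Measurable L := Lg_meas h ρ η r Λ x hx
  have hmp1 : MeasurePreserving (MeasurableEquiv.prodAssoc.symm :
      ℝ × (((Fin d → ℤ) → ℝ) × (Sym2 (Fin d → ℤ) → Bool)) → _)
      (μE.prod ((PV d v).prod (Ps d))) ((μE.prod (PV d v)).prod (Ps d)) :=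
    (measurePreserving_prodAssoc μE (PV d v) (Ps d)).symm
  set D : Set ((ℝ × ((Fin d → ℤ) → ℝ)) × (Sym2 (Fin d → ℤ) → Bool)) :=
    {q | ENNReal.ofReal c ≤ L q} with hD
  have hDm : MeasurableSet D := measurableSet_le measurable_const hLm
  have hsub : {p : ℝ × (((Fin d → ℤ) → ℝ) × (Sym2 (Fin d → ℤ) → Bool)) |
      ¬ (∑' y, (∑ w ∈ Λ, (Kf T0 κ p.2.2 y w - Kr T0 κ ρ p.2.2 y w) *
        ff T0 κ ρ η r Λ x hx p.2.2 p.2.1 p.1 w) ^ 2) ≤ c} ⊆
      (MeasurableEquiv.prodAssoc.symm :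
        ℝ × (((Fin d → ℤ) → ℝ) × (Sym2 (Fin d → ℤ) → Bool)) → _) ⁻¹' D := by
    intro p hp
    have hp' := not_le.1 hp
    show ENNReal.ofReal c ≤ L ((p.1, p.2.1), p.2.2)
    have hsum : Summable fun y => (∑ w ∈ Λ, (Kf T0 κ p.2.2 y w - Kr T0 κ ρ p.2.2 y w) *
        ff T0 κ ρ η r Λ x hx p.2.2 p.2.1 p.1 w) ^ 2 := by
      by_contra hns
      rw [tsum_eq_zero_of_not_summable hns] at hp'
      linarith
    have h1 : L ((p.1, p.2.1), p.2.2) = ENNReal.ofReal (∑' y, (∑ w ∈ Λ,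
        (Kf T0 κ p.2.2 y w - Kr T0 κ ρ p.2.2 y w) *
        ff T0 κ ρ η r Λ x hx p.2.2 p.2.1 p.1 w) ^ 2) := by
      rw [ENNReal.ofReal_tsum_of_nonneg (fun y => sq_nonneg _) hsum]
      rfl
    rw [h1]
    exact ENNReal.ofReal_le_ofReal hp'.le
  refine le_trans (measure_mono hsub) ?_
  rw [hmp1.measure_preimage hDm.nullMeasurableSet, Measure.prod_apply hDm]
  have hc' : ENNReal.ofReal c ≠ 0 := by
    simpa using hc
  have hpt : ∀ q : ℝ × ((Fin d → ℤ) → ℝ), (Ps d) (Prod.mk q ⁻¹' D) ≤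
      ENNReal.ofReal (tl * (1 / η ^ 2) / c) := by
    intro q
    have hfm : ∀ y, Measurable fun s : Sym2 (Fin d → ℤ) → Bool =>
        ff T0 κ ρ η r Λ x hx s q.2 q.1 y := by
      intro y
      have h1 := ff_meas (d := d) h ρ η r Λ x hx y
      have h2 : Measurable fun s : Sym2 (Fin d → ℤ) → Bool => (q, s) := measurable_prodMk_left
      have h3 := Measurable.comp h1 h2
      simp only [Function.comp_def] at h3
      exact h3
    have h1 := long_exp h hρ Λ (fun s => ff T0 κ ρ η r Λ x hx s q.2 q.1) hfm (by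
        intro s y w t hyw
        funext z
        show ff T0 κ ρ η r Λ x hx _ q.2 q.1 z = _
        unfold ff uf
        rw [Am_update ρ Λ s y w t hyw]) (N := 1 / η ^ 2)
      (fun s => ff_sq h hη hr Λ x hx s q.2 q.1)
    have h2 : (Ps d) (Prod.mk q ⁻¹' D) ≤ (∫⁻ s, L (q, s) ∂(Ps d)) / ENNReal.ofReal c := by
      have := meas_ge_le_lintegral_div (μ := Ps d) (f := fun s => L (q, s))
        ((hLm.comp measurable_prodMk_left).aemeasurable) hc' ENNReal.ofReal_ne_top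
      exact this
    refine h2.trans ?_
    rw [ENNReal.ofReal_div_of_pos hc]
    gcongr
    exact h1
  calc ∫⁻ q, (Ps d) (Prod.mk q ⁻¹' D) ∂(μE.prod (PV d v))
      ≤ ∫⁻ _q, ENNReal.ofReal (tl * (1 / η ^ 2) / c) ∂(μE.prod (PV d v)) := lintegral_mono hpt
    _ = ENNReal.ofReal (tl * (1 / η ^ 2) / c) * (μE.prod (PV d v)) univ := by
        rw [lintegral_const]
    _ = ENNReal.ofReal (tl * (1 / η ^ 2) / c) * ENNReal.ofReal (2 * K) := by
        congr 1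
        rw [← univ_prod_univ, Measure.prod_prod, measure_univ (μ := PV d v), mul_one, hμE,
          Measure.restrict_apply_univ, Real.volume_Icc]
        congr 1
        ring
    _ = ENNReal.ofReal (2 * K * (tl * (1 / η ^ 2) / c)) := by
        rw [← ENNReal.ofReal_mul (by positivity), mul_comm]

theorem V_tail (v : NNReal) (x : Fin d → ℤ) {δ : ℝ} (hδ : 0 < δ) :
    ∃ W2 : ℝ, 0 ≤ W2 ∧ (PV d v) {V | W2 < |V x|} ≤ ENNReal.ofReal δ := by
  set s : ℕ → Set ((Fin d → ℤ) → ℝ) := fun n => {V | (n : ℝ) < |V x|} with hs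
  have hm : ∀ n, MeasurableSet (s n) := fun n =>
    measurableSet_lt measurable_const (measurable_pi_apply x).abs
  have hanti : Antitone s := by
    intro n m hnm V hV
    have h1 : (m : ℝ) < |V x| := hV
    have h2 : (n : ℝ) ≤ m := by exact_mod_cast hnm
    exact lt_of_le_of_lt h2 h1
  have hemp : ⋂ n, s n = ∅ := by
    ext V
    simp only [mem_iInter, mem_empty_iff_false, iff_false, not_forall]
    obtain ⟨n, hn⟩ := exists_nat_ge |V x|
    exact ⟨n, fun hc => absurd hc (not_lt.2 hn)⟩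
  have ht := tendsto_measure_iInter_atTop (μ := PV d v) (s := s)
    (fun n => (hm n).nullMeasurableSet) hanti ⟨0, measure_ne_top _ _⟩
  rw [hemp, measure_empty] at ht
  have hδ' : (0 : ENNReal) < ENNReal.ofReal δ := by simpa using hδ
  obtain ⟨n, hn⟩ := ((tendsto_order.1 ht).2 _ hδ').exists
  exact ⟨n, Nat.cast_nonneg n, hn.le⟩

end H10PL
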