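import Pool.Agent.H10R2.PL.AsmD

namespace H10PL

open MeasureTheory ProbabilityTheory Matrix Set Filter

variable {d : ℕ} {T0 : (Fin d → ℤ) → (Fin d → ℤ) → ℝ} {κ : (Fin d → ℤ) → ℝ} {ρ0 b : ℝ}

theorem Ck_pos {K a : ℝ} (hK : 0 < K) (ha : 0 ≤ a) : 0 < Ck K a := by
  unfold Ck
  have := Real.pi_pos
  positivity

theorem aC_nonneg : 0 ≤ aC b κ := by
  unfold aC
  have h1 : 0 ≤ ∑' z, κ z ^ 2 := tsum_nonneg fun z => sq_nonneg _
  positivity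

theorem first_set (v : NNReal) (x : Fin d → ℤ) {K W2 δ : ℝ} (hK : 0 < K)
    (h : (PV d v) {V | W2 < |V x|} ≤ ENNReal.ofReal δ) :
    ((volume.restrict (Icc (-K) K)).prod ((PV d v).prod (Ps d)))
      {p | W2 < |p.2.1 x|} ≤ ENNReal.ofReal (2 * K * δ) := by
  have hset : {p : ℝ × (((Fin d → ℤ) → ℝ) × (Sym2 (Fin d → ℤ) → Bool)) | W2 < |p.2.1 x|} =
      univ ×ˢ ({V : (Fin d → ℤ) → ℝ | W2 < |V x|} ×ˢ univ) := by
    ext p
    simp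
  rw [hset, Measure.prod_prod, Measure.prod_prod, measure_univ (μ := Ps d), mul_one,
    Measure.restrict_apply_univ, Real.volume_Icc]
  have h2 : K - -K = 2 * K := by ring
  rw [h2, ENNReal.ofReal_mul (p := 2 * K) (by positivity)]
  exact mul_le_mul' le_rfl h

theorem ar_c2 {ρ r T η m : ℝ} (hr : 0 < r) (hη : 0 < η)
    (h : 2 * ρ * T ≤ r * (η ^ 2 * m)) : (ρ / r) * T * (1 / η) ≤ η * m / 2 := by
  have h3 : (ρ / r) * T * (1 / η) = (ρ * T) / (r * η) := by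
    field_simp
  rw [h3, div_le_iff₀ (by positivity)]
  nlinarith

theorem ar_W {C ε W : ℝ} (hε : 0 < ε) (hW : 0 < W) (h : 36 * C / ε ≤ W) :
    9 * C / W ≤ ε / 4 := by
  rw [div_le_iff₀ hW]
  have : 36 * C / ε * (ε / 4) = 9 * C := by field_simp; ring
  calc 9 * C = 36 * C / ε * (ε / 4) := this.symm
    _ ≤ W * (ε / 4) := mul_le_mul_of_nonneg_right h (by positivity)
    _ = ε / 4 * W := by ring

theorem ar_thr {M η T β n c w Z : ℝ} (hn : 0 < n) (hw : 0 < w) (hc : 0 < c) (hnη : n * η = T)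
    (hZ : Z = 16 * M * T * w ^ 2 / c) (hZ0 : 0 ≤ Z) (h : 1 + Z ≤ β * n) :
    4 * M * η ≤ β ^ 2 * (c * n / 2) / (2 * w ^ 2) := by
  rw [le_div_iff₀ (by positivity)]
  have h1 : Z ≤ (β * n) ^ 2 := by nlinarith
  have h4 : 16 * M * T * w ^ 2 ≤ (β * n) ^ 2 * c := by
    rw [hZ, div_le_iff₀ hc] at h1
    exact h1
  have h5 : (4 * M * η * (2 * w ^ 2)) * n = 8 * M * T * w ^ 2 := by
    rw [← hnη]; ring
  have h6 : (β ^ 2 * (c * n / 2)) * n = (β * n) ^ 2 * c / 2 := by ring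
  have h7 : (4 * M * η * (2 * w ^ 2)) * n ≤ (β ^ 2 * (c * n / 2)) * n := by
    rw [h5, h6]
    linarith
  exact le_of_mul_le_mul_right h7 hn

theorem ar_snd {Q K c ε n η T : ℝ} (hQ : 0 < Q) (hK : 0 < K) (hc : 0 < c) (hε : 0 < ε)
    (hT : T = 4 * Q * K / (c * ε)) (hnη : n * η = T) : Q * K / (c * n * η) ≤ ε / 4 := by
  have h1 : c * n * η = c * T := by rw [← hnη]; ring
  rw [h1, hT]
  have : Q * K / (c * (4 * Q * K / (c * ε))) = ε / 4 := by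
    field_simp
  rw [this]

theorem ar_lng {K ε η M tl : ℝ} (hK : 0 < K) (hM : 0 < M) (hη : 0 < η)
    (h : tl ≤ ε * η ^ 4 * M / (32 * K)) :
    2 * K * (tl * (1 / η ^ 2) / (η * Real.sqrt M / 2) ^ 2) ≤ ε / 4 := by
  have hsq : (η * Real.sqrt M / 2) ^ 2 = η ^ 2 * M / 4 := by
    rw [div_pow, mul_pow, Real.sq_sqrt hM.le]
    norm_num
  rw [hsq]
  calc 2 * K * (tl * (1 / η ^ 2) / (η ^ 2 * M / 4)) ≤
      2 * K * ((ε * η ^ 4 * M / (32 * K)) * (1 / η ^ 2) / (η ^ 2 * M / 4)) := by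
        gcongr
    _ = ε / 4 := by field_simp; ring

theorem bad_le (h : Adm T0 κ ρ0 b) {B : ℝ}
    (hprof : ∀ T : ℝ, ∃ β : ℝ, 0 < β ∧ ∃ S : Finset (Fin d → ℤ),
      (∀ y ∈ S, β ≤ |κ y| ∧ |κ y| ≤ B * β) ∧ T ≤ β * S.card)
    (v : NNReal) (hv : v ≠ 0) (x : Fin d → ℤ) (M : ℝ) {K : ℝ} (hK : 0 < K) {ε : ℝ} (hε : 0 < ε) :
    ((volume.restrict (Icc (-K) K)).prod ((PV d v).prod (Ps d)))
      {p | ¬ InfN T0 κ p.2.2 p.2.1 p.1 x M} ≤ ENNReal.ofReal ε := by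
  classical
  have hpi := Real.pi_pos
  obtain ⟨M', hM'⟩ : ∃ M', M' = max M 1 := ⟨_, rfl⟩
  have hM'0 : 0 < M' := by rw [hM']; exact lt_of_lt_of_le zero_lt_one (le_max_right _ _)
  have hMM : M ≤ M' := by rw [hM']; exact le_max_left _ _
  have ha0 : 0 ≤ aC b κ := aC_nonneg
  have hCk := Ck_pos hK ha0
  obtain ⟨W, hW⟩ : ∃ W, W = 2 * (K + 1) + 36 * Ck K (aC b κ) / ε := ⟨_, rfl⟩
  have hW0 : 0 ≤ 36 * Ck K (aC b κ) / ε := by positivity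
  have hWpos : 0 < W := by linarith
  have hW1 : 2 * (K + 1) ≤ W := by linarith
  have hCW : 9 * Ck K (aC b κ) / W ≤ ε / 4 := ar_W hε hWpos (by linarith)
  obtain ⟨cW, hcW⟩ : ∃ cW, cW = gaussianPDFReal 0 v W := ⟨_, rfl⟩
  have hcW0 : 0 < cW := by rw [hcW]; exact gaussianPDFReal_pos 0 v W hv
  have hcWpi : 0 < cW * Real.pi := by positivity
  obtain ⟨W2, hW20, hW2⟩ := V_tail (d := d) v x (δ := ε / (8 * K)) (by positivity)
  obtain ⟨Q, hQ⟩ : ∃ Q, Q = 16 + 64 * B ^ 2 := ⟨_, rfl⟩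
  have hQ0 : 0 < Q := by rw [hQ]; positivity
  obtain ⟨Tη, hTη⟩ : ∃ Tη, Tη = 4 * Q * K / (cW * Real.pi * ε) := ⟨_, rfl⟩
  have hTη0 : 0 < Tη := by rw [hTη]; positivity
  obtain ⟨k, hk0, hk⟩ := κ_bdd h
  obtain ⟨Z, hZ⟩ : ∃ Z, Z = 16 * M' * Tη * (W2 + 8 * W) ^ 2 / (cW * Real.pi) := ⟨_, rfl⟩
  have hZ0 : 0 ≤ Z := by rw [hZ]; positivity
  obtain ⟨β, hβ, S, hS, hT⟩ := hprof (1 + Z + k * Tη)
  have hkT : 0 < k * Tη := by positivity
  have hβS : 0 < β * S.card := by linarith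
  have hScard : (0 : ℝ) < S.card := by
    by_contra hc
    have : (S.card : ℝ) = 0 := le_antisymm (not_lt.1 hc) (Nat.cast_nonneg _)
    rw [this] at hβS
    simp at hβS
  have hSn : S.Nonempty := by
    rw [← Finset.card_pos]
    exact_mod_cast hScard
  have hβk : β ≤ k := by
    obtain ⟨y, hy⟩ := hSn
    exact (hS y hy).1.trans (hk y)
  have hST : Tη ≤ S.card := by
    have h1 : k * Tη ≤ k * S.card := by
      calc k * Tη ≤ β * S.card := by linarith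
        _ ≤ k * S.card := mul_le_mul_of_nonneg_right hβk hScard.le
    exact le_of_mul_le_mul_left h1 hk0
  have h0S : (0 : Fin d → ℤ) ∉ S := by
    intro hc
    have := (hS 0 hc).1
    rw [h.κ0, abs_zero] at this
    linarith
  obtain ⟨η, hη⟩ : ∃ η, η = Tη / S.card := ⟨_, rfl⟩
  have hη0 : 0 < η := by rw [hη]; positivity
  have hη1 : η ≤ 1 := by
    rw [hη, div_le_one hScard]
    exact hST
  have hSη : (S.card : ℝ) * η = Tη := by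
    rw [hη, mul_div_assoc', mul_comm, mul_div_assoc, div_self hScard.ne', mul_one]
  -- threshold
  have hw8 : 0 < W2 + 8 * W := by linarith
  have hthr : 4 * M' * η ≤
      β ^ 2 * (cW * Real.pi * S.card / 2) / (2 * (W2 + 8 * W) ^ 2) :=
    ar_thr hScard hw8 hcWpi hSη hZ hZ0 (by linarith)
  have hsecond : Q * K / (cW * Real.pi * S.card * η) ≤ ε / 4 :=
    ar_snd hQ0 hK hcWpi hε hTη hSη
  -- choice of the range
  have hδ : 0 < ε * η ^ 4 * M' / (32 * K) := by positivity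
  obtain ⟨ρ1, hρ1⟩ := tail_small h hδ
  obtain ⟨ρ, hρρ0, hρ0, hρρ1, hρS⟩ : ∃ ρ : ℝ, ρ0 ≤ ρ ∧ 0 ≤ ρ ∧ ρ1 ≤ ρ ∧ ∀ z ∈ S, ‖z‖ ≤ ρ := by
    refine ⟨max (max ρ0 0) (max ρ1 (∑ y ∈ S, ‖y‖)),
      le_trans (le_max_left _ _) (le_max_left _ _),
      le_trans (le_max_right _ _) (le_max_left _ _),
      le_trans (le_max_left _ _) (le_max_right _ _), ?_⟩
    intro z hz
    refine le_trans ?_ (le_trans (le_max_right _ _) (le_max_right _ _))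
    exact Finset.single_le_sum (f := fun y : Fin d → ℤ => ‖y‖) (fun z _ => norm_nonneg z) hz
  have htail := hρ1 ρ hρρ1
  obtain ⟨Tρ, hTρ0, hTρ⟩ := row_abs h ρ
  have hsM : 0 < Real.sqrt M' := Real.sqrt_pos.2 hM'0
  obtain ⟨r, hr⟩ : ∃ r, r = 1 + 2 * ρ * Tρ / (η ^ 2 * Real.sqrt M') := ⟨_, rfl⟩
  have hr1 : 0 ≤ 2 * ρ * Tρ / (η ^ 2 * Real.sqrt M') := by positivity
  have hr0 : 0 < r := by linarith
  have hr2 : 2 * ρ * Tρ ≤ r * (η ^ 2 * Real.sqrt M') := by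
    have h2 : 2 * ρ * Tρ / (η ^ 2 * Real.sqrt M') ≤ r := by linarith
    rw [div_le_iff₀ (by positivity)] at h2
    exact h2
  obtain ⟨Λ, hΛmem⟩ : ∃ Λ : Finset (Fin d → ℤ), ∀ y, ‖y - x‖ ≤ r + ρ → y ∈ Λ := by
    refine ⟨(ball_finite x (r + ρ)).toFinset, fun y hy => ?_⟩
    rw [Set.Finite.mem_toFinset]
    exact hy
  have hxΛ : x ∈ Λ := hΛmem x (by rw [sub_self, norm_zero]; linarith)
  have hSΛ : ∀ z ∈ S, x - z ∈ Λ := by
    intro z hz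
    refine hΛmem _ ?_
    have : x - z - x = -z := by abel
    rw [this, norm_neg]
    have := hρS z hz
    linarith
  have c2 : (ρ / r) * Tρ * (1 / η) ≤ η * Real.sqrt M' / 2 := ar_c2 hr0 hη0 hr2
  subst hcW
  have hfv := fv_lattice h v hv Λ S x hxΛ h0S hρS hSΛ hSn hβ hS hK hW1 hη0 hη1 hW20
  have hc : 0 < (η * Real.sqrt M' / 2) ^ 2 := by positivity
  have hlong := long_lattice h v hρρ0 hη0 hr0 Λ x hxΛ hK hc
  have hfst := first_set v x hK hW2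
  set A1 : Set (ℝ × (((Fin d → ℤ) → ℝ) × (Sym2 (Fin d → ℤ) → Bool))) :=
    {p | W2 < |p.2.1 x|} with hA1
  set A2 : Set (ℝ × (((Fin d → ℤ) → ℝ) × (Sym2 (Fin d → ℤ) → Bool))) :=
    {p | |p.2.1 x| ≤ W2 ∧
        Pm (Am T0 κ ρ Λ p.2.2) (fun i : Λ => p.2.1 i) p.1 η ⟨x, hxΛ⟩ ⟨x, hxΛ⟩ <
        β ^ 2 * (gaussianPDFReal 0 v W * Real.pi * S.card / 2) / (2 * (W2 + 8 * W) ^ 2)} with hA2
  set A3 : Set (ℝ × (((Fin d → ℤ) → ℝ) × (Sym2 (Fin d → ℤ) → Bool))) :=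
    {p | ¬ (∑' y, (∑ w ∈ Λ, (Kf T0 κ p.2.2 y w - Kr T0 κ ρ p.2.2 y w) *
        ff T0 κ ρ η r Λ x hxΛ p.2.2 p.2.1 p.1 w) ^ 2) ≤ (η * Real.sqrt M' / 2) ^ 2} with hA3
  have hsub : {p : ℝ × (((Fin d → ℤ) → ℝ) × (Sym2 (Fin d → ℤ) → Bool)) |
      ¬ InfN T0 κ p.2.2 p.2.1 p.1 x M} ⊆ A1 ∪ (A2 ∪ A3) := by
    intro p hp
    by_contra hcon
    simp only [mem_union, not_or] at hcon
    obtain ⟨n1, n2, n3⟩ := hcon
    have m1 : |p.2.1 x| ≤ W2 := not_lt.1 n1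
    have m2 : ¬ (Pm (Am T0 κ ρ Λ p.2.2) (fun i : Λ => p.2.1 i) p.1 η ⟨x, hxΛ⟩ ⟨x, hxΛ⟩ <
        β ^ 2 * (gaussianPDFReal 0 v W * Real.pi * S.card / 2) / (2 * (W2 + 8 * W) ^ 2)) :=
      fun hlt => n2 ⟨m1, hlt⟩
    have m3 : (∑' y, (∑ w ∈ Λ, (Kf T0 κ p.2.2 y w - Kr T0 κ ρ p.2.2 y w) *
        ff T0 κ ρ η r Λ x hxΛ p.2.2 p.2.1 p.1 w) ^ 2) ≤ (η * Real.sqrt M' / 2) ^ 2 :=
      not_not.1 n3
    exact hp (infN_of h p.2.2 p.2.1 p.1 x hρρ0 hρ0 hr0 hη0 Λ hΛmem hxΛ hTρ0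
      (hTρ Λ p.2.2) hMM hM'0 (hthr.trans (not_lt.1 m2)) c2 m3)
  refine (measure_mono hsub).trans ?_
  refine (measure_union_le _ _).trans ?_
  have e1 : 2 * K * (ε / (8 * K)) = ε / 4 := by field_simp; norm_num
  have e2 : 9 * Ck K (aC b κ) / W + (16 + 64 * B ^ 2) * K /
      (gaussianPDFReal 0 v W * Real.pi * S.card * η) ≤ ε / 2 := by
    rw [hQ] at hsecond
    linarith
  have e3 : 2 * K * ((∑' y : Fin d → ℤ, if ρ < ‖y‖ then κ y ^ 2 else 0) *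
        (1 / η ^ 2) / (η * Real.sqrt M' / 2) ^ 2) ≤ ε / 4 := ar_lng hK hM'0 hη0 htail
  calc _ ≤ ENNReal.ofReal (ε / 4) + (ENNReal.ofReal (ε / 2) + ENNReal.ofReal (ε / 4)) := by
        refine add_le_add (hfst.trans (by rw [e1])) ((measure_union_le _ _).trans ?_)
        exact add_le_add (hfv.trans (ENNReal.ofReal_le_ofReal e2))
          (hlong.trans (ENNReal.ofReal_le_ofReal e3))
    _ = ENNReal.ofReal ε := by
        rw [← ENNReal.ofReal_add (by positivity) (by positivity),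
          ← ENNReal.ofReal_add (by positivity) (by positivity)]
        congr 1
        ring

theorem infN_ae (h : Adm T0 κ ρ0 b) {B : ℝ}
    (hprof : ∀ T : ℝ, ∃ β : ℝ, 0 < β ∧ ∃ S : Finset (Fin d → ℤ),
      (∀ y ∈ S, β ≤ |κ y| ∧ |κ y| ≤ B * β) ∧ T ≤ β * S.card)
    (v : NNReal) (hv : v ≠ 0) (x : Fin d → ℤ) (M : ℝ) :
    ∀ᵐ p : ℝ × (((Fin d → ℤ) → ℝ) × (Sym2 (Fin d → ℤ) → Bool))
      ∂(volume.prod ((PV d v).prod (Ps d))), InfN T0 κ p.2.2 p.2.1 p.1 x M := by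
  set ν := (PV d v).prod (Ps d) with hν
  set bad : Set (ℝ × (((Fin d → ℤ) → ℝ) × (Sym2 (Fin d → ℤ) → Bool))) :=
    {p | ¬ InfN T0 κ p.2.2 p.2.1 p.1 x M} with hbad
  have h1 : ∀ n : ℕ, ((volume.restrict (Icc (-((n : ℝ) + 1)) ((n : ℝ) + 1))).prod ν) bad = 0 := by
    intro n
    refine le_antisymm ?_ bot_le
    refine ENNReal.le_of_forall_pos_le_add fun ε hε _ => ?_
    rw [zero_add]
    have := bad_le h hprof v hv x M (K := (n : ℝ) + 1) (by positivity) (ε := ε)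
      (by exact_mod_cast hε)
    rw [ENNReal.ofReal_coe_nnreal] at this
    exact this
  have h2 : ∀ n : ℕ, ((volume : Measure ℝ).prod ν)
      (bad ∩ (Icc (-((n : ℝ) + 1)) ((n : ℝ) + 1) ×ˢ univ)) = 0 := by
    intro n
    have h3 := h1 n
    rw [← Measure.restrict_univ (μ := ν), Measure.prod_restrict,
      Measure.restrict_apply' (measurableSet_Icc.prod MeasurableSet.univ)] at h3
    simpa using h3
  show ((volume : Measure ℝ).prod ν) bad = 0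
  have h4 : bad ⊆ ⋃ n : ℕ, bad ∩ (Icc (-((n : ℝ) + 1)) ((n : ℝ) + 1) ×ˢ univ) := by
    intro p hp
    obtain ⟨n, hn⟩ := exists_nat_ge |p.1|
    refine mem_iUnion.2 ⟨n, hp, ?_⟩
    refine ⟨?_, mem_univ _⟩
    have := abs_le.1 hn
    exact ⟨by linarith [this.1], by linarith [this.2]⟩
  exact measure_mono_null h4 (measure_iUnion_null h2)

end H10PL
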