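import Pool.Agent.H10R2.PL.SWA

/-!
Blocks and cut-offs: the deterministic part of the commutator bound.
-/

namespace H10PL

open MeasureTheory ProbabilityTheory Matrix Set Filter Topology

section lattice

variable {d : ℕ} {T0 : (Fin d → ℤ) → (Fin d → ℤ) → ℝ} {κ : (Fin d → ℤ) → ℝ} {ρ0 b : ℝ}

/-- blocks of side `2^j` -/
noncomputable def blk (j : ℕ) (u : Fin d → ℤ) : Finset (Fin d → ℤ) :=
  Fintype.piFinset fun i => Finset.Ico (u i * 2 ^ j) ((u i + 1) * 2 ^ j)

/-- the index of the block of a point -/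
def bi (j : ℕ) (y : Fin d → ℤ) : Fin d → ℤ := fun i => y i / 2 ^ j

/-- neighbouring blocks -/
noncomputable def nb (u : Fin d → ℤ) : Finset (Fin d → ℤ) :=
  Fintype.piFinset fun i => Finset.Icc (u i - 2) (u i + 2)

/-- a box -/
noncomputable def win (R : ℕ) : Finset (Fin d → ℤ) :=
  Fintype.piFinset fun _ => Finset.Icc (-(R : ℤ)) (R : ℤ)

/-- the part of the kernel at distances in `[2^j, 2^(j+1))` -/
noncomputable def Ks (κ : (Fin d → ℤ) → ℝ) (j : ℕ) (y w : Fin d → ℤ) : ℝ :=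
  if 2 ^ j ≤ ‖y - w‖ ∧ ‖y - w‖ < 2 ^ (j + 1) then κ (y - w) else 0

/-- the part of the kernel at distances below `2^j` -/
noncomputable def Kn (κ : (Fin d → ℤ) → ℝ) (j : ℕ) (y w : Fin d → ℤ) : ℝ :=
  if ‖y - w‖ < 2 ^ j then κ (y - w) else 0

theorem mem_blk (j : ℕ) (u y : Fin d → ℤ) : y ∈ blk j u ↔ bi j y = u := by
  unfold blk
  rw [Fintype.mem_piFinset]
  have hp : (0 : ℤ) < 2 ^ j := by positivity
  constructor
  · intro h
    funext i
    have hi := Finset.mem_Ico.mp (h i)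
    show y i / 2 ^ j = u i
    apply le_antisymm
    · have h2 := (Int.ediv_lt_iff_lt_mul hp).mpr hi.2
      omega
    · exact (Int.le_ediv_iff_mul_le hp).mpr hi.1
  · intro h i
    have hi : y i / 2 ^ j = u i := congrFun h i
    rw [Finset.mem_Ico, ← hi]
    refine ⟨(Int.le_ediv_iff_mul_le hp).mp le_rfl, ?_⟩
    exact (Int.ediv_lt_iff_lt_mul hp).mp (by omega)

theorem card_blk (j : ℕ) (u : Fin d → ℤ) : (blk j u).card = 2 ^ (j * d) := by
  unfold blk
  rw [Fintype.card_piFinset]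
  have h : ∀ i : Fin d, (Finset.Ico (u i * 2 ^ j) ((u i + 1) * 2 ^ j)).card = 2 ^ j := by
    intro i
    rw [Int.card_Ico]
    have : (u i + 1) * 2 ^ j - u i * 2 ^ j = ((2 ^ j : ℕ) : ℤ) := by push_cast; ring
    rw [this, Int.toNat_natCast]
  rw [Finset.prod_congr rfl (fun i _ => h i), Finset.prod_const, Finset.card_univ,
    Fintype.card_fin, pow_mul]

theorem card_nb (u : Fin d → ℤ) : (nb u).card = 5 ^ d := by
  unfold nb
  rw [Fintype.card_piFinset]
  have h : ∀ i : Fin d, (Finset.Icc (u i - 2) (u i + 2)).card = 5 := by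
    intro i
    rw [Int.card_Icc]
    omega
  rw [Finset.prod_congr rfl (fun i _ => h i), Finset.prod_const, Finset.card_univ,
    Fintype.card_fin]

theorem card_win (R : ℕ) : (win R : Finset (Fin d → ℤ)).card = (2 * R + 1) ^ d := by
  unfold win
  rw [Fintype.card_piFinset]
  have h : ∀ i : Fin d, (Finset.Icc (-(R : ℤ)) (R : ℤ)).card = 2 * R + 1 := by
    intro i
    rw [Int.card_Icc]
    omega
  rw [Finset.prod_congr rfl (fun i _ => h i), Finset.prod_const, Finset.card_univ,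
    Fintype.card_fin]

theorem nb_symm (u v : Fin d → ℤ) : v ∈ nb u ↔ u ∈ nb v := by
  unfold nb
  rw [Fintype.mem_piFinset, Fintype.mem_piFinset]
  refine forall_congr' fun i => ?_
  rw [Finset.mem_Icc, Finset.mem_Icc]
  constructor <;> rintro ⟨h1, h2⟩ <;> constructor <;> omega

theorem abs_coord_le (y : Fin d → ℤ) (i : Fin d) : (|y i| : ℝ) ≤ ‖y‖ := by
  have := norm_le_pi_norm y i
  rwa [Int.norm_eq_abs] at this

theorem mem_win (R : ℕ) (y : Fin d → ℤ) : y ∈ win R ↔ ‖y‖ ≤ R := by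
  unfold win
  rw [Fintype.mem_piFinset, pi_norm_le_iff_of_nonneg (Nat.cast_nonneg R)]
  refine forall_congr' fun i => ?_
  rw [Finset.mem_Icc, Int.norm_eq_abs, abs_le]
  constructor
  · rintro ⟨h1, h2⟩
    constructor
    · exact_mod_cast h1
    · exact_mod_cast h2
  · rintro ⟨h1, h2⟩
    constructor
    · exact_mod_cast h1
    · exact_mod_cast h2

theorem Ks_ne {j : ℕ} {y w : Fin d → ℤ} (h : Ks κ j y w ≠ 0) : bi j w ∈ nb (bi j y) := by
  unfold Ks at h
  have h1 : ‖y - w‖ < 2 ^ (j + 1) := by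
    by_contra h2
    apply h
    rw [if_neg]
    intro h3
    exact h2 h3.2
  unfold nb
  rw [Fintype.mem_piFinset]
  intro i
  have h2 := (abs_coord_le (y - w) i).trans_lt h1
  have h3 : |(y - w) i| < 2 ^ (j + 1) := by exact_mod_cast h2
  rw [Pi.sub_apply, abs_lt] at h3
  show w i / 2 ^ j ∈ Finset.Icc (y i / 2 ^ j - 2) (y i / 2 ^ j + 2)
  have hp : (0 : ℤ) < 2 ^ j := by positivity
  have e1 := Int.mul_ediv_add_emod (y i) (2 ^ j)
  have e2 := Int.mul_ediv_add_emod (w i) (2 ^ j)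
  have e3 := Int.emod_nonneg (y i) hp.ne'
  have e4 := Int.emod_nonneg (w i) hp.ne'
  have e5 := Int.emod_lt_of_pos (y i) hp
  have e6 := Int.emod_lt_of_pos (w i) hp
  rw [pow_succ] at h3
  set M : ℤ := 2 ^ j with hM
  set p := y i / M
  set q := w i / M
  rw [Finset.mem_Icc]
  constructor
  · by_contra h4
    have h5 : q + 3 ≤ p := by omega
    have h6 : M * (q + 3) ≤ M * p := mul_le_mul_of_nonneg_left h5 hp.le
    rw [mul_add] at h6
    omega
  · by_contra h4
    have h5 : p + 3 ≤ q := by omega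
    have h6 : M * (p + 3) ≤ M * q := mul_le_mul_of_nonneg_left h5 hp.le
    rw [mul_add] at h6
    omega

theorem Kn_succ (j : ℕ) (y w : Fin d → ℤ) : Kn κ (j + 1) y w = Kn κ j y w + Ks κ j y w := by
  unfold Kn Ks
  by_cases h1 : ‖y - w‖ < 2 ^ j
  · have h2 : ‖y - w‖ < 2 ^ (j + 1) :=
      h1.trans_le (pow_le_pow_right₀ one_le_two (Nat.le_succ j))
    rw [if_pos h1, if_pos h2, if_neg, add_zero]
    intro h3
    exact absurd h3.1 (not_le.mpr h1)
  · by_cases h2 : ‖y - w‖ < 2 ^ (j + 1)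
    · rw [if_neg h1, if_pos h2, if_pos ⟨not_lt.mp h1, h2⟩, zero_add]
    · rw [if_neg h1, if_neg h2, if_neg, add_zero]
      intro h3
      exact h2 h3.2

theorem Kn_add (J k : ℕ) (y w : Fin d → ℤ) :
    Kn κ (J + k) y w = Kn κ J y w + ∑ i ∈ Finset.range k, Ks κ (J + i) y w := by
  induction k with
  | zero => simp
  | succ k ih => rw [← add_assoc, Kn_succ, ih, Finset.sum_range_succ, add_assoc]

/-- Schur test -/
theorem schur_test (Λ : Finset (Fin d → ℤ)) (k : (Fin d → ℤ) → (Fin d → ℤ) → ℝ) (T : ℝ)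
    (hrow : ∀ y ∈ Λ, ∑ w ∈ Λ, |k y w| ≤ T) (hcol : ∀ w ∈ Λ, ∑ y ∈ Λ, |k y w| ≤ T)
    (u v : (Fin d → ℤ) → ℝ) :
    |∑ y ∈ Λ, ∑ w ∈ Λ, k y w * (u y * v w)| ≤
      T * (∑ y ∈ Λ, u y ^ 2 + ∑ y ∈ Λ, v y ^ 2) / 2 := by
  have h1 : ∀ y w, |k y w * (u y * v w)| ≤ (|k y w| * u y ^ 2 + |k y w| * v w ^ 2) / 2 := by
    intro y w
    rw [abs_mul]
    have h2 : |u y * v w| ≤ (u y ^ 2 + v w ^ 2) / 2 := by
      rw [abs_le]
      constructor <;> nlinarith [sq_nonneg (u y + v w), sq_nonneg (u y - v w)]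
    have h3 := mul_le_mul_of_nonneg_left h2 (abs_nonneg (k y w))
    linarith
  calc |∑ y ∈ Λ, ∑ w ∈ Λ, k y w * (u y * v w)|
      ≤ ∑ y ∈ Λ, ∑ w ∈ Λ, |k y w * (u y * v w)| :=
        (Finset.abs_sum_le_sum_abs _ _).trans
          (Finset.sum_le_sum fun y _ => Finset.abs_sum_le_sum_abs _ _)
    _ ≤ ∑ y ∈ Λ, ∑ w ∈ Λ, (|k y w| * u y ^ 2 + |k y w| * v w ^ 2) / 2 :=
        Finset.sum_le_sum fun y _ => Finset.sum_le_sum fun w _ => h1 y w
    _ = ((∑ y ∈ Λ, (∑ w ∈ Λ, |k y w|) * u y ^ 2) +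
          ∑ w ∈ Λ, (∑ y ∈ Λ, |k y w|) * v w ^ 2) / 2 := by
        have e1 : ∑ w ∈ Λ, (∑ y ∈ Λ, |k y w|) * v w ^ 2 =
            ∑ y ∈ Λ, ∑ w ∈ Λ, |k y w| * v w ^ 2 := by
          rw [Finset.sum_comm]
          refine Finset.sum_congr rfl fun w _ => ?_
          rw [Finset.sum_mul]
        rw [e1, ← Finset.sum_add_distrib, Finset.sum_div]
        refine Finset.sum_congr rfl fun y _ => ?_
        rw [Finset.sum_mul, ← Finset.sum_add_distrib, Finset.sum_div]
    _ ≤ ((∑ y ∈ Λ, T * u y ^ 2) + ∑ w ∈ Λ, T * v w ^ 2) / 2 := by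
        have e1 := Finset.sum_le_sum fun y hy =>
          mul_le_mul_of_nonneg_right (hrow y hy) (sq_nonneg (u y))
        have e2 := Finset.sum_le_sum fun w hw =>
          mul_le_mul_of_nonneg_right (hcol w hw) (sq_nonneg (v w))
        linarith
    _ = T * (∑ y ∈ Λ, u y ^ 2 + ∑ y ∈ Λ, v y ^ 2) / 2 := by
        rw [← Finset.mul_sum, ← Finset.mul_sum, mul_add]

/-- all pairs of neighbouring blocks in a window have small norm -/
def GoodJ (κ : (Fin d → ℤ) → ℝ) (j : ℕ) (τ : ℝ) (R : ℕ) (s : Sym2 (Fin d → ℤ) → Bool) : Prop :=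
  ∀ u ∈ (win R : Finset (Fin d → ℤ)), ∀ u' ∈ nb u, ∀ a c : (Fin d → ℤ) → ℝ,
    ∑ y ∈ blk j u, a y ^ 2 ≤ 1 → ∑ y ∈ blk j u', c y ^ 2 ≤ 1 →
    |∑ y ∈ blk j u, ∑ w ∈ blk j u', sg (s s(y, w)) * (Ks κ j y w * (a y * c w))| ≤ τ

theorem GoodJ.form {j : ℕ} {τ : ℝ} {R : ℕ} {s : Sym2 (Fin d → ℤ) → Bool}
    (h : GoodJ κ j τ R s) (hτ : 0 ≤ τ) {u u' : Fin d → ℤ}
    (hu : u ∈ (win R : Finset (Fin d → ℤ))) (hu' : u' ∈ nb u) (a c : (Fin d → ℤ) → ℝ) :
    |∑ y ∈ blk j u, ∑ w ∈ blk j u', sg (s s(y, w)) * (Ks κ j y w * (a y * c w))| ≤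
      τ * (∑ y ∈ blk j u, a y ^ 2 + ∑ y ∈ blk j u', c y ^ 2) / 2 := by
  set A := ∑ y ∈ blk j u, a y ^ 2 with hA
  set C := ∑ y ∈ blk j u', c y ^ 2 with hC
  have hA0 : 0 ≤ A := Finset.sum_nonneg fun _ _ => sq_nonneg _
  have hC0 : 0 ≤ C := Finset.sum_nonneg fun _ _ => sq_nonneg _
  have hr : 0 ≤ τ * (A + C) / 2 := by positivity
  rcases hA0.eq_or_lt with h0 | hAp
  · have h1 : ∀ y ∈ blk j u, a y = 0 := by
      intro y hy
      have h2 := (Finset.sum_eq_zero_iff_of_nonneg (fun _ _ => sq_nonneg _)).mp h0.symm y hy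
      exact pow_eq_zero_iff (two_ne_zero) |>.mp h2
    have h2 : ∑ y ∈ blk j u, ∑ w ∈ blk j u', sg (s s(y, w)) * (Ks κ j y w * (a y * c w)) = 0 := by
      refine Finset.sum_eq_zero fun y hy => Finset.sum_eq_zero fun w _ => ?_
      rw [h1 y hy]
      ring
    rw [h2, abs_zero]
    exact hr
  rcases hC0.eq_or_lt with h0 | hCp
  · have h1 : ∀ y ∈ blk j u', c y = 0 := by
      intro y hy
      have h2 := (Finset.sum_eq_zero_iff_of_nonneg (fun _ _ => sq_nonneg _)).mp h0.symm y hy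
      exact pow_eq_zero_iff (two_ne_zero) |>.mp h2
    have h2 : ∑ y ∈ blk j u, ∑ w ∈ blk j u', sg (s s(y, w)) * (Ks κ j y w * (a y * c w)) = 0 := by
      refine Finset.sum_eq_zero fun y _ => Finset.sum_eq_zero fun w hw => ?_
      rw [h1 w hw]
      ring
    rw [h2, abs_zero]
    exact hr
  set α := Real.sqrt A with hα
  set β := Real.sqrt C with hβ
  have hα0 : 0 < α := Real.sqrt_pos.mpr hAp
  have hβ0 : 0 < β := Real.sqrt_pos.mpr hCp
  have hα2 : α ^ 2 = A := Real.sq_sqrt hA0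
  have hβ2 : β ^ 2 = C := Real.sq_sqrt hC0
  have h1 := h u hu u' hu' (fun y => a y / α) (fun y => c y / β) (by
    simp only [div_pow]
    rw [← Finset.sum_div, hα2, ← hA, div_self hAp.ne']) (by
    simp only [div_pow]
    rw [← Finset.sum_div, hβ2, ← hC, div_self hCp.ne'])
  have h2 : ∑ y ∈ blk j u, ∑ w ∈ blk j u', sg (s s(y, w)) * (Ks κ j y w * (a y * c w)) =
      (α * β) * ∑ y ∈ blk j u, ∑ w ∈ blk j u',
        sg (s s(y, w)) * (Ks κ j y w * (a y / α * (c w / β))) := by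
    rw [Finset.mul_sum]
    refine Finset.sum_congr rfl fun y _ => ?_
    rw [Finset.mul_sum]
    refine Finset.sum_congr rfl fun w _ => ?_
    field_simp
  rw [h2, abs_mul, abs_of_pos (mul_pos hα0 hβ0)]
  have h3 : α * β ≤ (A + C) / 2 := by
    rw [← hα2, ← hβ2]
    nlinarith [sq_nonneg (α - β)]
  calc α * β * |∑ y ∈ blk j u, ∑ w ∈ blk j u',
        sg (s s(y, w)) * (Ks κ j y w * (a y / α * (c w / β)))| ≤ α * β * τ :=
        mul_le_mul_of_nonneg_left h1 (mul_pos hα0 hβ0).le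
    _ ≤ (A + C) / 2 * τ := mul_le_mul_of_nonneg_right h3 hτ
    _ = τ * (A + C) / 2 := by ring

/-- bound for the form of a shell -/
theorem GoodJ.shell {j : ℕ} {τ : ℝ} {R : ℕ} {s : Sym2 (Fin d → ℤ) → Bool}
    (h : GoodJ κ j τ R s) (hτ : 0 ≤ τ) (Λ : Finset (Fin d → ℤ)) (u v : (Fin d → ℤ) → ℝ)
    (hu : ∀ y ∈ Λ, u y ≠ 0 → bi j y ∈ (win R : Finset (Fin d → ℤ))) :
    |∑ y ∈ Λ, ∑ w ∈ Λ, sg (s s(y, w)) * (Ks κ j y w * (u y * v w))| ≤
      5 ^ d * τ * (∑ y ∈ Λ, u y ^ 2 + ∑ y ∈ Λ, v y ^ 2) / 2 := by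
  classical
  set U := Λ.image (bi j) with hU
  set g : (Fin d → ℤ) → (Fin d → ℤ) → ℝ := fun y w =>
    sg (s s(y, w)) * (Ks κ j y w * (u y * v w)) with hg
  set A : (Fin d → ℤ) → ℝ := fun p => ∑ y ∈ Λ.filter (fun y => bi j y = p), u y ^ 2 with hA
  set B : (Fin d → ℤ) → ℝ := fun p => ∑ y ∈ Λ.filter (fun y => bi j y = p), v y ^ 2 with hB
  have hA0 : ∀ p, 0 ≤ A p := fun p => Finset.sum_nonneg fun _ _ => sq_nonneg _
  have hB0 : ∀ p, 0 ≤ B p := fun p => Finset.sum_nonneg fun _ _ => sq_nonneg _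
  have hdec : ∑ y ∈ Λ, ∑ w ∈ Λ, g y w = ∑ p ∈ U, ∑ q ∈ nb p,
      ∑ y ∈ Λ.filter (fun y => bi j y = p), ∑ w ∈ Λ.filter (fun w => bi j w = q), g y w := by
    rw [← Finset.sum_fiberwise_of_maps_to (s := Λ) (t := U) (g := bi j)
      (fun y hy => Finset.mem_image_of_mem _ hy)]
    refine Finset.sum_congr rfl fun p _ => ?_
    symm
    rw [Finset.sum_comm]
    refine Finset.sum_congr rfl fun y hy => ?_
    have hyp : bi j y = p := (Finset.mem_filter.mp hy).2
    have h1 : ∀ q ∈ nb p, ∑ w ∈ Λ.filter (fun w => bi j w = q), g y w =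
        ∑ w ∈ Λ, if bi j w = q then g y w else 0 := by
      intro q _
      rw [Finset.sum_filter]
    rw [Finset.sum_congr rfl h1, Finset.sum_comm]
    refine Finset.sum_congr rfl fun w _ => ?_
    rw [Finset.sum_ite_eq]
    split_ifs with h2
    · rfl
    · by_contra h3
      have h4 : Ks κ j y w ≠ 0 := by
        intro h5
        apply h3
        rw [hg]
        simp only [h5]
        ring
      apply h2
      rw [← hyp]
      exact Ks_ne h4
  have hblock : ∀ p ∈ U, ∀ q ∈ nb p,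
      |∑ y ∈ Λ.filter (fun y => bi j y = p), ∑ w ∈ Λ.filter (fun w => bi j w = q), g y w| ≤
        τ * (A p + B q) / 2 := by
    intro p _ q hq
    by_cases hp : p ∈ (win R : Finset (Fin d → ℤ))
    · set u' : (Fin d → ℤ) → ℝ := fun y => if y ∈ Λ then u y else 0 with hu'
      set v' : (Fin d → ℤ) → ℝ := fun y => if y ∈ Λ then v y else 0 with hv'
      have hs1 : ∀ (f : (Fin d → ℤ) → ℝ) (p : Fin d → ℤ),
          (∀ y, y ∉ Λ → f y = 0) →
          ∑ y ∈ blk j p, f y = ∑ y ∈ Λ.filter (fun y => bi j y = p), f y := by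
        intro f p hf
        symm
        apply Finset.sum_subset
        · intro y hy
          exact (mem_blk j p y).mpr (Finset.mem_filter.mp hy).2
        · intro y hy hy2
          apply hf
          intro hy3
          exact hy2 (Finset.mem_filter.mpr ⟨hy3, (mem_blk j p y).mp hy⟩)
      have h1 := h.form hτ hp hq u' v'
      have e1 : ∑ y ∈ blk j p, u' y ^ 2 = A p := by
        rw [hs1 _ p (fun y hy => by rw [hu']; simp [hy])]
        refine Finset.sum_congr rfl fun y hy => ?_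
        rw [hu']
        simp only [if_pos (Finset.mem_filter.mp hy).1]
      have e2 : ∑ y ∈ blk j q, v' y ^ 2 = B q := by
        rw [hs1 _ q (fun y hy => by rw [hv']; simp [hy])]
        refine Finset.sum_congr rfl fun y hy => ?_
        rw [hv']
        simp only [if_pos (Finset.mem_filter.mp hy).1]
      have e3 : ∑ y ∈ blk j p, ∑ w ∈ blk j q,
          sg (s s(y, w)) * (Ks κ j y w * (u' y * v' w)) =
          ∑ y ∈ Λ.filter (fun y => bi j y = p), ∑ w ∈ Λ.filter (fun w => bi j w = q), g y w := by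
        rw [hs1 _ p (fun y hy => by
          refine Finset.sum_eq_zero fun w _ => ?_
          rw [hu']
          simp [hy])]
        refine Finset.sum_congr rfl fun y hy => ?_
        rw [hs1 _ q (fun w hw => by
          rw [hv']
          simp [hw])]
        refine Finset.sum_congr rfl fun w hw => ?_
        rw [hu', hv', hg]
        simp only [if_pos (Finset.mem_filter.mp hy).1, if_pos (Finset.mem_filter.mp hw).1]
      rw [e1, e2, e3] at h1
      exact h1
    · have h1 : ∑ y ∈ Λ.filter (fun y => bi j y = p),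
          ∑ w ∈ Λ.filter (fun w => bi j w = q), g y w = 0 := by
        refine Finset.sum_eq_zero fun y hy => Finset.sum_eq_zero fun w _ => ?_
        obtain ⟨h2, h3⟩ := Finset.mem_filter.mp hy
        have h4 : u y = 0 := by
          by_contra h5
          apply hp
          rw [← h3]
          exact hu y h2 h5
        rw [hg]
        simp only [h4]
        ring
      rw [h1, abs_zero]
      have := hA0 p
      have := hB0 q
      positivity
  have hsumA : ∑ p ∈ U, ∑ _q ∈ nb p, A p = 5 ^ d * ∑ y ∈ Λ, u y ^ 2 := by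
    have h1 : ∀ p ∈ U, ∑ _q ∈ nb p, A p = 5 ^ d * A p := by
      intro p _
      rw [Finset.sum_const, card_nb, nsmul_eq_mul]
      push_cast
      ring
    rw [Finset.sum_congr rfl h1, ← Finset.mul_sum, hA,
      Finset.sum_fiberwise_of_maps_to (fun y hy => Finset.mem_image_of_mem _ hy)]
  have hsumB : ∑ p ∈ U, ∑ q ∈ nb p, B q ≤ 5 ^ d * ∑ y ∈ Λ, v y ^ 2 := by
    have h1 : ∀ p ∈ U, ∑ q ∈ nb p, B q = ∑ w ∈ Λ, if bi j w ∈ nb p then v w ^ 2 else 0 := by
      intro p _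
      have h2 : ∀ q ∈ nb p, B q = ∑ w ∈ Λ, if bi j w = q then v w ^ 2 else 0 := by
        intro q _
        show ∑ y ∈ Λ.filter (fun y => bi j y = q), v y ^ 2 = _
        rw [Finset.sum_filter]
      rw [Finset.sum_congr rfl h2, Finset.sum_comm]
      refine Finset.sum_congr rfl fun w _ => ?_
      rw [Finset.sum_ite_eq]
    rw [Finset.sum_congr rfl h1, Finset.sum_comm, Finset.mul_sum]
    refine Finset.sum_le_sum fun w _ => ?_
    rw [← Finset.sum_filter, Finset.sum_const, nsmul_eq_mul]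
    refine mul_le_mul_of_nonneg_right ?_ (sq_nonneg _)
    have h3 : (U.filter (fun p => bi j w ∈ nb p)).card ≤ 5 ^ d := by
      rw [← card_nb (bi j w)]
      apply Finset.card_le_card
      intro p hp
      exact (nb_symm _ _).mp (Finset.mem_filter.mp hp).2
    exact_mod_cast h3
  rw [hdec]
  calc |∑ p ∈ U, ∑ q ∈ nb p, ∑ y ∈ Λ.filter (fun y => bi j y = p),
        ∑ w ∈ Λ.filter (fun w => bi j w = q), g y w|
      ≤ ∑ p ∈ U, ∑ q ∈ nb p, τ * (A p + B q) / 2 := by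
        refine (Finset.abs_sum_le_sum_abs _ _).trans (Finset.sum_le_sum fun p hp => ?_)
        exact (Finset.abs_sum_le_sum_abs _ _).trans
          (Finset.sum_le_sum fun q hq => hblock p hp q hq)
    _ = τ / 2 * ((∑ p ∈ U, ∑ _q ∈ nb p, A p) + ∑ p ∈ U, ∑ q ∈ nb p, B q) := by
        rw [← Finset.sum_add_distrib, Finset.mul_sum]
        refine Finset.sum_congr rfl fun p _ => ?_
        rw [← Finset.sum_add_distrib, Finset.mul_sum]
        refine Finset.sum_congr rfl fun q _ => ?_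
        ring
    _ ≤ τ / 2 * (5 ^ d * ∑ y ∈ Λ, u y ^ 2 + 5 ^ d * ∑ y ∈ Λ, v y ^ 2) := by
        rw [hsumA]
        exact mul_le_mul_of_nonneg_left (by linarith) (by positivity)
    _ = 5 ^ d * τ * (∑ y ∈ Λ, u y ^ 2 + ∑ y ∈ Λ, v y ^ 2) / 2 := by ring

end lattice

end H10PL
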