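import Mathlib

/-!
Shared definitions for the power-law Anderson model project (helper10, MP_1906c1_mp).
-/

namespace H10PL

open MeasureTheory ProbabilityTheory Matrix

section finite

variable {ι : Type*} [Fintype ι] [DecidableEq ι]

/-- `A + diag V - (E + iη)` as a complex matrix. -/
noncomputable def Mz (A : Matrix ι ι ℝ) (V : ι → ℝ) (E η : ℝ) : Matrix ι ι ℂ :=
  (A + Matrix.diagonal V).map (fun t : ℝ => (t : ℂ)) -
    ((E : ℂ) + (η : ℂ) * Complex.I) • (1 : Matrix ι ι ℂ)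

/-- The resolvent matrix at `E + iη`. -/
noncomputable def Gm (A : Matrix ι ι ℝ) (V : ι → ℝ) (E η : ℝ) : Matrix ι ι ℂ :=
  (Mz A V E η)⁻¹

/-- Entrywise imaginary part of the resolvent. -/
noncomputable def Pm (A : Matrix ι ι ℝ) (V : ι → ℝ) (E η : ℝ) : Matrix ι ι ℝ :=
  fun i j => (Gm A V E η i j).im

/-- `A` with row and column `x` replaced by zero. -/
def cut (A : Matrix ι ι ℝ) (x : ι) : Matrix ι ι ℝ :=
  fun i j => if i = x ∨ j = x then 0 else A i j

/-- The self energy of the site `x`. -/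
noncomputable def Sg (A : Matrix ι ι ℝ) (V : ι → ℝ) (E η : ℝ) (x : ι) : ℂ :=
  ∑ i, ∑ j, (A x i : ℂ) * Gm (cut A x) V E η i j * (A x j : ℂ)

/-- Signs. -/
def sg (b : Bool) : ℝ := if b then 1 else -1

/-- `Ab` with the entries of the row and column `x` changed by `ε j * c j`. -/
def Aeps (Ab : Matrix ι ι ℝ) (x : ι) (c : ι → ℝ) (ε : ι → Bool) : Matrix ι ι ℝ :=
  fun i j => Ab i j + (if i = x then sg (ε j) * c j else 0) + (if j = x then sg (ε i) * c i else 0)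

/-- the constant of the tail bound -/
noncomputable def Ck (K a : ℝ) : ℝ := 16 * K + 8 * Real.pi * a + 32 * K * a

end finite

section lattice

variable {d : ℕ}

/-- The full hopping kernel: a deterministic part `T0` and random signs times a profile `κ`. -/
def Kf (T0 : (Fin d → ℤ) → (Fin d → ℤ) → ℝ) (κ : (Fin d → ℤ) → ℝ)
    (s : Sym2 (Fin d → ℤ) → Bool) (y w : Fin d → ℤ) : ℝ :=
  T0 y w + sg (s s(y, w)) * κ (y - w)

/-- The kernel restricted to distances at most `ρ`. -/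
noncomputable def Kr (T0 : (Fin d → ℤ) → (Fin d → ℤ) → ℝ) (κ : (Fin d → ℤ) → ℝ) (ρ : ℝ)
    (s : Sym2 (Fin d → ℤ) → Bool) (y w : Fin d → ℤ) : ℝ :=
  if ‖y - w‖ ≤ ρ then Kf T0 κ s y w else 0

/-- `((H - E) f)(y)` for a finitely supported `f`. -/
noncomputable def appl (T0 : (Fin d → ℤ) → (Fin d → ℤ) → ℝ) (κ : (Fin d → ℤ) → ℝ)
    (s : Sym2 (Fin d → ℤ) → Bool) (V : (Fin d → ℤ) → ℝ) (E : ℝ)
    (f : (Fin d → ℤ) →₀ ℝ) (y : Fin d → ℤ) : ℝ :=
  (∑ w ∈ f.support, Kf T0 κ s y w * f w) + (V y - E) * f y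

/-- Admissible kernels. -/
structure Adm (T0 : (Fin d → ℤ) → (Fin d → ℤ) → ℝ) (κ : (Fin d → ℤ) → ℝ) (ρ0 b : ℝ) : Prop where
  T0symm : ∀ y w, T0 y w = T0 w y
  T0diag : ∀ y, T0 y y = 0
  T0range : ∀ y w, ρ0 < ‖y - w‖ → T0 y w = 0
  T0sum : ∀ y (F : Finset (Fin d → ℤ)), ∑ w ∈ F, |T0 y w| ≤ b
  κ0 : κ 0 = 0
  κsymm : ∀ y, κ (-y) = κ y
  κsq : Summable fun y => κ y ^ 2

/-- There are finitely supported trial functions with arbitrarily small quotient at `x`. -/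
def InfN (T0 : (Fin d → ℤ) → (Fin d → ℤ) → ℝ) (κ : (Fin d → ℤ) → ℝ)
    (s : Sym2 (Fin d → ℤ) → Bool) (V : (Fin d → ℤ) → ℝ) (E : ℝ) (x : Fin d → ℤ) (M : ℝ) : Prop :=
  ∃ f : (Fin d → ℤ) →₀ ℝ, Summable (fun y => (appl T0 κ s V E f y) ^ 2) ∧
    M * (∑' y, (appl T0 κ s V E f y) ^ 2) < f x ^ 2

/-- fair coin -/
noncomputable def coin : Measure Bool := (PMF.uniformOfFintype Bool).toMeasure

instance : IsProbabilityMeasure coin := by unfold coin; infer_instance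

/-- random signs on edges -/
noncomputable def Ps (d : ℕ) : Measure (Sym2 (Fin d → ℤ) → Bool) :=
  Measure.infinitePi (fun _ : Sym2 (Fin d → ℤ) => coin)

instance : IsProbabilityMeasure (Ps d) := by unfold Ps; infer_instance

/-- random potential -/
noncomputable def PV (d : ℕ) (v : NNReal) : Measure ((Fin d → ℤ) → ℝ) :=
  Measure.infinitePi (fun _ : (Fin d → ℤ) => gaussianReal 0 v)

instance (v : NNReal) : IsProbabilityMeasure (PV d v) := by unfold PV; infer_instance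

/-- `ψ` is a square summable real solution of `H ψ = E ψ`. -/
def IsEig (T0 : (Fin d → ℤ) → (Fin d → ℤ) → ℝ) (κ : (Fin d → ℤ) → ℝ)
    (s : Sym2 (Fin d → ℤ) → Bool) (V : (Fin d → ℤ) → ℝ) (E : ℝ) (ψ : (Fin d → ℤ) → ℝ) : Prop :=
  Summable (fun y => ψ y ^ 2) ∧ ∀ y, (∑' w, Kf T0 κ s y w * ψ w) + V y * ψ y = E * ψ y

/-- flipping the coins of a set of edges -/
def flipS (T : Set (Sym2 (Fin d → ℤ))) [DecidablePred (· ∈ T)]
    (s : Sym2 (Fin d → ℤ) → Bool) : Sym2 (Fin d → ℤ) → Bool :=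
  fun e => if e ∈ T then !(s e) else s e

end lattice

end H10PL
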