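import Pool.Agent.H10R2.PL.AsmD
import Pool.Agent.H10R2.PL.SWA

/-!
Definitions for the second theorem (arbitrary bounded single-site density).
-/

namespace H10PL

open MeasureTheory ProbabilityTheory Matrix Set

/-- law of an i.i.d. potential with single-site law `μ` -/
noncomputable def PVg (d : ℕ) (μ : Measure ℝ) : Measure ((Fin d → ℤ) → ℝ) :=
  Measure.infinitePi (fun _ : (Fin d → ℤ) => μ)

instance (d : ℕ) (μ : Measure ℝ) [IsProbabilityMeasure μ] : IsProbabilityMeasure (PVg d μ) := by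
  unfold PVg; infer_instance

section lattice

variable {d : ℕ}

/-- `((H - z) f)(y)` for a finitely supported complex `f`. -/
noncomputable def applC (T0 : (Fin d → ℤ) → (Fin d → ℤ) → ℝ) (κ : (Fin d → ℤ) → ℝ)
    (s : Sym2 (Fin d → ℤ) → Bool) (V : (Fin d → ℤ) → ℝ) (z : ℂ)
    (f : (Fin d → ℤ) →₀ ℂ) (y : Fin d → ℤ) : ℂ :=
  (∑ w ∈ f.support, (Kf T0 κ s y w : ℂ) * f w) + ((V y : ℂ) - z) * f y

/-- shift of the potential -/
def shV (a : Fin d → ℤ) (V : (Fin d → ℤ) → ℝ) : (Fin d → ℤ) → ℝ := fun y => V (y + a)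

/-- shift of the signs -/
def shS (a : Fin d → ℤ) (s : Sym2 (Fin d → ℤ) → Bool) : Sym2 (Fin d → ℤ) → Bool :=
  fun e => s (e.map (fun y => y + a))

/-- Green function of the box as a function on the lattice -/
noncomputable def uG (T0 : (Fin d → ℤ) → (Fin d → ℤ) → ℝ) (κ : (Fin d → ℤ) → ℝ) (ρ η : ℝ)
    (Λ : Finset (Fin d → ℤ)) (x : Fin d → ℤ) (hx : x ∈ Λ) (s : Sym2 (Fin d → ℤ) → Bool)
    (V : (Fin d → ℤ) → ℝ) (E : ℝ) (y : Fin d → ℤ) : ℂ :=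
  if hy : y ∈ Λ then Gm (Am T0 κ ρ Λ s) (fun i : Λ => V i) E η ⟨y, hy⟩ ⟨x, hx⟩ else 0

/-- with a cut-off -/
noncomputable def fG (T0 : (Fin d → ℤ) → (Fin d → ℤ) → ℝ) (κ : (Fin d → ℤ) → ℝ) (ρ η r : ℝ)
    (Λ : Finset (Fin d → ℤ)) (x : Fin d → ℤ) (hx : x ∈ Λ) (s : Sym2 (Fin d → ℤ) → Bool)
    (V : (Fin d → ℤ) → ℝ) (E : ℝ) (y : Fin d → ℤ) : ℂ :=
  if y ∈ Λ then ((max 0 (1 - ‖y - x‖ / r) : ℝ) : ℂ) * uG T0 κ ρ η Λ x hx s V E y else 0

end lattice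

end H10PL
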