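import Pool.Agent.H10R2.PL.Defs2
import Pool.Agent.H10R2.PL.Long

/-! Task 2-LNGC: long range error for the complex Green function (helper99). -/

namespace H10PL

open MeasureTheory ProbabilityTheory Matrix Set Filter

variable {d : ℕ} {T0 : (Fin d → ℤ) → (Fin d → ℤ) → ℝ} {κ : (Fin d → ℤ) → ℝ} {ρ0 b : ℝ}

namespace LNGC

theorem Gm_meas (_h : Adm T0 κ ρ0 b) (ρ η : ℝ) (Λ : Finset (Fin d → ℤ)) (i j : Λ) :
    Measurable fun p : (ℝ × (Λ → ℝ)) × (Sym2 (Fin d → ℤ) → Bool) =>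
      Gm (Am T0 κ ρ Λ p.2) p.1.2 p.1.1 η i j := by
  have hsg : Measurable sg := measurable_of_finite _
  refine measurable_Gm (fun p : (ℝ × (Λ → ℝ)) × (Sym2 (Fin d → ℤ) → Bool) => Am T0 κ ρ Λ p.2)
    ?_ (fun p => p.1.2) ?_ (fun p => p.1.1) ?_ η i j
  · intro i j
    unfold Am Kr Kf
    split_ifs
    · refine measurable_const.add (Measurable.mul_const ?_ _)
      exact hsg.comp ((measurable_pi_apply _).comp measurable_snd)
    · exact measurable_const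
  · intro i
    exact (measurable_pi_apply i).comp (measurable_snd.comp measurable_fst)
  · exact measurable_fst.comp measurable_fst

theorem uG_meas (h : Adm T0 κ ρ0 b) (ρ η : ℝ) (Λ : Finset (Fin d → ℤ)) (x : Fin d → ℤ)
    (hx : x ∈ Λ) (y : Fin d → ℤ) :
    Measurable fun q : (ℝ × ((Fin d → ℤ) → ℝ)) × (Sym2 (Fin d → ℤ) → Bool) =>
      uG T0 κ ρ η Λ x hx q.2 q.1.2 q.1.1 y := by
  unfold uG
  split_ifs with hy
  · have h2 : Measurable fun q : (ℝ × ((Fin d → ℤ) → ℝ)) × (Sym2 (Fin d → ℤ) → Bool) =>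
        (((q.1.1, fun i : Λ => q.1.2 i), q.2) : (ℝ × (Λ → ℝ)) × (Sym2 (Fin d → ℤ) → Bool)) := by
      refine Measurable.prodMk (Measurable.prodMk ?_ ?_) measurable_snd
      · exact measurable_fst.comp measurable_fst
      · refine measurable_pi_lambda _ fun i => ?_
        exact (measurable_pi_apply _).comp (measurable_snd.comp measurable_fst)
    have h1 := Gm_meas (d := d) h ρ η Λ ⟨y, hy⟩ ⟨x, hx⟩
    have h3 := Measurable.comp h1 h2
    simp only [Function.comp_def] at h3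
    exact h3
  · exact measurable_const

theorem fG_meas (h : Adm T0 κ ρ0 b) (ρ η r : ℝ) (Λ : Finset (Fin d → ℤ)) (x : Fin d → ℤ)
    (hx : x ∈ Λ) (y : Fin d → ℤ) :
    Measurable fun q : (ℝ × ((Fin d → ℤ) → ℝ)) × (Sym2 (Fin d → ℤ) → Bool) =>
      fG T0 κ ρ η r Λ x hx q.2 q.1.2 q.1.1 y := by
  unfold fG
  split_ifs with hy
  · exact (uG_meas h ρ η Λ x hx y).const_mul _
  · exact measurable_const

theorem fG_sq (h : Adm T0 κ ρ0 b) {ρ η r : ℝ} (hη : 0 < η) (hr : 0 < r)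
    (Λ : Finset (Fin d → ℤ)) (x : Fin d → ℤ)
    (hx : x ∈ Λ) (s : Sym2 (Fin d → ℤ) → Bool) (V : (Fin d → ℤ) → ℝ) (E : ℝ) :
    ∑ y ∈ Λ, ‖fG T0 κ ρ η r Λ x hx s V E y‖ ^ 2 ≤ 1 / η ^ 2 := by
  have h1 : ∑ i, ‖Gm (Am T0 κ ρ Λ s) (fun i : Λ => V i) E η i ⟨x, hx⟩‖ ^ 2 ≤ 1 / η ^ 2 := by
    rw [ward _ (Am_symm h ρ Λ s) _ E hη]
    calc Pm (Am T0 κ ρ Λ s) (fun i : Λ => V i) E η ⟨x, hx⟩ ⟨x, hx⟩ / η ≤ (1 / η) / η :=
          div_le_div_of_nonneg_right (Pm_diag_le _ (Am_symm h ρ Λ s) _ E hη _) hη.le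
      _ = 1 / η ^ 2 := by field_simp
  refine le_trans ?_ h1
  rw [← Finset.sum_coe_sort Λ]
  refine Finset.sum_le_sum fun i _ => ?_
  unfold fG
  rw [if_pos i.2]
  have h2 : uG T0 κ ρ η Λ x hx s V E i =
      Gm (Am T0 κ ρ Λ s) (fun i : Λ => V i) E η i ⟨x, hx⟩ := by
    unfold uG
    rw [dif_pos i.2]
  rw [h2, norm_mul, mul_pow, Complex.norm_real]
  have h3 : 0 ≤ max 0 (1 - ‖(i : Fin d → ℤ) - x‖ / r) := le_max_left _ _
  have h4 : max 0 (1 - ‖(i : Fin d → ℤ) - x‖ / r) ≤ 1 := by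
    refine max_le zero_le_one ?_
    have : 0 ≤ ‖(i : Fin d → ℤ) - x‖ / r := by positivity
    linarith
  rw [Real.norm_of_nonneg h3]
  have h5 : max 0 (1 - ‖(i : Fin d → ℤ) - x‖ / r) ^ 2 ≤ 1 := pow_le_one₀ h3 h4
  have h6 := sq_nonneg ‖Gm (Am T0 κ ρ Λ s) (fun i : Λ => V i) E η i ⟨x, hx⟩‖
  nlinarith

theorem norm_sq_eq (z : ℂ) : ‖z‖ ^ 2 = z.re ^ 2 + z.im ^ 2 := by
  rw [← Complex.normSq_eq_norm_sq, Complex.normSq_apply]; ring

/-- the long range residual of a real valued family -/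
noncomputable def Lr (T0 : (Fin d → ℤ) → (Fin d → ℤ) → ℝ) (κ : (Fin d → ℤ) → ℝ) (ρ : ℝ)
    (Λ : Finset (Fin d → ℤ))
    (f : (ℝ × ((Fin d → ℤ) → ℝ)) × (Sym2 (Fin d → ℤ) → Bool) → (Fin d → ℤ) → ℝ)
    (q : (ℝ × ((Fin d → ℤ) → ℝ)) × (Sym2 (Fin d → ℤ) → Bool)) : ENNReal :=
  ∑' y, ENNReal.ofReal ((∑ w ∈ Λ, (Kf T0 κ q.2 y w - Kr T0 κ ρ q.2 y w) * f q w) ^ 2)

theorem Lr_meas (ρ : ℝ) (Λ : Finset (Fin d → ℤ))
    (f : (ℝ × ((Fin d → ℤ) → ℝ)) × (Sym2 (Fin d → ℤ) → Bool) → (Fin d → ℤ) → ℝ)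
    (hf : ∀ w, Measurable fun q => f q w) : Measurable (Lr T0 κ ρ Λ f) := by
  have hsg : Measurable sg := measurable_of_finite _
  unfold Lr
  refine Measurable.tsum fun y => ?_
  refine ENNReal.measurable_ofReal.comp ?_
  refine Measurable.pow_const ?_ 2
  refine Finset.measurable_sum _ fun w _ => ?_
  refine Measurable.mul ?_ (hf w)
  have hK : Measurable fun q : (ℝ × ((Fin d → ℤ) → ℝ)) × (Sym2 (Fin d → ℤ) → Bool) =>
      Kf T0 κ q.2 y w := by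
    unfold Kf
    refine measurable_const.add (Measurable.mul_const ?_ _)
    exact hsg.comp ((measurable_pi_apply _).comp measurable_snd)
  refine hK.sub ?_
  unfold Kr
  split_ifs
  · exact hK
  · exact measurable_const

end LNGC

open LNGC

theorem long_complex (h : Adm T0 κ ρ0 b) (μ : Measure ℝ) [IsProbabilityMeasure μ] {ρ η r : ℝ}
    (hρ : ρ0 ≤ ρ) (hη : 0 < η)
    (hr : 0 < r) (Λ : Finset (Fin d → ℤ)) (x : Fin d → ℤ) (hx : x ∈ Λ) {K c : ℝ} (hK : 0 < K)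
    (hc : 0 < c) :
    ∃ Z : Set (ℝ × (((Fin d → ℤ) → ℝ) × (Sym2 (Fin d → ℤ) → Bool))), MeasurableSet Z ∧
      (∀ p, p ∉ Z → ∑' y, ‖∑ w ∈ Λ, ((Kf T0 κ p.2.2 y w - Kr T0 κ ρ p.2.2 y w : ℝ) : ℂ) *
        fG T0 κ ρ η r Λ x hx p.2.2 p.2.1 p.1 w‖ ^ 2 ≤ c) ∧
    ((volume.restrict (Icc (-K) K)).prod ((PVg d μ).prod (Ps d))) Z ≤
      ENNReal.ofReal (2 * K * (2 * (∑' y : Fin d → ℤ, if ρ < ‖y‖ then κ y ^ 2 else 0) *
        (1 / η ^ 2) / c)) := by
  set μE := (volume.restrict (Icc (-K) K) : Measure ℝ) with hμE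
  set tl := (∑' y : Fin d → ℤ, if ρ < ‖y‖ then κ y ^ 2 else 0) with htl
  have htl0 : 0 ≤ tl := tsum_nonneg fun y => by
    split_ifs
    · exact sq_nonneg _
    · exact le_rfl
  set fr : (ℝ × ((Fin d → ℤ) → ℝ)) × (Sym2 (Fin d → ℤ) → Bool) → (Fin d → ℤ) → ℝ :=
    fun q w => (fG T0 κ ρ η r Λ x hx q.2 q.1.2 q.1.1 w).re with hfr
  set fi : (ℝ × ((Fin d → ℤ) → ℝ)) × (Sym2 (Fin d → ℤ) → Bool) → (Fin d → ℤ) → ℝ :=
    fun q w => (fG T0 κ ρ η r Λ x hx q.2 q.1.2 q.1.1 w).im with hfi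
  have hfrm : ∀ w, Measurable fun q => fr q w := fun w =>
    Complex.measurable_re.comp (fG_meas h ρ η r Λ x hx w)
  have hfim : ∀ w, Measurable fun q => fi q w := fun w =>
    Complex.measurable_im.comp (fG_meas h ρ η r Λ x hx w)
  set L : (ℝ × ((Fin d → ℤ) → ℝ)) × (Sym2 (Fin d → ℤ) → Bool) → ENNReal :=
    fun q => Lr T0 κ ρ Λ fr q + Lr T0 κ ρ Λ fi q with hL
  have hLm : Measurable L := (Lr_meas ρ Λ fr hfrm).add (Lr_meas ρ Λ fi hfim)
  have hmp1 : MeasurePreserving (MeasurableEquiv.prodAssoc.symm :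
      ℝ × (((Fin d → ℤ) → ℝ) × (Sym2 (Fin d → ℤ) → Bool)) → _)
      (μE.prod ((PVg d μ).prod (Ps d))) ((μE.prod (PVg d μ)).prod (Ps d)) :=
    (measurePreserving_prodAssoc μE (PVg d μ) (Ps d)).symm
  set D : Set ((ℝ × ((Fin d → ℤ) → ℝ)) × (Sym2 (Fin d → ℤ) → Bool)) :=
    {q | ENNReal.ofReal c ≤ L q} with hD
  have hDm : MeasurableSet D := measurableSet_le measurable_const hLm
  refine ⟨(MeasurableEquiv.prodAssoc.symm :
        ℝ × (((Fin d → ℤ) → ℝ) × (Sym2 (Fin d → ℤ) → Bool)) → _) ⁻¹' D,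
    MeasurableEquiv.prodAssoc.symm.measurable hDm, fun p hp => ?_, ?_⟩
  · have hp' : L ((p.1, p.2.1), p.2.2) < ENNReal.ofReal c := not_le.1 hp
    by_cases hsum : Summable fun y => ‖∑ w ∈ Λ, ((Kf T0 κ p.2.2 y w - Kr T0 κ ρ p.2.2 y w : ℝ) : ℂ) *
        fG T0 κ ρ η r Λ x hx p.2.2 p.2.1 p.1 w‖ ^ 2
    · have h1 : L ((p.1, p.2.1), p.2.2) = ENNReal.ofReal (∑' y,
          ‖∑ w ∈ Λ, ((Kf T0 κ p.2.2 y w - Kr T0 κ ρ p.2.2 y w : ℝ) : ℂ) *
            fG T0 κ ρ η r Λ x hx p.2.2 p.2.1 p.1 w‖ ^ 2) := by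
        rw [ENNReal.ofReal_tsum_of_nonneg (fun y => sq_nonneg _) hsum, hL]
        simp only
        unfold Lr
        rw [← ENNReal.tsum_add]
        refine tsum_congr fun y => ?_
        rw [← ENNReal.ofReal_add (sq_nonneg _) (sq_nonneg _), norm_sq_eq, Complex.re_sum,
          Complex.im_sum]
        have e1 : ∑ w ∈ Λ, (((Kf T0 κ p.2.2 y w - Kr T0 κ ρ p.2.2 y w : ℝ) : ℂ) *
            fG T0 κ ρ η r Λ x hx p.2.2 p.2.1 p.1 w).re =
            ∑ w ∈ Λ, (Kf T0 κ p.2.2 y w - Kr T0 κ ρ p.2.2 y w) * fr ((p.1, p.2.1), p.2.2) w := by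
          refine Finset.sum_congr rfl fun w _ => ?_
          rw [Complex.re_ofReal_mul]
        have e2 : ∑ w ∈ Λ, (((Kf T0 κ p.2.2 y w - Kr T0 κ ρ p.2.2 y w : ℝ) : ℂ) *
            fG T0 κ ρ η r Λ x hx p.2.2 p.2.1 p.1 w).im =
            ∑ w ∈ Λ, (Kf T0 κ p.2.2 y w - Kr T0 κ ρ p.2.2 y w) * fi ((p.1, p.2.1), p.2.2) w := by
          refine Finset.sum_congr rfl fun w _ => ?_
          rw [Complex.im_ofReal_mul]
        rw [e1, e2]
      rw [h1] at hp'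
      exact ((ENNReal.ofReal_lt_ofReal_iff hc).1 hp').le
    · rw [tsum_eq_zero_of_not_summable hsum]
      exact hc.le
  rw [hmp1.measure_preimage hDm.nullMeasurableSet, Measure.prod_apply hDm]
  have hc' : ENNReal.ofReal c ≠ 0 := by
    simpa using hc
  have hpt : ∀ q : ℝ × ((Fin d → ℤ) → ℝ), (Ps d) (Prod.mk q ⁻¹' D) ≤
      ENNReal.ofReal (2 * tl * (1 / η ^ 2) / c) := by
    intro q
    have hone : ∀ (f : (ℝ × ((Fin d → ℤ) → ℝ)) × (Sym2 (Fin d → ℤ) → Bool) → (Fin d → ℤ) → ℝ),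
        (∀ w, Measurable fun q => f q w) →
        (∀ s s' : Sym2 (Fin d → ℤ) → Bool, Am T0 κ ρ Λ s' = Am T0 κ ρ Λ s → f (q, s') = f (q, s)) →
        (∀ s, ∑ y ∈ Λ, f (q, s) y ^ 2 ≤ 1 / η ^ 2) →
        ∫⁻ s, Lr T0 κ ρ Λ f (q, s) ∂(Ps d) ≤ ENNReal.ofReal (tl * (1 / η ^ 2)) := by
      intro f hfm hupd hsq
      have hfm' : ∀ y, Measurable fun s : Sym2 (Fin d → ℤ) → Bool => f (q, s) y := by
        intro y
        have h2 : Measurable fun s : Sym2 (Fin d → ℤ) → Bool => (q, s) := measurable_prodMk_left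
        have h3 := Measurable.comp (hfm y) h2
        simp only [Function.comp_def] at h3
        exact h3
      exact long_exp h hρ Λ (fun s => f (q, s)) hfm' (by
        intro s y w t hyw
        exact hupd _ _ (Am_update ρ Λ s y w t hyw)) (N := 1 / η ^ 2) hsq
    have h1 : ∫⁻ s, L (q, s) ∂(Ps d) ≤ ENNReal.ofReal (2 * tl * (1 / η ^ 2)) := by
      rw [hL]
      simp only
      have hm1 : Measurable fun s : Sym2 (Fin d → ℤ) → Bool => Lr T0 κ ρ Λ fr (q, s) :=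
        (Lr_meas ρ Λ fr hfrm).comp measurable_prodMk_left
      rw [lintegral_add_left hm1]
      have e : 2 * tl * (1 / η ^ 2) = tl * (1 / η ^ 2) + tl * (1 / η ^ 2) := by ring
      rw [e, ENNReal.ofReal_add (by positivity) (by positivity)]
      refine add_le_add (hone fr hfrm ?_ ?_) (hone fi hfim ?_ ?_)
      · intro s s' hs
        funext z
        rw [hfr]
        simp only
        unfold fG uG
        rw [hs]
      · intro s
        refine le_trans (Finset.sum_le_sum fun y _ => ?_) (fG_sq (ρ := ρ) h hη hr Λ x hx s q.2 q.1)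
        rw [norm_sq_eq]
        exact le_add_of_nonneg_right (sq_nonneg _)
      · intro s s' hs
        funext z
        rw [hfi]
        simp only
        unfold fG uG
        rw [hs]
      · intro s
        refine le_trans (Finset.sum_le_sum fun y _ => ?_) (fG_sq (ρ := ρ) h hη hr Λ x hx s q.2 q.1)
        rw [norm_sq_eq]
        exact le_add_of_nonneg_left (sq_nonneg _)
    have h2 : (Ps d) (Prod.mk q ⁻¹' D) ≤ (∫⁻ s, L (q, s) ∂(Ps d)) / ENNReal.ofReal c := by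
      have := meas_ge_le_lintegral_div (μ := Ps d) (f := fun s => L (q, s))
        ((hLm.comp measurable_prodMk_left).aemeasurable) hc' ENNReal.ofReal_ne_top
      exact this
    refine h2.trans ?_
    rw [ENNReal.ofReal_div_of_pos hc]
    gcongr
  calc ∫⁻ q, (Ps d) (Prod.mk q ⁻¹' D) ∂(μE.prod (PVg d μ))
      ≤ ∫⁻ _q, ENNReal.ofReal (2 * tl * (1 / η ^ 2) / c) ∂(μE.prod (PVg d μ)) := lintegral_mono hpt
    _ = ENNReal.ofReal (2 * tl * (1 / η ^ 2) / c) * (μE.prod (PVg d μ)) univ := by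
        rw [lintegral_const]
    _ = ENNReal.ofReal (2 * tl * (1 / η ^ 2) / c) * ENNReal.ofReal (2 * K) := by
        congr 1
        rw [← univ_prod_univ, Measure.prod_prod, measure_univ (μ := PVg d μ), mul_one, hμE,
          Measure.restrict_apply_univ, Real.volume_Icc]
        congr 1
        ring
    _ = ENNReal.ofReal (2 * K * (2 * tl * (1 / η ^ 2) / c)) := by
        rw [← ENNReal.ofReal_mul (by positivity), mul_comm]

end H10PL
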