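import Pool.Agent.H10R2.PL.Defs2

/-! Task PAIR: lower bound for the Green function from an eigenvector. -/

namespace H10PL

open MeasureTheory ProbabilityTheory Matrix Set

section lattice

variable {d : ℕ} {T0 : (Fin d → ℤ) → (Fin d → ℤ) → ℝ} {κ : (Fin d → ℤ) → ℝ} {ρ0 b : ℝ}

/-- lower bound for the Green function from an eigenvector (any complex energy) -/
theorem eig_le (h : Adm T0 κ ρ0 b) (s : Sym2 (Fin d → ℤ) → Bool) (V : (Fin d → ℤ) → ℝ)
    (z E0 : ℂ) (x : Fin d → ℤ) (f : (Fin d → ℤ) →₀ ℂ) {e N : ℝ} (he : 0 ≤ e) (hN : 0 ≤ N)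
    (hs : Summable (fun y => ‖applC T0 κ s V z f y - if y = x then 1 else 0‖ ^ 2))
    (hr : ∑' y, ‖applC T0 κ s V z f y - if y = x then 1 else 0‖ ^ 2 ≤ e ^ 2)
    (hfN : ∑ y ∈ f.support, ‖f y‖ ^ 2 ≤ N ^ 2)
    (ψ : (Fin d → ℤ) → ℂ) (hψ : Summable fun y => ‖ψ y‖ ^ 2)
    (hE : ∀ y, (∑' w, (Kf T0 κ s y w : ℂ) * ψ w) + (V y : ℂ) * ψ y = E0 * ψ y) :
    ‖ψ x‖ ≤ Real.sqrt (∑' y, ‖ψ y‖ ^ 2) * (e + ‖E0 - z‖ * N) := by
  classical
  set P := ∑' y, ‖ψ y‖ ^ 2 with hP
  have hP0 : 0 ≤ P := tsum_nonneg fun y => sq_nonneg _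
  set r : (Fin d → ℤ) → ℂ := fun y => applC T0 κ s V z f y - if y = x then 1 else 0 with hrdef
  have hKψ : ∀ w, Summable fun y => (Kf T0 κ s w y : ℂ) * ψ y := by
    intro w
    have h1 := (cs_tsum (f := fun y => |Kf T0 κ s w y|) (g := fun y => ‖ψ y‖)
      (by simpa only [sq_abs] using Kf_sq_summable h s w) hψ).1
    refine Summable.of_norm ?_
    refine h1.congr fun y => ?_
    rw [norm_mul, Complex.norm_real, Real.norm_eq_abs]
  -- the pairing
  have hpair : HasSum (fun y => applC T0 κ s V z f y * ψ y)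
      ((E0 - z) * ∑ w ∈ f.support, f w * ψ w) := by
    have h1 : ∀ w ∈ f.support, HasSum (fun y => (Kf T0 κ s y w : ℂ) * f w * ψ y)
        (f w * ∑' y, (Kf T0 κ s w y : ℂ) * ψ y) := by
      intro w _
      have h2 := (hKψ w).hasSum.mul_left (f w)
      have e1 : (fun y => (Kf T0 κ s y w : ℂ) * f w * ψ y) =
          fun y => f w * ((Kf T0 κ s w y : ℂ) * ψ y) := by
        funext y
        rw [Kf_symm h s y w]
        ring
      rw [e1]
      exact h2
    have h3 : HasSum (fun y => ∑ w ∈ f.support, (Kf T0 κ s y w : ℂ) * f w * ψ y)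
        (∑ w ∈ f.support, f w * ∑' y, (Kf T0 κ s w y : ℂ) * ψ y) := hasSum_sum h1
    have h4 : HasSum (fun y => ((V y : ℂ) - z) * f y * ψ y)
        (∑ w ∈ f.support, ((V w : ℂ) - z) * f w * ψ w) := by
      apply hasSum_sum_of_ne_finset_zero
      intro y hy
      rw [Finsupp.notMem_support_iff.mp hy]
      ring
    have h5 := h3.add h4
    rw [← Finset.sum_add_distrib] at h5
    have h6 : ∑ w ∈ f.support, (f w * ∑' y, (Kf T0 κ s w y : ℂ) * ψ y +
        ((V w : ℂ) - z) * f w * ψ w) = (E0 - z) * ∑ w ∈ f.support, f w * ψ w := by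
      rw [Finset.mul_sum]
      refine Finset.sum_congr rfl fun w _ => ?_
      have h8 : ∑' y, (Kf T0 κ s w y : ℂ) * ψ y = E0 * ψ w - (V w : ℂ) * ψ w := by
        rw [← hE w]; ring
      rw [h8]
      ring
    rw [h6] at h5
    refine h5.congr_fun ?_ |> fun h => h
    intro y
    unfold applC
    rw [add_mul, Finset.sum_mul]
  have hrψ := cs_tsum (f := fun y => ‖r y‖) (g := fun y => ‖ψ y‖) hs hψ
  have hrs : Summable fun y => r y * ψ y := by
    refine Summable.of_norm (hrψ.1.congr fun y => ?_)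
    rw [norm_mul]
  have hdelta : HasSum (fun y => (if y = x then (1 : ℂ) else 0) * ψ y) (ψ x) := by
    have := hasSum_ite_eq x (ψ x)
    refine this.congr_fun ?_ |> fun h => h
    intro y
    by_cases hy : y = x
    · rw [hy]; simp
    · simp [hy]
  have hsum2 : HasSum (fun y => applC T0 κ s V z f y * ψ y) ((∑' y, r y * ψ y) + ψ x) := by
    have h1 := hrs.hasSum.add hdelta
    refine h1.congr_fun ?_ |> fun h => h
    intro y
    simp only [hrdef]
    ring
  have heq := hpair.unique hsum2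
  have hψx : ψ x = (E0 - z) * (∑ w ∈ f.support, f w * ψ w) - ∑' y, r y * ψ y := by
    rw [heq]; ring
  have hb1 : ‖∑' y, r y * ψ y‖ ≤ Real.sqrt P * e := by
    have h1 : ‖∑' y, r y * ψ y‖ ≤ ∑' y, ‖r y‖ * ‖ψ y‖ := by
      have h2 := norm_tsum_le_tsum_norm (f := fun y => r y * ψ y) (by
        refine hrψ.1.congr fun y => ?_
        rw [norm_mul])
      simpa only [norm_mul] using h2
    refine h1.trans ?_
    have h3 : (∑' y, ‖r y‖ * ‖ψ y‖) ^ 2 ≤ (Real.sqrt P * e) ^ 2 := by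
      rw [mul_pow, Real.sq_sqrt hP0, mul_comm P]
      refine hrψ.2.trans ?_
      exact mul_le_mul_of_nonneg_right hr hP0
    exact le_of_sq_le_sq h3 (by positivity) |> fun h => h
  have hb2 : ‖∑ w ∈ f.support, f w * ψ w‖ ≤ Real.sqrt P * N := by
    have h1 : ‖∑ w ∈ f.support, f w * ψ w‖ ≤ ∑ w ∈ f.support, ‖f w‖ * ‖ψ w‖ := by
      refine (norm_sum_le _ _).trans (le_of_eq ?_)
      exact Finset.sum_congr rfl fun w _ => norm_mul _ _
    refine h1.trans ?_
    have h3 : (∑ w ∈ f.support, ‖f w‖ * ‖ψ w‖) ^ 2 ≤ (Real.sqrt P * N) ^ 2 := by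
      rw [mul_pow, Real.sq_sqrt hP0, mul_comm P]
      refine (Finset.sum_mul_sq_le_sq_mul_sq _ _ _).trans ?_
      exact mul_le_mul hfN (hψ.sum_le_tsum _ (fun y _ => sq_nonneg _))
        (Finset.sum_nonneg fun y _ => sq_nonneg _) (sq_nonneg _)
    exact le_of_sq_le_sq h3 (by positivity) |> fun h => h
  calc ‖ψ x‖ = ‖(E0 - z) * (∑ w ∈ f.support, f w * ψ w) - ∑' y, r y * ψ y‖ := by rw [← hψx]
    _ ≤ ‖(E0 - z) * (∑ w ∈ f.support, f w * ψ w)‖ + ‖∑' y, r y * ψ y‖ := norm_sub_le _ _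
    _ ≤ ‖E0 - z‖ * (Real.sqrt P * N) + Real.sqrt P * e := by
        rw [norm_mul]
        gcongr
    _ = Real.sqrt P * (e + ‖E0 - z‖ * N) := by ring

end lattice

end H10PL
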