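import Pool.Agent.H10R2.PL.Defs2
import Pool.Agent.H10R2.PL.Trial

/-!
Task TRC: complex trial functions, `(H - z)(χ u) = δ_x + small` (helper204 for helper10).
-/

namespace H10PL

open MeasureTheory ProbabilityTheory Matrix Set

variable {d : ℕ} {T0 : (Fin d → ℤ) → (Fin d → ℤ) → ℝ} {κ : (Fin d → ℤ) → ℝ} {ρ0 b : ℝ}

private theorem trc_norm_sq (c : ℂ) : ‖c‖ ^ 2 = c.re ^ 2 + c.im ^ 2 := by
  rw [Complex.sq_norm, Complex.normSq_apply]; ring

private theorem trc_re_sum {α : Type*} (Λ : Finset α) (k : α → ℝ) (u : α → ℂ) :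
    (∑ w ∈ Λ, ((k w : ℝ) : ℂ) * u w).re = ∑ w ∈ Λ, k w * (u w).re := by
  rw [Complex.re_sum]
  exact Finset.sum_congr rfl fun w _ => Complex.re_ofReal_mul _ _

private theorem trc_im_sum {α : Type*} (Λ : Finset α) (k : α → ℝ) (u : α → ℂ) :
    (∑ w ∈ Λ, ((k w : ℝ) : ℂ) * u w).im = ∑ w ∈ Λ, k w * (u w).im := by
  rw [Complex.im_sum]
  exact Finset.sum_congr rfl fun w _ => Complex.im_ofReal_mul _ _

/-- Schur test without square roots -/
private theorem trc_schur {α : Type*} [DecidableEq α] (Λ : Finset α) (k : α → α → ℝ)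
    (hk : ∀ y w, |k y w| = |k w y|)
    {T q : ℝ} (hT0 : 0 ≤ T) (hq : 0 ≤ q) (hT : ∀ y, ∑ w ∈ Λ, |k y w| ≤ T)
    (D : α → α → ℝ) (hD : ∀ y w, |D y w| ≤ q * |k y w|) (u : α → ℝ) :
    ∑ y ∈ Λ, (∑ w ∈ Λ, D y w * u w) ^ 2 ≤ (q * T) ^ 2 * ∑ y ∈ Λ, u y ^ 2 := by
  have h := trial_schur_test Λ k hk hT0 hq hT D hD u
  have h0 : 0 ≤ ∑ y ∈ Λ, (∑ w ∈ Λ, D y w * u w) ^ 2 := Finset.sum_nonneg fun _ _ => sq_nonneg _
  have h1 : 0 ≤ ∑ y ∈ Λ, u y ^ 2 := Finset.sum_nonneg fun _ _ => sq_nonneg _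
  have h2 := pow_le_pow_left₀ (Real.sqrt_nonneg _) h 2
  rw [mul_pow, Real.sq_sqrt h0, Real.sq_sqrt h1] at h2
  exact h2

theorem trial_complex (h : Adm T0 κ ρ0 b) (s : Sym2 (Fin d → ℤ) → Bool)
    (V : (Fin d → ℤ) → ℝ) (z : ℂ) (x : Fin d → ℤ) {ρ r T : ℝ} (hρ : ρ0 ≤ ρ) (hρ0 : 0 ≤ ρ)
    (hr : 0 < r) (Λ : Finset (Fin d → ℤ)) (hΛ : ∀ y, ‖y - x‖ ≤ r + ρ → y ∈ Λ)
    (u : (Fin d → ℤ) → ℂ) (f : (Fin d → ℤ) →₀ ℂ)
    (hf : ∀ y, f y = if y ∈ Λ then ((max 0 (1 - ‖y - x‖ / r) : ℝ) : ℂ) * u y else 0)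
    (hu : ∀ y ∈ Λ, (∑ w ∈ Λ, (Kr T0 κ ρ s y w : ℂ) * u w) + ((V y : ℂ) - z) * u y =
      if y = x then 1 else 0)
    (hT0 : 0 ≤ T) (hT : ∀ y, ∑ w ∈ Λ, |Kr T0 κ ρ s y w| ≤ T) :
    Summable (fun y => ‖applC T0 κ s V z f y - if y = x then 1 else 0‖ ^ 2) ∧
    ∑' y, ‖applC T0 κ s V z f y - if y = x then 1 else 0‖ ^ 2 ≤
      2 * ((ρ / r) * T) ^ 2 * (∑ y ∈ Λ, ‖u y‖ ^ 2) +
      2 * ∑' y, ‖∑ w ∈ Λ, ((Kf T0 κ s y w - Kr T0 κ ρ s y w : ℝ) : ℂ) * f w‖ ^ 2 := by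
  classical
  set χ : (Fin d → ℤ) → ℝ := fun y => max 0 (1 - ‖y - x‖ / r) with hχ
  have hxΛ : x ∈ Λ := hΛ x (by rw [sub_self, norm_zero]; linarith)
  have hχx : χ x = 1 := by
    simp only [hχ, sub_self, norm_zero, zero_div, sub_zero]
    exact max_eq_right zero_le_one
  have hχl : ∀ y w, |χ w - χ y| ≤ ‖y - w‖ / r := by
    intro y w
    have h1 : |χ w - χ y| ≤ |(1 - ‖w - x‖ / r) - (1 - ‖y - x‖ / r)| := by
      have := abs_max_sub_max_le_abs (1 - ‖w - x‖ / r) (1 - ‖y - x‖ / r) 0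
      simpa [hχ, max_comm] using this
    have h2 : (1 - ‖w - x‖ / r) - (1 - ‖y - x‖ / r) = (‖y - x‖ - ‖w - x‖) / r := by ring
    rw [h2, abs_div, abs_of_pos hr] at h1
    refine h1.trans ?_
    refine div_le_div_of_nonneg_right ?_ hr.le
    have := abs_norm_sub_norm_le (y - x) (w - x)
    simpa using this
  have hsupp : f.support ⊆ Λ := by
    intro y hy
    by_contra hn
    have := hf y
    rw [if_neg hn] at this
    exact (Finsupp.mem_support_iff.mp hy) this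
  have hsum : ∀ y, ∑ w ∈ f.support, (Kf T0 κ s y w : ℂ) * f w =
      ∑ w ∈ Λ, (Kf T0 κ s y w : ℂ) * f w := by
    intro y
    refine Finset.sum_subset hsupp fun w _ hw => ?_
    rw [Finsupp.notMem_support_iff.mp hw, mul_zero]
  set B : (Fin d → ℤ) → ℂ := fun y => if y ∈ Λ then
    ∑ w ∈ Λ, ((Kr T0 κ ρ s y w * (χ w - χ y) : ℝ) : ℂ) * u w else 0 with hB
  set C : (Fin d → ℤ) → ℂ := fun y =>
    ∑ w ∈ Λ, ((Kf T0 κ s y w - Kr T0 κ ρ s y w : ℝ) : ℂ) * f w with hC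
  have hdec : ∀ y, applC T0 κ s V z f y - (if y = x then 1 else 0) = B y + C y := by
    intro y
    unfold applC
    rw [hsum y]
    have h1 : ∑ w ∈ Λ, (Kf T0 κ s y w : ℂ) * f w =
        ∑ w ∈ Λ, (Kr T0 κ ρ s y w : ℂ) * f w + C y := by
      rw [hC, ← Finset.sum_add_distrib]
      refine Finset.sum_congr rfl fun w _ => ?_
      push_cast
      ring
    rw [h1]
    by_cases hy : y ∈ Λ
    · have h2 : ∑ w ∈ Λ, (Kr T0 κ ρ s y w : ℂ) * f w =
          (χ y : ℂ) * (∑ w ∈ Λ, (Kr T0 κ ρ s y w : ℂ) * u w) + B y := by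
        simp only [hB, if_pos hy]
        rw [Finset.mul_sum, ← Finset.sum_add_distrib]
        refine Finset.sum_congr rfl fun w hw => ?_
        rw [hf w, if_pos hw]
        simp only [hχ]
        push_cast
        ring
      have h3 := hu y hy
      have h4 : (χ y : ℂ) * (if y = x then 1 else 0) = if y = x then 1 else 0 := by
        by_cases hyx : y = x
        · rw [if_pos hyx, hyx, hχx]; norm_num
        · rw [if_neg hyx, mul_zero]
      rw [h2, hf y, if_pos hy]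
      have h5 : (χ y : ℂ) * (∑ w ∈ Λ, (Kr T0 κ ρ s y w : ℂ) * u w) +
          ((V y : ℂ) - z) * ((χ y : ℂ) * u y) = if y = x then 1 else 0 := by
        rw [← h4, ← h3]; ring
      have h6 : ((max 0 (1 - ‖y - x‖ / r) : ℝ) : ℂ) = (χ y : ℂ) := rfl
      rw [h6]
      linear_combination h5
    · have h2 : ∑ w ∈ Λ, (Kr T0 κ ρ s y w : ℂ) * f w = 0 := by
        refine Finset.sum_eq_zero fun w hw => ?_
        by_contra hne
        have h3 : (Kr T0 κ ρ s y w : ℂ) ≠ 0 := left_ne_zero_of_mul hne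
        have h4 : f w ≠ 0 := right_ne_zero_of_mul hne
        have h5 : ‖y - w‖ ≤ ρ := by
          by_contra hn
          exact h3 (by unfold Kr; rw [if_neg hn]; norm_num)
        have h6 : ‖w - x‖ ≤ r := by
          by_contra hn
          refine h4 ?_
          rw [hf w, if_pos hw]
          have : max 0 (1 - ‖w - x‖ / r) = 0 := by
            refine max_eq_left ?_
            have : 1 ≤ ‖w - x‖ / r := by
              rw [le_div_iff₀ hr]; linarith [not_le.mp hn]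
            linarith
          rw [this]; norm_num
        refine hy (hΛ y ?_)
        calc ‖y - x‖ = ‖(y - w) + (w - x)‖ := by congr 1; abel
          _ ≤ ‖y - w‖ + ‖w - x‖ := norm_add_le _ _
          _ ≤ r + ρ := by linarith
      have hyx : y ≠ x := fun he => hy (he ▸ hxΛ)
      rw [h2, hf y, if_neg hy, if_neg hyx]
      simp only [hB, if_neg hy]
      ring
  have hBs : Summable fun y => ‖B y‖ ^ 2 := by
    refine summable_of_ne_finset_zero (s := Λ) fun y hy => ?_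
    simp only [hB, if_neg hy]; norm_num
  have hCs : Summable fun y => ‖C y‖ ^ 2 := by
    have h1 := trial_long_sq_summable h hρ s Λ (fun w => (f w).re)
    have h2 := trial_long_sq_summable h hρ s Λ (fun w => (f w).im)
    refine (h1.add h2).congr fun y => ?_
    rw [trc_norm_sq]
    simp only [hC]
    rw [trc_re_sum, trc_im_sum]
  have hle : ∀ y, ‖applC T0 κ s V z f y - (if y = x then 1 else 0)‖ ^ 2 ≤
      2 * ‖B y‖ ^ 2 + 2 * ‖C y‖ ^ 2 := by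
    intro y
    rw [hdec y]
    have h1 := norm_add_le (B y) (C y)
    have h2 : ‖B y + C y‖ ^ 2 ≤ (‖B y‖ + ‖C y‖) ^ 2 := pow_le_pow_left₀ (norm_nonneg _) h1 2
    nlinarith [sq_nonneg (‖B y‖ - ‖C y‖)]
  have hS : Summable fun y => 2 * ‖B y‖ ^ 2 + 2 * ‖C y‖ ^ 2 := (hBs.mul_left 2).add (hCs.mul_left 2)
  have hsm : Summable (fun y => ‖applC T0 κ s V z f y - if y = x then 1 else 0‖ ^ 2) :=
    Summable.of_nonneg_of_le (fun y => sq_nonneg _) hle hS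
  refine ⟨hsm, ?_⟩
  have hBsum : ∑' y, ‖B y‖ ^ 2 ≤ ((ρ / r) * T) ^ 2 * ∑ y ∈ Λ, ‖u y‖ ^ 2 := by
    rw [tsum_eq_sum (s := Λ) (fun y hy => by simp only [hB, if_neg hy]; norm_num)]
    have h1 : ∀ y ∈ Λ, ‖B y‖ ^ 2 =
        (∑ w ∈ Λ, (Kr T0 κ ρ s y w * (χ w - χ y)) * (u w).re) ^ 2 +
        (∑ w ∈ Λ, (Kr T0 κ ρ s y w * (χ w - χ y)) * (u w).im) ^ 2 := by
      intro y hy
      rw [trc_norm_sq]
      simp only [hB, if_pos hy]
      rw [trc_re_sum, trc_im_sum]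
    rw [Finset.sum_congr rfl h1, Finset.sum_add_distrib]
    have hD : ∀ y w, |Kr T0 κ ρ s y w * (χ w - χ y)| ≤ (ρ / r) * |Kr T0 κ ρ s y w| := by
      intro y w
      rw [abs_mul, mul_comm (ρ / r)]
      by_cases hc : ‖y - w‖ ≤ ρ
      · refine mul_le_mul_of_nonneg_left ?_ (abs_nonneg _)
        exact (hχl y w).trans (div_le_div_of_nonneg_right hc hr.le)
      · have : Kr T0 κ ρ s y w = 0 := by unfold Kr; rw [if_neg hc]
        rw [this]; simp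
    have hsym : ∀ y w, |Kr T0 κ ρ s y w| = |Kr T0 κ ρ s w y| := fun y w => by
      rw [trial_Kr_symm h ρ s y w]
    have e1 := trc_schur Λ (fun y w => Kr T0 κ ρ s y w) hsym hT0 (div_nonneg hρ0 hr.le) hT
      (fun y w => Kr T0 κ ρ s y w * (χ w - χ y)) hD (fun w => (u w).re)
    have e2 := trc_schur Λ (fun y w => Kr T0 κ ρ s y w) hsym hT0 (div_nonneg hρ0 hr.le) hT
      (fun y w => Kr T0 κ ρ s y w * (χ w - χ y)) hD (fun w => (u w).im)
    have e3 : ∑ y ∈ Λ, ‖u y‖ ^ 2 = ∑ y ∈ Λ, (u y).re ^ 2 + ∑ y ∈ Λ, (u y).im ^ 2 := by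
      rw [← Finset.sum_add_distrib]
      exact Finset.sum_congr rfl fun y _ => trc_norm_sq _
    rw [e3, mul_add]
    exact add_le_add e1 e2
  calc ∑' y, ‖applC T0 κ s V z f y - if y = x then 1 else 0‖ ^ 2
      ≤ ∑' y, (2 * ‖B y‖ ^ 2 + 2 * ‖C y‖ ^ 2) := hsm.tsum_le_tsum hle hS
    _ = 2 * ∑' y, ‖B y‖ ^ 2 + 2 * ∑' y, ‖C y‖ ^ 2 := by
        rw [(hBs.mul_left 2).tsum_add (hCs.mul_left 2), tsum_mul_left, tsum_mul_left]
    _ ≤ 2 * (((ρ / r) * T) ^ 2 * ∑ y ∈ Λ, ‖u y‖ ^ 2) + 2 * ∑' y, ‖C y‖ ^ 2 := by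
        gcongr
    _ = _ := by ring

end H10PL
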