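import Pool.Agent.H10R2.PL.Par
import Pool.Agent.H10R2.PL.Trc
import Pool.Agent.H10R2.PL.Pair
import Pool.Agent.H10R2.PL.Lngc

namespace H10PL

open MeasureTheory ProbabilityTheory Matrix Set Filter

variable {d : ℕ} {T0 : (Fin d → ℤ) → (Fin d → ℤ) → ℝ} {κ : (Fin d → ℤ) → ℝ} {ρ0 b : ℝ}

/-- `ψ` is a square summable complex solution of `H ψ = E0 ψ` -/
def EigC (T0 : (Fin d → ℤ) → (Fin d → ℤ) → ℝ) (κ : (Fin d → ℤ) → ℝ)
    (s : Sym2 (Fin d → ℤ) → Bool) (V : (Fin d → ℤ) → ℝ) (E0 : ℂ) (ψ : (Fin d → ℤ) → ℂ) : Prop :=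
  Summable (fun y => ‖ψ y‖ ^ 2) ∧
    ∀ y, (∑' w, (Kf T0 κ s y w : ℂ) * ψ w) + (V y : ℂ) * ψ y = E0 * ψ y

theorem gf_bound (h : Adm T0 κ ρ0 b) (s : Sym2 (Fin d → ℤ) → Bool) (V : (Fin d → ℤ) → ℝ)
    (E : ℝ) (x : Fin d → ℤ) {ρ r T η e : ℝ} (hρ : ρ0 ≤ ρ) (hρ0 : 0 ≤ ρ) (hr : 0 < r)
    (hη : 0 < η) (Λ : Finset (Fin d → ℤ)) (hΛ : ∀ y, ‖y - x‖ ≤ r + ρ → y ∈ Λ) (hx : x ∈ Λ)
    (hT0 : 0 ≤ T) (hT : ∀ y, ∑ w ∈ Λ, |Kr T0 κ ρ s y w| ≤ T) (he : 0 ≤ e)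
    (hc1 : 2 * ((ρ / r) * T) ^ 2 * (1 / η ^ 2) ≤ e ^ 2 / 2)
    (hc2 : ∑' y, ‖∑ w ∈ Λ, ((Kf T0 κ s y w - Kr T0 κ ρ s y w : ℝ) : ℂ) *
        fG T0 κ ρ η r Λ x hx s V E w‖ ^ 2 ≤ e ^ 2 / 4)
    (E0 : ℂ) (ψ : (Fin d → ℤ) → ℂ) (hψ : EigC T0 κ s V E0 ψ) :
    ‖ψ x‖ ≤ Real.sqrt (∑' y, ‖ψ y‖ ^ 2) * (e + ‖E0 - ((E : ℂ) + (η : ℂ) * Complex.I)‖ *
      Real.sqrt (Pm (Am T0 κ ρ Λ s) (fun i : Λ => V i) E η ⟨x, hx⟩ ⟨x, hx⟩ / η)) := by
  classical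
  set A := Am T0 κ ρ Λ s with hA
  set X : Λ := ⟨x, hx⟩ with hX
  set z : ℂ := (E : ℂ) + (η : ℂ) * Complex.I with hz
  set g := fG T0 κ ρ η r Λ x hx s V E with hg
  have hAs : A.IsSymm := Am_symm h ρ Λ s
  have hg0 : ∀ y, y ∉ Λ → g y = 0 := by
    intro y hy
    simp [hg, fG, hy]
  let f : (Fin d → ℤ) →₀ ℂ := Finsupp.onFinset Λ g (fun y hy => by
    by_contra hc
    exact hy (hg0 y hc))
  have hfg : ∀ y, f y = g y := fun y => rfl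
  set u := uG T0 κ ρ η Λ x hx s V E with hu
  have huΛ : ∀ i : Λ, u i = Gm A (fun i : Λ => V i) E η i X := by
    intro i
    simp [hu, uG, hA, hX]
  have hf : ∀ y, f y = if y ∈ Λ then ((max 0 (1 - ‖y - x‖ / r) : ℝ) : ℂ) * u y else 0 := by
    intro y
    rw [hfg]
    simp only [hg, fG, hu]
  have hward : ∑ y ∈ Λ, ‖u y‖ ^ 2 = Pm A (fun i : Λ => V i) E η X X / η := by
    rw [← ward A hAs (fun i : Λ => V i) E hη X, ← Finset.sum_coe_sort Λ]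
    exact Finset.sum_congr rfl fun i _ => by rw [huΛ]
  have heq : ∀ y ∈ Λ, (∑ w ∈ Λ, (Kr T0 κ ρ s y w : ℂ) * u w) + ((V y : ℂ) - z) * u y =
      if y = x then 1 else 0 := by
    intro y hy
    have h1 := congrFun (congrFun (Mz_mul_Gm A hAs (fun i : Λ => V i) E hη) ⟨y, hy⟩) X
    rw [Matrix.mul_apply, Matrix.one_apply] at h1
    have h2 : (∑ j, Mz A (fun i : Λ => V i) E η ⟨y, hy⟩ j * Gm A (fun i : Λ => V i) E η j X) =
        (∑ w ∈ Λ, (Kr T0 κ ρ s y w : ℂ) * u w) + ((V y : ℂ) - z) * u y := by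
      have h3 := Mz_mulVec A (fun i : Λ => V i) E η (fun j => Gm A (fun i : Λ => V i) E η j X)
        ⟨y, hy⟩
      rw [Matrix.mulVec, dotProduct] at h3
      rw [h3, ← Finset.sum_coe_sort Λ]
      congr 1
      · exact Finset.sum_congr rfl fun i _ => by rw [huΛ]; rfl
      · have h4 := huΛ ⟨y, hy⟩
        simp only at h4
        rw [h4]
    rw [← h2, h1]
    have h5 : ((⟨y, hy⟩ : Λ) = X) ↔ y = x := by
      rw [hX, Subtype.mk.injEq]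
    simp only [h5]
  obtain ⟨hs1, hs2⟩ := trial_complex h s V z x hρ hρ0 hr Λ hΛ u f hf heq hT0 hT
  have hP0 : 0 < Pm A (fun i : Λ => V i) E η X X := Pm_diag_pos A hAs _ E hη X
  have hP1 : Pm A (fun i : Λ => V i) E η X X / η ≤ 1 / η ^ 2 := by
    have := Pm_diag_le A hAs (fun i : Λ => V i) E hη X
    calc Pm A (fun i : Λ => V i) E η X X / η ≤ (1 / η) / η := by gcongr
      _ = 1 / η ^ 2 := by field_simp
  have hs3 : ∑' y, ‖applC T0 κ s V z f y - if y = x then 1 else 0‖ ^ 2 ≤ e ^ 2 := by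
    refine hs2.trans ?_
    rw [hward]
    have k1 : 2 * ((ρ / r) * T) ^ 2 * (Pm A (fun i : Λ => V i) E η X X / η) ≤
        2 * ((ρ / r) * T) ^ 2 * (1 / η ^ 2) := by gcongr
    have k2 : ∑' y, ‖∑ w ∈ Λ, ((Kf T0 κ s y w - Kr T0 κ ρ s y w : ℝ) : ℂ) * f w‖ ^ 2 ≤
      e ^ 2 / 4 := hc2
    linarith
  have hsupp : f.support ⊆ Λ := by
    intro y hy
    by_contra hn
    exact (Finsupp.mem_support_iff.mp hy) (hg0 y hn)
  have hN : ∑ y ∈ f.support, ‖f y‖ ^ 2 ≤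
      Real.sqrt (Pm A (fun i : Λ => V i) E η X X / η) ^ 2 := by
    rw [Real.sq_sqrt (by positivity), ← hward]
    calc ∑ y ∈ f.support, ‖f y‖ ^ 2 ≤ ∑ y ∈ Λ, ‖f y‖ ^ 2 :=
          Finset.sum_le_sum_of_subset_of_nonneg hsupp (fun y _ _ => sq_nonneg _)
      _ ≤ ∑ y ∈ Λ, ‖u y‖ ^ 2 := by
          refine Finset.sum_le_sum fun y hy => ?_
          rw [hf y, if_pos hy, norm_mul, Complex.norm_real, Real.norm_eq_abs, mul_pow]
          have h3 : 0 ≤ max 0 (1 - ‖y - x‖ / r) := le_max_left _ _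
          have h4 : max 0 (1 - ‖y - x‖ / r) ≤ 1 := by
            refine max_le zero_le_one ?_
            have : 0 ≤ ‖y - x‖ / r := by positivity
            linarith
          rw [abs_of_nonneg h3]
          exact mul_le_of_le_one_left (sq_nonneg _) (pow_le_one₀ h3 h4)
  exact eig_le h s V z E0 x f he (Real.sqrt_nonneg _) hs1 hs3 hN ψ hψ.1 hψ.2

/-- `Pm x x` is at most the inverse of the imaginary part of the self energy -/
theorem Pm_le_inv {ι : Type*} [Fintype ι] [DecidableEq ι] (A : Matrix ι ι ℝ) (hA : A.IsSymm)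
    (hd : ∀ i, A i i = 0) (V : ι → ℝ) (E : ℝ) {η : ℝ} (hη : 0 < η) (x : ι) {m : ℝ} (hm : 0 < m)
    (h : m ≤ (Sg A V E η x).im) : Pm A V E η x x ≤ 1 / m := by
  unfold Pm
  rw [schur_diag A hA hd V E hη x]
  set ζ : ℂ := (V x : ℂ) - ((E : ℂ) + (η : ℂ) * Complex.I + Sg A V E η x) with hζ
  have him : ζ.im = -(η + (Sg A V E η x).im) := by
    rw [hζ]
    simp
  have h1 : m ≤ ‖ζ‖ := by
    calc m ≤ |ζ.im| := by
          rw [him, abs_neg, abs_of_pos (by linarith)]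
          linarith
      _ ≤ ‖ζ‖ := Complex.abs_im_le_norm _
  calc (ζ⁻¹).im ≤ |(ζ⁻¹).im| := le_abs_self _
    _ ≤ ‖ζ⁻¹‖ := Complex.abs_im_le_norm _
    _ = ‖ζ‖⁻¹ := norm_inv _
    _ ≤ m⁻¹ := by
        exact inv_anti₀ hm h1
    _ = 1 / m := by rw [one_div]

/-- numeric core: near the eigenvalue the Green function is large -/
theorem big_P {w e η P t n a : ℝ} (hw : 0 < w) (hη : 0 < η) (he : e ≤ Real.sqrt w / 2)
    (hP : 0 ≤ P) (hn : 0 < n) (ht : t ^ 2 ≤ 2 * η ^ 2)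
    (ha : Real.sqrt w * n ≤ a) (hb : a ≤ n * (e + t * Real.sqrt (P / η))) :
    w / (8 * η) ≤ P := by
  have h1 : Real.sqrt w * n ≤ n * (e + t * Real.sqrt (P / η)) := ha.trans hb
  have h2 : Real.sqrt w ≤ e + t * Real.sqrt (P / η) := by
    have : n * Real.sqrt w ≤ n * (e + t * Real.sqrt (P / η)) := by linarith
    exact le_of_mul_le_mul_left this hn
  have h3 : Real.sqrt w / 2 ≤ t * Real.sqrt (P / η) := by linarith
  have h4 : (Real.sqrt w / 2) ^ 2 ≤ (t * Real.sqrt (P / η)) ^ 2 :=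
    pow_le_pow_left₀ (by positivity) h3 2
  rw [div_pow, Real.sq_sqrt hw.le, mul_pow, Real.sq_sqrt (by positivity)] at h4
  have h5 : t ^ 2 * (P / η) ≤ 2 * η ^ 2 * (P / η) := mul_le_mul_of_nonneg_right ht (by positivity)
  have h6 : 2 * η ^ 2 * (P / η) = 2 * η * P := by field_simp
  rw [div_le_iff₀ (by positivity)]
  nlinarith

end H10PL
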