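import Pool.Agent.H10R2.PL.Fin2a

namespace H10PL

open MeasureTheory ProbabilityTheory Matrix Set Filter

variable {d : ℕ} {T0 : (Fin d → ℤ) → (Fin d → ℤ) → ℝ} {κ : (Fin d → ℤ) → ℝ} {ρ0 b : ℝ}

/-- environments with a real eigenvalue in `[-K0, K0]` and an eigenvector with a share at least
`w` of its mass at `x` -/
def EvR (T0 : (Fin d → ℤ) → (Fin d → ℤ) → ℝ) (κ : (Fin d → ℤ) → ℝ) (w K0 : ℝ)
    (x : Fin d → ℤ) : Set (((Fin d → ℤ) → ℝ) × (Sym2 (Fin d → ℤ) → Bool)) :=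
  {ω | ∃ E0 : ℝ, |E0| ≤ K0 ∧ ∃ ψ : (Fin d → ℤ) → ℂ, EigC T0 κ ω.2 ω.1 (E0 : ℂ) ψ ∧
    0 < ‖ψ x‖ ∧ w * ∑' y, ‖ψ y‖ ^ 2 ≤ ‖ψ x‖ ^ 2}

/-- pointwise part: near the eigenvalue the weight of the bad event is large -/
theorem Fm_large (h : Adm T0 κ ρ0 b) {w : ℝ} (hw : 0 < w) {ρ r T η e M : ℝ} (hρ : ρ0 ≤ ρ)
    (hρ0 : 0 ≤ ρ) (hr : 0 < r) (hη : 0 < η) (Λ : Finset (Fin d → ℤ)) (x : Fin d → ℤ)
    (hx : x ∈ Λ) (hΛ : ∀ y, ‖y - x‖ ≤ r + ρ → y ∈ Λ) (hT0 : 0 ≤ T)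
    (s : Sym2 (Fin d → ℤ) → Bool) (hT : ∀ y, ∑ w ∈ Λ, |Kr T0 κ ρ s y w| ≤ T) (he : 0 ≤ e)
    (he2 : e ≤ Real.sqrt w / 2) (hc1 : 2 * ((ρ / r) * T) ^ 2 * (1 / η ^ 2) ≤ e ^ 2 / 2)
    (hM : 8 / w < M) (V : (Fin d → ℤ) → ℝ) (E E0 : ℝ) (hE : |E - E0| ≤ η)
    (hc2 : ∑' y, ‖∑ w ∈ Λ, ((Kf T0 κ s y w - Kr T0 κ ρ s y w : ℝ) : ℂ) *
        fG T0 κ ρ η r Λ x hx s V E w‖ ^ 2 ≤ e ^ 2 / 4)
    (ψ : (Fin d → ℤ) → ℂ) (hψ : EigC T0 κ s V (E0 : ℂ) ψ) (hψx : 0 < ‖ψ x‖)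
    (hψw : w * ∑' y, ‖ψ y‖ ^ 2 ≤ ‖ψ x‖ ^ 2) :
    ENNReal.ofReal (w / (8 * η)) ≤ Fm T0 κ ρ η M Λ ⟨x, hx⟩ ((E, fun i : Λ => V i), s) := by
  have hAs := Am_symm h ρ Λ s
  set P := Pm (Am T0 κ ρ Λ s) (fun i : Λ => V i) E η ⟨x, hx⟩ ⟨x, hx⟩ with hP
  have hP0 : 0 < P := Pm_diag_pos _ hAs _ E hη _
  have hgf := gf_bound h s V E x hρ hρ0 hr hη Λ hΛ hx hT0 hT he hc1 hc2 (E0 : ℂ) ψ hψ
  have hn0 : 0 ≤ ∑' y, ‖ψ y‖ ^ 2 := tsum_nonneg fun y => sq_nonneg _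
  have hle : ‖ψ x‖ ^ 2 ≤ ∑' y, ‖ψ y‖ ^ 2 := hψ.1.le_tsum x (fun y _ => sq_nonneg _)
  have hn : 0 < Real.sqrt (∑' y, ‖ψ y‖ ^ 2) := by
    refine Real.sqrt_pos.2 (lt_of_lt_of_le ?_ hle)
    positivity
  have ha : Real.sqrt w * Real.sqrt (∑' y, ‖ψ y‖ ^ 2) ≤ ‖ψ x‖ := by
    rw [← Real.sqrt_mul hw.le]
    calc Real.sqrt (w * ∑' y, ‖ψ y‖ ^ 2) ≤ Real.sqrt (‖ψ x‖ ^ 2) := Real.sqrt_le_sqrt hψw
      _ = ‖ψ x‖ := Real.sqrt_sq (norm_nonneg _)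
  have ht : ‖(E0 : ℂ) - ((E : ℂ) + (η : ℂ) * Complex.I)‖ ^ 2 ≤ 2 * η ^ 2 := by
    rw [← Complex.normSq_eq_norm_sq, Complex.normSq_apply]
    have h1 : ((E0 : ℂ) - ((E : ℂ) + (η : ℂ) * Complex.I)).re = E0 - E := by simp
    have h2 : ((E0 : ℂ) - ((E : ℂ) + (η : ℂ) * Complex.I)).im = -η := by simp
    rw [h1, h2]
    have h3 := abs_le.1 hE
    nlinarith [h3.1, h3.2]
  have hbig : w / (8 * η) ≤ P := big_P hw hη he2 hP0.le hn ht ha hgf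
  have hlt : (Sg (Am T0 κ ρ Λ s) (fun i : Λ => V i) E η ⟨x, hx⟩).im < M * η := by
    by_contra hcon
    have hM0 : 0 < M := lt_trans (by positivity) hM
    have h1 := Pm_le_inv _ hAs (Am_diag h ρ Λ s) (fun i : Λ => V i) E hη ⟨x, hx⟩
      (show 0 < M * η by positivity) (not_lt.1 hcon)
    have h2 : w / (8 * η) ≤ 1 / (M * η) := hbig.trans h1
    rw [div_le_div_iff₀ (by positivity) (by positivity)] at h2
    have h3 : 8 < w * M := by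
      rw [div_lt_iff₀ hw] at hM
      linarith
    nlinarith
  unfold Fm
  rw [indicator_of_mem (show ((E, fun i : Λ => V i), s) ∈
    {p : (ℝ × (Λ → ℝ)) × (Sym2 (Fin d → ℤ) → Bool) |
    (Sg (Am T0 κ ρ Λ p.2) p.1.2 p.1.1 η ⟨x, hx⟩).im < M * η} from hlt)]
  exact ENNReal.ofReal_le_ofReal hbig

theorem site_bound (h : Adm T0 κ ρ0 b) (μ : Measure ℝ) [IsProbabilityMeasure μ] {w K0 : ℝ}
    (hw : 0 < w) (hK0 : 0 ≤ K0) {ρ r T η e ε1 M : ℝ} (hρ : ρ0 ≤ ρ) (hρ0 : 0 ≤ ρ) (hr : 0 < r)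
    (hη : 0 < η) (hη1 : η ≤ 1) (Λ : Finset (Fin d → ℤ)) (x : Fin d → ℤ) (hx : x ∈ Λ)
    (hΛ : ∀ y, ‖y - x‖ ≤ r + ρ → y ∈ Λ) (hT0 : 0 ≤ T)
    (hT : ∀ (s : Sym2 (Fin d → ℤ) → Bool) (y : Fin d → ℤ), ∑ w ∈ Λ, |Kr T0 κ ρ s y w| ≤ T)
    (he : 0 < e) (he2 : e ≤ Real.sqrt w / 2)
    (hc1 : 2 * ((ρ / r) * T) ^ 2 * (1 / η ^ 2) ≤ e ^ 2 / 2)
    (htail : 2 * (K0 + 1) * (2 * (∑' y : Fin d → ℤ, if ρ < ‖y‖ then κ y ^ 2 else 0) *
        (1 / η ^ 2) / (e ^ 2 / 4)) ≤ ε1 * η) (hM : 8 / w < M) :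
    ((PVg d μ).prod (Ps d)) (EvR T0 κ w K0 x) ≤ ENNReal.ofReal ε1 + ENNReal.ofReal (8 / w) *
      ∫⁻ p, Fm T0 κ ρ η M Λ ⟨x, hx⟩ ((p.1, fun i : Λ => p.2.1 i), p.2.2)
        ∂((volume.restrict (Icc (-(K0 + 1)) (K0 + 1))).prod ((PVg d μ).prod (Ps d))) := by
  obtain ⟨Z, hZm, hZ1, hZ2⟩ := long_complex h μ hρ hη hr Λ x hx (K := K0 + 1) (by linarith)
    (show 0 < e ^ 2 / 4 by positivity)
  set P := (PVg d μ).prod (Ps d) with hP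
  set μE := (volume.restrict (Icc (-(K0 + 1)) (K0 + 1)) : Measure ℝ) with hμE
  set gZ : ((Fin d → ℤ) → ℝ) × (Sym2 (Fin d → ℤ) → Bool) → ENNReal :=
    fun ω => μE ((fun E => (E, ω)) ⁻¹' Z) with hgZ
  have hgZm : Measurable gZ := measurable_measure_prodMk_right hZm
  have hgZi : ∫⁻ ω, gZ ω ∂P ≤ ENNReal.ofReal (ε1 * η) := by
    rw [hgZ, ← Measure.prod_apply_symm hZm]
    exact hZ2.trans (ENNReal.ofReal_le_ofReal htail)
  set G : ℝ × (((Fin d → ℤ) → ℝ) × (Sym2 (Fin d → ℤ) → Bool)) → ENNReal := fun p =>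
    Fm T0 κ ρ η M Λ ⟨x, hx⟩ ((p.1, fun i : Λ => p.2.1 i), p.2.2) with hG
  have hGm : Measurable G := by
    have h1 := Fm_meas (d := d) h ρ η M Λ ⟨x, hx⟩
    have h2 : Measurable fun p : ℝ × (((Fin d → ℤ) → ℝ) × (Sym2 (Fin d → ℤ) → Bool)) =>
        (((p.1, fun i : Λ => p.2.1 i), p.2.2) : (ℝ × (Λ → ℝ)) × (Sym2 (Fin d → ℤ) → Bool)) := by
      refine Measurable.prodMk (Measurable.prodMk measurable_fst ?_)
        (measurable_snd.comp measurable_snd)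
      refine measurable_pi_lambda _ fun i => ?_
      exact (measurable_pi_apply _).comp (measurable_fst.comp measurable_snd)
    have h3 := Measurable.comp h1 h2
    simp only [Function.comp_def] at h3
    exact h3
  set F : ((Fin d → ℤ) → ℝ) × (Sym2 (Fin d → ℤ) → Bool) → ENNReal :=
    fun ω => ∫⁻ E, G (E, ω) ∂μE with hF
  have hFm' : Measurable F := hGm.lintegral_prod_left'
  have hFi : ∫⁻ ω, F ω ∂P = ∫⁻ p, G p ∂(μE.prod P) := by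
    rw [hF, lintegral_prod_symm' _ hGm]
  have hη' : ENNReal.ofReal η ≠ 0 := by simpa using hη
  have hw8 : ENNReal.ofReal (w / 8) ≠ 0 := by
    have : 0 < w / 8 := by positivity
    simpa using this
  have hsub : EvR T0 κ w K0 x ⊆ {ω | ENNReal.ofReal η ≤ gZ ω} ∪
      {ω | ENNReal.ofReal (w / 8) ≤ F ω} := by
    intro ω hω
    by_contra hcon
    simp only [mem_union, not_or] at hcon
    obtain ⟨hc3, hc4⟩ := hcon
    have hc3' : gZ ω < ENNReal.ofReal η := not_le.1 hc3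
    apply hc4
    show ENNReal.ofReal (w / 8) ≤ F ω
    obtain ⟨E0, hE0, ψ, hψ, hψx, hψw⟩ := hω
    set I : Set ℝ := Icc (E0 - η) (E0 + η) with hI
    have hIK : I ⊆ Icc (-(K0 + 1)) (K0 + 1) := by
      intro E hE
      have h1 := abs_le.1 hE0
      exact ⟨by linarith [hE.1, h1.1], by linarith [hE.2, h1.2]⟩
    have hImeas : μE I = ENNReal.ofReal (2 * η) := by
      rw [hμE, Measure.restrict_apply measurableSet_Icc, inter_eq_left.2 hIK, hI,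
        Real.volume_Icc]
      congr 1
      ring
    set Zω : Set ℝ := (fun E => (E, ω)) ⁻¹' Z with hZω
    have hZωm : MeasurableSet Zω := measurable_prodMk_right hZm
    have hdiff : ENNReal.ofReal η ≤ μE (I \ Zω) := by
      have h1 : μE I - μE Zω ≤ μE (I \ Zω) := le_measure_sdiff
      refine le_trans ?_ h1
      rw [hImeas]
      have h2 : μE Zω ≤ ENNReal.ofReal η := hc3'.le
      calc ENNReal.ofReal η = ENNReal.ofReal (2 * η) - ENNReal.ofReal η := by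
            rw [← ENNReal.ofReal_sub _ hη.le]
            congr 1
            ring
        _ ≤ ENNReal.ofReal (2 * η) - μE Zω := tsub_le_tsub_left h2 _
    have hlow : ∀ E ∈ I \ Zω, ENNReal.ofReal (w / (8 * η)) ≤ G (E, ω) := by
      intro E hE
      have hEE : |E - E0| ≤ η := by
        rw [abs_le]
        exact ⟨by linarith [hE.1.1], by linarith [hE.1.2]⟩
      exact Fm_large h hw hρ hρ0 hr hη Λ x hx hΛ hT0 ω.2 (hT ω.2) he.le he2 hc1 hM ω.1 E E0 hEE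
        (hZ1 (E, ω) hE.2) ψ hψ hψx hψw
    calc ENNReal.ofReal (w / 8) = ENNReal.ofReal (w / (8 * η)) * ENNReal.ofReal η := by
          rw [← ENNReal.ofReal_mul (by positivity)]
          congr 1
          field_simp
      _ ≤ ENNReal.ofReal (w / (8 * η)) * μE (I \ Zω) := mul_le_mul' le_rfl hdiff
      _ = ∫⁻ _E in I \ Zω, ENNReal.ofReal (w / (8 * η)) ∂μE := by
          rw [setLIntegral_const]
      _ ≤ ∫⁻ E in I \ Zω, G (E, ω) ∂μE :=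
          setLIntegral_mono' (measurableSet_Icc.diff hZωm) hlow
      _ ≤ F ω := setLIntegral_le_lintegral _ _
  refine (measure_mono hsub).trans ((measure_union_le _ _).trans (add_le_add ?_ ?_))
  · refine (meas_ge_le_lintegral_div hgZm.aemeasurable hη' ENNReal.ofReal_ne_top).trans ?_
    calc (∫⁻ ω, gZ ω ∂P) / ENNReal.ofReal η ≤ ENNReal.ofReal (ε1 * η) / ENNReal.ofReal η := by
          gcongr
      _ = ENNReal.ofReal ε1 := by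
          rw [← ENNReal.ofReal_div_of_pos hη, mul_div_assoc, div_self hη.ne', mul_one]
  · refine (meas_ge_le_lintegral_div hFm'.aemeasurable hw8 ENNReal.ofReal_ne_top).trans ?_
    rw [hFi, ENNReal.div_eq_inv_mul, ← ENNReal.ofReal_inv_of_pos (by positivity)]
    have : (w / 8)⁻¹ = 8 / w := by rw [inv_div]
    rw [this]

end H10PL
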