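import Pool.Agent.H10R2.PL.Defs

/-!
Kleitman's vector Littlewood-Offord inequality (sharp form), by the chain decomposition.
-/

namespace H10PL

open Finset

set_option linter.unusedSectionVars false

section kle

variable {V : Type*} [NormedAddCommGroup V] [InnerProductSpace ℝ V]

/-- pairwise distances at least `2 r` -/
def KSep (r : ℝ) (C : List V) : Prop := C.Pairwise (fun s t => 2 * r ≤ ‖s - t‖)

theorem ksep_map_add {r : ℝ} {C : List V} (h : KSep r C) (a : V) :
    KSep r (C.map (fun s => s + a)) := by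
  unfold KSep at *
  rw [List.pairwise_map]
  refine h.imp ?_
  intro s t hst
  simpa using hst

theorem ksep_map_sub {r : ℝ} {C : List V} (h : KSep r C) (a : V) :
    KSep r (C.map (fun s => s - a)) := by
  unfold KSep at *
  rw [List.pairwise_map]
  refine h.imp ?_
  intro s t hst
  simpa using hst

theorem ksep_perm {r : ℝ} {C D : List V} (h : KSep r C) (hp : C.Perm D) : KSep r D := by
  unfold KSep at *
  refine (hp.pairwise_iff ?_).mp h
  intro x y hxy
  rw [norm_sub_rev]
  exact hxy

theorem exists_min_perm (f : V → ℝ) : ∀ C : List V, C ≠ [] →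
    ∃ s C', C.Perm (s :: C') ∧ ∀ t ∈ C, f s ≤ f t
  | [], h => absurd rfl h
  | [a], _ => ⟨a, [], List.Perm.refl _, by simp⟩
  | a :: b :: C, _ => by
    obtain ⟨s, C', hp, hs⟩ := exists_min_perm f (b :: C) (by simp)
    by_cases h : f a ≤ f s
    · exact ⟨a, b :: C, List.Perm.refl _, by
        intro t ht
        rcases List.mem_cons.mp ht with rfl | ht
        · exact le_rfl
        · exact h.trans (hs t ht)⟩
    · refine ⟨s, a :: C', ?_, ?_⟩
      · exact (hp.cons a).trans (List.Perm.swap s a C')
      · intro t ht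
        rcases List.mem_cons.mp ht with rfl | ht
        · exact (not_le.mp h).le
        · exact hs t ht

theorem far_of_inner {r : ℝ} (hr : 0 < r) {a w : V} (ha : r ≤ ‖a‖)
    (h : 0 ≤ inner ℝ w a) : 2 * r ≤ ‖w + (2 : ℝ) • a‖ := by
  have h1 : inner ℝ (w + (2 : ℝ) • a) a ≤ ‖w + (2 : ℝ) • a‖ * ‖a‖ := real_inner_le_norm _ _
  rw [inner_add_left, real_inner_smul_left, real_inner_self_eq_norm_sq] at h1
  have ha0 : 0 < ‖a‖ := lt_of_lt_of_le hr ha
  have h2 : (2 * ‖a‖) * ‖a‖ ≤ ‖w + (2 : ℝ) • a‖ * ‖a‖ := by nlinarith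
  have h3 : 2 * ‖a‖ ≤ ‖w + (2 : ℝ) • a‖ := le_of_mul_le_mul_right h2 ha0
  linarith

/-- one class, one large vector -/
theorem class_step {r : ℝ} (hr : 0 < r) {a : V} (ha : r ≤ ‖a‖) (C : List V) (hC : C ≠ [])
    (hs : KSep r C) : ∃ L : List (List V), (∀ D ∈ L, D ≠ [] ∧ KSep r D) ∧
      (∀ φ : V → ℕ, (L.map (fun D => (D.map φ).sum)).sum =
        (C.map (fun s => φ (s + a))).sum + (C.map (fun s => φ (s - a))).sum) ∧
      ∀ k, 1 ≤ k → L.countP (fun D => decide (k ≤ D.length)) =
        (if k - 1 ≤ C.length then 1 else 0) + (if k + 1 ≤ C.length then 1 else 0) := by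
  obtain ⟨s, C', hp, hmin⟩ := exists_min_perm (fun t => inner ℝ t a) C hC
  have hlen : C.length = C'.length + 1 := by simpa using hp.length_eq
  have hs' : KSep r (s :: C') := ksep_perm hs hp
  have hD1 : KSep r ((s - a) :: C.map (fun t => t + a)) := by
    unfold KSep
    rw [List.pairwise_cons]
    refine ⟨?_, ksep_map_add hs a⟩
    intro t ht
    obtain ⟨t', ht', rfl⟩ := List.mem_map.mp ht
    have := hmin t' ht'
    have h0 : 0 ≤ inner ℝ (t' - s) a := by rw [inner_sub_left]; linarith
    have h1 := far_of_inner hr ha h0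
    rw [norm_sub_rev]
    have e : t' + a - (s - a) = t' - s + (2 : ℝ) • a := by
      rw [two_smul]
      abel
    rw [e]
    exact h1
  have hsum : ∀ φ : V → ℕ, (((s - a) :: C.map (fun t => t + a)).map φ).sum +
      ((C'.map (fun t => t - a)).map φ).sum =
      (C.map (fun s => φ (s + a))).sum + (C.map (fun s => φ (s - a))).sum := by
    intro φ
    have h2 : (C.map (fun s => φ (s - a))).sum = ((s :: C').map (fun s => φ (s - a))).sum :=
      (hp.map _).sum_eq
    rw [h2]
    simp only [List.map_cons, List.sum_cons, List.map_map, Function.comp_def]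
    ring
  by_cases hC' : C' = []
  · refine ⟨[(s - a) :: C.map (fun t => t + a)], ?_, ?_, ?_⟩
    · intro D hD
      rw [List.mem_singleton] at hD
      subst hD
      exact ⟨by simp, hD1⟩
    · intro φ
      rw [← hsum φ]
      subst hC'
      simp
    · intro k hk
      subst hC'
      simp only [List.length_nil, zero_add] at hlen
      rw [hlen]
      have h3 : ¬ (k + 1 ≤ 1) := by omega
      rw [if_neg h3]
      by_cases h4 : k - 1 ≤ 1
      · have h5 : k ≤ C.length + 1 := by omega
        simp [List.countP_cons, h4, h5]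
      · have h5 : ¬ (k ≤ C.length + 1) := by omega
        simp [List.countP_cons, h4, h5]
  · refine ⟨[(s - a) :: C.map (fun t => t + a), C'.map (fun t => t - a)], ?_, ?_, ?_⟩
    · intro D hD
      rw [List.mem_cons, List.mem_singleton] at hD
      rcases hD with rfl | rfl
      · exact ⟨by simp, hD1⟩
      · refine ⟨by simpa using hC', ?_⟩
        apply ksep_map_sub
        unfold KSep at hs' ⊢
        exact (List.pairwise_cons.mp hs').2
    · intro φ
      rw [← hsum φ]
      simp
    · intro k hk
      rw [hlen]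
      simp only [List.countP_cons, List.countP_nil, List.length_cons, List.length_map, hlen]
      by_cases h4 : k - 1 ≤ C'.length + 1
      · have h5 : k ≤ C'.length + 1 + 1 := by omega
        by_cases h6 : k + 1 ≤ C'.length + 1
        · have h7 : k ≤ C'.length := by omega
          simp [h4, h5, h7]
        · have h7 : ¬ k ≤ C'.length := by omega
          simp [h4, h5, h7]
      · have h5 : ¬ (k ≤ C'.length + 1 + 1) := by omega
        have h6 : ¬ (k ≤ C'.length) := by omega
        simp [h4, h5, h6]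

/-- all classes, one large vector -/
theorem classes_step {r : ℝ} (hr : 0 < r) {a : V} (ha : r ≤ ‖a‖) (𝒞 : List (List V))
    (hC : ∀ C ∈ 𝒞, C ≠ [] ∧ KSep r C) : ∃ L : List (List V), (∀ D ∈ L, D ≠ [] ∧ KSep r D) ∧
      (∀ φ : V → ℕ, (L.map (fun D => (D.map φ).sum)).sum =
        (𝒞.map (fun C => (C.map (fun s => φ (s + a))).sum)).sum +
        (𝒞.map (fun C => (C.map (fun s => φ (s - a))).sum)).sum) ∧
      ∀ k, 1 ≤ k → L.countP (fun D => decide (k ≤ D.length)) =
        𝒞.countP (fun D => decide (k - 1 ≤ D.length)) +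
        𝒞.countP (fun D => decide (k + 1 ≤ D.length)) := by
  induction 𝒞 with
  | nil => exact ⟨[], by simp, by simp, by simp⟩
  | cons C 𝒞 ih =>
    obtain ⟨L, h1, h2, h3⟩ := ih (fun D hD => hC D (List.mem_cons_of_mem _ hD))
    obtain ⟨hCne, hCs⟩ := hC C List.mem_cons_self
    obtain ⟨L', h1', h2', h3'⟩ := class_step hr ha C hCne hCs
    refine ⟨L' ++ L, ?_, ?_, ?_⟩
    · intro D hD
      rcases List.mem_append.mp hD with h | h
      · exact h1' D h
      · exact h1 D h
    · intro φ
      rw [List.map_append, List.sum_append, h2' φ, h2 φ]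
      simp only [List.map_cons, List.sum_cons]
      ring
    · intro k hk
      rw [List.countP_append, h3' k hk, h3 k hk]
      simp only [List.countP_cons, decide_eq_true_eq]
      ring

/-- the number of classes of size at least `k` -/
def kg (K k : ℕ) : ℕ := if k ≤ K + 1 then K.choose ((K + 1 - k) / 2) else 0

theorem kg_zero (K : ℕ) : kg K 0 = kg K 1 := by
  unfold kg
  rw [if_pos (by omega), if_pos (by omega)]
  rcases Nat.even_or_odd' K with ⟨j, hj | hj⟩
  · congr 1
    omega
  · have h1 : (K + 1 - 0) / 2 = j + 1 := by omega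
    have h2 : (K + 1 - 1) / 2 = j := by omega
    rw [h1, h2]
    rw [← Nat.choose_symm (by omega : j ≤ K)]
    congr 1
    omega

theorem kg_succ (K k : ℕ) (hk : 1 ≤ k) : kg (K + 1) k = kg K (k - 1) + kg K (k + 1) := by
  unfold kg
  by_cases h1 : k ≤ K
  · rw [if_pos (by omega), if_pos (by omega), if_pos (by omega)]
    have h2 : (K + 1 + 1 - k) / 2 = (K - k) / 2 + 1 := by omega
    have h3 : (K + 1 - (k - 1)) / 2 = (K - k) / 2 + 1 := by omega
    have h4 : (K + 1 - (k + 1)) / 2 = (K - k) / 2 := by omega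
    rw [h2, h3, h4, Nat.choose_succ_succ]
    ring
  · by_cases h2 : k ≤ K + 2
    · rw [if_pos (by omega), if_pos (by omega), if_neg (by omega)]
      have h3 : (K + 1 + 1 - k) / 2 = 0 := by omega
      have h4 : (K + 1 - (k - 1)) / 2 = 0 := by omega
      rw [h3, h4]
      simp
    · rw [if_neg (by omega), if_neg (by omega), if_neg (by omega)]

/-- number of large vectors -/
noncomputable def kK (r : ℝ) {n : ℕ} (u : Fin n → V) : ℕ :=
  ∑ i, if r ≤ ‖u i‖ then 1 else 0

theorem kK_le (r : ℝ) {n : ℕ} (u : Fin n → V) : kK r u ≤ n := by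
  unfold kK
  calc ∑ i : Fin n, (if r ≤ ‖u i‖ then 1 else 0) ≤ ∑ i : Fin n, 1 := by
        apply Finset.sum_le_sum
        intro i _
        split_ifs <;> omega
    _ = n := by simp

theorem sum_bool_succ (n : ℕ) (u : Fin (n + 1) → V) (φ : V → ℕ) :
    ∑ ε : Fin (n + 1) → Bool, φ (∑ i, sg (ε i) • u i) =
      ∑ ε : Fin n → Bool, φ ((∑ i, sg (ε i) • u i.succ) + u 0) +
      ∑ ε : Fin n → Bool, φ ((∑ i, sg (ε i) • u i.succ) - u 0) := by
  rw [← (Fin.consEquiv (fun _ => Bool)).sum_comp, Fintype.sum_prod_type]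
  rw [Fintype.sum_bool]
  congr 1
  · apply Finset.sum_congr rfl
    intro ε _
    congr 1
    rw [Fin.sum_univ_succ]
    simp [Fin.consEquiv, sg, add_comm]
  · apply Finset.sum_congr rfl
    intro ε _
    congr 1
    rw [Fin.sum_univ_succ]
    simp [Fin.consEquiv, sg]
    abel

theorem classes_exist {r : ℝ} (hr : 0 < r) : ∀ (n : ℕ) (u : Fin n → V),
    ∃ 𝒞 : List (List V), (∀ C ∈ 𝒞, C ≠ [] ∧ KSep r C) ∧
      (∀ φ : V → ℕ, ∑ ε : Fin n → Bool, φ (∑ i, sg (ε i) • u i) =
        (𝒞.map (fun C => (C.map φ).sum)).sum) ∧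
      ∀ k, 𝒞.countP (fun D => decide (k ≤ D.length)) = 2 ^ (n - kK r u) * kg (kK r u) k := by
  intro n
  induction n with
  | zero =>
    intro u
    refine ⟨[[0]], ?_, ?_, ?_⟩
    · intro C hC
      rw [List.mem_singleton] at hC
      subst hC
      exact ⟨by simp, by unfold KSep; simp⟩
    · intro φ
      simp
    · intro k
      have h0 : kK r u = 0 := by unfold kK; simp
      rw [h0]
      simp only [List.countP_cons, List.countP_nil, List.length_cons, List.length_nil]
      unfold kg
      by_cases h1 : k ≤ 1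
      · have h2 : (0 + 1 - k) / 2 = 0 := by omega
        rw [h2]
        simp [h1]
      · simp [h1]
  | succ n ih =>
    intro u
    obtain ⟨𝒞, h1, h2, h3⟩ := ih (fun i => u i.succ)
    have hK' := kK_le r (fun i : Fin n => u i.succ)
    by_cases ha : r ≤ ‖u 0‖
    · obtain ⟨L, g1, g2, g3⟩ := classes_step hr ha 𝒞 h1
      have hK : kK r u = kK r (fun i : Fin n => u i.succ) + 1 := by
        unfold kK
        rw [Fin.sum_univ_succ, if_pos ha, add_comm]
      refine ⟨L, g1, ?_, ?_⟩
      · intro φ
        rw [sum_bool_succ, g2 φ, h2 (fun v => φ (v + u 0)), h2 (fun v => φ (v - u 0))]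
      · have hmain : ∀ k, 1 ≤ k → L.countP (fun D => decide (k ≤ D.length)) =
            2 ^ (n + 1 - kK r u) * kg (kK r u) k := by
          intro k hk
          rw [g3 k hk, h3, h3, hK, kg_succ _ _ hk]
          rw [show n + 1 - (kK r (fun i : Fin n => u i.succ) + 1) =
            n - kK r (fun i : Fin n => u i.succ) from by omega]
          ring
        intro k
        rcases Nat.eq_zero_or_pos k with hk | hk
        · subst hk
          rw [kg_zero, ← hmain 1 le_rfl]
          apply List.countP_congr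
          intro D hD
          have := List.length_pos_iff.mpr (g1 D hD).1
          simp only [decide_eq_true_eq]
          omega
        · exact hmain k hk
    · have hK : kK r u = kK r (fun i : Fin n => u i.succ) := by
        unfold kK
        rw [Fin.sum_univ_succ, if_neg ha, zero_add]
      refine ⟨𝒞.map (fun C => C.map (fun s => s + u 0)) ++
        𝒞.map (fun C => C.map (fun s => s - u 0)), ?_, ?_, ?_⟩
      · intro D hD
        rcases List.mem_append.mp hD with h | h
        · obtain ⟨C, hC, rfl⟩ := List.mem_map.mp h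
          exact ⟨by simpa using (h1 C hC).1, ksep_map_add (h1 C hC).2 _⟩
        · obtain ⟨C, hC, rfl⟩ := List.mem_map.mp h
          exact ⟨by simpa using (h1 C hC).1, ksep_map_sub (h1 C hC).2 _⟩
      · intro φ
        rw [sum_bool_succ, h2 (fun v => φ (v + u 0)), h2 (fun v => φ (v - u 0))]
        rw [List.map_append, List.sum_append]
        simp only [List.map_map, Function.comp_def]
      · intro k
        rw [List.countP_append, List.countP_map, List.countP_map]
        simp only [Function.comp_def, List.length_map]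
        rw [h3, hK, show n + 1 - kK r (fun i : Fin n => u i.succ) =
          (n - kK r (fun i : Fin n => u i.succ)) + 1 from by omega, pow_succ]
        ring

theorem class_ball {r : ℝ} (q : V) (C : List V) (hs : KSep r C) :
    (C.map (fun s => if ‖q + s‖ < r then 1 else 0)).sum ≤ 1 := by
  induction C with
  | nil => simp
  | cons s C ih =>
    unfold KSep at hs
    rw [List.pairwise_cons] at hs
    have ih' := ih hs.2
    rw [List.map_cons, List.sum_cons]
    by_cases h : ‖q + s‖ < r
    · rw [if_pos h]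
      have h0 : (C.map (fun s => if ‖q + s‖ < r then 1 else 0)).sum = 0 := by
        rw [List.sum_eq_zero_iff]
        intro x hx
        obtain ⟨t, ht, rfl⟩ := List.mem_map.mp hx
        rw [if_neg]
        intro h'
        have h1 := hs.1 t ht
        have h2 : ‖s - t‖ ≤ ‖q + s‖ + ‖q + t‖ := by
          have : s - t = (q + s) - (q + t) := by abel
          rw [this]
          exact norm_sub_le _ _
        linarith
      rw [h0]
    · rw [if_neg h, zero_add]
      exact ih'

/-- Kleitman's inequality when only some of the vectors are large. -/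
theorem kleitman_gen (n : ℕ) (u : Fin n → V) {r : ℝ} (hr : 0 < r) (q : V) :
    (Finset.univ.filter fun ε : Fin n → Bool => ‖q + ∑ i, sg (ε i) • u i‖ < r).card ≤
      2 ^ (n - kK r u) * (kK r u).choose (kK r u / 2) := by
  obtain ⟨𝒞, h1, h2, h3⟩ := classes_exist hr n u
  rw [Finset.card_filter]
  have h4 := h2 (fun v => if ‖q + v‖ < r then 1 else 0)
  rw [h4]
  have h5 : (𝒞.map (fun C => (C.map (fun v => if ‖q + v‖ < r then 1 else 0)).sum)).sum ≤
      𝒞.length := by
    clear h2 h3 h4
    induction 𝒞 with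
    | nil => simp
    | cons C 𝒞 ih =>
      rw [List.map_cons, List.sum_cons, List.length_cons]
      have := ih (fun D hD => h1 D (List.mem_cons_of_mem _ hD))
      have := class_ball q C (h1 C List.mem_cons_self).2
      omega
  refine h5.trans ?_
  have h6 := h3 1
  have h7 : 𝒞.countP (fun D => decide (1 ≤ D.length)) = 𝒞.length := by
    rw [List.countP_eq_length]
    intro D hD
    have := List.length_pos_iff.mpr (h1 D hD).1
    simp only [decide_eq_true_eq]
    omega
  rw [← h7, h6]
  unfold kg
  rw [if_pos (by omega)]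
  simp

theorem kleitman (n : ℕ)
    (u : Fin n → V) {r : ℝ} (hr : 0 < r) (hu : ∀ i, r ≤ ‖u i‖) (q : V) :
    (Finset.univ.filter fun ε : Fin n → Bool => ‖q + ∑ i, sg (ε i) • u i‖ < r).card ≤
      n.choose (n / 2) := by
  have h := kleitman_gen n u hr q
  have hK : kK r u = n := by
    unfold kK
    rw [Finset.sum_congr rfl (fun i _ => if_pos (hu i))]
    simp
  rw [hK] at h
  simpa using h

end kle

theorem central_sq (m : ℕ) : ((2 * m).choose m) ^ 2 * (2 * m + 1) ≤ 16 ^ m := by
  induction m with
  | zero => simp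
  | succ m ih =>
    have h1 : (m + 1) * (2 * (m + 1)).choose (m + 1) = 2 * (2 * m + 1) * (2 * m).choose m := by
      have := Nat.succ_mul_centralBinom_succ m
      simpa [Nat.centralBinom] using this
    have hpos : 0 < (m + 1) ^ 2 := by positivity
    refine Nat.le_of_mul_le_mul_left ?_ hpos
    calc (m + 1) ^ 2 * ((2 * (m + 1)).choose (m + 1) ^ 2 * (2 * (m + 1) + 1))
        = ((m + 1) * (2 * (m + 1)).choose (m + 1)) ^ 2 * (2 * m + 3) := by ring
      _ = 4 * ((2 * m + 1) * (2 * m + 3)) * (((2 * m).choose m) ^ 2 * (2 * m + 1)) := by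
          rw [h1]; ring
      _ ≤ 4 * (4 * (m + 1) ^ 2) * 16 ^ m := by
          apply Nat.mul_le_mul _ ih
          nlinarith
      _ = (m + 1) ^ 2 * 16 ^ (m + 1) := by ring

theorem choose_mid_le (n : ℕ) : ((n.choose (n / 2) : ℕ) : ℝ) ≤ 2 ^ n / Real.sqrt (n + 1) := by
  have hs : 0 < Real.sqrt (n + 1) := Real.sqrt_pos.mpr (by positivity)
  rw [le_div_iff₀ hs]
  have key : ((n.choose (n / 2) : ℕ) : ℝ) ^ 2 * (n + 1) ≤ (2 ^ n) ^ 2 := by
    rcases Nat.even_or_odd' n with ⟨m, hm | hm⟩
    · have h := central_sq m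
      have h2 : n / 2 = m := by omega
      rw [h2, hm]
      have h3 : ((((2 * m).choose m) ^ 2 * (2 * m + 1) : ℕ) : ℝ) ≤ ((16 ^ m : ℕ) : ℝ) := by
        exact_mod_cast h
      push_cast at h3 ⊢
      calc (((2 * m).choose m : ℕ) : ℝ) ^ 2 * (2 * (m : ℝ) + 1) ≤ 16 ^ m := h3
        _ = (2 ^ (2 * m)) ^ 2 := by
            rw [← pow_mul, show 2 * m * 2 = 4 * m from by ring, pow_mul]
            norm_num
    · have h := central_sq (m + 1)
      have h2 : n / 2 = m := by omega
      have h4 : (2 * (m + 1)).choose (m + 1) = 2 * (2 * m + 1).choose m := by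
        rw [show 2 * (m + 1) = 2 * m + 1 + 1 from by ring, Nat.choose_succ_succ,
          Nat.choose_symm_half]
        ring
      rw [h4] at h
      rw [h2, hm]
      have h5 : ((2 * m + 1).choose m) ^ 2 * (2 * m + 2) ≤ (2 ^ (2 * m + 1)) ^ 2 := by
        have h6 : (2 ^ (2 * m + 1)) ^ 2 = 4 * 16 ^ m := by
          rw [← pow_mul, show (2 * m + 1) * 2 = 4 * m + 2 from by ring, pow_add, pow_mul]
          norm_num
          ring
        rw [h6]
        have h7 : 4 * (((2 * m + 1).choose m) ^ 2 * (2 * m + 3)) ≤ 4 * (4 * 16 ^ m) := by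
          calc 4 * (((2 * m + 1).choose m) ^ 2 * (2 * m + 3))
              = (2 * (2 * m + 1).choose m) ^ 2 * (2 * (m + 1) + 1) := by ring
            _ ≤ 16 ^ (m + 1) := h
            _ = 4 * (4 * 16 ^ m) := by ring
        nlinarith [Nat.zero_le (((2 * m + 1).choose m) ^ 2)]
      have h8 : ((((2 * m + 1).choose m) ^ 2 * (2 * m + 2) : ℕ) : ℝ) ≤
          (((2 ^ (2 * m + 1)) ^ 2 : ℕ) : ℝ) := by exact_mod_cast h5
      push_cast at h8 ⊢
      calc (((2 * m + 1).choose m : ℕ) : ℝ) ^ 2 * (2 * (m : ℝ) + 1 + 1)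
          = (((2 * m + 1).choose m : ℕ) : ℝ) ^ 2 * (2 * (m : ℝ) + 2) := by ring
        _ ≤ (2 ^ (2 * m + 1)) ^ 2 := h8
  have h9 : (((n.choose (n / 2) : ℕ) : ℝ) * Real.sqrt (n + 1)) ^ 2 ≤ (2 ^ n) ^ 2 := by
    rw [mul_pow, Real.sq_sqrt (by positivity)]
    exact key
  exact (pow_le_pow_iff_left₀ (by positivity) (by positivity) (by norm_num)).mp h9

end H10PL
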