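import Pool.Agent.H10R2.PL.Lat2

namespace H10PL

open MeasureTheory ProbabilityTheory Matrix Set Filter

variable {d : ℕ} {T0 : (Fin d → ℤ) → (Fin d → ℤ) → ℝ} {κ : (Fin d → ℤ) → ℝ} {ρ0 b : ℝ}

theorem norm_le_iff_Icc (y : Fin d → ℤ) (n : ℕ) :
    ‖y‖ ≤ n ↔ y ∈ Finset.Icc (fun _ : Fin d => -(n : ℤ)) (fun _ => (n : ℤ)) := by
  rw [pi_norm_le_iff_of_nonneg (Nat.cast_nonneg n), Finset.mem_Icc, Pi.le_def, Pi.le_def,
    ← forall_and]
  refine forall_congr' fun i => ?_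
  rw [Int.norm_eq_abs, ← abs_le]
  constructor
  · intro h
    exact_mod_cast h
  · intro h
    exact_mod_cast h

theorem Icc_card (n : ℕ) :
    (Finset.Icc (fun _ : Fin d => -(n : ℤ)) (fun _ => (n : ℤ))).card = (2 * n + 1) ^ d := by
  rw [Pi.card_Icc]
  simp only [Int.card_Icc, Finset.prod_const, Finset.card_univ, Fintype.card_fin]
  congr 1
  omega

theorem Qb_card (Λ : Finset (Fin d → ℤ)) (R : ℕ) (hΛ : ∀ y : Fin d → ℤ, ‖y‖ ≤ R → y ∈ Λ) :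
    (Qb Λ (R : ℝ)).card = (2 * R + 1) ^ d := by
  classical
  rw [← Icc_card (d := d) R]
  refine Finset.card_bij (fun i _ => (i : Fin d → ℤ)) ?_ ?_ ?_
  · intro i hi
    exact (norm_le_iff_Icc _ _).1 (Finset.mem_filter.1 hi).2
  · intro i _ j _ hij
    exact Subtype.ext hij
  · intro y hy
    have hy' := (norm_le_iff_Icc y R).2 hy
    exact ⟨⟨y, hΛ y hy'⟩, Finset.mem_filter.2 ⟨Finset.mem_univ _, hy'⟩, rfl⟩

theorem Nb_card_le (Λ : Finset (Fin d → ℤ)) (R : ℝ) {R' : ℝ} (hR' : 0 ≤ R') (x : Λ) :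
    ((Nb Λ R R' x).card : ℝ) ≤ (2 * R' + 1) ^ d := by
  classical
  have h1 : (Nb Λ R R' x).card ≤ (2 * ⌊R'⌋₊ + 1) ^ d := by
    rw [← Icc_card (d := d) ⌊R'⌋₊]
    refine Finset.card_le_card_of_injOn (fun i : Λ => (x : Fin d → ℤ) - (i : Fin d → ℤ)) ?_ ?_
    · intro i hi
      have h2 := (Finset.mem_filter.1 hi).2.2.2
      refine (norm_le_iff_Icc _ _).1 ?_
      rw [pi_norm_le_iff_of_nonneg (Nat.cast_nonneg _)]
      intro j
      have h3 := (norm_le_pi_norm ((x : Fin d → ℤ) - (i : Fin d → ℤ)) j).trans h2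
      rw [Int.norm_eq_abs] at h3 ⊢
      have h4 : ((|((x : Fin d → ℤ) - (i : Fin d → ℤ)) j|.toNat : ℕ) : ℝ) ≤ R' := by
        have : ((|((x : Fin d → ℤ) - (i : Fin d → ℤ)) j|.toNat : ℤ) : ℝ) =
            |((((x : Fin d → ℤ) - (i : Fin d → ℤ)) j : ℤ) : ℝ)| := by
          rw [Int.toNat_of_nonneg (abs_nonneg _)]
          push_cast
          rfl
        have h5 : ((|((x : Fin d → ℤ) - (i : Fin d → ℤ)) j|.toNat : ℕ) : ℝ) =
            ((|((x : Fin d → ℤ) - (i : Fin d → ℤ)) j|.toNat : ℤ) : ℝ) := by norm_cast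
        rw [h5, this]
        exact h3
      have h6 := Nat.le_floor h4
      have h7 : |((x : Fin d → ℤ) - (i : Fin d → ℤ)) j| ≤ (⌊R'⌋₊ : ℤ) := by
        have h8 : |((x : Fin d → ℤ) - (i : Fin d → ℤ)) j| =
          (|((x : Fin d → ℤ) - (i : Fin d → ℤ)) j|.toNat : ℤ) :=
            (Int.toNat_of_nonneg (abs_nonneg _)).symm
        rw [h8]
        exact_mod_cast h6
      exact_mod_cast h7
    · intro i _ j _ hij
      exact Subtype.ext (by simpa using hij)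
  calc ((Nb Λ R R' x).card : ℝ) ≤ (((2 * ⌊R'⌋₊ + 1) ^ d : ℕ) : ℝ) := by exact_mod_cast h1
    _ = (2 * (⌊R'⌋₊ : ℝ) + 1) ^ d := by push_cast; ring
    _ ≤ (2 * R' + 1) ^ d := by
        have := Nat.floor_le hR'
        gcongr

theorem par_t2 {K p c0 L n Q ε : ℝ} (hK : 0 < K) (hc0 : 0 < c0) (hL : 0 < L) (hQ : 0 < Q)
    (hε : 0 < ε) (hn : n ≤ Q / L) (hL2 : 24 * K * p ^ 2 / (c0 * ε) ≤ L) :
    2 * K * p ^ 2 * n / (c0 * Q / 4) ≤ ε / 3 := by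
  have h1 : 24 * K * p ^ 2 ≤ L * (c0 * ε) := by
    rwa [div_le_iff₀ (by positivity)] at hL2
  rw [div_le_iff₀ (by positivity)]
  have h2 : n * L ≤ Q := by rwa [le_div_iff₀ hL] at hn
  have h3 : 2 * K * p ^ 2 * n * (12 * L) ≤ ε / 3 * (c0 * Q / 4) * (12 * L) := by
    have h4 : 24 * K * p ^ 2 * (n * L) ≤ 24 * K * p ^ 2 * Q :=
      mul_le_mul_of_nonneg_left h2 (by positivity)
    have h5 : 24 * K * p ^ 2 * Q ≤ L * (c0 * ε) * Q := mul_le_mul_of_nonneg_right h1 hQ.le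
    nlinarith
  exact le_of_mul_le_mul_right h3 (by positivity)

theorem par_t3 {K p B c0 T Q ε : ℝ} (hc0 : 0 < c0) (hT : 0 < T) (hQ : 0 < Q)
    (hε : 0 < ε) (hT2 : 384 * K * p * B ^ 2 / (c0 * ε) ≤ T) :
    2 * K * p * (16 * B ^ 2 / (T / Q * (c0 * Q / 4))) ≤ ε / 3 := by
  have h1 : 384 * K * p * B ^ 2 ≤ T * (c0 * ε) := by
    rwa [div_le_iff₀ (by positivity)] at hT2
  have h2 : 2 * K * p * (16 * B ^ 2 / (T / Q * (c0 * Q / 4))) = 128 * K * p * B ^ 2 / (T * c0) := by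
    field_simp
    ring
  rw [h2, div_le_iff₀ (by positivity)]
  nlinarith

/-- there are arbitrarily large scales `R` at which the profile varies by a bounded factor over
`R/L ≤ ‖z‖ ≤ R`, with `R ^ d * |κ|` arbitrarily large -/
def Prof (κ : (Fin d → ℤ) → ℝ) : Prop :=
  ∀ L : ℝ, 1 ≤ L → ∃ B : ℝ, ∀ N : ℝ, ∃ R β : ℝ, N ≤ R ∧ 0 < β ∧ N ≤ β * R ^ d ∧
    ∀ z : Fin d → ℤ, R / L ≤ ‖z‖ → ‖z‖ ≤ R → β ≤ |κ z| ∧ |κ z| ≤ B * β

theorem mass_small (h : Adm T0 κ ρ0 b) (hd : 0 < d) (μ : Measure ℝ) [IsProbabilityMeasure μ]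
    {D : ℝ} (hD : 0 ≤ D) (hμ : μ ≤ ENNReal.ofReal D • volume) (hprof : Prof κ)
    {K M ε : ℝ} (hK : 0 < K) (hM : 0 < M) (hε : 0 < ε) :
    ∃ (R : ℕ) (η : ℝ), 0 < η ∧ η ≤ 1 ∧ ∀ (Λ : Finset (Fin d → ℤ)) (ρ : ℝ),
      (∀ y : Fin d → ℤ, ‖y‖ ≤ R → y ∈ Λ) → 2 * (R : ℝ) ≤ ρ →
      ∑ x ∈ Qb Λ (R : ℝ), ∫⁻ p, Fm T0 κ ρ η M Λ x ((p.1, fun i : Λ => p.2.1 i), p.2.2)
        ∂((volume.restrict (Icc (-K) K)).prod ((PVg d μ).prod (Ps d))) ≤
      ENNReal.ofReal (ε * (Qb Λ (R : ℝ)).card) := by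
  have hpi := Real.pi_pos
  obtain ⟨c0, hc0⟩ : ∃ c0, c0 = ε / (6 * K) := ⟨_, rfl⟩
  have hc00 : 0 < c0 := by rw [hc0]; positivity
  obtain ⟨L, hL⟩ := exists_nat_ge (24 * K * (Real.pi * D) ^ 2 / (c0 * ε) + 1)
  have hL0 : 0 ≤ 24 * K * (Real.pi * D) ^ 2 / (c0 * ε) := by positivity
  have hL1 : (1 : ℝ) ≤ L := by linarith
  have hL2 : 24 * K * (Real.pi * D) ^ 2 / (c0 * ε) ≤ L := by linarith
  have hLpos : (0 : ℝ) < L := by linarith
  obtain ⟨B, hB⟩ := hprof (4 * (L : ℝ)) (by linarith)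
  obtain ⟨T, hT⟩ : ∃ T, T = 4 / c0 + 384 * K * (Real.pi * D) * B ^ 2 / (c0 * ε) := ⟨_, rfl⟩
  have hT1 : 0 ≤ 384 * K * (Real.pi * D) * B ^ 2 / (c0 * ε) := by positivity
  have hT2 : 0 < 4 / c0 := by positivity
  have hT0 : 0 < T := by rw [hT]; linarith
  have hT3 : 4 / c0 ≤ T := by rw [hT]; linarith
  have hT4 : 384 * K * (Real.pi * D) * B ^ 2 / (c0 * ε) ≤ T := by rw [hT]; linarith
  obtain ⟨N, hN⟩ : ∃ N, N = 2 * (L : ℝ) + 2 + T + 8 * M * T * 4 ^ d / c0 := ⟨_, rfl⟩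
  have hN0 : 0 ≤ 8 * M * T * 4 ^ d / c0 := by positivity
  obtain ⟨S, β, hS, hβ0, hβS, hann⟩ := hB N
  have hS1 : 2 * (L : ℝ) + 2 ≤ S := by linarith
  have hST : T + 1 ≤ S := by linarith
  have hN1 : 1 ≤ N := by linarith
  have hSpos : 0 < S := by linarith
  obtain ⟨R, hRdef⟩ : ∃ R : ℕ, R = ⌊S / 2⌋₊ := ⟨_, rfl⟩
  have hRle : 2 * (R : ℝ) ≤ S := by
    have := Nat.floor_le (show 0 ≤ S / 2 by positivity)
    rw [← hRdef] at this
    linarith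
  have hRge : S - 1 ≤ 2 * (R : ℝ) + 1 := by
    have := Nat.lt_floor_add_one (S / 2)
    rw [← hRdef] at this
    linarith
  obtain ⟨Q, hQ⟩ : ∃ Q : ℝ, Q = (2 * (R : ℝ) + 1) ^ d := ⟨_, rfl⟩
  have hR1 : (1 : ℝ) ≤ 2 * (R : ℝ) + 1 := by
    have : (0 : ℝ) ≤ R := Nat.cast_nonneg R
    linarith
  have hQ0 : 0 < Q := by rw [hQ]; positivity
  have hQT : T ≤ Q := by
    calc T ≤ 2 * (R : ℝ) + 1 := by linarith
      _ = (2 * (R : ℝ) + 1) ^ 1 := (pow_one _).symm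
      _ ≤ (2 * (R : ℝ) + 1) ^ d := pow_le_pow_right₀ hR1 hd
      _ = Q := hQ.symm
  refine ⟨R, T / Q, by positivity, (div_le_one hQ0).2 hQT, ?_⟩
  intro Λ ρ hΛ hρ
  have hcard : ((Qb Λ (R : ℝ)).card : ℝ) = Q := by
    rw [Qb_card Λ R hΛ, hQ]
    push_cast
    ring
  obtain ⟨R', hR'⟩ : ∃ R' : ℝ, R' = S / (4 * L) := ⟨_, rfl⟩
  have hR'0 : 0 < R' := by rw [hR']; positivity
  have hκ3 : ∀ z : Fin d → ℤ, R' < ‖z‖ → ‖z‖ ≤ 2 * (R : ℝ) → β ≤ |κ z| ∧ |κ z| ≤ B * β := by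
    intro z hz1 hz2
    refine hann z ?_ (hz2.trans hRle)
    rw [← hR']
    exact hz1.le
  have hn2 : ∀ x ∈ Qb Λ (R : ℝ), ((Nb Λ (R : ℝ) R' x).card : ℝ) ≤ Q / L := by
    intro x _
    refine (Nb_card_le Λ (R : ℝ) hR'0.le x).trans ?_
    have e1 : 2 * R' + 1 ≤ (2 * (R : ℝ) + 1) / L := by
      rw [le_div_iff₀ hLpos, hR']
      have : (2 * (S / (4 * L)) + 1) * L = S / 2 + L := by field_simp; ring
      rw [this]
      linarith
    calc (2 * R' + 1) ^ d ≤ ((2 * (R : ℝ) + 1) / L) ^ d := by gcongr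
      _ = Q / L ^ d := by rw [div_pow, hQ]
      _ ≤ Q / L := by
          refine div_le_div_of_nonneg_left hQ0.le hLpos ?_
          calc (L : ℝ) = L ^ 1 := (pow_one _).symm
            _ ≤ L ^ d := pow_le_pow_right₀ hL1 hd
  have hq : c0 * Q / 4 + c0 * Q / 4 + 2 / (T / Q) ≤ c0 * Q := by
    have e1 : 2 / (T / Q) = 2 * Q / T := by field_simp
    rw [e1]
    have e2 : 2 * Q / T ≤ c0 * Q / 2 := by
      rw [div_le_iff₀ hT0]
      have e3 : 4 ≤ T * c0 := by rwa [div_le_iff₀ hc00] at hT3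
      nlinarith
    linarith
  have hMq : M * (T / Q) ≤ β ^ 2 * (c0 * Q / 4) / 2 := by
    have e1 : 8 * M * T * 4 ^ d ≤ N ^ 2 * c0 := by
      have e0 : 8 * M * T * 4 ^ d / c0 ≤ N := by linarith
      rw [div_le_iff₀ hc00] at e0
      have e00 : N * c0 ≤ N ^ 2 * c0 := by
        refine mul_le_mul_of_nonneg_right ?_ hc00.le
        nlinarith
      exact e0.trans e00
    have e2 : N ^ 2 ≤ (β * S ^ d) ^ 2 := pow_le_pow_left₀ (by linarith) hβS 2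
    have e3 : S ^ d ≤ 2 ^ d * Q := by
      rw [hQ, ← mul_pow]
      refine pow_le_pow_left₀ hSpos.le ?_ d
      linarith
    have e4 : (β * S ^ d) ^ 2 ≤ (β * (2 ^ d * Q)) ^ 2 :=
      pow_le_pow_left₀ (by positivity) (mul_le_mul_of_nonneg_left e3 hβ0.le) 2
    have e5 : (β * (2 ^ d * Q)) ^ 2 = β ^ 2 * Q ^ 2 * 4 ^ d := by
      have : (4 : ℝ) ^ d = (2 ^ d) ^ 2 := by
        rw [← pow_mul, mul_comm d 2, pow_mul]
        norm_num
      rw [this]; ring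
    have e6 : 8 * M * T ≤ β ^ 2 * Q ^ 2 * c0 := by
      have e7 : 8 * M * T * 4 ^ d ≤ β ^ 2 * Q ^ 2 * c0 * 4 ^ d := by
        calc 8 * M * T * 4 ^ d ≤ N ^ 2 * c0 := e1
          _ ≤ (β * (2 ^ d * Q)) ^ 2 * c0 :=
              mul_le_mul_of_nonneg_right (e2.trans e4) hc00.le
          _ = β ^ 2 * Q ^ 2 * c0 * 4 ^ d := by rw [e5]; ring
      exact le_of_mul_le_mul_right e7 (by positivity)
    have e8 : M * (T / Q) * (8 * Q) ≤ β ^ 2 * (c0 * Q / 4) / 2 * (8 * Q) := by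
      have e9 : M * (T / Q) * (8 * Q) = 8 * M * T := by field_simp
      rw [e9]
      have e10 : β ^ 2 * (c0 * Q / 4) / 2 * (8 * Q) = β ^ 2 * Q ^ 2 * c0 := by ring
      rw [e10]
      exact e6
    exact le_of_mul_le_mul_right e8 (by positivity)
  have hmain := mass_lat h μ hD hμ (R := (R : ℝ)) hR'0.le hρ Λ hβ0 hκ3 hK
    (show 0 < T / Q by positivity) (show 0 < c0 * Q by positivity)
    (show 0 < c0 * Q / 4 by positivity) (show 0 < c0 * Q / 4 by positivity) hq hMq hn2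
    (by positivity)
  refine hmain.trans (ENNReal.ofReal_le_ofReal ?_)
  rw [hcard]
  have t1 : 2 * K * (c0 * Q) = ε / 3 * Q := by
    rw [hc0]; field_simp; ring
  have t2 := par_t2 (p := Real.pi * D) hK hc00 hLpos hQ0 hε (le_refl (Q / L)) hL2
  have t3 := par_t3 (K := K) (p := Real.pi * D) (B := B) hc00 hT0 hQ0 hε hT4
  have t4 : Q * (2 * K * (Real.pi * D) ^ 2 * (Q / L) / (c0 * Q / 4) +
      2 * K * (Real.pi * D) * (16 * B ^ 2 / (T / Q * (c0 * Q / 4)))) ≤ Q * (ε / 3 + ε / 3) :=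
    mul_le_mul_of_nonneg_left (add_le_add t2 t3) hQ0.le
  rw [t1]
  linarith

/-- two-sided power bounds with exponent less than `d` give a profile -/
theorem prof_power (hd : 0 < d) {c C α : ℝ} (hc : 0 < c) (hα0 : 0 < α) (hα : α < d)
    (hκ2 : ∀ y : Fin d → ℤ, y ≠ 0 → c * ‖y‖ ^ (-α) ≤ |κ y| ∧ |κ y| ≤ C * ‖y‖ ^ (-α)) :
    Prof κ := by
  intro L hL
  refine ⟨|C| / c * L ^ α, fun N => ?_⟩
  have hlim : Tendsto (fun R : ℝ => c * R ^ ((d : ℝ) - α)) atTop atTop :=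
    Tendsto.const_mul_atTop hc (tendsto_rpow_atTop (by linarith))
  obtain ⟨R, hR1, hR2, hR3⟩ := ((hlim.eventually_ge_atTop N).and
    ((eventually_ge_atTop N).and (eventually_ge_atTop 1))).exists
  have hR0 : 0 < R := by linarith
  have hL0 : 0 < L := by linarith
  refine ⟨R, c * R ^ (-α), hR2, by positivity, ?_, ?_⟩
  · have : c * R ^ (-α) * R ^ d = c * R ^ ((d : ℝ) - α) := by
      rw [mul_assoc, ← Real.rpow_natCast R d, ← Real.rpow_add hR0]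
      congr 2
      ring
    rw [this]
    exact hR1
  · intro z hz1 hz2
    have hRL : 0 < R / L := by positivity
    have hz0 : 0 < ‖z‖ := lt_of_lt_of_le hRL hz1
    have hzne : z ≠ 0 := norm_pos_iff.1 hz0
    obtain ⟨g1, g2⟩ := hκ2 z hzne
    constructor
    · refine le_trans ?_ g1
      refine mul_le_mul_of_nonneg_left ?_ hc.le
      exact Real.rpow_le_rpow_of_nonpos hz0 hz2 (by linarith)
    · have e1 : ‖z‖ ^ (-α) ≤ (R / L) ^ (-α) :=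
        Real.rpow_le_rpow_of_nonpos hRL hz1 (by linarith)
      have e2 : (R / L) ^ (-α) = L ^ α * R ^ (-α) := by
        rw [Real.div_rpow hR0.le hL0.le, Real.rpow_neg hL0.le α, div_eq_mul_inv, inv_inv]
        ring
      calc |κ z| ≤ C * ‖z‖ ^ (-α) := g2
        _ ≤ |C| * ‖z‖ ^ (-α) := mul_le_mul_of_nonneg_right (le_abs_self _) (by positivity)
        _ ≤ |C| * (L ^ α * R ^ (-α)) := by
            rw [← e2]
            exact mul_le_mul_of_nonneg_left e1 (abs_nonneg _)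
        _ = |C| / c * L ^ α * (c * R ^ (-α)) := by field_simp

end H10PL
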