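import Pool.Agent.H10R2.PL.Defs

/-! The profile condition of the third theorem. -/

namespace H10PL

variable {d : ℕ}

/-- the profile does not vanish in weak `l1` at infinity -/
def Prof3 (κ : (Fin d → ℤ) → ℝ) : Prop :=
  ∃ c1 : ℝ, 0 < c1 ∧ ∀ t0 : ℝ, 0 < t0 → ∃ t : ℝ, 0 < t ∧ t ≤ t0 ∧
    ∃ F : Finset (Fin d → ℤ), (∀ y ∈ F, t ≤ |κ y|) ∧ c1 ≤ t * F.card

end H10PL
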